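import Pool.Agent.Lib.MP_d26cd8_an.Nil.Defs
import Pool.Agent.Lib.MP_d26cd8_an.HK.Defs
import Pool.Agent.Lib.MP_d26cd8_an.HK.PG

/-!
# MP_d26cd8_an: section 4 of block D and STAGE 1 (nilsystems), Specs (helper56)

Text: /team-store/MP_d26cd8_an_STAGE1_h56.md.  Each Spec is proved as a theorem
`theorem specX (h1 : SpecY) ... : SpecX` in its own file; any other Spec may be assumed (no
cycles; order: NilExp, Rat, Char | P | Flag | Cpt, U, Haar | Class, Side, Mal, Avg, E | Pol, Path,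
Poly | NT0 | NT).
-/

set_option autoImplicit false

open MeasureTheory Filter Topology Polynomial
open scoped ComplexConjugate

namespace MPd26.Nil

/-! ## NIL: exponentials of nilpotent Lie algebras of functions -/

/-- NIL (section 1 of the text). -/
def SpecNilExp : Prop :=
  ∀ (ι : Type) (m : ℕ) (V K K' : Submodule ℝ (ι → Mat m)), IsNil V → IsIdl V K → IsIdl V K' →
    K' ≤ K → (∀ v ∈ V, ∀ k ∈ K, v * k - k * v ∈ K') → ∀ x ∈ V, ∀ κ ∈ K,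
    (∃ k ∈ K', E (x + κ) = E x * E κ * E k) ∧ (∃ k ∈ K', E x * E κ = E (x + κ + k)) ∧
      (∃ k ∈ K', Ad (E x) κ = κ + k)

/-- rational structure -/
def SpecRat : Prop :=
  ∀ (ι : Type) (m : ℕ) (R : Submodule ℚ (ι → MatQ m)),
    (∀ q, castM q ∈ rs R → q ∈ R) ∧
    (∀ φ : R →ₗ[ℚ] ℝ, ∃ Φ : (ι → Mat m) →ₗ[ℝ] ℝ, ∀ q : R, Φ (castM q.1) = φ q)

/-- the real points form a nilpotent Lie algebra, ideals go to ideals -/
def SpecRatNil : Prop :=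
  ∀ (ι : Type) (m : ℕ) (A : RAlg ι m), IsNil A.V ∧
    ∀ R : Submodule ℚ (ι → MatQ m), R ≤ A.Q → brQ A.Q R ≤ R → IsIdl A.V (rs R)

/-- continuous characters of `exp V` are given by linear functionals -/
def SpecChar : Prop :=
  ∀ (ι : Type) (m : ℕ) (V : Submodule ℝ (ι → Mat m)), IsNil V → ∀ c : (ι → UT m) → Circle,
    ContinuousOn c (GV V) → (∀ g ∈ GV V, ∀ h ∈ GV V, c (g * h) = c g * c h) →
    ∃ φ : (ι → Mat m) →ₗ[ℝ] ℝ, KillBr V φ ∧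
      ∀ v ∈ V, c (E v) = Circle.exp (2 * Real.pi * φ v)

/-! ## P: abstract unique ergodicity (section 2 of the text) -/

/-- data for the abstract theorem -/
structure PSetup (Ξ G J : Type) [TopologicalSpace Ξ] [Group G] [TopologicalSpace G]
    [MulAction G Ξ] where
  D : ℕ
  d : ℕ
  hd : d ≤ D
  /-- chain of normal subgroups -/
  H : ℕ → Subgroup G
  H_zero : H 0 = ⊥
  H_top : H D = ⊤
  H_le : ∀ k < D, H k ≤ H (k + 1)
  /-- one-parameter subgroups -/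
  w : ℕ → ℝ → G
  w_cont : ∀ k < D, Continuous (w k)
  w_add : ∀ k < D, ∀ s t, w k (s + t) = w k s * w k t
  w_mem : ∀ k < D, ∀ t, w k t ∈ H (k + 1)
  H_succ : ∀ k < D, ∀ g ∈ H (k + 1), ∃ t, ∃ h ∈ H k, g = w k t * h
  comm : ∀ k < D, ∀ g, ∀ h ∈ H (k + 1), g * h * g⁻¹ * h⁻¹ ∈ H k
  per : ∀ k < D, ∀ z : Ξ, ∃ h ∈ H k, w k 1 • z = h • z
  per' : ∀ k, d ≤ k → k < D → ∀ z : Ξ, ∃ h ∈ H d, w k 1 • z = h • z
  /-- the maps -/
  τ : J → Ξ → Ξ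
  τ_cont : ∀ j, Continuous (τ j)
  α : J → G → G
  τ_smul : ∀ j g z, τ j (g • z) = α j g • τ j z
  α_mem : ∀ j, ∀ k < D, ∀ g ∈ H (k + 1), α j g * g⁻¹ ∈ H k
  b : J → G
  τ_b : ∀ j z, ∃ h ∈ H d, τ j z = h • b j • z
  trans : ∀ z z' : Ξ, ∃ g : G, g • z = z'
  char6 : ∀ c : G →* Circle, Continuous c → (∀ j g, c (α j g) = c g) → ∀ h ∈ H d, c h = 1
  char7 : ∀ c : G →* Circle, Continuous c → (∀ h ∈ H d, c h = 1) →
    (∀ k, d ≤ k → k < D → c (w k 1) = 1) → (∀ j, c (b j) = 1) → ∀ g, c g = 1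

/-- P -/
def SpecP : Prop :=
  ∀ (Ξ G J : Type) [TopologicalSpace Ξ] [CompactSpace Ξ] [T2Space Ξ] [SecondCountableTopology Ξ]
    [MeasurableSpace Ξ] [BorelSpace Ξ] [Nonempty Ξ] [Group G] [TopologicalSpace G]
    [IsTopologicalGroup G] [MulAction G Ξ] [ContinuousSMul G Ξ] (S : PSetup Ξ G J),
    ∃ ν : Measure Ξ, IsProbabilityMeasure ν ∧ (∀ g : G, ν.map (fun z => g • z) = ν) ∧
      (∀ j, ν.map (S.τ j) = ν) ∧
      ∀ θ : Measure Ξ, IsProbabilityMeasure θ → (∀ j, θ.map (S.τ j) = θ) → θ = ν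

/-- equidistribution from unique ergodicity -/
def SpecEqui : Prop :=
  ∀ (Y J : Type) [TopologicalSpace Y] [CompactSpace Y] [T2Space Y] [SecondCountableTopology Y]
    [MeasurableSpace Y] [BorelSpace Y] (S : Set Y), IsClosed S → ∀ τ : J → Y → Y,
    (∀ j, Continuous (τ j)) → ∀ ν : Measure Y,
    (∀ θ : Measure Y, IsProbabilityMeasure θ → θ S = 1 → (∀ j, θ.map (τ j) = θ) → θ = ν) →
    ∀ θ : ℕ → Measure Y, (∀ n, IsProbabilityMeasure (θ n)) → (∀ n, θ n S = 1) →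
    (∀ j, ∀ Φ : Y → ℝ, Continuous Φ →
      Tendsto (fun n => ∫ y, Φ (τ j y) ∂(θ n) - ∫ y, Φ y ∂(θ n)) atTop (𝓝 0)) →
    ∀ Φ : Y → ℂ, Continuous Φ → Tendsto (fun n => ∫ y, Φ y ∂(θ n)) atTop (𝓝 (∫ y, Φ y ∂ν))

/-! ## FLAG, compactness, unique ergodicity on nilmanifolds (section 3) -/

/-- FLAG: generators adapted to a descending chain; reversed indexing, `span (e 0, …, e (k-1))`
is the `k`-th term. -/
def SpecFlag : Prop :=
  ∀ (ι : Type) (m : ℕ) (A : RAlg ι m) (R : ℕ) (U : ℕ → Submodule ℚ (ι → MatQ m)),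
    U 0 = A.Q → U R = ⊥ → (∀ r, U (r + 1) ≤ U r) →
    ∃ (D : ℕ) (e : ℕ → ι → MatQ m) (d : ℕ → ℕ),
      (∀ k < D, e k ∈ A.Q ∧ ∀ i, expU (castM (e k) i) ∈ LT m) ∧
      (∀ r ≤ R, d r ≤ D ∧ U r = Submodule.span ℚ (e '' Set.Iio (d r))) ∧ d 0 = D ∧ d R = 0 ∧
      (∀ r < R, ∀ k, d (r + 1) ≤ k → k < d r → e k ∈ U r)

/-- the space `NM m` and the orbits are compact -/
def SpecCpt : Prop :=
  (∀ m : ℕ, CompactSpace (NM m)) ∧
  ∀ (ι : Type) [Countable ι] (m : ℕ) (A : RAlg ι m) (f0 : ι → UT m), IsCompact (orb A.V f0)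

/-- U: unique ergodicity of a family of affine maps of a nilmanifold `f₀ exp(V) Γ / Γ`. -/
def SpecU : Prop :=
  ∀ (ι : Type) [Countable ι] (m : ℕ) (A : RAlg ι m) (f0 : ι → UT m) (J : Type)
    (τ : J → (ι → NM m) → (ι → NM m)) (s : J → (ι → Mat m) →ₐ[ℝ] (ι → Mat m))
    (b : J → ι → UT m),
    (∀ j, Continuous (τ j)) → (∀ j, ∀ q ∈ A.Q, ∃ q' ∈ A.Q, s j (castM q) = castM q') →
    (∀ j, Lg (b j) ∈ A.V) →
    (∀ j, ∀ v ∈ A.V, τ j (mkp (f0 * E v)) = mkp (f0 * b j * E (s j v))) →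
    (∃ (R : ℕ) (U : ℕ → Submodule ℚ (ι → MatQ m)), U 0 = A.Q ∧ U R = ⊥ ∧
      ∀ r, brQ A.Q (U r) ≤ U (r + 1) ∧
        ∀ j, ∀ q ∈ U r, ∃ q' ∈ U (r + 1), s j (castM q) - castM q = castM q') →
    (∀ φ : (ι → Mat m) →ₗ[ℝ] ℝ, RatOn A φ → KillBr A.V φ →
      (∀ j, ∀ v ∈ A.V, φ (s j v) = φ v) → (∀ j, ∃ n : ℤ, φ (Lg (b j)) = n) →
      ∀ v ∈ A.V, φ v = 0) →
    ∃ ν : Measure (ι → NM m), IsHaar A.V f0 ν ∧ (∀ j, ν.map (τ j) = ν) ∧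
      ∀ θ : Measure (ι → NM m), IsProbabilityMeasure θ → θ (orb A.V f0) = 1 →
        (∀ j, θ.map (τ j) = θ) → θ = ν

/-- existence and uniqueness of the invariant probability -/
def SpecHaar : Prop :=
  ∀ (ι : Type) [Countable ι] (m : ℕ) (A : RAlg ι m) (f0 : ι → UT m),
    ∃ ν : Measure (ι → NM m), IsHaar A.V f0 ν ∧ ∀ ν', IsHaar A.V f0 ν' → ν' = ν

/-! ## Section 4 of block D -/

/-- 4.2: classification of the ergodic measures of a family of one-parameter groups. -/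
def SpecClass : Prop :=
  ∀ (ι : Type) [Fintype ι] (m : ℕ) (J : Type) (ξ : J → ι → Mat m), (∀ j, SU (ξ j)) →
    ∀ ν : Measure (ι → NM m), IsProbabilityMeasure ν →
    (∀ j (t : ℝ), MeasurePreserving (act (E (t • ξ j))) ν ν) →
    (∀ B, MeasurableSet B → (∀ j (t : ℝ), act (E (t • ξ j)) ⁻¹' B = B) → ν B = 0 ∨ ν B = 1) →
    ∃ (x0 : ι → UT m) (A : RAlg ι m), (∀ j, Ad x0⁻¹ (ξ j) ∈ A.V) ∧
      FlowIrr A (fun j => Ad x0⁻¹ (ξ j)) ∧ IsHaar A.V x0 ν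

/-- 4.3: if `ρ` on `(NM m)^ι` is invariant and ergodic under the flows `exp(tξ)` acting on the
coordinates in `a j`, and its support contains the diagonal points of `N = x₀ exp(V) Γ / Γ`, then
all elements of `x₀ exp(V) x₀⁻¹`, acting on the coordinates in `a j`, preserve `ρ`. -/
def SpecSide : Prop :=
  ∀ (ι : Type) [Fintype ι] (m : ℕ) (ξ : Mat m), IsSU ξ → ∀ (x0 : UT m) (A : RAlg Unit m),
    (Ad (fun _ => x0⁻¹) (fun _ => ξ)) ∈ A.V →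
    FlowIrr A (fun _ : Unit => Ad (fun _ => x0⁻¹) (fun _ => ξ)) →
    ∀ (J : Type) (a : J → Set ι) (ρ : Measure (ι → NM m)), IsProbabilityMeasure ρ →
    (∀ j (t : ℝ), MeasurePreserving
      (act (E ((a j).indicator (fun _ => t • ξ)))) ρ ρ) →
    (∀ B, MeasurableSet B → (∀ j (t : ℝ), act (E ((a j).indicator (fun _ => t • ξ))) ⁻¹' B = B) →
      ρ B = 0 ∨ ρ B = 1) →
    (∀ O : Set (NM m), IsOpen O → ((x0 : UT m) : NM m) ∈ O → 0 < ρ {z | ∀ i, z i ∈ O}) →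
    ∀ j, ∀ v ∈ A.V, ∀ g : ι → UT m,
      (∀ i, (i ∈ a j → g i = x0 * E v () * x0⁻¹) ∧ (i ∉ a j → g i = 1)) →
      MeasurePreserving (act g) ρ ρ

/-- MALCEV coordinates of the second kind for `exp V`, with `ℤ^d` corresponding to the integral
points, and the invariant measure of `x₀ exp(V) Γ / Γ`. -/
def SpecMal : Prop :=
  ∀ (m : ℕ) (A : RAlg Unit m), ∃ (d : ℕ) (P : HK.PG d) (ψ : P.Gp →* UT m),
    Continuous ψ ∧ Function.Injective ψ ∧ Set.range ψ = {g | (fun _ : Unit => logU g) ∈ A.V} ∧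
    (∀ z : P.Gp, ψ z ∈ LT m ↔ HK.IsInt z) ∧
    (∀ v : Unit → Mat m, v ∈ A.V → ∃ a : ℝ → P.Gp, Continuous a ∧
      (∀ s t, a (s + t) = a s * a t) ∧ ∀ t : ℝ, ψ (a t) = E (t • v) ()) ∧
    ∀ (x0 : UT m) (ν : Measure (Unit → NM m)), IsHaar A.V (fun _ => x0) ν →
      ν = (volume.restrict (HK.box d)).map (fun z _ => ((x0 * ψ z : UT m) : NM m))

/-! ## STAGE 1 -/

/-- AVG: a function orthogonal to the continuous `exp(R)`-invariant functions is a limit of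
coboundaries. -/
def SpecAvg : Prop :=
  ∀ (ι : Type) [Countable ι] (m : ℕ) (A : RAlg ι m) (R : Submodule ℚ (ι → MatQ m)), R ≤ A.Q →
    brQ A.Q R ≤ R → ∀ ν : Measure (ι → NM m), IsHaar A.V 1 ν →
    ∀ F : (ι → NM m) → ℂ, HK.Bdd F →
    (∀ G : (ι → NM m) → ℂ, ContinuousOn G (orb A.V 1) →
      (∀ v ∈ rs R, ∀ z ∈ orb A.V 1, G (act (E v) z) = G z) → ∫ z in orb A.V 1, F z * G z ∂ν = 0) →
    ∀ η : ℝ, 0 < η → ∃ (n : ℕ) (f : Fin n → (ι → NM m) → ℂ) (v : Fin n → ι → Mat m),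
      (∀ i, Continuous (f i) ∧ v i ∈ rs R) ∧
      ∫ z, ‖F z - ∑ i, (f i (act (E (v i)) z) - f i z)‖ ^ 2 ∂ν ≤ η

/-- E: functions with vanishing dual box averages of order `l` are orthogonal to the
`exp(V_l)`-invariant continuous functions. -/
def SpecE : Prop :=
  ∀ (m : ℕ) (A : RAlg Unit m) (η : Unit → Mat m), η ∈ A.V → ∀ ν : Measure (Unit → NM m),
    IsHaar A.V 1 ν → ∀ (l : ℕ), 1 ≤ l → ∀ F : (Unit → NM m) → ℂ, HK.Bdd F →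
    (∀ H : HK.Vx l → (Unit → NM m) → ℂ, (∀ ε, Continuous (H ε)) →
      Tendsto (fun N : ℕ => ((N : ℂ) ^ l)⁻¹ * ∑ h : Fin l → Fin N, ∫ z, F z *
        ∏ ε ∈ Finset.univ.filter (fun ε : HK.Vx l => ε ≠ HK.v0),
          H ε (act (E (((∑ i ∈ Finset.univ.filter (fun i => ε i = true), (h i : ℕ) : ℕ) : ℝ) • η)) z)
            ∂ν) atTop (𝓝 0)) →
    ∀ G : (Unit → NM m) → ℂ, ContinuousOn G (orb A.V 1) →
      (∀ v ∈ rs (lcs A.Q (l - 1)), ∀ z ∈ orb A.V 1, G (act (E v) z) = G z) →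
      ∫ z in orb A.V 1, F z * G z ∂ν = 0

/-- `δ`-central series: `dlcs A δ 0 = A`, `dlcs A δ (k+1) = [A, ·] + [δ, ·]`. -/
def dlcs {ι : Type} {m : ℕ} (A : Submodule ℚ (ι → MatQ m)) (δ : ι → MatQ m) :
    ℕ → Submodule ℚ (ι → MatQ m)
  | 0 => A
  | k + 1 => Submodule.span ℚ ({x | ∃ q ∈ A, ∃ r ∈ dlcs A δ k, x = q * r - r * q} ∪
      {x | ∃ r ∈ dlcs A δ k, x = δ * r - r * δ})

/-- the data of STAGE 1: `N₀ = exp(A.V) Γ / Γ`, `γ = exp δ ∈ Γ` normalises, `e ∈ A.V` is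
horizontally irrational, the transformation is `τ = exp(δ + e)`. -/
structure NData (m : ℕ) where
  A : RAlg Unit m
  δ : Unit → MatQ m
  su : SU (castM δ)
  int : expU (castM δ ()) ∈ LT m
  der : ∀ q ∈ A.Q, δ * q - q * δ ∈ A.Q
  e : Unit → Mat m
  he : e ∈ A.V
  irr : ∀ φ : (Unit → Mat m) →ₗ[ℝ] ℝ, RatOn A φ → (∀ q ∈ dlcs A.Q δ 1, φ (castM q) = 0) →
    (∃ x : ℚ, φ e = x) → ∀ q ∈ A.Q, φ (castM q) = 0

namespace NData
variable {m : ℕ} (X : NData m)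
/-- `γ` -/
noncomputable def γ : UT m := expU (castM X.δ ())
/-- `τ` -/
noncomputable def τ : UT m := expU (castM X.δ () + X.e ())
end NData

/-! ### polynomial functions on `(Bool → ℤ) × κ` -/

/-- the index set -/
abbrev Ix (κ : Type) : Type := (Bool → ℤ) × κ

/-- the shift of the index in direction `c` -/
def sh {κ : Type} (c : Bool) (x : Ix κ) : Ix κ := (x.1 + Pi.single c 1, x.2)

/-- polynomial functions of degree `< k` -/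
def Pol (𝕜 : Type) [Field 𝕜] (κ : Type) : ℕ → Set (Ix κ → 𝕜)
  | 0 => {0}
  | k + 1 => {f | ∀ c : Bool, (fun x => f (sh c x) - f x) ∈ Pol 𝕜 κ k}

/-- POL: elementary properties of polynomial functions. -/
def SpecPol : Prop :=
  ∀ (𝕜 : Type) [Field 𝕜] [CharZero 𝕜] (κ : Type),
    (∀ k (f g : Ix κ → 𝕜), f ∈ Pol 𝕜 κ k → g ∈ Pol 𝕜 κ k → f + g ∈ Pol 𝕜 κ k) ∧
    (∀ k (c : 𝕜) (f : Ix κ → 𝕜), f ∈ Pol 𝕜 κ k → c • f ∈ Pol 𝕜 κ k) ∧
    (∀ k l, k ≤ l → Pol 𝕜 κ k ⊆ Pol 𝕜 κ l) ∧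
    (∀ k l (f g : Ix κ → 𝕜), f ∈ Pol 𝕜 κ (k + 1) → g ∈ Pol 𝕜 κ (l + 1) →
      f * g ∈ Pol 𝕜 κ (k + l + 1)) ∧
    (∀ (P : κ → 𝕜[X]) (a : κ → Bool) (n : 𝕜) (D : ℕ), (∀ k, (P k).natDegree ≤ D) →
      (fun x : Ix κ => (P x.2).eval (((x.1 (a x.2) : ℤ) : 𝕜) + n)) ∈ Pol 𝕜 κ (D + 1)) ∧
    (∀ u : κ → 𝕜, (fun x : Ix κ => u x.2) ∈ Pol 𝕜 κ 1) ∧
    (Finite κ → ∀ k, FiniteDimensional 𝕜 (Submodule.span 𝕜 (Pol 𝕜 κ k)))

/-- POLGEN: a set of rational polynomial maps of bounded degree generates a rational nilpotent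
Lie algebra, with a descending chain for the brackets, the shifts and the conjugation by `γ`. -/
def SpecPolGen : Prop :=
  ∀ (κ : Type) [Finite κ] (m : ℕ) (γ : UT m), γ ∈ LT m → ∀ (S : Set (Ix κ → MatQ m)) (D : ℕ),
    (∀ q ∈ S, SU (castM q)) → (∀ q ∈ S, ∀ i j, (fun x => q x i j) ∈ Pol ℚ κ D) →
    (∀ q ∈ S, ∀ c, (fun x => q (sh c x)) ∈ S) →
    (∀ q ∈ S, ∃ q' ∈ S, castM q' = Ad (fun _ => γ) (castM q)) →
    ∃ B : RAlg (Ix κ) m, S ⊆ B.Q ∧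
      (∀ W : Submodule ℚ (Ix κ → MatQ m), S ⊆ W → (∀ q ∈ W, ∀ r ∈ W, q * r - r * q ∈ W) →
        B.Q ≤ W) ∧
      (∀ q ∈ B.Q, ∀ c, (fun x => q (sh c x)) ∈ B.Q) ∧
      (∀ q ∈ B.Q, ∃ q' ∈ B.Q, castM q' = Ad (fun _ => γ) (castM q)) ∧
      ∃ (R : ℕ) (U : ℕ → Submodule ℚ (Ix κ → MatQ m)), U 0 = B.Q ∧ U R = ⊥ ∧
        ∀ r, brQ B.Q (U r) ≤ U (r + 1) ∧ (∀ q ∈ U r, ∀ c, (fun x => q (sh c x)) - q ∈ U (r + 1)) ∧
          ∀ q ∈ U r, ∃ q' ∈ U (r + 1), Ad (fun _ => γ) (castM q) - castM q = castM q'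

/-- PATH: a path in `exp W` with velocities in `V` stays in `exp V`; horizontal coordinates are
integrals of the velocity. -/
def SpecPath : Prop :=
  ∀ (ι : Type) (m : ℕ) (V W : Submodule ℝ (ι → Mat m)), IsNil V → IsNil W → V ≤ W →
    ∀ (β : ℝ → ι → UT m) (v : ℝ → ι → Mat m), β 0 = 1 → (∀ s, Lg (β s) ∈ W) → (∀ s, v s ∈ V) →
    (∀ s i j k, HasDerivAt (fun h : ℝ => ((β s i)⁻¹ * β (s + h) i).mat j k) (v s i j k) 0) →
    (∀ s, Lg (β s) ∈ V) ∧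
    ∀ φ : (ι → Mat m) →ₗ[ℝ] ℝ, KillBr V φ → ∀ c : ℝ, (∀ s, φ (v s) = c) →
      ∀ s, φ (Lg (β s)) = c * s

section PolyDefs
variable {κ : Type} {m : ℕ} (X : NData m) (P : κ → ℤ[X]) (a : κ → Bool)

/-- `P_k(i_{a(k)})` -/
noncomputable def ev (x : Ix κ) : ℤ := (P x.2).eval (x.1 (a x.2))

/-- base point `f₀(i,k) = τ^p γ^{-p}`, `p = P_k(i_{a(k)})` -/
noncomputable def pf0 (x : Ix κ) : UT m := X.τ ^ ev P a x * (X.γ ^ ev P a x)⁻¹

/-- the maps: `none` = `T` on all coordinates, `some c` = shift in direction `c` -/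
noncomputable def pτ : Option Bool → (Ix κ → NM m) → (Ix κ → NM m)
  | none => fun z x => X.τ • z x
  | some c => fun z x => z (sh c x)

/-- their translation parts -/
noncomputable def pb : Option Bool → Ix κ → UT m
  | none => fun x => X.γ ^ ev P a x * (X.τ * X.γ⁻¹) * (X.γ ^ ev P a x)⁻¹
  | some c => fun x => (pf0 X P a x)⁻¹ * pf0 X P a (sh c x)

/-- their linear parts, as functions -/
noncomputable def ps : Option Bool → (Ix κ → Mat m) → (Ix κ → Mat m)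
  | none => Ad (fun _ => X.γ)
  | some c => fun v x => v (sh c x)

end PolyDefs

/-- POLYV: the rational Lie algebra of polynomial maps attached to the orbit. -/
def SpecPolyV : Prop :=
  ∀ (m : ℕ) (X : NData m) (κ : Type) [Finite κ] (P : κ → ℤ[X]) (a : κ → Bool),
    ∃ B : RAlg (Ix κ) m,
      (∀ w ∈ X.A.Q, ∀ n : Bool → ℤ, ∃ q ∈ B.Q, castM q = fun x =>
        Ad (fun _ => X.γ ^ ((P x.2).eval (x.1 (a x.2) + n (a x.2)))) (castM w) ()) ∧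
      (∀ w ∈ X.A.Q, ∀ (n : ℤ) (c : Bool), ∃ q ∈ B.Q, castM q = fun x => if a x.2 = c then
        (((derivative (P x.2)).eval (x.1 c + n) : ℤ) : ℝ) •
          Ad (fun _ => X.γ ^ ((P x.2).eval (x.1 c + n))) (castM w) () else 0) ∧
      (∀ j, ∀ q ∈ B.Q, ∃ q' ∈ B.Q, ps X j (castM q) = castM q') ∧
      (∀ j, Lg (pb X P a j) ∈ B.V) ∧
      (∃ (R : ℕ) (U : ℕ → Submodule ℚ (Ix κ → MatQ m)), U 0 = B.Q ∧ U R = ⊥ ∧
        ∀ r, brQ B.Q (U r) ≤ U (r + 1) ∧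
          ∀ j, ∀ q ∈ U r, ∃ q' ∈ U (r + 1), ps X j (castM q) - castM q = castM q') ∧
      (∀ φ : (Ix κ → Mat m) →ₗ[ℝ] ℝ, RatOn B φ → KillBr B.V φ →
        (∀ j, ∀ v ∈ B.V, φ (ps X j v) = φ v) → (∀ j, ∃ n : ℤ, φ (Lg (pb X P a j)) = n) →
        ∀ v ∈ B.V, φ v = 0)

/-- the points `(τ^{P_k(n_{a(k)})} x)_k` -/
noncomputable def pt {κ : Type} {m : ℕ} (τ : UT m) (P : κ → ℤ[X]) (a : κ → Bool) (n : Bool → ℕ)
    (x : NM m) : κ → NM m :=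
  fun k => (τ ^ ((P k).eval (n (a k) : ℤ))) • x

/-- POLY: equidistribution of polynomial orbits, two independent parameters. -/
def SpecPoly : Prop :=
  ∀ (m : ℕ) (X : NData m) (ν : Measure (Unit → NM m)), IsHaar X.A.V 1 ν →
    ∀ (κ : Type) [Fintype κ] (P : κ → ℤ[X]) (a : κ → Bool),
    ∃ (H : Submodule ℚ (κ → MatQ m)) (f : κ → UT m) (lam : Measure (κ → NM m)),
      IsProbabilityMeasure lam ∧
      (∀ q ∈ H, ∀ r ∈ H, q * r - r * q ∈ H) ∧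
      (∀ w ∈ X.A.Q, ∀ n : Bool → ℤ, ∃ q ∈ H,
        castM q = fun k => Ad (fun _ => X.γ ^ ((P k).eval (n (a k)))) (castM w) ()) ∧
      (∀ w ∈ X.A.Q, ∀ (n : ℤ) (c : Bool), ∃ q ∈ H,
        castM q = fun k => if a k = c then
          (((derivative (P k)).eval n : ℤ) : ℝ) • Ad (fun _ => X.γ ^ ((P k).eval n)) (castM w) ()
          else 0) ∧
      (∀ k, Lg (fun _ : Unit => f k) ∈ X.A.V) ∧
      (∀ h ∈ rs H, MeasurePreserving (act (f * E h * f⁻¹)) lam lam) ∧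
      ∀ Φ : (κ → NM m) → ℂ, Continuous Φ →
        Tendsto (fun N : ℕ => ((N : ℂ) ^ 2)⁻¹ * ∑ n1 : Fin N, ∑ n2 : Fin N,
          ∫ z, Φ (pt X.τ P a (fun c => if c then (n2 : ℕ) else (n1 : ℕ)) (z ())) ∂ν)
          atTop (𝓝 (∫ y, Φ y ∂lam))

/-- NT0: polynomial averages on `N₀` tend to `0` if one function is orthogonal to the continuous
functions invariant under `exp (dlcs (l-1))`. -/
def SpecNT0 : Prop :=
  ∀ (m : ℕ) (X : NData m) (ν : Measure (Unit → NM m)), IsHaar X.A.V 1 ν →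
    ∀ (l : ℕ) (p : Fin l → ℤ[X]), (∀ i, 0 < (p i).natDegree) →
    (∀ i j, i ≠ j → 0 < (p i - p j).natDegree) →
    ∀ F : Fin l → (Unit → NM m) → ℂ, (∀ i, HK.Bdd (F i)) → ∀ j : Fin l,
    (∀ G : (Unit → NM m) → ℂ, ContinuousOn G (orb X.A.V 1) →
      (∀ v ∈ rs (dlcs X.A.Q X.δ (l - 1)), ∀ z ∈ orb X.A.V 1, G (act (E v) z) = G z) →
      ∫ z in orb X.A.V 1, F j z * G z ∂ν = 0) →
    Tendsto (fun N : ℕ => ∫ z, ‖((N : ℂ))⁻¹ * ∑ n ∈ Finset.range N, ∏ i : Fin l,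
      F i (fun _ => (X.τ ^ ((p i).eval (n : ℤ))) • z ())‖ ^ 2 ∂ν) atTop (𝓝 0)

/-- NT: polynomial averages on `NM m`, any ergodic measure of the flow `exp(tξ)`. -/
def SpecNT : Prop :=
  ∀ (m : ℕ) (ξ : Mat m), IsSU ξ → ∀ ν : Measure (NM m), IsProbabilityMeasure ν →
    (∀ t : ℝ, MeasurePreserving (fun y => expU (t • ξ) • y) ν ν) →
    (∀ B, MeasurableSet B → (∀ t : ℝ, (fun y => expU (t • ξ) • y) ⁻¹' B = B) →
      ν B = 0 ∨ ν B = 1) →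
    ∀ (l : ℕ), 2 ≤ l → ∀ p : Fin l → ℤ[X], (∀ i, 0 < (p i).natDegree) →
    (∀ i j, i ≠ j → 0 < (p i - p j).natDegree) →
    ∀ F : Fin l → NM m → ℂ, (∀ i, HK.Bdd (F i)) → ∀ j : Fin l,
    (∀ H : HK.Vx l → NM m → ℂ, (∀ ε, Continuous (H ε)) →
      Tendsto (fun N : ℕ => ((N : ℂ) ^ l)⁻¹ * ∑ h : Fin l → Fin N, ∫ y, F j y *
        ∏ ε ∈ Finset.univ.filter (fun ε : HK.Vx l => ε ≠ HK.v0),
          H ε ((expU ξ ^ (∑ i ∈ Finset.univ.filter (fun i => ε i = true), (h i : ℕ))) • y)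
            ∂ν) atTop (𝓝 0)) →
    Tendsto (fun N : ℕ => ∫ y, ‖((N : ℂ))⁻¹ * ∑ n ∈ Finset.range N, ∏ i : Fin l,
      F i ((expU ξ ^ ((p i).eval (n : ℤ))) • y)‖ ^ 2 ∂ν) atTop (𝓝 0)

end MPd26.Nil
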