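import Mathlib

/-!
Unitriangular real matrices `UT m`, the integral ones `LT m`, the nilmanifold
`NM m = UT m ⧸ LT m`; exponential and logarithm.
-/

set_option autoImplicit false

namespace MPd26.Nil

open Matrix Finset Topology

/-- real `m × m` matrices -/
abbrev Mat (m : ℕ) := Matrix (Fin m) (Fin m) ℝ

/-- `A i j = 0` unless `j ≥ i + k` -/
def Lev {m : ℕ} (k : ℕ) (A : Mat m) : Prop := ∀ i j : Fin m, (j : ℕ) < i + k → A i j = 0

/-- strictly upper triangular -/
def IsSU {m : ℕ} (A : Mat m) : Prop := Lev 1 A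

section Lev

variable {m : ℕ}

lemma Lev.zero (k : ℕ) : Lev k (0 : Mat m) := fun _ _ _ => rfl

lemma Lev.add {k : ℕ} {A B : Mat m} (hA : Lev k A) (hB : Lev k B) : Lev k (A + B) := by
  intro i j h
  rw [Matrix.add_apply, hA i j h, hB i j h, add_zero]

lemma Lev.neg {k : ℕ} {A : Mat m} (hA : Lev k A) : Lev k (-A) := by
  intro i j h
  rw [Matrix.neg_apply, hA i j h, neg_zero]

lemma Lev.sub {k : ℕ} {A B : Mat m} (hA : Lev k A) (hB : Lev k B) : Lev k (A - B) := by
  rw [sub_eq_add_neg]; exact hA.add hB.neg

lemma Lev.smul {k : ℕ} {A : Mat m} (c : ℝ) (hA : Lev k A) : Lev k (c • A) := by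
  intro i j h
  rw [Matrix.smul_apply, hA i j h, smul_zero]

lemma Lev.mono {k l : ℕ} (h : k ≤ l) {A : Mat m} (hA : Lev l A) : Lev k A :=
  fun i j hij => hA i j (by omega)

lemma Lev.mul {k l : ℕ} {A B : Mat m} (hA : Lev k A) (hB : Lev l B) : Lev (k + l) (A * B) := by
  intro i j h
  rw [Matrix.mul_apply]
  refine Finset.sum_eq_zero fun x _ => ?_
  by_cases hx : (x : ℕ) < i + k
  · rw [hA i x hx, zero_mul]
  · rw [hB x j (by omega), mul_zero]

lemma Lev.sum {ι : Type*} {k : ℕ} (s : Finset ι) (f : ι → Mat m) (h : ∀ x ∈ s, Lev k (f x)) :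
    Lev k (∑ x ∈ s, f x) := by
  classical
  induction s using Finset.induction_on with
  | empty => simpa using Lev.zero k
  | insert a s ha ih =>
    rw [Finset.sum_insert ha]
    exact (h a (Finset.mem_insert_self a s)).add
      (ih fun x hx => h x (Finset.mem_insert_of_mem hx))

lemma Lev.one : Lev 0 (1 : Mat m) := by
  intro i j h
  rw [Matrix.one_apply_ne]
  intro e
  rw [e] at h
  omega

lemma Lev.pow {k : ℕ} {A : Mat m} (hA : Lev k A) (r : ℕ) : Lev (r * k) (A ^ r) := by
  induction r with
  | zero => simpa using Lev.one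
  | succ r ih =>
    rw [pow_succ]
    have := ih.mul hA
    rwa [← Nat.succ_mul] at this

lemma Lev.eq_zero {A : Mat m} (hA : Lev m A) : A = 0 := by
  ext i j
  exact hA i j (by omega)

lemma IsSU.pow_eq_zero {A : Mat m} (hA : IsSU A) : A ^ m = 0 := by
  have := Lev.pow hA m
  rw [mul_one] at this
  exact this.eq_zero

end Lev

/-- unitriangular real matrices -/
structure UT (m : ℕ) where
  mat : Mat m
  su : IsSU (mat - 1)

namespace UT

variable {m : ℕ}

@[ext] lemma ext {g h : UT m} (e : g.mat = h.mat) : g = h := by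
  cases g; cases h; simpa using e

/-- the inverse matrix of a unitriangular matrix -/
noncomputable def invM (A : Mat m) : Mat m := ∑ r ∈ range m, (1 - A) ^ r

lemma mul_invM {A : Mat m} (hA : IsSU (A - 1)) : A * invM A = 1 := by
  have h : IsSU (1 - A) := by
    have := hA.neg
    rwa [neg_sub] at this
  have e : (1 - (1 - A)) * invM A = 1 := by
    rw [invM, mul_neg_geom_sum, h.pow_eq_zero, sub_zero]
  rwa [sub_sub_cancel] at e

lemma invM_mul {A : Mat m} (hA : IsSU (A - 1)) : invM A * A = 1 := by
  have h : IsSU (1 - A) := by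
    have := hA.neg
    rwa [neg_sub] at this
  have e : invM A * (1 - (1 - A)) = 1 := by
    rw [invM, geom_sum_mul_neg, h.pow_eq_zero, sub_zero]
  rwa [sub_sub_cancel] at e

lemma su_invM {A : Mat m} (hA : IsSU (A - 1)) : IsSU (invM A - 1) := by
  have h : IsSU (1 - A) := by
    have := hA.neg
    rwa [neg_sub] at this
  have e : invM A - 1 = (1 - A) * invM A := by
    rw [sub_mul, one_mul, mul_invM hA]
  rw [e]
  have l : Lev 0 (invM A) := Lev.sum _ _ fun r _ => (h.pow r).mono (Nat.zero_le _)
  have := h.mul l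
  rw [add_zero] at this
  exact this

instance : Mul (UT m) := ⟨fun g h => ⟨g.mat * h.mat, by
  have e : g.mat * h.mat - 1 = (g.mat - 1) * (h.mat - 1) + (g.mat - 1) + (h.mat - 1) := by
    noncomm_ring
  rw [e]
  have := (g.su.mul h.su).mono (k := 1) (by omega)
  exact (this.add g.su).add h.su⟩⟩

instance : One (UT m) := ⟨⟨1, by rw [sub_self]; exact Lev.zero 1⟩⟩

noncomputable instance : Inv (UT m) := ⟨fun g => ⟨invM g.mat, su_invM g.su⟩⟩

@[simp] lemma mul_mat (g h : UT m) : (g * h).mat = g.mat * h.mat := rfl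
@[simp] lemma one_mat : (1 : UT m).mat = 1 := rfl
@[simp] lemma inv_mat (g : UT m) : (g⁻¹).mat = invM g.mat := rfl

noncomputable instance : Group (UT m) :=
  Group.ofLeftAxioms (fun a b c => by ext1; simp [mul_assoc]) (fun a => by ext1; simp)
    (fun a => by ext1; simp [invM_mul a.su])

instance : TopologicalSpace (UT m) := TopologicalSpace.induced UT.mat inferInstance

lemma isInducing_mat : IsInducing (UT.mat : UT m → Mat m) := ⟨rfl⟩

lemma injective_mat : Function.Injective (UT.mat : UT m → Mat m) := fun _ _ h => UT.ext h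

lemma continuous_mat : Continuous (UT.mat : UT m → Mat m) := continuous_induced_dom

lemma range_mat : Set.range (UT.mat : UT m → Mat m) = {A | IsSU (A - 1)} := by
  ext A
  constructor
  · rintro ⟨g, rfl⟩; exact g.su
  · intro h; exact ⟨⟨A, h⟩, rfl⟩

lemma isClosed_Lev (k : ℕ) : IsClosed {A : Mat m | Lev k A} := by
  have e : {A : Mat m | Lev k A} =
      ⋂ i : Fin m, ⋂ j : Fin m, {A : Mat m | (j : ℕ) < i + k → A i j = 0} := by
    ext A; simp [Lev]
  rw [e]
  refine isClosed_iInter fun i => isClosed_iInter fun j => ?_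
  by_cases h : (j : ℕ) < i + k
  · simp only [h, forall_true_left]
    exact isClosed_eq (by fun_prop) continuous_const
  · simp [h]

lemma isClosedEmbedding_mat : IsClosedEmbedding (UT.mat : UT m → Mat m) := by
  refine ⟨⟨isInducing_mat, injective_mat⟩, ?_⟩
  rw [range_mat]
  exact (isClosed_Lev 1).preimage (f := fun A : Mat m => A - 1) (by fun_prop)

instance : T2Space (UT m) := isClosedEmbedding_mat.isEmbedding.t2Space

instance instSCMat : SecondCountableTopology (Mat m) :=
  inferInstanceAs (SecondCountableTopology (Fin m → Fin m → ℝ))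

instance instLCMat : LocallyCompactSpace (Mat m) :=
  inferInstanceAs (LocallyCompactSpace (Fin m → Fin m → ℝ))

instance : SecondCountableTopology (UT m) :=
  isClosedEmbedding_mat.isEmbedding.secondCountableTopology

instance : LocallyCompactSpace (UT m) := isClosedEmbedding_mat.locallyCompactSpace

lemma continuous_invM : Continuous (invM : Mat m → Mat m) := by
  unfold invM
  fun_prop

instance : IsTopologicalGroup (UT m) where
  continuous_mul := by
    rw [isInducing_mat.continuous_iff]
    exact (continuous_mat.comp continuous_fst).mul (continuous_mat.comp continuous_snd)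
  continuous_inv := by
    rw [isInducing_mat.continuous_iff]
    exact continuous_invM.comp continuous_mat

end UT

/-- integer valued matrices -/
def IsInt {m : ℕ} (A : Mat m) : Prop := ∀ i j, ∃ n : ℤ, A i j = n

section IsInt

variable {m : ℕ}

lemma IsInt.zero : IsInt (0 : Mat m) := fun _ _ => ⟨0, by simp⟩

lemma IsInt.one : IsInt (1 : Mat m) := fun i j => by
  by_cases h : i = j
  · exact ⟨1, by rw [h]; simp⟩
  · exact ⟨0, by rw [Matrix.one_apply_ne h]; simp⟩

lemma IsInt.add {A B : Mat m} (hA : IsInt A) (hB : IsInt B) : IsInt (A + B) := fun i j => by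
  obtain ⟨a, ha⟩ := hA i j
  obtain ⟨b, hb⟩ := hB i j
  exact ⟨a + b, by rw [Matrix.add_apply, ha, hb]; push_cast; rfl⟩

lemma IsInt.neg {A : Mat m} (hA : IsInt A) : IsInt (-A) := fun i j => by
  obtain ⟨a, ha⟩ := hA i j
  exact ⟨-a, by rw [Matrix.neg_apply, ha]; push_cast; rfl⟩

lemma IsInt.sub {A B : Mat m} (hA : IsInt A) (hB : IsInt B) : IsInt (A - B) := by
  rw [sub_eq_add_neg]; exact hA.add hB.neg

lemma IsInt.sum {ι : Type*} (s : Finset ι) (f : ι → Mat m) (h : ∀ x ∈ s, IsInt (f x)) :
    IsInt (∑ x ∈ s, f x) := by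
  classical
  induction s using Finset.induction_on with
  | empty => simpa using IsInt.zero
  | insert a s ha ih =>
    rw [Finset.sum_insert ha]
    exact (h a (Finset.mem_insert_self a s)).add
      (ih fun x hx => h x (Finset.mem_insert_of_mem hx))

lemma IsInt.mul {A B : Mat m} (hA : IsInt A) (hB : IsInt B) : IsInt (A * B) := fun i j => by
  choose a ha using hA
  choose b hb using hB
  refine ⟨∑ x, a i x * b x j, ?_⟩
  rw [Matrix.mul_apply]
  push_cast
  exact Finset.sum_congr rfl fun x _ => by rw [ha, hb]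

lemma IsInt.pow {A : Mat m} (hA : IsInt A) (r : ℕ) : IsInt (A ^ r) := by
  induction r with
  | zero => simpa using IsInt.one
  | succ r ih => rw [pow_succ]; exact ih.mul hA

end IsInt

/-- the lattice of integral unitriangular matrices -/
noncomputable def LT (m : ℕ) : Subgroup (UT m) where
  carrier := {g | IsInt g.mat}
  mul_mem' {a b} ha hb := by
    show IsInt (a.mat * b.mat)
    exact IsInt.mul ha hb
  one_mem' := IsInt.one
  inv_mem' {a} ha := by
    show IsInt (UT.invM a.mat)
    exact IsInt.sum _ _ fun r _ => (IsInt.one.sub ha).pow r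

lemma mem_LT {m : ℕ} {g : UT m} : g ∈ LT m ↔ IsInt g.mat := Iff.rfl

lemma isClosed_int : IsClosed {x : ℝ | ∃ n : ℤ, x = n} := by
  have : {x : ℝ | ∃ n : ℤ, x = n} = Set.range ((↑) : ℤ → ℝ) := by
    ext x; constructor
    · rintro ⟨n, rfl⟩; exact ⟨n, rfl⟩
    · rintro ⟨n, rfl⟩; exact ⟨n, rfl⟩
  rw [this]
  exact Int.isClosedEmbedding_coe_real.isClosed_range

instance isClosed_LT (m : ℕ) : IsClosed ((LT m : Subgroup (UT m)) : Set (UT m)) := by
  have e : ((LT m : Subgroup (UT m)) : Set (UT m)) =
      ⋂ i, ⋂ j, (fun g : UT m => g.mat i j) ⁻¹' {x : ℝ | ∃ n : ℤ, x = n} := by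
    ext g
    simp [mem_LT, IsInt]
  rw [e]
  refine isClosed_iInter fun i => isClosed_iInter fun j => isClosed_int.preimage ?_
  have : Continuous fun A : Mat m => A i j := by fun_prop
  exact this.comp UT.continuous_mat

/-- the nilmanifold `UT m ⧸ LT m` -/
noncomputable abbrev NM (m : ℕ) := UT m ⧸ LT m

noncomputable instance instMSNM (m : ℕ) : MeasurableSpace (NM m) := borel _
instance instBSNM (m : ℕ) : BorelSpace (NM m) := ⟨rfl⟩
noncomputable instance instMSUT (m : ℕ) : MeasurableSpace (UT m) := borel _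
instance instBSUT (m : ℕ) : BorelSpace (UT m) := ⟨rfl⟩
instance instT2NM (m : ℕ) : T2Space (NM m) := inferInstance
instance instSCNM (m : ℕ) : SecondCountableTopology (NM m) := inferInstance


/-! ### exponential and logarithm -/

/-- exponential of a (strictly upper triangular) matrix -/
noncomputable def expM {m : ℕ} (A : Mat m) : Mat m :=
  ∑ r ∈ range m, ((r.factorial : ℝ)⁻¹) • A ^ r

section Exp

variable {m : ℕ}

lemma Lev.cast_rat_smul (c : ℚ) (A : Mat m) : c • A = (c : ℝ) • A := by
  ext i j
  simp [Matrix.smul_apply, Rat.smul_def]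

lemma expM_eq {A : Mat m} (hA : IsSU A) : expM A = IsNilpotent.exp A := by
  rw [IsNilpotent.exp_eq_sum hA.pow_eq_zero, expM]
  refine Finset.sum_congr rfl fun r _ => ?_
  rw [Lev.cast_rat_smul]
  push_cast
  rfl

lemma IsSU.isNilpotent {A : Mat m} (hA : IsSU A) : IsNilpotent A := ⟨m, hA.pow_eq_zero⟩

lemma expM_zero : expM (0 : Mat m) = 1 := by
  rw [expM_eq (Lev.zero 1)]
  exact IsNilpotent.exp_zero

lemma expM_add {A B : Mat m} (hA : IsSU A) (hB : IsSU B) (h : Commute A B) :
    expM (A + B) = expM A * expM B := by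
  rw [expM_eq (hA.add hB), expM_eq hA, expM_eq hB]
  exact IsNilpotent.exp_add_of_commute h hA.isNilpotent hB.isNilpotent

lemma continuous_expM : Continuous (expM : Mat m → Mat m) := by
  unfold expM
  fun_prop

/-- the difference of two exponentials, up to the difference, is one level deeper -/
lemma lev_expM_sub {k : ℕ} (hk : 1 ≤ k) {A B : Mat m} (hA : IsSU A) (hB : IsSU B)
    (h : Lev k (A - B)) : Lev (k + 1) (expM A - expM B - (A - B)) := by
  have key : ∀ r : ℕ, 2 ≤ r → Lev (k + 1) (A ^ r - B ^ r) := by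
    intro r hr
    induction r, hr using Nat.le_induction with
    | base =>
      have e : A ^ 2 - B ^ 2 = A * (A - B) + (A - B) * B := by noncomm_ring
      rw [e]
      have h1 := hA.mul h
      have h2 := h.mul hB
      rw [add_comm 1 k] at h1
      exact h1.add h2
    | succ r hr ih =>
      have e : A ^ (r + 1) - B ^ (r + 1) = A ^ r * (A - B) + (A ^ r - B ^ r) * B := by
        rw [pow_succ, pow_succ]; noncomm_ring
      rw [e]
      have h1 := (hA.pow r).mul h
      have h2 := ih.mul hB
      exact (h1.mono (by omega)).add (h2.mono (by omega))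
  rcases Nat.lt_or_ge m 2 with hm | hm
  · have z : ∀ C : Mat m, IsSU C → C = 0 := by
      intro C hC
      ext i j
      exact hC i j (by omega)
    rw [z A hA, z B hB]
    simpa using Lev.zero _
  · have e : expM A - expM B - (A - B) =
        ∑ r ∈ Finset.Ico 2 m, ((r.factorial : ℝ)⁻¹) • (A ^ r - B ^ r) := by
      unfold expM
      rw [Finset.range_eq_Ico, ← Finset.sum_sub_distrib]
      rw [← Finset.sum_Ico_consecutive _ (Nat.zero_le 2) hm]
      have : (∑ i ∈ Finset.Ico 0 2, (((i.factorial : ℝ)⁻¹) • A ^ i -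
          ((i.factorial : ℝ)⁻¹) • B ^ i)) = A - B := by
        simp [Finset.sum_range_succ]
      rw [this, add_sub_cancel_left]
      refine Finset.sum_congr rfl fun r _ => by rw [smul_sub]
    rw [e]
    refine Lev.sum _ _ fun r hr => (key r ?_).smul _
    exact (Finset.mem_Ico.1 hr).1

lemma expM_su {A : Mat m} (hA : IsSU A) : IsSU (expM A - 1) := by
  have h := lev_expM_sub (k := 1) le_rfl hA (Lev.zero 1) (by rw [sub_zero]; exact hA)
  rw [expM_zero, sub_zero] at h
  have : expM A - 1 = (expM A - 1 - A) + A := by abel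
  rw [this]
  exact (h.mono (by omega)).add hA

lemma expM_injective {A B : Mat m} (hA : IsSU A) (hB : IsSU B) (h : expM A = expM B) :
    A = B := by
  have key : ∀ k : ℕ, 1 ≤ k → Lev k (A - B) := by
    intro k hk
    induction k, hk using Nat.le_induction with
    | base => exact hA.sub hB
    | succ k hk ih =>
      have := lev_expM_sub hk hA hB ih
      rw [h, sub_self, zero_sub] at this
      have h2 := this.neg
      rwa [neg_neg] at h2
  have := (key (m + 1) (by omega)).mono (k := m) (by omega)
  exact sub_eq_zero.1 this.eq_zero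

/-- logarithm of a unitriangular matrix: `m` steps of `A ↦ A + (g - exp A)` -/
noncomputable def logM (g : Mat m) : Mat m := (fun A => A + (g - expM A))^[m] 0

lemma logM_aux {g : Mat m} (hg : IsSU (g - 1)) (k : ℕ) :
    IsSU ((fun A => A + (g - expM A))^[k] 0) ∧
      Lev (k + 1) (g - expM ((fun A => A + (g - expM A))^[k] 0)) := by
  induction k with
  | zero =>
    refine ⟨Lev.zero 1, ?_⟩
    rw [Function.iterate_zero_apply, expM_zero]
    exact hg
  | succ k ih =>
    rw [Function.iterate_succ_apply']
    set A := (fun A => A + (g - expM A))^[k] 0 with hAdef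
    obtain ⟨h1, h2⟩ := ih
    have h3 : IsSU (A + (g - expM A)) := h1.add (h2.mono (by omega))
    refine ⟨h3, ?_⟩
    have h4 := lev_expM_sub (k := k + 1) (by omega) h3 h1 (by simpa using h2)
    have e : g - expM (A + (g - expM A)) =
        -(expM (A + (g - expM A)) - expM A - (A + (g - expM A) - A)) := by abel
    rw [e]
    exact h4.neg

lemma logM_su {g : Mat m} (hg : IsSU (g - 1)) : IsSU (logM g) := (logM_aux hg m).1

lemma expM_logM {g : Mat m} (hg : IsSU (g - 1)) : expM (logM g) = g := by
  have := ((logM_aux hg m).2).mono (k := m) (by omega)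
  exact (sub_eq_zero.1 this.eq_zero).symm

lemma logM_expM {A : Mat m} (hA : IsSU A) : logM (expM A) = A :=
  expM_injective (logM_su (expM_su hA)) hA (expM_logM (expM_su hA))

lemma continuous_logM : Continuous (logM : Mat m → Mat m) := by
  have : ∀ k : ℕ, Continuous (fun g : Mat m => (fun A => A + (g - expM A))^[k] (0 : Mat m)) := by
    intro k
    induction k with
    | zero => exact continuous_const
    | succ k ih =>
      have e : (fun g : Mat m => (fun A => A + (g - expM A))^[k + 1] (0 : Mat m)) =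
          fun g : Mat m => (fun A => A + (g - expM A))^[k] (0 : Mat m) +
            (g - expM ((fun A => A + (g - expM A))^[k] (0 : Mat m))) := by
        funext g
        rw [Function.iterate_succ_apply']
      rw [e]
      exact ih.add (continuous_id.sub (continuous_expM.comp ih))
  exact this m

end Exp

/-- exponential into `UT m` (junk value `1` outside strictly upper triangular matrices) -/
noncomputable def expU {m : ℕ} (A : Mat m) : UT m := by
  classical
  exact if h : IsSU A then ⟨expM A, expM_su h⟩ else 1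

lemma expU_mat {m : ℕ} {A : Mat m} (hA : IsSU A) : (expU A).mat = expM A := by
  unfold expU; rw [dif_pos hA]

/-- logarithm of an element of `UT m` -/
noncomputable def logU {m : ℕ} (g : UT m) : Mat m := logM g.mat

lemma logU_su {m : ℕ} (g : UT m) : IsSU (logU g) := logM_su g.su

lemma expU_logU {m : ℕ} (g : UT m) : expU (logU g) = g := by
  ext1
  rw [expU_mat (logU_su g)]
  exact expM_logM g.su

lemma logU_expU {m : ℕ} {A : Mat m} (hA : IsSU A) : logU (expU A) = A := by
  unfold logU
  rw [expU_mat hA]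
  exact logM_expM hA

lemma continuous_logU {m : ℕ} : Continuous (logU : UT m → Mat m) :=
  continuous_logM.comp UT.continuous_mat

lemma expU_add {m : ℕ} {A B : Mat m} (hA : IsSU A) (hB : IsSU B) (h : Commute A B) :
    expU (A + B) = expU A * expU B := by
  ext1
  rw [UT.mul_mat, expU_mat hA, expU_mat hB, expU_mat (hA.add hB), expM_add hA hB h]

lemma expU_zero {m : ℕ} : expU (0 : Mat m) = 1 := by
  ext1
  rw [expU_mat (Lev.zero 1), expM_zero]; rfl

/-- conjugation: `exp (g A g⁻¹) = g exp(A) g⁻¹` -/
lemma expU_conj {m : ℕ} (g : UT m) {A : Mat m} (hA : IsSU A) :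
    IsSU (g.mat * A * (g⁻¹).mat) ∧
      expU (g.mat * A * (g⁻¹).mat) = g * expU A * g⁻¹ := by
  have hinv : (g⁻¹).mat * g.mat = 1 := by
    rw [← UT.mul_mat, inv_mul_cancel]; rfl
  have hinv' : g.mat * (g⁻¹).mat = 1 := by
    rw [← UT.mul_mat, mul_inv_cancel]; rfl
  have l0 : ∀ h : UT m, Lev 0 h.mat := fun h => by
    have : h.mat = (h.mat - 1) + 1 := by abel
    rw [this]
    exact (h.su.mono (by omega)).add Lev.one
  have su : IsSU (g.mat * A * (g⁻¹).mat) := by
    exact (((l0 g).mul hA).mul (l0 g⁻¹)).mono (by omega)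
  refine ⟨su, ?_⟩
  ext1
  rw [expU_mat su, UT.mul_mat, UT.mul_mat, expU_mat hA]
  unfold expM
  rw [Finset.mul_sum, Finset.sum_mul]
  refine Finset.sum_congr rfl fun r _ => ?_
  have hp : (g.mat * A * (g⁻¹).mat) ^ r = g.mat * A ^ r * (g⁻¹).mat := by
    clear * - hinv hinv'
    induction r with
    | zero => rw [pow_zero, pow_zero, mul_one, hinv']
    | succ r ih =>
      rw [pow_succ, ih, pow_succ]
      calc g.mat * A ^ r * (g⁻¹).mat * (g.mat * A * (g⁻¹).mat)
          = g.mat * A ^ r * ((g⁻¹).mat * g.mat) * A * (g⁻¹).mat := by noncomm_ring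
        _ = g.mat * (A ^ r * A) * (g⁻¹).mat := by rw [hinv]; noncomm_ring
  rw [hp, Matrix.mul_smul, Matrix.smul_mul]

end MPd26.Nil
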