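import Pool.Agent.Lib.MP_d26cd8_an.Nil.H18Base

section
/-!
# MP_d26cd8_an, module U (helper69): unique ergodicity of affine maps of nilmanifolds
-/
set_option autoImplicit false

open MeasureTheory Filter Topology

namespace MPd26.Nil

namespace UM

/-! ### groups -/

section Grp

variable {ι : Type} {m : ℕ} {V K K' : Submodule ℝ (ι → Mat m)}

theorem idl_isNil (hV : IsNil V) (hK : IsIdl V K) : IsNil K where
  fin := by
    have := hV.fin
    exact Submodule.finiteDimensional_of_le hK.le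
  su v hv := hV.su v (hK.le hv)
  lie v hv w hw := hK.mem v (hK.le hv) w hw

theorem mul_K (hN : SpecNilExp) (hV : IsNil V) (hK : IsIdl V K) {g h : ι → UT m}
    (hg : Lg g ∈ K) (hh : Lg h ∈ K) : Lg (g * h) ∈ K := PathM.mul_mem hN (idl_isNil hV hK) hg hh

theorem inv_K {g : ι → UT m} (hg : Lg g ∈ K) : Lg g⁻¹ ∈ K := PathM.inv_mem hg

theorem conj_K (hV : IsNil V) (hK : IsIdl V K) {g h : ι → UT m} (hg : Lg g ∈ V)
    (hh : Lg h ∈ K) : Lg (g * h * g⁻¹) ∈ K := by
  obtain ⟨k, hk, e⟩ := NilExpM.Ad_E_mem hV hK (fun v hv k hk => hK.mem v hv k hk) hg hh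
  rw [NilExpM.E_Lg] at e
  have h1 := NilExpM.E_Ad g (NilExpM.Lg_su h)
  rw [NilExpM.E_Lg] at h1
  rw [← h1, e, NilExpM.Lg_E]
  · exact K.add_mem hh hk
  · exact hV.su _ (hK.le (K.add_mem hh hk))

theorem exists_E_add (hN : SpecNilExp) (hV : IsNil V) (hK : IsIdl V K) {x κ : ι → Mat m}
    (hx : x ∈ V) (hκ : κ ∈ K) : ∃ k ∈ K, E (x + κ) = E x * E k := by
  obtain ⟨⟨k, hk, e⟩, -, -⟩ := hN ι m V K K hV hK hK le_rfl (fun v hv k hk => hK.mem v hv k hk)
    x hx κ hκ
  refine ⟨Lg (E κ * E k), ?_, ?_⟩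
  · refine mul_K hN hV hK ?_ ?_
    · rw [NilExpM.Lg_E (hV.su _ (hK.le hκ))]; exact hκ
    · rw [NilExpM.Lg_E (hV.su _ (hK.le hk))]; exact hk
  · rw [NilExpM.E_Lg, e, mul_assoc]

theorem comm_K (hN : SpecNilExp) (hV : IsNil V) (hK : IsIdl V K) (hK' : IsIdl V K')
    (hVK : ∀ v ∈ V, ∀ k ∈ K, v * k - k * v ∈ K') {g h : ι → UT m} (hg : Lg g ∈ V)
    (hh : Lg h ∈ K) : Lg (g * h * g⁻¹ * h⁻¹) ∈ K' := by
  obtain ⟨k, hk, e⟩ := NilExpM.Ad_E_mem hV hK' hVK hg hh
  rw [NilExpM.E_Lg] at e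
  have h1 := NilExpM.E_Ad g (NilExpM.Lg_su h)
  rw [NilExpM.E_Lg] at h1
  obtain ⟨k2, hk2, h2⟩ := exists_E_add hN hV hK' (hK.le hh) hk
  rw [NilExpM.E_Lg] at h2
  rw [← h1, e, h2]
  refine conj_K hV hK' (hK.le hh) ?_
  rw [NilExpM.Lg_E (hV.su _ (hK'.le hk2))]
  exact hk2

/-- the group `exp V` -/
noncomputable def grp (hN : SpecNilExp) (hV : IsNil V) : Subgroup (ι → UT m) where
  carrier := GV V
  mul_mem' := fun hg hh => PathM.mul_mem hN hV hg hh
  one_mem' := by
    show Lg (1 : ι → UT m) ∈ V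
    rw [PathM.Lg_one]; exact V.zero_mem
  inv_mem' := fun hg => PathM.inv_mem hg

theorem mem_grp {hN : SpecNilExp} {hV : IsNil V} {g : ι → UT m} : g ∈ grp hN hV ↔ Lg g ∈ V :=
  Iff.rfl

/-- the subgroup `exp K` -/
noncomputable def sub (hN : SpecNilExp) (hV : IsNil V) (hK : IsIdl V K) :
    Subgroup (grp hN hV) where
  carrier := {g | Lg g.1 ∈ K}
  mul_mem' := fun hg hh => mul_K hN hV hK hg hh
  one_mem' := by
    show Lg (1 : ι → UT m) ∈ K
    rw [PathM.Lg_one]; exact K.zero_mem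
  inv_mem' := fun hg => inv_K hg

theorem mem_sub {hN : SpecNilExp} {hV : IsNil V} {hK : IsIdl V K} {g : grp hN hV} :
    g ∈ sub hN hV hK ↔ Lg g.1 ∈ K := Iff.rfl

end Grp

/-! ### the action on the orbit -/

section Act

variable {ι : Type} {m : ℕ} {V : Submodule ℝ (ι → Mat m)}

theorem act_mkp (g h : ι → UT m) : act g (mkp h) = mkp (g * h) := rfl

theorem act_act (g h : ι → UT m) (z : ι → NM m) : act g (act h z) = act (g * h) z := by
  funext i
  exact smul_smul _ _ _

theorem mem_orb (hV : IsNil V) {f0 : ι → UT m} {z : ι → NM m} :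
    z ∈ orb V f0 ↔ ∃ h, Lg h ∈ V ∧ z = mkp (f0 * h) := by
  constructor
  · rintro ⟨v, hv, rfl⟩
    exact ⟨E v, by rw [NilExpM.Lg_E (hV.su v hv)]; exact hv, rfl⟩
  · rintro ⟨h, hh, rfl⟩
    exact ⟨Lg h, hh, by rw [NilExpM.E_Lg]⟩

theorem act_f0 (f0 g h : ι → UT m) : act (f0 * g * f0⁻¹) (mkp (f0 * h)) = mkp (f0 * (g * h)) := by
  rw [act_mkp]
  congr 1
  group

theorem act_mem (hN : SpecNilExp) (hV : IsNil V) {f0 g : ι → UT m} (hg : Lg g ∈ V)
    {z : ι → NM m} (hz : z ∈ orb V f0) : act (f0 * g * f0⁻¹) z ∈ orb V f0 := by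
  obtain ⟨h, hh, rfl⟩ := (mem_orb hV).1 hz
  rw [act_f0]
  exact (mem_orb hV).2 ⟨g * h, PathM.mul_mem hN hV hg hh, rfl⟩

/-- the action of `exp V` on the orbit -/
@[reducible] noncomputable def mulAct (hN : SpecNilExp) (hV : IsNil V) (f0 : ι → UT m) :
    MulAction (grp hN hV) (orb V f0) where
  smul g z := ⟨act (f0 * g.1 * f0⁻¹) z.1, act_mem hN hV g.2 z.2⟩
  one_smul z := by
    apply Subtype.ext
    show act (f0 * 1 * f0⁻¹) z.1 = z.1
    rw [mul_one, mul_inv_cancel]
    funext i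
    exact one_smul _ _
  mul_smul g h z := by
    apply Subtype.ext
    show act (f0 * (g.1 * h.1) * f0⁻¹) z.1 = act (f0 * g.1 * f0⁻¹) (act (f0 * h.1 * f0⁻¹) z.1)
    rw [act_act]
    congr 1
    group

theorem contAct (hN : SpecNilExp) (hV : IsNil V) (f0 : ι → UT m) :
    letI := mulAct hN hV f0
    ContinuousSMul (grp hN hV) (orb V f0) := by
  let _ := mulAct hN hV f0
  refine ⟨?_⟩
  refine Continuous.subtype_mk ?_ _
  show Continuous fun p : (grp hN hV) × (orb V f0) => (f0 * p.1.1 * f0⁻¹) • p.2.1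
  fun_prop

end Act

/-! ### algebra homomorphisms and exponentials -/

section Alg

variable {ι : Type} {m : ℕ}

/-- the exponential in the algebra of functions -/
noncomputable def expF (v : ι → Mat m) : ι → Mat m :=
  ∑ r ∈ Finset.range m, ((r.factorial : ℝ)⁻¹) • v ^ r

theorem E_mat {v : ι → Mat m} (hv : SU v) (i : ι) : (E v i).mat = expF v i := by
  show (expU (v i)).mat = _
  rw [expU_mat (hv i), expF, Finset.sum_apply]
  rfl

theorem alg_expF (s : (ι → Mat m) →ₐ[ℝ] (ι → Mat m)) (v : ι → Mat m) :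
    s (expF v) = expF (s v) := by
  unfold expF
  rw [map_sum]
  refine Finset.sum_congr rfl fun r _ => ?_
  rw [map_smul, map_pow]

theorem alg_E (s : (ι → Mat m) →ₐ[ℝ] (ι → Mat m)) {v w u : ι → Mat m} (hv : SU v) (hw : SU w)
    (hu : SU u) (hsv : SU (s v)) (hsw : SU (s w)) (hsu : SU (s u)) (h : E v * E w = E u) :
    E (s v) * E (s w) = E (s u) := by
  have h1 : expF v * expF w = expF u := by
    funext i
    rw [Pi.mul_apply, ← E_mat hv, ← E_mat hw, ← E_mat hu, ← UT.mul_mat]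
    exact congrArg UT.mat (congrFun h i)
  have h2 := congrArg s h1
  rw [map_mul, alg_expF, alg_expF, alg_expF] at h2
  funext i
  apply UT.ext
  rw [Pi.mul_apply, UT.mul_mat, E_mat hsv, E_mat hsw, E_mat hsu]
  exact congrFun h2 i

end Alg

/-! ### the flag -/

section Flag

variable {ι : Type} {m : ℕ}

/-- span of the first `k` generators -/
def KQ (e : ℕ → ι → MatQ m) (k : ℕ) : Submodule ℚ (ι → MatQ m) :=
  Submodule.span ℚ (e '' Set.Iio k)

theorem KQ_mono (e : ℕ → ι → MatQ m) {k l : ℕ} (h : k ≤ l) : KQ e k ≤ KQ e l :=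
  Submodule.span_mono (Set.image_mono (Set.Iio_subset_Iio h))

theorem KQ_congr {e e' : ℕ → ι → MatQ m} {k : ℕ} (h : ∀ j < k, e j = e' j) :
    KQ e k = KQ e' k := by
  unfold KQ
  congr 1
  exact Set.image_congr fun j hj => h j hj

theorem exists_fl (A : RAlg ι m) (R : ℕ) (C : ℕ → Submodule ℚ (ι → MatQ m)) (h0 : C 0 = A.Q)
    (hR : C R = ⊥) (hle : ∀ r, C (r + 1) ≤ C r) :
    ∃ (D d : ℕ) (e : ℕ → ι → MatQ m), d ≤ D ∧
      (∀ k, e k ∈ A.Q ∧ ∀ i, expU (castM (e k) i) ∈ LT m) ∧ A.Q = KQ e D ∧ C 1 = KQ e d ∧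
      ∀ k, ∃ r, e k ∈ C r ∧ C (r + 1) ≤ KQ e k := by
  have hR' : C (R + 1) = ⊥ := by
    rw [eq_bot_iff, ← hR]
    exact hle R
  obtain ⟨D, e, d, h1, h2, h3, h4, h5⟩ := specFlag ι m A (R + 1) C h0 hR' hle
  set e' : ℕ → ι → MatQ m := fun k => if k < D then e k else 0 with he'
  have he1 : ∀ k < D, e' k = e k := fun k hk => by simp only [he', hk, if_true]
  have he2 : ∀ k, ¬ k < D → e' k = 0 := fun k hk => by simp only [he', hk, if_false]
  have hK : ∀ k ≤ D, KQ e' k = KQ e k := fun k hk => KQ_congr fun j hj => he1 j (by omega)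
  refine ⟨D, d 1, e', (h2 1 (by omega)).1, ?_, ?_, ?_, ?_⟩
  · intro k
    by_cases hk : k < D
    · rw [he1 k hk]; exact h1 k hk
    · rw [he2 k hk]
      refine ⟨A.Q.zero_mem, fun i => ?_⟩
      rw [CptM.castM_zero]
      show expU (0 : Mat m) ∈ LT m
      rw [expU_zero]
      exact one_mem _
  · rw [hK D le_rfl, ← h0, (h2 0 (by omega)).2, h3]; rfl
  · rw [hK _ (h2 1 (by omega)).1, (h2 1 (by omega)).2]; rfl
  · intro k
    by_cases hk : k < D
    · obtain ⟨r, hr, hmin⟩ : ∃ r, d r ≤ k ∧ ∀ s < r, ¬ d s ≤ k := by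
        have hex : ∃ r, d r ≤ k := ⟨R + 1, by rw [h4]; exact Nat.zero_le _⟩
        classical
        exact ⟨Nat.find hex, Nat.find_spec hex, fun s hs => Nat.find_min hex hs⟩
      have hrR : r ≤ R + 1 := by
        by_contra h
        exact hmin (R + 1) (by omega) (by rw [h4]; exact Nat.zero_le _)
      rcases r with _ | r
      · omega
      · have h6 : k < d r := by
          have := hmin r (Nat.lt_succ_self r)
          omega
        refine ⟨r, ?_, ?_⟩
        · rw [he1 k hk]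
          exact h5 r (by omega) k hr h6
        · rw [(h2 (r + 1) hrR).2]
          have h7 : KQ e (d (r + 1)) = KQ e' (d (r + 1)) := (hK _ (h2 (r + 1) hrR).1).symm
          show KQ e (d (r + 1)) ≤ _
          rw [h7]
          exact KQ_mono e' hr
    · refine ⟨R + 1, ?_, ?_⟩
      · rw [he2 k hk]; exact Submodule.zero_mem _
      · refine (hle (R + 1)).trans ?_
        rw [hR']
        exact bot_le

theorem rs_span (S : Set (ι → MatQ m)) :
    rs (Submodule.span ℚ S) = Submodule.span ℝ (castM '' S) := by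
  apply le_antisymm
  · unfold rs
    rw [Submodule.span_le]
    rintro _ ⟨q, hq, rfl⟩
    induction hq using Submodule.span_induction with
    | mem x hx => exact Submodule.subset_span ⟨x, hx, rfl⟩
    | zero => rw [CptM.castM_zero]; exact Submodule.zero_mem _
    | add x y _ _ hx hy => rw [CptM.castM_add]; exact Submodule.add_mem _ hx hy
    | smul c x _ hx => rw [FlagM.castM_smul]; exact Submodule.smul_mem _ _ hx
  · exact Submodule.span_mono (Set.image_mono Submodule.subset_span)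

theorem castM_mem_rs {R : Submodule ℚ (ι → MatQ m)} {q : ι → MatQ m} (hq : q ∈ R) :
    castM q ∈ rs R := Submodule.subset_span ⟨q, hq, rfl⟩

/-- a linear map lowering the flag on generators lowers the flag -/
theorem lower {e : ℕ → ι → MatQ m} {C : ℕ → Submodule ℚ (ι → MatQ m)}
    (hfl : ∀ k, ∃ r, e k ∈ C r ∧ C (r + 1) ≤ KQ e k) (T : (ι → Mat m) →ₗ[ℝ] (ι → Mat m))
    (hT : ∀ r, ∀ q ∈ C r, T (castM q) ∈ rs (C (r + 1))) (k : ℕ) :
    ∀ x ∈ rs (KQ e (k + 1)), T x ∈ rs (KQ e k) := by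
  intro x hx
  unfold KQ at hx
  rw [rs_span] at hx
  have h1 : Submodule.span ℝ (castM '' (e '' Set.Iio (k + 1))) ≤
      (rs (KQ e k)).comap T := by
    rw [Submodule.span_le]
    rintro _ ⟨_, ⟨j, hj, rfl⟩, rfl⟩
    have hj' : j ≤ k := Nat.lt_succ_iff.1 hj
    obtain ⟨r, hr1, hr2⟩ := hfl j
    show T (castM (e j)) ∈ rs (KQ e k)
    exact CptM.rs_mono (hr2.trans (KQ_mono e hj')) (hT r _ hr1)
  exact h1 hx

end Flag

/-! ### characters -/

section Chars

variable {ι : Type} {m : ℕ} {V : Submodule ℝ (ι → Mat m)}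

theorem char_fun (hC : SpecChar) (hN : SpecNilExp) (hV : IsNil V) (c : grp hN hV →* Circle)
    (hc : Continuous c) : ∃ φ : (ι → Mat m) →ₗ[ℝ] ℝ, KillBr V φ ∧
      ∀ g : grp hN hV, c g = Circle.exp (2 * Real.pi * φ (Lg g.1)) := by
  classical
  let c' : (ι → UT m) → Circle := fun g => if h : g ∈ grp hN hV then c ⟨g, h⟩ else 1
  have hc' : ∀ g : grp hN hV, c' g.1 = c g := fun g => dif_pos g.2
  have hcont : ContinuousOn c' (GV V) := by
    rw [continuousOn_iff_continuous_domRestrict]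
    have e : (GV V).domRestrict c' = fun g : GV V => c ⟨g.1, g.2⟩ := funext fun g => hc' ⟨g.1, g.2⟩
    rw [e]
    exact hc
  have hmul : ∀ g ∈ GV V, ∀ h ∈ GV V, c' (g * h) = c' g * c' h := by
    intro g hg h hh
    have h3 := hc' (⟨g, hg⟩ * ⟨h, hh⟩)
    rw [map_mul, ← hc', ← hc'] at h3
    exact h3
  obtain ⟨φ, h1, h2⟩ := hC ι m V hV c' hcont hmul
  refine ⟨φ, h1, fun g => ?_⟩
  rw [← h2 _ g.2, NilExpM.E_Lg, hc']

theorem exp_two_pi_eq_one {x : ℝ} (h : Circle.exp (2 * Real.pi * x) = 1) : ∃ n : ℤ, x = n := by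
  rw [← Circle.exp_zero, Circle.exp_eq_exp] at h
  obtain ⟨n, hn⟩ := h
  refine ⟨n, ?_⟩
  have h1 : 2 * Real.pi * x = 2 * Real.pi * n := by linarith
  exact mul_left_cancel₀ Real.two_pi_pos.ne' h1

theorem eq_of_exp {x y : ℝ} (h : ∀ t : ℝ, Circle.exp (2 * Real.pi * (t * x)) =
    Circle.exp (2 * Real.pi * (t * y))) : x = y := by
  have h1 : 2 * Real.pi * x = 2 * Real.pi * y := by
    refine CharM.exp_inj fun t => ?_
    have h2 := h t
    have e1 : 2 * Real.pi * (t * x) = 2 * Real.pi * x * t := by ring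
    have e2 : 2 * Real.pi * (t * y) = 2 * Real.pi * y * t := by ring
    rwa [e1, e2] at h2
  exact mul_left_cancel₀ Real.two_pi_pos.ne' h1

theorem exp_int {n : ℤ} : Circle.exp (2 * Real.pi * n) = 1 := by
  rw [← Circle.exp_zero, Circle.exp_eq_exp]
  exact ⟨n, by ring⟩

end Chars

/-! ### transfer of measures -/

section Transfer

variable {X : Type} [MeasurableSpace X] {S : Set X}

theorem map_subtype {f : X → X} {f' : S → S} (hf : Measurable f) (hf' : Measurable f')
    (h : ∀ z, (f' z).1 = f z.1) (ν : Measure S) :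
    (ν.map Subtype.val).map f = (ν.map f').map Subtype.val := by
  rw [Measure.map_map hf measurable_subtype_coe, Measure.map_map measurable_subtype_coe hf']
  congr 1
  funext z
  exact (h z).symm

theorem exists_sub (hS : MeasurableSet S) (θ : Measure X) [IsProbabilityMeasure θ]
    (h : θ S = 1) : ∃ θ' : Measure S, IsProbabilityMeasure θ' ∧ θ'.map Subtype.val = θ := by
  have he := MeasurableEmbedding.subtype_coe hS
  have h1 : (θ.comap Subtype.val : Measure S).map Subtype.val = θ := by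
    rw [he.map_comap, Subtype.range_coe]
    refine Measure.restrict_eq_self_of_ae_mem ?_
    rw [ae_iff]
    exact (prob_compl_eq_zero_iff hS).2 h
  refine ⟨θ.comap Subtype.val, ⟨?_⟩, h1⟩
  have h2 : (θ.comap Subtype.val : Measure S).map Subtype.val Set.univ = 1 := by
    rw [h1]; exact measure_univ
  rwa [Measure.map_apply measurable_subtype_coe MeasurableSet.univ, Set.preimage_univ] at h2

theorem map_val_inj (hS : MeasurableSet S) {μ ν : Measure S}
    (h : μ.map Subtype.val = ν.map Subtype.val) : μ = ν := by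
  have he := MeasurableEmbedding.subtype_coe hS
  rw [← he.comap_map μ, ← he.comap_map ν, h]

end Transfer

/-! ### the chain -/

section Chain

variable {ι : Type} {m : ℕ} {J : Type}

/-- the chain for the brackets and the maps `s j - 1` -/
def Cc (A : RAlg ι m) (s : J → (ι → Mat m) →ₐ[ℝ] (ι → Mat m)) :
    ℕ → Submodule ℚ (ι → MatQ m)
  | 0 => A.Q
  | r + 1 => brQ A.Q (Cc A s r) ⊔
      Submodule.span ℚ {x | ∃ j, ∃ q ∈ Cc A s r, s j (castM q) - castM q = castM x}

theorem Cc_le_U (A : RAlg ι m) (s : J → (ι → Mat m) →ₐ[ℝ] (ι → Mat m))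
    {U : ℕ → Submodule ℚ (ι → MatQ m)} (hU0 : U 0 = A.Q)
    (hU : ∀ r, brQ A.Q (U r) ≤ U (r + 1) ∧
        ∀ j, ∀ q ∈ U r, ∃ q' ∈ U (r + 1), s j (castM q) - castM q = castM q') :
    ∀ r, Cc A s r ≤ U r := by
  intro r
  induction r with
  | zero => exact hU0.ge
  | succ r ih =>
    refine sup_le ((CptM.brQ_mono le_rfl ih).trans (hU r).1) ?_
    rw [Submodule.span_le]
    rintro x ⟨j, q, hq, hx⟩
    obtain ⟨q', hq', h⟩ := (hU r).2 j q (ih hq)
    have : x = q' := CptM.castM_injective (hx.symm.trans h)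
    rw [this]
    exact hq'

theorem Cc_one_le (A : RAlg ι m) (s : J → (ι → Mat m) →ₐ[ℝ] (ι → Mat m))
    (hs : ∀ j, ∀ q ∈ A.Q, ∃ q' ∈ A.Q, s j (castM q) = castM q') : Cc A s 1 ≤ A.Q := by
  refine sup_le (CptM.brQ_self A) ?_
  rw [Submodule.span_le]
  rintro x ⟨j, q, hq, hx⟩
  obtain ⟨q', hq', h⟩ := hs j q hq
  have : x = q' - q := by
    apply CptM.castM_injective
    rw [CptM.castM_sub, ← h, hx]
  rw [this]
  exact A.Q.sub_mem hq' hq

theorem Cc_anti (A : RAlg ι m) (s : J → (ι → Mat m) →ₐ[ℝ] (ι → Mat m))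
    (hs : ∀ j, ∀ q ∈ A.Q, ∃ q' ∈ A.Q, s j (castM q) = castM q') :
    ∀ r, Cc A s (r + 1) ≤ Cc A s r := by
  intro r
  induction r with
  | zero => exact Cc_one_le A s hs
  | succ r ih =>
    refine sup_le_sup (CptM.brQ_mono le_rfl ih) (Submodule.span_mono ?_)
    rintro x ⟨j, q, hq, hx⟩
    exact ⟨j, q, ih hq, hx⟩

theorem Cc_le (A : RAlg ι m) (s : J → (ι → Mat m) →ₐ[ℝ] (ι → Mat m))
    (hs : ∀ j, ∀ q ∈ A.Q, ∃ q' ∈ A.Q, s j (castM q) = castM q') :
    ∀ r, Cc A s r ≤ A.Q := by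
  intro r
  induction r with
  | zero => exact le_rfl
  | succ r ih => exact (Cc_anti A s hs r).trans ih

theorem Cc_sub (A : RAlg ι m) (s : J → (ι → Mat m) →ₐ[ℝ] (ι → Mat m))
    (hs : ∀ j, ∀ q ∈ A.Q, ∃ q' ∈ A.Q, s j (castM q) = castM q') (r : ℕ) (j : J)
    {q : ι → MatQ m} (hq : q ∈ Cc A s r) :
    s j (castM q) - castM q ∈ rs (Cc A s (r + 1)) := by
  obtain ⟨q', hq', h⟩ := hs j q (Cc_le A s hs r hq)
  have h1 : s j (castM q) - castM q = castM (q' - q) := by rw [CptM.castM_sub, h]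
  rw [h1]
  refine castM_mem_rs ?_
  exact Submodule.mem_sup_right (Submodule.subset_span ⟨j, q, hq, h1⟩)

theorem Cc_br (A : RAlg ι m) (s : J → (ι → Mat m) →ₐ[ℝ] (ι → Mat m)) (r : ℕ)
    {v : ι → Mat m} (hv : v ∈ A.V) {x : ι → Mat m} (hx : x ∈ rs (Cc A s r)) :
    v * x - x * v ∈ rs (Cc A s (r + 1)) :=
  RatM.br_span (P := A.Q) (Q := Cc A s r) (R := Cc A s (r + 1))
    (fun q hq r hr => Submodule.mem_sup_left (Submodule.subset_span ⟨q, hq, r, hr, rfl⟩)) hv hx

end Chain

/-! ### maps of the orbit -/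

section Maps

variable {ι : Type} {m : ℕ}

theorem s_V (A : RAlg ι m) (s : (ι → Mat m) →ₐ[ℝ] (ι → Mat m))
    (hs : ∀ q ∈ A.Q, ∃ q' ∈ A.Q, s (castM q) = castM q') : ∀ v ∈ A.V, s v ∈ A.V := by
  have h1 : A.V ≤ A.V.comap s.toLinearMap := by
    show Submodule.span ℝ _ ≤ _
    rw [Submodule.span_le]
    rintro _ ⟨q, hq, rfl⟩
    obtain ⟨q', hq', h⟩ := hs q hq
    show s (castM q) ∈ A.V
    rw [h]
    exact castM_mem_rs hq'
  exact fun v hv => h1 hv

theorem shat_mul {V : Submodule ℝ (ι → Mat m)} (hN : SpecNilExp) (hV : IsNil V)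
    (s : (ι → Mat m) →ₐ[ℝ] (ι → Mat m)) (hs : ∀ v ∈ V, s v ∈ V) {g h : ι → UT m}
    (hg : Lg g ∈ V) (hh : Lg h ∈ V) : E (s (Lg (g * h))) = E (s (Lg g)) * E (s (Lg h)) := by
  have hgh : Lg (g * h) ∈ V := PathM.mul_mem hN hV hg hh
  refine (alg_E s (NilExpM.Lg_su g) (NilExpM.Lg_su h) (NilExpM.Lg_su (g * h))
    (hV.su _ (hs _ hg)) (hV.su _ (hs _ hh)) (hV.su _ (hs _ hgh)) ?_).symm
  rw [NilExpM.E_Lg, NilExpM.E_Lg, NilExpM.E_Lg]

theorem per_gen {V K : Submodule ℝ (ι → Mat m)} (hN : SpecNilExp) (hV : IsNil V)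
    (hK : IsIdl V K) {x : ι → Mat m} (hx : x ∈ V) (hVx : ∀ v ∈ V, v * x - x * v ∈ K)
    (hint : ∀ i, E x i ∈ LT m) (f0 : ι → UT m) {h : ι → UT m} (hh : Lg h ∈ V) :
    ∃ g, Lg g ∈ K ∧ mkp (f0 * (E x * h)) = mkp (f0 * (g * h)) := by
  have hh' : Lg h⁻¹ ∈ V := PathM.inv_mem hh
  have hVK : ∀ v ∈ V, ∀ k ∈ Submodule.span ℝ {x}, v * k - k * v ∈ K := by
    intro v hv k hk
    obtain ⟨c, rfl⟩ := Submodule.mem_span_singleton.1 hk
    rw [mul_smul_comm, smul_mul_assoc, ← smul_sub]
    exact K.smul_mem _ (hVx v hv)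
  obtain ⟨k, hk, e⟩ := NilExpM.Ad_E_mem hV hK hVK hh' (Submodule.mem_span_singleton_self x)
  rw [NilExpM.E_Lg] at e
  have h1 := NilExpM.E_Ad h⁻¹ (hV.su x hx)
  obtain ⟨k2, hk2, h2⟩ := exists_E_add hN hV hK hx hk
  rw [e, h2, inv_inv] at h1
  have hEx : Lg (E x) ∈ V := by rw [NilExpM.Lg_E (hV.su x hx)]; exact hx
  have hEk : Lg (E k2) ∈ K := by rw [NilExpM.Lg_E (hV.su _ (hK.le hk2))]; exact hk2
  refine ⟨h * (E x * E k2 * (E x)⁻¹) * h⁻¹, conj_K hV hK hh (conj_K hV hK hEx hEk), ?_⟩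
  have e2 : f0 * (E x * h) = f0 * (h * (E x * E k2 * (E x)⁻¹) * h⁻¹ * h) * E x := by
    have h3 : E x * h = h * (E x * E k2) := by rw [h1]; group
    rw [h3]; group
  rw [e2]
  exact CptM.mkp_mul_of_int _ _ hint

end Maps

end UM

open UM

theorem specU (hN : SpecNilExp) (hR : SpecRatNil) (hC : SpecChar) (hP : SpecP)
    (hCpt : SpecCpt) : SpecU := by
  intro ι _ m A f0 J τ s b hτ hs hb hτb hch hirr
  have hV : IsNil A.V := (hR ι m A).1
  obtain ⟨R, U, hU0, hUR, hU⟩ := hch
  have hCR : Cc A s R = ⊥ := by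
    rw [eq_bot_iff, ← hUR]
    exact Cc_le_U A s hU0 hU R
  obtain ⟨D, d, e, hdD, he, hAD, hCd, hfl⟩ := exists_fl A R (Cc A s) rfl hCR (Cc_anti A s hs)
  have hsV : ∀ j, ∀ v ∈ A.V, s j v ∈ A.V := fun j => s_V A (s j) (hs j)
  have hKle : ∀ k, KQ e k ≤ A.Q := by
    intro k
    unfold KQ
    rw [Submodule.span_le]
    rintro _ ⟨j, _, rfl⟩
    exact (he j).1
  have hKV : ∀ k, rs (KQ e k) ≤ A.V := fun k => CptM.rs_mono (hKle k)
  have hKmono : ∀ k, rs (KQ e k) ≤ rs (KQ e (k + 1)) := fun k =>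
    CptM.rs_mono (KQ_mono e (Nat.le_succ k))
  have hbrk : ∀ k, ∀ v ∈ A.V, ∀ x ∈ rs (KQ e (k + 1)), v * x - x * v ∈ rs (KQ e k) := by
    intro k v hv
    exact lower hfl (NilExpM.adF v) (fun r q hq => Cc_br A s r hv (castM_mem_rs hq)) k
  have hid : ∀ k, IsIdl A.V (rs (KQ e k)) := fun k =>
    ⟨hKV k, fun v hv x hx => hbrk k v hv x (hKmono k hx)⟩
  have hsk : ∀ j k, ∀ x ∈ rs (KQ e (k + 1)), s j x - x ∈ rs (KQ e k) := by
    intro j k
    exact lower hfl ((s j).toLinearMap - LinearMap.id) (fun r q hq => Cc_sub A s hs r j hq) k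
  have hsA : ∀ j, ∀ v ∈ A.V, s j v - v ∈ rs (KQ e d) := by
    intro j
    have h1 : A.V ≤ (rs (KQ e d)).comap ((s j).toLinearMap - LinearMap.id) := by
      show Submodule.span ℝ _ ≤ _
      rw [Submodule.span_le]
      rintro _ ⟨q, hq, rfl⟩
      rw [← hCd]
      exact Cc_sub A s hs 0 j hq
    exact fun v hv => h1 hv
  have hbrA : ∀ v ∈ A.V, ∀ x ∈ A.V, v * x - x * v ∈ rs (KQ e d) := by
    intro v hv x hx
    rw [← hCd]
    exact Cc_br A s 0 hv hx
  have heV : ∀ k, castM (e k) ∈ A.V := fun k => castM_mem_rs (he k).1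
  -- the groups
  let G := grp hN hV
  let _ : MulAction (grp hN hV) (orb A.V f0) := mulAct hN hV f0
  have _ : ContinuousSMul (grp hN hV) (orb A.V f0) := contAct hN hV f0
  have hsmul : ∀ (g : grp hN hV) (z : orb A.V f0) (h : ι → UT m), z.1 = mkp (f0 * h) →
      (g • z).1 = mkp (f0 * (g.1 * h)) := by
    intro g z h hz
    show act (f0 * g.1 * f0⁻¹) z.1 = _
    rw [hz, act_f0]
  have hmemE : ∀ v ∈ A.V, E v ∈ grp hN hV := fun v hv => by
    show Lg (E v) ∈ A.V
    rw [NilExpM.Lg_E (hV.su v hv)]; exact hv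
  have hLgE : ∀ v ∈ A.V, Lg (E v) = v := fun v hv => NilExpM.Lg_E (hV.su v hv)
  have hτg : ∀ j, ∀ h, Lg h ∈ A.V → τ j (mkp (f0 * h)) = mkp (f0 * (b j * E (s j (Lg h)))) := by
    intro j h hh
    have := hτb j _ hh
    rw [NilExpM.E_Lg] at this
    rw [this, mul_assoc]
  have hτO : ∀ j, ∀ z ∈ orb A.V f0, τ j z ∈ orb A.V f0 := by
    intro j z hz
    obtain ⟨h, hh, rfl⟩ := (mem_orb hV).1 hz
    rw [hτg j h hh]
    exact (mem_orb hV).2 ⟨_, (grp hN hV).mul_mem (hb j) (hmemE _ (hsV j _ hh)), rfl⟩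
  let shat : J → grp hN hV → grp hN hV := fun j g => ⟨E (s j (Lg g.1)), hmemE _ (hsV j _ g.2)⟩
  let bb : J → grp hN hV := fun j => ⟨b j, hb j⟩
  have hor : ∀ z : orb A.V f0, ∃ h : grp hN hV, z.1 = mkp (f0 * h.1) := by
    intro z
    obtain ⟨h, hh, hz⟩ := (mem_orb hV).1 z.2
    exact ⟨⟨h, hh⟩, hz⟩
  -- the image of an element of `exp K` under `shat`
  have hshat : ∀ j, ∀ K, IsIdl A.V K → ∀ g : grp hN hV, s j (Lg g.1) - Lg g.1 ∈ K →
      ∃ k : grp hN hV, Lg k.1 ∈ K ∧ shat j g = g * k := by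
    intro j K hK g hg
    obtain ⟨k2, hk2, h2⟩ := exists_E_add hN hV hK g.2 hg
    refine ⟨⟨E k2, hmemE _ (hK.le hk2)⟩, ?_, ?_⟩
    · show Lg (E k2) ∈ K
      rw [hLgE _ (hK.le hk2)]; exact hk2
    · apply Subtype.ext
      show E (s j (Lg g.1)) = g.1 * E k2
      rw [NilExpM.E_Lg, add_sub_cancel] at h2
      exact h2
  let S : PSetup (orb A.V f0) (grp hN hV) J :=
    { D := D
      d := d
      hd := hdD
      H := fun k => sub hN hV (hid k)
      H_zero := by
        rw [Subgroup.eq_bot_iff_forall]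
        intro g hg
        have hg' : Lg g.1 ∈ rs (KQ e 0) := hg
        have h0 : KQ e 0 = ⊥ := by
          unfold KQ
          have : (Set.Iio 0 : Set ℕ) = ∅ := by ext; simp
          rw [this, Set.image_empty, Submodule.span_empty]
        rw [h0, CptM.rs_bot, Submodule.mem_bot] at hg'
        apply Subtype.ext
        show g.1 = 1
        rw [← NilExpM.E_Lg g.1, hg', NilExpM.E_zero]
      H_top := by
        rw [eq_top_iff]
        intro g _
        show Lg g.1 ∈ rs (KQ e D)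
        rw [← hAD]
        exact g.2
      H_le := fun k _ g hg => hKmono k hg
      w := fun k t => ⟨E (t • castM (e k)), hmemE _ (A.V.smul_mem t (heV k))⟩
      w_cont := fun k _ => Continuous.subtype_mk (CharM.continuous_E_smul (hV.su _ (heV k))) _
      w_add := fun k _ s t => Subtype.ext (CharM.E_smul_add (hV.su _ (heV k)) s t)
      w_mem := by
        intro k _ t
        show Lg (E (t • castM (e k))) ∈ rs (KQ e (k + 1))
        rw [hLgE _ (A.V.smul_mem t (heV k))]
        refine Submodule.smul_mem _ _ (castM_mem_rs (Submodule.subset_span ⟨k, ?_, rfl⟩))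
        exact Nat.lt_succ_self k
      H_succ := by
        intro k _ g hg
        obtain ⟨t, u', hu', hgu⟩ := CptM.rs_succ e k _ hg
        obtain ⟨k2, hk2, h2⟩ := exists_E_add hN hV (hid k) (A.V.smul_mem t (heV k)) hu'
        refine ⟨t, ⟨E k2, hmemE _ (hKV k hk2)⟩, ?_, ?_⟩
        · show Lg (E k2) ∈ rs (KQ e k)
          rw [hLgE _ (hKV k hk2)]; exact hk2
        · apply Subtype.ext
          show g.1 = E (t • castM (e k)) * E k2
          rw [← h2, ← hgu, NilExpM.E_Lg]
      comm := fun k _ g h hh => comm_K hN hV (hid (k + 1)) (hid k) (hbrk k) g.2 hh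
      per := by
        intro k _ z
        obtain ⟨h, hz⟩ := hor z
        have h1 : castM (e k) ∈ rs (KQ e (k + 1)) :=
          castM_mem_rs (Submodule.subset_span ⟨k, Nat.lt_succ_self k, rfl⟩)
        obtain ⟨g, hg, hgh⟩ := per_gen hN hV (hid k) (heV k) (fun v hv => hbrk k v hv _ h1)
          (he k).2 f0 h.2
        refine ⟨⟨g, hKV k hg⟩, hg, ?_⟩
        apply Subtype.ext
        rw [hsmul _ z _ hz, hsmul _ z _ hz]
        show mkp (f0 * (E ((1 : ℝ) • castM (e k)) * h.1)) = _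
        rw [one_smul]
        exact hgh
      per' := by
        intro k _ _ z
        obtain ⟨h, hz⟩ := hor z
        obtain ⟨g, hg, hgh⟩ := per_gen hN hV (hid d) (heV k) (fun v hv => hbrA v hv _ (heV k))
          (he k).2 f0 h.2
        refine ⟨⟨g, hKV d hg⟩, hg, ?_⟩
        apply Subtype.ext
        rw [hsmul _ z _ hz, hsmul _ z _ hz]
        show mkp (f0 * (E ((1 : ℝ) • castM (e k)) * h.1)) = _
        rw [one_smul]
        exact hgh
      τ := fun j z => ⟨τ j z.1, hτO j z.1 z.2⟩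
      τ_cont := fun j => Continuous.subtype_mk ((hτ j).comp continuous_subtype_val) _
      α := fun j g => bb j * shat j g * (bb j)⁻¹
      τ_smul := by
        intro j g z
        obtain ⟨h, hz⟩ := hor z
        have hz2 : τ j z.1 = mkp (f0 * (b j * E (s j (Lg h.1)))) := by
          rw [hz, hτg j _ h.2]
        apply Subtype.ext
        rw [hsmul _ ⟨τ j z.1, hτO j z.1 z.2⟩ _ hz2]
        show τ j (g • z).1 = _
        rw [hsmul g z _ hz, hτg j (g.1 * h.1) (g * h).2, shat_mul hN hV (s j) (hsV j) g.2 h.2]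
        congr 1
        show f0 * (b j * (E (s j (Lg g.1)) * E (s j (Lg h.1)))) =
          f0 * (b j * E (s j (Lg g.1)) * (b j)⁻¹ * (b j * E (s j (Lg h.1))))
        group
      α_mem := by
        intro j k _ g hg
        obtain ⟨κ, hκ, hκ2⟩ := hshat j _ (hid k) g (hsk j k _ hg)
        have e1 : bb j * shat j g * (bb j)⁻¹ * g⁻¹ =
            (bb j * g * (bb j)⁻¹ * g⁻¹) * (g * (bb j * κ * (bb j)⁻¹) * g⁻¹) := by
          rw [hκ2]; group
        rw [e1]
        refine mul_mem ?_ ?_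
        · exact comm_K hN hV (hid (k + 1)) (hid k) (hbrk k) (bb j).2 hg
        · exact conj_K hV (hid k) g.2 (conj_K hV (hid k) (bb j).2 hκ)
      b := bb
      τ_b := by
        intro j z
        obtain ⟨h, hz⟩ := hor z
        obtain ⟨κ, hκ, hκ2⟩ := hshat j _ (hid d) h (hsA j _ h.2)
        refine ⟨(bb j * h) * κ * (bb j * h)⁻¹, conj_K hV (hid d) (bb j * h).2 hκ, ?_⟩
        apply Subtype.ext
        have hz2 : (bb j • z).1 = mkp (f0 * (b j * h.1)) := hsmul _ z _ hz
        rw [hsmul _ _ _ hz2]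
        show τ j z.1 = _
        rw [hz, hτg j _ h.2]
        have e2 : E (s j (Lg h.1)) = h.1 * κ.1 := congrArg Subtype.val hκ2
        rw [e2]
        congr 1
        show f0 * (b j * (h.1 * κ.1)) = f0 * ((b j * h.1) * κ.1 * (b j * h.1)⁻¹ * (b j * h.1))
        group
      trans := by
        intro z z'
        obtain ⟨h, hz⟩ := hor z
        obtain ⟨h', hz'⟩ := hor z'
        refine ⟨h' * h⁻¹, ?_⟩
        apply Subtype.ext
        rw [hsmul _ z _ hz, hz']
        congr 1
        show f0 * (h'.1 * h.1⁻¹ * h.1) = f0 * h'.1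
        group
      char6 := by
        intro c hc hα h hh
        obtain ⟨φ, hφ, hcφ⟩ := char_fun hC hN hV c hc
        have hinv : ∀ j, ∀ v ∈ A.V, φ (s j v) = φ v := by
          intro j v hv
          refine eq_of_exp fun t => ?_
          have h1 := hα j ⟨E (t • v), hmemE _ (A.V.smul_mem t hv)⟩
          rw [map_mul, map_mul, map_inv, mul_comm (c (bb j)), mul_assoc, mul_inv_cancel,
            mul_one, hcφ, hcφ] at h1
          have e1 : Lg (shat j ⟨E (t • v), hmemE _ (A.V.smul_mem t hv)⟩).1 = t • s j v := by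
            show Lg (E (s j (Lg (E (t • v))))) = t • s j v
            rw [hLgE _ (A.V.smul_mem t hv), hLgE _ (hsV j _ (A.V.smul_mem t hv)), map_smul]
          rw [e1, map_smul, smul_eq_mul] at h1
          rw [h1]
          show Circle.exp (2 * Real.pi * φ (Lg (E (t • v)))) = _
          rw [hLgE _ (A.V.smul_mem t hv), map_smul, smul_eq_mul]
        have hK : ∀ q ∈ Cc A s 1, φ (castM q) = 0 := by
          have h2 : Cc A s 1 ≤ LinearMap.ker ((φ.restrictScalars ℚ).comp (RatM.castL ι m)) := by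
            refine sup_le ?_ ?_
            · unfold brQ
              rw [Submodule.span_le]
              rintro x ⟨q, hq, r, hr, rfl⟩
              show φ (castM (q * r - r * q)) = 0
              rw [CptM.castM_sub, CptM.castM_mul, CptM.castM_mul]
              exact hφ _ (castM_mem_rs hq) _ (castM_mem_rs hr)
            · rw [Submodule.span_le]
              rintro x ⟨j, q, hq, hx⟩
              show φ (castM x) = 0
              rw [← hx, map_sub, hinv j _ (castM_mem_rs hq), sub_self]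
          exact fun q hq => h2 hq
        have hK2 : ∀ x ∈ rs (KQ e d), φ x = 0 := by
          have h3 : rs (KQ e d) ≤ LinearMap.ker φ := by
            rw [← hCd]
            unfold rs
            rw [Submodule.span_le]
            rintro _ ⟨q, hq, rfl⟩
            exact hK q hq
          exact fun x hx => h3 hx
        rw [hcφ, hK2 _ hh, mul_zero, Circle.exp_zero]
      char7 := by
        intro c hc hd hw hbj g
        obtain ⟨φ, hφ, hcφ⟩ := char_fun hC hN hV c hc
        have hK2 : ∀ x ∈ rs (KQ e d), φ x = 0 := by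
          intro x hx
          have hxV := hKV d hx
          refine eq_of_exp fun t => ?_
          have h1 := hd ⟨E (t • x), hmemE _ (A.V.smul_mem t hxV)⟩ (by
            show Lg (E (t • x)) ∈ rs (KQ e d)
            rw [hLgE _ (A.V.smul_mem t hxV)]
            exact Submodule.smul_mem _ _ hx)
          rw [hcφ] at h1
          have e1 : φ (Lg (E (t • x))) = t * φ x := by
            rw [hLgE _ (A.V.smul_mem t hxV), map_smul, smul_eq_mul]
          rw [← e1, mul_zero, mul_zero, Circle.exp_zero]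
          exact h1
        have hek : ∀ k < D, ∃ x : ℚ, φ (castM (e k)) = x := by
          intro k hk
          rcases Nat.lt_or_ge k d with h | h
          · refine ⟨0, ?_⟩
            rw [hK2 _ (castM_mem_rs (Submodule.subset_span ⟨k, h, rfl⟩))]
            simp
          · have h1 := hw k h hk
            rw [hcφ] at h1
            have e1 : Lg (E ((1 : ℝ) • castM (e k))) = castM (e k) := by
              rw [hLgE _ (A.V.smul_mem 1 (heV k)), one_smul]
            obtain ⟨n, hn⟩ := exp_two_pi_eq_one h1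
            refine ⟨n, ?_⟩
            rw [← e1]
            push_cast
            exact hn
        have hrat : RatOn A φ := by
          intro q hq
          rw [hAD] at hq
          unfold KQ at hq
          induction hq using Submodule.span_induction with
          | mem x hx =>
            obtain ⟨k, hk, rfl⟩ := hx
            exact hek k hk
          | zero => exact ⟨0, by rw [CptM.castM_zero, map_zero]; simp⟩
          | add x y _ _ hx hy =>
            obtain ⟨a, ha⟩ := hx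
            obtain ⟨b, hb⟩ := hy
            exact ⟨a + b, by rw [CptM.castM_add, map_add, ha, hb]; push_cast; rfl⟩
          | smul r x _ hx =>
            obtain ⟨a, ha⟩ := hx
            exact ⟨r * a, by rw [FlagM.castM_smul, map_smul, ha, smul_eq_mul]; push_cast; rfl⟩
        have hzero := hirr φ hrat hφ
          (fun j v hv => by
            have h1 := hK2 _ (hsA j v hv)
            rw [map_sub, sub_eq_zero] at h1
            exact h1)
          (fun j => by
            have h1 := hbj j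
            rw [hcφ] at h1
            exact exp_two_pi_eq_one h1)
        rw [hcφ, hzero _ g.2, mul_zero, Circle.exp_zero] }
  -- the measure
  have hcomp : IsCompact (orb A.V f0) := hCpt.2 ι m A f0
  have hmeas : MeasurableSet (orb A.V f0) := hcomp.isClosed.measurableSet
  have _ : CompactSpace (orb A.V f0) := isCompact_iff_compactSpace.1 hcomp
  have _ : Nonempty (orb A.V f0) := ⟨⟨mkp (f0 * E 0), 0, A.V.zero_mem, rfl⟩⟩
  obtain ⟨ν, hν, hinv, hτν, huniq⟩ := hP (orb A.V f0) (grp hN hV) J S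
  have hτm : ∀ j, Measurable (τ j) := fun j => (hτ j).measurable
  have hτm' : ∀ j, Measurable (S.τ j) := fun j => (S.τ_cont j).measurable
  refine ⟨ν.map Subtype.val, ?_, ?_, ?_⟩
  · refine ⟨?_, ?_, ?_⟩
    · exact Measure.isProbabilityMeasure_map measurable_subtype_coe.aemeasurable
    · rw [Measure.map_apply measurable_subtype_coe hmeas, Subtype.coe_preimage_self]
      exact measure_univ
    · intro v hv
      have hact : Continuous (act (f0 * E v * f0⁻¹)) := by
        show Continuous fun z : ι → NM m => (f0 * E v * f0⁻¹) • z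
        fun_prop
      refine ⟨hact.measurable, ?_⟩
      have hg' : Measurable (fun z : orb A.V f0 => (⟨E v, hmemE v hv⟩ : grp hN hV) • z) :=
        (continuous_const_smul _).measurable
      rw [map_subtype hact.measurable hg' (fun z => rfl), hinv]
  · intro j
    rw [map_subtype (hτm j) (hτm' j) (fun z => rfl), hτν]
  · intro θ hθ hθ1 hθτ
    obtain ⟨θ', hθ', hθθ⟩ := exists_sub hmeas θ hθ1
    have h1 : θ' = ν := by
      refine huniq θ' hθ' fun j => ?_
      refine map_val_inj hmeas ?_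
      rw [← map_subtype (hτm j) (hτm' j) (fun z => rfl), hθθ]
      exact hθτ j
    rw [← hθθ, h1]

end MPd26.Nil
end

section
/-!
# MP_d26cd8_an, module HAAR (helper69): existence and uniqueness of the invariant probability of
`f₀ exp(V) Γ / Γ`
-/
set_option autoImplicit false

open MeasureTheory Filter Topology

namespace MPd26.Nil

open UM

theorem specHaar (hR : SpecRatNil) (hU : SpecU) : SpecHaar := by
  intro ι _ m A f0
  have hV : IsNil A.V := (hR ι m A).1
  have hcont : ∀ g : ι → UT m, Continuous (act g) := by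
    intro g
    show Continuous fun z : ι → NM m => g • z
    fun_prop
  obtain ⟨ν, h1, h2, h3⟩ := hU ι m A f0 A.V (fun v => act (f0 * E v.1 * f0⁻¹))
    (fun _ => AlgHom.id ℝ _) (fun v => E v.1) (fun v => hcont _) (fun _ q hq => ⟨q, hq, rfl⟩)
    (fun v => by rw [NilExpM.Lg_E (hV.su v.1 v.2)]; exact v.2)
    (fun v w _ => by
      rw [act_f0]
      congr 1
      rw [mul_assoc]
      rfl)
    ⟨m, lcs A.Q, rfl, CptM.lcs_bot A, fun r => ⟨le_rfl, fun _ q _ =>
      ⟨0, Submodule.zero_mem _, by rw [CptM.castM_zero]; exact sub_self _⟩⟩⟩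
    (fun φ _ _ _ hint v hv => by
      by_contra hne
      obtain ⟨n, hn⟩ := hint ⟨v, hv⟩
      obtain ⟨k, hk⟩ := hint ⟨(2 * φ v)⁻¹ • v, A.V.smul_mem _ hv⟩
      rw [NilExpM.Lg_E (hV.su _ (A.V.smul_mem _ hv)), map_smul, smul_eq_mul, mul_inv,
        mul_assoc, inv_mul_cancel₀ hne, mul_one] at hk
      have h4 : (1 : ℝ) = 2 * k := by rw [← hk]; norm_num
      have h5 : (1 : ℤ) = 2 * k := by exact_mod_cast h4
      omega)
  refine ⟨ν, h1, fun ν' hν' => ?_⟩
  exact h3 ν' hν'.prob hν'.orb fun v => (hν'.inv v.1 v.2).map_eq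

end MPd26.Nil
end
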