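import Mathlib

/-!
# MP_d26cd8_an, Nil: MAL, abstract coordinates of the second kind (helper29)

A group with a chain of normal subgroups `H k` with one-parameter quotients.
-/

set_option autoImplicit false

namespace MPd26.Nil

/-- a chain of subgroups `H 0 ≥ H 1 ≥ … ≥ H D = 1`, normalised and centralised by `H 0`, with
one-parameter quotients -/
structure MG (G : Type*) [Group G] (D : ℕ) where
  /-- the chain -/
  H : ℕ → Subgroup G
  /-- one-parameter subgroups -/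
  w : ℕ → ℝ → G
  /-- coordinates -/
  l : ℕ → G → ℝ
  HD : H D = ⊥
  anti : ∀ k < D, H (k + 1) ≤ H k
  w_add : ∀ k < D, ∀ s t, w k (s + t) = w k s * w k t
  w_mem : ∀ k < D, ∀ t, w k t ∈ H k
  l_mem : ∀ k < D, ∀ g ∈ H k, (w k (l k g))⁻¹ * g ∈ H (k + 1)
  w_inj : ∀ k < D, ∀ t, w k t ∈ H (k + 1) → t = 0
  comm : ∀ k < D, ∀ g ∈ H 0, ∀ h ∈ H k, g * h * g⁻¹ * h⁻¹ ∈ H (k + 1)

namespace MG

variable {G : Type*} [Group G] {D : ℕ} (M : MG G D)

/-- partial products -/
def pr (x : ℕ → ℝ) : ℕ → G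
  | 0 => 1
  | k + 1 => pr x k * M.w k (x k)

@[simp] lemma pr_zero (x : ℕ → ℝ) : M.pr x 0 = 1 := rfl
lemma pr_succ (x : ℕ → ℝ) (k : ℕ) : M.pr x (k + 1) = M.pr x k * M.w k (x k) := rfl

lemma w_zero {k : ℕ} (hk : k < D) : M.w k 0 = 1 := by
  have := M.w_add k hk 0 0
  rw [add_zero] at this
  exact (left_eq_mul.1 this)

lemma w_neg {k : ℕ} (hk : k < D) (t : ℝ) : M.w k (-t) = (M.w k t)⁻¹ := by
  rw [eq_inv_iff_mul_eq_one, ← M.w_add k hk, neg_add_cancel, M.w_zero hk]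

lemma le_of_le {j k : ℕ} (hjk : j ≤ k) (hk : k ≤ D) : M.H k ≤ M.H j := by
  induction k, hjk using Nat.le_induction with
  | base => exact le_rfl
  | succ k hjk ih => exact (M.anti k (by omega)).trans (ih (by omega))

lemma pr_mem {x : ℕ → ℝ} {k : ℕ} (hk : k ≤ D) : M.pr x k ∈ M.H 0 := by
  induction k with
  | zero => exact (M.H 0).one_mem
  | succ k ih =>
    exact (M.H 0).mul_mem (ih (by omega)) (M.le_of_le (Nat.zero_le k) (by omega)
      (M.w_mem k (by omega) _))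

lemma conj_mem {k : ℕ} (hk : k ≤ D) {g h : G} (hg : g ∈ M.H 0) (hh : h ∈ M.H k) :
    g * h * g⁻¹ ∈ M.H k := by
  rcases Nat.lt_or_ge k D with hk' | hk'
  · have h1 := M.anti k hk' (M.comm k hk' g hg h hh)
    have h2 := (M.H k).mul_mem h1 hh
    have e : g * h * g⁻¹ * h⁻¹ * h = g * h * g⁻¹ := by group
    rwa [e] at h2
  · obtain rfl : k = D := by omega
    rw [M.HD] at hh ⊢
    rw [Subgroup.mem_bot] at hh ⊢
    rw [hh]; group

/-- congruence modulo `H k` -/
def eqv (k : ℕ) (a b : G) : Prop := a⁻¹ * b ∈ M.H k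

lemma eqv.refl (k : ℕ) (a : G) : M.eqv k a a := by
  unfold eqv; rw [inv_mul_cancel]; exact (M.H k).one_mem

variable {M}

lemma eqv.symm {k : ℕ} {a b : G} (h : M.eqv k a b) : M.eqv k b a := by
  unfold eqv at h ⊢
  have := (M.H k).inv_mem h
  rwa [mul_inv_rev, inv_inv] at this

lemma eqv.trans {k : ℕ} {a b c : G} (h : M.eqv k a b) (h' : M.eqv k b c) : M.eqv k a c := by
  unfold eqv at h h' ⊢
  have := (M.H k).mul_mem h h'
  have e : a⁻¹ * b * (b⁻¹ * c) = a⁻¹ * c := by group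
  rwa [e] at this

lemma eqv.mul {k : ℕ} (hk : k ≤ D) {a b c d : G} (hc : c ∈ M.H 0) (h : M.eqv k a b)
    (h' : M.eqv k c d) : M.eqv k (a * c) (b * d) := by
  unfold eqv at h h' ⊢
  have h1 := M.conj_mem hk ((M.H 0).inv_mem hc) h
  have h2 := (M.H k).mul_mem h1 h'
  have e : c⁻¹ * (a⁻¹ * b) * c⁻¹⁻¹ * (c⁻¹ * d) = (a * c)⁻¹ * (b * d) := by group
  rwa [e] at h2

lemma eqv.of_mul_mem {k : ℕ} {a h : G} (hh : h ∈ M.H k) : M.eqv k (a * h) a := by
  unfold eqv
  have : (a * h)⁻¹ * a = h⁻¹ := by group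
  rw [this]
  exact (M.H k).inv_mem hh

lemma eqv.comm {k : ℕ} (hk : k < D) {g h : G} (hg : g ∈ M.H 0) (hh : h ∈ M.H k) :
    M.eqv (k + 1) (h * g) (g * h) := by
  unfold eqv
  have h1 := M.comm k hk g⁻¹ ((M.H 0).inv_mem hg) h⁻¹ ((M.H k).inv_mem hh)
  have e : g⁻¹ * h⁻¹ * g⁻¹⁻¹ * h⁻¹⁻¹ = (h * g)⁻¹ * (g * h) := by group
  rwa [e] at h1

variable (M)

lemma pr_tail {x : ℕ → ℝ} {k l : ℕ} (hkl : k ≤ l) (hl : l ≤ D) : M.eqv k (M.pr x k) (M.pr x l) := by
  induction l, hkl using Nat.le_induction with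
  | base => exact eqv.refl M k _
  | succ l hkl ih =>
    refine (ih (by omega)).trans (eqv.symm ?_)
    rw [pr_succ]
    exact eqv.of_mul_mem (M.le_of_le hkl (by omega) (M.w_mem l (by omega) _))

lemma pr_congr {x y : ℕ → ℝ} {k : ℕ} (h : ∀ i < k, x i = y i) : M.pr x k = M.pr y k := by
  induction k with
  | zero => rfl
  | succ k ih =>
    rw [pr_succ, pr_succ, ih (fun i hi => h i (by omega)), h k (by omega)]

lemma uniq {x y : ℕ → ℝ} {k : ℕ} (hk : k ≤ D) (h : M.eqv k (M.pr x k) (M.pr y k)) :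
    ∀ i < k, x i = y i := by
  induction k with
  | zero => intro i hi; omega
  | succ k ih =>
    have hk' : k < D := hk
    have h1 : M.eqv k (M.pr x k) (M.pr y k) := by
      have h2 : M.eqv k (M.pr x (k + 1)) (M.pr y (k + 1)) := M.anti k hk' h
      exact ((M.pr_tail (Nat.le_succ k) hk).trans h2).trans
        (M.pr_tail (Nat.le_succ k) hk).symm
    have h2 := ih hk'.le h1
    have h3 : M.pr x k = M.pr y k := M.pr_congr h2
    have h4 : M.w k (-(x k) + y k) ∈ M.H (k + 1) := by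
      have h5 : (M.pr x (k + 1))⁻¹ * M.pr y (k + 1) ∈ M.H (k + 1) := h
      rw [pr_succ, pr_succ, h3] at h5
      have e : (M.pr y k * M.w k (x k))⁻¹ * (M.pr y k * M.w k (y k)) =
          (M.w k (x k))⁻¹ * M.w k (y k) := by group
      rw [e] at h5
      rw [M.w_add k hk', M.w_neg hk']
      exact h5
    have h5 := M.w_inj k hk' _ h4
    intro i hi
    rcases Nat.lt_succ_iff_lt_or_eq.1 hi with hi' | hi'
    · exact h2 i hi'
    · subst hi'; linarith

/-- remainders -/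
def r : ℕ → G → G
  | 0, g => g
  | k + 1, g => (M.w k (M.l k (r k g)))⁻¹ * r k g

/-- coordinates -/
def c (g : G) (k : ℕ) : ℝ := M.l k (M.r k g)

lemma r_mem {g : G} (hg : g ∈ M.H 0) {k : ℕ} (hk : k ≤ D) : M.r k g ∈ M.H k := by
  induction k with
  | zero => exact hg
  | succ k ih => exact M.l_mem k hk _ (ih (by omega))

lemma pr_c (g : G) (k : ℕ) : M.pr (M.c g) k * M.r k g = g := by
  induction k with
  | zero => exact one_mul g
  | succ k ih =>
    rw [pr_succ]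
    show M.pr (M.c g) k * M.w k (M.l k (M.r k g)) * ((M.w k (M.l k (M.r k g)))⁻¹ * M.r k g) = g
    rw [← mul_assoc, mul_inv_cancel_right, ih]

lemma pr_c_D {g : G} (hg : g ∈ M.H 0) : M.pr (M.c g) D = g := by
  have h1 := M.pr_c g D
  have h2 := M.r_mem hg (le_refl D)
  rw [M.HD, Subgroup.mem_bot] at h2
  rwa [h2, mul_one] at h1

lemma c_pr (x : ℕ → ℝ) : ∀ i < D, M.c (M.pr x D) i = x i := by
  refine M.uniq le_rfl ?_
  rw [M.pr_c_D (M.pr_mem le_rfl)]
  exact eqv.refl M D _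

/-- coordinates of products, lower part -/
lemma eqv_mul {x y z : ℕ → ℝ} (h : M.pr z D = M.pr x D * M.pr y D) {k : ℕ} (hk : k ≤ D) :
    M.eqv k (M.pr z k) (M.pr x k * M.pr y k) := by
  refine (M.pr_tail hk le_rfl).trans ?_
  rw [h]
  exact (eqv.mul hk (M.pr_mem hk) (M.pr_tail hk le_rfl) (M.pr_tail hk le_rfl)).symm

lemma dep_lt {x y z x' y' z' : ℕ → ℝ} (h : M.pr z D = M.pr x D * M.pr y D)
    (h' : M.pr z' D = M.pr x' D * M.pr y' D) {k : ℕ} (hk : k ≤ D) (hx : ∀ i < k, x i = x' i)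
    (hy : ∀ i < k, y i = y' i) : ∀ i < k, z i = z' i := by
  refine M.uniq hk ?_
  refine (M.eqv_mul h hk).trans ?_
  rw [M.pr_congr hx, M.pr_congr hy]
  exact (M.eqv_mul h' hk).symm

/-- the class of the defect -/
lemma eqv_defect {x y z : ℕ → ℝ} (h : M.pr z D = M.pr x D * M.pr y D) {k : ℕ} (hk : k < D) :
    M.eqv (k + 1) (M.pr z k * M.w k (z k - x k - y k)) (M.pr x k * M.pr y k) := by
  have h0 : ∀ t, M.w k t ∈ M.H 0 := fun t => M.le_of_le (Nat.zero_le k) hk.le (M.w_mem k hk t)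
  have h1 := M.eqv_mul h (k := k + 1) hk
  rw [pr_succ, pr_succ, pr_succ] at h1
  -- move `w (x k)` to the right
  have h2 : M.eqv (k + 1) (M.pr x k * M.w k (x k) * (M.pr y k * M.w k (y k)))
      (M.pr x k * (M.pr y k * M.w k (x k)) * M.w k (y k)) := by
    have h3 := eqv.comm hk (M.pr_mem (x := y) hk.le) (M.w_mem k hk (x k))
    have h4 := eqv.mul hk ((M.H 0).mul_mem (h0 (x k)) (M.pr_mem (x := y) hk.le))
      (eqv.refl M (k + 1) (M.pr x k)) h3
    have h5 := eqv.mul hk (h0 (y k)) h4 (eqv.refl M (k + 1) (M.w k (y k)))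
    have e : M.pr x k * M.w k (x k) * (M.pr y k * M.w k (y k)) =
        M.pr x k * (M.w k (x k) * M.pr y k) * M.w k (y k) := by group
    rw [e]
    exact h5
  have h6 := h1.trans h2
  have h7 := eqv.mul hk (h0 (-(x k) - y k)) h6 (eqv.refl M (k + 1) (M.w k (-(x k) - y k)))
  have e1 : M.pr z k * M.w k (z k) * M.w k (-(x k) - y k) =
      M.pr z k * M.w k (z k - x k - y k) := by
    rw [mul_assoc, ← M.w_add k hk]; congr 2; ring
  have e2 : M.pr x k * (M.pr y k * M.w k (x k)) * M.w k (y k) * M.w k (-(x k) - y k) =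
      M.pr x k * M.pr y k := by
    have e3 : M.w k (x k) * (M.w k (y k) * M.w k (-(x k) - y k)) = 1 := by
      rw [← M.w_add k hk, ← M.w_add k hk, ← M.w_zero hk]; congr 1; ring
    calc M.pr x k * (M.pr y k * M.w k (x k)) * M.w k (y k) * M.w k (-(x k) - y k)
        = M.pr x k * M.pr y k * (M.w k (x k) * (M.w k (y k) * M.w k (-(x k) - y k))) := by group
      _ = _ := by rw [e3, mul_one]
  rwa [e1, e2] at h7

lemma dep_eq {x y z x' y' z' : ℕ → ℝ} (h : M.pr z D = M.pr x D * M.pr y D)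
    (h' : M.pr z' D = M.pr x' D * M.pr y' D) {k : ℕ} (hk : k < D) (hx : ∀ i < k, x i = x' i)
    (hy : ∀ i < k, y i = y' i) : z k - x k - y k = z' k - x' k - y' k := by
  have hz := M.dep_lt h h' hk.le hx hy
  have h1 := M.eqv_defect h hk
  have h2 := M.eqv_defect h' hk
  rw [← M.pr_congr hx, ← M.pr_congr hy, ← M.pr_congr hz] at h2
  have h3 : (M.pr z k * M.w k (z' k - x' k - y' k))⁻¹ *
      (M.pr z k * M.w k (z k - x k - y k)) ∈ M.H (k + 1) := h2.trans h1.symm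
  have e : (M.pr z k * M.w k (z' k - x' k - y' k))⁻¹ *
      (M.pr z k * M.w k (z k - x k - y k)) =
      M.w k (-(z' k - x' k - y' k) + (z k - x k - y k)) := by
    rw [M.w_add k hk, M.w_neg hk]; group
  rw [e] at h3
  have := M.w_inj k hk _ h3
  linarith

lemma pr_zero_fun {x : ℕ → ℝ} {k : ℕ} (hk : k ≤ D) (h : ∀ i < k, x i = 0) : M.pr x k = 1 := by
  induction k with
  | zero => rfl
  | succ k ih =>
    rw [pr_succ, ih (by omega) (fun i hi => h i (by omega)), h k (by omega), M.w_zero hk, one_mul]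

lemma pr_tail_congr {x y : ℕ → ℝ} {k l : ℕ} (hkl : k ≤ l) (h : ∀ i, k ≤ i → i < l → x i = y i) :
    (M.pr x k)⁻¹ * M.pr x l = (M.pr y k)⁻¹ * M.pr y l := by
  induction l, hkl using Nat.le_induction with
  | base => rw [inv_mul_cancel, inv_mul_cancel]
  | succ l hkl ih =>
    rw [pr_succ, pr_succ, ← mul_assoc, ← mul_assoc, ih (fun i h1 h2 => h i h1 (by omega)),
      h l hkl (by omega)]

/-- coordinates of the second kind -/
lemma second {x y : ℕ → ℝ} {i : ℕ} (hi : i < D) (hx : ∀ j, i < j → j < D → x j = 0)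
    (hy : ∀ j, j < i → y j = 0) : M.pr x D * M.pr y D = M.pr (x + y) D := by
  have h1 : M.pr x D = M.pr x (i + 1) := by
    have := M.pr_tail_congr (x := x) (y := 0) (k := i + 1) (l := D) hi
      (fun j h1 h2 => hx j h1 h2)
    rw [M.pr_zero_fun (x := 0) hi (fun _ _ => rfl), M.pr_zero_fun (x := 0) le_rfl (fun _ _ => rfl),
      mul_one, inv_one, inv_mul_eq_one] at this
    exact this.symm
  have h2 := M.pr_tail_congr (x := y) (y := x + y) (k := i + 1) (l := D) hi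
    (fun j h1 h2 => by rw [Pi.add_apply, hx j h1 h2, zero_add])
  have h3 : M.pr (x + y) i = M.pr x i := M.pr_congr fun j hj => by
    rw [Pi.add_apply, hy j hj, add_zero]
  have h4 : M.pr y i = 1 := M.pr_zero_fun hi.le hy
  have h5 : M.pr y D = M.w i (y i) * ((M.pr (x + y) (i + 1))⁻¹ * M.pr (x + y) D) := by
    rw [← h2, pr_succ, h4]; group
  have h6 : M.pr (x + y) (i + 1) = M.pr x i * M.w i (x i) * M.w i (y i) := by
    rw [pr_succ, h3, Pi.add_apply, M.w_add i hi, mul_assoc]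
  rw [h5, h1, pr_succ, ← mul_assoc, ← h6]
  group

lemma w_int {k : ℕ} (hk : k < D) (n : ℤ) : M.w k n = M.w k 1 ^ n := by
  have h1 : ∀ n : ℕ, M.w k (n : ℝ) = M.w k 1 ^ n := by
    intro n
    induction n with
    | zero => rw [Nat.cast_zero, M.w_zero hk, pow_zero]
    | succ n ih => rw [Nat.cast_succ, M.w_add k hk, ih, pow_succ]
  cases n with
  | ofNat n =>
    show M.w k (((n : ℕ) : ℤ) : ℝ) = M.w k 1 ^ ((n : ℕ) : ℤ)
    rw [zpow_natCast, Int.cast_natCast]; exact h1 n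
  | negSucc n =>
    rw [Int.cast_negSucc, M.w_neg hk, zpow_negSucc, h1]

/-- integral points -/
lemma int_iff (Γ : Subgroup G) (h1 : ∀ k < D, M.w k 1 ∈ Γ)
    (h2 : ∀ k < D, ∀ g ∈ M.H k, g ∈ Γ → ∃ n : ℤ, M.l k g = n) (x : ℕ → ℝ) :
    M.pr x D ∈ Γ ↔ ∀ i < D, ∃ n : ℤ, x i = n := by
  constructor
  · intro h
    have hr : ∀ k ≤ D, M.r k (M.pr x D) ∈ Γ ∧ ∀ i < k, ∃ n : ℤ, M.c (M.pr x D) i = n := by
      intro k hk
      induction k with
      | zero => exact ⟨h, fun i hi => by omega⟩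
      | succ k ih =>
        obtain ⟨h3, h4⟩ := ih (by omega)
        obtain ⟨n, hn⟩ := h2 k hk _ (M.r_mem (M.pr_mem le_rfl) (by omega)) h3
        refine ⟨?_, fun i hi => ?_⟩
        · show (M.w k (M.l k (M.r k (M.pr x D))))⁻¹ * M.r k (M.pr x D) ∈ Γ
          rw [hn, M.w_int hk]
          exact Γ.mul_mem (Γ.inv_mem (Γ.zpow_mem (h1 k hk) n)) h3
        · rcases Nat.lt_succ_iff_lt_or_eq.1 hi with hi' | hi'
          · exact h4 i hi'
          · subst hi'; exact ⟨n, hn⟩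
    intro i hi
    obtain ⟨n, hn⟩ := (hr D le_rfl).2 i hi
    exact ⟨n, by rw [← hn, M.c_pr x i hi]⟩
  · intro h
    have : ∀ k ≤ D, M.pr x k ∈ Γ := by
      intro k hk
      induction k with
      | zero => exact Γ.one_mem
      | succ k ih =>
        obtain ⟨n, hn⟩ := h k hk
        rw [pr_succ, hn, M.w_int hk]
        exact Γ.mul_mem (ih (by omega)) (Γ.zpow_mem (h1 k hk) n)
    exact this D le_rfl

end MG

end MPd26.Nil
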