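import Pool.Agent.Lib.MP_d26cd8_an.Nil.H18Base
import Pool.Agent.Lib.MP_d26cd8_an.Nil.MalGrp
import Pool.Agent.Lib.MP_d26cd8_an.D5.NilX

section
/-!
# MP_d26cd8_an, Nil: CLASS, classification of the ergodic measures of a family of
one-parameter groups (helper29)
-/
set_option autoImplicit false

open MeasureTheory Filter Topology

namespace MPd26.Nil

namespace ClassM

open RatM PathM DiscM OrbM

variable {ι : Type} {m : ℕ}

/-- the algebra of all strictly upper triangular rational functions -/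
def fullA (ι : Type) [Finite ι] (m : ℕ) : RAlg ι m where
  Q :=
    { carrier := {q | SU (castM q)}
      add_mem' := fun {a b} ha hb => by
        show SU (castM (a + b))
        rw [castM_add]; exact SU_add ha hb
      zero_mem' := by
        show SU (castM 0)
        rw [castM_zero]; exact SU_zero
      smul_mem' := fun c {a} ha => by
        show SU (castM (c • a))
        rw [castM_smul]; exact SU_smul _ ha }
  fin := by
    have := Fintype.ofFinite ι
    infer_instance
  su := fun q hq => hq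
  lie := fun q hq r hr => by
    show SU (castM (q * r - r * q))
    rw [castM_sub, castM_mul, castM_mul]
    intro i
    have h1 : Lev 1 (castM q i) := hq i
    have h2 : Lev 1 (castM r i) := hr i
    exact ((h1.mul h2).mono (by omega)).sub ((h2.mul h1).mono (by omega))
  bd := fun q _ => by
    obtain ⟨M, hM, hz⟩ := common_den (fun a : ι × Fin m × Fin m => q a.1 a.2.1 a.2.2)
    refine ⟨M, hM, fun i j k => ?_⟩
    exact hz (i, j, k)

lemma fullA_V [Finite ι] {v : ι → Mat m} (hv : SU v) : v ∈ (fullA ι m).V := by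
  classical
  have := Fintype.ofFinite ι
  let e : ι × Fin m × Fin m → ι → MatQ m := fun a =>
    if a.2.1 < a.2.2 then Pi.single a.1 (Matrix.single a.2.1 a.2.2 1) else 0
  have he : ∀ a, e a ∈ (fullA ι m).Q := by
    intro a
    show SU (castM (e a))
    by_cases h : a.2.1 < a.2.2
    · simp only [e, if_pos h]
      intro i j k hjk
      show ((((Pi.single a.1 (Matrix.single a.2.1 a.2.2 1) : ι → MatQ m) i) j k : ℚ) : ℝ) = 0
      by_cases hi : i = a.1
      · subst hi
        rw [Pi.single_eq_same, Matrix.single_apply_of_ne, Rat.cast_zero]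
        rintro ⟨h1, h2⟩
        rw [h1, h2] at h
        have h' : (j : ℕ) < k := h
        omega
      · rw [Pi.single_eq_of_ne hi]; simp
    · simp only [e, if_neg h]
      rw [castM_zero]; exact SU_zero
  have hdec : v = ∑ a : ι × Fin m × Fin m, (v a.1 a.2.1 a.2.2) • castM (e a) := by
    funext i; ext j k
    rw [Finset.sum_apply, Matrix.sum_apply, Finset.sum_eq_single (i, j, k)]
    · by_cases h : j < k
      · simp [e, if_pos h, castM]
      · simp only [e, if_neg h, castM_zero, smul_zero]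
        exact hv i j k (by
          have : ¬ ((j : ℕ) < k) := h
          omega)
    · rintro ⟨i', j', k'⟩ _ hne
      show v i' j' k' * (((e (i', j', k')) i j k : ℚ) : ℝ) = 0
      by_cases h : j' < k'
      · simp only [e, if_pos h]
        by_cases hi : i' = i
        · subst hi
          rw [Pi.single_eq_same, Matrix.single_apply_of_ne, Rat.cast_zero, mul_zero]
          rintro ⟨h1, h2⟩
          exact hne (by rw [h1, h2])
        · rw [Pi.single_eq_of_ne (Ne.symm hi)]; simp
      · simp only [e, if_neg h]; simp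
    · intro h; exact absurd (Finset.mem_univ _) h
  rw [hdec]
  refine Submodule.sum_mem _ fun a _ => Submodule.smul_mem _ _ ?_
  exact Submodule.subset_span ⟨_, he a, rfl⟩

lemma orb_fullA [Finite ι] (x0 : ι → UT m) : orb (fullA ι m).V x0 = Set.univ := by
  ext z
  simp only [Set.mem_univ, iff_true]
  have h : ∃ g : ι → UT m, z = mkp g := by
    choose g hg using fun i => QuotientGroup.mk_surjective (z i)
    exact ⟨g, funext fun i => (hg i).symm⟩
  obtain ⟨g, rfl⟩ := h
  refine ⟨Lg (x0⁻¹ * g), fullA_V (SU_Lg _), ?_⟩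
  rw [E_Lg]
  congr 1
  group

section Char

variable (V : Submodule ℝ (ι → Mat m)) (x0 : ι → UT m) (φ : (ι → Mat m) →ₗ[ℝ] ℝ)

open Classical in
/-- the character `x₀ exp(v) Γ ↦ e(φ(v))`, `1` outside the orbit -/
noncomputable def chi (z : ι → NM m) : Circle :=
  if h : ∃ v ∈ V, z = mkp (x0 * E v) then Circle.exp (2 * Real.pi * φ h.choose) else 1

variable {V x0 φ}

lemma exp_eq_of_int {a b : ℝ} (h : ∃ n : ℤ, b - a = n) :
    Circle.exp (2 * Real.pi * a) = Circle.exp (2 * Real.pi * b) := by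
  obtain ⟨n, hn⟩ := h
  rw [Circle.exp_eq_exp]
  refine ⟨-n, ?_⟩
  have : b = a + n := by linarith
  rw [this]; push_cast; ring

lemma int_of_exp_eq {a b : ℝ} (h : Circle.exp (2 * Real.pi * a) = Circle.exp (2 * Real.pi * b)) :
    ∃ n : ℤ, b - a = n := by
  rw [Circle.exp_eq_exp] at h
  obtain ⟨n, hn⟩ := h
  refine ⟨-n, ?_⟩
  have hpi : (2 * Real.pi) ≠ 0 := by positivity
  have h1 : 2 * Real.pi * a = 2 * Real.pi * (b + n) := by rw [hn]; ring
  have h2 : a = b + n := mul_left_cancel₀ hpi h1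
  rw [h2]; push_cast; ring

lemma phi_diff (hN : SpecNilExp) (hV : IsNil V) (hk : KillBr V φ)
    (hint : ∀ g : ι → UT m, IntP g → Lg g ∈ V → ∃ n : ℤ, φ (Lg g) = n)
    {v w : ι → Mat m} (hv : v ∈ V) (hw : w ∈ V)
    (h : (mkp (x0 * E v) : ι → NM m) = mkp (x0 * E w)) : ∃ n : ℤ, φ w - φ v = n := by
  rw [mkp_eq] at h
  have e : (x0 * E v)⁻¹ * (x0 * E w) = (E v)⁻¹ * E w := by group
  rw [e] at h
  have h1 : Lg (E v)⁻¹ ∈ V := inv_mem (by rwa [Lg_E (hV.su v hv)])
  have h2 : Lg (E w) ∈ V := by rwa [Lg_E (hV.su w hw)]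
  obtain ⟨n, hn⟩ := hint _ h (mul_mem hN hV h1 h2)
  refine ⟨n, ?_⟩
  rw [← hn, phi_mul hN hV hk h1 h2, Lg_inv, Lg_E (hV.su v hv), Lg_E (hV.su w hw), map_neg]
  ring

lemma chi_eq (hN : SpecNilExp) (hV : IsNil V) (hk : KillBr V φ)
    (hint : ∀ g : ι → UT m, IntP g → Lg g ∈ V → ∃ n : ℤ, φ (Lg g) = n)
    {v : ι → Mat m} (hv : v ∈ V) :
    chi V x0 φ (mkp (x0 * E v)) = Circle.exp (2 * Real.pi * φ v) := by
  have h : ∃ w ∈ V, (mkp (x0 * E v) : ι → NM m) = mkp (x0 * E w) := ⟨v, hv, rfl⟩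
  unfold chi
  rw [dif_pos h]
  have h1 := h.choose_spec
  obtain ⟨n, hn⟩ := phi_diff hN hV hk hint h1.1 hv h1.2.symm
  exact exp_eq_of_int ⟨n, hn⟩

lemma chi_not {z : ι → NM m} (hz : z ∉ orb V x0) : chi V x0 φ z = 1 := by
  unfold chi
  exact dif_neg hz

/-- measurability of the character -/
lemma measurable_chi [Finite ι] (hN : SpecNilExp) (hV : IsNil V) (hk : KillBr V φ)
    (hint : ∀ g : ι → UT m, IntP g → Lg g ∈ V → ∃ n : ℤ, φ (Lg g) = n)
    {C : Set Circle} (hC : IsClosed C) : MeasurableSet (chi V x0 φ ⁻¹' C) := by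
  have h1 : MeasurableSet {z : ι → NM m | ∃ v ∈ V,
      v ∈ {v | Circle.exp (2 * Real.pi * φ v) ∈ C} ∧ z = mkp (x0 * E v)} := by
    refine measurable_image hV.su x0 (hC.preimage ?_)
    exact Circle.exp.continuous.comp (continuous_const.mul (continuous_phi φ))
  have h2 := measurable_orb hV.su x0
  by_cases h : (1 : Circle) ∈ C
  · have e : chi V x0 φ ⁻¹' C = {z : ι → NM m | ∃ v ∈ V,
        v ∈ {v | Circle.exp (2 * Real.pi * φ v) ∈ C} ∧ z = mkp (x0 * E v)} ∪ (orb V x0)ᶜ := by
      ext z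
      by_cases hz : z ∈ orb V x0
      · constructor
        · intro h'
          obtain ⟨v, hv, rfl⟩ := hz
          left
          refine ⟨v, hv, ?_, rfl⟩
          rw [Set.mem_preimage, chi_eq hN hV hk hint hv] at h'
          exact h'
        · rintro (⟨v, hv, hvC, rfl⟩ | h')
          · rw [Set.mem_preimage, chi_eq hN hV hk hint hv]; exact hvC
          · exact absurd hz h'
      · constructor
        · intro _; right; exact hz
        · intro _; rw [Set.mem_preimage, chi_not hz]; exact h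
    rw [e]
    exact h1.union h2.compl
  · have e : chi V x0 φ ⁻¹' C = {z : ι → NM m | ∃ v ∈ V,
        v ∈ {v | Circle.exp (2 * Real.pi * φ v) ∈ C} ∧ z = mkp (x0 * E v)} := by
      ext z
      by_cases hz : z ∈ orb V x0
      · constructor
        · intro h'
          obtain ⟨v, hv, rfl⟩ := hz
          refine ⟨v, hv, ?_, rfl⟩
          rw [Set.mem_preimage, chi_eq hN hV hk hint hv] at h'
          exact h'
        · rintro ⟨v, hv, hvC, rfl⟩
          rw [Set.mem_preimage, chi_eq hN hV hk hint hv]; exact hvC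
      · constructor
        · intro h'
          rw [Set.mem_preimage, chi_not hz] at h'
          exact absurd h' h
        · rintro ⟨v, hv, _, rfl⟩
          exact absurd ⟨v, hv, rfl⟩ hz
    rw [e]
    exact h1

end Char

/-- left multiplication by `exp(tξ)` in terms of `η = Ad(x₀⁻¹)ξ` -/
lemma act_pt (x0 : ι → UT m) {ξ : ι → Mat m} (hξ : SU ξ) (t : ℝ) (g : ι → UT m) :
    act (E (t • ξ)) (mkp (x0 * g)) = mkp (x0 * (E (t • Ad x0⁻¹ ξ) * g)) := by
  rw [act_mkp, ← mul_assoc, E_mul_x0 x0 (SU_smul t hξ), Ad_smul, mul_assoc]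

/-- the pairs `(x₀, A)` with `ν` supported by the orbit -/
def Good {J : Type} (ξ : J → ι → Mat m) (ν : Measure (ι → NM m)) (x0 : ι → UT m)
    (A : RAlg ι m) : Prop :=
  (∀ j, Ad x0⁻¹ (ξ j) ∈ A.V) ∧ ν (orb A.V x0) = 1

lemma reduce [Finite ι] (hN : SpecNilExp) (hR : SpecRat) (hRN : SpecRatNil) {J : Type}
    (ξ : J → ι → Mat m) (hξ : ∀ j, SU (ξ j)) (ν : Measure (ι → NM m)) [IsProbabilityMeasure ν]
    (herg : ∀ B, MeasurableSet B → (∀ j (t : ℝ), act (E (t • ξ j)) ⁻¹' B = B) →
      ν B = 0 ∨ ν B = 1) {x0 : ι → UT m} {A : RAlg ι m} (hg : Good ξ ν x0 A)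
    {φ : (ι → Mat m) →ₗ[ℝ] ℝ} (hφ : RatOn A φ) (hk : KillBr A.V φ)
    (hη : ∀ j, φ (Ad x0⁻¹ (ξ j)) = 0) (h0 : ∃ v ∈ A.V, φ v ≠ 0) :
    ∃ x1, Good ξ ν x1 (kerA A φ hk) := by
  obtain ⟨c, hc, hcZ⟩ := norm_phi hN hR hRN A hφ hk h0
  have hV : IsNil A.V := (hRN ι m A).1
  have hcr : (0 : ℝ) < c := by exact_mod_cast hc
  -- the normalised functional
  let φ' : (ι → Mat m) →ₗ[ℝ] ℝ := (c : ℝ)⁻¹ • φ
  have hφ' : ∀ v, φ' v = (c : ℝ)⁻¹ * φ v := fun v => rfl
  have hk' : KillBr A.V φ' := fun v hv w hw => by rw [hφ', hk v hv w hw, mul_zero]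
  have hint : ∀ g : ι → UT m, IntP g → Lg g ∈ A.V → ∃ n : ℤ, φ' (Lg g) = n := by
    intro g hg hgV
    obtain ⟨n, hn⟩ := (hcZ (φ (Lg g))).1 ⟨g, hg, hgV, rfl⟩
    exact ⟨n, by rw [hφ', hn]; field_simp⟩
  have hsur : ∀ n : ℤ, ∃ g : ι → UT m, IntP g ∧ Lg g ∈ A.V ∧ φ' (Lg g) = n := by
    intro n
    obtain ⟨g, hg, hgV, hgn⟩ := (hcZ (c * n)).2 ⟨n, rfl⟩
    exact ⟨g, hg, hgV, by rw [hφ', hgn]; field_simp⟩
  have hη' : ∀ j, φ' (Ad x0⁻¹ (ξ j)) = 0 := fun j => by rw [hφ', hη, mul_zero]
  -- invariance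
  have hpt : ∀ j (t : ℝ) v, v ∈ A.V → ∃ w ∈ A.V, φ' w = φ' v ∧
      act (E (t • ξ j)) (mkp (x0 * E v)) = mkp (x0 * E w) := by
    intro j t v hv
    have h1 : t • Ad x0⁻¹ (ξ j) ∈ A.V := A.V.smul_mem _ (hg.1 j)
    have h1' : Lg (E (t • Ad x0⁻¹ (ξ j))) ∈ A.V := by rwa [Lg_E (hV.su _ h1)]
    have h2' : Lg (E v) ∈ A.V := by rwa [Lg_E (hV.su _ hv)]
    refine ⟨Lg (E (t • Ad x0⁻¹ (ξ j)) * E v), mul_mem hN hV h1' h2', ?_, ?_⟩
    · rw [phi_mul hN hV hk' h1' h2', Lg_E (hV.su _ h1), Lg_E (hV.su _ hv), map_smul, hη',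
        smul_zero, zero_add]
    · rw [act_pt x0 (hξ j), E_Lg]
  have hinv : ∀ j (t : ℝ) z, chi A.V x0 φ' (act (E (t • ξ j)) z) = chi A.V x0 φ' z := by
    intro j t z
    by_cases hz : z ∈ orb A.V x0
    · obtain ⟨v, hv, rfl⟩ := hz
      obtain ⟨w, hw, hwv, e⟩ := hpt j t v hv
      rw [e, chi_eq hN hV hk' hint hw, chi_eq hN hV hk' hint hv, hwv]
    · have hz' : act (E (t • ξ j)) z ∉ orb A.V x0 := by
        rintro ⟨v, hv, e⟩
        apply hz
        obtain ⟨w, hw, _, e'⟩ := hpt j (-t) v hv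
        refine ⟨w, hw, ?_⟩
        rw [← e', ← e, ← act_mul, ← E_add_smul (hξ j), neg_add_cancel, zero_smul, E_zero, act_one]
      rw [chi_not hz, chi_not hz']
  have hconst : ∃ a : Circle, chi A.V x0 φ' =ᵐ[ν] fun _ => a := by
    refine exists_eventuallyEq_const_of_forall_separating (p := fun C : Set Circle => IsClosed C)
      ?_
    intro C hC
    have hm := measurable_chi (x0 := x0) hN hV hk' hint hC
    rcases herg _ hm (fun j t => by
      ext z
      rw [Set.mem_preimage, Set.mem_preimage, Set.mem_preimage, hinv]) with h | h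
    · right
      exact measure_eq_zero_iff_ae_notMem.1 h
    · left
      rw [← prob_compl_eq_zero_iff hm] at h
      have := measure_eq_zero_iff_ae_notMem.1 h
      filter_upwards [this] with z hz
      simpa using hz
  obtain ⟨a, ha⟩ := hconst
  have horb : ∀ᵐ z ∂ν, z ∈ orb A.V x0 := by
    have h := hg.2
    rw [← prob_compl_eq_zero_iff (measurable_orb hV.su x0)] at h
    have := measure_eq_zero_iff_ae_notMem.1 h
    filter_upwards [this] with z hz
    simpa using hz
  obtain ⟨z0, hz0a, hz0⟩ := (ha.and horb).exists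
  obtain ⟨v0, hv0, rfl⟩ := hz0
  have hz0a' : Circle.exp (2 * Real.pi * φ' v0) = a := by
    rw [← chi_eq (x0 := x0) hN hV hk' hint hv0]; exact hz0a
  refine ⟨x0 * E v0, ?_, ?_⟩
  · intro j
    rw [mem_kerA_V hφ, mul_inv_rev, Ad_mul]
    have hv0n : -v0 ∈ A.V := A.V.neg_mem hv0
    obtain ⟨-, -, ⟨k, hkb, e⟩⟩ := hN ι m A.V A.V (br A.V) hV (idl_self hV) (idl_br hV) (br_le hV)
      (fun v hv k hk => mem_br hv hk) (-v0) hv0n (Ad x0⁻¹ (ξ j)) (hg.1 j)
    rw [E_neg (hV.su v0 hv0)] at e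
    rw [e]
    refine ⟨A.V.add_mem (hg.1 j) (br_le hV hkb), ?_⟩
    rw [map_add, hη, killBr_br hk hkb, add_zero]
  · have hae : ∀ᵐ z ∂ν, z ∈ orb (kerA A φ hk).V (x0 * E v0) := by
      filter_upwards [ha, horb] with z hz hzo
      obtain ⟨v, hv, rfl⟩ := hzo
      rw [chi_eq hN hV hk' hint hv, ← hz0a'] at hz
      obtain ⟨n, hn⟩ := int_of_exp_eq hz
      obtain ⟨g, hgI, hgV, hgn⟩ := hsur n
      have h1 : Lg (E v0)⁻¹ ∈ A.V := inv_mem (by rwa [Lg_E (hV.su v0 hv0)])
      have h2 : Lg (E v) ∈ A.V := by rwa [Lg_E (hV.su v hv)]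
      have h3 := mul_mem hN hV h1 h2
      have h4 := mul_mem hN hV h3 hgV
      refine ⟨Lg ((E v0)⁻¹ * E v * g), (mem_kerA_V hφ _).2 ⟨h4, ?_⟩, ?_⟩
      · have h5 : φ' (Lg ((E v0)⁻¹ * E v * g)) = 0 := by
          rw [phi_mul hN hV hk' h3 hgV, phi_mul hN hV hk' h1 h2, Lg_inv, Lg_E (hV.su v0 hv0),
            Lg_E (hV.su v hv), hgn, map_neg, ← hn]
          ring
        rw [hφ'] at h5
        rcases mul_eq_zero.1 h5 with h | h
        · exact absurd h (inv_ne_zero hcr.ne')
        · exact h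
      · rw [E_Lg, mkp_eq]
        have e : (x0 * E v)⁻¹ * (x0 * E v0 * ((E v0)⁻¹ * E v * g)) = g := by group
        rw [e]
        exact hgI
    have h1 : (orb (kerA A φ hk).V (x0 * E v0) : Set (ι → NM m)) =ᵐ[ν] Set.univ := by
      filter_upwards [hae] with z hz
      exact propext ⟨fun _ => trivial, fun _ => hz⟩
    rw [measure_congr h1, measure_univ]

end ClassM

open RatM PathM DiscM OrbM ClassM

theorem specClass (hN : SpecNilExp) (hR : SpecRat) (hRN : SpecRatNil) (hU : SpecU) :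
    SpecClass := by
  classical
  intro ι _ m J ξ hξ ν hν hinv herg
  -- minimal pair
  have hex : ∃ n : ℕ, ∃ (x0 : ι → UT m) (A : RAlg ι m), Good ξ ν x0 A ∧
      Module.finrank ℚ A.Q = n := by
    refine ⟨_, 1, fullA ι m, ⟨fun j => fullA_V (SU_Ad _ (hξ j)), ?_⟩, rfl⟩
    rw [orb_fullA, measure_univ]
  obtain ⟨x0, A, hg, hn⟩ := Nat.find_spec hex
  have hmin : ∀ x1 (B : RAlg ι m), Good ξ ν x1 B →
      Module.finrank ℚ A.Q ≤ Module.finrank ℚ B.Q := by
    intro x1 B hB
    rw [hn]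
    exact Nat.find_min' hex ⟨x1, B, hB, rfl⟩
  have hV : IsNil A.V := (hRN ι m A).1
  have hirr : FlowIrr A (fun j => Ad x0⁻¹ (ξ j)) := by
    intro φ hφ hk hη v hv
    by_contra h
    obtain ⟨x1, hx1⟩ := reduce hN hR hRN ξ hξ ν herg hg hφ hk hη ⟨v, hv, h⟩
    have h1 := hmin _ _ hx1
    have h2 := kerA_lt (hk := hk) ⟨v, hv, h⟩
    omega
  refine ⟨x0, A, hg.1, hirr, ?_⟩
  obtain ⟨ν', hν', -, huniq⟩ := hU ι m A x0 (J × ℝ) (fun p => act (E (p.2 • ξ p.1)))
    (fun _ => AlgHom.id ℝ _) (fun p => E (p.2 • Ad x0⁻¹ (ξ p.1)))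
    (fun p => continuous_act _) (fun p q hq => ⟨q, hq, rfl⟩)
    (fun p => by
      have h1 : p.2 • Ad x0⁻¹ (ξ p.1) ∈ A.V := A.V.smul_mem _ (hg.1 _)
      rwa [Lg_E (hV.su _ h1)])
    (fun p v hv => by
      show act (E (p.2 • ξ p.1)) (mkp (x0 * E v)) =
        mkp (x0 * E (p.2 • Ad x0⁻¹ (ξ p.1)) * E v)
      rw [act_pt x0 (hξ _), mul_assoc])
    ⟨m, lcs A.Q, rfl, lcs_bot A, fun r => ⟨le_rfl, fun j q hq => ⟨0, Submodule.zero_mem _, by
      show castM q - castM q = castM 0
      rw [sub_self, castM_zero]⟩⟩⟩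
    (fun φ hφ hk _ hint v hv => by
      refine hirr φ hφ hk (fun j => ?_) v hv
      by_contra hne
      have h1 : ∀ t : ℝ, ∃ n : ℤ, t * φ (Ad x0⁻¹ (ξ j)) = n := by
        intro t
        obtain ⟨n, hn⟩ := hint (j, t)
        refine ⟨n, ?_⟩
        have h1 : t • Ad x0⁻¹ (ξ j) ∈ A.V := A.V.smul_mem _ (hg.1 _)
        rw [← hn, Lg_E (hV.su _ h1), map_smul, smul_eq_mul]
      obtain ⟨n, hn⟩ := h1 (1 / (2 * φ (Ad x0⁻¹ (ξ j))))
      have h2 : (1 / (2 * φ (Ad x0⁻¹ (ξ j)))) * φ (Ad x0⁻¹ (ξ j)) = 1 / 2 := by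
        field_simp
      rw [h2] at hn
      have h3 : (1 : ℝ) = 2 * n := by linarith
      have h4 : (1 : ℤ) = 2 * n := by exact_mod_cast h3
      omega)
  have := huniq ν hν hg.2 (fun p => (hinv p.1 p.2).map_eq)
  rw [this]
  exact hν'

end MPd26.Nil
end

section
/-!
# MP_d26cd8_an, Nil: MAL, polynomial functions with values in matrices, exact flags (helper29)
-/
set_option autoImplicit false

open MeasureTheory Filter Topology

namespace MPd26.Nil

namespace MalM

open RatM PathM DiscM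

section Poly

variable {σ : Type} {m : ℕ}

/-- polynomial functions -/
def IsP (F : (σ → ℝ) → ℝ) : Prop := ∃ p : MvPolynomial σ ℝ, ∀ x, F x = MvPolynomial.eval x p

/-- polynomial matrix valued functions -/
def IsPM (M : (σ → ℝ) → Mat m) : Prop := ∀ i j, IsP fun x => M x i j

lemma IsP.const (c : ℝ) : IsP (fun _ : σ → ℝ => c) := ⟨MvPolynomial.C c, fun x => by simp⟩

lemma IsP.coord (s : σ) : IsP (fun x : σ → ℝ => x s) := ⟨MvPolynomial.X s, fun x => by simp⟩

lemma IsP.add {F G : (σ → ℝ) → ℝ} (hF : IsP F) (hG : IsP G) : IsP (fun x => F x + G x) := by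
  obtain ⟨p, hp⟩ := hF
  obtain ⟨q, hq⟩ := hG
  exact ⟨p + q, fun x => by rw [map_add, ← hp, ← hq]⟩

lemma IsP.mul {F G : (σ → ℝ) → ℝ} (hF : IsP F) (hG : IsP G) : IsP (fun x => F x * G x) := by
  obtain ⟨p, hp⟩ := hF
  obtain ⟨q, hq⟩ := hG
  exact ⟨p * q, fun x => by rw [map_mul, ← hp, ← hq]⟩

lemma IsP.neg {F : (σ → ℝ) → ℝ} (hF : IsP F) : IsP (fun x => -F x) := by
  obtain ⟨p, hp⟩ := hF
  exact ⟨-p, fun x => by rw [map_neg, ← hp]⟩

lemma IsP.sub {F G : (σ → ℝ) → ℝ} (hF : IsP F) (hG : IsP G) : IsP (fun x => F x - G x) := by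
  simpa [sub_eq_add_neg] using hF.add hG.neg

lemma IsP.sum {α : Type*} (s : Finset α) {F : α → (σ → ℝ) → ℝ} (h : ∀ a ∈ s, IsP (F a)) :
    IsP (fun x => ∑ a ∈ s, F a x) := by
  classical
  induction s using Finset.induction_on with
  | empty => simpa using IsP.const (σ := σ) 0
  | insert a s ha ih =>
    simp only [Finset.sum_insert ha]
    exact (h a (Finset.mem_insert_self a s)).add (ih fun b hb => h b (Finset.mem_insert_of_mem hb))

lemma IsP.continuous {F : (σ → ℝ) → ℝ} (hF : IsP F) : Continuous F := by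
  obtain ⟨p, hp⟩ := hF
  have : F = fun x => MvPolynomial.eval x p := funext hp
  rw [this]
  exact MvPolynomial.continuous_eval p

lemma IsPM.const (A : Mat m) : IsPM (fun _ : σ → ℝ => A) := fun i j => IsP.const (A i j)

lemma IsPM.add {M N : (σ → ℝ) → Mat m} (hM : IsPM M) (hN : IsPM N) : IsPM (fun x => M x + N x) :=
  fun i j => (hM i j).add (hN i j)

lemma IsPM.sub {M N : (σ → ℝ) → Mat m} (hM : IsPM M) (hN : IsPM N) : IsPM (fun x => M x - N x) :=
  fun i j => (hM i j).sub (hN i j)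

lemma IsPM.smul {F : (σ → ℝ) → ℝ} {M : (σ → ℝ) → Mat m} (hF : IsP F) (hM : IsPM M) :
    IsPM (fun x => F x • M x) := fun i j => hF.mul (hM i j)

lemma IsPM.mul {M N : (σ → ℝ) → Mat m} (hM : IsPM M) (hN : IsPM N) :
    IsPM (fun x => M x * N x) := by
  intro i j
  have : (fun x => (M x * N x) i j) = fun x => ∑ k, M x i k * N x k j := by
    funext x; rw [Matrix.mul_apply]
  rw [this]
  exact IsP.sum _ fun k _ => (hM i k).mul (hN k j)

lemma IsPM.sum {α : Type*} (s : Finset α) {M : α → (σ → ℝ) → Mat m} (h : ∀ a ∈ s, IsPM (M a)) :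
    IsPM (fun x => ∑ a ∈ s, M a x) := by
  intro i j
  have : (fun x => (∑ a ∈ s, M a x) i j) = fun x => ∑ a ∈ s, M a x i j := by
    funext x; rw [Matrix.sum_apply]
  rw [this]
  exact IsP.sum _ fun a ha => h a ha i j

lemma IsPM.pow {M : (σ → ℝ) → Mat m} (hM : IsPM M) (r : ℕ) : IsPM (fun x => M x ^ r) := by
  induction r with
  | zero => simpa using IsPM.const (σ := σ) (1 : Mat m)
  | succ r ih =>
    simp only [pow_succ]
    exact ih.mul hM

lemma IsPM.expM {M : (σ → ℝ) → Mat m} (hM : IsPM M) : IsPM (fun x => expM (M x)) := by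
  unfold Nil.expM
  exact IsPM.sum _ fun r _ => IsPM.smul (IsP.const _) (hM.pow r)

lemma IsPM.logM {M : (σ → ℝ) → Mat m} (hM : IsPM M) : IsPM (fun x => logM (M x)) := by
  unfold Nil.logM
  have : ∀ k : ℕ, IsPM (fun x => (fun A => A + (M x - Nil.expM A))^[k] (0 : Mat m)) := by
    intro k
    induction k with
    | zero => exact IsPM.const 0
    | succ k ih =>
      simp only [Function.iterate_succ_apply']
      exact ih.add (hM.sub ih.expM)
  exact this m

/-- a functional of a polynomial matrix function is polynomial -/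
lemma IsPM.functional {M : (σ → ℝ) → Mat m} (hM : IsPM M) (φ : (Unit → Mat m) →ₗ[ℝ] ℝ) :
    IsP (fun x => φ (fun _ => M x)) := by
  classical
  have hdec : ∀ A : Mat m, φ (fun _ => A) =
      ∑ p : Fin m × Fin m, A p.1 p.2 * φ (fun _ => Matrix.single p.1 p.2 1) := by
    intro A
    have h1 : (fun _ : Unit => A) =
        ∑ p : Fin m × Fin m, A p.1 p.2 • (fun _ : Unit => Matrix.single p.1 p.2 (1 : ℝ)) := by
      funext u; ext j k
      rw [Finset.sum_apply, Matrix.sum_apply, Finset.sum_eq_single (j, k)]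
      · simp
      · rintro ⟨j', k'⟩ _ hne
        rw [Pi.smul_apply, Matrix.smul_apply, Matrix.single_apply_of_ne, smul_zero]
        rintro ⟨h1, h2⟩
        exact hne (Prod.ext h1 h2)
      · intro h; exact absurd (Finset.mem_univ _) h
    rw [h1, map_sum]
    refine Finset.sum_congr rfl fun p _ => ?_
    rw [map_smul, smul_eq_mul]
  have : (fun x => φ (fun _ => M x)) = fun x =>
      ∑ p : Fin m × Fin m, M x p.1 p.2 * φ (fun _ => Matrix.single p.1 p.2 1) :=
    funext fun x => hdec (M x)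
  rw [this]
  exact IsP.sum _ fun p _ => (hM p.1 p.2).mul (IsP.const _)

end Poly

/-! ### exact flags -/

variable {ι : Type} {m : ℕ}

/-- exact flag of a rational Lie algebra -/
structure XF (V : Submodule ℝ (ι → Mat m)) where
  /-- length -/
  D : ℕ
  /-- the ideals -/
  W : ℕ → Submodule ℝ (ι → Mat m)
  /-- the functionals -/
  lam : ℕ → (ι → Mat m) →ₗ[ℝ] ℝ
  /-- the vectors -/
  f : ℕ → ι → Mat m
  W0 : W 0 = V
  WD : W D = ⊥
  nil : ∀ k ≤ D, IsNil (W k)
  mem_succ : ∀ k < D, ∀ v, v ∈ W (k + 1) ↔ v ∈ W k ∧ lam k v = 0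
  br : ∀ k < D, ∀ v ∈ V, ∀ w ∈ W k, v * w - w * v ∈ W (k + 1)
  f_mem : ∀ k < D, f k ∈ W k
  f_one : ∀ k < D, lam k (f k) = 1
  f_int : ∀ k < D, IntP (E (f k))
  int : ∀ k < D, ∀ g : ι → UT m, IntP g → Lg g ∈ W k → ∃ n : ℤ, lam k (Lg g) = n

/-- exact flags starting at an ideal `B` -/
lemma exists_flag [Finite ι] (hN : SpecNilExp) (hR : SpecRat) (hRN : SpecRatNil) (A : RAlg ι m) :
    ∀ (n : ℕ) (B : RAlg ι m), (∀ q ∈ A.Q, ∀ r ∈ B.Q, q * r - r * q ∈ B.Q) → B.Q ≤ A.Q →
      Module.finrank ℚ B.Q = n →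
    ∃ (D : ℕ) (W : ℕ → Submodule ℝ (ι → Mat m)) (lam : ℕ → (ι → Mat m) →ₗ[ℝ] ℝ)
      (f : ℕ → ι → Mat m), W 0 = B.V ∧ W D = ⊥ ∧ (∀ k ≤ D, IsNil (W k)) ∧
      (∀ k < D, ∀ v, v ∈ W (k + 1) ↔ v ∈ W k ∧ lam k v = 0) ∧
      (∀ k < D, ∀ v ∈ A.V, ∀ w ∈ W k, v * w - w * v ∈ W (k + 1)) ∧
      (∀ k < D, f k ∈ W k) ∧ (∀ k < D, lam k (f k) = 1) ∧ (∀ k < D, IntP (E (f k))) ∧
      (∀ k < D, ∀ g : ι → UT m, IntP g → Lg g ∈ W k → ∃ n : ℤ, lam k (Lg g) = n) := by
  classical
  intro n
  induction n using Nat.strong_induction_on with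
  | _ n ih =>
  intro B hB hBA hn
  have hVB : IsNil B.V := (hRN ι m B).1
  have hVA : IsNil A.V := (hRN ι m A).1
  by_cases hbot : B.Q = ⊥
  · have hV0 : B.V = ⊥ := by
      unfold RAlg.V
      rw [hbot]
      rw [Submodule.span_eq_bot]
      rintro _ ⟨q, hq, rfl⟩
      have : q = 0 := by simpa using hq
      rw [this, castM_zero]
    exact ⟨0, fun _ => B.V, fun _ => 0, fun _ => 0, rfl, hV0, fun k _ => hVB,
      fun k hk => by omega, fun k hk => by omega, fun k hk => by omega, fun k hk => by omega,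
      fun k hk => by omega, fun k hk => by omega⟩
  · -- `[A, B]` is a proper subspace
    have hprop : ∃ q ∈ B.Q, q ∉ brQ A.Q B.Q := by
      by_contra hcon
      push Not at hcon
      apply hbot
      -- all elements have level k for all k
      have hlev : ∀ k : ℕ, ∀ q ∈ B.Q, ∀ i, Lev (k + 1) (castM q i) := by
        intro k
        induction k with
        | zero => intro q hq i; exact B.su q hq i
        | succ k ihk =>
          intro q hq
          have h1 := hcon q hq
          unfold brQ at h1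
          clear hq
          induction h1 using Submodule.span_induction with
          | mem x hx =>
            obtain ⟨q, hq, r, hr, rfl⟩ := hx
            intro i
            rw [castM_sub, castM_mul, castM_mul]
            have h1 : Lev 1 (castM q i) := A.su q hq i
            have h2 := ihk r hr i
            have h3 := h1.mul h2
            have h4 := h2.mul h1
            rw [add_comm 1 (k + 1)] at h3
            exact h3.sub h4
          | zero => intro i; rw [castM_zero]; exact Lev.zero _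
          | add x y _ _ hx hy => intro i; rw [castM_add]; exact (hx i).add (hy i)
          | smul a x _ hx => intro i; rw [castM_smul]; exact (hx i).smul _
      rw [eq_bot_iff]
      intro q hq
      rw [Submodule.mem_bot]
      funext i; ext j k
      have h1 : castM q i = 0 := ((hlev m q hq i).mono (k := m) (by omega)).eq_zero
      have h2 : ((q i j k : ℚ) : ℝ) = 0 := congrFun (congrFun h1 j) k
      show q i j k = 0
      exact_mod_cast h2
    obtain ⟨q1, hq1, hq1n⟩ := hprop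
    let Dsub : Submodule ℚ B.Q := (brQ A.Q B.Q).comap B.Q.subtype
    have hD : Dsub < ⊤ := by
      rw [lt_top_iff_ne_top]
      intro htop
      have : (⟨q1, hq1⟩ : B.Q) ∈ Dsub := by rw [htop]; trivial
      exact hq1n this
    obtain ⟨φ0, hφ0, hker⟩ := Submodule.exists_le_ker_of_lt_top Dsub hD
    obtain ⟨φ, hφ⟩ := (hR ι m B.Q).2 ((Algebra.linearMap ℚ ℝ).comp φ0)
    have hφ' : ∀ q : B.Q, φ (castM (q : ι → MatQ m)) = (φ0 q : ℝ) := fun q => hφ q
    have hrat : RatOn B φ := fun q hq => ⟨φ0 ⟨q, hq⟩, hφ' ⟨q, hq⟩⟩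
    -- brackets `[A, B]` are killed
    have hbrA : ∀ v ∈ A.V, ∀ w ∈ B.V, φ (v * w - w * v) = 0 := by
      have hb : ∀ q ∈ A.Q, ∀ r ∈ B.Q, φ (castM q * castM r - castM r * castM q) = 0 := by
        intro q hq r hr
        rw [← castM_mul, ← castM_mul, ← castM_sub]
        have h1 := hφ' ⟨q * r - r * q, hB q hq r hr⟩
        have h2 : (⟨q * r - r * q, hB q hq r hr⟩ : B.Q) ∈ Dsub :=
          (Submodule.subset_span ⟨q, hq, r, hr, rfl⟩ : q * r - r * q ∈ brQ A.Q B.Q)
        have h3 : φ0 ⟨q * r - r * q, hB q hq r hr⟩ = 0 := hker h2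
        rw [h3, Rat.cast_zero] at h1
        exact h1
      intro v hv w hw
      unfold RAlg.V at hv hw
      induction hv using Submodule.span_induction with
      | mem v hv =>
        obtain ⟨q, hq, rfl⟩ := hv
        induction hw using Submodule.span_induction with
        | mem w hw =>
          obtain ⟨r, hr, rfl⟩ := hw
          exact hb q hq r hr
        | zero => simp
        | add x y _ _ hx hy =>
          have e : castM q * (x + y) - (x + y) * castM q
              = (castM q * x - x * castM q) + (castM q * y - y * castM q) := by noncomm_ring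
          rw [e, map_add, hx, hy, add_zero]
        | smul c x _ hx =>
          have e : castM q * (c • x) - (c • x) * castM q = c • (castM q * x - x * castM q) := by
            rw [mul_smul_comm, smul_mul_assoc, smul_sub]
          rw [e, map_smul, hx, smul_zero]
      | zero => simp
      | add x y _ _ hx hy =>
        have e : (x + y) * w - w * (x + y) = (x * w - w * x) + (y * w - w * y) := by noncomm_ring
        rw [e, map_add, hx, hy, add_zero]
      | smul c x _ hx =>
        have e : (c • x) * w - w * (c • x) = c • (x * w - w * x) := by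
          rw [mul_smul_comm, smul_mul_assoc, smul_sub]
        rw [e, map_smul, hx, smul_zero]
    have hVBA : B.V ≤ A.V := Submodule.span_mono (Set.image_mono hBA)
    have hk : KillBr B.V φ := fun v hv w hw => hbrA v (hVBA hv) w hw
    have hne : ∃ v ∈ B.V, φ v ≠ 0 := by
      by_contra hcon
      push Not at hcon
      apply hφ0
      ext q
      have h1 := hcon (castM (q : ι → MatQ m)) (Submodule.subset_span ⟨q, q.2, rfl⟩)
      rw [hφ'] at h1
      have : φ0 q = 0 := by exact_mod_cast h1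
      rw [this]; rfl
    obtain ⟨c, hc, hcZ⟩ := norm_phi hN hR hRN B hrat hk hne
    have hcr : (0 : ℝ) < c := by exact_mod_cast hc
    obtain ⟨g0, hg0, hg0V, hg0c⟩ := (hcZ (c * (1 : ℤ))).2 ⟨1, rfl⟩
    -- the kernel
    have hideal : ∀ q ∈ A.Q, ∀ r ∈ (kerA B φ hk).Q, q * r - r * q ∈ (kerA B φ hk).Q := by
      intro q hq r hr
      refine ⟨hB q hq r hr.1, ?_⟩
      rw [castM_sub, castM_mul, castM_mul]
      exact hbrA _ (Submodule.subset_span ⟨q, hq, rfl⟩) _ (Submodule.subset_span ⟨r, hr.1, rfl⟩)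
    obtain ⟨D, W, lam, f, h1, h2, h3, h4, h5, h6, h7, h8, h9⟩ :=
      ih _ (by rw [← hn]; exact kerA_lt (hk := hk) hne) (kerA B φ hk) hideal
        (fun q hq => hBA hq.1) rfl
    refine ⟨D + 1, fun k => Nat.casesOn k B.V W, fun k => Nat.casesOn k ((c : ℝ)⁻¹ • φ) lam,
      fun k => Nat.casesOn k (Lg g0) f, rfl, h2, ?_, ?_, ?_, ?_, ?_, ?_, ?_⟩
    · intro k hk'
      cases k with
      | zero => exact hVB
      | succ k => exact h3 k (by omega)
    · intro k hk' v
      cases k with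
      | zero =>
        show v ∈ W 0 ↔ v ∈ B.V ∧ (c : ℝ)⁻¹ * φ v = 0
        rw [h1, mem_kerA_V hrat]
        constructor
        · rintro ⟨a, b⟩; exact ⟨a, by rw [b, mul_zero]⟩
        · rintro ⟨a, b⟩
          refine ⟨a, ?_⟩
          rcases mul_eq_zero.1 b with h | h
          · exact absurd h (inv_ne_zero hcr.ne')
          · exact h
      | succ k => exact h4 k (by omega) v
    · intro k hk' v hv w hw
      cases k with
      | zero =>
        show v * w - w * v ∈ W 0
        rw [h1, mem_kerA_V hrat]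
        have hBid := ((hRN ι m A).2 B.Q hBA (by
          unfold brQ
          rw [Submodule.span_le]
          rintro _ ⟨q, hq, r, hr, rfl⟩
          exact hB q hq r hr)).mem
        exact ⟨hBid v hv w hw, hbrA v hv w hw⟩
      | succ k => exact h5 k (by omega) v hv w hw
    · intro k hk'
      cases k with
      | zero => exact hg0V
      | succ k => exact h6 k (by omega)
    · intro k hk'
      cases k with
      | zero =>
        show (c : ℝ)⁻¹ * φ (Lg g0) = 1
        rw [hg0c]; push_cast; field_simp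
      | succ k => exact h7 k (by omega)
    · intro k hk'
      cases k with
      | zero =>
        show IntP (E (Lg g0))
        rw [E_Lg]; exact hg0
      | succ k => exact h8 k (by omega)
    · intro k hk' g hg hgV
      cases k with
      | zero =>
        obtain ⟨n, hn'⟩ := (hcZ (φ (Lg g))).1 ⟨g, hg, hgV, rfl⟩
        refine ⟨n, ?_⟩
        show (c : ℝ)⁻¹ * φ (Lg g) = n
        rw [hn']; field_simp
      | succ k => exact h9 k (by omega) g hg hgV

lemma exists_XF [Finite ι] (hN : SpecNilExp) (hR : SpecRat) (hRN : SpecRatNil) (A : RAlg ι m) :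
    Nonempty (XF A.V) := by
  obtain ⟨D, W, lam, f, h1, h2, h3, h4, h5, h6, h7, h8, h9⟩ :=
    exists_flag hN hR hRN A _ A A.lie le_rfl rfl
  exact ⟨⟨D, W, lam, f, h1, h2, h3, h4, h5, h6, h7, h8, h9⟩⟩

end MalM

end MPd26.Nil
end

section
/-!
# MP_d26cd8_an, Nil: MAL, Malcev coordinates of the second kind for `exp V` (helper29)
-/
set_option autoImplicit false

open MeasureTheory Filter Topology
open scoped ENNReal

namespace MPd26.Nil

namespace MalM

open RatM PathM DiscM OrbM

section Flag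

variable {ι : Type} {m : ℕ} {V : Submodule ℝ (ι → Mat m)}

lemma XF.le (X : XF V) {k : ℕ} (hk : k ≤ X.D) : X.W k ≤ V := by
  induction k with
  | zero => rw [X.W0]
  | succ k ih => exact fun v hv => ih (by omega) ((X.mem_succ k hk v).1 hv).1

lemma XF.nilV (X : XF V) : IsNil V := by
  have := X.nil 0 (Nat.zero_le _)
  rwa [X.W0] at this

lemma XF.idl (X : XF V) {k : ℕ} (hk : k ≤ X.D) : IsIdl V (X.W k) := by
  refine ⟨X.le hk, fun v hv w hw => ?_⟩
  cases k with
  | zero => rw [X.W0] at hw ⊢; exact X.nilV.lie v hv w hw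
  | succ k => exact X.br k hk v hv w ((X.mem_succ k hk w).1 hw).1

/-- the subgroup `exp (W k)` -/
def XF.grp (hN : SpecNilExp) (X : XF V) (k : ℕ) (hk : k ≤ X.D) : Subgroup (ι → UT m) where
  carrier := {g | Lg g ∈ X.W k}
  mul_mem' := fun ha hb => mul_mem hN (X.nil k hk) ha hb
  one_mem' := by
    show Lg 1 ∈ X.W k
    rw [Lg_one]; exact (X.W k).zero_mem
  inv_mem' := fun ha => inv_mem ha

lemma XF.mem_grp {hN : SpecNilExp} {X : XF V} {k : ℕ} {hk : k ≤ X.D} {g : ι → UT m} :
    g ∈ X.grp hN k hk ↔ Lg g ∈ X.W k := Iff.rfl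

lemma Lg_Ad (g : ι → UT m) (h : ι → UT m) : Lg (g * h * g⁻¹) = Ad g (Lg h) := by
  have h1 : E (Ad g (Lg h)) = g * h * g⁻¹ := by rw [E_Ad _ (SU_Lg h), E_Lg]
  rw [← h1, Lg_E (SU_Ad g (SU_Lg h))]

/-- `Ad(exp V)` on ideals -/
lemma XF.ad (hN : SpecNilExp) (X : XF V) {k : ℕ} (hk : k < X.D) {g : ι → UT m} (hg : Lg g ∈ V)
    {κ : ι → Mat m} (hκ : κ ∈ X.W k) : ∃ y ∈ X.W (k + 1), Ad g κ = κ + y := by
  obtain ⟨-, -, h⟩ := hN ι m V (X.W k) (X.W (k + 1)) X.nilV (X.idl hk.le) (X.idl hk)
    (fun v hv => ((X.mem_succ k hk v).1 hv).1) (fun v hv w hw => X.br k hk v hv w hw)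
    (Lg g) hg κ hκ
  rwa [E_Lg] at h

lemma XF.ad_mem (hN : SpecNilExp) (X : XF V) {k : ℕ} (hk : k ≤ X.D) {g : ι → UT m}
    (hg : Lg g ∈ V) {κ : ι → Mat m} (hκ : κ ∈ X.W k) : Ad g κ ∈ X.W k := by
  obtain ⟨-, -, ⟨y, hy, e⟩⟩ := hN ι m V (X.W k) (X.W k) X.nilV (X.idl hk) (X.idl hk)
    le_rfl (fun v hv w hw => (X.idl hk).mem v hv w hw) (Lg g) hg κ hκ
  rw [E_Lg] at e
  rw [e]
  exact (X.W k).add_mem hκ hy

lemma XF.kill (X : XF V) {k : ℕ} (hk : k < X.D) : KillBr (X.W k) (X.lam k) :=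
  fun v hv w hw => ((X.mem_succ k hk _).1 (X.br k hk v (X.le hk.le hv) w hw)).2

/-- the abstract data -/
noncomputable def XF.MG (hN : SpecNilExp) (X : XF V) : MG (ι → UT m) X.D where
  H := fun k => if h : k ≤ X.D then X.grp hN k h else ⊥
  w := fun k t => E (t • X.f k)
  l := fun k g => X.lam k (Lg g)
  HD := by
    rw [dif_pos le_rfl]
    rw [eq_bot_iff]
    intro g hg
    have h1 : Lg g ∈ X.W X.D := hg
    rw [X.WD, Submodule.mem_bot] at h1
    rw [Subgroup.mem_bot, ← E_Lg g, h1, E_zero]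
  anti := fun k hk => by
    rw [dif_pos (show k + 1 ≤ X.D from hk), dif_pos hk.le]
    intro g hg
    exact ((X.mem_succ k hk _).1 hg).1
  w_add := fun k hk s t => E_add_smul ((X.nil k hk.le).su _ (X.f_mem k hk)) s t
  w_mem := fun k hk t => by
    rw [dif_pos hk.le]
    show Lg (E (t • X.f k)) ∈ X.W k
    have h := (X.W k).smul_mem t (X.f_mem k hk)
    rwa [Lg_E ((X.nil k hk.le).su _ h)]
  l_mem := fun k hk g hg => by
    rw [dif_pos hk.le] at hg
    rw [dif_pos (show k + 1 ≤ X.D from hk)]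
    have hg' : Lg g ∈ X.W k := hg
    have h := (X.W k).smul_mem (X.lam k (Lg g)) (X.f_mem k hk)
    have h1 : Lg (E (X.lam k (Lg g) • X.f k))⁻¹ ∈ X.W k := by
      rw [Lg_inv, Lg_E ((X.nil k hk.le).su _ h)]; exact (X.W k).neg_mem h
    show Lg ((E (X.lam k (Lg g) • X.f k))⁻¹ * g) ∈ X.W (k + 1)
    rw [X.mem_succ k hk]
    refine ⟨mul_mem hN (X.nil k hk.le) h1 hg', ?_⟩
    rw [phi_mul hN (X.nil k hk.le) (X.kill hk) h1 hg', Lg_inv, Lg_E ((X.nil k hk.le).su _ h),
      map_neg, map_smul, X.f_one k hk, smul_eq_mul, mul_one, neg_add_cancel]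
  w_inj := fun k hk t ht => by
    rw [dif_pos (show k + 1 ≤ X.D from hk)] at ht
    have h1 : Lg (E (t • X.f k)) ∈ X.W (k + 1) := ht
    have h := (X.W k).smul_mem t (X.f_mem k hk)
    rw [Lg_E ((X.nil k hk.le).su _ h), X.mem_succ k hk, map_smul, X.f_one k hk, smul_eq_mul,
      mul_one] at h1
    exact h1.2
  comm := fun k hk g hg h hh => by
    rw [dif_pos (Nat.zero_le _)] at hg
    rw [dif_pos hk.le] at hh
    rw [dif_pos (show k + 1 ≤ X.D from hk)]
    have hg' : Lg g ∈ V := by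
      have : Lg g ∈ X.W 0 := hg
      rwa [X.W0] at this
    have hh' : Lg h ∈ X.W k := hh
    have hhV : Lg h ∈ V := X.le hk.le hh'
    obtain ⟨y, hy, e⟩ := X.ad hN hk hg' hh'
    obtain ⟨⟨z, hz, e2⟩, -, -⟩ := hN ι m V (X.W (k + 1)) (X.W (k + 1)) X.nilV (X.idl hk)
      (X.idl hk) le_rfl (fun v hv w hw => (X.idl hk).mem v hv w hw) (Lg h) hhV y hy
    have e3 : g * h * g⁻¹ = h * (E y * E z) := by
      have h1 : E (Lg (g * h * g⁻¹)) = E (Lg h + y) := by rw [Lg_Ad, e]
      rw [E_Lg, e2, E_Lg] at h1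
      rw [h1, mul_assoc]
    show Lg (g * h * g⁻¹ * h⁻¹) ∈ X.W (k + 1)
    rw [e3, Lg_Ad]
    refine X.ad_mem hN hk hhV ?_
    have hy' : Lg (E y) ∈ X.W (k + 1) := by rwa [Lg_E ((X.nil _ hk).su _ hy)]
    have hz' : Lg (E z) ∈ X.W (k + 1) := by rwa [Lg_E ((X.nil _ hk).su _ hz)]
    exact mul_mem hN (X.nil _ hk) hy' hz'

lemma XF.mem_H0 {hN : SpecNilExp} {X : XF V} {g : ι → UT m} :
    g ∈ (X.MG hN).H 0 ↔ Lg g ∈ V := by
  show g ∈ (if h : 0 ≤ X.D then X.grp hN 0 h else ⊥) ↔ _
  rw [dif_pos (Nat.zero_le _), XF.mem_grp, X.W0]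

lemma XF.mem_H {hN : SpecNilExp} {X : XF V} {k : ℕ} (hk : k ≤ X.D) {g : ι → UT m} :
    g ∈ (X.MG hN).H k ↔ Lg g ∈ X.W k := by
  show g ∈ (if h : k ≤ X.D then X.grp hN k h else ⊥) ↔ _
  rw [dif_pos hk, XF.mem_grp]

/-- integral points as a subgroup -/
def GamU (ι : Type) (m : ℕ) : Subgroup (ι → UT m) where
  carrier := {g | IntP g}
  mul_mem' := fun ha hb => IntP.mul ha hb
  one_mem' := IntP.one
  inv_mem' := fun ha => IntP.inv ha

end Flag

/-! ### the case of one matrix -/

section One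

variable {m : ℕ} {V : Submodule ℝ (Unit → Mat m)} (hN : SpecNilExp) (X : XF V)

/-- extension by zero -/
def ex {D : ℕ} (x : Fin D → ℝ) : ℕ → ℝ := fun k => if h : k < D then x ⟨k, h⟩ else 0

lemma ex_of_lt {D : ℕ} (x : Fin D → ℝ) {k : ℕ} (h : k < D) : ex x k = x ⟨k, h⟩ := dif_pos h

lemma ex_fin {D : ℕ} (x : Fin D → ℝ) (j : Fin D) : ex x j = x j := dif_pos j.2

lemma ex_add {D : ℕ} (x y : Fin D → ℝ) : ex (x + y) = ex x + ex y := by
  funext k
  by_cases h : k < D
  · rw [Pi.add_apply, ex_of_lt _ h, ex_of_lt _ h, ex_of_lt _ h]; rfl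
  · simp [ex, h]

/-- the parametrisation -/
noncomputable def Psi (x : Fin X.D → ℝ) : Unit → UT m := (X.MG hN).pr (ex x) X.D

/-- coordinates -/
noncomputable def co (g : Unit → UT m) : Fin X.D → ℝ := fun j => (X.MG hN).c g j

lemma Psi_co {g : Unit → UT m} (hg : Lg g ∈ V) : Psi hN X (co hN X g) = g := by
  have h1 : (X.MG hN).pr (ex (co hN X g)) X.D = (X.MG hN).pr ((X.MG hN).c g) X.D :=
    (X.MG hN).pr_congr fun i hi => by rw [ex_of_lt _ hi]; rfl
  show (X.MG hN).pr (ex (co hN X g)) X.D = g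
  rw [h1]
  exact (X.MG hN).pr_c_D (XF.mem_H0.2 hg)

lemma co_Psi (x : Fin X.D → ℝ) : co hN X (Psi hN X x) = x := by
  funext j
  show (X.MG hN).c ((X.MG hN).pr (ex x) X.D) j = x j
  rw [(X.MG hN).c_pr _ j j.2, ex_fin]

lemma Psi_inj : Function.Injective (Psi hN X) := fun x y h => by
  rw [← co_Psi hN X x, h, co_Psi]

lemma Psi_mem (x : Fin X.D → ℝ) : Lg (Psi hN X x) ∈ V :=
  XF.mem_H0.1 ((X.MG hN).pr_mem le_rfl)

/-- the group law -/
noncomputable def mulX (x y : Fin X.D → ℝ) : Fin X.D → ℝ := co hN X (Psi hN X x * Psi hN X y)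

lemma Psi_mul (x y : Fin X.D → ℝ) :
    Psi hN X (mulX hN X x y) = Psi hN X x * Psi hN X y :=
  Psi_co hN X (mul_mem hN X.nilV (Psi_mem hN X x) (Psi_mem hN X y))

lemma Psi_zero : Psi hN X 0 = 1 := by
  refine (X.MG hN).pr_zero_fun le_rfl fun i hi => ?_
  rw [ex_of_lt _ hi]; rfl

/-! #### polynomiality -/

variable {σ : Type}

lemma w_poly {k : ℕ} (hk : k < X.D) {t : (σ → ℝ) → ℝ} (ht : IsP t) :
    IsPM fun s => ((X.MG hN).w k (t s) ()).mat := by
  have h : (fun s => ((X.MG hN).w k (t s) ()).mat) = fun s => expM (t s • X.f k ()) := by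
    funext s
    show (expU ((t s • X.f k) ())).mat = _
    rw [expU_mat]
    · rfl
    · exact (((X.nil k hk.le).su _ (X.f_mem k hk)) ()).smul _
  rw [h]
  exact (IsPM.smul ht (IsPM.const _)).expM

lemma l_poly {k : ℕ} {g : (σ → ℝ) → Unit → UT m} (hg : IsPM fun s => (g s ()).mat) :
    IsP fun s => (X.MG hN).l k (g s) := by
  show IsP fun s => X.lam k (Lg (g s))
  exact hg.logM.functional (X.lam k)

lemma r_poly {g : (σ → ℝ) → Unit → UT m} (hg : IsPM fun s => (g s ()).mat) {k : ℕ}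
    (hk : k ≤ X.D) : IsPM fun s => ((X.MG hN).r k (g s) ()).mat := by
  induction k with
  | zero => exact hg
  | succ k ih =>
    have h1 := ih (by omega)
    have h2 : IsP fun s => -(X.MG hN).l k ((X.MG hN).r k (g s)) := (l_poly hN X h1).neg
    have h3 := (w_poly hN X hk h2).mul h1
    have e : (fun s => ((X.MG hN).r (k + 1) (g s) ()).mat) = fun s =>
        ((X.MG hN).w k (-(X.MG hN).l k ((X.MG hN).r k (g s))) ()).mat *
          ((X.MG hN).r k (g s) ()).mat := by
      funext s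
      rw [(X.MG hN).w_neg hk]
      rfl
    rw [e]
    exact h3

lemma c_poly {g : (σ → ℝ) → Unit → UT m} (hg : IsPM fun s => (g s ()).mat) {k : ℕ}
    (hk : k ≤ X.D) : IsP fun s => (X.MG hN).c (g s) k :=
  l_poly hN X (r_poly hN X hg hk)

lemma pr_poly {x : (σ → ℝ) → ℕ → ℝ} (hx : ∀ i, IsP fun s => x s i) {k : ℕ} (hk : k ≤ X.D) :
    IsPM fun s => ((X.MG hN).pr (x s) k ()).mat := by
  induction k with
  | zero => exact IsPM.const _
  | succ k ih =>
    exact (ih (by omega)).mul (w_poly hN X hk (hx k))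

lemma ex_poly {D : ℕ} (f : Fin D → σ) (i : ℕ) : IsP fun s : σ → ℝ => ex (fun j => s (f j)) i := by
  by_cases h : i < D
  · have e : (fun s : σ → ℝ => ex (fun j => s (f j)) i) = fun s => s (f ⟨i, h⟩) := by
      funext s; exact ex_of_lt _ h
    rw [e]; exact IsP.coord _
  · have e : (fun s : σ → ℝ => ex (fun j => s (f j)) i) = fun _ => 0 := by
      funext s; exact dif_neg h
    rw [e]; exact IsP.const 0

lemma Psi_poly (f : Fin X.D → σ) :
    IsPM fun s : σ → ℝ => (Psi hN X (fun j => s (f j)) ()).mat :=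
  pr_poly hN X (ex_poly f) le_rfl

/-- the law is polynomial -/
lemma mul_poly (j : Fin X.D) : IsP fun s : Fin X.D ⊕ Fin X.D → ℝ =>
    mulX hN X (fun i => s (Sum.inl i)) (fun i => s (Sum.inr i)) j := by
  have h1 := (Psi_poly hN X (Sum.inl : Fin X.D → Fin X.D ⊕ Fin X.D)).mul
    (Psi_poly hN X (Sum.inr : Fin X.D → Fin X.D ⊕ Fin X.D))
  exact c_poly hN X (g := fun s : Fin X.D ⊕ Fin X.D → ℝ =>
    Psi hN X (fun i => s (Sum.inl i)) * Psi hN X (fun i => s (Sum.inr i))) h1 j.2.le

/-- the defect depends on the lower coordinates only -/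
lemma defect (j : Fin X.D) {x y x' y' : Fin X.D → ℝ} (hx : ∀ i < j, x i = x' i)
    (hy : ∀ i < j, y i = y' i) :
    mulX hN X x y j - x j - y j = mulX hN X x' y' j - x' j - y' j := by
  have hz : ∀ x y : Fin X.D → ℝ, (X.MG hN).pr (ex (mulX hN X x y)) X.D =
      (X.MG hN).pr (ex x) X.D * (X.MG hN).pr (ex y) X.D := fun x y => Psi_mul hN X x y
  have := (X.MG hN).dep_eq (hz x y) (hz x' y') j.2
    (fun i hi => by
      have hi' : i < X.D := lt_trans hi j.2
      rw [ex_of_lt _ hi', ex_of_lt _ hi']; exact hx ⟨i, hi'⟩ hi)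
    (fun i hi => by
      have hi' : i < X.D := lt_trans hi j.2
      rw [ex_of_lt _ hi', ex_of_lt _ hi']; exact hy ⟨i, hi'⟩ hi)
  simpa only [ex_fin] using this

/-- the polynomials of the law -/
lemma exists_P (j : Fin X.D) : ∃ P : MvPolynomial (Fin X.D ⊕ Fin X.D) ℝ,
    (∀ x y, mulX hN X x y j = x j + y j + MvPolynomial.eval (Sum.elim x y) P) ∧
    ∀ s ∈ P.vars, Sum.elim id id s < j := by
  classical
  obtain ⟨p, hp⟩ := ((mul_poly hN X j).sub (IsP.coord (Sum.inl j))).sub (IsP.coord (Sum.inr j))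
  let q : Fin X.D ⊕ Fin X.D → MvPolynomial (Fin X.D ⊕ Fin X.D) ℝ := fun s =>
    if Sum.elim id id s < j then MvPolynomial.X s else 0
  refine ⟨MvPolynomial.bind₁ q p, fun x y => ?_, fun s hs => ?_⟩
  · have h1 : MvPolynomial.eval (Sum.elim x y) (MvPolynomial.bind₁ q p) =
        MvPolynomial.eval (fun s => if Sum.elim id id s < j then Sum.elim x y s else 0) p := by
      rw [MvPolynomial.eval, MvPolynomial.eval₂Hom_bind₁]
      congr 2
      funext s
      simp only [q]
      split_ifs <;> simp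
    rw [h1, ← hp]
    have h2 := defect hN X j (x := x) (y := y)
      (x' := fun i => if i < j then x i else 0) (y' := fun i => if i < j then y i else 0)
      (fun i hi => by simp [hi]) (fun i hi => by simp [hi])
    have h3 : mulX hN X x y j - x j - y j =
        mulX hN X (fun i => if i < j then x i else 0) (fun i => if i < j then y i else 0) j
          - (if j < j then x j else 0) - (if j < j then y j else 0) := h2
    show mulX hN X x y j = x j + y j + (mulX hN X (fun i => if i < j then x i else 0)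
      (fun i => if i < j then y i else 0) j - (if j < j then x j else 0)
        - (if j < j then y j else 0))
    linarith
  · have h1 := MvPolynomial.vars_bind₁ q p hs
    rw [Finset.mem_biUnion] at h1
    obtain ⟨t, -, ht⟩ := h1
    by_cases h : Sum.elim id id t < j
    · simp only [q, if_pos h] at ht
      rw [MvPolynomial.vars_X, Finset.mem_singleton] at ht
      rw [ht]; exact h
    · simp only [q, if_neg h] at ht
      simp at ht

lemma Psi_int (x : Fin X.D → ℝ) : IntP (Psi hN X x) ↔ HK.IsInt x := by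
  have h1 := (X.MG hN).int_iff (GamU Unit m)
    (fun k hk => by
      show IntP (E ((1 : ℝ) • X.f k))
      rw [one_smul]; exact X.f_int k hk)
    (fun k hk g hg hgI => X.int k hk g hgI ((XF.mem_H hk.le).1 hg)) (ex x)
  constructor
  · intro h j
    obtain ⟨n, hn⟩ := h1.1 h j j.2
    exact ⟨n, by rw [← hn, ex_fin]⟩
  · intro h
    exact h1.2 fun i hi => by
      obtain ⟨n, hn⟩ := h ⟨i, hi⟩
      exact ⟨n, by rw [ex_of_lt _ hi, hn]⟩

/-- the group of coordinates -/
noncomputable def PGX : HK.PG X.D where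
  mul := mulX hN X
  P := fun j => (exists_P hN X j).choose
  mul_eq := fun x y j => (exists_P hN X j).choose_spec.1 x y
  vars := fun j s hs => (exists_P hN X j).choose_spec.2 s hs
  assoc := fun x y z => Psi_inj hN X (by rw [Psi_mul, Psi_mul, Psi_mul, Psi_mul, mul_assoc])
  zero_mul := fun x => Psi_inj hN X (by rw [Psi_mul, Psi_zero, one_mul])
  mul_zero := fun x => Psi_inj hN X (by rw [Psi_mul, Psi_zero, mul_one])
  int := fun x y hx hy => by
    rw [← Psi_int hN X] at hx hy ⊢
    rw [Psi_mul]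
    exact hx.mul hy
  second := fun i x y hx hy => Psi_inj hN X (by
    rw [Psi_mul]
    show (X.MG hN).pr (ex x) X.D * (X.MG hN).pr (ex y) X.D = (X.MG hN).pr (ex (x + y)) X.D
    rw [ex_add]
    refine (X.MG hN).second i.2 (fun j hj hjD => ?_) (fun j hj => ?_)
    · rw [ex_of_lt _ hjD]; exact hx ⟨j, hjD⟩ hj
    · have hjD : j < X.D := lt_trans hj i.2
      rw [ex_of_lt _ hjD]; exact hy ⟨j, hjD⟩ hj)

/-- the homomorphism `ψ` -/
noncomputable def psiX : (PGX hN X).Gp →* UT m where
  toFun := fun x => Psi hN X x ()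
  map_one' := by
    show Psi hN X 0 () = 1
    rw [Psi_zero]; rfl
  map_mul' := fun x y => by
    exact congrFun (Psi_mul hN X x y) ()

lemma psiX_apply (x : Fin X.D → ℝ) : psiX hN X x = Psi hN X x () := rfl

lemma continuous_of_poly {g : (σ → ℝ) → Unit → UT m} (hg : IsPM fun s => (g s ()).mat) :
    Continuous fun s => g s () := by
  rw [UT.isInducing_mat.continuous_iff]
  refine continuous_matrix fun i j => ?_
  exact (hg i j).continuous

lemma continuous_psiX : Continuous (psiX hN X) := by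
  have h := continuous_of_poly (Psi_poly hN X (id : Fin X.D → Fin X.D))
  exact h

end One

end MalM

open RatM PathM DiscM OrbM MalM

lemma vol_box (d : ℕ) : volume (HK.box d) = 1 := by
  have e : HK.box d = Set.pi Set.univ fun _ : Fin d => Set.Ico (0 : ℝ) 1 := by
    ext x; simp [HK.box, Set.mem_pi]
  rw [e, volume_pi_pi]
  simp

theorem specMal (hN : SpecNilExp) (hR : SpecRat) (hRN : SpecRatNil) (hHaar : SpecHaar) :
    SpecMal := by
  classical
  intro m A
  obtain ⟨X⟩ := exists_XF hN hR hRN A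
  refine ⟨X.D, PGX hN X, psiX hN X, continuous_psiX hN X, ?_, ?_, ?_, ?_, ?_⟩
  · intro x y h
    apply Psi_inj hN X
    funext u
    exact h
  · ext g
    constructor
    · rintro ⟨x, rfl⟩
      exact Psi_mem hN X x
    · intro hg
      have hg' : Lg (fun _ : Unit => g) ∈ A.V := hg
      refine ⟨co hN X (fun _ => g), ?_⟩
      show Psi hN X (co hN X (fun _ => g)) () = g
      rw [Psi_co hN X hg']
  · intro z
    refine Iff.trans ?_ (Psi_int hN X z)
    constructor
    · intro h u; exact h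
    · intro h; exact h ()
  · intro v hv
    have hsu := X.nilV.su v hv
    have hmem : ∀ t : ℝ, Lg (E (t • v)) ∈ A.V := fun t => by
      rw [Lg_E (SU_smul t hsu)]; exact A.V.smul_mem _ hv
    refine ⟨fun t => co hN X (E (t • v)), ?_, ?_, ?_⟩
    · have h1 : IsPM fun s : Unit → ℝ => (E (s () • v) ()).mat := by
        have e : (fun s : Unit → ℝ => (E (s () • v) ()).mat) = fun s => expM (s () • v ()) := by
          funext s
          show (expU ((s () • v) ())).mat = _
          rw [expU_mat]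
          · rfl
          · exact (hsu ()).smul _
        rw [e]
        exact (IsPM.smul (IsP.coord ()) (IsPM.const _)).expM
      have h2 : Continuous fun s : Unit → ℝ => co hN X (E (s () • v)) := by
        refine continuous_pi fun j => ?_
        exact (c_poly hN X h1 j.2.le).continuous
      have h3 : Continuous fun t : ℝ => (fun _ : Unit => t) := continuous_pi fun _ => continuous_id
      exact h2.comp h3
    · intro s t
      apply Psi_inj hN X
      show Psi hN X (co hN X (E ((s + t) • v))) =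
        Psi hN X (mulX hN X (co hN X (E (s • v))) (co hN X (E (t • v))))
      rw [Psi_mul, Psi_co hN X (hmem _), Psi_co hN X (hmem _), Psi_co hN X (hmem _),
        E_add_smul hsu]
    · intro t
      show Psi hN X (co hN X (E (t • v))) () = _
      rw [Psi_co hN X (hmem _)]
  · intro x0 ν hν
    obtain ⟨ν0, -, huniq⟩ := hHaar Unit m A (fun _ => x0)
    rw [huniq ν hν]
    symm
    apply huniq
    let x0c : Unit → UT m := fun _ => x0
    let F : (Fin X.D → ℝ) → (Unit → NM m) := fun z => mkp (x0c * Psi hN X z)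
    show IsHaar A.V (fun _ => x0) ((volume.restrict (HK.box X.D)).map F)
    have hFc : Continuous F := by
      refine continuous_mkp.comp (continuous_const.mul ?_)
      exact continuous_pi fun _ => continuous_psiX hN X
    have hFm : Measurable F := hFc.measurable
    have horb : ∀ z, F z ∈ orb A.V x0c := fun z =>
      ⟨Lg (Psi hN X z), Psi_mem hN X z, by rw [E_Lg]⟩
    refine ⟨?_, ?_, ?_⟩
    · refine ⟨?_⟩
      rw [Measure.map_apply hFm MeasurableSet.univ, Set.preimage_univ, Measure.restrict_apply_univ,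
        vol_box]
    · rw [Measure.map_apply hFm (measurable_orb X.nilV.su _)]
      have : F ⁻¹' (orb A.V fun _ => x0) = Set.univ := Set.eq_univ_of_forall horb
      rw [this, Measure.restrict_apply_univ, vol_box]
    · intro v hv
      have hsu := X.nilV.su v hv
      have hmem : Lg (E v) ∈ A.V := by rwa [Lg_E hsu]
      refine ⟨(continuous_act _).measurable, ?_⟩
      ext B hB
      have hact : Measurable (act (x0c * E v * x0c⁻¹) : (Unit → NM m) → (Unit → NM m)) :=
        (continuous_act _).measurable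
      show (((volume.restrict (HK.box X.D)).map F).map (act (x0c * E v * x0c⁻¹))) B = _
      rw [Measure.map_apply hact hB, Measure.map_apply hFm (hact hB), Measure.map_apply hFm hB]
      have h1 := HK.specPGBox X.D (PGX hN X) (co hN X (E v))
        (fun z => (F ⁻¹' B).indicator (fun _ => (1 : ℝ≥0∞)) z)
        (measurable_const.indicator (hFm hB))
        (fun z γ hγ => by
          have h2 : F ((PGX hN X).mul z γ) = F z := by
            show (mkp (x0c * Psi hN X (mulX hN X z γ)) : Unit → NM m) = mkp (x0c * Psi hN X z)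
            rw [Psi_mul, mkp_eq]
            have h3 : IntP (Psi hN X γ) := (Psi_int hN X γ).2 hγ
            have e : (x0c * (Psi hN X z * Psi hN X γ))⁻¹ * (x0c * Psi hN X z) =
                (Psi hN X γ)⁻¹ := by group
            rw [e]
            exact h3.inv
          simp only [Set.indicator, Set.mem_preimage, h2])
      have h4 : ∀ z, F ((PGX hN X).mul (co hN X (E v)) z) = act (x0c * E v * x0c⁻¹) (F z) := by
        intro z
        show (mkp (x0c * Psi hN X (mulX hN X (co hN X (E v)) z)) : Unit → NM m) =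
          act (x0c * E v * x0c⁻¹) (mkp (x0c * Psi hN X z))
        rw [Psi_mul, Psi_co hN X hmem, act_mkp]
        congr 1
        group
      have h5 : ∀ S : Set (Fin X.D → ℝ), MeasurableSet S →
          (volume.restrict (HK.box X.D)) S =
            ∫⁻ z in HK.box X.D, S.indicator (fun _ => (1 : ℝ≥0∞)) z := by
        intro S hS
        rw [lintegral_indicator hS, setLIntegral_one]
      rw [h5 _ (hFm hB), h5 _ (hFm (hact hB)), ← h1]
      refine lintegral_congr fun z => ?_
      simp only [Set.indicator, Set.mem_preimage, h4]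

end MPd26.Nil
end
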