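import Pool.Agent.Lib.MP_d26cd8_an.Nil.Spec

/-!
# MP_d26cd8_an: module NT, Specs of its parts (helper96)

NTF (SpecNT from SpecNT1, CLASS, E) | SPLIT, HAARS, ORTH, RES, POLQ | NT2 (from HAARS, ORTH, RES,
POLQ, NT0) | NT1 (from SPLIT, NT2, NT0).
-/

set_option autoImplicit false

open MeasureTheory Filter Topology Polynomial

namespace MPd26.Nil

/-- orthogonality to the continuous `exp(R)`-invariant functions on `exp(V) Γ / Γ` -/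
def Orth {m : ℕ} (V : Submodule ℝ (Unit → Mat m)) (R : Submodule ℚ (Unit → MatQ m))
    (ν : Measure (Unit → NM m)) (F : (Unit → NM m) → ℂ) : Prop :=
  ∀ G : (Unit → NM m) → ℂ, ContinuousOn G (orb V 1) →
    (∀ v ∈ rs R, ∀ z ∈ orb V 1, G (act (E v) z) = G z) → ∫ z in orb V 1, F z * G z ∂ν = 0

/-- NT1: the statement for `x₀ = 1`, with orthogonality in place of the box averages. -/
def SpecNT1 : Prop :=
  ∀ (m : ℕ) (A : RAlg Unit m) (η : Unit → Mat m), η ∈ A.V → FlowIrr A (fun _ : Unit => η) →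
    ∀ ν : Measure (Unit → NM m), IsHaar A.V 1 ν → ∀ (l : ℕ), 2 ≤ l → ∀ p : Fin l → ℤ[X],
    (∀ i, 0 < (p i).natDegree) → (∀ i j, i ≠ j → 0 < (p i - p j).natDegree) →
    ∀ F : Fin l → (Unit → NM m) → ℂ, (∀ i, HK.Bdd (F i)) → ∀ j : Fin l,
    Orth A.V (lcs A.Q (l - 1)) ν (F j) →
    Tendsto (fun N : ℕ => ∫ z, ‖((N : ℂ))⁻¹ * ∑ n ∈ Finset.range N, ∏ i : Fin l,
      F i (fun _ => (expU (η ()) ^ ((p i).eval (n : ℤ))) • z ())‖ ^ 2 ∂ν) atTop (𝓝 0)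

/-- the splitting `N = ⋃ₜ exp(tη) N₀`, `0 ≤ t < q/r` -/
structure Split (m : ℕ) where
  A : RAlg Unit m
  η : Unit → Mat m
  hη : η ∈ A.V
  X : NData m
  φ : (Unit → Mat m) →ₗ[ℝ] ℝ
  kill : KillBr A.V φ
  int : ∀ g : Unit → UT m, (∀ i, g i ∈ LT m) → Lg g ∈ A.V → ∃ n : ℤ, φ (Lg g) = n
  sur : ∃ g : Unit → UT m, (∀ i, g i ∈ LT m) ∧ Lg g ∈ A.V ∧ φ (Lg g) = 1
  ker : ∀ v, v ∈ X.A.V ↔ v ∈ A.V ∧ φ v = 0
  q : ℕ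
  r : ℕ
  hq : 0 < q
  hr : 0 < r
  φη : φ η = r / q
  /-- `X.τ = exp(qη)` -/
  qη : castM X.δ + X.e = (q : ℝ) • η
  lcs_le : ∀ k, 1 ≤ k → lcs A.Q k ≤ dlcs X.A.Q X.δ k

/-- SPLIT: the splitting exists if `η` is not totally irrational. -/
def SpecSplit : Prop :=
  ∀ (m : ℕ) (A : RAlg Unit m) (η : Unit → Mat m), η ∈ A.V → FlowIrr A (fun _ : Unit => η) →
    (∃ φ : (Unit → Mat m) →ₗ[ℝ] ℝ, RatOn A φ ∧ KillBr A.V φ ∧ (∃ x : ℚ, φ η = x) ∧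
      ∃ v ∈ A.V, φ v ≠ 0) →
    ∃ S : Split m, S.A = A ∧ S.η = η

/-- HAARS: the Haar measure of `N` is the image of Lebesgue times the Haar measure of `N₀`. -/
def SpecHaarS : Prop :=
  ∀ (m : ℕ) (S : Split m) (ν ν0 : Measure (Unit → NM m)), IsHaar S.A.V 1 ν →
    IsHaar S.X.A.V 1 ν0 →
    ν = (((ENNReal.ofReal ((S.r : ℝ) / S.q)) •
      (volume.restrict (Set.Ico (0 : ℝ) ((S.q : ℝ) / S.r)))).prod ν0).map
        (fun x : ℝ × (Unit → NM m) => act (E (x.1 • S.η)) x.2)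

/-- ORTH: the slices of an orthogonal function are orthogonal for a.e. `t`. -/
def SpecOrthS : Prop :=
  ∀ (m : ℕ) (S : Split m) (ν ν0 : Measure (Unit → NM m)), IsHaar S.A.V 1 ν →
    IsHaar S.X.A.V 1 ν0 → ∀ k, 1 ≤ k → ∀ F : (Unit → NM m) → ℂ, HK.Bdd F →
    Orth S.A.V (lcs S.A.Q k) ν F →
    ∀ᵐ t ∂(volume.restrict (Set.Ico (0 : ℝ) ((S.q : ℝ) / S.r))),
      Orth S.X.A.V (dlcs S.X.A.Q S.X.δ k) ν0 (fun z => F (act (E (t • S.η)) z))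

/-- first half of ORTH: functions `χ(t) G₀(x)` at `exp(tη) x`, `0 < t < q/r`, are continuous on
`N` and invariant. -/
def SpecOrthG : Prop :=
  ∀ (m : ℕ) (S : Split m) (k : ℕ), 1 ≤ k → ∀ χ : ℝ → ℂ, Continuous χ →
    (∃ a b : ℝ, 0 < a ∧ b < (S.q : ℝ) / S.r ∧ ∀ t, t ∉ Set.Icc a b → χ t = 0) →
    ∀ G0 : (Unit → NM m) → ℂ, ContinuousOn G0 (orb S.X.A.V 1) →
    (∀ v ∈ rs (dlcs S.X.A.Q S.X.δ k), ∀ z ∈ orb S.X.A.V 1, G0 (act (E v) z) = G0 z) →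
    ∃ G : (Unit → NM m) → ℂ, ContinuousOn G (orb S.A.V 1) ∧
      (∀ v ∈ rs (lcs S.A.Q k), ∀ z ∈ orb S.A.V 1, G (act (E v) z) = G z) ∧
      ∀ t ∈ Set.Ico (0 : ℝ) ((S.q : ℝ) / S.r), ∀ z ∈ orb S.X.A.V 1,
        G (act (E (t • S.η)) z) = χ t * G0 z

/-- RES: averages along residue classes. -/
def SpecRes : Prop :=
  ∀ (Ω : Type) [MeasurableSpace Ω] (ν : Measure Ω), IsProbabilityMeasure ν →
    ∀ (a : ℕ → Ω → ℂ) (C : ℝ), (∀ n, Measurable (a n)) → (∀ n z, ‖a n z‖ ≤ C) →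
    ∀ q : ℕ, 0 < q → (∀ ρ < q, Tendsto (fun M : ℕ => ∫ z, ‖((M : ℂ))⁻¹ *
      ∑ n ∈ Finset.range M, a (q * n + ρ) z‖ ^ 2 ∂ν) atTop (𝓝 0)) →
    Tendsto (fun N : ℕ => ∫ z, ‖((N : ℂ))⁻¹ * ∑ n ∈ Finset.range N, a n z‖ ^ 2 ∂ν) atTop (𝓝 0)

/-- POLQ: `p(qn + ρ) = p(ρ) + q Q(n)`. -/
def SpecPolQ : Prop :=
  ∀ (l : ℕ) (p : Fin l → ℤ[X]), (∀ i, 0 < (p i).natDegree) →
    (∀ i j, i ≠ j → 0 < (p i - p j).natDegree) → ∀ (q : ℕ) (ρ : ℤ), 0 < q →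
    ∃ Q : Fin l → ℤ[X], (∀ i, 0 < (Q i).natDegree) ∧
      (∀ i j, i ≠ j → 0 < (Q i - Q j).natDegree) ∧
      ∀ i (n : ℤ), (p i).eval (q * n + ρ) = (p i).eval ρ + q * (Q i).eval n

/-- NT2: NT1 in the presence of a splitting. -/
def SpecNT2 : Prop :=
  ∀ (m : ℕ) (S : Split m) (ν : Measure (Unit → NM m)), IsHaar S.A.V 1 ν → ∀ (l : ℕ), 2 ≤ l →
    ∀ p : Fin l → ℤ[X], (∀ i, 0 < (p i).natDegree) →
    (∀ i j, i ≠ j → 0 < (p i - p j).natDegree) →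
    ∀ F : Fin l → (Unit → NM m) → ℂ, (∀ i, HK.Bdd (F i)) → ∀ j : Fin l,
    Orth S.A.V (lcs S.A.Q (l - 1)) ν (F j) →
    Tendsto (fun N : ℕ => ∫ z, ‖((N : ℂ))⁻¹ * ∑ n ∈ Finset.range N, ∏ i : Fin l,
      F i (fun _ => (expU (S.η ()) ^ ((p i).eval (n : ℤ))) • z ())‖ ^ 2 ∂ν) atTop (𝓝 0)

end MPd26.Nil
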