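import Pool.Agent.Lib.MP_d26cd8_an.Nil.Spec

section
/-!
# MP_d26cd8_an, part NIL, module FLAG: generators adapted to a descending chain
-/
set_option autoImplicit false

open Finset

namespace MPd26.Nil

namespace FlagM

variable {ι : Type} {m : ℕ}

lemma castM_smul (c : ℚ) (q : ι → MatQ m) : castM (c • q) = (c : ℝ) • castM q := by
  funext i
  ext j k
  simp [castM, Matrix.map_apply]

lemma natSmul {A : Mat m} (hA : IsInt A) (n : ℕ) : IsInt ((n : ℝ) • A) := fun i j => by
  obtain ⟨a, ha⟩ := hA i j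
  exact ⟨n * a, by rw [Matrix.smul_apply, ha]; push_cast; rfl⟩

/-- the exponential of `m!` times an integral strictly upper triangular matrix is integral -/
lemma exp_int {A : Mat m} (hA : IsSU A) (hi : IsInt A) :
    expU ((m.factorial : ℝ) • A) ∈ LT m := by
  rw [mem_LT, expU_mat (hA.smul _), expM]
  refine IsInt.sum _ _ fun r hr => ?_
  rw [mem_range] at hr
  rcases Nat.eq_zero_or_pos r with h0 | h0
  · subst h0
    simpa using IsInt.one
  · have hd : r.factorial ∣ m.factorial := Nat.factorial_dvd_factorial hr.le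
    obtain ⟨c, hc⟩ := hd
    obtain ⟨s, rfl⟩ : ∃ s, r = s + 1 := ⟨r - 1, by omega⟩
    have e : (((s + 1).factorial : ℝ)⁻¹) • ((m.factorial : ℝ) • A) ^ (s + 1) =
        ((c * m.factorial ^ s : ℕ) : ℝ) • A ^ (s + 1) := by
      rw [smul_pow, smul_smul]
      congr 1
      rw [pow_succ]
      have h1 : ((s + 1).factorial : ℝ) ≠ 0 := by exact_mod_cast Nat.factorial_ne_zero _
      have h2 : (m.factorial : ℝ) = ((s + 1).factorial : ℝ) * c := by exact_mod_cast hc
      push_cast
      rw [inv_mul_eq_iff_eq_mul₀ h1]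
      linear_combination (m.factorial : ℝ) ^ s * h2
    rw [e]
    exact natSmul (hi.pow _) _

lemma isInt_cast {q : ι → MatQ m} (hq : IntV q) (i : ι) : IsInt (castM q i) := by
  intro j k
  obtain ⟨z, hz⟩ := hq i j k
  refine ⟨z, ?_⟩
  show ((q i j k : ℚ) : ℝ) = z
  rw [hz]; push_cast; rfl

/-- every element has a nonzero multiple with integral exponential -/
lemma exists_scale (A : RAlg ι m) (q : ι → MatQ m) (hq : q ∈ A.Q) :
    ∃ c : ℚ, c ≠ 0 ∧ ∀ i, expU (castM (c • q) i) ∈ LT m := by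
  obtain ⟨N, hN, hi⟩ := A.bd q hq
  refine ⟨(m.factorial : ℚ) * N, ?_, ?_⟩
  · have h1 : (m.factorial : ℚ) ≠ 0 := by exact_mod_cast Nat.factorial_ne_zero _
    have h2 : (N : ℚ) ≠ 0 := by exact_mod_cast hN.ne'
    exact mul_ne_zero h1 h2
  · intro i
    have hsu : SU (castM ((N : ℚ) • q)) := A.su _ (A.Q.smul_mem _ hq)
    have e : castM (((m.factorial : ℚ) * N) • q) i =
        (m.factorial : ℝ) • castM ((N : ℚ) • q) i := by
      rw [mul_smul, castM_smul]
      push_cast
      rfl
    rw [e]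
    exact exp_int (hsu i) (isInt_cast hi i)

/-- generators of a subspace with integral exponentials -/
lemma exists_gen (A : RAlg ι m) (W : Submodule ℚ (ι → MatQ m)) (hW : W ≤ A.Q) :
    ∃ (s : ℕ) (g : ℕ → ι → MatQ m), (∀ k, g k ∈ W ∧ ∀ i, expU (castM (g k) i) ∈ LT m) ∧
      W = Submodule.span ℚ (g '' Set.Iio s) := by
  have := A.fin
  have hfd : FiniteDimensional ℚ W := Submodule.finiteDimensional_of_le hW
  obtain ⟨s, f, hf⟩ := Submodule.fg_iff_exists_fin_generating_family.1 (Module.Finite.iff_fg.1 hfd)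
  have hfW : ∀ i, f i ∈ W := fun i => hf ▸ Submodule.subset_span ⟨i, rfl⟩
  choose c hc0 hc using fun i => exists_scale A (f i) (hW (hfW i))
  refine ⟨s, fun k => if h : k < s then c ⟨k, h⟩ • f ⟨k, h⟩ else 0, ?_, ?_⟩
  · intro k
    by_cases h : k < s
    · simp only [h, dif_pos]
      exact ⟨W.smul_mem _ (hfW _), hc _⟩
    · simp only [h, dif_neg, not_false_eq_true]
      refine ⟨W.zero_mem, fun i => ?_⟩
      have e : castM (0 : ι → MatQ m) i = 0 := by
        ext j k; simp [castM, Matrix.map_apply]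
      rw [e, expU_zero]
      exact one_mem _
  · apply le_antisymm
    · rw [← hf, Submodule.span_le]
      rintro _ ⟨i, rfl⟩
      have h1 : c i • f i ∈ Submodule.span ℚ ((fun k => if h : k < s then c ⟨k, h⟩ • f ⟨k, h⟩
          else 0) '' Set.Iio s) := by
        apply Submodule.subset_span
        exact ⟨i.1, i.2, by simp only [i.2, dif_pos]⟩
      have h2 := Submodule.smul_mem _ (c i)⁻¹ h1
      rwa [smul_smul, inv_mul_cancel₀ (hc0 i), one_smul] at h2
    · rw [Submodule.span_le]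
      rintro _ ⟨k, hk, rfl⟩
      simp only [Set.mem_Iio] at hk
      simp only [hk, dif_pos]
      exact W.smul_mem _ (hfW _)

lemma main (A : RAlg ι m) : ∀ (R : ℕ) (U : ℕ → Submodule ℚ (ι → MatQ m)),
    U 0 ≤ A.Q → U R = ⊥ → (∀ r, U (r + 1) ≤ U r) →
    ∃ (D : ℕ) (e : ℕ → ι → MatQ m) (d : ℕ → ℕ),
      (∀ k < D, e k ∈ U 0 ∧ ∀ i, expU (castM (e k) i) ∈ LT m) ∧
      (∀ r ≤ R, d r ≤ D ∧ U r = Submodule.span ℚ (e '' Set.Iio (d r))) ∧ d 0 = D ∧ d R = 0 ∧
      (∀ r < R, ∀ k, d (r + 1) ≤ k → k < d r → e k ∈ U r) := by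
  intro R
  induction R with
  | zero =>
    intro U h0 hR hU
    refine ⟨0, fun _ => 0, fun _ => 0, ?_, ?_, rfl, rfl, ?_⟩
    · intro k hk; omega
    · intro r hr
      obtain rfl : r = 0 := by omega
      refine ⟨le_rfl, ?_⟩
      rw [hR]
      simp
    · intro r hr; omega
  | succ R ih =>
    intro U h0 hR hU
    obtain ⟨D, e, d, h1, h2, h3, h4, h5⟩ := ih (fun r => U (r + 1)) ((hU 0).trans h0) hR
      (fun r => hU (r + 1))
    obtain ⟨s, g, hg, hgs⟩ := exists_gen A (U 0) h0
    have hdD : ∀ r ≤ R, d r ≤ D := fun r hr => (h2 r hr).1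
    set e' : ℕ → ι → MatQ m := fun k => if k < D then e k else g (k - D) with he'
    set d' : ℕ → ℕ := fun r => match r with
      | 0 => D + s
      | r + 1 => d r with hd'
    have he1 : ∀ k, k < D → e' k = e k := by
      intro k hk; simp only [he', hk, if_true]
    have he2 : ∀ k, e' (D + k) = g k := by
      intro k
      have : ¬ D + k < D := by omega
      simp only [he', this, if_false, Nat.add_sub_cancel_left]
    have hmem : ∀ k, k < D + s → e' k ∈ U 0 ∧ ∀ i, expU (castM (e' k) i) ∈ LT m := by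
      intro k hk
      rcases lt_or_ge k D with h | h
      · rw [he1 k h]
        exact ⟨hU 0 (h1 k h).1, (h1 k h).2⟩
      · obtain ⟨j, rfl⟩ := Nat.exists_eq_add_of_le h
        rw [he2]
        exact hg j
    have hU0 : U 0 = Submodule.span ℚ (e' '' Set.Iio (D + s)) := by
      apply le_antisymm
      · conv_lhs => rw [hgs]
        rw [Submodule.span_le]
        rintro _ ⟨k, hk, rfl⟩
        apply Submodule.subset_span
        refine ⟨D + k, ?_, he2 k⟩
        simp only [Set.mem_Iio] at hk ⊢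
        omega
      · rw [Submodule.span_le]
        rintro _ ⟨k, hk, rfl⟩
        exact (hmem k hk).1
    refine ⟨D + s, e', d', hmem, ?_, rfl, h4, ?_⟩
    · intro r hr
      rcases r with _ | r
      · exact ⟨le_rfl, hU0⟩
      · refine ⟨(hdD r (by omega)).trans (Nat.le_add_right _ _), ?_⟩
        show U (r + 1) = Submodule.span ℚ (e' '' Set.Iio (d r))
        rw [(h2 r (by omega)).2]
        congr 1
        apply Set.image_congr
        intro k hk
        exact (he1 k (lt_of_lt_of_le hk (hdD r (by omega)))).symm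
    · intro r hr k hk1 hk2
      rcases r with _ | r
      · exact (hmem k hk2).1
      · have hk3 : k < D := lt_of_lt_of_le hk2 (hdD r (by omega))
        rw [he1 k hk3]
        exact h5 r (by omega) k hk1 hk2

end FlagM

theorem specFlag : SpecFlag := by
  intro ι m A R U h0 hR hU
  obtain ⟨D, e, d, h1, h2, h3, h4, h5⟩ := FlagM.main A R U h0.le hR hU
  exact ⟨D, e, d, fun k hk => ⟨h0 ▸ (h1 k hk).1, (h1 k hk).2⟩, h2, h3, h4, h5⟩

end MPd26.Nil
end

section
/-!
# MP_d26cd8_an, part NIL, module CPT: compactness of `NM m` and of the orbits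
-/
set_option autoImplicit false

open Finset

namespace MPd26.Nil

namespace CptM

/-! ### `NM m` is compact -/

section NMc
variable {m : ℕ}

lemma lev0 (g : UT m) : Lev 0 g.mat := by
  have : g.mat = (g.mat - 1) + 1 := by abel
  rw [this]
  exact (g.su.mono (by omega)).add Lev.one

lemma diag_one (g : UT m) (i : Fin m) : g.mat i i = 1 := by
  have := g.su i i (by omega)
  rw [Matrix.sub_apply, Matrix.one_apply_eq, sub_eq_zero] at this
  exact this

/-- reduction of the entries modulo the integral matrices -/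
lemma reduce (g : UT m) : ∀ k : ℕ, ∃ γ ∈ LT m, ∀ i j : Fin m, (j : ℕ) < i + k →
    0 ≤ (g * γ).mat i j ∧ (g * γ).mat i j ≤ 1 := by
  intro k
  induction k with
  | zero =>
    refine ⟨1, one_mem _, fun i j h => ?_⟩
    rw [lev0 (g * 1) i j h]
    exact ⟨le_rfl, zero_le_one⟩
  | succ k ih =>
    obtain ⟨γ, hγ, hk⟩ := ih
    rcases Nat.eq_zero_or_pos k with h0 | h0
    · subst h0
      refine ⟨γ, hγ, fun i j h => ?_⟩
      rcases Nat.lt_or_ge j i with h1 | h1
      · exact hk i j (by omega)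
      · obtain rfl : i = j := Fin.ext (by omega)
        rw [diag_one]
        exact ⟨zero_le_one, le_rfl⟩
    · set g' := g * γ with hg'
      set N : Mat m := Matrix.of fun i j => if (j : ℕ) = i + k then -(⌊g'.mat i j⌋ : ℝ) else 0 with hN
      have hNlev : Lev k N := by
        intro i j h
        have : ¬ (j : ℕ) = i + k := by omega
        simp only [hN, Matrix.of_apply, this, if_false]
      have hNint : IsInt N := by
        intro i j
        simp only [hN, Matrix.of_apply]
        split_ifs with h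
        · exact ⟨-⌊g'.mat i j⌋, by push_cast; rfl⟩
        · exact ⟨0, by simp⟩
      have hsu : IsSU ((1 + N) - 1) := by
        rw [add_sub_cancel_left]
        exact hNlev.mono h0
      set γ' : UT m := ⟨1 + N, hsu⟩ with hγ'
      have hγ'L : γ' ∈ LT m := by
        rw [mem_LT]
        exact IsInt.one.add hNint
      refine ⟨γ * γ', mul_mem hγ hγ'L, fun i j h => ?_⟩
      rw [← mul_assoc, ← hg']
      have hlev2 : Lev (1 + k) ((g'.mat - 1) * N) := g'.su.mul hNlev
      have e : (g' * γ').mat = g'.mat + N + (g'.mat - 1) * N := by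
        rw [UT.mul_mat]
        show g'.mat * (1 + N) = _
        noncomm_ring
      have e2 : (g' * γ').mat i j = g'.mat i j + N i j := by
        rw [e, Matrix.add_apply, Matrix.add_apply, hlev2 i j (by omega), add_zero]
      rw [e2]
      rcases Nat.lt_or_ge j (i + k) with h1 | h1
      · rw [hNlev i j h1, add_zero]
        exact hk i j h1
      · have h2 : (j : ℕ) = i + k := by omega
        have h3 : N i j = -(⌊g'.mat i j⌋ : ℝ) := by
          simp only [hN, Matrix.of_apply, h2, if_true]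
        rw [h3, ← sub_eq_add_neg]
        exact ⟨sub_nonneg.2 (Int.floor_le _), (sub_lt_iff_lt_add'.2 (Int.lt_floor_add_one _)).le⟩

lemma compact_NM : CompactSpace (NM m) := by
  set K : Set (UT m) := {g | ∀ i j, g.mat i j ∈ Set.Icc (0 : ℝ) 1} with hK
  have hKc : IsCompact K := by
    have h1 : IsCompact (Set.pi Set.univ fun _ : Fin m => Set.pi Set.univ fun _ : Fin m =>
        Set.Icc (0 : ℝ) 1) := isCompact_univ_pi fun _ => isCompact_univ_pi fun _ => isCompact_Icc
    have h2 := UT.isClosedEmbedding_mat.isCompact_preimage (K := (Set.pi Set.univ fun _ : Fin m =>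
        Set.pi Set.univ fun _ : Fin m => Set.Icc (0 : ℝ) 1 : Set (Mat m))) h1
    convert h2 using 1
    ext g
    constructor
    · intro h i _ j _
      exact h i j
    · intro h i j
      exact h i trivial j trivial
  have h3 : (QuotientGroup.mk '' K : Set (NM m)) = Set.univ := by
    rw [Set.eq_univ_iff_forall]
    intro z
    obtain ⟨g, rfl⟩ := QuotientGroup.mk_surjective z
    obtain ⟨γ, hγ, h⟩ := reduce g m
    refine ⟨g * γ, fun i j => h i j (by omega), ?_⟩
    exact QuotientGroup.mk_mul_of_mem g hγ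
  refine ⟨?_⟩
  rw [← h3]
  exact hKc.image continuous_quotient_mk'

end NMc

/-! ### elementary facts on `E` and `mkp` -/

section Elem
variable {ι : Type} {m : ℕ}

lemma E_zero : E (0 : ι → Mat m) = 1 := by
  funext i; exact expU_zero

lemma E_add {v w : ι → Mat m} (hv : SU v) (hw : SU w) (h : Commute v w) :
    E (v + w) = E v * E w := by
  funext i
  have hc : Commute (v i) (w i) := congrFun h i
  exact expU_add (hv i) (hw i) hc

lemma SU.smul {v : ι → Mat m} (hv : SU v) (c : ℝ) : SU (c • v) := fun i => (hv i).smul c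

lemma commute_smul (v : ι → Mat m) (a b : ℝ) : Commute (a • v) (b • v) := by
  show (a • v) * (b • v) = (b • v) * (a • v)
  rw [smul_mul_smul_comm, smul_mul_smul_comm, mul_comm a b]

lemma E_add_smul {v : ι → Mat m} (hv : SU v) (a b : ℝ) : E ((a + b) • v) = E (a • v) * E (b • v) := by
  rw [add_smul, E_add (SU.smul hv a) (SU.smul hv b) (commute_smul v a b)]

lemma E_neg_smul {v : ι → Mat m} (hv : SU v) (a : ℝ) : E ((-a) • v) = (E (a • v))⁻¹ := by
  apply eq_inv_of_mul_eq_one_left
  rw [← E_add_smul hv, neg_add_cancel, zero_smul, E_zero]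

lemma E_neg {v : ι → Mat m} (hv : SU v) : E (-v) = (E v)⁻¹ := by
  have := E_neg_smul hv 1
  rwa [neg_smul, one_smul] at this

lemma E_Ad (g : ι → UT m) {v : ι → Mat m} (hv : SU v) : E (Ad g v) = g * E v * g⁻¹ := by
  funext i
  exact (expU_conj (g i) (hv i)).2

lemma SU_Ad (g : ι → UT m) {v : ι → Mat m} (hv : SU v) : SU (Ad g v) := by
  intro i
  exact (expU_conj (g i) (hv i)).1

/-- integral multiples of `v` have integral exponential if `v` has -/
lemma E_int {v : ι → Mat m} (hv : SU v) (h : ∀ i, expU (v i) ∈ LT m) (n : ℤ) (i : ι) :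
    E ((n : ℝ) • v) i ∈ LT m := by
  induction n using Int.induction_on with
  | zero =>
    rw [Int.cast_zero, zero_smul, E_zero]
    exact one_mem _
  | succ k ih =>
    have e : (((k : ℤ) + 1 : ℤ) : ℝ) = ((k : ℤ) : ℝ) + 1 := by push_cast; rfl
    rw [e, E_add_smul hv, one_smul]
    exact mul_mem ih (h i)
  | pred k ih =>
    have e : ((-(k : ℤ) - 1 : ℤ) : ℝ) = ((-(k : ℤ) : ℤ) : ℝ) + (-1) := by push_cast; ring
    rw [e, E_add_smul hv, neg_smul, one_smul, E_neg hv]
    exact mul_mem ih (inv_mem (h i))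

lemma mkp_mul_of_int (g γ : ι → UT m) (h : ∀ i, γ i ∈ LT m) : mkp (g * γ) = mkp g := by
  funext i
  exact QuotientGroup.mk_mul_of_mem (g i) (h i)

lemma continuous_mkp : Continuous (mkp : (ι → UT m) → (ι → NM m)) :=
  continuous_pi fun i => continuous_quotient_mk'.comp (continuous_apply i)

/-- continuity of the exponential along a line -/
lemma continuous_E_smul {v : ι → Mat m} (hv : SU v) : Continuous fun t : ℝ => E (t • v) := by
  refine continuous_pi fun i => ?_
  rw [UT.isInducing_mat.continuous_iff]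
  have e : (UT.mat ∘ fun t : ℝ => E (t • v) i) = fun t : ℝ => expM (t • v i) := by
    funext t
    exact expU_mat ((hv i).smul t)
  rw [e]
  exact continuous_expM.comp (by fun_prop)

end Elem

/-! ### flags of ideals -/

section Flags
variable {ι : Type} {m : ℕ}

lemma brQ_mono {A A' R R' : Submodule ℚ (ι → MatQ m)} (hA : A ≤ A') (hR : R ≤ R') :
    brQ A R ≤ brQ A' R' := by
  apply Submodule.span_mono
  rintro x ⟨q, hq, r, hr, rfl⟩
  exact ⟨q, hA hq, r, hR hr, rfl⟩

lemma castM_mul (q r : ι → MatQ m) : castM (q * r) = castM q * castM r := by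
  funext i
  exact Matrix.map_mul (f := algebraMap ℚ ℝ)

lemma castM_sub (q r : ι → MatQ m) : castM (q - r) = castM q - castM r := by
  funext i
  ext j k
  simp [castM, Matrix.map_apply]

lemma castM_add (q r : ι → MatQ m) : castM (q + r) = castM q + castM r := by
  funext i
  ext j k
  simp [castM, Matrix.map_apply]

lemma castM_zero : castM (0 : ι → MatQ m) = 0 := by
  funext i
  ext j k
  simp [castM, Matrix.map_apply]

lemma castM_injective : Function.Injective (castM : (ι → MatQ m) → ι → Mat m) := by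
  intro q r h
  funext i
  ext j k
  have h1 := congrFun (congrFun (congrFun h i) j) k
  simp only [castM, Matrix.map_apply] at h1
  exact_mod_cast h1

lemma lcs_lev (A : RAlg ι m) : ∀ r : ℕ, ∀ q ∈ lcs A.Q r, ∀ i, Lev (r + 1) (castM q i) := by
  intro r
  induction r with
  | zero => intro q hq i; exact A.su q hq i
  | succ r ih =>
    intro q hq i
    change q ∈ Submodule.span ℚ _ at hq
    induction hq using Submodule.span_induction with
    | mem x hx =>
      obtain ⟨a, ha, b, hb, rfl⟩ := hx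
      rw [castM_sub, castM_mul, castM_mul]
      have h1 := (A.su a ha i).mul (ih b hb i)
      have h2 := (ih b hb i).mul (A.su a ha i)
      exact (h1.mono (by omega)).sub (h2.mono (by omega))
    | zero => rw [castM_zero]; exact Lev.zero _
    | add x y _ _ hx hy => rw [castM_add]; exact hx.add hy
    | smul c x _ hx => rw [FlagM.castM_smul]; exact hx.smul _

lemma lcs_bot (A : RAlg ι m) : lcs A.Q m = ⊥ := by
  rw [eq_bot_iff]
  intro q hq
  rw [Submodule.mem_bot]
  apply castM_injective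
  rw [castM_zero]
  funext i
  exact ((lcs_lev A m q hq i).mono (k := m) (by omega)).eq_zero

lemma brQ_self (A : RAlg ι m) : brQ A.Q A.Q ≤ A.Q := by
  rw [brQ, Submodule.span_le]
  rintro x ⟨q, hq, r, hr, rfl⟩
  exact A.lie q hq r hr

lemma lcs_anti (A : RAlg ι m) : ∀ r, lcs A.Q (r + 1) ≤ lcs A.Q r := by
  intro r
  induction r with
  | zero => exact brQ_self A
  | succ r ih => exact brQ_mono le_rfl ih

/-- terms of a flag are ideals -/
lemma flag_ideal (A : RAlg ι m) (R D : ℕ) (U : ℕ → Submodule ℚ (ι → MatQ m))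
    (e : ℕ → ι → MatQ m) (d : ℕ → ℕ) (h0 : U 0 = A.Q)
    (hbr : ∀ r, brQ A.Q (U r) ≤ U (r + 1))
    (hd : ∀ r ≤ R, d r ≤ D ∧ U r = Submodule.span ℚ (e '' Set.Iio (d r))) (hd0 : d 0 = D)
    (hdR : d R = 0) (k : ℕ) (hk : k ≤ D) :
    Submodule.span ℚ (e '' Set.Iio k) ≤ A.Q ∧
    brQ A.Q (Submodule.span ℚ (e '' Set.Iio k)) ≤ Submodule.span ℚ (e '' Set.Iio k) := by
  classical
  have mono : ∀ a b : ℕ, a ≤ b → Submodule.span ℚ (e '' Set.Iio a) ≤ Submodule.span ℚ (e '' Set.Iio b) := by
    intro a b hab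
    exact Submodule.span_mono (Set.image_mono (Set.Iio_subset_Iio hab))
  have hle : Submodule.span ℚ (e '' Set.Iio k) ≤ A.Q := by
    rw [← h0, (hd 0 (Nat.zero_le _)).2, hd0]
    exact mono _ _ hk
  refine ⟨hle, ?_⟩
  have hex : ∃ r, d r ≤ k := ⟨R, by rw [hdR]; exact Nat.zero_le _⟩
  obtain ⟨r, hr, hmin⟩ : ∃ r, d r ≤ k ∧ ∀ s < r, ¬ d s ≤ k :=
    ⟨Nat.find hex, Nat.find_spec hex, fun s hs => Nat.find_min hex hs⟩
  have hrR : r ≤ R := by
    by_contra h
    push Not at h
    exact hmin R h (by rw [hdR]; exact Nat.zero_le _)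
  rcases r with _ | r
  · have hkD : k = D := le_antisymm hk (hd0 ▸ hr)
    have e1 : Submodule.span ℚ (e '' Set.Iio k) = A.Q := by
      rw [hkD, ← hd0, ← (hd 0 (Nat.zero_le _)).2, h0]
    rw [e1]
    exact brQ_self A
  · have h1 : k ≤ d r := by
      have := hmin r (Nat.lt_succ_self r)
      omega
    have h2 : Submodule.span ℚ (e '' Set.Iio k) ≤ U r := by
      rw [(hd r (by omega)).2]
      exact mono _ _ h1
    have h3 : U (r + 1) ≤ Submodule.span ℚ (e '' Set.Iio k) := by
      rw [(hd (r + 1) hrR).2]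
      exact mono _ _ hr
    exact (brQ_mono le_rfl h2).trans ((hbr r).trans h3)

/-- ordered products -/
noncomputable def prodE (e : ℕ → ι → MatQ m) (s : ℕ → ℝ) : ℕ → ι → UT m
  | 0 => 1
  | k + 1 => E (s k • castM (e k)) * prodE e s k

lemma prodE_congr (e : ℕ → ι → MatQ m) (s s' : ℕ → ℝ) (k : ℕ) (h : ∀ j < k, s j = s' j) :
    prodE e s k = prodE e s' k := by
  induction k with
  | zero => rfl
  | succ k ih =>
    show E (s k • castM (e k)) * prodE e s k = E (s' k • castM (e k)) * prodE e s' k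
    rw [h k (Nat.lt_succ_self k), ih fun j hj => h j (by omega)]

lemma rs_mono {R R' : Submodule ℚ (ι → MatQ m)} (h : R ≤ R') : rs R ≤ rs R' :=
  Submodule.span_mono (Set.image_mono h)

/-- elements of the real span of `k + 1` vectors -/
lemma rs_succ (e : ℕ → ι → MatQ m) (k : ℕ) (u : ι → Mat m)
    (hu : u ∈ rs (Submodule.span ℚ (e '' Set.Iio (k + 1)))) :
    ∃ t : ℝ, ∃ u' ∈ rs (Submodule.span ℚ (e '' Set.Iio k)), u = t • castM (e k) + u' := by
  have key : rs (Submodule.span ℚ (e '' Set.Iio (k + 1))) ≤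
      (Submodule.span ℝ {castM (e k)}) ⊔ rs (Submodule.span ℚ (e '' Set.Iio k)) := by
    rw [rs, Submodule.span_le]
    rintro _ ⟨q, hq, rfl⟩
    change q ∈ Submodule.span ℚ _ at hq
    induction hq using Submodule.span_induction with
    | mem x hx =>
      obtain ⟨j, hj, rfl⟩ := hx
      rcases Nat.lt_or_ge j k with h | h
      · apply Submodule.mem_sup_right
        exact Submodule.subset_span ⟨e j, Submodule.subset_span ⟨j, h, rfl⟩, rfl⟩
      · obtain rfl : j = k := by
          have : j < k + 1 := hj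
          omega
        apply Submodule.mem_sup_left
        exact Submodule.mem_span_singleton_self _
    | zero => rw [castM_zero]; exact Submodule.zero_mem _
    | add x y _ _ hx hy => rw [castM_add]; exact Submodule.add_mem _ hx hy
    | smul c x _ hx => rw [FlagM.castM_smul]; exact Submodule.smul_mem _ _ hx
  obtain ⟨y, hy, z, hz, h⟩ := Submodule.mem_sup.1 (key hu)
  obtain ⟨t, rfl⟩ := Submodule.mem_span_singleton.1 hy
  exact ⟨t, z, hz, h.symm⟩

lemma rs_bot : rs (⊥ : Submodule ℚ (ι → MatQ m)) = ⊥ := by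
  rw [rs, Submodule.span_eq_bot]
  rintro _ ⟨q, hq, rfl⟩
  have : q = 0 := hq
  rw [this, castM_zero]

end Flags

/-! ### reduction -/

section Main
variable {ι : Type} {m : ℕ}

/-- the group property of `exp K`, for an ideal `K` -/
lemma mul_mem_ideal (hN : SpecNilExp) {V K : Submodule ℝ (ι → Mat m)} (hV : IsNil V)
    (hK : IsIdl V K) {x κ : ι → Mat m} (hx : x ∈ K) (hκ : κ ∈ K) : ∃ k ∈ K, E x * E κ = E k := by
  obtain ⟨-, ⟨k, hk, h⟩, -⟩ := hN ι m V K K hV hK hK le_rfl
    (fun v hv k hk => hK.mem v hv k hk) x (hK.le hx) κ hκ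
  exact ⟨x + κ + k, K.add_mem (K.add_mem hx hκ) hk, h⟩

/-- `exp V` is a group -/
lemma mul_mem_V (hN : SpecNilExp) {V : Submodule ℝ (ι → Mat m)} (hV : IsNil V) {x κ : ι → Mat m}
    (hx : x ∈ V) (hκ : κ ∈ V) : ∃ k ∈ V, E x * E κ = E k :=
  mul_mem_ideal hN hV ⟨le_rfl, fun v hv k hk => hV.lie v hv k hk⟩ hx hκ

/-- reduction of an element of `exp U_k` -/
lemma reduceE (hN : SpecNilExp) (hR : SpecRatNil) (A : RAlg ι m) (D : ℕ) (e : ℕ → ι → MatQ m)
    (he : ∀ k < D, e k ∈ A.Q ∧ ∀ i, expU (castM (e k) i) ∈ LT m)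
    (hid : ∀ k ≤ D, Submodule.span ℚ (e '' Set.Iio k) ≤ A.Q ∧
      brQ A.Q (Submodule.span ℚ (e '' Set.Iio k)) ≤ Submodule.span ℚ (e '' Set.Iio k)) :
    ∀ k ≤ D, ∀ u ∈ rs (Submodule.span ℚ (e '' Set.Iio k)), ∃ s : ℕ → ℝ,
      (∀ j, s j ∈ Set.Icc (0 : ℝ) 1) ∧ ∃ γ : ι → UT m, (∀ i, γ i ∈ LT m) ∧
        E u = prodE e s k * γ := by
  have hV : IsNil A.V := (hR ι m A).1
  intro k
  induction k with
  | zero =>
    intro _ u hu
    have : e '' Set.Iio 0 = ∅ := by
      have h : (Set.Iio 0 : Set ℕ) = ∅ := by ext; simp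
      rw [h, Set.image_empty]
    rw [this, Submodule.span_empty, rs_bot, Submodule.mem_bot] at hu
    refine ⟨fun _ => 0, fun _ => ⟨le_rfl, zero_le_one⟩, 1, fun _ => one_mem _, ?_⟩
    rw [hu, E_zero, mul_one]; rfl
  | succ k ih =>
    intro hk u hu
    obtain ⟨t, u', hu', rfl⟩ := rs_succ e k u hu
    have hkD : k < D := hk
    set K := rs (Submodule.span ℚ (e '' Set.Iio k)) with hKdef
    have hK : IsIdl A.V K := (hR ι m A).2 _ (hid k hkD.le).1 (hid k hkD.le).2
    have hekV : castM (e k) ∈ A.V := Submodule.subset_span ⟨e k, (he k hkD).1, rfl⟩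
    have heksu : SU (castM (e k)) := hV.su _ hekV
    have hkk : ∀ v ∈ A.V, ∀ k ∈ K, v * k - k * v ∈ K := hK.mem
    -- E(t e_k + u') = E(t e_k) E(u'')
    obtain ⟨⟨k1, hk1, h1⟩, -, -⟩ := hN ι m A.V K K hV hK hK le_rfl hkk (t • castM (e k))
      (A.V.smul_mem _ hekV) u' hu'
    obtain ⟨u2, hu2, h2⟩ := mul_mem_ideal hN hV hK hu' hk1
    have h3 : E (t • castM (e k) + u') = E (t • castM (e k)) * E u2 := by
      rw [h1, mul_assoc, h2]
    -- integral and fractional part
    set n : ℤ := ⌊t⌋ with hn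
    set s0 : ℝ := t - n with hs0
    have hs0' : s0 ∈ Set.Icc (0 : ℝ) 1 :=
      ⟨sub_nonneg.2 (Int.floor_le _), (sub_lt_iff_lt_add'.2 (Int.lt_floor_add_one _)).le⟩
    have ht : t = s0 + n := by rw [hs0]; ring
    have h4 : E (t • castM (e k)) = E (s0 • castM (e k)) * E ((n : ℝ) • castM (e k)) := by
      conv_lhs => rw [ht]
      exact E_add_smul heksu _ _
    -- conjugation
    obtain ⟨-, -, ⟨k3, hk3, h5⟩⟩ := hN ι m A.V K K hV hK hK le_rfl hkk ((n : ℝ) • castM (e k))
      (A.V.smul_mem _ hekV) u2 hu2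
    have h6 : E ((n : ℝ) • castM (e k)) * E u2 = E (u2 + k3) * E ((n : ℝ) • castM (e k)) := by
      have hu2su : SU u2 := hV.su _ (hK.le hu2)
      have := E_Ad (E ((n : ℝ) • castM (e k))) hu2su
      rw [h5] at this
      rw [this]
      group
    obtain ⟨s, hs, γ, hγ, h7⟩ := ih hkD.le (u2 + k3) (K.add_mem hu2 hk3)
    refine ⟨fun j => if j = k then s0 else s j, ?_, γ * E ((n : ℝ) • castM (e k)), ?_, ?_⟩
    · intro j
      by_cases hj : j = k
      · simp only [hj, if_true]; exact hs0'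
      · simp only [hj, if_false]; exact hs j
    · intro i
      exact mul_mem (hγ i) (E_int heksu (he k hkD).2 n i)
    · have e1 : prodE e (fun j => if j = k then s0 else s j) (k + 1) =
          E (s0 • castM (e k)) * prodE e s k := by
        show E ((if k = k then s0 else s k) • castM (e k)) * prodE e _ k = _
        rw [if_pos rfl]
        congr 1
        apply prodE_congr
        intro j hj
        simp only [hj.ne, if_false]
      rw [e1, h3, h4, mul_assoc, h6, h7]
      simp only [mul_assoc]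

lemma prodE_mem (hN : SpecNilExp) (hR : SpecRatNil) (A : RAlg ι m) (D : ℕ) (e : ℕ → ι → MatQ m)
    (he : ∀ k < D, e k ∈ A.Q) (s : ℕ → ℝ) : ∀ k ≤ D, ∃ v ∈ A.V, prodE e s k = E v := by
  have hV : IsNil A.V := (hR ι m A).1
  intro k
  induction k with
  | zero => intro _; exact ⟨0, A.V.zero_mem, by rw [E_zero]; rfl⟩
  | succ k ih =>
    intro hk
    obtain ⟨v, hv, h⟩ := ih (by omega)
    have hekV : castM (e k) ∈ A.V := Submodule.subset_span ⟨e k, he k (by omega), rfl⟩
    obtain ⟨w, hw, h2⟩ := mul_mem_V hN hV (A.V.smul_mem (s k) hekV) hv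
    refine ⟨w, hw, ?_⟩
    show E (s k • castM (e k)) * prodE e s k = _
    rw [h, h2]

lemma continuous_prodE (e : ℕ → ι → MatQ m) (D : ℕ) (he : ∀ k < D, SU (castM (e k))) :
    ∀ k ≤ D, Continuous fun s : ℕ → ℝ => prodE e s k := by
  intro k
  induction k with
  | zero => intro _; exact continuous_const
  | succ k ih =>
    intro hk
    show Continuous fun s : ℕ → ℝ => E (s k • castM (e k)) * prodE e s k
    exact ((continuous_E_smul (he k (by omega))).comp (continuous_apply k)).mul (ih (by omega))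

end Main

end CptM

open CptM

/-- reduction on the whole of `exp V`: the elements of the flag of the lower central series -/
theorem exists_flag (hN : SpecNilExp) (hR : SpecRatNil) {ι : Type} {m : ℕ} (A : RAlg ι m) :
    ∃ (D : ℕ) (e : ℕ → ι → MatQ m), (∀ k < D, e k ∈ A.Q ∧ ∀ i, expU (castM (e k) i) ∈ LT m) ∧
      ∀ u ∈ A.V, ∃ s : ℕ → ℝ, (∀ j, s j ∈ Set.Icc (0 : ℝ) 1) ∧ ∃ γ : ι → UT m,
        (∀ i, γ i ∈ LT m) ∧ E u = prodE e s D * γ := by
  obtain ⟨D, e, d, h1, h2, h3, h4, -⟩ := specFlag ι m A m (lcs A.Q) rfl (lcs_bot A) (lcs_anti A)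
  have hid := flag_ideal A m D (lcs A.Q) e d rfl (fun r => le_rfl) h2 h3 h4
  refine ⟨D, e, h1, fun u hu => reduceE hN hR A D e h1 (fun k hk => hid k hk) D le_rfl u ?_⟩
  have : A.Q = Submodule.span ℚ (e '' Set.Iio D) := by
    rw [← h3, ← (h2 0 (Nat.zero_le _)).2]; rfl
  rw [← this]
  exact hu

theorem specCpt (hN : SpecNilExp) (hR : SpecRatNil) : SpecCpt := by
  refine ⟨fun m => compact_NM, ?_⟩
  intro ι _ m A f0
  obtain ⟨D, e, he, hred⟩ := exists_flag hN hR A
  have hV : IsNil A.V := (hR ι m A).1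
  have hK : IsCompact (Set.pi Set.univ fun _ : ℕ => Set.Icc (0 : ℝ) 1) :=
    isCompact_univ_pi fun _ => isCompact_Icc
  have hesu : ∀ k < D, SU (castM (e k)) := fun k hk =>
    hV.su _ (Submodule.subset_span ⟨e k, (he k hk).1, rfl⟩)
  have hcont : Continuous fun s : ℕ → ℝ => mkp (f0 * prodE e s D) :=
    continuous_mkp.comp (continuous_const.mul (continuous_prodE e D hesu D le_rfl))
  have heq : orb A.V f0 = (fun s : ℕ → ℝ => mkp (f0 * prodE e s D)) ''
      (Set.pi Set.univ fun _ : ℕ => Set.Icc (0 : ℝ) 1) := by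
    ext z
    constructor
    · rintro ⟨v, hv, rfl⟩
      obtain ⟨s, hs, γ, hγ, h⟩ := hred v hv
      refine ⟨s, fun j _ => hs j, ?_⟩
      show mkp (f0 * prodE e s D) = mkp (f0 * E v)
      rw [h, ← mul_assoc, mkp_mul_of_int _ _ hγ]
    · rintro ⟨s, -, rfl⟩
      obtain ⟨v, hv, h⟩ := prodE_mem hN hR A D e (fun k hk => (he k hk).1) s D le_rfl
      refine ⟨v, hv, ?_⟩
      show mkp (f0 * prodE e s D) = mkp (f0 * E v)
      rw [h]
  rw [heq]
  exact hK.image hcont

end MPd26.Nil
end

section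
/-!
# MP_d26cd8_an, part NIL, module AVG: averages along flags and coboundaries
-/
set_option autoImplicit false

open MeasureTheory Filter Topology
open scoped ComplexConjugate

namespace MPd26.Nil

namespace AvgM

open CptM

variable {ι : Type} {m : ℕ}

/-! ### the flag of an ideal -/

/-- iterated brackets with `A` -/
def ds (A R : Submodule ℚ (ι → MatQ m)) : ℕ → Submodule ℚ (ι → MatQ m)
  | 0 => R
  | r + 1 => brQ A (ds A R r)

lemma exists_flagR (A : RAlg ι m) (R : Submodule ℚ (ι → MatQ m)) (hRA : R ≤ A.Q)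
    (hbr : brQ A.Q R ≤ R) : ∃ (D : ℕ) (e : ℕ → ι → MatQ m),
      (∀ k < D, e k ∈ A.Q ∧ ∀ i, expU (castM (e k) i) ∈ LT m) ∧
      R = Submodule.span ℚ (e '' Set.Iio D) ∧
      (∀ k ≤ D, Submodule.span ℚ (e '' Set.Iio k) ≤ A.Q) ∧
      ∀ k < D, brQ A.Q (Submodule.span ℚ (e '' Set.Iio (k + 1))) ≤
        Submodule.span ℚ (e '' Set.Iio k) := by
  classical
  have hle : ∀ r, ds A.Q R r ≤ lcs A.Q r := by
    intro r
    induction r with
    | zero => exact hRA
    | succ r ih => exact brQ_mono le_rfl ih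
  have hbot : ds A.Q R m = ⊥ := by
    rw [eq_bot_iff, ← lcs_bot A]
    exact hle m
  have hanti : ∀ r, ds A.Q R (r + 1) ≤ ds A.Q R r := by
    intro r
    induction r with
    | zero => exact hbr
    | succ r ih => exact brQ_mono le_rfl ih
  obtain ⟨D, e, d, h1, h2, h3, h4, -⟩ := FlagM.main A m (ds A.Q R) hRA hbot hanti
  have mono : ∀ a b : ℕ, a ≤ b → Submodule.span ℚ (e '' Set.Iio a) ≤
      Submodule.span ℚ (e '' Set.Iio b) := by
    intro a b hab
    exact Submodule.span_mono (Set.image_mono (Set.Iio_subset_Iio hab))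
  have hRD : R = Submodule.span ℚ (e '' Set.Iio D) := by
    have := (h2 0 (Nat.zero_le _)).2
    rw [h3] at this
    exact this
  refine ⟨D, e, fun k hk => ⟨hRA (h1 k hk).1, (h1 k hk).2⟩, hRD, ?_, ?_⟩
  · intro k hk
    exact (mono k D hk).trans (hRD ▸ hRA)
  · intro k hk
    have hex : ∃ r, d r ≤ k := ⟨m, by rw [h4]; exact Nat.zero_le _⟩
    obtain ⟨r, hr, hmin⟩ : ∃ r, d r ≤ k ∧ ∀ s < r, ¬ d s ≤ k :=
      ⟨Nat.find hex, Nat.find_spec hex, fun s hs => Nat.find_min hex hs⟩
    have hrR : r ≤ m := by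
      by_contra h
      push Not at h
      exact hmin m h (by rw [h4]; exact Nat.zero_le _)
    rcases r with _ | r
    · rw [h3] at hr; omega
    · have h5 : k + 1 ≤ d r := by
        have := hmin r (Nat.lt_succ_self r)
        omega
      have h6 : Submodule.span ℚ (e '' Set.Iio (k + 1)) ≤ ds A.Q R r := by
        rw [(h2 r (by omega)).2]
        exact mono _ _ h5
      have h7 : ds A.Q R (r + 1) ≤ Submodule.span ℚ (e '' Set.Iio k) := by
        rw [(h2 (r + 1) hrR).2]
        exact mono _ _ hr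
      exact (brQ_mono le_rfl h6).trans h7

/-! ### actions -/

lemma act_mkp (g h : ι → UT m) : act g (mkp h) = mkp (g * h) := rfl

lemma act_mul (g h : ι → UT m) (z : ι → NM m) : act (g * h) z = act g (act h z) := by
  funext i
  exact mul_smul (g i) (h i) (z i)

lemma act_one (z : ι → NM m) : act (1 : ι → UT m) z = z := by
  funext i
  exact one_smul _ (z i)

lemma continuous_act (g : ι → UT m) : Continuous (act g : (ι → NM m) → ι → NM m) :=
  continuous_pi fun i => (continuous_const_smul (g i)).comp (continuous_apply i)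

/-- joint continuity of the flow -/
lemma continuous_flow {v : ι → Mat m} (hv : SU v) :
    Continuous fun p : ℝ × (ι → NM m) => act (E (p.1 • v)) p.2 := by
  refine continuous_pi fun i => ?_
  have h1 : Continuous fun p : ℝ × (ι → NM m) => E (p.1 • v) i :=
    (continuous_apply i).comp ((continuous_E_smul hv).comp continuous_fst)
  have h2 : Continuous fun p : ℝ × (ι → NM m) => p.2 i :=
    (continuous_apply i).comp continuous_snd
  exact h1.smul h2

section Ideals

variable (hN : SpecNilExp)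
include hN

lemma orb_act {V : Submodule ℝ (ι → Mat m)} (hV : IsNil V) {w : ι → Mat m} (hw : w ∈ V)
    {z : ι → NM m} (hz : z ∈ orb V 1) : act (E w) z ∈ orb V 1 := by
  obtain ⟨v, hv, rfl⟩ := hz
  obtain ⟨k, hk, h⟩ := mul_mem_V hN hV hw hv
  refine ⟨k, hk, ?_⟩
  rw [act_mkp, one_mul, one_mul, h]

/-- `E x E κ = E κ' E x` -/
lemma conj_mem {V K : Submodule ℝ (ι → Mat m)} (hV : IsNil V) (hK : IsIdl V K)
    {x κ : ι → Mat m} (hx : x ∈ V) (hκ : κ ∈ K) : ∃ k ∈ K, E x * E κ = E k * E x := by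
  obtain ⟨-, -, k, hk, h⟩ := hN ι m V K K hV hK hK le_rfl (fun v hv k hk => hK.mem v hv k hk)
    x hx κ hκ
  refine ⟨κ + k, K.add_mem hκ hk, ?_⟩
  have := E_Ad (E x) (hV.su _ (hK.le hκ))
  rw [h] at this
  rw [this]
  group

/-- `E (x + κ) = E x E κ'` -/
lemma add_mem' {V K : Submodule ℝ (ι → Mat m)} (hV : IsNil V) (hK : IsIdl V K)
    {x κ : ι → Mat m} (hx : x ∈ V) (hκ : κ ∈ K) : ∃ k ∈ K, E (x + κ) = E x * E k := by
  obtain ⟨⟨k, hk, h⟩, -, -⟩ := hN ι m V K K hV hK hK le_rfl (fun v hv k hk => hK.mem v hv k hk)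
    x hx κ hκ
  obtain ⟨k', hk', h'⟩ := mul_mem_ideal hN hV hK hκ hk
  exact ⟨k', hk', by rw [h, mul_assoc, h']⟩

/-- `E(e) z ∈ E(K') z` if `E e` is integral and `[V, e] ⊆ K'` -/
lemma integral_act {V K K' : Submodule ℝ (ι → Mat m)} (hV : IsNil V) (hK : IsIdl V K)
    (hK' : IsIdl V K') (hle : K' ≤ K) (hbr : ∀ v ∈ V, ∀ k ∈ K, v * k - k * v ∈ K')
    {e : ι → Mat m} (he : e ∈ K) (hei : ∀ i, expU (e i) ∈ LT m) {z : ι → NM m}
    (hz : z ∈ orb V 1) : ∃ k ∈ K', act (E e) z = act (E k) z := by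
  obtain ⟨v, hv, rfl⟩ := hz
  rw [one_mul]
  -- E e E v = E v E(e + k')
  obtain ⟨-, -, k1, hk1, h1⟩ := hN ι m V K K' hV hK hK' hle hbr (-v) (V.neg_mem hv) e he
  have hesu : SU e := hV.su _ (hK.le he)
  have h2 := E_Ad (E (-v)) hesu
  rw [h1, E_neg (hV.su _ hv)] at h2
  have h3 : E e * E v = E v * E (e + k1) := by rw [h2]; group
  obtain ⟨k2, hk2, h4⟩ := add_mem' hN hV hK' (hK.le he) hk1
  obtain ⟨k3, hk3, h5⟩ := conj_mem hN hV hK' (hK.le he) hk2
  obtain ⟨k4, hk4, h6⟩ := conj_mem hN hV hK' hv hk3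
  refine ⟨k4, hk4, ?_⟩
  rw [act_mkp, act_mkp, h3, h4, h5, ← mul_assoc, mkp_mul_of_int (E v * E k3) (E e) hei, h6]

end Ideals

/-! ### averaging operators -/

section Avg

variable [CompactSpace (NM m)]

/-- the flow as a continuous map into `C(Ω, Ω)` -/
noncomputable def hm (v : ι → Mat m) (hv : SU v) : C(ℝ, C(ι → NM m, ι → NM m)) :=
  ContinuousMap.curry ⟨fun p : ℝ × (ι → NM m) => act (E (p.1 • v)) p.2, continuous_flow hv⟩

omit [CompactSpace (NM m)] in
lemma hm_apply (v : ι → Mat m) (hv : SU v) (t : ℝ) (z : ι → NM m) :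
    hm v hv t z = act (E (t • v)) z := rfl

/-- the average -/
noncomputable def Iv (v : ι → Mat m) (hv : SU v) (G : C(ι → NM m, ℂ)) : C(ι → NM m, ℂ) :=
  ∫ t in (0 : ℝ)..1, G.comp (hm v hv t)

omit [CompactSpace (NM m)] in
lemma continuous_comp_hm (v : ι → Mat m) (hv : SU v) (G : C(ι → NM m, ℂ)) :
    Continuous fun t : ℝ => G.comp (hm v hv t) :=
  (ContinuousMap.continuous_postcomp G).comp (hm v hv).continuous

lemma Iv_apply (v : ι → Mat m) (hv : SU v) (G : C(ι → NM m, ℂ)) (z : ι → NM m) :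
    Iv v hv G z = ∫ t in (0 : ℝ)..1, G (act (E (t • v)) z) := by
  have h := (ContinuousMap.evalCLM ℂ z : C(ι → NM m, ℂ) →L[ℂ] ℂ).intervalIntegral_comp_comm
    ((continuous_comp_hm v hv G).intervalIntegrable (μ := volume) 0 1)
  exact h.symm

/-- invariance of a function on the orbit under `exp K` -/
def Inv (V K : Submodule ℝ (ι → Mat m)) (G : (ι → NM m) → ℂ) : Prop :=
  ∀ v ∈ K, ∀ z ∈ orb V 1, G (act (E v) z) = G z

/-- the average of a `K'`-invariant function is `K`-invariant, `K = K' + ℝ e` -/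
lemma Iv_inv (hN : SpecNilExp) {V K K' : Submodule ℝ (ι → Mat m)} (hV : IsNil V)
    (hK : IsIdl V K) (hK' : IsIdl V K') (hle : K' ≤ K)
    (hbr : ∀ v ∈ V, ∀ k ∈ K, v * k - k * v ∈ K') {e : ι → Mat m} (he : e ∈ K)
    (hei : ∀ i, expU (e i) ∈ LT m) (hes : SU e)
    (hspan : ∀ u ∈ K, ∃ t : ℝ, ∃ u' ∈ K', u = t • e + u')
    (G : C(ι → NM m, ℂ)) (hG : Inv V K' G) : Inv V K (Iv e hes G) := by
  have heV : e ∈ V := hK.le he
  have htV : ∀ t : ℝ, t • e ∈ V := fun t => V.smul_mem t heV
  -- invariance under `K'`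
  have h1 : ∀ w ∈ K', ∀ z ∈ orb V 1, Iv e hes G (act (E w) z) = Iv e hes G z := by
    intro w hw z hz
    rw [Iv_apply, Iv_apply]
    congr 1
    funext t
    obtain ⟨k, hk, h⟩ := conj_mem hN hV hK' (htV t) hw
    rw [← act_mul, h, act_mul]
    exact hG k hk _ (orb_act hN hV (htV t) hz)
  -- invariance under `E(s e)`
  have h2 : ∀ s : ℝ, ∀ z ∈ orb V 1, Iv e hes G (act (E (s • e)) z) = Iv e hes G z := by
    intro s z hz
    rw [Iv_apply, Iv_apply]
    have hper : Function.Periodic (fun t : ℝ => G (act (E (t • e)) z)) 1 := by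
      intro t
      show G (act (E ((t + 1) • e)) z) = G (act (E (t • e)) z)
      rw [add_comm t 1, E_add_smul hes, act_mul, one_smul]
      obtain ⟨k, hk, h⟩ := integral_act hN hV hK hK' hle hbr he hei (orb_act hN hV (htV t) hz)
      rw [h]
      exact hG k hk _ (orb_act hN hV (htV t) hz)
    have e1 : (fun t : ℝ => G (act (E (t • e)) (act (E (s • e)) z))) =
        fun t : ℝ => (fun t : ℝ => G (act (E (t • e)) z)) (t + s) := by
      funext t
      rw [← act_mul, ← E_add_smul hes]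
    rw [e1, intervalIntegral.integral_comp_add_right (fun t : ℝ => G (act (E (t • e)) z))]
    have := hper.intervalIntegral_add_eq s 0
    rw [zero_add] at this
    rw [zero_add, add_comm 1 s]
    exact this
  intro v hv z hz
  obtain ⟨t, u', hu', rfl⟩ := hspan v hv
  obtain ⟨u2, hu2, h3⟩ := add_mem' hN hV hK' (htV t) hu'
  rw [h3, act_mul, h2 t _ (orb_act hN hV (hK'.le hu2) hz), h1 u2 hu2 z hz]

/-! ### `L²` -/

variable [Countable ι] (ν : Measure (ι → NM m)) [IsProbabilityMeasure ν]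

/-- the isometry of `L²` given by a measure preserving map -/
noncomputable def Uh (h : (ι → NM m) → (ι → NM m)) (hh : MeasurePreserving h ν ν) :
    Lp ℂ 2 ν →ₗᵢ[ℂ] Lp ℂ 2 ν := Lp.compMeasurePreservingₗᵢ ℂ h hh

lemma toLp_comp (G : C(ι → NM m, ℂ)) (h : C(ι → NM m, ι → NM m))
    (hh : MeasurePreserving h ν ν) :
    ContinuousMap.toLp 2 ν ℂ (G.comp h) = Uh ν h hh (ContinuousMap.toLp 2 ν ℂ G) := by
  apply Lp.ext
  have h1 := ContinuousMap.coeFn_toLp (𝕜 := ℂ) (p := 2) ν (G.comp h)
  have h2 := Lp.coeFn_compMeasurePreserving (ContinuousMap.toLp 2 ν ℂ G) hh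
  have h3 := hh.quasiMeasurePreserving.ae_eq_comp (ContinuousMap.coeFn_toLp (𝕜 := ℂ) (p := 2) ν G)
  exact h1.trans (h2.trans h3).symm

lemma norm_Iv_sub_le (e : ι → Mat m) (hes : SU e)
    (hmp : ∀ t : ℝ, MeasurePreserving (act (E (t • e))) ν ν) (G : C(ι → NM m, ℂ)) (u : Lp ℂ 2 ν)
    (hu : ∀ t : ℝ, Uh ν _ (hmp t) u = u) :
    ‖ContinuousMap.toLp 2 ν ℂ (Iv e hes G) - u‖ ≤ ‖ContinuousMap.toLp 2 ν ℂ G - u‖ := by
  have hc := continuous_comp_hm e hes G
  have hmp' : ∀ t : ℝ, MeasurePreserving (hm e hes t) ν ν := hmp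
  have h1 : ContinuousMap.toLp 2 ν ℂ (Iv e hes G) =
      ∫ t in (0 : ℝ)..1, ContinuousMap.toLp 2 ν ℂ (G.comp (hm e hes t)) :=
    ((ContinuousMap.toLp 2 ν ℂ : C(ι → NM m, ℂ) →L[ℂ] Lp ℂ 2 ν).intervalIntegral_comp_comm
      (hc.intervalIntegrable (μ := volume) 0 1)).symm
  have hc2 : Continuous fun t : ℝ => (ContinuousMap.toLp 2 ν ℂ (G.comp (hm e hes t)) : Lp ℂ 2 ν) :=
    (ContinuousMap.toLp 2 ν ℂ : C(ι → NM m, ℂ) →L[ℂ] Lp ℂ 2 ν).continuous.comp hc
  have h2 : ContinuousMap.toLp 2 ν ℂ (Iv e hes G) - u =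
      ∫ t in (0 : ℝ)..1, (ContinuousMap.toLp 2 ν ℂ (G.comp (hm e hes t)) - u) := by
    rw [h1, intervalIntegral.integral_sub (hc2.intervalIntegrable 0 1)
      (continuous_const.intervalIntegrable 0 1), intervalIntegral.integral_const, sub_zero,
      one_smul]
  have h3 : ∀ t ∈ Set.uIoc (0 : ℝ) 1,
      ‖(ContinuousMap.toLp 2 ν ℂ (G.comp (hm e hes t)) - u : Lp ℂ 2 ν)‖ ≤
        ‖ContinuousMap.toLp 2 ν ℂ G - u‖ := by
    intro t _
    rw [toLp_comp ν G (hm e hes t) (hmp' t)]
    have h4 : Uh ν (hm e hes t) (hmp' t) u = u := hu t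
    conv_lhs => rw [← h4]
    rw [← map_sub, LinearIsometry.norm_map]
  have h5 := intervalIntegral.norm_integral_le_of_norm_le_const h3
  rw [h2]
  simpa using h5

end Avg

/-- the square of the norm in `L²` -/
lemma norm_sq_L2 {α : Type*} [MeasurableSpace α] (μ : Measure α) (f : Lp ℂ 2 μ) :
    ‖f‖ ^ 2 = ∫ x, ‖f x‖ ^ 2 ∂μ := by
  have h1 : ((‖f‖ ^ 2 : ℝ) : ℂ) = inner ℂ f f := by
    rw [inner_self_eq_norm_sq_to_K]; push_cast; rfl
  rw [L2.inner_def] at h1
  have h2 : (fun a => inner ℂ (f a) (f a)) = fun a => ((‖f a‖ ^ 2 : ℝ) : ℂ) := by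
    funext a
    rw [inner_self_eq_norm_sq_to_K]; push_cast; rfl
  rw [h2, integral_complex_ofReal] at h1
  exact_mod_cast h1

end AvgM

open AvgM CptM

theorem specAvg (hN : SpecNilExp) (hR : SpecRatNil) : SpecAvg := by
  classical
  intro ι _ m A R hRA hbr ν hν F hF horth η hη
  have hprob := hν.prob
  have hcNM : CompactSpace (NM m) := compact_NM
  have hV : IsNil A.V := (hR ι m A).1
  obtain ⟨D, e, he, hRe, hle, hflag⟩ := exists_flagR A R hRA hbr
  set K : ℕ → Submodule ℝ (ι → Mat m) := fun k => rs (Submodule.span ℚ (e '' Set.Iio k)) with hK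
  have hmono : ∀ a b : ℕ, a ≤ b → Submodule.span ℚ (e '' Set.Iio a) ≤
      Submodule.span ℚ (e '' Set.Iio b) := fun a b hab =>
    Submodule.span_mono (Set.image_mono (Set.Iio_subset_Iio hab))
  have hKid : ∀ k ≤ D, IsIdl A.V (K k) := by
    intro k hk
    apply (hR ι m A).2 _ (hle k hk)
    cases k with
    | zero =>
      have : Submodule.span ℚ (e '' Set.Iio 0) = ⊥ := by
        have h : (Set.Iio 0 : Set ℕ) = ∅ := by ext; simp
        rw [h, Set.image_empty, Submodule.span_empty]
      rw [this, brQ, Submodule.span_le]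
      rintro _ ⟨q, hq, r, hr, rfl⟩
      have : r = 0 := hr
      rw [this, mul_zero, zero_mul, sub_zero]
      exact Submodule.zero_mem _
    | succ k => exact (hflag k (by omega)).trans (hmono _ _ (Nat.le_succ k))
  have hKD : K D = rs R := by rw [hK, hRe]
  have hesu : ∀ k < D, SU (castM (e k)) := fun k hk =>
    hV.su _ (Submodule.subset_span ⟨e k, (he k hk).1, rfl⟩)
  have heK : ∀ k, castM (e k) ∈ K (k + 1) := fun k =>
    Submodule.subset_span ⟨e k, Submodule.subset_span ⟨k, Nat.lt_succ_self k, rfl⟩, rfl⟩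
  have hKbr : ∀ k < D, ∀ v ∈ A.V, ∀ u ∈ K (k + 1), v * u - u * v ∈ K k := by
    intro k hk v hv u hu
    induction hv using Submodule.span_induction with
    | mem x hx =>
      obtain ⟨q, hq, rfl⟩ := hx
      induction hu using Submodule.span_induction with
      | mem y hy =>
        obtain ⟨r, hr, rfl⟩ := hy
        rw [← castM_mul, ← castM_mul, ← castM_sub]
        apply Submodule.subset_span
        refine ⟨_, ?_, rfl⟩
        exact hflag k hk (Submodule.subset_span ⟨q, hq, r, hr, rfl⟩)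
      | zero => rw [mul_zero, zero_mul, sub_zero]; exact Submodule.zero_mem _
      | add a b _ _ ha hb =>
        have : castM q * (a + b) - (a + b) * castM q =
          (castM q * a - a * castM q) + (castM q * b - b * castM q) := by noncomm_ring
        rw [this]; exact Submodule.add_mem _ ha hb
      | smul c a _ ha =>
        rw [mul_smul_comm, smul_mul_assoc, ← smul_sub]
        exact Submodule.smul_mem _ _ ha
    | zero => rw [mul_zero, zero_mul, sub_zero]; exact Submodule.zero_mem _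
    | add a b _ _ ha hb =>
      have : (a + b) * u - u * (a + b) = (a * u - u * a) + (b * u - u * b) := by noncomm_ring
      rw [this]; exact Submodule.add_mem _ ha hb
    | smul c a _ ha =>
      rw [mul_smul_comm, smul_mul_assoc, ← smul_sub]
      exact Submodule.smul_mem _ _ ha
  -- measure preservation
  have hmpV : ∀ v ∈ A.V, MeasurePreserving (act (E v)) ν ν := by
    intro v hv
    have := hν.inv v hv
    rwa [one_mul, inv_one, mul_one] at this
  have hrsV : ∀ v ∈ rs R, v ∈ A.V := fun v hv => rs_mono hRA hv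
  -- the function `F` in `L²`
  obtain ⟨hFm, C, hC⟩ := hF
  have hFL : MemLp F 2 ν := MemLp.of_bound hFm.aestronglyMeasurable C (ae_of_all _ hC)
  set Fh : Lp ℂ 2 ν := hFL.toLp F with hFh
  have hFae : (Fh : (ι → NM m) → ℂ) =ᵐ[ν] F := hFL.coeFn_toLp
  let T : C(ι → NM m, ℂ) →L[ℂ] Lp ℂ 2 ν := ContinuousMap.toLp 2 ν ℂ
  have hTae : ∀ G : C(ι → NM m, ℂ), (T G : (ι → NM m) → ℂ) =ᵐ[ν] G := fun G =>
    ContinuousMap.coeFn_toLp (𝕜 := ℂ) (p := 2) ν G
  have hTd : DenseRange T := ContinuousMap.toLp_denseRange ℂ ν ℂ (by norm_num)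
  let hh : (ι → Mat m) → C(ι → NM m, ι → NM m) := fun v => ⟨act (E v), continuous_act _⟩
  -- coboundaries
  set S : Submodule ℂ (Lp ℂ 2 ν) := Submodule.span ℂ
    {s | ∃ G : C(ι → NM m, ℂ), ∃ v ∈ rs R, s = T (G.comp (hh v)) - T G} with hS
  have hSP : ∀ s ∈ S, ∃ (n : ℕ) (f : Fin n → (ι → NM m) → ℂ) (v : Fin n → ι → Mat m),
      (∀ i, Continuous (f i) ∧ v i ∈ rs R) ∧
      (s : (ι → NM m) → ℂ) =ᵐ[ν] fun z => ∑ i, (f i (act (E (v i)) z) - f i z) := by
    intro s hs
    induction hs using Submodule.span_induction with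
    | mem x hx =>
      obtain ⟨G, v, hv, rfl⟩ := hx
      refine ⟨1, fun _ => G, fun _ => v, fun _ => ⟨G.continuous, hv⟩, ?_⟩
      filter_upwards [Lp.coeFn_sub (T (G.comp (hh v))) (T G), hTae G, hTae (G.comp (hh v))] with
        z h1 h2 h3
      rw [h1, Pi.sub_apply, h2, h3]
      simp [hh]
    | zero =>
      refine ⟨0, fun _ _ => 0, fun _ => 0, fun i => i.elim0, ?_⟩
      filter_upwards [Lp.coeFn_zero ℂ 2 ν] with z h1
      rw [h1]; simp
    | add x y _ _ hx hy =>
      obtain ⟨n, f, v, h1, h2⟩ := hx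
      obtain ⟨n', f', v', h1', h2'⟩ := hy
      refine ⟨n + n', Fin.append f f', Fin.append v v', ?_, ?_⟩
      · intro i
        refine Fin.addCases (fun i => ?_) (fun i => ?_) i
        · rw [Fin.append_left, Fin.append_left]; exact h1 i
        · rw [Fin.append_right, Fin.append_right]; exact h1' i
      · filter_upwards [Lp.coeFn_add x y, h2, h2'] with z h3 h4 h5
        rw [h3, Pi.add_apply, h4, h5, Fin.sum_univ_add]
        simp only [Fin.append_left, Fin.append_right]
    | smul c x _ hx =>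
      obtain ⟨n, f, v, h1, h2⟩ := hx
      refine ⟨n, fun i z => c * f i z, v, fun i => ⟨continuous_const.mul (h1 i).1, (h1 i).2⟩, ?_⟩
      filter_upwards [Lp.coeFn_smul c x, h2] with z h3 h4
      rw [h3, Pi.smul_apply, h4, smul_eq_mul, Finset.mul_sum]
      exact Finset.sum_congr rfl fun i _ => mul_sub _ _ _
  -- `F` is in the closure of the coboundaries
  have hmem : Fh ∈ S.topologicalClosure := by
    rw [← Submodule.orthogonal_orthogonal_eq_closure, Submodule.mem_orthogonal]
    intro u hu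
    rw [Submodule.mem_orthogonal] at hu
    -- invariance of `u`
    have hinv : ∀ v (hv : v ∈ rs R), Uh ν (act (E v)) (hmpV v (hrsV v hv)) u = u := by
      intro v hv
      set U := Uh ν (act (E v)) (hmpV v (hrsV v hv)) with hU
      have h1 : ∀ G, inner ℂ (U (T G)) u = inner ℂ (T G) u := by
        intro G
        have h2 := hu (T (G.comp (hh v)) - T G) (Submodule.subset_span ⟨G, v, hv, rfl⟩)
        rw [inner_sub_left, sub_eq_zero] at h2
        have h3 : T (G.comp (hh v)) = U (T G) := toLp_comp ν G (hh v) (hmpV v (hrsV v hv))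
        rw [← h3, h2]
      have h2 : (fun w => inner ℂ (U w) u : Lp ℂ 2 ν → ℂ) = fun w => inner ℂ w u :=
        hTd.equalizer (U.continuous.inner continuous_const) (continuous_id.inner continuous_const)
          (funext h1)
      have h3 : inner ℂ (U u) u = inner ℂ u u := congrFun h2 u
      have h4 := norm_sub_sq (𝕜 := ℂ) (U u) u
      rw [h3, LinearIsometry.norm_map] at h4
      have h5 : RCLike.re (inner ℂ u u) = ‖u‖ ^ 2 := inner_self_eq_norm_sq (𝕜 := ℂ) u
      rw [h5] at h4
      have h6 : ‖U u - u‖ ^ 2 = 0 := by rw [h4]; ring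
      have h7 : ‖U u - u‖ = 0 := by simpa using h6
      exact sub_eq_zero.1 (norm_eq_zero.1 h7)
    -- approximation by invariant continuous functions
    have happ : ∀ G : C(ι → NM m, ℂ), ∀ k ≤ D, ∃ G' : C(ι → NM m, ℂ), Inv A.V (K k) G' ∧
        ‖T G' - u‖ ≤ ‖T G - u‖ := by
      intro G k
      induction k with
      | zero =>
        intro _
        refine ⟨G, ?_, le_rfl⟩
        intro v hv z hz
        have h0 : Submodule.span ℚ (e '' Set.Iio 0) = ⊥ := by
          have h : (Set.Iio 0 : Set ℕ) = ∅ := by ext; simp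
          rw [h, Set.image_empty, Submodule.span_empty]
        have hv' : v ∈ rs (Submodule.span ℚ (e '' Set.Iio 0)) := hv
        rw [h0, rs_bot, Submodule.mem_bot] at hv'
        rw [hv', E_zero, act_one]
      | succ k ih =>
        intro hk
        obtain ⟨G', h1, h2⟩ := ih (by omega)
        have hkD : k < D := hk
        refine ⟨Iv (castM (e k)) (hesu k hkD) G', ?_, ?_⟩
        · exact Iv_inv hN hV (hKid (k + 1) hk) (hKid k hkD.le) (rs_mono (hmono _ _ (Nat.le_succ k)))
            (hKbr k hkD) (heK k) (he k hkD).2 (hesu k hkD) (fun u hu => rs_succ e k u hu) G' h1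
        · have htR : ∀ t : ℝ, t • castM (e k) ∈ rs R := by
            intro t
            apply Submodule.smul_mem
            apply Submodule.subset_span
            refine ⟨e k, ?_, rfl⟩
            show e k ∈ R
            rw [hRe]
            exact Submodule.subset_span ⟨k, hkD, rfl⟩
          exact (norm_Iv_sub_le ν (castM (e k)) (hesu k hkD)
            (fun t => hmpV _ (hrsV _ (htR t))) G' u (fun t => hinv _ (htR t))).trans h2
    -- the inner product vanishes
    have hsmall : ∀ ε > 0, ‖inner ℂ u Fh‖ ≤ ε * ‖Fh‖ := by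
      intro ε hε
      obtain ⟨G, hG⟩ := Metric.denseRange_iff.1 hTd u ε hε
      obtain ⟨G', h1, h2⟩ := happ G D le_rfl
      rw [hKD] at h1
      have h3 : inner ℂ (T G') Fh = 0 := by
        rw [L2.inner_def]
        have h4 := horth (fun z => conj (G' z))
          (Complex.continuous_conj.comp G'.continuous).continuousOn (by
            intro v hv z hz
            show conj (G' (act (E v) z)) = conj (G' z)
            rw [h1 v hv z hz])
        have hmeas : MeasurableSet (orb A.V (1 : ι → UT m)) :=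
          ((specCpt hN hR).2 ι m A 1).isClosed.measurableSet
        have hae : ∀ᵐ z ∂ν, z ∈ orb A.V (1 : ι → UT m) :=
          (mem_ae_iff_prob_eq_one hmeas).2 hν.orb
        rw [Measure.restrict_eq_self_of_ae_mem hae] at h4
        rw [← h4]
        apply integral_congr_ae
        filter_upwards [hTae G', hFae] with z h5 h6
        rw [h5, h6]
        show inner ℂ (G' z) (F z) = F z * conj (G' z)
        rw [RCLike.inner_apply]
      have h4 : inner ℂ u Fh = inner ℂ (u - T G') Fh := by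
        rw [inner_sub_left, h3, sub_zero]
      rw [h4]
      refine (norm_inner_le_norm _ _).trans ?_
      gcongr
      rw [norm_sub_rev]
      refine h2.trans ?_
      rw [norm_sub_rev, ← dist_eq_norm]
      exact hG.le
    have h0 : ‖inner ℂ u Fh‖ = 0 := by
      apply le_antisymm _ (norm_nonneg _)
      apply le_of_forall_pos_le_add
      intro δ hδ
      have h1 := hsmall (δ / (‖Fh‖ + 1)) (by positivity)
      rw [zero_add]
      refine h1.trans ?_
      rw [div_mul_eq_mul_div, div_le_iff₀ (by positivity)]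
      nlinarith [norm_nonneg Fh]
    exact norm_eq_zero.1 h0
  -- conclusion
  rw [← SetLike.mem_coe, Submodule.topologicalClosure_coe, Metric.mem_closure_iff] at hmem
  obtain ⟨s, hs, hsd⟩ := hmem (Real.sqrt η) (Real.sqrt_pos.2 hη)
  obtain ⟨n, f, v, h1, h2⟩ := hSP s hs
  refine ⟨n, f, v, h1, ?_⟩
  have h3 : ∫ z, ‖F z - ∑ i, (f i (act (E (v i)) z) - f i z)‖ ^ 2 ∂ν = ‖Fh - s‖ ^ 2 := by
    rw [norm_sq_L2]
    apply integral_congr_ae
    filter_upwards [Lp.coeFn_sub Fh s, hFae, h2] with z h4 h5 h6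
    rw [h4, Pi.sub_apply, h5, h6]
  rw [h3]
  rw [dist_eq_norm] at hsd
  calc ‖Fh - s‖ ^ 2 ≤ (Real.sqrt η) ^ 2 := by gcongr
    _ = η := Real.sq_sqrt hη.le

end MPd26.Nil
end

section
/-!
# MP_d26cd8_an, module NILEXP (helper69): exponentials of nilpotent Lie algebras of functions
-/
set_option autoImplicit false

open Filter Topology

namespace MPd26.Nil

namespace NilExpM

/-! ### Trotter -/

section Trotter

variable {R : Type*} [NormedRing R]

theorem pow_sub_pow_le (h1 : ‖(1 : R)‖ ≤ 1) {A B : R} {M : ℝ} (hM : 1 ≤ M) (hA : ‖A‖ ≤ M)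
    (hB : ‖B‖ ≤ M) (n : ℕ) : ‖A ^ n - B ^ n‖ ≤ n * M ^ n * ‖A - B‖ := by
  have hM0 : 0 ≤ M := by linarith
  have hp : ∀ n : ℕ, ‖A ^ n‖ ≤ M ^ n := by
    intro n
    induction n with
    | zero => simpa using h1
    | succ n ih =>
      rw [pow_succ, pow_succ]
      exact (norm_mul_le _ _).trans (mul_le_mul ih hA (norm_nonneg _) (by positivity))
  induction n with
  | zero => simp
  | succ n ih =>
    have e : A ^ (n + 1) - B ^ (n + 1) = A ^ n * (A - B) + (A ^ n - B ^ n) * B := by
      rw [pow_succ, pow_succ]; noncomm_ring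
    rw [e]
    have h2 : ‖A ^ n * (A - B)‖ ≤ M ^ (n + 1) * ‖A - B‖ :=
      (norm_mul_le _ _).trans (mul_le_mul_of_nonneg_right
        ((hp n).trans (pow_le_pow_right₀ hM (Nat.le_succ n))) (norm_nonneg _))
    have h3 : ‖(A ^ n - B ^ n) * B‖ ≤ (n * M ^ n * ‖A - B‖) * M :=
      (norm_mul_le _ _).trans (mul_le_mul ih hB (norm_nonneg _) (by positivity))
    refine (norm_add_le _ _).trans ((add_le_add h2 h3).trans (le_of_eq ?_))
    push_cast
    ring

variable [NormedAlgebra ℝ R]

theorem trotter_gen (h1 : ‖(1 : R)‖ ≤ 1) {A B : ℝ → R} {D : R} (hA : HasDerivAt A D 0)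
    (hB : HasDerivAt B D 0) (hA0 : A 0 = 1) (hB0 : B 0 = 1) :
    Tendsto (fun n : ℕ => A ((n : ℝ)⁻¹) ^ n - B ((n : ℝ)⁻¹) ^ n) atTop (𝓝 0) := by
  have hn : Tendsto (fun n : ℕ => ((n : ℝ)⁻¹)) atTop (𝓝 0) :=
    tendsto_inv_atTop_nhds_zero_nat
  -- linear bounds
  have hbd : ∀ {F : ℝ → R}, HasDerivAt F D 0 → F 0 = 1 →
      ∀ᶠ n : ℕ in atTop, ‖F ((n : ℝ)⁻¹)‖ ≤ 1 + (‖D‖ + 1) * (n : ℝ)⁻¹ := by
    intro F hF hF0
    rw [hasDerivAt_iff_isLittleO] at hF
    have h2 := (hF.bound one_pos)
    filter_upwards [hn.eventually h2] with n hn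
    rw [sub_zero, hF0, one_mul] at hn
    have h4 : (0 : ℝ) ≤ (n : ℝ)⁻¹ := by positivity
    rw [Real.norm_of_nonneg h4] at hn
    have e : F ((n : ℝ)⁻¹) = (F ((n : ℝ)⁻¹) - 1 - (n : ℝ)⁻¹ • D) + ((n : ℝ)⁻¹ • D + 1) := by abel
    rw [e]
    refine (norm_add_le _ _).trans ?_
    have h5 : ‖(n : ℝ)⁻¹ • D + 1‖ ≤ (n : ℝ)⁻¹ * ‖D‖ + 1 := by
      refine (norm_add_le _ _).trans (add_le_add ?_ h1)
      rw [norm_smul, Real.norm_of_nonneg h4]
    linarith
  have hdiff : HasDerivAt (fun s => A s - B s) (0 : R) 0 := by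
    have h9 := hA.fun_sub hB
    rwa [sub_self] at h9
  rw [hasDerivAt_iff_isLittleO] at hdiff
  set c : ℝ := ‖D‖ + 1 with hc
  have hc0 : 0 < c := by positivity
  rw [tendsto_zero_iff_norm_tendsto_zero]
  rw [Metric.tendsto_atTop]
  intro ε hε
  have hε' : 0 < ε / (2 * Real.exp c) := by positivity
  have h6 := hn.eventually (hdiff.bound hε')
  obtain ⟨N, hN⟩ := eventually_atTop.1 ((hbd hA hA0).and ((hbd hB hB0).and (h6.and
    (eventually_gt_atTop 0))))
  refine ⟨N, fun n hnN => ?_⟩
  obtain ⟨e1, e2, e3, e4⟩ := hN n hnN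
  have h4 : (0 : ℝ) < (n : ℝ)⁻¹ := by positivity
  simp only [sub_zero, hA0, hB0, sub_self, smul_zero] at e3
  rw [Real.norm_of_nonneg h4.le] at e3
  rw [Real.dist_eq, sub_zero, abs_of_nonneg (norm_nonneg _)]
  have hM : 1 ≤ 1 + c * (n : ℝ)⁻¹ := by
    have : 0 ≤ c * (n : ℝ)⁻¹ := by positivity
    linarith
  have h7 := pow_sub_pow_le h1 hM e1 e2 n
  have h8 : (1 + c * (n : ℝ)⁻¹) ^ n ≤ Real.exp c := by
    have : 1 + c * (n : ℝ)⁻¹ ≤ Real.exp (c * (n : ℝ)⁻¹) := by
      rw [add_comm]; exact Real.add_one_le_exp _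
    calc (1 + c * (n : ℝ)⁻¹) ^ n ≤ Real.exp (c * (n : ℝ)⁻¹) ^ n :=
          pow_le_pow_left₀ (by linarith) this n
      _ = Real.exp c := by
          rw [← Real.exp_nat_mul]
          congr 1
          field_simp
  have hnpos : (0 : ℝ) < n := by exact_mod_cast e4
  calc ‖A ((n : ℝ)⁻¹) ^ n - B ((n : ℝ)⁻¹) ^ n‖
      ≤ n * (1 + c * (n : ℝ)⁻¹) ^ n * ‖A ((n : ℝ)⁻¹) - B ((n : ℝ)⁻¹)‖ := h7
    _ ≤ n * Real.exp c * (ε / (2 * Real.exp c) * (n : ℝ)⁻¹) := by
        refine mul_le_mul (mul_le_mul_of_nonneg_left h8 hnpos.le) e3 (norm_nonneg _) (by positivity)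
    _ = ε / 2 := by
        field_simp
    _ < ε := by linarith

end Trotter

section Mat

variable {m : ℕ}

open scoped Matrix.Norms.Operator in
theorem trotter_mat {A B : ℝ → Mat m} {D : Mat m} (hA : HasDerivAt A D 0)
    (hB : HasDerivAt B D 0) (hA0 : A 0 = 1) (hB0 : B 0 = 1) :
    Tendsto (fun n : ℕ => A ((n : ℝ)⁻¹) ^ n - B ((n : ℝ)⁻¹) ^ n) atTop (𝓝 0) := by
  refine trotter_gen ?_ hA hB hA0 hB0
  rcases Nat.eq_zero_or_pos m with h | h
  · subst h
    have : (1 : Mat 0) = 0 := Subsingleton.elim _ _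
    rw [this, norm_zero]
    norm_num
  · have : Nonempty (Fin m) := ⟨⟨0, h⟩⟩
    exact norm_one.le

theorem expM_smul (x : Mat m) (s : ℝ) :
    expM (s • x) = ∑ r ∈ Finset.range m, (((r.factorial : ℝ)⁻¹) * s ^ r) • x ^ r := by
  unfold expM
  refine Finset.sum_congr rfl fun r _ => ?_
  rw [smul_pow, smul_smul]

open scoped Matrix.Norms.Operator in
theorem hasDerivAt_expM {x : Mat m} (hx : IsSU x) :
    HasDerivAt (fun s : ℝ => expM (s • x)) x 0 := by
  simp only [expM_smul]
  have h1 : HasDerivAt (fun s : ℝ => ∑ r ∈ Finset.range m,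
      (((r.factorial : ℝ)⁻¹) * s ^ r) • x ^ r)
      (∑ r ∈ Finset.range m, (((r.factorial : ℝ)⁻¹) * (r * (0 : ℝ) ^ (r - 1))) • x ^ r) 0 := by
    refine HasDerivAt.fun_sum fun r _ => ?_
    exact (((hasDerivAt_pow r (0 : ℝ)).const_mul _).smul_const _)
  have h2 : ∑ r ∈ Finset.range m, (((r.factorial : ℝ)⁻¹) * (r * (0 : ℝ) ^ (r - 1))) • x ^ r = x := by
    rcases Nat.lt_or_ge 1 m with h | h
    · rw [Finset.sum_eq_single 1]
      · simp
      · intro r _ hr
        rcases Nat.eq_zero_or_pos r with h0 | h0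
        · subst h0; simp
        · have : r - 1 ≠ 0 := by omega
          simp [zero_pow this]
      · intro h3
        exact absurd (Finset.mem_range.2 h) h3
    · have hx0 : x = 0 := by
        ext i j
        exact hx i j (by omega)
      rw [hx0]
      refine Finset.sum_eq_zero fun r _ => ?_
      rcases Nat.eq_zero_or_pos r with h0 | h0
      · subst h0; simp
      · rw [zero_pow h0.ne', smul_zero]
  rw [h2] at h1
  exact h1

open scoped Matrix.Norms.Operator in
/-- Trotter's formula for matrices. -/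
theorem trotter_expM {x y : Mat m} (hx : IsSU x) (hy : IsSU y) :
    Tendsto (fun n : ℕ => (expM ((n : ℝ)⁻¹ • x) * expM ((n : ℝ)⁻¹ • y)) ^ n) atTop
      (𝓝 (expM (x + y))) := by
  have hA : HasDerivAt (fun s : ℝ => expM (s • x) * expM (s • y)) (x + y) 0 := by
    have h9 := (hasDerivAt_expM hx).fun_mul (hasDerivAt_expM hy)
    simp only [zero_smul, expM_zero, mul_one, one_mul] at h9
    exact h9
  have hB := hasDerivAt_expM (hx.add hy)
  have h := trotter_mat hA hB (by simp [expM_zero]) (by simp [expM_zero])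
  have h2 : ∀ᶠ n : ℕ in atTop, expM ((n : ℝ)⁻¹ • (x + y)) ^ n = expM (x + y) := by
    filter_upwards [eventually_gt_atTop 0] with n hn
    have hxy : IsSU (x + y) := hx.add hy
    have key : ∀ k : ℕ, expM ((n : ℝ)⁻¹ • (x + y)) ^ k = expM (((k : ℝ) * (n : ℝ)⁻¹) • (x + y)) := by
      intro k
      induction k with
      | zero => simp [expM_zero]
      | succ k ih =>
        rw [pow_succ, ih, ← expM_add (hxy.smul _) (hxy.smul _)
          (((Commute.refl (x + y)).smul_left _).smul_right _), ← add_smul]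
        congr 2
        push_cast; ring
    rw [key]
    have : (n : ℝ) ≠ 0 := by positivity
    rw [mul_inv_cancel₀ this, one_smul]
  have h3 : Tendsto (fun n : ℕ => (expM ((n : ℝ)⁻¹ • x) * expM ((n : ℝ)⁻¹ • y)) ^ n -
      expM (x + y)) atTop (𝓝 0) := by
    refine h.congr' ?_
    filter_upwards [h2] with n hn
    rw [hn]
  have h4 := h3.add_const (expM (x + y))
  simpa using h4

/-- Trotter's formula in `UT m`. -/
theorem trotter_expU {x y : Mat m} (hx : IsSU x) (hy : IsSU y) :
    Tendsto (fun n : ℕ => (expU ((n : ℝ)⁻¹ • x) * expU ((n : ℝ)⁻¹ • y)) ^ n) atTop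
      (𝓝 (expU (x + y))) := by
  rw [UT.isInducing_mat.tendsto_nhds_iff]
  have hp : ∀ (g : UT m) (n : ℕ), (g ^ n).mat = g.mat ^ n := by
    intro g n
    induction n with
    | zero => simp
    | succ n ih => rw [pow_succ, pow_succ, UT.mul_mat, ih]
  have h := trotter_expM hx hy
  rw [← expU_mat (hx.add hy)] at h
  refine h.congr fun n => ?_
  simp only [Function.comp]
  rw [hp, UT.mul_mat, expU_mat (hx.smul _), expU_mat (hy.smul _)]

end Mat

/-! ### the adjoint representation -/

section AdM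

variable {m : ℕ}

/-- `κ ↦ Xκ - κX` -/
noncomputable def adM (X : Mat m) : Mat m →ₗ[ℝ] Mat m :=
  LinearMap.mulLeft ℝ X - LinearMap.mulRight ℝ X

theorem adM_apply (X κ : Mat m) : adM X κ = X * κ - κ * X := rfl

theorem exp_mulLeft {X : Mat m} (hX : IsSU X) (κ : Mat m) :
    (IsNilpotent.exp (LinearMap.mulLeft ℝ X)) κ = expM X * κ := by
  have h0 : (LinearMap.mulLeft ℝ X) ^ m = 0 := by
    rw [LinearMap.pow_mulLeft, hX.pow_eq_zero, LinearMap.mulLeft_zero_eq_zero]
  rw [IsNilpotent.exp_eq_sum h0, LinearMap.sum_apply, expM, Finset.sum_mul]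
  refine Finset.sum_congr rfl fun r _ => ?_
  rw [LinearMap.smul_apply, LinearMap.pow_mulLeft, LinearMap.mulLeft_apply, Lev.cast_rat_smul,
    Matrix.smul_mul]
  push_cast
  rfl

theorem neg_mulRight (X : Mat m) :
    -(LinearMap.mulRight ℝ X) = LinearMap.mulRight ℝ (-X) := by
  refine LinearMap.ext fun κ => ?_
  rw [LinearMap.neg_apply, LinearMap.mulRight_apply, LinearMap.mulRight_apply, Matrix.mul_neg]

theorem exp_neg_mulRight {X : Mat m} (hX : IsSU X) (κ : Mat m) :
    (IsNilpotent.exp (-(LinearMap.mulRight ℝ X))) κ = κ * expM (-X) := by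
  have h0 : (LinearMap.mulRight ℝ (-X)) ^ m = 0 := by
    rw [LinearMap.pow_mulRight, IsSU.pow_eq_zero (Lev.neg hX : IsSU (-X)),
      LinearMap.mulRight_zero_eq_zero]
  rw [neg_mulRight, IsNilpotent.exp_eq_sum h0, LinearMap.sum_apply, expM, Finset.mul_sum]
  refine Finset.sum_congr rfl fun r _ => ?_
  rw [LinearMap.smul_apply, LinearMap.pow_mulRight, LinearMap.mulRight_apply, Lev.cast_rat_smul,
    Matrix.mul_smul]
  push_cast
  rfl

theorem conj_mat {X : Mat m} (hX : IsSU X) (κ : Mat m) :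
    expM X * κ * expM (-X) =
      ∑ r ∈ Finset.range (2 * m + 1), ((r.factorial : ℝ)⁻¹) • ((adM X) ^ r) κ := by
  have hL : (LinearMap.mulLeft ℝ X) ^ m = 0 := by
    rw [LinearMap.pow_mulLeft, hX.pow_eq_zero, LinearMap.mulLeft_zero_eq_zero]
  have hR : (-(LinearMap.mulRight ℝ X)) ^ m = 0 := by
    rw [neg_mulRight, LinearMap.pow_mulRight, IsSU.pow_eq_zero (Lev.neg hX : IsSU (-X)),
      LinearMap.mulRight_zero_eq_zero]
  have hc0 : Commute (LinearMap.mulLeft ℝ X : Module.End ℝ (Mat m)) (LinearMap.mulRight ℝ X) :=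
    LinearMap.commute_mulLeft_right X X
  have hc := hc0.neg_right
  have h1 := IsNilpotent.exp_add_of_commute hc ⟨m, hL⟩ ⟨m, hR⟩
  have h2 : (LinearMap.mulLeft ℝ X + -(LinearMap.mulRight ℝ X)) ^ (2 * m + 1) = 0 :=
    hc.add_pow_eq_zero_of_add_le_succ_of_pow_eq_zero hL hR (by omega)
  rw [IsNilpotent.exp_eq_sum h2] at h1
  have h3 := congrArg (fun f : Module.End ℝ (Mat m) => f κ) h1
  simp only [Module.End.mul_apply, exp_neg_mulRight hX, exp_mulLeft hX] at h3
  rw [mul_assoc, ← h3, LinearMap.sum_apply]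
  refine Finset.sum_congr rfl fun r _ => ?_
  rw [LinearMap.smul_apply, Lev.cast_rat_smul, ← sub_eq_add_neg]
  push_cast
  rfl

theorem inv_expU {X : Mat m} (hX : IsSU X) : (expU X)⁻¹ = expU (-X) := by
  have hX' : IsSU (-X) := Lev.neg hX
  have h : expU X * expU (-X) = 1 := by
    rw [← expU_add hX hX' (Commute.refl X).neg_right, add_neg_cancel, expU_zero]
  exact inv_eq_of_mul_eq_one_right h

end AdM

/-! ### functions -/

section Fun

variable {ι : Type} {m : ℕ}

theorem SU.add {v w : ι → Mat m} (hv : SU v) (hw : SU w) : SU (v + w) :=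
  fun i => Lev.add (hv i) (hw i)

theorem SU.neg {v : ι → Mat m} (hv : SU v) : SU (-v) := fun i => Lev.neg (hv i)

theorem SU.smul {v : ι → Mat m} (c : ℝ) (hv : SU v) : SU (c • v) := fun i => Lev.smul c (hv i)

theorem SU.zero : SU (0 : ι → Mat m) := fun _ => Lev.zero 1

theorem E_Lg (g : ι → UT m) : E (Lg g) = g := funext fun i => expU_logU (g i)

theorem Lg_E {v : ι → Mat m} (hv : SU v) : Lg (E v) = v := funext fun i => logU_expU (hv i)

theorem Lg_su (g : ι → UT m) : SU (Lg g) := fun i => logU_su (g i)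

theorem E_zero : E (0 : ι → Mat m) = 1 := funext fun _ => expU_zero

theorem E_add {v w : ι → Mat m} (hv : SU v) (hw : SU w) (h : Commute v w) :
    E (v + w) = E v * E w :=
  funext fun i => expU_add (hv i) (hw i) (congrFun h i)

theorem E_neg {v : ι → Mat m} (hv : SU v) : E (-v) = (E v)⁻¹ :=
  funext fun i => (inv_expU (hv i)).symm

theorem Ad_su (g : ι → UT m) {v : ι → Mat m} (hv : SU v) : SU (Ad g v) :=
  fun i => (expU_conj (g i) (hv i)).1

theorem E_Ad (g : ι → UT m) {v : ι → Mat m} (hv : SU v) : E (Ad g v) = g * E v * g⁻¹ :=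
  funext fun i => (expU_conj (g i) (hv i)).2

/-- `κ ↦ [x, κ]` on functions -/
def adF (x : ι → Mat m) : (ι → Mat m) →ₗ[ℝ] (ι → Mat m) where
  toFun κ := x * κ - κ * x
  map_add' a b := by noncomm_ring
  map_smul' c a := by
    simp only [RingHom.id_apply, mul_smul_comm, smul_mul_assoc, smul_sub]

theorem adF_pow_apply (x κ : ι → Mat m) (r : ℕ) (i : ι) :
    ((adF x) ^ r) κ i = ((adM (x i)) ^ r) (κ i) := by
  induction r generalizing κ with
  | zero => rfl
  | succ r ih =>
    rw [pow_succ, pow_succ, Module.End.mul_apply, Module.End.mul_apply, ih]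
    rfl

theorem Ad_E {x : ι → Mat m} (hx : SU x) (κ : ι → Mat m) :
    Ad (E x) κ = ∑ r ∈ Finset.range (2 * m + 1), ((r.factorial : ℝ)⁻¹) • ((adF x) ^ r) κ := by
  funext i
  rw [Finset.sum_apply]
  simp only [Pi.smul_apply, adF_pow_apply]
  rw [← conj_mat (hx i)]
  show (expU (x i)).mat * κ i * ((expU (x i))⁻¹).mat = _
  rw [inv_expU (hx i), expU_mat (hx i), expU_mat (Lev.neg (hx i) : IsSU (-(x i)))]

/-- part (3) -/
theorem Ad_E_mem {V K K' : Submodule ℝ (ι → Mat m)} (hV : IsNil V) (hK' : IsIdl V K')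
    (hVK : ∀ v ∈ V, ∀ k ∈ K, v * k - k * v ∈ K') {x κ : ι → Mat m} (hx : x ∈ V) (hκ : κ ∈ K) :
    ∃ k ∈ K', Ad (E x) κ = κ + k := by
  refine ⟨∑ r ∈ Finset.range (2 * m), (((r + 1).factorial : ℝ)⁻¹) • ((adF x) ^ (r + 1)) κ, ?_, ?_⟩
  · have key : ∀ r : ℕ, ((adF x) ^ (r + 1)) κ ∈ K' := ?_
    · exact Submodule.sum_mem _ fun r _ => Submodule.smul_mem _ _ (key r)
    intro r
    induction r with
    | zero =>
      rw [zero_add, pow_one]
      exact hVK x hx κ hκ
    | succ r ih =>
      rw [pow_succ', Module.End.mul_apply]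
      exact hK'.mem x hx _ ih
  · rw [Ad_E (hV.su x hx), Finset.sum_range_succ']
    simp [add_comm]

/-- Trotter's formula for functions. -/
theorem trotter_E {x y : ι → Mat m} (hx : SU x) (hy : SU y) :
    Tendsto (fun n : ℕ => (E ((n : ℝ)⁻¹ • x) * E ((n : ℝ)⁻¹ • y)) ^ n) atTop
      (𝓝 (E (x + y))) := by
  rw [tendsto_pi_nhds]
  intro i
  exact trotter_expU (hx i) (hy i)

theorem continuous_Lg : Continuous (Lg : (ι → UT m) → (ι → Mat m)) :=
  continuous_pi fun i => continuous_logU.comp (continuous_apply i)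

theorem isClosed_GV {V : Submodule ℝ (ι → Mat m)} [FiniteDimensional ℝ V] : IsClosed (GV V) := by
  have h : IsClosed (V : Set (ι → Mat m)) := V.closed_of_finiteDimensional
  exact h.preimage continuous_Lg

end Fun

/-! ### the induction -/

section Main

variable {ι : Type} {m : ℕ} {V K : Submodule ℝ (ι → Mat m)}

/-- the span of the brackets `[V, K]` -/
def brR (V K : Submodule ℝ (ι → Mat m)) : Submodule ℝ (ι → Mat m) :=
  Submodule.span ℝ {x | ∃ v ∈ V, ∃ k ∈ K, x = v * k - k * v}

theorem brR_mem {v k : ι → Mat m} (hv : v ∈ V) (hk : k ∈ K) : v * k - k * v ∈ brR V K :=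
  Submodule.subset_span ⟨v, hv, k, hk, rfl⟩

theorem brR_le (hK : IsIdl V K) : brR V K ≤ K := by
  unfold brR
  rw [Submodule.span_le]
  rintro x ⟨v, hv, k, hk, rfl⟩
  exact hK.mem v hv k hk

theorem brR_idl (hK : IsIdl V K) : IsIdl V (brR V K) :=
  ⟨(brR_le hK).trans hK.le, fun _ hv _ hk => brR_mem hv (brR_le hK hk)⟩

theorem eq_bot_of_brR (hV : IsNil V) (hK : IsIdl V K) (h : K ≤ brR V K) : K = ⊥ := by
  have key : ∀ j : ℕ, ∀ k ∈ K, ∀ i, Lev (j + 1) (k i) := by
    intro j
    induction j with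
    | zero => exact fun k hk => hV.su k (hK.le hk)
    | succ j ih =>
      intro k hk
      have hk' := h hk
      clear hk
      unfold brR at hk'
      induction hk' using Submodule.span_induction with
      | mem x hx =>
        obtain ⟨v, hv, k, hk, rfl⟩ := hx
        intro i
        have h1 : Lev 1 (v i) := hV.su v hv i
        have h2 := ih k hk i
        have h3 := h1.mul h2
        have h4 := h2.mul h1
        exact (h3.mono (by omega)).sub (h4.mono (by omega))
      | zero => exact fun i => Lev.zero _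
      | add x y _ _ hx hy => exact fun i => (hx i).add (hy i)
      | smul c x _ hx => exact fun i => (hx i).smul c
  rw [Submodule.eq_bot_iff]
  intro k hk
  funext i
  exact ((key m k hk i).mono (by omega)).eq_zero

/-- the inductive statement -/
def P (V K : Submodule ℝ (ι → Mat m)) : Prop :=
  ∀ x ∈ V, ∀ k ∈ K, (∃ k' ∈ K, E (x + k) = E x * E k') ∧ (∃ k' ∈ K, E x * E k = E (x + k'))

section Step

variable (hV : IsNil V) (hK : IsIdl V K)

theorem mulW {W : Submodule ℝ (ι → Mat m)} (hW : IsIdl V W) (hP : P V W) {a b : ι → Mat m}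
    (ha : a ∈ W) (hb : b ∈ W) : ∃ c ∈ W, E a * E b = E c := by
  obtain ⟨c, hc, h⟩ := (hP a (hW.le ha) b hb).2
  exact ⟨a + c, W.add_mem ha hc, h⟩

include hV in
theorem conjK {W : Submodule ℝ (ι → Mat m)} (hK : IsIdl V K) (hW : IsIdl V W) (hP : P V W)
    (hVK : ∀ v ∈ V, ∀ k ∈ K, v * k - k * v ∈ W) {v k : ι → Mat m}
    (hv : v ∈ V) (hk : k ∈ K) : ∃ c ∈ W, (E v)⁻¹ * E k * E v = E k * E c := by
  obtain ⟨k2, hk2, h⟩ := Ad_E_mem hV hW hVK (V.neg_mem hv) hk
  obtain ⟨c, hc, h2⟩ := (hP k (hK.le hk) k2 hk2).1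
  refine ⟨c, hc, ?_⟩
  rw [← h2, ← h, E_Ad _ (hV.su k (hK.le hk)), E_neg (hV.su v hv), inv_inv]

include hV in
theorem conjW {W : Submodule ℝ (ι → Mat m)} (hW : IsIdl V W) {v k : ι → Mat m}
    (hv : v ∈ V) (hk : k ∈ W) : ∃ c ∈ W, (E v)⁻¹ * E k * E v = E c := by
  obtain ⟨k2, hk2, h⟩ := Ad_E_mem hV hW hW.mem (V.neg_mem hv) hk
  refine ⟨k + k2, W.add_mem hk hk2, ?_⟩
  rw [← h, E_Ad _ (hV.su k (hW.le hk)), E_neg (hV.su v hv), inv_inv]

include hV hK in
theorem pow_form {W : Submodule ℝ (ι → Mat m)} (hW : IsIdl V W) (hP : P V W)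
    (hVK : ∀ v ∈ V, ∀ k ∈ K, v * k - k * v ∈ W) {a b : ι → Mat m}
    (ha : a ∈ V) (hb : b ∈ K) (j : ℕ) :
    ∃ c ∈ W, (E a * E b) ^ j = E ((j : ℝ) • a) * E ((j : ℝ) • b) * E c := by
  induction j with
  | zero =>
    refine ⟨0, W.zero_mem, ?_⟩
    simp [E_zero]
  | succ j ih =>
    obtain ⟨c, hc, ih⟩ := ih
    have hbV := hK.le hb
    obtain ⟨c1, hc1, e1⟩ := conjK hV hK hW hP hVK ha (K.smul_mem (j : ℝ) hb)
    obtain ⟨c2, hc2, e2⟩ := conjW hV hW ha hc
    obtain ⟨c3, hc3, e3⟩ := mulW hW hP hc1 hc2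
    obtain ⟨c4, hc4, e4⟩ := conjW hV hW hbV hc3
    have ea : E (((j + 1 : ℕ) : ℝ) • a) = E ((j : ℝ) • a) * E a := by
      have : ((j + 1 : ℕ) : ℝ) • a = (j : ℝ) • a + a := by
        push_cast; rw [add_smul, one_smul]
      rw [this, E_add (SU.smul _ (hV.su a ha)) (hV.su a ha) ((Commute.refl a).smul_left _)]
    have eb : E (((j + 1 : ℕ) : ℝ) • b) = E ((j : ℝ) • b) * E b := by
      have : ((j + 1 : ℕ) : ℝ) • b = (j : ℝ) • b + b := by
        push_cast; rw [add_smul, one_smul]
      rw [this, E_add (SU.smul _ (hV.su b hbV)) (hV.su b hbV) ((Commute.refl b).smul_left _)]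
    refine ⟨c4, hc4, ?_⟩
    rw [pow_succ, ih, ea, eb, ← e4, ← e3, ← e2]
    have e1' : E c1 = (E ((j : ℝ) • b))⁻¹ * ((E a)⁻¹ * E ((j : ℝ) • b) * E a) := by
      rw [e1]; group
    rw [e1']
    group

include hV hK in
theorem star {W : Submodule ℝ (ι → Mat m)} (hW : IsIdl V W) (hP : P V W)
    (hVK : ∀ v ∈ V, ∀ k ∈ K, v * k - k * v ∈ W) {x k : ι → Mat m}
    (hx : x ∈ V) (hk : k ∈ K) : ∃ c ∈ W, E (x + k) = E x * E k * E c := by
  have hfin := hV.fin
  have hfW : FiniteDimensional ℝ W := Submodule.finiteDimensional_of_le hW.le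
  have hkV := hK.le hk
  have h1 := trotter_E (hV.su x hx) (hV.su k hkV)
  have h2 : Tendsto (fun n : ℕ => (E k)⁻¹ * ((E x)⁻¹ *
      (E ((n : ℝ)⁻¹ • x) * E ((n : ℝ)⁻¹ • k)) ^ n)) atTop
      (𝓝 ((E k)⁻¹ * ((E x)⁻¹ * E (x + k)))) :=
    (h1.const_mul _).const_mul _
  have h3 : ∀ᶠ n : ℕ in atTop, (E k)⁻¹ * ((E x)⁻¹ *
      (E ((n : ℝ)⁻¹ • x) * E ((n : ℝ)⁻¹ • k)) ^ n) ∈ GV W := by
    filter_upwards [eventually_gt_atTop 0] with n hn
    obtain ⟨c, hc, e⟩ := pow_form hV hK hW hP hVK (V.smul_mem ((n : ℝ)⁻¹) hx)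
      (K.smul_mem ((n : ℝ)⁻¹) hk) n
    have hn' : (n : ℝ) ≠ 0 := by positivity
    rw [smul_smul, smul_smul, mul_inv_cancel₀ hn', one_smul, one_smul] at e
    rw [e]
    have e2 : (E k)⁻¹ * ((E x)⁻¹ * (E x * E k * E c)) = E c := by group
    rw [e2]
    show Lg (E c) ∈ W
    rw [Lg_E (hV.su c (hW.le hc))]
    exact hc
  have h4 : (E k)⁻¹ * ((E x)⁻¹ * E (x + k)) ∈ GV W :=
    (isClosed_GV (V := W)).mem_of_tendsto h2 h3
  refine ⟨_, h4, ?_⟩
  rw [E_Lg]
  group

end Step

theorem P_all (hV : IsNil V) (K : Submodule ℝ (ι → Mat m)) (hK : IsIdl V K) : P V K := by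
  have hfin := hV.fin
  induction hn : Module.finrank ℝ K using Nat.strong_induction_on generalizing K with
  | _ n ih =>
    have hfK : FiniteDimensional ℝ K := Submodule.finiteDimensional_of_le hK.le
    by_cases h0 : K = ⊥
    · intro x _ k hk
      rw [h0, Submodule.mem_bot] at hk
      subst hk
      exact ⟨⟨0, K.zero_mem, by rw [add_zero, E_zero, mul_one]⟩,
        ⟨0, K.zero_mem, by rw [add_zero, E_zero, mul_one]⟩⟩
    · have hlt : brR V K < K := lt_of_le_of_ne (brR_le hK) fun h =>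
        h0 (eq_bot_of_brR hV hK (le_of_eq h.symm))
      have hW := brR_idl hK
      have hP : P V (brR V K) := by
        refine ih (Module.finrank ℝ (brR V K)) ?_ (brR V K) hW rfl
        rw [← hn]
        exact Submodule.finrank_lt_finrank_of_lt hlt
      have hVK : ∀ v ∈ V, ∀ k ∈ K, v * k - k * v ∈ brR V K := fun v hv k hk => brR_mem hv hk
      intro x hx k hk
      obtain ⟨c, hc, e⟩ := star hV hK hW hP hVK hx hk
      constructor
      · obtain ⟨c2, hc2, e2⟩ := (hP k (hK.le hk) c hc).2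
        refine ⟨k + c2, K.add_mem hk (brR_le hK hc2), ?_⟩
        rw [e, mul_assoc, e2]
      · have hcs := hV.su c (hW.le hc)
        have e3 : E x * E k = E (x + k) * E (-c) := by
          rw [e, E_neg hcs]; group
        obtain ⟨c4, hc4, e4⟩ := (hP (x + k) (V.add_mem hx (hK.le hk)) (-c)
          ((brR V K).neg_mem hc)).2
        refine ⟨k + c4, K.add_mem hk (brR_le hK hc4), ?_⟩
        rw [e3, e4, add_assoc]

end Main

end NilExpM

open NilExpM in
theorem specNilExp : SpecNilExp := by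
  intro ι m V K K' hV hK hK' hle hVK x hx κ hκ
  have hP := P_all hV K' hK'
  obtain ⟨c, hc, e⟩ := star hV hK hK' hP hVK hx hκ
  refine ⟨⟨c, hc, e⟩, ?_, Ad_E_mem hV hK' hVK hx hκ⟩
  have e3 : E x * E κ = E (x + κ) * E (-c) := by
    rw [e, E_neg (hV.su c (hK'.le hc))]; group
  obtain ⟨c4, hc4, e4⟩ := (hP (x + κ) (V.add_mem hx (hK.le hκ)) (-c) (K'.neg_mem hc)).2
  exact ⟨c4, hc4, by rw [e3, e4]⟩

end MPd26.Nil
end

section
/-!
# PATH: a path in `exp W` with velocities in `V` stays in `exp V`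
-/
set_option autoImplicit false

open MeasureTheory Filter Topology

namespace MPd26.Nil

namespace PathM

variable {ι : Type} {m : ℕ}

/-! ### pointwise exponential and logarithm -/

lemma Lg_E {v : ι → Mat m} (hv : SU v) : Lg (E v) = v := by
  funext i
  exact logU_expU (hv i)

lemma E_Lg (g : ι → UT m) : E (Lg g) = g := by
  funext i
  exact expU_logU (g i)

lemma SU_Lg (g : ι → UT m) : SU (Lg g) := fun i => logU_su (g i)

lemma E_zero : E (0 : ι → Mat m) = 1 := by
  funext i
  exact expU_zero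

lemma Lg_one : Lg (1 : ι → UT m) = 0 := by
  rw [← E_zero, Lg_E]
  exact fun i => Lev.zero 1

lemma SU.neg {v : ι → Mat m} (hv : SU v) : SU (-v) := fun i => Lev.neg (hv i)

lemma E_neg {v : ι → Mat m} (hv : SU v) : E (-v) = (E v)⁻¹ := by
  rw [eq_inv_iff_mul_eq_one]
  funext i
  show expU (-(v i)) * expU (v i) = 1
  rw [← expU_add (Lev.neg (hv i)) (hv i) ((Commute.refl (v i)).neg_left)]
  rw [neg_add_cancel, expU_zero]

lemma Lg_inv (g : ι → UT m) : Lg g⁻¹ = - Lg g := by
  rw [← Lg_E (SU.neg (SU_Lg g)), E_neg (SU_Lg g), E_Lg]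

/-! ### brackets -/

/-- the real span of the brackets -/
def br (W : Submodule ℝ (ι → Mat m)) : Submodule ℝ (ι → Mat m) :=
  Submodule.span ℝ {x | ∃ v ∈ W, ∃ w ∈ W, x = v * w - w * v}

lemma br_le {W : Submodule ℝ (ι → Mat m)} (hW : IsNil W) : br W ≤ W := by
  refine Submodule.span_le.2 ?_
  rintro x ⟨v, hv, w, hw, rfl⟩
  exact hW.lie v hv w hw

lemma mem_br {W : Submodule ℝ (ι → Mat m)} {v w : ι → Mat m} (hv : v ∈ W) (hw : w ∈ W) :
    v * w - w * v ∈ br W := Submodule.subset_span ⟨v, hv, w, hw, rfl⟩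

lemma idl_self {W : Submodule ℝ (ι → Mat m)} (hW : IsNil W) : IsIdl W W :=
  ⟨le_rfl, fun v hv k hk => hW.lie v hv k hk⟩

lemma idl_br {W : Submodule ℝ (ι → Mat m)} (hW : IsNil W) : IsIdl W (br W) :=
  ⟨br_le hW, fun _ hv _ hk => mem_br hv (br_le hW hk)⟩

/-- functions with values of level `k` -/
def LevS (ι : Type) (m k : ℕ) : Submodule ℝ (ι → Mat m) where
  carrier := {w | ∀ i, Lev k (w i)}
  add_mem' := fun ha hb i => (ha i).add (hb i)
  zero_mem' := fun _ => Lev.zero k
  smul_mem' := fun c _ ha i => (ha i).smul c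

lemma mem_LevS {k : ℕ} {w : ι → Mat m} : w ∈ LevS ι m k ↔ ∀ i, Lev k (w i) := Iff.rfl

/-- a subalgebra which spans modulo the brackets is everything -/
lemma frattini {V W : Submodule ℝ (ι → Mat m)} (hV : IsNil V) (hW : IsNil W) (hVW : V ≤ W)
    (h : W ≤ V ⊔ br W) : W ≤ V := by
  have key : ∀ k : ℕ, W ≤ V ⊔ (W ⊓ LevS ι m (k + 1)) := by
    intro k
    induction k with
    | zero =>
      intro w hw
      exact Submodule.mem_sup_right ⟨hw, fun i => hW.su w hw i⟩
    | succ k ih =>
      refine h.trans (sup_le le_sup_left (Submodule.span_le.2 ?_))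
      rintro x ⟨v, hv, w, hw, rfl⟩
      obtain ⟨v1, hv1, v2, hv2, rfl⟩ := Submodule.mem_sup.1 (ih hv)
      obtain ⟨w1, hw1, w2, hw2, rfl⟩ := Submodule.mem_sup.1 (ih hw)
      have e : (v1 + v2) * (w1 + w2) - (w1 + w2) * (v1 + v2) =
          (v1 * w1 - w1 * v1) + ((v1 * w2 - w2 * v1) + (v2 * (w1 + w2) - (w1 + w2) * v2)) := by
        noncomm_ring
      rw [e]
      refine Submodule.add_mem_sup (hV.lie v1 hv1 w1 hw1) (Submodule.add_mem _ ?_ ?_)
      · refine ⟨hW.lie v1 (hVW hv1) w2 hw2.1, fun i => ?_⟩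
        have h1 : Lev 1 (v1 i) := hW.su v1 (hVW hv1) i
        have h2 : Lev (k + 1) (w2 i) := hw2.2 i
        have h3 := h1.mul h2
        have h4 := h2.mul h1
        rw [add_comm 1 (k + 1)] at h3
        exact h3.sub h4
      · refine ⟨hW.lie v2 hv2.1 _ hw, fun i => ?_⟩
        have h1 : Lev 1 ((w1 + w2) i) := hW.su _ hw i
        have h2 : Lev (k + 1) (v2 i) := hv2.2 i
        have h3 := h1.mul h2
        have h4 := h2.mul h1
        rw [add_comm 1 (k + 1)] at h3
        exact h4.sub h3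
  intro w hw
  obtain ⟨v, hv, z, hz, rfl⟩ := Submodule.mem_sup.1 (key m hw)
  have : z = 0 := by
    funext i
    exact ((hz.2 i).mono (k := m) (by omega)).eq_zero
  rw [this, add_zero]
  exact hv

/-! ### the group `exp W` -/

lemma exists_mul (hN : SpecNilExp) {W : Submodule ℝ (ι → Mat m)} (hW : IsNil W)
    {g h : ι → UT m} (hg : Lg g ∈ W) (hh : Lg h ∈ W) :
    ∃ k ∈ br W, Lg (g * h) = Lg g + Lg h + k := by
  obtain ⟨-, ⟨k, hk, e⟩, -⟩ := hN ι m W W (br W) hW (idl_self hW) (idl_br hW) (br_le hW)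
    (fun v hv k hk => mem_br hv hk) (Lg g) hg (Lg h) hh
  refine ⟨k, hk, ?_⟩
  rw [E_Lg, E_Lg] at e
  rw [e, Lg_E]
  exact hW.su _ (W.add_mem (W.add_mem hg hh) (br_le hW hk))

lemma mul_mem (hN : SpecNilExp) {W : Submodule ℝ (ι → Mat m)} (hW : IsNil W)
    {g h : ι → UT m} (hg : Lg g ∈ W) (hh : Lg h ∈ W) : Lg (g * h) ∈ W := by
  obtain ⟨k, hk, e⟩ := exists_mul hN hW hg hh
  rw [e]
  exact W.add_mem (W.add_mem hg hh) (br_le hW hk)

lemma inv_mem {W : Submodule ℝ (ι → Mat m)} {g : ι → UT m} (hg : Lg g ∈ W) : Lg g⁻¹ ∈ W := by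
  rw [Lg_inv]
  exact W.neg_mem hg

lemma killBr_br {W : Submodule ℝ (ι → Mat m)} {φ : (ι → Mat m) →ₗ[ℝ] ℝ} (hφ : KillBr W φ)
    {k : ι → Mat m} (hk : k ∈ br W) : φ k = 0 := by
  have : br W ≤ LinearMap.ker φ := by
    refine Submodule.span_le.2 ?_
    rintro x ⟨v, hv, w, hw, rfl⟩
    exact hφ v hv w hw
  exact this hk

lemma phi_mul (hN : SpecNilExp) {W : Submodule ℝ (ι → Mat m)} (hW : IsNil W)
    {φ : (ι → Mat m) →ₗ[ℝ] ℝ} (hφ : KillBr W φ)
    {g h : ι → UT m} (hg : Lg g ∈ W) (hh : Lg h ∈ W) : φ (Lg (g * h)) = φ (Lg g) + φ (Lg h) := by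
  obtain ⟨k, hk, e⟩ := exists_mul hN hW hg hh
  rw [e, map_add, map_add, killBr_br hφ hk, add_zero]

/-! ### derivatives, entry by entry -/

/-- derivative at `0`, entry by entry -/
def Dm (B : ℝ → Mat m) (B' : Mat m) : Prop :=
  ∀ i j, HasDerivAt (fun h : ℝ => B h i j) (B' i j) 0

lemma Dm.const (A : Mat m) : Dm (fun _ => A) 0 := fun i j => hasDerivAt_const 0 (A i j)

lemma Dm.add {B C : ℝ → Mat m} {B' C' : Mat m} (hB : Dm B B') (hC : Dm C C') :
    Dm (fun h => B h + C h) (B' + C') := fun i j => (hB i j).add (hC i j)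

lemma Dm.sub {B C : ℝ → Mat m} {B' C' : Mat m} (hB : Dm B B') (hC : Dm C C') :
    Dm (fun h => B h - C h) (B' - C') := fun i j => (hB i j).sub (hC i j)

lemma Dm.smul {B : ℝ → Mat m} {B' : Mat m} (c : ℝ) (hB : Dm B B') :
    Dm (fun h => c • B h) (c • B') := fun i j => (hB i j).const_mul c

lemma Dm.mul {B C : ℝ → Mat m} {B' C' : Mat m} (hB : Dm B B') (hC : Dm C C') :
    Dm (fun h => B h * C h) (B' * C 0 + B 0 * C') := by
  intro i j
  have h1 : ∀ x ∈ (Finset.univ : Finset (Fin m)), HasDerivAt (fun h : ℝ => B h i x * C h x j)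
      (B' i x * C 0 x j + B 0 i x * C' x j) 0 := fun x _ => (hB i x).mul (hC x j)
  have h2 := HasDerivAt.fun_sum h1
  have e : (B' * C 0 + B 0 * C') i j =
      ∑ x, (B' i x * C 0 x j + B 0 i x * C' x j) := by
    rw [Matrix.add_apply, Matrix.mul_apply, Matrix.mul_apply, Finset.sum_add_distrib]
  rw [e]
  exact h2

lemma Dm.sum {α : Type*} (s : Finset α) {B : α → ℝ → Mat m} {B' : α → Mat m}
    (h : ∀ x ∈ s, Dm (B x) (B' x)) : Dm (fun t => ∑ x ∈ s, B x t) (∑ x ∈ s, B' x) := by
  classical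
  induction s using Finset.induction_on with
  | empty => simpa using Dm.const (0 : Mat m)
  | insert a s ha ih =>
    simp only [Finset.sum_insert ha]
    exact (h a (Finset.mem_insert_self a s)).add
      (ih fun x hx => h x (Finset.mem_insert_of_mem hx))

lemma Dm.pow_zero {B : ℝ → Mat m} {B' : Mat m} (hB : Dm B B') (h0 : B 0 = 0) (r : ℕ) :
    Dm (fun h => B h ^ (r + 2)) 0 := by
  have e1 : (fun h => B h ^ (r + 2)) = fun h => B h ^ (r + 1) * B h := by
    funext h; rw [pow_succ]
  have key : ∀ r : ℕ, ∃ D : Mat m, Dm (fun h => B h ^ r) D := by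
    intro r
    induction r with
    | zero => exact ⟨0, by simpa using Dm.const (1 : Mat m)⟩
    | succ r ih =>
      obtain ⟨D, hD⟩ := ih
      refine ⟨D * B 0 + B 0 ^ r * B', ?_⟩
      have := hD.mul hB
      simpa only [← pow_succ] using this
  obtain ⟨D, hD⟩ := key (r + 1)
  have := hD.mul hB
  rw [e1]
  simpa [h0] using this

lemma Dm.expM {B : ℝ → Mat m} {B' : Mat m} (hB : Dm B B') (h0 : B 0 = 0) :
    Dm (fun h => expM (B h)) (if 2 ≤ m then B' else 0) := by
  have key : ∀ r : ℕ, Dm (fun h => ((r.factorial : ℝ)⁻¹) • B h ^ r) (if r = 1 then B' else 0) := by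
    intro r
    match r with
    | 0 => simpa using Dm.const (1 : Mat m)
    | 1 => simpa using hB
    | r + 2 =>
      rw [if_neg (by omega)]
      simpa using (hB.pow_zero h0 r).smul (((r + 2).factorial : ℝ)⁻¹)
  have := Dm.sum (Finset.range m) (B := fun r h => ((r.factorial : ℝ)⁻¹) • B h ^ r)
    (B' := fun r => if r = 1 then B' else 0) fun r _ => key r
  unfold Nil.expM
  convert this using 1
  rw [Finset.sum_ite_eq' (Finset.range m) 1]
  simp only [Finset.mem_range]
  congr 1

lemma Dm.logM {g : ℝ → Mat m} {g' : Mat m} (hg : Dm g g') (h1 : g 0 = 1) (hm : 2 ≤ m) :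
    Dm (fun h => logM (g h)) g' := by
  have key : ∀ k : ℕ, (fun h : ℝ => (fun A => A + (g h - Nil.expM A))^[k + 1] (0 : Mat m)) 0 = 0 ∧
      Dm (fun h : ℝ => (fun A => A + (g h - Nil.expM A))^[k + 1] (0 : Mat m)) g' := by
    intro k
    induction k with
    | zero =>
      refine ⟨by simp [h1, expM_zero], ?_⟩
      have := (Dm.const (0 : Mat m)).add (hg.sub (Dm.const (Nil.expM (0 : Mat m))))
      simpa using this
    | succ k ih =>
      obtain ⟨h2, h3⟩ := ih
      simp only [Function.iterate_succ_apply'] at h2 h3 ⊢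
      refine ⟨by rw [h2, h1, expM_zero]; simp, ?_⟩
      have := h3.add (hg.sub (h3.expM h2))
      rw [if_pos hm] at this
      simpa using this
  obtain ⟨k, rfl⟩ : ∃ k, m = k + 1 := ⟨m - 1, by omega⟩
  exact (key k).2

/-- derivative of the logarithm at `1` -/
lemma Dm.logU {g : ℝ → UT m} {y : Mat m} (h1 : g 0 = 1) (hy : IsSU y)
    (hg : Dm (fun h => (g h).mat) y) : Dm (fun h => logU (g h)) y := by
  rcases Nat.lt_or_ge m 2 with hm | hm
  · have z : ∀ C : Mat m, IsSU C → C = 0 := by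
      intro C hC
      ext i j
      exact hC i j (by omega)
    have e : (fun h => Nil.logU (g h)) = fun _ => 0 := by
      funext h
      exact z _ (logU_su _)
    rw [e, z y hy]
    exact Dm.const 0
  · exact Dm.logM hg (by rw [h1]; rfl) hm

/-! ### functionals on finite dimensional spaces of functions -/

lemma functional {W : Submodule ℝ (ι → Mat m)} (hW : FiniteDimensional ℝ W)
    {w : ℝ → ι → Mat m} (hw : ∀ h, w h ∈ W) {y : ι → Mat m} (hy : y ∈ W)
    (hd : ∀ i, Dm (fun h => w h i) (y i)) (φ : (ι → Mat m) →ₗ[ℝ] ℝ) :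
    HasDerivAt (fun h => φ (w h)) (φ y) 0 := by
  let ev : ι × Fin m × Fin m → Module.Dual ℝ W := fun a =>
    { toFun := fun z => z.1 a.1 a.2.1 a.2.2
      map_add' := fun _ _ => rfl
      map_smul' := fun _ _ => rfl }
  have htop : Submodule.span ℝ (Set.range ev) = ⊤ := by
    have h1 : (Submodule.span ℝ (Set.range ev)).dualCoannihilator = ⊥ := by
      rw [eq_bot_iff]
      intro z hz
      rw [Submodule.mem_dualCoannihilator] at hz
      rw [Submodule.mem_bot]
      ext i j k
      exact hz (ev (i, j, k)) (Submodule.subset_span ⟨_, rfl⟩)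
    have h2 := Subspace.dualCoannihilator_dualAnnihilator_eq
      (W := Submodule.span ℝ (Set.range ev))
    rw [h1, Submodule.dualAnnihilator_bot] at h2
    exact h2.symm
  have hmem : φ.domRestrict W ∈ Submodule.span ℝ (Set.range ev) := by rw [htop]; trivial
  have key : ∀ ψ ∈ Submodule.span ℝ (Set.range ev),
      HasDerivAt (fun h => ψ ⟨w h, hw h⟩) (ψ ⟨y, hy⟩) 0 := by
    intro ψ hψ
    induction hψ using Submodule.span_induction with
    | mem x hx =>
      obtain ⟨a, rfl⟩ := hx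
      exact hd a.1 a.2.1 a.2.2
    | zero => exact hasDerivAt_const 0 0
    | add x z _ _ hx hz => exact hx.add hz
    | smul c x _ hx => exact hx.const_mul c
  exact key _ hmem

/-! ### the theorem -/

lemma phi_path (hN : SpecNilExp) {W : Submodule ℝ (ι → Mat m)} (hW : IsNil W)
    {φ : (ι → Mat m) →ₗ[ℝ] ℝ} (hφ : KillBr W φ)
    {β : ℝ → ι → UT m} {v : ℝ → ι → Mat m} (h0 : β 0 = 1) (hβ : ∀ s, Lg (β s) ∈ W)
    (hv : ∀ s, v s ∈ W)
    (hd : ∀ s i j k, HasDerivAt (fun h : ℝ => ((β s i)⁻¹ * β (s + h) i).mat j k) (v s i j k) 0)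
    {c : ℝ} (hc : ∀ s, φ (v s) = c) (s : ℝ) : φ (Lg (β s)) = c * s := by
  have hder : ∀ s, HasDerivAt (fun t => φ (Lg (β t))) c s := by
    intro s
    have h1 : HasDerivAt (fun h => φ (Lg ((β s)⁻¹ * β (s + h)))) (φ (v s)) 0 := by
      refine functional hW.fin (fun h => mul_mem hN hW (inv_mem (hβ s)) (hβ _)) (hv s) ?_ φ
      intro i
      exact Dm.logU (g := fun h => (β s i)⁻¹ * β (s + h) i) (by simp) (hW.su _ (hv s) i)
        (hd s i)
    have h2 : (fun h => φ (Lg ((β s)⁻¹ * β (s + h)))) =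
        fun h => φ (Lg (β (s + h))) - φ (Lg (β s)) := by
      funext h
      rw [phi_mul hN hW hφ (inv_mem (hβ s)) (hβ _), Lg_inv, map_neg]
      ring
    rw [h2, hc s] at h1
    have h3 : HasDerivAt (fun h => φ (Lg (β (s + h)))) c 0 := by
      have := h1.add_const (φ (Lg (β s)))
      simpa using this
    have h4 : HasDerivAt (fun t => φ (Lg (β (s + (t - s))))) c s := by
      have h5 : HasDerivAt (fun t : ℝ => t - s) 1 s := (hasDerivAt_id s).sub_const s
      have h6 : HasDerivAt (fun h => φ (Lg (β (s + h)))) c ((fun t : ℝ => t - s) s) := by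
        simpa using h3
      have := HasDerivAt.comp (h := fun t : ℝ => t - s) s h6 h5
      rw [mul_one] at this
      exact this
    simpa using h4
  have hconst : ∀ x y : ℝ, φ (Lg (β x)) - c * x = φ (Lg (β y)) - c * y := by
    have hdiff : ∀ x : ℝ, HasDerivAt (fun t => φ (Lg (β t)) - c * t) 0 x := by
      intro x
      have := (hder x).fun_sub ((hasDerivAt_id' x).const_mul c)
      simpa using this
    exact is_const_of_deriv_eq_zero (fun x => (hdiff x).differentiableAt)
      (fun x => (hdiff x).deriv)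
  have := hconst s 0
  rw [h0, Lg_one, map_zero] at this
  linarith

end PathM

open PathM in
theorem specPath (hN : SpecNilExp) : SpecPath := by
  intro ι m V W hV hW hVW β v h0 hβ hv hd
  have hfirst : ∀ s, Lg (β s) ∈ V := by
    -- induction on the dimension of `W`
    have key : ∀ (n : ℕ) (W : Submodule ℝ (ι → Mat m)), IsNil W → Module.finrank ℝ W = n →
        V ≤ W → (∀ s, Lg (β s) ∈ W) → ∀ s, Lg (β s) ∈ V := by
      intro n
      induction n using Nat.strong_induction_on with
      | _ n ih =>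
        intro W hW hn hVW hβ
        by_cases hle : W ≤ V ⊔ br W
        · intro s
          exact frattini hV hW hVW hle (hβ s)
        · obtain ⟨w, hw, hw'⟩ := Set.not_subset.1 hle
          obtain ⟨φ, hφ1, hφ2⟩ := Submodule.exists_le_ker_of_notMem hw'
          have hkill : KillBr W φ := fun x hx y hy =>
            hφ2 (Submodule.mem_sup_right (mem_br hx hy))
          have hzero : ∀ s, φ (Lg (β s)) = 0 := by
            intro s
            have := phi_path hN hW hkill h0 hβ (fun s => hVW (hv s)) hd (c := 0)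
              (fun s => hφ2 (Submodule.mem_sup_left (hv s))) s
            rw [this, zero_mul]
          let W' : Submodule ℝ (ι → Mat m) := W ⊓ LinearMap.ker φ
          have := hW.fin
          have hlt : W' < W := by
            refine lt_of_le_of_ne inf_le_left fun e => hφ1 ?_
            have : w ∈ W' := by rw [e]; exact hw
            exact this.2
          have hW' : IsNil W' :=
            { fin := Submodule.finiteDimensional_of_le inf_le_left
              su := fun v hv => hW.su v hv.1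
              lie := fun v hv w hw => ⟨hW.lie v hv.1 w hw.1, hkill v hv.1 w hw.1⟩ }
          refine ih (Module.finrank ℝ W') ?_ W' hW' rfl ?_ ?_
          · rw [← hn]
            exact Submodule.finrank_lt_finrank_of_lt hlt
          · exact le_inf hVW (fun x hx => hφ2 (Submodule.mem_sup_left hx))
          · exact fun s => ⟨hβ s, hzero s⟩
    exact key _ W hW rfl hVW hβ
  refine ⟨hfirst, ?_⟩
  intro φ hφ c hc s
  exact phi_path hN hV hφ h0 hfirst hv hd hc s

end MPd26.Nil
end

section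
/-!
# MP_d26cd8_an, module CHAR (helper69): continuous characters of `exp V`
-/
set_option autoImplicit false

open Filter Topology

namespace MPd26.Nil

namespace CharM

/-- continuous homomorphisms `ℝ → S¹` -/
theorem char_real {f : ℝ → Circle} (hf : Continuous f) (hadd : ∀ s t, f (s + t) = f s * f t) :
    ∃ η : ℝ, ∀ t, f t = Circle.exp (η * t) := by
  set F : ℝ → ℂ := fun t => (f t : ℂ) with hF
  have hFc : Continuous F := continuous_subtype_val.comp hf
  have hFa : ∀ s t, F (s + t) = F s * F t := by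
    intro s t
    simp only [hF, hadd, Circle.coe_mul]
  have hf0 : f 0 = 1 := by
    have h := hadd 0 0
    rw [add_zero] at h
    exact mul_eq_left.1 h.symm
  have hF0 : F 0 = 1 := by simp only [hF, hf0, Circle.coe_one]
  set G : ℝ → ℂ := fun x => ∫ y in (0 : ℝ)..x, F y with hG
  have hGd : ∀ x, HasDerivAt G (F x) x := fun x =>
    intervalIntegral.integral_hasDerivAt_right (hFc.intervalIntegrable _ _)
      (hFc.stronglyMeasurableAtFilter _ _) hFc.continuousAt
  obtain ⟨a, ha⟩ : ∃ a, G a ≠ 0 := by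
    have h1 := (hGd 0).eventually_ne (c := 0) (by rw [hF0]; exact one_ne_zero)
    exact h1.exists
  have hI : ∀ t, F t * G a = G (t + a) - G t := by
    intro t
    have h1 : F t * G a = ∫ y in (0 : ℝ)..a, F (t + y) := by
      simp only [hG]
      rw [← intervalIntegral.integral_const_mul]
      refine intervalIntegral.integral_congr fun y _ => ?_
      simp only [hFa]
    rw [h1, intervalIntegral.integral_comp_add_left (f := F), add_zero]
    simp only [hG]
    rw [intervalIntegral.integral_interval_sub_left (hFc.intervalIntegrable _ _)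
      (hFc.intervalIntegrable _ _)]
  set κ : ℂ := (F a - 1) / G a with hκ
  have hFd : ∀ t, HasDerivAt F (κ * F t) t := by
    intro t
    have h2 : HasDerivAt (fun t => (G (t + a) - G t) / G a) ((F (t + a) - F t) / G a) t := by
      have h3 : HasDerivAt (fun t => G (t + a)) (F (t + a)) t := (hGd (t + a)).comp_add_const t a
      exact (h3.sub (hGd t)).div_const _
    have e1 : (fun t => (G (t + a) - G t) / G a) = F := by
      funext t
      rw [← hI t, mul_div_cancel_right₀ _ ha]
    have e2 : (F (t + a) - F t) / G a = κ * F t := by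
      rw [hFa, hκ]; ring
    rw [e1, e2] at h2
    exact h2
  have hexp : ∀ t, F t = Complex.exp (κ * t) := by
    have h4 : ∀ t : ℝ, HasDerivAt (fun t : ℝ => F t * Complex.exp (-κ * t)) 0 t := by
      intro t
      have h5 : HasDerivAt (fun t : ℝ => Complex.exp (-κ * t)) (Complex.exp (-κ * t) * (-κ)) t := by
        have h6 : HasDerivAt (fun t : ℝ => -κ * (t : ℂ)) (-κ) t := by
          simpa using (Complex.ofRealCLM.hasDerivAt (x := t)).const_mul (-κ)
        exact h6.cexp
      have h7 := (hFd t).mul h5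
      have e : κ * F t * Complex.exp (-κ * t) + F t * (Complex.exp (-κ * t) * (-κ)) = 0 := by ring
      rw [e] at h7
      exact h7
    intro t
    have h8 := is_const_of_deriv_eq_zero (fun t => (h4 t).differentiableAt)
      (fun t => (h4 t).deriv) t 0
    simp only [hF0, Complex.ofReal_zero, mul_zero, Complex.exp_zero, mul_one] at h8
    have h9 : Complex.exp (-κ * t) * Complex.exp (κ * t) = 1 := by
      rw [← Complex.exp_add]; simp
    calc F t = F t * (Complex.exp (-κ * t) * Complex.exp (κ * t)) := by rw [h9, mul_one]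
      _ = (F t * Complex.exp (-κ * t)) * Complex.exp (κ * t) := by ring
      _ = Complex.exp (κ * t) := by rw [h8, one_mul]
  have hre : κ.re = 0 := by
    have h1 := hexp 1
    have h2 : ‖F 1‖ = 1 := by simp only [hF, Circle.norm_coe]
    rw [h1, Complex.norm_exp] at h2
    simpa using h2
  refine ⟨κ.im, fun t => ?_⟩
  apply Circle.ext
  rw [Circle.coe_exp]
  have h1 := hexp t
  simp only [hF] at h1
  rw [h1]
  congr 1
  apply Complex.ext <;> simp [hre]

theorem exp_inj {a b : ℝ} (h : ∀ t : ℝ, Circle.exp (a * t) = Circle.exp (b * t)) : a = b := by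
  by_contra hab
  have hd : a - b ≠ 0 := sub_ne_zero.2 hab
  obtain ⟨n, hn⟩ := Circle.exp_eq_exp.1 (h (Real.pi / (a - b)))
  have h1 : (a - b) * (Real.pi / (a - b)) = n * (2 * Real.pi) := by
    rw [sub_mul, hn]; ring
  rw [mul_div_cancel₀ _ hd] at h1
  have h2 : (1 : ℝ) = n * 2 := by
    have : Real.pi * 1 = Real.pi * (n * 2) := by linarith
    exact mul_left_cancel₀ Real.pi_ne_zero this
  have h3 : (1 : ℤ) = n * 2 := by exact_mod_cast h2
  omega

section Main

variable {ι : Type} {m : ℕ}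

theorem continuous_E_smul {v : ι → Mat m} (hv : SU v) : Continuous (fun t : ℝ => E (t • v)) := by
  refine continuous_pi fun i => ?_
  rw [UT.isInducing_mat.continuous_iff]
  have e : (UT.mat ∘ fun t : ℝ => E (t • v) i) = fun t : ℝ => expM (t • v i) := by
    funext t
    exact expU_mat ((hv i).smul t)
  rw [e]
  exact continuous_expM.comp (continuous_id.smul continuous_const)

theorem E_smul_add {v : ι → Mat m} (hv : SU v) (s t : ℝ) :
    E ((s + t) • v) = E (s • v) * E (t • v) := by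
  rw [add_smul]
  exact NilExpM.E_add (NilExpM.SU.smul s hv) (NilExpM.SU.smul t hv)
    (((Commute.refl v).smul_left s).smul_right t)

theorem mem_GV {V : Submodule ℝ (ι → Mat m)} (hV : IsNil V) {v : ι → Mat m} (hv : v ∈ V) :
    E v ∈ GV V := by
  show Lg (E v) ∈ V
  rw [NilExpM.Lg_E (hV.su v hv)]
  exact hv

end Main

end CharM

open CharM

theorem specChar (hN : SpecNilExp) : SpecChar := by
  intro ι m V hV c hc hmul
  -- the derivative of `c` along one-parameter groups
  have hη : ∀ v : V, ∃ η : ℝ, ∀ t : ℝ, c (E (t • v.1)) = Circle.exp (η * t) := by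
    intro v
    refine char_real (f := fun t : ℝ => c (E (t • v.1))) ?_ ?_
    · exact hc.comp_continuous (continuous_E_smul (hV.su v.1 v.2))
        fun t => mem_GV hV (V.smul_mem t v.2)
    · intro s t
      show c (E ((s + t) • v.1)) = c (E (s • v.1)) * c (E (t • v.1))
      rw [E_smul_add (hV.su v.1 v.2)]
      exact hmul _ (mem_GV hV (V.smul_mem s v.2)) _ (mem_GV hV (V.smul_mem t v.2))
  choose η hη using hη
  -- powers
  have hGmul : ∀ g ∈ GV V, ∀ h ∈ GV V, g * h ∈ GV V := fun g hg h hh =>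
    PathM.mul_mem hN hV hg hh
  have hG1 : (1 : ι → UT m) ∈ GV V := by
    show Lg (1 : ι → UT m) ∈ V
    rw [PathM.Lg_one]; exact V.zero_mem
  have hc1 : c 1 = 1 := by
    have h := hmul 1 hG1 1 hG1
    rw [mul_one] at h
    exact mul_eq_left.1 h.symm
  have hpow : ∀ g ∈ GV V, ∀ n : ℕ, g ^ n ∈ GV V ∧ c (g ^ n) = c g ^ n := by
    intro g hg n
    induction n with
    | zero => exact ⟨by rw [pow_zero]; exact hG1, by rw [pow_zero, pow_zero, hc1]⟩
    | succ n ih =>
      refine ⟨by rw [pow_succ]; exact hGmul _ ih.1 _ hg, ?_⟩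
      rw [pow_succ, hmul _ ih.1 _ hg, ih.2, pow_succ]
  -- additivity at one point
  have hadd1 : ∀ x ∈ V, ∀ y ∈ V, c (E (x + y)) = c (E x) * c (E y) := by
    intro x hx y hy
    have h1 := NilExpM.trotter_E (hV.su x hx) (hV.su y hy)
    have hmem : ∀ n : ℕ, (E ((n : ℝ)⁻¹ • x) * E ((n : ℝ)⁻¹ • y)) ∈ GV V := fun n =>
      hGmul _ (mem_GV hV (V.smul_mem _ hx)) _ (mem_GV hV (V.smul_mem _ hy))
    have h2 : Tendsto (fun n : ℕ => c ((E ((n : ℝ)⁻¹ • x) * E ((n : ℝ)⁻¹ • y)) ^ n)) atTop
        (𝓝 (c (E (x + y)))) := by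
      have h3 := hc (E (x + y)) (mem_GV hV (V.add_mem hx hy))
      refine h3.tendsto.comp ?_
      exact tendsto_nhdsWithin_iff.2 ⟨h1, Eventually.of_forall fun n => (hpow _ (hmem n) n).1⟩
    have h4 : Tendsto (fun n : ℕ => c ((E ((n : ℝ)⁻¹ • x) * E ((n : ℝ)⁻¹ • y)) ^ n)) atTop
        (𝓝 (c (E x) * c (E y))) := by
      refine tendsto_const_nhds.congr' ?_
      filter_upwards [eventually_gt_atTop 0] with n hn
      have hn0 : (n : ℝ) ≠ 0 := by positivity
      rw [(hpow _ (hmem n) n).2, hmul _ (mem_GV hV (V.smul_mem _ hx)) _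
        (mem_GV hV (V.smul_mem _ hy)), mul_pow]
      have key : ∀ z ∈ V, c (E ((n : ℝ)⁻¹ • z)) ^ n = c (E z) := by
        intro z hz
        rw [← (hpow _ (mem_GV hV (V.smul_mem _ hz)) n).2]
        have : ∀ k : ℕ, E ((n : ℝ)⁻¹ • z) ^ k = E (((k : ℝ) * (n : ℝ)⁻¹) • z) := by
          intro k
          induction k with
          | zero => simp [NilExpM.E_zero]
          | succ k ih =>
            rw [pow_succ, ih, ← E_smul_add (hV.su z hz)]
            congr 2
            push_cast; ring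
        rw [this, mul_inv_cancel₀ hn0, one_smul]
      rw [key x hx, key y hy]
    exact tendsto_nhds_unique h2 h4
  -- linearity
  have hlin_add : ∀ x y : V, η (x + y) = η x + η y := by
    intro x y
    refine exp_inj fun t => ?_
    rw [add_mul, Circle.exp_add, ← hη, ← hη, ← hη]
    have e : t • (x + y).1 = t • x.1 + t • y.1 := by
      rw [Submodule.coe_add, smul_add]
    rw [e]
    exact hadd1 _ (V.smul_mem t x.2) _ (V.smul_mem t y.2)
  have hlin_smul : ∀ (a : ℝ) (x : V), η (a • x) = a * η x := by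
    intro a x
    refine exp_inj fun t => ?_
    rw [← hη]
    have e : t • (a • x).1 = (a * t) • x.1 := by
      rw [Submodule.coe_smul, smul_smul, mul_comm]
    rw [e, hη]
    congr 1; ring
  -- invariance
  have hinv : ∀ y ∈ V, ∀ x : V, ∃ hz : Ad (E y) x.1 ∈ V, η ⟨Ad (E y) x.1, hz⟩ = η x := by
    intro y hy x
    have hI : IsIdl V V := PathM.idl_self hV
    obtain ⟨k, hk, e⟩ := NilExpM.Ad_E_mem hV hI (fun v hv k hk => hV.lie v hv k hk) hy x.2
    have hz : Ad (E y) x.1 ∈ V := by rw [e]; exact V.add_mem x.2 hk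
    refine ⟨hz, exp_inj fun t => ?_⟩
    rw [← hη, ← hη]
    have e1 : t • Ad (E y) x.1 = Ad (E y) (t • x.1) := by
      funext i
      show t • ((E y i).mat * x.1 i * ((E y i)⁻¹).mat) = (E y i).mat * (t • x.1 i) * ((E y i)⁻¹).mat
      rw [Matrix.mul_smul, Matrix.smul_mul]
    show c (E (t • Ad (E y) x.1)) = _
    rw [e1, NilExpM.E_Ad _ (NilExpM.SU.smul t (hV.su _ x.2))]
    have hEy := mem_GV hV hy
    have hEy' : (E y)⁻¹ ∈ GV V := PathM.inv_mem hEy
    have hEx := mem_GV hV (V.smul_mem t x.2)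
    rw [hmul _ (hGmul _ hEy _ hEx) _ hEy', hmul _ hEy _ hEx]
    have h1 : c (E y) * c (E y)⁻¹ = 1 := by
      rw [← hmul _ hEy _ hEy', mul_inv_cancel, hc1]
    rw [mul_comm (c (E y)), mul_assoc, h1, mul_one]
  let L : V →ₗ[ℝ] ℝ :=
    { toFun := η
      map_add' := hlin_add
      map_smul' := fun a x => by rw [hlin_smul]; rfl }
  obtain ⟨Φ, hΦ⟩ := LinearMap.exists_extend L
  have hΦv : ∀ x : V, Φ x.1 = η x := by
    intro x
    have : (Φ.comp V.subtype) x = L x := by rw [hΦ]
    exact this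
  refine ⟨(2 * Real.pi)⁻¹ • Φ, ?_, ?_⟩
  · intro y hy x hx
    rw [LinearMap.smul_apply]
    suffices h : Φ (y * x - x * y) = 0 by rw [h, smul_zero]
    -- `s ↦ Φ (Ad (E (s y)) x)` is a constant polynomial
    let P : Polynomial ℝ := ∑ r ∈ Finset.range (2 * m + 1),
      Polynomial.C (((r.factorial : ℝ)⁻¹) * Φ (((NilExpM.adF y) ^ r) x)) * Polynomial.X ^ r
    have hP : ∀ s : ℝ, P.eval s = Φ x := by
      intro s
      obtain ⟨hz, e⟩ := hinv (s • y) (V.smul_mem s hy) ⟨x, hx⟩
      rw [← hΦv, ← hΦv] at e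
      simp only at e
      rw [← e, NilExpM.Ad_E (NilExpM.SU.smul s (hV.su y hy)), map_sum]
      simp only [P, Polynomial.eval_finsetSum, Polynomial.eval_mul, Polynomial.eval_C,
        Polynomial.eval_pow, Polynomial.eval_X]
      refine Finset.sum_congr rfl fun r _ => ?_
      have e2 : NilExpM.adF (s • y) = s • NilExpM.adF y := by
        refine LinearMap.ext fun κ => ?_
        show (s • y) * κ - κ * (s • y) = s • (y * κ - κ * y)
        rw [smul_mul_assoc, mul_smul_comm, smul_sub]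
      rw [e2, smul_pow, LinearMap.smul_apply, map_smul, map_smul, smul_eq_mul, smul_eq_mul]
      ring
    have hPC : P = Polynomial.C (Φ x) := Polynomial.funext fun s => by
      rw [hP s, Polynomial.eval_C]
    have hco : P.coeff 1 = 0 := by
      rw [hPC, Polynomial.coeff_C]; simp
    rcases Nat.eq_zero_or_pos m with h0 | h0
    · have : y * x - x * y = 0 := by
        subst h0
        funext i
        exact Subsingleton.elim _ _
      rw [this, map_zero]
    · simp only [P, Polynomial.finsetSum_coeff, Polynomial.coeff_C_mul, Polynomial.coeff_X_pow]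
        at hco
      rw [Finset.sum_eq_single 1] at hco
      · have h9 : Φ ((NilExpM.adF y) x) = 0 := by simpa using hco
        exact h9
      · intro r _ hr
        rw [if_neg (fun h => hr h.symm), mul_zero]
      · intro h
        exact absurd (Finset.mem_range.2 (by omega)) h
  · intro v hv
    have h1 := hη ⟨v, hv⟩ 1
    simp only [one_smul, mul_one] at h1
    rw [h1, LinearMap.smul_apply, hΦv ⟨v, hv⟩, smul_eq_mul, ← mul_assoc, mul_inv_cancel₀
      (by positivity), one_mul]

end MPd26.Nil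
end

section
/-!
# MP_d26cd8_an, Nil: RAT, rational structure
-/
set_option autoImplicit false

open MeasureTheory Filter Topology

namespace MPd26.Nil

namespace RatM

variable {ι : Type} {m : ℕ}

lemma castM_apply (q : ι → MatQ m) (i : ι) (j k : Fin m) : castM q i j k = ((q i j k : ℚ) : ℝ) := rfl

lemma castM_add (q r : ι → MatQ m) : castM (q + r) = castM q + castM r := by
  funext i; ext j k
  show ((q i j k + r i j k : ℚ) : ℝ) = (q i j k : ℝ) + (r i j k : ℝ)
  push_cast; rfl

lemma castM_zero : castM (0 : ι → MatQ m) = 0 := by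
  funext i; ext j k
  show ((0 : ℚ) : ℝ) = 0
  simp

lemma castM_smul (c : ℚ) (q : ι → MatQ m) : castM (c • q) = (c : ℝ) • castM q := by
  funext i; ext j k
  show ((c * q i j k : ℚ) : ℝ) = (c : ℝ) * (q i j k : ℝ)
  push_cast; rfl

lemma castM_sum {κ : Type*} (s : Finset κ) (f : κ → ι → MatQ m) :
    castM (∑ i ∈ s, f i) = ∑ i ∈ s, castM (f i) := by
  classical
  induction s using Finset.induction_on with
  | empty => simp [castM_zero]
  | insert a s ha ih => rw [Finset.sum_insert ha, Finset.sum_insert ha, castM_add, ih]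

/-- rational independence implies real independence -/
lemma indep {κ : Type*} {v : κ → ι → MatQ m} (hv : LinearIndependent ℚ v) :
    LinearIndependent ℝ (fun k => castM (v k)) := by
  rw [linearIndependent_iff'] at hv ⊢
  intro s g hg k hk
  -- apply rational functionals of ℝ
  have key : ∀ l : ℝ →ₗ[ℚ] ℚ, l (g k) = 0 := by
    intro l
    refine hv s (fun k => l (g k)) ?_ k hk
    funext i; ext a b
    have h1 : ∑ x ∈ s, g x * ((v x i a b : ℚ) : ℝ) = 0 := by
      have h2 := congrFun (congrFun (congrFun hg i) a) b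
      simpa [Finset.sum_apply, Matrix.sum_apply, castM_apply] using h2
    have h3 := congrArg l h1
    rw [map_sum, map_zero] at h3
    have h4 : ∀ x, l (g x * ((v x i a b : ℚ) : ℝ)) = l (g x) * v x i a b := by
      intro x
      have : g x * ((v x i a b : ℚ) : ℝ) = (v x i a b) • g x := by
        rw [Rat.smul_def, mul_comm]
      rw [this, map_smul, smul_eq_mul, mul_comm]
    simp only [h4] at h3
    simpa [Finset.sum_apply, Matrix.sum_apply] using h3
  exact (Module.forall_dual_apply_eq_zero_iff ℚ (g k)).mp key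

/-- `castM` as a `ℚ`-linear map -/
def castL (ι : Type) (m : ℕ) : (ι → MatQ m) →ₗ[ℚ] (ι → Mat m) where
  toFun := castM
  map_add' := castM_add
  map_smul' c q := by
    rw [castM_smul]
    funext i; ext j k
    show (c : ℝ) * _ = c • _
    rw [Rat.smul_def]

end RatM

open RatM

theorem specRat : SpecRat := by
  classical
  intro ι m R
  let b := Module.Basis.ofVectorSpace ℚ R
  let v : Module.Basis.ofVectorSpaceIndex ℚ R → ι → MatQ m := fun i => ((b i : R) : ι → MatQ m)
  have hb : LinearIndependent ℚ v := b.linearIndependent.map' R.subtype (Submodule.ker_subtype R)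
  have hbR : LinearIndependent ℝ (fun i => castM (v i)) := indep hb
  have hmem : ∀ x : R, castM (x : ι → MatQ m) ∈ Submodule.span ℝ (Set.range (fun i => castM (v i))) := by
    intro x
    refine Submodule.span_induction (p := fun (x : R) _ => castM (x : ι → MatQ m)
      ∈ Submodule.span ℝ (Set.range (fun i => castM (v i)))) ?_ ?_ ?_ ?_ (b.mem_span x)
    · rintro _ ⟨i, rfl⟩
      exact Submodule.subset_span ⟨i, rfl⟩
    · show castM (0 : ι → MatQ m) ∈ _
      rw [castM_zero]; exact Submodule.zero_mem _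
    · intro y z _ _ hy hz
      show castM ((y : ι → MatQ m) + (z : ι → MatQ m)) ∈ _
      rw [castM_add]; exact Submodule.add_mem _ hy hz
    · intro c y _ hy
      show castM (c • (y : ι → MatQ m)) ∈ _
      rw [castM_smul]; exact Submodule.smul_mem _ _ hy
  have hspan : rs R ≤ Submodule.span ℝ (Set.range (fun i => castM (v i))) := by
    unfold rs
    rw [Submodule.span_le]
    rintro _ ⟨q, hq, rfl⟩
    exact hmem ⟨q, hq⟩
  refine ⟨?_, ?_⟩
  · intro q hq
    by_contra hqR
    have h1 : q ∉ Submodule.span ℚ (Set.range v) := by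
      intro h
      apply hqR
      have : Submodule.span ℚ (Set.range v) ≤ R := by
        rw [Submodule.span_le]
        rintro _ ⟨i, rfl⟩
        exact (b i).2
      exact this h
    have h2 := indep (hb.option h1)
    have h3 : (fun o : Option (Module.Basis.ofVectorSpaceIndex ℚ R) => castM (Option.casesOn' o q v))
        = fun o => Option.casesOn' o (castM q) (fun i => castM (v i)) := by
      funext o
      cases o <;> rfl
    rw [h3, linearIndependent_option'] at h2
    exact h2.2 (hspan hq)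
  · intro φ
    let S := Submodule.span ℝ (Set.range (fun i => castM (v i)))
    let Φ0 : S →ₗ[ℝ] ℝ := (Finsupp.linearCombination ℝ (fun i => φ (b i))).comp hbR.repr
    obtain ⟨Φ, hΦ⟩ := LinearMap.exists_extend Φ0
    refine ⟨Φ, ?_⟩
    have hbv : ∀ i, Φ (castM (v i)) = φ (b i) := by
      intro i
      have hi : castM (v i) ∈ S := Submodule.subset_span ⟨i, rfl⟩
      have h1 : Φ (castM (v i)) = Φ0 ⟨castM (v i), hi⟩ := by rw [← hΦ]; rfl
      rw [h1]
      show Finsupp.linearCombination ℝ (fun i => φ (b i)) (hbR.repr ⟨castM (v i), hi⟩) = _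
      rw [hbR.repr_eq_single i ⟨castM (v i), hi⟩ rfl, Finsupp.linearCombination_single, one_smul]
    have hlin : (((Φ.restrictScalars ℚ).comp (castL ι m)).comp R.subtype) = φ := by
      refine b.ext (fun i => ?_)
      exact hbv i
    intro q
    exact congrFun (congrArg DFunLike.coe hlin) q

namespace RatM

variable {ι : Type} {m : ℕ}

lemma castM_mul (q r : ι → MatQ m) : castM (q * r) = castM q * castM r := by
  funext i; ext j k
  show ((((q i) * (r i)) j k : ℚ) : ℝ) = (((castM q i) * (castM r i)) j k : ℝ)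
  rw [Matrix.mul_apply, Matrix.mul_apply]
  push_cast
  rfl

lemma castM_sub (q r : ι → MatQ m) : castM (q - r) = castM q - castM r := by
  funext i; ext j k
  show ((q i j k - r i j k : ℚ) : ℝ) = (q i j k : ℝ) - (r i j k : ℝ)
  push_cast; rfl

lemma SU_add {v w : ι → Mat m} (hv : SU v) (hw : SU w) : SU (v + w) := fun i => (hv i).add (hw i)

lemma SU_smul (c : ℝ) {v : ι → Mat m} (hv : SU v) : SU (c • v) := fun i => (hv i).smul c

lemma SU_zero : SU (0 : ι → Mat m) := fun _ => Lev.zero 1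

/-- brackets of spans -/
lemma br_span {P Q R : Submodule ℚ (ι → MatQ m)} (h : ∀ q ∈ P, ∀ r ∈ Q, q * r - r * q ∈ R)
    {v w : ι → Mat m} (hv : v ∈ rs P) (hw : w ∈ rs Q) : v * w - w * v ∈ rs R := by
  unfold rs at hv hw
  induction hv using Submodule.span_induction with
  | mem v hv =>
    obtain ⟨q, hq, rfl⟩ := hv
    induction hw using Submodule.span_induction with
    | mem w hw =>
      obtain ⟨r, hr, rfl⟩ := hw
      rw [← castM_mul, ← castM_mul, ← castM_sub]
      exact Submodule.subset_span ⟨_, h q hq r hr, rfl⟩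
    | zero => simp
    | add x y _ _ hx hy =>
      have e : castM q * (x + y) - (x + y) * castM q
          = (castM q * x - x * castM q) + (castM q * y - y * castM q) := by noncomm_ring
      rw [e]; exact Submodule.add_mem _ hx hy
    | smul a x _ hx =>
      have e : castM q * (a • x) - (a • x) * castM q = a • (castM q * x - x * castM q) := by
        rw [mul_smul_comm, smul_mul_assoc, smul_sub]
      rw [e]; exact Submodule.smul_mem _ _ hx
  | zero => simp
  | add x y _ _ hx hy =>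
    have e : (x + y) * w - w * (x + y) = (x * w - w * x) + (y * w - w * y) := by noncomm_ring
    rw [e]; exact Submodule.add_mem _ hx hy
  | smul a x _ hx =>
    have e : (a • x) * w - w * (a • x) = a • (x * w - w * x) := by
      rw [mul_smul_comm, smul_mul_assoc, smul_sub]
    rw [e]; exact Submodule.smul_mem _ _ hx

/-- the real span of a finite dimensional rational space is finite dimensional -/
lemma fin_rs (R : Submodule ℚ (ι → MatQ m)) [FiniteDimensional ℚ R] : FiniteDimensional ℝ (rs R) := by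
  classical
  let b := Module.finBasis ℚ R
  have hle : rs R ≤ Submodule.span ℝ (Set.range (fun i => castM ((b i : R) : ι → MatQ m))) := by
    unfold rs
    rw [Submodule.span_le]
    rintro _ ⟨q, hq, rfl⟩
    refine Submodule.span_induction (p := fun (x : R) _ => castM (x : ι → MatQ m)
      ∈ Submodule.span ℝ (Set.range (fun i => castM ((b i : R) : ι → MatQ m)))) ?_ ?_ ?_ ?_
      (b.mem_span ⟨q, hq⟩)
    · rintro _ ⟨i, rfl⟩
      exact Submodule.subset_span ⟨i, rfl⟩
    · show castM (0 : ι → MatQ m) ∈ _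
      rw [castM_zero]; exact Submodule.zero_mem _
    · intro y z _ _ hy hz
      show castM ((y : ι → MatQ m) + (z : ι → MatQ m)) ∈ _
      rw [castM_add]; exact Submodule.add_mem _ hy hz
    · intro c y _ hy
      show castM (c • (y : ι → MatQ m)) ∈ _
      rw [castM_smul]; exact Submodule.smul_mem _ _ hy
  have hfin : FiniteDimensional ℝ
      (Submodule.span ℝ (Set.range (fun i => castM ((b i : R) : ι → MatQ m)))) :=
    FiniteDimensional.span_of_finite ℝ (Set.finite_range _)
  exact Submodule.finiteDimensional_of_le hle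

end RatM

theorem specRatNil : SpecRatNil := by
  intro ι m A
  refine ⟨⟨?_, ?_, ?_⟩, ?_⟩
  · have := A.fin
    exact fin_rs A.Q
  · intro v hv
    unfold RAlg.V at hv
    induction hv using Submodule.span_induction with
    | mem v hv =>
      obtain ⟨q, hq, rfl⟩ := hv
      exact A.su q hq
    | zero => exact SU_zero
    | add x y _ _ hx hy => exact SU_add hx hy
    | smul a x _ hx => exact SU_smul a hx
  · intro v hv w hw
    exact br_span (P := A.Q) (Q := A.Q) (R := A.Q) A.lie hv hw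
  · intro R hR hbr
    refine ⟨Submodule.span_mono (Set.image_mono hR), ?_⟩
    intro v hv k hk
    refine br_span (P := A.Q) (Q := R) (R := R) ?_ hv hk
    intro q hq r hr
    exact hbr (Submodule.subset_span ⟨q, hq, r, hr, rfl⟩)

end MPd26.Nil
end

section
/-!
# MP_d26cd8_an, Nil: discreteness of the values of rational functionals on integral points,
rational kernels (helper29)
-/
set_option autoImplicit false

open MeasureTheory Filter Topology

namespace MPd26.Nil

namespace DiscM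

open RatM PathM

variable {ι : Type} {m : ℕ}

lemma isInt_smul {A : Mat m} (hA : IsInt A) (n : ℕ) : IsInt ((n : ℝ) • A) := FlagM.natSmul hA n

/-- the iterates of `logM` have bounded denominators -/
lemma iter_int (k : ℕ) : ∃ N : ℕ, 0 < N ∧ ∀ g : Mat m, IsInt g →
    IsInt ((N : ℝ) • ((fun A => A + (g - expM A))^[k] (0 : Mat m))) := by
  induction k with
  | zero => exact ⟨1, one_pos, fun g _ => by simpa using IsInt.zero⟩
  | succ k ih =>
    obtain ⟨N, hN, h⟩ := ih
    refine ⟨m.factorial * N ^ (m + 1), by positivity, fun g hg => ?_⟩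
    rw [Function.iterate_succ_apply']
    set A := (fun A => A + (g - expM A))^[k] (0 : Mat m) with hA
    have h0 := h g hg
    have e1 : ((m.factorial * N ^ (m + 1) : ℕ) : ℝ) • A =
        ((m.factorial * N ^ m : ℕ) : ℝ) • ((N : ℝ) • A) := by
      rw [smul_smul]; congr 1; push_cast; ring
    have e2 : ((m.factorial * N ^ (m + 1) : ℕ) : ℝ) • expM A =
        ∑ r ∈ Finset.range m, ((m.factorial / r.factorial * N ^ (m + 1 - r) : ℕ) : ℝ) •
          ((N : ℝ) • A) ^ r := by
      unfold expM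
      rw [Finset.smul_sum]
      refine Finset.sum_congr rfl fun r hr => ?_
      have hr' := Finset.mem_range.1 hr
      have hd : r.factorial ∣ m.factorial := Nat.factorial_dvd_factorial hr'.le
      rw [smul_pow, smul_smul, smul_smul]
      congr 1
      have h1 : (r.factorial : ℝ) ≠ 0 := by exact_mod_cast Nat.factorial_ne_zero _
      have h2 : (N : ℝ) ^ (m + 1) = (N : ℝ) ^ (m + 1 - r) * (N : ℝ) ^ r := by
        rw [← pow_add]; congr 1; omega
      push_cast
      rw [Nat.cast_div hd h1, h2]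
      field_simp
    rw [smul_add, smul_sub, e1, e2]
    refine (isInt_smul h0 _).add ((isInt_smul hg _).sub (IsInt.sum _ _ fun r _ => ?_))
    exact isInt_smul (h0.pow r) _

/-- logarithms of integral points have bounded denominators -/
lemma log_int (m : ℕ) : ∃ N : ℕ, 0 < N ∧ ∀ g : UT m, g ∈ LT m → IsInt ((N : ℝ) • logU g) := by
  obtain ⟨N, hN, h⟩ := iter_int (m := m) m
  exact ⟨N, hN, fun g hg => h g.mat (mem_LT.1 hg)⟩

/-- a real vector with integral multiple is rational -/
lemma exists_rat {v : ι → Mat m} {N : ℕ} (hN : 0 < N) (h : ∀ i, IsInt ((N : ℝ) • v i)) :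
    ∃ q : ι → MatQ m, castM q = v ∧ IntV ((N : ℚ) • q) := by
  choose z hz using h
  have hN' : (N : ℝ) ≠ 0 := by exact_mod_cast hN.ne'
  have hNq : (N : ℚ) ≠ 0 := by exact_mod_cast hN.ne'
  refine ⟨fun i => Matrix.of fun j k => (z i j k : ℚ) / N, ?_, ?_⟩
  · funext i; ext j k
    show (((z i j k : ℚ) / N : ℚ) : ℝ) = v i j k
    have h1 := hz i j k
    rw [Matrix.smul_apply, smul_eq_mul] at h1
    push_cast
    rw [← h1]; field_simp
  · intro i j k
    refine ⟨z i j k, ?_⟩
    show (N : ℚ) * ((z i j k : ℚ) / N) = _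
    field_simp

/-- bounded denominators of finitely many rationals -/
lemma common_den {α : Type*} [Finite α] (f : α → ℚ) : ∃ M : ℕ, 0 < M ∧ ∀ a, ∃ z : ℤ,
    (M : ℚ) * f a = z := by
  classical
  have := Fintype.ofFinite α
  refine ⟨∏ a, (f a).den, Finset.prod_pos fun a _ => (f a).den_pos, fun a => ?_⟩
  obtain ⟨c, hc⟩ := Finset.dvd_prod_of_mem (fun a => (f a).den) (Finset.mem_univ a)
  refine ⟨c * (f a).num, ?_⟩
  rw [hc]
  push_cast
  have := Rat.mul_den_eq_num (f a)
  calc ((f a).den : ℚ) * c * f a = c * (f a * (f a).den) := by ring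
    _ = c * (f a).num := by rw [this]

/-- rational functionals have bounded denominators on integral vectors -/
lemma phi_int [Finite ι] (hR : SpecRat) (A : RAlg ι m) {φ : (ι → Mat m) →ₗ[ℝ] ℝ}
    (hφ : RatOn A φ) : ∃ M : ℕ, 0 < M ∧ ∀ v ∈ A.V, (∀ i, IsInt (v i)) →
      ∃ z : ℤ, (M : ℝ) * φ v = z := by
  classical
  have := Fintype.ofFinite ι
  choose f hf using hφ
  let ψ0 : A.Q →ₗ[ℚ] ℚ :=
    { toFun := fun q => f q.1 q.2
      map_add' := fun q r => by
        have h : ((f (q + r).1 (q + r).2 : ℚ) : ℝ) = ((f q.1 q.2 + f r.1 r.2 : ℚ) : ℝ) := by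
          rw [Rat.cast_add, ← hf, ← hf, ← hf]
          rw [← map_add, ← castM_add]; rfl
        exact_mod_cast h
      map_smul' := fun c q => by
        have h : ((f (c • q).1 (c • q).2 : ℚ) : ℝ) = ((c * f q.1 q.2 : ℚ) : ℝ) := by
          rw [Rat.cast_mul, ← hf, ← hf]
          have : castM ((c • q : A.Q) : ι → MatQ m) = (c : ℝ) • castM (q : ι → MatQ m) := by
            rw [← castM_smul]; rfl
          rw [this, map_smul]; rfl
        show f (c • q).1 (c • q).2 = c * f q.1 q.2
        exact_mod_cast h }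
  obtain ⟨ψ, hψ⟩ := LinearMap.exists_extend ψ0
  have hψ' : ∀ q (hq : q ∈ A.Q), ((ψ q : ℚ) : ℝ) = φ (castM q) := by
    intro q hq
    have : ψ q = ψ0 ⟨q, hq⟩ := by rw [← hψ]; rfl
    rw [this]; exact (hf q hq).symm
  let e : ι × Fin m × Fin m → ι → MatQ m := fun a => Pi.single a.1 (Matrix.single a.2.1 a.2.2 1)
  obtain ⟨M, hM, hz⟩ := common_den (fun a => ψ (e a))
  refine ⟨M, hM, fun v hv hvi => ?_⟩
  obtain ⟨q, rfl, hq⟩ := exists_rat (N := 1) one_pos (v := v) (fun i => by simpa using hvi i)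
  have hqQ : q ∈ A.Q := (hR ι m A.Q).1 q hv
  have hq' : IntV q := by simpa using hq
  rw [← hψ' q hqQ]
  choose y hy using hq'
  choose z hz using hz
  have hdec : q = ∑ a : ι × Fin m × Fin m, (y a.1 a.2.1 a.2.2 : ℚ) • e a := by
    funext i; ext j k
    rw [Finset.sum_apply, Matrix.sum_apply, Finset.sum_eq_single (i, j, k)]
    · simp [e, hy]
    · rintro ⟨i', j', k'⟩ _ hne
      by_cases hi : i' = i
      · subst hi
        simp only [e, Pi.smul_apply, Pi.single_eq_same, Matrix.smul_apply, smul_eq_mul]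
        rw [Matrix.single_apply_of_ne, mul_zero]
        rintro ⟨h1, h2⟩
        exact hne (by rw [h1, h2])
      · simp only [e, Pi.smul_apply, Pi.single_eq_of_ne (Ne.symm hi), smul_zero, Matrix.zero_apply]
    · intro h; exact absurd (Finset.mem_univ _) h
  refine ⟨∑ a : ι × Fin m × Fin m, y a.1 a.2.1 a.2.2 * z a, ?_⟩
  have h1 : (M : ℚ) * ψ q = ∑ a : ι × Fin m × Fin m, (y a.1 a.2.1 a.2.2 : ℚ) * (z a : ℚ) := by
    conv_lhs => rw [hdec]
    rw [map_sum, Finset.mul_sum]
    refine Finset.sum_congr rfl fun a _ => ?_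
    rw [map_smul, smul_eq_mul, ← hz a]; ring
  have h2 : ((M * ψ q : ℚ) : ℝ) = ((∑ a : ι × Fin m × Fin m, y a.1 a.2.1 a.2.2 * z a : ℤ) : ℝ) := by
    rw [h1]; push_cast; rfl
  rw [← h2]; push_cast; rfl

/-- integral points -/
def IntP (g : ι → UT m) : Prop := ∀ i, g i ∈ LT m

lemma IntP.mul {g h : ι → UT m} (hg : IntP g) (hh : IntP h) : IntP (g * h) :=
  fun i => (LT m).mul_mem (hg i) (hh i)

lemma IntP.inv {g : ι → UT m} (hg : IntP g) : IntP g⁻¹ := fun i => (LT m).inv_mem (hg i)

lemma IntP.one : IntP (1 : ι → UT m) := fun _ => (LT m).one_mem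

lemma mkp_eq {g h : ι → UT m} : (mkp g : ι → NM m) = mkp h ↔ IntP (g⁻¹ * h) := by
  constructor
  · intro e i
    exact QuotientGroup.eq.1 (congrFun e i)
  · intro e
    funext i
    exact QuotientGroup.eq.2 (e i)

/-- values of a rational functional killing brackets on integral points: `c ℤ` -/
lemma norm_phi [Finite ι] (hN : SpecNilExp) (hR : SpecRat) (hRN : SpecRatNil) (A : RAlg ι m)
    {φ : (ι → Mat m) →ₗ[ℝ] ℝ} (hφ : RatOn A φ) (hk : KillBr A.V φ) (h0 : ∃ v ∈ A.V, φ v ≠ 0) :
    ∃ c : ℚ, 0 < c ∧ ∀ x : ℝ, (∃ g : ι → UT m, IntP g ∧ Lg g ∈ A.V ∧ φ (Lg g) = x) ↔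
      ∃ n : ℤ, x = c * n := by
  obtain ⟨N, hN0, hlog⟩ := log_int m
  obtain ⟨M, hM0, hM⟩ := phi_int hR A hφ
  have hV : IsNil A.V := (hRN ι m A).1
  have hMN : (0 : ℝ) < M * N := by positivity
  -- the subgroup of ℤ
  let S : AddSubgroup ℤ :=
    { carrier := {n | ∃ g : ι → UT m, IntP g ∧ Lg g ∈ A.V ∧ (M * N : ℝ) * φ (Lg g) = n}
      zero_mem' := ⟨1, IntP.one, by rw [Lg_one]; exact A.V.zero_mem, by
        rw [Lg_one, map_zero]; simp⟩
      add_mem' := by
        rintro a b ⟨g, hg, hgV, ha⟩ ⟨h, hh, hhV, hb⟩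
        refine ⟨g * h, hg.mul hh, mul_mem hN hV hgV hhV, ?_⟩
        rw [phi_mul hN hV hk hgV hhV, mul_add, ha, hb]; push_cast; rfl
      neg_mem' := by
        rintro a ⟨g, hg, hgV, ha⟩
        refine ⟨g⁻¹, hg.inv, inv_mem hgV, ?_⟩
        rw [Lg_inv, map_neg, mul_neg, ha]; push_cast; rfl }
  obtain ⟨d, hd⟩ := Int.subgroup_cyclic S
  -- integral points have values in `(1/MN) ℤ`
  have hval : ∀ g : ι → UT m, IntP g → Lg g ∈ A.V → ∃ n : ℤ, (M * N : ℝ) * φ (Lg g) = n := by
    intro g hg hgV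
    obtain ⟨z, hz⟩ := hM ((N : ℝ) • Lg g) (A.V.smul_mem _ hgV) (fun i => hlog _ (hg i))
    refine ⟨z, ?_⟩
    rw [← hz, map_smul, smul_eq_mul, mul_assoc]
  -- nonzero
  have hne : d ≠ 0 := by
    rintro rfl
    obtain ⟨v, hv, hv0⟩ := h0
    have h1 : ∃ q ∈ A.Q, φ (castM q) ≠ 0 := by
      by_contra hcon
      push Not at hcon
      apply hv0
      have : A.V ≤ LinearMap.ker φ := by
        unfold RAlg.V
        rw [Submodule.span_le]
        rintro _ ⟨q, hq, rfl⟩
        exact hcon q hq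
      exact this hv
    obtain ⟨q, hq, hq0⟩ := h1
    obtain ⟨c, hc0, hc⟩ := FlagM.exists_scale A q hq
    have hcq : c • q ∈ A.Q := A.Q.smul_mem _ hq
    have hsu : SU (castM (c • q)) := A.su _ hcq
    have hmem : castM (c • q) ∈ A.V := Submodule.subset_span ⟨_, hcq, rfl⟩
    obtain ⟨n, hn⟩ := hval (E (castM (c • q))) hc (by rw [Lg_E hsu]; exact hmem)
    have hnS : n ∈ S := ⟨E (castM (c • q)), hc, by rw [Lg_E hsu]; exact hmem, hn⟩
    rw [hd, AddSubgroup.mem_closure_singleton] at hnS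
    obtain ⟨k, hk'⟩ := hnS
    rw [smul_zero] at hk'
    rw [Lg_E hsu, castM_smul, map_smul, smul_eq_mul, ← hk'] at hn
    have hc0' : (c : ℝ) ≠ 0 := by exact_mod_cast hc0
    have : (M * N : ℝ) * (c * φ (castM q)) ≠ 0 := mul_ne_zero hMN.ne' (mul_ne_zero hc0' hq0)
    exact this (by rw [hn]; simp)
  refine ⟨(|d| : ℤ) / (M * N : ℕ), by positivity, fun x => ?_⟩
  have hcast : (((|d| : ℤ) / (M * N : ℕ) : ℚ) : ℝ) = |(d : ℝ)| / (M * N) := by
    push_cast; rfl
  rw [hcast]
  constructor
  · rintro ⟨g, hg, hgV, rfl⟩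
    obtain ⟨n, hn⟩ := hval g hg hgV
    have hnS : n ∈ S := ⟨g, hg, hgV, hn⟩
    rw [hd, AddSubgroup.mem_closure_singleton] at hnS
    obtain ⟨k, hk'⟩ := hnS
    rcases abs_choice (d : ℝ) with h | h
    · refine ⟨k, ?_⟩
      rw [h, eq_comm, div_mul_eq_mul_div, div_eq_iff hMN.ne', mul_comm (φ _), hn, ← hk']
      push_cast [smul_eq_mul]; ring
    · refine ⟨-k, ?_⟩
      rw [h, eq_comm, div_mul_eq_mul_div, div_eq_iff hMN.ne', mul_comm (φ _), hn, ← hk']
      push_cast [smul_eq_mul]; ring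
  · rintro ⟨n, rfl⟩
    have key : ∀ k : ℤ, ∃ g : ι → UT m, IntP g ∧ Lg g ∈ A.V ∧
        (M * N : ℝ) * φ (Lg g) = ((k * d : ℤ) : ℝ) := by
      intro k
      have : k * d ∈ S := by
        rw [hd, AddSubgroup.mem_closure_singleton]
        exact ⟨k, by rw [smul_eq_mul]⟩
      exact this
    rcases abs_choice (d : ℝ) with h | h
    · obtain ⟨g, hg, hgV, hgn⟩ := key n
      refine ⟨g, hg, hgV, ?_⟩
      rw [h, div_mul_eq_mul_div, eq_div_iff hMN.ne', mul_comm (φ _), hgn]
      push_cast; ring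
    · obtain ⟨g, hg, hgV, hgn⟩ := key (-n)
      refine ⟨g, hg, hgV, ?_⟩
      rw [h, div_mul_eq_mul_div, eq_div_iff hMN.ne', mul_comm (φ _), hgn]
      push_cast; ring

/-- the rational kernel of a rational functional -/
def kerA (A : RAlg ι m) (φ : (ι → Mat m) →ₗ[ℝ] ℝ) (hk : KillBr A.V φ) : RAlg ι m where
  Q :=
    { carrier := {q | q ∈ A.Q ∧ φ (castM q) = 0}
      add_mem' := fun {a b} ha hb => ⟨A.Q.add_mem ha.1 hb.1, by
        rw [castM_add, map_add, ha.2, hb.2, add_zero]⟩
      zero_mem' := ⟨A.Q.zero_mem, by rw [castM_zero, map_zero]⟩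
      smul_mem' := fun c {a} ha => ⟨A.Q.smul_mem c ha.1, by
        rw [castM_smul, map_smul, ha.2, smul_zero]⟩ }
  fin := by
    have := A.fin
    refine Submodule.finiteDimensional_of_le (S₂ := A.Q) ?_
    intro q hq; exact hq.1
  su := fun q hq => A.su q hq.1
  lie := fun q hq r hr => ⟨A.lie q hq.1 r hr.1, by
    have h1 : castM q ∈ A.V := Submodule.subset_span ⟨q, hq.1, rfl⟩
    have h2 : castM r ∈ A.V := Submodule.subset_span ⟨r, hr.1, rfl⟩
    rw [castM_sub, castM_mul, castM_mul]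
    exact hk _ h1 _ h2⟩
  bd := fun q hq => A.bd q hq.1

lemma mem_kerA {A : RAlg ι m} {φ : (ι → Mat m) →ₗ[ℝ] ℝ} {hk : KillBr A.V φ} {q : ι → MatQ m} :
    q ∈ (kerA A φ hk).Q ↔ q ∈ A.Q ∧ φ (castM q) = 0 := Iff.rfl

/-- the real points of the rational kernel -/
lemma mem_kerA_V {A : RAlg ι m} {φ : (ι → Mat m) →ₗ[ℝ] ℝ} (hφ : RatOn A φ) {hk : KillBr A.V φ}
    (v : ι → Mat m) : v ∈ (kerA A φ hk).V ↔ v ∈ A.V ∧ φ v = 0 := by
  constructor
  · intro h
    refine ⟨?_, ?_⟩
    · unfold RAlg.V at h ⊢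
      refine Submodule.span_mono (Set.image_mono ?_) h
      intro q hq; exact hq.1
    · have : (kerA A φ hk).V ≤ LinearMap.ker φ := by
        unfold RAlg.V
        rw [Submodule.span_le]
        rintro _ ⟨q, hq, rfl⟩
        exact hq.2
      exact this h
  · rintro ⟨hv, hv0⟩
    by_cases h0 : ∃ q ∈ A.Q, φ (castM q) ≠ 0
    · obtain ⟨q0, hq0, hne⟩ := h0
      obtain ⟨x0, hx0⟩ := hφ q0 hq0
      have hx : (x0 : ℝ) ≠ 0 := by rw [← hx0]; exact hne
      have hxq : x0 ≠ 0 := by exact_mod_cast hx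
      -- every v ∈ A.V is in kerA.V + φ v / x0 • q0
      have key : ∀ v ∈ A.V, v - (φ v / x0) • castM q0 ∈ (kerA A φ hk).V := by
        intro v hv
        unfold RAlg.V at hv
        induction hv using Submodule.span_induction with
        | mem v hv =>
          obtain ⟨q, hq, rfl⟩ := hv
          obtain ⟨x, hx'⟩ := hφ q hq
          refine Submodule.subset_span ⟨q - (x / x0) • q0, ⟨A.Q.sub_mem hq (A.Q.smul_mem _ hq0), ?_⟩, ?_⟩
          · rw [castM_sub, castM_smul, map_sub, map_smul, hx', hx0]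
            push_cast
            rw [smul_eq_mul]; field_simp; ring
          · rw [castM_sub, castM_smul, hx']; push_cast; rfl
        | zero => rw [map_zero, zero_div, zero_smul, sub_zero]; exact Submodule.zero_mem _
        | add x y _ _ hx hy =>
          have := Submodule.add_mem _ hx hy
          have e : x + y - (φ (x + y) / x0) • castM q0 =
              x - (φ x / x0) • castM q0 + (y - (φ y / x0) • castM q0) := by
            rw [map_add, add_div, add_smul]; abel
          rw [e]; exact this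
        | smul a x _ hx =>
          have := Submodule.smul_mem _ a hx
          have e : a • x - (φ (a • x) / x0) • castM q0 = a • (x - (φ x / x0) • castM q0) := by
            rw [map_smul, smul_sub, smul_smul, smul_eq_mul, mul_div_assoc]
          rw [e]; exact this
      have := key v hv
      rwa [hv0, zero_div, zero_smul, sub_zero] at this
    · push Not at h0
      unfold RAlg.V at hv ⊢
      refine Submodule.span_mono (Set.image_mono ?_) hv
      intro q hq; exact ⟨hq, h0 q hq⟩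

lemma kerA_lt {A : RAlg ι m} {φ : (ι → Mat m) →ₗ[ℝ] ℝ} {hk : KillBr A.V φ}
    (h0 : ∃ v ∈ A.V, φ v ≠ 0) :
    Module.finrank ℚ (kerA A φ hk).Q < Module.finrank ℚ A.Q := by
  have := A.fin
  refine Submodule.finrank_lt_finrank_of_lt (lt_of_le_of_ne (fun q hq => hq.1) ?_)
  intro e
  obtain ⟨v, hv, hv0⟩ := h0
  apply hv0
  have : A.V ≤ LinearMap.ker φ := by
    unfold RAlg.V
    rw [Submodule.span_le]
    rintro _ ⟨q, hq, rfl⟩
    have hq' : q ∈ (kerA A φ hk).Q := by rw [e]; exact hq
    exact hq'.2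
  exact this hv

end DiscM

end MPd26.Nil
end

section
/-!
# MP_d26cd8_an, Nil: orbits, action, conjugation, measurability (helper29)
-/
set_option autoImplicit false

open MeasureTheory Filter Topology

namespace MPd26.Nil

namespace OrbM

open RatM PathM DiscM

variable {ι : Type} {m : ℕ}

/-! ### action and conjugation -/

lemma act_mkp (g h : ι → UT m) : act g (mkp h) = mkp (g * h) := rfl

lemma act_mul (g h : ι → UT m) (z : ι → NM m) : act (g * h) z = act g (act h z) := by
  funext i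
  exact mul_smul (g i) (h i) (z i)

lemma act_one (z : ι → NM m) : act 1 z = z := by
  funext i
  exact one_smul _ (z i)

lemma continuous_act (g : ι → UT m) : Continuous (act g : (ι → NM m) → (ι → NM m)) := by
  refine continuous_pi fun i => ?_
  exact (continuous_const_smul (g i)).comp (continuous_apply i)

lemma Ad_smul (g : ι → UT m) (c : ℝ) (v : ι → Mat m) : Ad g (c • v) = c • Ad g v := by
  funext i
  show (g i).mat * (c • v i) * ((g i)⁻¹).mat = c • ((g i).mat * v i * ((g i)⁻¹).mat)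
  rw [Matrix.mul_smul, Matrix.smul_mul]

lemma Ad_add (g : ι → UT m) (v w : ι → Mat m) : Ad g (v + w) = Ad g v + Ad g w := by
  funext i
  show (g i).mat * (v i + w i) * ((g i)⁻¹).mat =
    (g i).mat * v i * ((g i)⁻¹).mat + (g i).mat * w i * ((g i)⁻¹).mat
  rw [mul_add, add_mul]

lemma Ad_mul (g h : ι → UT m) (v : ι → Mat m) : Ad (g * h) v = Ad g (Ad h v) := by
  funext i
  show ((g i) * (h i)).mat * v i * (((g i) * (h i))⁻¹).mat =
    (g i).mat * ((h i).mat * v i * ((h i)⁻¹).mat) * ((g i)⁻¹).mat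
  rw [mul_inv_rev, UT.mul_mat, UT.mul_mat]
  noncomm_ring

lemma Ad_one (v : ι → Mat m) : Ad 1 v = v := by
  funext i
  show (1 : UT m).mat * v i * ((1 : UT m)⁻¹).mat = v i
  rw [inv_one, UT.one_mat, one_mul, mul_one]

lemma Ad_inv_Ad (g : ι → UT m) (v : ι → Mat m) : Ad g⁻¹ (Ad g v) = v := by
  rw [← Ad_mul, inv_mul_cancel, Ad_one]

lemma Ad_Ad_inv (g : ι → UT m) (v : ι → Mat m) : Ad g (Ad g⁻¹ v) = v := by
  rw [← Ad_mul, mul_inv_cancel, Ad_one]

lemma SU_Ad (g : ι → UT m) {v : ι → Mat m} (hv : SU v) : SU (Ad g v) :=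
  fun i => (expU_conj (g i) (hv i)).1

lemma E_Ad (g : ι → UT m) {v : ι → Mat m} (hv : SU v) : E (Ad g v) = g * E v * g⁻¹ := by
  funext i
  exact (expU_conj (g i) (hv i)).2

/-- `exp(v) x₀ = x₀ exp(Ad(x₀⁻¹)v)` -/
lemma E_mul_x0 (x0 : ι → UT m) {v : ι → Mat m} (hv : SU v) :
    E v * x0 = x0 * E (Ad x0⁻¹ v) := by
  rw [E_Ad _ hv, inv_inv]
  group

lemma E_add_smul {v : ι → Mat m} (hv : SU v) (s t : ℝ) :
    E ((s + t) • v) = E (s • v) * E (t • v) := by
  funext i
  show expU ((s + t) • v i) = expU (s • v i) * expU (t • v i)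
  rw [add_smul]
  refine expU_add ((hv i).smul s) ((hv i).smul t) ?_
  exact ((Commute.refl (v i)).smul_left s).smul_right t

/-! ### continuity and measurability -/

lemma continuousOn_expU : ContinuousOn (expU : Mat m → UT m) {A | IsSU A} := by
  rw [UT.isInducing_mat.continuousOn_iff]
  refine continuous_expM.continuousOn.congr fun A hA => ?_
  exact expU_mat hA

lemma continuousOn_E : ContinuousOn (E : (ι → Mat m) → (ι → UT m)) {v | SU v} := by
  refine continuousOn_pi.2 fun i => ?_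
  exact continuousOn_expU.comp (continuous_apply i).continuousOn fun v hv => hv i

lemma continuous_mkp : Continuous (mkp : (ι → UT m) → (ι → NM m)) := by
  refine continuous_pi fun i => ?_
  exact QuotientGroup.continuous_mk.comp (continuous_apply i)

lemma continuousOn_pt (x0 : ι → UT m) :
    ContinuousOn (fun v : ι → Mat m => (mkp (x0 * E v) : ι → NM m)) {v | SU v} := by
  refine continuous_mkp.comp_continuousOn ?_
  exact continuousOn_const.mul continuousOn_E

lemma continuous_phi [Finite ι] (φ : (ι → Mat m) →ₗ[ℝ] ℝ) : Continuous φ :=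
  LinearMap.continuous_of_finiteDimensional φ

/-- images of closed sets of vectors are measurable -/
lemma measurable_image [Finite ι] {V : Submodule ℝ (ι → Mat m)} (hsu : ∀ v ∈ V, SU v)
    (x0 : ι → UT m) {S : Set (ι → Mat m)} (hS : IsClosed S) :
    MeasurableSet {z : ι → NM m | ∃ v ∈ V, v ∈ S ∧ z = mkp (x0 * E v)} := by
  have := Fintype.ofFinite ι
  have hV : IsClosed (V : Set (ι → Mat m)) := V.closed_of_finiteDimensional
  have : SigmaCompactSpace (Mat m) := sigmaCompactSpace_of_locallyCompact_secondCountable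
  have hc : IsClosed ((V : Set (ι → Mat m)) ∩ S) := hV.inter hS
  obtain ⟨K, hK, hKU⟩ := isSigmaCompact_univ.of_isClosed_subset hc (Set.subset_univ _)
  have e : {z : ι → NM m | ∃ v ∈ V, v ∈ S ∧ z = mkp (x0 * E v)} =
      ⋃ n, (fun v : ι → Mat m => (mkp (x0 * E v) : ι → NM m)) '' (K n) := by
    rw [← Set.image_iUnion, hKU]
    ext z
    constructor
    · rintro ⟨v, hv, hvS, rfl⟩; exact ⟨v, ⟨hv, hvS⟩, rfl⟩
    · rintro ⟨v, ⟨hv, hvS⟩, rfl⟩; exact ⟨v, hv, hvS, rfl⟩
  rw [e]
  refine MeasurableSet.iUnion fun n => ?_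
  have hsub : K n ⊆ {v | SU v} := by
    intro v hv
    have : v ∈ ⋃ n, K n := Set.mem_iUnion.2 ⟨n, hv⟩
    rw [hKU] at this
    exact hsu v this.1
  exact ((hK n).image_of_continuousOn ((continuousOn_pt x0).mono hsub)).isClosed.measurableSet

lemma measurable_orb [Finite ι] {V : Submodule ℝ (ι → Mat m)} (hsu : ∀ v ∈ V, SU v)
    (x0 : ι → UT m) : MeasurableSet (orb V x0) := by
  have := measurable_image hsu x0 (S := Set.univ) isClosed_univ
  simpa [orb] using this

/-! ### lower central series -/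

lemma lcs_lev (A : RAlg ι m) (k : ℕ) : ∀ q ∈ lcs A.Q k, ∀ i, Lev (k + 1) (castM q i) := by
  induction k with
  | zero => intro q hq i; exact A.su q hq i
  | succ k ih =>
    intro q hq
    change q ∈ brQ A.Q (lcs A.Q k) at hq
    unfold brQ at hq
    induction hq using Submodule.span_induction with
    | mem x hx =>
      obtain ⟨q, hq, r, hr, rfl⟩ := hx
      intro i
      rw [castM_sub, castM_mul, castM_mul]
      have h1 : Lev 1 (castM q i) := A.su q hq i
      have h2 := ih r hr i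
      have h3 := h1.mul h2
      have h4 := h2.mul h1
      rw [add_comm 1 (k + 1)] at h3
      exact h3.sub h4
    | zero => intro i; rw [castM_zero]; exact Lev.zero _
    | add x y _ _ hx hy => intro i; rw [castM_add]; exact (hx i).add (hy i)
    | smul a x _ hx => intro i; rw [castM_smul]; exact (hx i).smul _

lemma castM_inj {q r : ι → MatQ m} (h : castM q = castM r) : q = r := by
  funext i; ext j k
  have h1 : ((q i j k : ℚ) : ℝ) = ((r i j k : ℚ) : ℝ) := congrFun (congrFun (congrFun h i) j) k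
  exact_mod_cast h1

lemma lcs_bot (A : RAlg ι m) : lcs A.Q m = ⊥ := by
  rw [eq_bot_iff]
  intro q hq
  rw [Submodule.mem_bot]
  apply castM_inj
  rw [castM_zero]
  funext i
  exact ((lcs_lev A m q hq i).mono (k := m) (by omega)).eq_zero

lemma lcs_le (A : RAlg ι m) (k : ℕ) : lcs A.Q k ≤ A.Q := by
  induction k with
  | zero => exact le_rfl
  | succ k ih =>
    change brQ A.Q (lcs A.Q k) ≤ A.Q
    unfold brQ
    rw [Submodule.span_le]
    rintro _ ⟨q, hq, r, hr, rfl⟩
    exact A.lie q hq r (ih hr)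

end OrbM

end MPd26.Nil
end

section
/-!
# MP_d26cd8_an, part NIL, module EQUI: equidistribution from unique ergodicity
-/
set_option autoImplicit false

open MeasureTheory Filter Topology
open scoped BoundedContinuousFunction

namespace MPd26.Nil

theorem specEqui : SpecEqui := by
  intro Y J _ _ _ _ _ _ S hS τ hτ ν huniq θ hθp hθS hlim Φ hΦ
  have : TopologicalSpace.MetrizableSpace Y :=
    TopologicalSpace.metrizableSpace_of_t3_secondCountable Y
  rw [tendsto_iff_ultrafilter]
  intro g hg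
  set θ' : ℕ → ProbabilityMeasure Y := fun n => ⟨θ n, hθp n⟩ with hθ'
  obtain ⟨L, -, hL⟩ := (isCompact_univ (X := ProbabilityMeasure Y)).ultrafilter_le_nhds
    (g.map θ') (by simp)
  have hT : Tendsto θ' g (𝓝 L) := hL
  have hint : ∀ Ψ : Y → ℝ, Continuous Ψ →
      Tendsto (fun n => ∫ y, Ψ y ∂(θ n)) g (𝓝 (∫ y, Ψ y ∂(L : Measure Y))) := by
    intro Ψ hΨ
    exact ProbabilityMeasure.tendsto_iff_forall_integral_tendsto.1 hT
      (BoundedContinuousFunction.mkOfCompact ⟨Ψ, hΨ⟩)
  -- the support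
  have hLS : (L : Measure Y) S = 1 := by
    apply le_antisymm prob_le_one
    have h1 := ProbabilityMeasure.limsup_measure_closed_le_of_tendsto hT hS
    have h2 : (fun i => ((θ' i : ProbabilityMeasure Y) : Measure Y) S) = fun _ => 1 := by
      funext n; exact hθS n
    rw [h2, limsup_const] at h1
    exact h1
  -- invariance
  have hinv : ∀ j, (L : Measure Y).map (τ j) = L := by
    intro j
    have hp : IsProbabilityMeasure ((L : Measure Y).map (τ j)) :=
      Measure.isProbabilityMeasure_map (hτ j).measurable.aemeasurable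
    apply ext_of_forall_integral_eq_of_IsFiniteMeasure
    intro f
    rw [integral_map (hτ j).measurable.aemeasurable f.continuous.aestronglyMeasurable]
    have h1 := (hint (fun y => f (τ j y)) (f.continuous.comp (hτ j))).sub (hint f f.continuous)
    have h2 := (hlim j f f.continuous).mono_left hg
    exact sub_eq_zero.1 (tendsto_nhds_unique h1 h2)
  have hLν := huniq L inferInstance hLS hinv
  rw [← hLν]
  exact (ProbabilityMeasure.tendsto_iff_forall_integral_rclike_tendsto ℂ).1 hT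
    (BoundedContinuousFunction.mkOfCompact ⟨Φ, hΦ⟩)

end MPd26.Nil
end

section
/-!
# MP_d26cd8_an, part NIL: basic lemmas on `E`, `Lg`, `Ad`, `act`, `orb`, `IsHaar` (helper18)
-/
set_option autoImplicit false

open MeasureTheory Filter Topology

namespace MPd26.Nil.H18

variable {ι : Type} {m : ℕ}

/-! ### E, Lg, Ad -/

lemma SU_zero : SU (0 : ι → Mat m) := fun _ => Lev.zero 1
lemma SU_add {v w : ι → Mat m} (hv : SU v) (hw : SU w) : SU (v + w) := fun i => (hv i).add (hw i)
lemma SU_neg {v : ι → Mat m} (hv : SU v) : SU (-v) := fun i => (hv i).neg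
lemma SU_smul {v : ι → Mat m} (hv : SU v) (c : ℝ) : SU (c • v) := fun i => (hv i).smul c

lemma SU_Lg (g : ι → UT m) : SU (Lg g) := fun i => logU_su (g i)

lemma E_Lg (g : ι → UT m) : E (Lg g) = g := funext fun i => expU_logU (g i)

lemma Lg_E {v : ι → Mat m} (hv : SU v) : Lg (E v) = v := funext fun i => logU_expU (hv i)

lemma E_zero : E (0 : ι → Mat m) = 1 := funext fun _ => expU_zero

lemma E_add {v w : ι → Mat m} (hv : SU v) (hw : SU w) (h : Commute v w) :
    E (v + w) = E v * E w := funext fun i => expU_add (hv i) (hw i) (by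
      have := congrFun h.eq i
      exact this)

lemma E_neg {v : ι → Mat m} (hv : SU v) : E (-v) = (E v)⁻¹ := by
  rw [eq_inv_iff_mul_eq_one, ← E_add (SU_neg hv) hv ((Commute.refl v).neg_left), neg_add_cancel,
    E_zero]

lemma E_add_smul {v : ι → Mat m} (hv : SU v) (s t : ℝ) :
    E ((s + t) • v) = E (s • v) * E (t • v) := by
  rw [add_smul]
  refine E_add (SU_smul hv s) (SU_smul hv t) ?_
  exact ((Commute.refl v).smul_left s).smul_right t

lemma E_zsmul {v : ι → Mat m} (hv : SU v) (n : ℤ) : E ((n : ℝ) • v) = E v ^ n := by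
  induction n using Int.induction_on with
  | zero => rw [Int.cast_zero, zero_smul, E_zero, zpow_zero]
  | succ n ih =>
    rw [zpow_add_one, ← ih, Int.cast_add, E_add_smul hv]
    push_cast
    rw [one_smul]
  | pred n ih =>
    rw [zpow_sub_one, ← ih, Int.cast_sub, sub_eq_add_neg, E_add_smul hv, Int.cast_one, neg_smul,
      one_smul, E_neg hv]

lemma expU_zsmul {A : Mat m} (hA : IsSU A) (n : ℤ) : expU ((n : ℝ) • A) = expU A ^ n := by
  have h : SU (fun _ : Unit => A) := fun _ => hA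
  have := congrFun (E_zsmul h n) ()
  exact this

lemma mat_mul_inv (g : UT m) : g.mat * (g⁻¹).mat = 1 := by
  rw [← UT.mul_mat, mul_inv_cancel]; rfl

lemma mat_inv_mul (g : UT m) : (g⁻¹).mat * g.mat = 1 := by
  rw [← UT.mul_mat, inv_mul_cancel]; rfl

lemma Ad_add (g : ι → UT m) (v w : ι → Mat m) : Ad g (v + w) = Ad g v + Ad g w := by
  funext i
  show (g i).mat * (v i + w i) * ((g i)⁻¹).mat = _
  rw [mul_add, add_mul]; rfl

lemma Ad_smul (g : ι → UT m) (c : ℝ) (v : ι → Mat m) : Ad g (c • v) = c • Ad g v := by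
  funext i
  show (g i).mat * (c • v i) * ((g i)⁻¹).mat = c • ((g i).mat * (v i) * ((g i)⁻¹).mat)
  rw [mul_smul_comm, smul_mul_assoc]

lemma Ad_zero (g : ι → UT m) : Ad g 0 = 0 := by
  funext i
  show (g i).mat * 0 * ((g i)⁻¹).mat = 0
  rw [mul_zero, zero_mul]

lemma Ad_neg (g : ι → UT m) (v : ι → Mat m) : Ad g (-v) = -Ad g v := by
  have := Ad_smul g (-1) v
  simpa using this

lemma Ad_sub (g : ι → UT m) (v w : ι → Mat m) : Ad g (v - w) = Ad g v - Ad g w := by
  rw [sub_eq_add_neg, Ad_add, Ad_neg, ← sub_eq_add_neg]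

lemma Ad_mulv (g : ι → UT m) (v w : ι → Mat m) : Ad g (v * w) = Ad g v * Ad g w := by
  funext i
  show (g i).mat * (v i * w i) * ((g i)⁻¹).mat =
    (g i).mat * v i * ((g i)⁻¹).mat * ((g i).mat * w i * ((g i)⁻¹).mat)
  calc (g i).mat * (v i * w i) * ((g i)⁻¹).mat
      = (g i).mat * v i * 1 * w i * ((g i)⁻¹).mat := by noncomm_ring
    _ = (g i).mat * v i * (((g i)⁻¹).mat * (g i).mat) * w i * ((g i)⁻¹).mat := by
        rw [mat_inv_mul]
    _ = _ := by noncomm_ring

lemma Ad_one (v : ι → Mat m) : Ad 1 v = v := by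
  funext i
  show (1 : UT m).mat * v i * ((1 : UT m)⁻¹).mat = v i
  rw [inv_one, UT.one_mat, one_mul, mul_one]

lemma Ad_mul (g h : ι → UT m) (v : ι → Mat m) : Ad (g * h) v = Ad g (Ad h v) := by
  funext i
  show (g i * h i).mat * v i * ((g i * h i)⁻¹).mat =
    (g i).mat * ((h i).mat * v i * ((h i)⁻¹).mat) * ((g i)⁻¹).mat
  rw [mul_inv_rev, UT.mul_mat, UT.mul_mat]
  noncomm_ring

lemma Ad_inv_Ad (g : ι → UT m) (v : ι → Mat m) : Ad g⁻¹ (Ad g v) = v := by
  rw [← Ad_mul, inv_mul_cancel, Ad_one]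

lemma Ad_Ad_inv (g : ι → UT m) (v : ι → Mat m) : Ad g (Ad g⁻¹ v) = v := by
  rw [← Ad_mul, mul_inv_cancel, Ad_one]

lemma SU_Ad (g : ι → UT m) {v : ι → Mat m} (hv : SU v) : SU (Ad g v) :=
  fun i => (expU_conj (g i) (hv i)).1

lemma E_Ad (g : ι → UT m) {v : ι → Mat m} (hv : SU v) : E (Ad g v) = g * E v * g⁻¹ :=
  funext fun i => (expU_conj (g i) (hv i)).2

/-- conjugation as an algebra homomorphism -/
noncomputable def AdH (g : ι → UT m) : (ι → Mat m) →ₐ[ℝ] (ι → Mat m) where
  toFun := Ad g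
  map_one' := by
    funext i
    show (g i).mat * 1 * ((g i)⁻¹).mat = 1
    rw [mul_one, mat_mul_inv]
  map_mul' := Ad_mulv g
  map_zero' := Ad_zero g
  map_add' := Ad_add g
  commutes' c := by
    funext i
    show (g i).mat * (algebraMap ℝ (Mat m) c) * ((g i)⁻¹).mat = algebraMap ℝ (Mat m) c
    rw [← Algebra.commutes c, mul_assoc, mat_mul_inv, mul_one]

@[simp] lemma AdH_apply (g : ι → UT m) (v : ι → Mat m) : AdH g v = Ad g v := rfl

/-! ### castM -/

lemma castM_add (q r : ι → MatQ m) : castM (q + r) = castM q + castM r := by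
  funext i; ext j k; simp [castM]

lemma castM_sub (q r : ι → MatQ m) : castM (q - r) = castM q - castM r := by
  funext i; ext j k; simp [castM]

lemma castM_zero : castM (0 : ι → MatQ m) = 0 := by
  funext i; ext j k; simp [castM]

lemma castM_mul (q r : ι → MatQ m) : castM (q * r) = castM q * castM r := by
  funext i
  exact Matrix.map_mul (f := Rat.castHom ℝ)

lemma castM_smul (c : ℚ) (q : ι → MatQ m) : castM (c • q) = (c : ℝ) • castM q := by
  funext i; ext j k; simp [castM]

lemma castM_injective : Function.Injective (castM : (ι → MatQ m) → ι → Mat m) := by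
  intro q r h
  funext i
  ext j k
  have := congrFun (congrFun (congrFun h i) j) k
  exact Rat.cast_injective (α := ℝ) this

lemma castM_mem_rs {R : Submodule ℚ (ι → MatQ m)} {q : ι → MatQ m} (hq : q ∈ R) :
    castM q ∈ rs R := Submodule.subset_span ⟨q, hq, rfl⟩

lemma rs_mono {R R' : Submodule ℚ (ι → MatQ m)} (h : R ≤ R') : rs R ≤ rs R' :=
  Submodule.span_mono (Set.image_mono h)

lemma rs_induction {R : Submodule ℚ (ι → MatQ m)} {P : (ι → Mat m) → Prop}
    (h0 : P 0) (h1 : ∀ q ∈ R, P (castM q)) (h2 : ∀ v w, P v → P w → P (v + w))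
    (h3 : ∀ (c : ℝ) v, P v → P (c • v)) {v : ι → Mat m} (hv : v ∈ rs R) : P v := by
  unfold rs at hv
  induction hv using Submodule.span_induction with
  | mem x hx => obtain ⟨q, hq, rfl⟩ := hx; exact h1 q hq
  | zero => exact h0
  | add x y _ _ hx hy => exact h2 x y hx hy
  | smul c x _ hx => exact h3 c x hx

/-! ### cosets -/

lemma act_mkp (g h : ι → UT m) : act g (mkp h) = mkp (g * h) := rfl

lemma act_mul (g h : ι → UT m) (z : ι → NM m) : act (g * h) z = act g (act h z) :=
  funext fun i => mul_smul (g i) (h i) (z i)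

lemma act_one (z : ι → NM m) : act 1 z = z := funext fun i => one_smul (UT m) (z i)

lemma act_inv_act (g : ι → UT m) (z : ι → NM m) : act g⁻¹ (act g z) = z := by
  rw [← act_mul, inv_mul_cancel, act_one]

lemma act_act_inv (g : ι → UT m) (z : ι → NM m) : act g (act g⁻¹ z) = z := by
  rw [← act_mul, mul_inv_cancel, act_one]

lemma mkp_mul_int (g h : ι → UT m) (hh : ∀ i, h i ∈ LT m) : mkp (g * h) = mkp g := by
  funext i
  show ((g i * h i : UT m) : NM m) = (g i : NM m)
  exact (QuotientGroup.mk_mul_of_mem (g i) (hh i))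

lemma continuous_act (g : ι → UT m) : Continuous (act g) :=
  continuous_pi fun i => (continuous_apply i).const_smul (g i)

lemma measurable_act (g : ι → UT m) : Measurable (act g) :=
  measurable_pi_lambda _ fun i =>
    (show Measurable fun z : NM m => g i • z from
      (continuous_const_smul (g i)).measurable).comp (measurable_pi_apply i)

/-- `act g` as a measurable equivalence -/
noncomputable def actE (g : ι → UT m) : (ι → NM m) ≃ᵐ (ι → NM m) where
  toFun := act g
  invFun := act g⁻¹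
  left_inv := act_inv_act g
  right_inv := act_act_inv g
  measurable_toFun := measurable_act g
  measurable_invFun := measurable_act g⁻¹

/-! ### consequences of NILEXP -/

lemma idl_self {V : Submodule ℝ (ι → Mat m)} (hV : IsNil V) : IsIdl V V :=
  ⟨le_rfl, fun v hv w hw => hV.lie v hv w hw⟩

/-- product of exponentials modulo an ideal -/
lemma E_mul_mem (hN : SpecNilExp) {V : Submodule ℝ (ι → Mat m)} (hV : IsNil V)
    {x y : ι → Mat m} (hx : x ∈ V) (hy : y ∈ V) : ∃ k ∈ V, E x * E y = E k := by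
  obtain ⟨-, ⟨k, hk, h⟩, -⟩ := hN ι m V V V hV (idl_self hV) (idl_self hV) le_rfl
    (fun v hv w hw => hV.lie v hv w hw) x hx y hy
  exact ⟨x + y + k, V.add_mem (V.add_mem hx hy) hk, h⟩

lemma GV_mul (hN : SpecNilExp) {V : Submodule ℝ (ι → Mat m)} (hV : IsNil V)
    {g h : ι → UT m} (hg : g ∈ GV V) (hh : h ∈ GV V) : g * h ∈ GV V := by
  obtain ⟨k, hk, e⟩ := E_mul_mem hN hV hg hh
  rw [E_Lg, E_Lg] at e
  show Lg (g * h) ∈ V
  rw [e, Lg_E (hV.su k hk)]
  exact hk

lemma GV_E {V : Submodule ℝ (ι → Mat m)} (hV : IsNil V) {v : ι → Mat m} (hv : v ∈ V) :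
    E v ∈ GV V := by
  show Lg (E v) ∈ V
  rw [Lg_E (hV.su v hv)]
  exact hv

lemma GV_inv {V : Submodule ℝ (ι → Mat m)} (hV : IsNil V) {g : ι → UT m} (hg : g ∈ GV V) :
    g⁻¹ ∈ GV V := by
  have : g⁻¹ = E (-Lg g) := by rw [E_neg (SU_Lg g), E_Lg]
  rw [this]
  exact GV_E hV (V.neg_mem hg)

lemma GV_one {V : Submodule ℝ (ι → Mat m)} (hV : IsNil V) : (1 : ι → UT m) ∈ GV V := by
  rw [← E_zero]
  exact GV_E hV V.zero_mem

lemma Ad_mem_idl (hN : SpecNilExp) {V K : Submodule ℝ (ι → Mat m)} (hV : IsNil V)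
    (hK : IsIdl V K) {g : ι → UT m} (hg : g ∈ GV V) {k : ι → Mat m} (hk : k ∈ K) :
    Ad g k ∈ K := by
  obtain ⟨-, -, ⟨k', hk', h⟩⟩ := hN ι m V K K hV hK hK le_rfl
    (fun v hv w hw => hK.mem v hv w hw) (Lg g) hg k hk
  rw [E_Lg] at h
  rw [h]
  exact K.add_mem hk hk'

/-! ### orbits and Haar measures -/

lemma act_mem_orb (hN : SpecNilExp) {V : Submodule ℝ (ι → Mat m)} (hV : IsNil V)
    (f0 : ι → UT m) {v : ι → Mat m} (hv : v ∈ V) {z : ι → NM m} (hz : z ∈ orb V f0) :
    act (f0 * E v * f0⁻¹) z ∈ orb V f0 := by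
  obtain ⟨w, hw, rfl⟩ := hz
  obtain ⟨k, hk, e⟩ := E_mul_mem hN hV hv hw
  refine ⟨k, hk, ?_⟩
  rw [act_mkp, ← e]
  congr 1
  group

/-- A measurable map that sends the orbit to itself and normalises the group preserves Haar
measure. -/
lemma haar_map (hH : SpecHaar) [Countable ι] (A : RAlg ι m) (f0 : ι → UT m)
    {ν : Measure (ι → NM m)} (hν : IsHaar A.V f0 ν) {T : (ι → NM m) → (ι → NM m)}
    (hT : Measurable T) (horb : ∀ z ∈ orb A.V f0, T z ∈ orb A.V f0)
    (hmeas : MeasurableSet (orb A.V f0))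
    (hnorm : ∀ v ∈ A.V, ∃ w ∈ A.V, ∀ z, act (f0 * E v * f0⁻¹) (T z) =
      T (act (f0 * E w * f0⁻¹) z)) : MeasurePreserving T ν ν := by
  have := hν.prob
  refine ⟨hT, ?_⟩
  obtain ⟨ν0, -, huniq⟩ := hH ι m A f0
  have h1 : IsHaar A.V f0 (ν.map T) := by
    refine ⟨Measure.isProbabilityMeasure_map hT.aemeasurable, ?_, ?_⟩
    · rw [Measure.map_apply hT hmeas]
      refine le_antisymm prob_le_one ?_
      rw [← hν.orb]
      exact measure_mono fun z hz => horb z hz
    · intro v hv
      obtain ⟨w, hw, e⟩ := hnorm v hv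
      refine ⟨measurable_act _, ?_⟩
      rw [Measure.map_map (measurable_act _) hT]
      have e' : act (f0 * E v * f0⁻¹) ∘ T = T ∘ act (f0 * E w * f0⁻¹) := funext e
      rw [e', ← Measure.map_map hT (measurable_act _), (hν.inv w hw).map_eq]
  rw [huniq _ h1, huniq _ hν]

lemma haar_ae_orb {V : Submodule ℝ (ι → Mat m)} {f0 : ι → UT m} {ν : Measure (ι → NM m)}
    (hν : IsHaar V f0 ν) (hmeas : MeasurableSet (orb V f0)) : ∀ᵐ z ∂ν, z ∈ orb V f0 := by
  have := hν.prob
  have h : ν (orb V f0)ᶜ = 0 := by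
    rw [prob_compl_eq_zero_iff hmeas]; exact hν.orb
  rw [ae_iff]
  exact h

end MPd26.Nil.H18
end
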