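import Pool.Agent.Lib.MP_d26cd8_an.Nil.Spec
import Pool.Agent.Lib.MP_d26cd8_an.Nil.H18Base

section
/-!
# MP_d26cd8_an, module P, part 1: averaging operators and the invariant measure
-/
set_option autoImplicit false

open MeasureTheory Filter Topology
open scoped ComplexConjugate

namespace MPd26.Nil.PM

/-! ### Fourier coefficients of continuous periodic functions -/

lemma fourier_const {φ : ℝ → ℂ} (hc : Continuous φ) (hp : Function.Periodic φ 1)
    (h0 : ∀ n : ℤ, n ≠ 0 →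
      ∫ t in (0 : ℝ)..1, Complex.exp (-(2 * Real.pi * n * t * Complex.I)) * φ t = 0) (t : ℝ) :
    φ t = ∫ s in (0 : ℝ)..1, φ s := by
  have : Fact ((0 : ℝ) < 1) := ⟨one_pos⟩
  let g : C(AddCircle (1 : ℝ), ℂ) := ⟨hp.lift, continuous_coinduced_dom.2 (by
    exact hc)⟩
  have hg : ∀ s : ℝ, g (s : AddCircle (1 : ℝ)) = φ s := fun s => hp.lift_coe s
  have hco : ∀ n : ℤ, fourierCoeff g n =
      ∫ t in (0 : ℝ)..1, Complex.exp (-(2 * Real.pi * n * t * Complex.I)) * φ t := by
    intro n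
    rw [fourierCoeff_eq_intervalIntegral g n 0, zero_add, div_one, one_smul]
    refine intervalIntegral.integral_congr fun s _ => ?_
    rw [hg, fourier_coe_apply, smul_eq_mul]
    congr 1
    congr 1
    push_cast
    ring
  have hz : ∀ n : ℤ, n ≠ 0 → fourierCoeff g n = 0 := fun n hn => (hco n).trans (h0 n hn)
  have hs : Summable (fourierCoeff g) := summable_of_ne_finset_zero (s := {0}) (fun n hn => hz n
    (by simpa using hn))
  have h1 := has_pointwise_sum_fourier_series_of_summable hs (t : AddCircle (1 : ℝ))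
  have h2 : HasSum (fun i => fourierCoeff g i • fourier i (t : AddCircle (1 : ℝ)))
      (fourierCoeff g 0 • fourier 0 (t : AddCircle (1 : ℝ))) :=
    hasSum_single 0 (fun n hn => by rw [hz n hn, zero_smul])
  have h3 := h1.unique h2
  rw [hg, hco 0, fourier_zero, smul_eq_mul, mul_one] at h3
  rw [h3]
  refine intervalIntegral.integral_congr fun s _ => ?_
  simp

section Setup

variable {Ξ G J : Type} [TopologicalSpace Ξ] [Group G] [TopologicalSpace G]
  [MulAction G Ξ] (S : PSetup Ξ G J)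

lemma H_mono {k l : ℕ} (hkl : k ≤ l) (hl : l ≤ S.D) : S.H k ≤ S.H l := by
  induction l, hkl using Nat.le_induction with
  | base => exact le_rfl
  | succ l hkl ih => exact (ih (by omega)).trans (S.H_le l (by omega))

lemma conj_mem {k : ℕ} (hk : k ≤ S.D) (g : G) {h : G} (hh : h ∈ S.H k) : g * h * g⁻¹ ∈ S.H k := by
  rcases k with _ | k
  · rw [S.H_zero, Subgroup.mem_bot] at hh ⊢
    rw [hh]; group
  · have h1 := S.comm k (by omega) g h hh
    have h2 : g * h * g⁻¹ = (g * h * g⁻¹ * h⁻¹) * h := by group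
    rw [h2]
    exact (S.H (k + 1)).mul_mem (S.H_le k (by omega) h1) hh

lemma α_mem' {k : ℕ} (hk : k ≤ S.D) (j : J) {h : G} (hh : h ∈ S.H k) : S.α j h ∈ S.H k := by
  rcases Nat.eq_zero_or_pos S.D with h0 | h0
  · have hk0 : k = S.D := by omega
    rw [hk0, S.H_top]; trivial
  · rcases k with _ | k
    · rw [S.H_zero, Subgroup.mem_bot] at hh ⊢
      subst hh
      have h1 := S.α_mem j 0 h0 1 (Subgroup.one_mem _)
      rw [S.H_zero, Subgroup.mem_bot] at h1
      simpa using h1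
    · have h1 := S.α_mem j k (by omega) h hh
      have h2 : S.α j h = (S.α j h * h⁻¹) * h := by group
      rw [h2]
      exact (S.H (k + 1)).mul_mem (S.H_le k (by omega) h1) hh

/-- invariance under `H k` -/
def IsC (k : ℕ) (F : Ξ → ℂ) : Prop := Continuous F ∧ ∀ h ∈ S.H k, ∀ z, F (h • z) = F z

variable {S}

lemma IsC.mono {k l : ℕ} (hkl : k ≤ l) (hl : l ≤ S.D) {F : Ξ → ℂ} (hF : IsC S l F) : IsC S k F :=
  ⟨hF.1, fun h hh z => hF.2 h (H_mono S hkl hl hh) z⟩

lemma IsC.const {k : ℕ} (c : ℂ) : IsC S k (fun _ => c) := ⟨continuous_const, fun _ _ _ => rfl⟩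

lemma IsC.comp {k : ℕ} {F : Ξ → ℂ} (hF : IsC S k F) {g : ℂ → ℂ} (hg : Continuous g) :
    IsC S k (fun z => g (F z)) := ⟨hg.comp hF.1, fun h hh z => by beta_reduce; rw [hF.2 h hh z]⟩

lemma IsC.comp_smul [ContinuousSMul G Ξ] {k : ℕ} (hk : k ≤ S.D) {F : Ξ → ℂ} (hF : IsC S k F)
    (g : G) : IsC S k (fun z => F (g • z)) := by
  refine ⟨hF.1.comp (continuous_const_smul g), fun h hh z => ?_⟩
  have : g • h • z = (g * h * g⁻¹) • g • z := by rw [smul_smul, smul_smul]; group
  beta_reduce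
  rw [this, hF.2 _ (conj_mem S hk g hh)]

lemma IsC.comp_τ {k : ℕ} (hk : k ≤ S.D) {F : Ξ → ℂ} (hF : IsC S k F)
    (j : J) : IsC S k (fun z => F (S.τ j z)) := by
  refine ⟨hF.1.comp (S.τ_cont j), fun h hh z => ?_⟩
  beta_reduce
  rw [S.τ_smul, hF.2 _ (α_mem' S hk j hh)]

/-- `F (w_k (t) g z) = F (g w_k(t) z)` for `F` invariant under `H k` -/
lemma IsC.comm {k : ℕ} (hk : k < S.D) {F : Ξ → ℂ} (hF : IsC S k F) (g : G) {h : G}
    (hh : h ∈ S.H (k + 1)) (z : Ξ) : F (g • h • z) = F (h • g • z) := by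
  have : g • h • z = (g * h * g⁻¹ * h⁻¹) • h • g • z := by
    simp only [smul_smul]; group
  rw [this, hF.2 _ (S.comm k hk g h hh)]

lemma IsC.τw {k : ℕ} (hk : k < S.D) {F : Ξ → ℂ} (hF : IsC S k F) (j : J) {h : G}
    (hh : h ∈ S.H (k + 1)) (z : Ξ) : F (S.τ j (h • z)) = F (h • S.τ j z) := by
  rw [S.τ_smul]
  have : S.α j h • S.τ j z = (S.α j h * h⁻¹) • h • S.τ j z := by rw [smul_smul]; group
  rw [this, hF.2 _ (S.α_mem j k hk h hh)]

lemma w_zero {k : ℕ} (hk : k < S.D) : S.w k 0 = 1 := by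
  have := S.w_add k hk 0 0
  rw [add_zero] at this
  exact (mul_eq_left.1 this.symm)

lemma IsC.periodic {k : ℕ} (hk : k < S.D) {F : Ξ → ℂ} (hF : IsC S k F) (z : Ξ) :
    Function.Periodic (fun t => F (S.w k t • z)) 1 := by
  intro t
  simp only
  rw [S.w_add k hk, mul_smul]
  obtain ⟨h, hh, e⟩ := S.per k hk z
  rw [e, hF.comm hk _ (S.H_le k hk hh), hF.2 _ hh]

/-- weight functions: `F (w_k(s) z) = e(ns) F(z)` -/
def IsW (S : PSetup Ξ G J) (k : ℕ) (n : ℤ) (F : Ξ → ℂ) : Prop :=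
  IsC S k F ∧ ∀ (s : ℝ) z, F (S.w k s • z) = Complex.exp (2 * Real.pi * n * s * Complex.I) * F z

lemma IsW.isC_succ {k : ℕ} (hk : k < S.D) {F : Ξ → ℂ} (hF : IsW S k 0 F) : IsC S (k + 1) F := by
  refine ⟨hF.1.1, fun h hh z => ?_⟩
  obtain ⟨t, h', hh', e⟩ := S.H_succ k hk h hh
  rw [e, mul_smul, hF.2, hF.1.2 h' hh']
  simp

/-- Fourier coefficients along `w k`. -/
noncomputable def FC (S : PSetup Ξ G J) (k : ℕ) (n : ℤ) (F : Ξ → ℂ) (z : Ξ) : ℂ :=
  ∫ t in (0 : ℝ)..1, Complex.exp (-(2 * Real.pi * n * t * Complex.I)) * F (S.w k t • z)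

lemma continuous_uncurry [ContinuousSMul G Ξ] {k : ℕ} (hk : k < S.D) {F : Ξ → ℂ}
    (hF : Continuous F) : Continuous (fun p : Ξ × ℝ => F (S.w k p.2 • p.1)) :=
  hF.comp (((S.w_cont k hk).comp continuous_snd).smul continuous_fst)

lemma FC_continuous [ContinuousSMul G Ξ] {k : ℕ} (hk : k < S.D) (n : ℤ) {F : Ξ → ℂ}
    (hF : Continuous F) : Continuous (FC S k n F) := by
  unfold FC
  refine intervalIntegral.continuous_parametric_intervalIntegral_of_continuous' ?_ 0 1
  have := continuous_uncurry hk hF (S := S)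
  show Continuous fun p : Ξ × ℝ => _
  exact (by fun_prop : Continuous fun p : Ξ × ℝ =>
    Complex.exp (-(2 * Real.pi * n * p.2 * Complex.I))).mul this

lemma FC_isW [ContinuousSMul G Ξ] {k : ℕ} (hk : k < S.D) (n : ℤ) {F : Ξ → ℂ} (hF : IsC S k F) :
    IsW S k n (FC S k n F) := by
  refine ⟨⟨FC_continuous hk n hF.1, fun h hh z => ?_⟩, fun s z => ?_⟩
  · unfold FC
    refine intervalIntegral.integral_congr fun t _ => ?_
    rw [hF.comm hk _ (S.H_le k hk hh), hF.2 _ hh]
  · unfold FC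
    set g : ℝ → ℂ := fun t => Complex.exp (-(2 * Real.pi * n * t * Complex.I)) *
      F (S.w k t • z) with hg
    have hper : Function.Periodic g 1 := by
      intro t
      have h1 := hF.periodic hk z t
      simp only at h1
      simp only [hg]
      rw [h1]
      congr 1
      have : -(2 * Real.pi * n * ((t + 1 : ℝ) : ℂ) * Complex.I) =
          -(2 * Real.pi * n * t * Complex.I) + ((-n : ℤ) : ℂ) * (2 * Real.pi * Complex.I) := by
        push_cast; ring
      rw [this, Complex.exp_add, Complex.exp_int_mul_two_pi_mul_I, mul_one]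
    have e1 : (∫ t in (0 : ℝ)..1, Complex.exp (-(2 * Real.pi * n * t * Complex.I)) *
        F (S.w k t • S.w k s • z)) =
        ∫ t in (0 : ℝ)..1, Complex.exp (2 * Real.pi * n * s * Complex.I) * g (t + s) := by
      refine intervalIntegral.integral_congr fun t _ => ?_
      simp only [hg]
      rw [smul_smul, ← S.w_add k hk, ← mul_assoc, ← Complex.exp_add]
      congr 2
      push_cast
      ring
    rw [e1, intervalIntegral.integral_const_mul]
    congr 1
    rw [intervalIntegral.integral_comp_add_right (fun t => g t) s, zero_add, add_comm (1 : ℝ) s]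
    have := hper.intervalIntegral_add_eq s 0
    rw [zero_add] at this
    exact this

lemma FC_smul [ContinuousSMul G Ξ] {k : ℕ} (hk : k < S.D) (n : ℤ) {F : Ξ → ℂ} (hF : IsC S k F)
    (g : G) (z : Ξ) : FC S k n (fun z => F (g • z)) z = FC S k n F (g • z) := by
  unfold FC
  refine intervalIntegral.integral_congr fun t _ => ?_
  beta_reduce
  rw [hF.comm hk g (S.w_mem k hk t)]

lemma FC_τ {k : ℕ} (hk : k < S.D) (n : ℤ) {F : Ξ → ℂ} (hF : IsC S k F)
    (j : J) (z : Ξ) : FC S k n (fun z => F (S.τ j z)) z = FC S k n F (S.τ j z) := by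
  unfold FC
  refine intervalIntegral.integral_congr fun t _ => ?_
  beta_reduce
  rw [hF.τw hk j (S.w_mem k hk t)]

/-- zeroth coefficient: averaging -/
lemma FC_zero_isC [ContinuousSMul G Ξ] {k : ℕ} (hk : k < S.D) {F : Ξ → ℂ} (hF : IsC S k F) :
    IsC S (k + 1) (FC S k 0 F) := (FC_isW hk 0 hF).isC_succ hk

end Setup

section Meas
set_option linter.unusedSectionVars false

variable {Ξ G J : Type} [TopologicalSpace Ξ] [CompactSpace Ξ] [T2Space Ξ]
  [SecondCountableTopology Ξ] [MeasurableSpace Ξ] [BorelSpace Ξ] [Group G] [TopologicalSpace G]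
  [MulAction G Ξ] [ContinuousSMul G Ξ] {S : PSetup Ξ G J}

lemma cont_bdd {F : Ξ → ℂ} (hF : Continuous F) : ∃ C : ℝ, ∀ z, ‖F z‖ ≤ C := by
  obtain ⟨C, hC⟩ := isCompact_univ.exists_bound_of_continuousOn hF.continuousOn
  exact ⟨C, fun z => hC z (Set.mem_univ _)⟩

lemma cont_int {F : Ξ → ℂ} (hF : Continuous F) (θ : Measure Ξ) [IsFiniteMeasure θ] :
    Integrable F θ := by
  obtain ⟨C, hC⟩ := cont_bdd hF
  exact Integrable.of_bound hF.aestronglyMeasurable C (Eventually.of_forall hC)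

/-- Fubini for the Fourier coefficients -/
lemma integral_FC {k : ℕ} (hk : k < S.D) (n : ℤ) {F : Ξ → ℂ} (hF : Continuous F)
    (θ : Measure Ξ) [IsFiniteMeasure θ] :
    ∫ z, FC S k n F z ∂θ = ∫ t in (0 : ℝ)..1, Complex.exp (-(2 * Real.pi * n * t * Complex.I)) *
      ∫ z, F (S.w k t • z) ∂θ := by
  unfold FC
  rw [intervalIntegral.integral_of_le zero_le_one]
  have h1 : ∀ z, (∫ t in (0 : ℝ)..1, Complex.exp (-(2 * Real.pi * n * t * Complex.I)) *
      F (S.w k t • z)) = ∫ t in Set.Ioc (0 : ℝ) 1,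
        Complex.exp (-(2 * Real.pi * n * t * Complex.I)) * F (S.w k t • z) := fun z =>
    intervalIntegral.integral_of_le zero_le_one
  simp_rw [h1]
  rw [integral_integral_swap]
  · refine setIntegral_congr_fun measurableSet_Ioc fun t _ => ?_
    rw [← integral_const_mul]
  · obtain ⟨C, hC⟩ := cont_bdd hF
    refine Integrable.of_bound (C := C) ?_ ?_
    · have := continuous_uncurry hk hF (S := S)
      have h2 : Continuous (fun p : Ξ × ℝ =>
        Complex.exp (-(2 * Real.pi * n * p.2 * Complex.I)) * F (S.w k p.2 • p.1)) :=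
        (by fun_prop : Continuous fun p : Ξ × ℝ =>
          Complex.exp (-(2 * Real.pi * n * p.2 * Complex.I))).mul this
      exact h2.aestronglyMeasurable
    · refine Eventually.of_forall fun p => ?_
      simp only [Function.uncurry]
      rw [norm_mul]
      have h3 : ‖Complex.exp (-(2 * Real.pi * n * p.2 * Complex.I))‖ = 1 := by
        have : -(2 * Real.pi * n * p.2 * Complex.I) =
          ((-(2 * Real.pi * n * p.2) : ℝ) : ℂ) * Complex.I := by push_cast; ring
        rw [this, Complex.norm_exp_ofReal_mul_I]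
      rw [h3, one_mul]
      exact hC _

/-- the operator `J_k` on measures -/
lemma exists_J {k : ℕ} (hk : k < S.D) (θ : Measure Ξ) [IsProbabilityMeasure θ] :
    ∃ θ' : Measure Ξ, IsProbabilityMeasure θ' ∧
      ∀ F : Ξ → ℂ, Continuous F → ∫ z, F z ∂θ' = ∫ z, FC S k 0 F z ∂θ := by
  have hcont : Continuous (fun p : Ξ × ℝ => S.w k p.2 • p.1) :=
    ((S.w_cont k hk).comp continuous_snd).smul continuous_fst
  have hv : IsProbabilityMeasure ((volume : Measure ℝ).restrict (Set.Ioc (0 : ℝ) 1)) := by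
    refine ⟨?_⟩
    rw [Measure.restrict_apply_univ, Real.volume_Ioc]; simp
  refine ⟨(θ.prod ((volume : Measure ℝ).restrict (Set.Ioc (0 : ℝ) 1))).map
    (fun p => S.w k p.2 • p.1), Measure.isProbabilityMeasure_map hcont.aemeasurable, ?_⟩
  intro F hF
  rw [integral_map hcont.aemeasurable hF.aestronglyMeasurable]
  have h2 : Continuous (fun p : Ξ × ℝ => F (S.w k p.2 • p.1)) := hF.comp hcont
  obtain ⟨C, hC⟩ := cont_bdd hF
  rw [integral_prod _ (Integrable.of_bound h2.aestronglyMeasurable C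
    (Eventually.of_forall fun p => hC _))]
  refine integral_congr_ae (Eventually.of_forall fun z => ?_)
  simp only [FC, intervalIntegral.integral_of_le zero_le_one]
  refine setIntegral_congr_fun measurableSet_Ioc fun t _ => ?_
  simp

lemma exists_inv [Nonempty Ξ] (i : ℕ) (hi : i ≤ S.D) :
    ∃ θ : Measure Ξ, IsProbabilityMeasure θ ∧ ∀ F, IsC S (S.D - i) F →
      (∀ g : G, ∫ z, F (g • z) ∂θ = ∫ z, F z ∂θ) ∧
      (∀ j, ∫ z, F (S.τ j z) ∂θ = ∫ z, F z ∂θ) := by
  induction i with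
  | zero =>
    obtain ⟨z0⟩ := ‹Nonempty Ξ›
    refine ⟨Measure.dirac z0, inferInstance, fun F hF => ?_⟩
    have hconst : ∀ z, F z = F z0 := by
      intro z
      obtain ⟨g, hg⟩ := S.trans z0 z
      rw [← hg]
      refine hF.2 g ?_ z0
      rw [Nat.sub_zero, S.H_top]; trivial
    refine ⟨fun g => ?_, fun j => ?_⟩
    · refine integral_congr_ae (Eventually.of_forall fun z => ?_)
      beta_reduce
      rw [hconst, hconst z]
    · refine integral_congr_ae (Eventually.of_forall fun z => ?_)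
      beta_reduce
      rw [hconst, hconst z]
  | succ i ih =>
    obtain ⟨θ, hθ, h⟩ := ih (by omega)
    have hk : S.D - (i + 1) < S.D := by omega
    obtain ⟨θ', hθ', h'⟩ := exists_J hk θ
    refine ⟨θ', hθ', fun F hF => ?_⟩
    have hF' : IsC S (S.D - i) (FC S (S.D - (i + 1)) 0 F) := by
      have := FC_zero_isC hk hF
      rwa [show S.D - (i + 1) + 1 = S.D - i by omega] at this
    refine ⟨fun g => ?_, fun j => ?_⟩
    · rw [h' _ (hF.comp_smul hk.le g).1, h' _ hF.1, ← (h _ hF').1 g]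
      refine integral_congr_ae (Eventually.of_forall fun z => ?_)
      exact FC_smul hk 0 hF g z
    · rw [h' _ (hF.comp_τ hk.le j).1, h' _ hF.1, ← (h _ hF').2 j]
      refine integral_congr_ae (Eventually.of_forall fun z => ?_)
      exact FC_τ hk 0 hF j z

/-- a finite measure is determined by integrals of complex continuous functions -/
lemma meas_ext {θ θ' : Measure Ξ} [IsFiniteMeasure θ] [IsFiniteMeasure θ']
    (h : ∀ F : Ξ → ℂ, Continuous F → ∫ z, F z ∂θ = ∫ z, F z ∂θ') : θ = θ' := by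
  let := TopologicalSpace.metrizableSpaceMetric Ξ
  refine ext_of_forall_integral_eq_of_IsFiniteMeasure fun f => ?_
  have := h (fun z => ((f z : ℝ) : ℂ)) (by fun_prop)
  rw [integral_complex_ofReal, integral_complex_ofReal] at this
  exact_mod_cast this

lemma map_eq_of_integral {θ : Measure Ξ} [IsProbabilityMeasure θ] {T : Ξ → Ξ}
    (hT : Continuous T) (h : ∀ F : Ξ → ℂ, Continuous F → ∫ z, F (T z) ∂θ = ∫ z, F z ∂θ) :
    θ.map T = θ := by
  have : IsProbabilityMeasure (θ.map T) := Measure.isProbabilityMeasure_map hT.aemeasurable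
  refine meas_ext fun F hF => ?_
  rw [integral_map hT.aemeasurable hF.aestronglyMeasurable, h F hF]

lemma exists_nu [Nonempty Ξ] (S : PSetup Ξ G J) :
    ∃ ν : Measure Ξ, IsProbabilityMeasure ν ∧ (∀ g : G, ν.map (fun z => g • z) = ν) ∧
      (∀ j, ν.map (S.τ j) = ν) := by
  obtain ⟨ν, hν, h⟩ := exists_inv (S := S) S.D le_rfl
  rw [Nat.sub_self] at h
  have h0 : ∀ F : Ξ → ℂ, Continuous F → IsC S 0 F := fun F hF => ⟨hF, fun h hh z => by
    rw [S.H_zero, Subgroup.mem_bot] at hh; rw [hh, one_smul]⟩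
  exact ⟨ν, hν, fun g => map_eq_of_integral (continuous_const_smul g)
    (fun F hF => (h F (h0 F hF)).1 g), fun j => map_eq_of_integral (S.τ_cont j)
    (fun F hF => (h F (h0 F hF)).2 j)⟩

end Meas

end MPd26.Nil.PM
end

section
/-!
# MP_d26cd8_an, module P, part 2: approximation in L², Lemma A
-/
set_option autoImplicit false
set_option linter.unusedSectionVars false

open MeasureTheory Filter Topology
open scoped ComplexConjugate ENNReal NNReal

namespace MPd26.Nil.PM

section Near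

variable {Ξ : Type} [TopologicalSpace Ξ] [CompactSpace Ξ] [T2Space Ξ]
  [SecondCountableTopology Ξ] [MeasurableSpace Ξ] [BorelSpace Ξ]
  {ν : Measure Ξ} [IsProbabilityMeasure ν]

/-- `v` is an `L²`-limit of functions in `𝒞` -/
def Near (ν : Measure Ξ) (𝒞 : (Ξ → ℂ) → Prop) (v : Ξ → ℂ) : Prop :=
  ∀ ε : ℝ≥0∞, ε ≠ 0 → ∃ F, 𝒞 F ∧ Continuous F ∧ eLpNorm (v - F) 2 ν ≤ ε

lemma cont_memLp {F : Ξ → ℂ} (hF : Continuous F) (p : ℝ≥0∞) : MemLp F p ν := by
  obtain ⟨C, hC⟩ := cont_bdd hF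
  exact MemLp.of_bound hF.aestronglyMeasurable C (Eventually.of_forall hC)

lemma ae_eq_of_eLpNorm_small {f g : Ξ → ℂ} (hf : AEStronglyMeasurable f ν)
    (hg : AEStronglyMeasurable g ν) (C : ℝ≥0) (h : ∀ ε : ℝ≥0∞, ε ≠ 0 → ε ≠ ∞ →
      eLpNorm (f - g) 2 ν ≤ C * ε) : f =ᵐ[ν] g := by
  have h0 : eLpNorm (f - g) 2 ν = 0 := by
    by_contra hne
    by_cases hC : C = 0
    · have := h 1 one_ne_zero ENNReal.one_ne_top
      rw [hC] at this
      simp only [ENNReal.coe_zero, zero_mul, nonpos_iff_eq_zero] at this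
      exact hne this
    · set N := eLpNorm (f - g) 2 ν with hN
      have hNtop : N ≠ ∞ := by
        have := h 1 one_ne_zero ENNReal.one_ne_top
        rw [mul_one] at this
        exact ne_top_of_le_ne_top ENNReal.coe_ne_top this
      have h2C : (2 * C : ℝ≥0∞) ≠ 0 := by
        simp [hC]
      have h2Ct : (2 * C : ℝ≥0∞) ≠ ∞ := ENNReal.mul_ne_top (by norm_num) ENNReal.coe_ne_top
      have h1 := h (N / (2 * C)) (ENNReal.div_ne_zero.2 ⟨hne, h2Ct⟩)
        (ENNReal.div_ne_top hNtop h2C)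
      have h3 : (C : ℝ≥0∞) * (N / (2 * C)) = N / 2 := by
        rw [ENNReal.div_eq_inv_mul, ENNReal.mul_inv (Or.inl (by norm_num)) (Or.inl (by norm_num)),
          ENNReal.div_eq_inv_mul]
        calc (C : ℝ≥0∞) * (2⁻¹ * (C : ℝ≥0∞)⁻¹ * N) = (C * (C : ℝ≥0∞)⁻¹) * (2⁻¹ * N) := by ring
          _ = 2⁻¹ * N := by
            rw [ENNReal.mul_inv_cancel (by exact_mod_cast hC) ENNReal.coe_ne_top, one_mul]
      rw [h3] at h1
      exact absurd h1 (not_le.2 (ENNReal.half_lt_self hne hNtop))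
  have := (eLpNorm_eq_zero_iff (hf.sub hg) (by norm_num)).1 h0
  filter_upwards [this] with z hz
  have : f z - g z = 0 := hz
  exact sub_eq_zero.1 this

lemma near_transfer {𝒞 : (Ξ → ℂ) → Prop} {v : Ξ → ℂ} (hv : AEStronglyMeasurable v ν)
    (hn : Near ν 𝒞 v) {φ ψ : Ξ → Ξ} (hφ : MeasurePreserving φ ν ν)
    (hψ : MeasurePreserving ψ ν ν) (a : ℂ) (h : ∀ F, 𝒞 F → ∀ z, F (φ z) = a * F (ψ z)) :
    (fun z => v (φ z)) =ᵐ[ν] fun z => a * v (ψ z) := by
  have hv1 : AEStronglyMeasurable (fun z => v (φ z)) ν := hv.comp_measurePreserving hφ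
  have hv2 : AEStronglyMeasurable (fun z => v (ψ z)) ν := hv.comp_measurePreserving hψ
  refine ae_eq_of_eLpNorm_small hv1 (hv2.const_mul a) (1 + ‖a‖₊) fun ε hε _ => ?_
  obtain ⟨F, hF, hFc, hFe⟩ := hn ε hε
  have e1 : (fun z => v (φ z)) - (fun z => a * v (ψ z)) =
      (fun z => (v - F) (φ z)) + (fun z => -(a • ((v - F) (ψ z)))) := by
    funext z
    simp only [Pi.sub_apply, Pi.add_apply, smul_eq_mul]
    rw [h F hF z]
    ring
  have hvF : AEStronglyMeasurable (v - F) ν := hv.sub hFc.aestronglyMeasurable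
  have m1 : eLpNorm (fun z => (v - F) (φ z)) 2 ν = eLpNorm (v - F) 2 ν :=
    eLpNorm_comp_measurePreserving hvF hφ
  have m2 : eLpNorm (fun z => (v - F) (ψ z)) 2 ν = eLpNorm (v - F) 2 ν :=
    eLpNorm_comp_measurePreserving hvF hψ
  have m3 : eLpNorm (fun z => -(a • ((v - F) (ψ z)))) 2 ν = ‖a‖₊ * eLpNorm (v - F) 2 ν := by
    have : (fun z => -(a • ((v - F) (ψ z)))) = -(a • fun z => (v - F) (ψ z)) := rfl
    rw [this, eLpNorm_neg, eLpNorm_const_smul, m2]
    rfl
  rw [e1]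
  refine (eLpNorm_add_le (hvF.comp_measurePreserving hφ)
    ((hvF.comp_measurePreserving hψ).const_smul a).neg (by norm_num)).trans ?_
  change eLpNorm (fun z => (v - F) (φ z)) 2 ν +
    eLpNorm (fun z => -(a • ((v - F) (ψ z)))) 2 ν ≤ _
  rw [m1, m3]
  push_cast
  rw [add_mul, one_mul]
  gcongr

lemma Near.lip {𝒞 𝒞' : (Ξ → ℂ) → Prop} {v : Ξ → ℂ} (hn : Near ν 𝒞 v) {g : ℂ → ℂ} {K : ℝ≥0}
    (hg : LipschitzWith K g) (h : ∀ F, 𝒞 F → 𝒞' (fun z => g (F z))) :
    Near ν 𝒞' (fun z => g (v z)) := by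
  intro ε hε
  have hK : ((K : ℝ≥0∞) + 1) ≠ ∞ := ENNReal.add_ne_top.2 ⟨ENNReal.coe_ne_top, ENNReal.one_ne_top⟩
  obtain ⟨F, hF, hFc, hFe⟩ := hn (ε / (K + 1)) (ENNReal.div_ne_zero.2 ⟨hε, hK⟩)
  refine ⟨_, h F hF, hg.continuous.comp hFc, ?_⟩
  have h1 : eLpNorm ((fun z => g (v z)) - fun z => g (F z)) 2 ν ≤ K * eLpNorm (v - F) 2 ν := by
    have := eLpNorm_le_nnreal_smul_eLpNorm_of_ae_le_mul (c := K)
      (f := (fun z => g (v z)) - fun z => g (F z)) (g := v - F) (μ := ν)
      (Eventually.of_forall fun z => ?_) 2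
    · simpa [ENNReal.smul_def] using this
    · have := hg.dist_le_mul (v z) (F z)
      rw [dist_eq_norm, dist_eq_norm] at this
      exact_mod_cast this
  calc eLpNorm ((fun z => g (v z)) - fun z => g (F z)) 2 ν ≤ K * eLpNorm (v - F) 2 ν := h1
    _ ≤ (K + 1) * (ε / (K + 1)) := by
      gcongr
      exact le_self_add
    _ ≤ ε := ENNReal.mul_div_le

lemma Near.mono {𝒞 𝒞' : (Ξ → ℂ) → Prop} {v : Ξ → ℂ} (hn : Near ν 𝒞 v)
    (h : ∀ F, 𝒞 F → 𝒞' F) : Near ν 𝒞' v := fun ε hε => by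
  obtain ⟨F, hF, hFc, hFe⟩ := hn ε hε
  exact ⟨F, h F hF, hFc, hFe⟩

lemma Near.congr {𝒞 : (Ξ → ℂ) → Prop} {v w : Ξ → ℂ} (hn : Near ν 𝒞 v)
    (h : v =ᵐ[ν] w) : Near ν 𝒞 w := fun ε hε => by
  obtain ⟨F, hF, hFc, hFe⟩ := hn ε hε
  exact ⟨F, hF, hFc, (eLpNorm_congr_ae (h.symm.sub (ae_eq_refl F))).trans_le hFe⟩

/-- orthogonality to the near class gives zero -/
lemma zero_of_near_orth {𝒞 : (Ξ → ℂ) → Prop} {x : Ξ → ℂ} (hx : MemLp x 2 ν) (hn : Near ν 𝒞 x)
    (ho : ∀ F, 𝒞 F → Continuous F → ∫ z, conj (x z) * F z ∂ν = 0) : x =ᵐ[ν] 0 := by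
  set X : Lp ℂ 2 ν := hx.toLp x with hX
  have h0 : X = 0 := by
    rw [← inner_self_eq_zero (𝕜 := ℂ)]
    by_contra hne
    have hpos : 0 < ‖(inner ℂ X X : ℂ)‖ := norm_pos_iff.2 hne
    have hXpos : 0 < ‖X‖ + 1 := by positivity
    obtain ⟨F, hF, hFc, hFe⟩ := hn (ENNReal.ofReal (‖(inner ℂ X X : ℂ)‖ / (2 * (‖X‖ + 1))))
      (by
        rw [Ne, ENNReal.ofReal_eq_zero, not_le]; positivity)
    have hFm : MemLp F 2 ν := cont_memLp hFc 2
    have h1 : inner ℂ X (hFm.toLp F) = (0 : ℂ) := by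
      rw [L2.inner_def]
      rw [← ho F hF hFc]
      refine integral_congr_ae ?_
      filter_upwards [hx.coeFn_toLp, hFm.coeFn_toLp] with z h1 h2
      rw [hX, h1, h2]
      simp [mul_comm]
    have h2 : (inner ℂ X X : ℂ) = inner ℂ X (X - hFm.toLp F) := by
      rw [inner_sub_right, h1, sub_zero]
    have h3 : ‖X - hFm.toLp F‖ ≤ ‖(inner ℂ X X : ℂ)‖ / (2 * (‖X‖ + 1)) := by
      rw [hX, ← MemLp.toLp_sub, Lp.norm_toLp]
      exact ENNReal.toReal_le_of_le_ofReal (by positivity) hFe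
    have h4 : ‖(inner ℂ X X : ℂ)‖ ≤ ‖X‖ * (‖(inner ℂ X X : ℂ)‖ / (2 * (‖X‖ + 1))) := by
      calc ‖(inner ℂ X X : ℂ)‖ = ‖(inner ℂ X (X - hFm.toLp F) : ℂ)‖ := by rw [← h2]
        _ ≤ ‖X‖ * ‖X - hFm.toLp F‖ := norm_inner_le_norm _ _
        _ ≤ _ := by gcongr
    have h5 : ‖X‖ * (‖(inner ℂ X X : ℂ)‖ / (2 * (‖X‖ + 1))) ≤ ‖(inner ℂ X X : ℂ)‖ / 2 := by
      have : ‖X‖ * (‖(inner ℂ X X : ℂ)‖ / (2 * (‖X‖ + 1))) =
        (‖X‖ / (‖X‖ + 1)) * (‖(inner ℂ X X : ℂ)‖ / 2) := by
        field_simp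
      rw [this]
      have h6 : ‖X‖ / (‖X‖ + 1) ≤ 1 := by
        rw [div_le_one hXpos]; linarith
      nlinarith
    linarith
  have h1 := hx.coeFn_toLp
  rw [← hX, h0] at h1
  exact h1.symm.trans (Lp.coeFn_zero _ _ _)

end Near

section LemmaA

variable {Ξ G J : Type} [TopologicalSpace Ξ] [CompactSpace Ξ] [T2Space Ξ]
  [SecondCountableTopology Ξ] [MeasurableSpace Ξ] [BorelSpace Ξ] [Group G] [TopologicalSpace G]
  [MulAction G Ξ] [ContinuousSMul G Ξ] {S : PSetup Ξ G J}
  {ν : Measure Ξ} [IsProbabilityMeasure ν]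

/-- every invariant probability agrees with `ν` on the `H k`-invariant functions -/
def UE (S : PSetup Ξ G J) (ν : Measure Ξ) (k : ℕ) : Prop :=
  ∀ θ : Measure Ξ, IsProbabilityMeasure θ → (∀ j, θ.map (S.τ j) = θ) →
    ∀ F, IsC S k F → ∫ z, F z ∂θ = ∫ z, F z ∂ν

lemma lemmaA0 (hντ : ∀ j, MeasurePreserving (S.τ j) ν ν) {k : ℕ}
    (hUE : UE S ν k) {w : Ξ → ℝ} (hw : Measurable w) (hw0 : ∀ z, 0 ≤ w z) (hw2 : MemLp w 2 ν)
    (hinv : ∀ j, (fun z => w (S.τ j z)) =ᵐ[ν] w)
    (hn : Near ν (IsC S k) (fun z => (w z : ℂ))) : ∃ c : ℝ, w =ᵐ[ν] fun _ => c := by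
  have hwi : Integrable w ν := hw2.integrable (by norm_num)
  set m : ℝ := ∫ z, w z ∂ν with hm
  have hm0 : 0 ≤ m := integral_nonneg hw0
  rcases hm0.eq_or_lt with h0 | hpos
  · refine ⟨0, ?_⟩
    have := (integral_eq_zero_iff_of_nonneg hw0 hwi).1 h0.symm
    exact this
  refine ⟨m, ?_⟩
  have hlint : ∫⁻ z, ENNReal.ofReal (w z) ∂ν = ENNReal.ofReal m :=
    (ofReal_integral_eq_lintegral_ofReal hwi (Eventually.of_forall hw0)).symm
  have hmne : ENNReal.ofReal m ≠ 0 := by
    rw [Ne, ENNReal.ofReal_eq_zero, not_le]; exact hpos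
  set θ : Measure Ξ := (ENNReal.ofReal m)⁻¹ • ν.withDensity (fun z => ENNReal.ofReal (w z)) with hθ
  have hθp : IsProbabilityMeasure θ := by
    refine ⟨?_⟩
    rw [hθ, Measure.smul_apply, withDensity_apply _ MeasurableSet.univ, setLIntegral_univ, hlint,
      smul_eq_mul, ENNReal.inv_mul_cancel hmne ENNReal.ofReal_ne_top]
  have hθinv : ∀ j, θ.map (S.τ j) = θ := by
    intro j
    have hmeas : Measurable (S.τ j) := (S.τ_cont j).measurable
    rw [hθ, Measure.map_smul]
    congr 1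
    ext s hs
    rw [Measure.map_apply hmeas hs, withDensity_apply _ (hmeas hs), withDensity_apply _ hs]
    have h1 : ∫⁻ z in S.τ j ⁻¹' s, ENNReal.ofReal (w z) ∂ν =
        ∫⁻ z in S.τ j ⁻¹' s, ENNReal.ofReal (w (S.τ j z)) ∂ν := by
      refine lintegral_congr_ae (ae_restrict_of_ae ?_)
      filter_upwards [hinv j] with z hz
      rw [hz]
    rw [h1]
    have h2 := setLIntegral_map (μ := ν) (g := S.τ j) (f := fun z => ENNReal.ofReal (w z)) hs
      (hw.ennreal_ofReal) hmeas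
    rw [← h2, (hντ j).map_eq]
  have key : ∀ F, IsC S k F → ∫ z, (w z : ℂ) * F z ∂ν = m * ∫ z, F z ∂ν := by
    intro F hF
    have h1 := hUE θ hθp hθinv F hF
    rw [hθ, integral_smul_measure,
      integral_withDensity_eq_integral_toReal_smul hw.ennreal_ofReal
        (Eventually.of_forall fun z => ENNReal.ofReal_lt_top)] at h1
    rw [← h1]
    have h2 : ∀ z, (ENNReal.ofReal (w z)).toReal • F z = (w z : ℂ) * F z := by
      intro z
      rw [ENNReal.toReal_ofReal (hw0 z), Complex.real_smul]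
    simp_rw [h2]
    rw [ENNReal.toReal_inv, ENNReal.toReal_ofReal hm0, Complex.real_smul, ← mul_assoc]
    have : (m : ℂ) ≠ 0 := by exact_mod_cast hpos.ne'
    push_cast
    rw [mul_inv_cancel₀ this, one_mul]
  set x : Ξ → ℂ := fun z => ((w z - m : ℝ) : ℂ) with hx
  have hxm : MemLp x 2 ν := (hw2.sub (memLp_const m)).ofReal
  have hxn : Near ν (IsC S k) x := by
    intro ε hε
    obtain ⟨F, hF, hFc, hFe⟩ := hn ε hε
    refine ⟨fun z => F z - m, ⟨hFc.sub continuous_const, fun h hh z => by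
      beta_reduce; rw [hF.2 h hh z]⟩, hFc.sub continuous_const, ?_⟩
    have : x - (fun z => F z - m) = (fun z => (w z : ℂ)) - F := by
      funext z
      simp [hx]
    rw [this]; exact hFe
  have hx0 := zero_of_near_orth hxm hxn (fun F hF hFc => by
    have h1 : ∀ z, conj (x z) * F z = (w z : ℂ) * F z - m * F z := by
      intro z
      simp only [hx, Complex.conj_ofReal]
      push_cast; ring
    simp_rw [h1]
    rw [integral_sub, key F hF, integral_const_mul, sub_self]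
    · exact ((hw2.ofReal.mul (cont_memLp hFc 2)
        (p := 2) (q := 2) (r := 1) : MemLp _ 1 ν).integrable le_rfl).congr
        (Eventually.of_forall fun z => mul_comm _ _)
    · exact (cont_int hFc ν).const_mul _)
  filter_upwards [hx0] with z hz
  have : ((w z - m : ℝ) : ℂ) = 0 := hz
  have h3 : w z - m = 0 := by exact_mod_cast this
  linarith

lemma lip_pos (a : ℂ) : LipschitzWith ‖a‖₊ (fun z : ℂ => ((max (a * z).re 0 : ℝ) : ℂ)) := by
  refine LipschitzWith.of_dist_le_mul fun z w => ?_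
  rw [dist_eq_norm, dist_eq_norm, ← Complex.ofReal_sub, Complex.norm_real]
  have h1 : ‖max (a * z).re 0 - max (a * w).re 0‖ ≤ ‖(a * z).re - (a * w).re‖ := by
    have := abs_max_sub_max_le_abs (a * z).re (a * w).re 0
    simpa using this
  refine h1.trans ?_
  rw [← Complex.sub_re, ← mul_sub, coe_nnnorm, ← norm_mul]
  exact Complex.abs_re_le_norm _

/-- Lemma A -/
lemma lemmaA (hντ : ∀ j, MeasurePreserving (S.τ j) ν ν) {k : ℕ}
    (hUE : UE S ν k) {v : Ξ → ℂ} (hv2 : MemLp v 2 ν)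
    (hinv : ∀ j, (fun z => v (S.τ j z)) =ᵐ[ν] v)
    (hn : Near ν (IsC S k) v) : ∃ c : ℂ, v =ᵐ[ν] fun _ => c := by
  -- measurable representative
  set v' : Ξ → ℂ := hv2.1.mk v with hv'
  have hvv' : v =ᵐ[ν] v' := hv2.1.ae_eq_mk
  have hvm : Measurable v' := hv2.1.measurable_mk
  have hv2' : MemLp v' 2 ν := hv2.ae_eq hvv'
  have hinv' : ∀ j, (fun z => v' (S.τ j z)) =ᵐ[ν] v' := fun j =>
    (((hντ j).quasiMeasurePreserving.ae_eq hvv').symm.trans (hinv j)).trans hvv'
  have hn' : Near ν (IsC S k) v' := hn.congr hvv'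
  have step : ∀ a : ℂ, ∃ c : ℝ, (fun z => max (a * v' z).re 0) =ᵐ[ν] fun _ => c := by
    intro a
    refine lemmaA0 hντ hUE (w := fun z => max (a * v' z).re 0) ?_ (fun z => le_max_right _ _) ?_
      (fun j => ?_) ?_
    · exact (Complex.measurable_re.comp (measurable_const.mul hvm)).max measurable_const
    · refine (hv2'.const_mul a).mono ((Complex.measurable_re.comp
        (measurable_const.mul hvm)).max measurable_const).aestronglyMeasurable
        (Eventually.of_forall fun z => ?_)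
      rw [Real.norm_eq_abs, abs_of_nonneg (le_max_right _ _)]
      exact max_le (Complex.re_le_norm _) (norm_nonneg _)
    · filter_upwards [hinv' j] with z hz
      rw [hz]
    · have hl := lip_pos a
      set g : ℂ → ℂ := fun z : ℂ => ((max (a * z).re 0 : ℝ) : ℂ) with hg
      have hcomp : ∀ F, IsC S k F → IsC S k (fun z => g (F z)) := fun F hF =>
        hF.comp hl.continuous
      have h5 : Near ν (IsC S k) (fun z => g (v' z)) := hn'.lip hl hcomp
      exact h5
  obtain ⟨c1, h1⟩ := step 1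
  obtain ⟨c2, h2⟩ := step (-1)
  obtain ⟨c3, h3⟩ := step (-Complex.I)
  obtain ⟨c4, h4⟩ := step Complex.I
  refine ⟨((c1 - c2 : ℝ) : ℂ) + ((c3 - c4 : ℝ) : ℂ) * Complex.I, ?_⟩
  filter_upwards [hvv', h1, h2, h3, h4] with z hz e1 e2 e3 e4
  have pm : ∀ r : ℝ, max r 0 - max (-r) 0 = r := fun r => by
    rcases le_total 0 r with h | h
    · rw [max_eq_left h, max_eq_right (by linarith)]; ring
    · rw [max_eq_right h, max_eq_left (by linarith)]; ring
  have r1 : c1 - c2 = (v' z).re := by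
    rw [← e1, ← e2]
    simpa using pm (v' z).re
  have r2 : c3 - c4 = (v' z).im := by
    rw [← e3, ← e4]
    simpa using pm (v' z).im
  rw [hz, r1, r2]
  exact (Complex.re_add_im _).symm

end LemmaA

end MPd26.Nil.PM
end

section
/-!
# MP_d26cd8_an, module P, part 3: Lemma B, the character
-/
set_option autoImplicit false
set_option linter.unusedSectionVars false

open MeasureTheory Filter Topology
open scoped ComplexConjugate ENNReal NNReal

namespace MPd26.Nil.PM

/-! ### the retraction to the unit disc -/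

/-- radial retraction to the unit disc -/
noncomputable def rho (z : ℂ) : ℂ := ((max 1 ‖z‖ : ℝ) : ℂ)⁻¹ * z

lemma rho_norm_le (z : ℂ) : ‖rho z‖ ≤ 1 := by
  unfold rho
  have h : (0 : ℝ) < max 1 ‖z‖ := lt_max_of_lt_left one_pos
  rw [norm_mul, norm_inv, Complex.norm_real, Real.norm_eq_abs, abs_of_pos h,
    inv_mul_le_iff₀ h, mul_one]
  exact le_max_right _ _

lemma rho_of_norm_one {z : ℂ} (h : ‖z‖ = 1) : rho z = z := by
  unfold rho; rw [h]; simp

lemma rho_mul {c : ℂ} (hc : ‖c‖ = 1) (z : ℂ) : rho (c * z) = c * rho z := by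
  unfold rho; rw [norm_mul, hc, one_mul]; ring

lemma rho_lip : LipschitzWith 2 rho := by
  refine LipschitzWith.of_dist_le_mul fun z w => ?_
  rw [dist_eq_norm, dist_eq_norm]
  set a : ℝ := max 1 ‖z‖ with ha
  set b : ℝ := max 1 ‖w‖ with hb
  have ha1 : 1 ≤ a := le_max_left _ _
  have hb1 : 1 ≤ b := le_max_left _ _
  have ha0 : (a : ℂ) ≠ 0 := by exact_mod_cast (by linarith : a ≠ 0)
  have hb0 : (b : ℂ) ≠ 0 := by exact_mod_cast (by linarith : b ≠ 0)
  have e : rho z - rho w = (a : ℂ)⁻¹ * ((z - w) - ((a : ℂ) - b) * ((b : ℂ)⁻¹ * w)) := by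
    unfold rho
    rw [← ha, ← hb]
    field_simp
    ring
  rw [e, norm_mul, norm_inv, Complex.norm_real, Real.norm_eq_abs, abs_of_pos (by linarith)]
  have h1 : ‖(z - w) - ((a : ℂ) - b) * ((b : ℂ)⁻¹ * w)‖ ≤ ‖z - w‖ + ‖z - w‖ := by
    refine (norm_sub_le _ _).trans ?_
    gcongr
    rw [norm_mul]
    have h2 : ‖(b : ℂ)⁻¹ * w‖ ≤ 1 := rho_norm_le w
    have h3 : ‖(a : ℂ) - b‖ ≤ ‖z - w‖ := by
      rw [← Complex.ofReal_sub, Complex.norm_real, Real.norm_eq_abs, ha, hb]
      refine (abs_max_sub_max_le_max 1 ‖z‖ 1 ‖w‖).trans ?_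
      rw [sub_self, abs_zero, max_eq_right (abs_nonneg _)]
      exact abs_norm_sub_norm_le z w
    calc ‖(a : ℂ) - b‖ * ‖(b : ℂ)⁻¹ * w‖ ≤ ‖z - w‖ * 1 := by gcongr
      _ = ‖z - w‖ := mul_one _
  have h4 : a⁻¹ ≤ 1 := inv_le_one_of_one_le₀ ha1
  calc a⁻¹ * ‖(z - w) - ((a : ℂ) - b) * ((b : ℂ)⁻¹ * w)‖ ≤ 1 * (‖z - w‖ + ‖z - w‖) := by
        gcongr
    _ = ((2 : ℝ≥0) : ℝ) * ‖z - w‖ := by push_cast; ring

section B

variable {Ξ G J : Type} [TopologicalSpace Ξ] [CompactSpace Ξ] [T2Space Ξ]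
  [SecondCountableTopology Ξ] [MeasurableSpace Ξ] [BorelSpace Ξ] [Group G] [TopologicalSpace G]
  [IsTopologicalGroup G] [MulAction G Ξ] [ContinuousSMul G Ξ] {S : PSetup Ξ G J}
  {ν : Measure Ξ} [IsProbabilityMeasure ν]

lemma norm_e (n : ℤ) (s : ℝ) : ‖Complex.exp (2 * Real.pi * n * s * Complex.I)‖ = 1 := by
  have : (2 * Real.pi * n * s * Complex.I : ℂ) =
    ((2 * Real.pi * n * s : ℝ) : ℂ) * Complex.I := by push_cast; ring
  rw [this, Complex.norm_exp_ofReal_mul_I]

lemma W_char {k : ℕ} (hk : k < S.D) (n : ℤ) {h : G} (hh : h ∈ S.H (k + 1)) :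
    ∃ c : ℂ, ‖c‖ = 1 ∧ ∀ F, IsW S k n F → ∀ z, F (h • z) = c * F z := by
  obtain ⟨t, h', hh', e⟩ := S.H_succ k hk h hh
  refine ⟨_, norm_e n t, fun F hF z => ?_⟩
  rw [e, mul_smul, hF.2, hF.1.2 h' hh']

/-- the correlation of `u ∘ h` and `u` -/
def Dh (u : Ξ → ℂ) (h : G) (z : Ξ) : ℂ := u (h • z) * conj (u z)

lemma W_D_isC {k : ℕ} (hk : k < S.D) (n : ℤ) {F : Ξ → ℂ} (hF : IsW S k n F) (h : G) :
    IsC S (k + 1) (Dh (fun z => rho (F z)) h) := by
  have hc : Continuous (fun z => rho (F z)) := rho_lip.continuous.comp hF.1.1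
  refine ⟨(hc.comp (continuous_const_smul h)).mul (Complex.continuous_conj.comp hc),
    fun g hg z => ?_⟩
  obtain ⟨c, hc1, hcF⟩ := W_char hk n hg
  unfold Dh
  beta_reduce
  rw [hF.1.comm hk h hg, hcF F hF, hcF F hF, rho_mul hc1, rho_mul hc1, map_mul]
  have : c * conj c = 1 := by rw [Complex.mul_conj, Complex.normSq_eq_norm_sq, hc1]; norm_num
  calc c * rho (F (h • z)) * (conj c * conj (rho (F z))) =
      (c * conj c) * (rho (F (h • z)) * conj (rho (F z))) := by ring
    _ = _ := by rw [this, one_mul]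

variable (hνG : ∀ g : G, MeasurePreserving (fun z : Ξ => g • z) ν ν)

include hνG

lemma D_memLp {u : Ξ → ℂ} (hu : MemLp u 2 ν) (h1 : ∀ᵐ z ∂ν, ‖u z‖ = 1) (h : G) :
    MemLp (Dh u h) 2 ν := by
  have h1' : ∀ᵐ z ∂ν, ‖u (h • z)‖ = 1 := (hνG h).quasiMeasurePreserving.ae h1
  have hm : AEStronglyMeasurable (fun z => u (h • z)) ν := hu.1.comp_measurePreserving (hνG h)
  refine MemLp.of_bound (hm.mul (Complex.continuous_conj.comp_aestronglyMeasurable hu.1)) 1 ?_
  filter_upwards [h1, h1'] with z e1 e2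
  unfold Dh
  rw [norm_mul, RCLike.norm_conj, e1, e2, one_mul]

lemma D_near {k : ℕ} (hk : k < S.D) (n : ℤ) {u : Ξ → ℂ} (hu : MemLp u 2 ν)
    (h1 : ∀ᵐ z ∂ν, ‖u z‖ = 1) (hn : Near ν (IsW S k n) u) (h : G) :
    Near ν (IsC S (k + 1)) (Dh u h) := by
  intro ε hε
  obtain ⟨F, hF, hFc, hFe⟩ := hn (ε / 4) (ENNReal.div_ne_zero.2 ⟨hε, by norm_num⟩)
  have hD := W_D_isC hk n hF h
  refine ⟨_, hD, hD.1, ?_⟩
  have h1' : ∀ᵐ z ∂ν, ‖u (h • z)‖ = 1 := (hνG h).quasiMeasurePreserving.ae h1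
  have hvF : AEStronglyMeasurable (u - F) ν := hu.1.sub hFc.aestronglyMeasurable
  have hvF2 : AEStronglyMeasurable (fun z => (u - F) (h • z)) ν :=
    hvF.comp_measurePreserving (hνG h)
  have hpt : ∀ᵐ z ∂ν, ‖(Dh u h - Dh (fun z => rho (F z)) h) z‖ ≤
      ‖2 * ‖(u - F) (h • z)‖ + 2 * ‖(u - F) z‖‖ := by
    filter_upwards [h1, h1'] with z e1 e2
    have r1 : rho (u z) = u z := rho_of_norm_one e1
    have r2 : rho (u (h • z)) = u (h • z) := rho_of_norm_one e2
    have l1 : ‖rho (u z) - rho (F z)‖ ≤ 2 * ‖u z - F z‖ := by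
      have := rho_lip.dist_le_mul (u z) (F z)
      rw [dist_eq_norm, dist_eq_norm] at this
      exact_mod_cast this
    have l2 : ‖rho (u (h • z)) - rho (F (h • z))‖ ≤ 2 * ‖u (h • z) - F (h • z)‖ := by
      have := rho_lip.dist_le_mul (u (h • z)) (F (h • z))
      rw [dist_eq_norm, dist_eq_norm] at this
      exact_mod_cast this
    rw [Real.norm_eq_abs, abs_of_nonneg (by positivity)]
    simp only [Pi.sub_apply, Dh]
    have e : u (h • z) * conj (u z) - rho (F (h • z)) * conj (rho (F z)) =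
      (rho (u (h • z)) - rho (F (h • z))) * conj (rho (u z)) +
        rho (F (h • z)) * conj (rho (u z) - rho (F z)) := by
      rw [map_sub, r1, r2]; ring
    rw [e]
    refine (norm_add_le _ _).trans ?_
    rw [norm_mul, norm_mul, RCLike.norm_conj, RCLike.norm_conj]
    have b1 := rho_norm_le (u z)
    have b2 := rho_norm_le (F (h • z))
    calc ‖rho (u (h • z)) - rho (F (h • z))‖ * ‖rho (u z)‖ +
          ‖rho (F (h • z))‖ * ‖rho (u z) - rho (F z)‖
        ≤ ‖rho (u (h • z)) - rho (F (h • z))‖ * 1 + 1 * ‖rho (u z) - rho (F z)‖ := by gcongr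
      _ = ‖rho (u (h • z)) - rho (F (h • z))‖ + ‖rho (u z) - rho (F z)‖ := by ring
      _ ≤ _ := add_le_add l2 l1
  refine (eLpNorm_mono_ae hpt).trans ?_
  have m0 : (fun z => 2 * ‖(u - F) (h • z)‖ + 2 * ‖(u - F) z‖) =
      (fun z => (2 : ℝ) • ‖(u - F) (h • z)‖) + fun z => (2 : ℝ) • ‖(u - F) z‖ := rfl
  rw [m0]
  refine (eLpNorm_add_le (hvF2.norm.const_smul (2 : ℝ)) (hvF.norm.const_smul (2 : ℝ))
    (by norm_num)).trans ?_
  have m1 : eLpNorm (fun z => (2 : ℝ) • ‖(u - F) z‖) 2 ν ≤ 2 * (ε / 4) := by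
    have : (fun z => (2 : ℝ) • ‖(u - F) z‖) = (2 : ℝ) • fun z => ‖(u - F) z‖ := rfl
    rw [this, eLpNorm_const_smul, eLpNorm_norm]
    have h2 : ‖(2 : ℝ)‖ₑ = 2 := by
      rw [← ofReal_norm]; norm_num
    rw [h2]; gcongr
  have m2 : eLpNorm (fun z => (2 : ℝ) • ‖(u - F) (h • z)‖) 2 ν ≤ 2 * (ε / 4) := by
    have : (fun z => (2 : ℝ) • ‖(u - F) (h • z)‖) = (2 : ℝ) • fun z => ‖(u - F) (h • z)‖ := rfl
    rw [this, eLpNorm_const_smul, eLpNorm_norm]
    have h2 : ‖(2 : ℝ)‖ₑ = 2 := by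
      rw [← ofReal_norm]; norm_num
    have h3 : eLpNorm (fun z => (u - F) (h • z)) 2 ν = eLpNorm (u - F) 2 ν :=
      eLpNorm_comp_measurePreserving hvF (hνG h)
    rw [h2, h3]; gcongr
  refine (add_le_add m2 m1).trans ?_
  have : 2 * (ε / 4) + 2 * (ε / 4) = 4 * (ε / 4) := by ring
  rw [this]
  exact ENNReal.mul_div_le

/-- the correlation as a function of `h` -/
noncomputable def corr (ν : Measure Ξ) (u : Ξ → ℂ) (h : G) : ℂ := ∫ z, Dh u h z ∂ν

lemma corr_cont {u : Ξ → ℂ} (hu : MemLp u 2 ν) (h1 : ∀ᵐ z ∂ν, ‖u z‖ = 1)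
    {𝒞 : (Ξ → ℂ) → Prop} (hn : Near ν 𝒞 u) : Continuous (fun h : G => corr ν u h) := by
  refine continuous_of_uniform_approx_of_continuous fun V hV => ?_
  obtain ⟨ε, hε, hεV⟩ := Metric.mem_uniformity_dist.1 hV
  obtain ⟨F, -, hFc, hFe⟩ := hn (ENNReal.ofReal (ε / 2)) (by
    rw [Ne, ENNReal.ofReal_eq_zero, not_le]; positivity)
  refine ⟨fun h => ∫ z, F (h • z) * conj (u z) ∂ν, ?_, fun h => hεV ?_⟩
  · have hint : ∀ f : C(Ξ, ℂ), Integrable (fun z => f z * conj (u z)) ν := by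
      intro f
      refine Integrable.of_bound (f.continuous.aestronglyMeasurable.mul
        (Complex.continuous_conj.comp_aestronglyMeasurable hu.1)) ‖f‖ ?_
      filter_upwards [h1] with z e1
      rw [norm_mul, RCLike.norm_conj, e1, mul_one]
      exact f.norm_coe_le_norm z
    have hL : LipschitzWith 1 (fun f : C(Ξ, ℂ) => ∫ z, f z * conj (u z) ∂ν) := by
      refine LipschitzWith.of_dist_le_mul fun f g => ?_
      rw [dist_eq_norm, dist_eq_norm, ← integral_sub (hint f) (hint g)]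
      have : ‖∫ z, (f z * conj (u z) - g z * conj (u z)) ∂ν‖ ≤ ‖f - g‖ * ν.real Set.univ := by
        refine norm_integral_le_of_norm_le_const ?_
        filter_upwards [h1] with z e1
        rw [← sub_mul, norm_mul, RCLike.norm_conj, e1, mul_one]
        exact (f - g).norm_coe_le_norm z
      simpa using this
    let Φ : C(G × Ξ, ℂ) := ⟨fun p => F (p.1 • p.2), hFc.comp continuous_smul⟩
    exact hL.continuous.comp (Φ.curry).continuous
  · rw [dist_eq_norm]
    have hvF : AEStronglyMeasurable (u - F) ν := hu.1.sub hFc.aestronglyMeasurable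
    have hmF : MemLp (u - F) 2 ν := hu.sub (cont_memLp hFc 2)
    have hi1 : Integrable (Dh u h) ν := (D_memLp hνG hu h1 h).integrable (by norm_num)
    have hi2 : Integrable (fun z => F (h • z) * conj (u z)) ν := by
      obtain ⟨C, hC⟩ := cont_bdd hFc
      refine Integrable.of_bound (((hFc.comp (continuous_const_smul h)).aestronglyMeasurable).mul
        (Complex.continuous_conj.comp_aestronglyMeasurable hu.1)) C ?_
      filter_upwards [h1] with z e1
      rw [norm_mul, RCLike.norm_conj, e1, mul_one]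
      exact hC _
    have e : corr ν u h - ∫ z, F (h • z) * conj (u z) ∂ν =
        ∫ z, (u - F) (h • z) * conj (u z) ∂ν := by
      unfold corr
      rw [← integral_sub hi1 hi2]
      refine integral_congr_ae (Eventually.of_forall fun z => ?_)
      simp only [Dh, Pi.sub_apply]; ring
    rw [e]
    have h2 : ‖∫ z, (u - F) (h • z) * conj (u z) ∂ν‖ ≤ ∫ z, ‖(u - F) (h • z)‖ ∂ν := by
      refine (norm_integral_le_integral_norm _).trans (le_of_eq ?_)
      refine integral_congr_ae ?_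
      filter_upwards [h1] with z e1
      rw [norm_mul, RCLike.norm_conj, e1, mul_one]
    have hvF2 : AEStronglyMeasurable (fun z => (u - F) (h • z)) ν :=
      hvF.comp_measurePreserving (hνG h)
    have h3 : ∫ z, ‖(u - F) (h • z)‖ ∂ν = (eLpNorm (fun z => (u - F) (h • z)) 1 ν).toReal := by
      rw [eLpNorm_one_eq_lintegral_enorm, integral_norm_eq_lintegral_enorm hvF2]
    have h4 : eLpNorm (fun z => (u - F) (h • z)) 1 ν ≤ ENNReal.ofReal (ε / 2) := by
      refine (eLpNorm_le_eLpNorm_of_exponent_le (q := 2) (by norm_num) hvF2).trans ?_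
      have h5 : eLpNorm (fun z => (u - F) (h • z)) 2 ν = eLpNorm (u - F) 2 ν :=
        eLpNorm_comp_measurePreserving hvF (hνG h)
      rw [h5]; exact hFe
    refine lt_of_le_of_lt (h2.trans (h3.trans_le (ENNReal.toReal_le_of_le_ofReal (by positivity)
      h4))) (by linarith)

end B

end MPd26.Nil.PM
end

section
/-!
# MP_d26cd8_an, module P, part 4: Lemma B
-/
set_option autoImplicit false
set_option linter.unusedSectionVars false

open MeasureTheory Filter Topology
open scoped ComplexConjugate ENNReal NNReal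

namespace MPd26.Nil.PM

variable {Ξ G J : Type} [TopologicalSpace Ξ] [CompactSpace Ξ] [T2Space Ξ]
  [SecondCountableTopology Ξ] [MeasurableSpace Ξ] [BorelSpace Ξ] [Group G] [TopologicalSpace G]
  [IsTopologicalGroup G] [MulAction G Ξ] [ContinuousSMul G Ξ] {S : PSetup Ξ G J}
  {ν : Measure Ξ} [IsProbabilityMeasure ν]

/-- `u ∘ h` is a multiple of `u` -/
def Eig (ν : Measure Ξ) (u : Ξ → ℂ) (h : G) : Prop :=
  ∃ c : ℂ, (fun z => u (h • z)) =ᵐ[ν] fun z => c * u z

lemma Eig.one {u : Ξ → ℂ} : Eig ν u (1 : G) := ⟨1, Eventually.of_forall fun z => by simp⟩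

lemma Eig.mul (hνG : ∀ g : G, MeasurePreserving (fun z : Ξ => g • z) ν ν) {u : Ξ → ℂ} {g h : G}
    (hg : Eig ν u g) (hh : Eig ν u h) : Eig ν u (g * h) := by
  obtain ⟨c, hc⟩ := hg
  obtain ⟨c', hc'⟩ := hh
  refine ⟨c * c', ?_⟩
  have h1 := (hνG h).quasiMeasurePreserving.ae_eq hc
  filter_upwards [h1, hc'] with z e1 e2
  simp only [Function.comp_apply] at e1
  rw [mul_smul, e1, e2, mul_assoc]

lemma Eig.pow (hνG : ∀ g : G, MeasurePreserving (fun z : Ξ => g • z) ν ν) {u : Ξ → ℂ} {g : G}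
    (hg : Eig ν u g) (N : ℕ) : Eig ν u (g ^ N) := by
  induction N with
  | zero => rw [pow_zero]; exact Eig.one
  | succ N ih => rw [pow_succ]; exact ih.mul hνG hg

lemma corr_of_eig {u : Ξ → ℂ} (h1 : ∀ᵐ z ∂ν, ‖u z‖ = 1) {h : G} {c : ℂ}
    (hc : (fun z => u (h • z)) =ᵐ[ν] fun z => c * u z) : corr ν u h = c := by
  unfold corr
  have : ∫ z, Dh u h z ∂ν = ∫ _ : Ξ, c ∂ν := by
    refine integral_congr_ae ?_
    filter_upwards [h1, hc] with z e1 e2
    unfold Dh
    have : u z * conj (u z) = 1 := by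
      rw [Complex.mul_conj, Complex.normSq_eq_norm_sq, e1]; norm_num
    rw [e2, mul_assoc, this, mul_one]
  rw [this]; simp

lemma norm_of_eig (hνG : ∀ g : G, MeasurePreserving (fun z : Ξ => g • z) ν ν) {u : Ξ → ℂ}
    (h1 : ∀ᵐ z ∂ν, ‖u z‖ = 1) {h : G} {c : ℂ}
    (hc : (fun z => u (h • z)) =ᵐ[ν] fun z => c * u z) : ‖c‖ = 1 := by
  have h1' : ∀ᵐ z ∂ν, ‖u (h • z)‖ = 1 := (hνG h).quasiMeasurePreserving.ae h1
  obtain ⟨z, e1, e2, e3⟩ := (h1.and (h1'.and hc)).exists
  beta_reduce at e3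
  rw [e3, norm_mul, e1, mul_one] at e2
  exact e2

/-- relation between `D_h` and its composition with `τ j` -/
lemma Dh_τ (hνG : ∀ g : G, MeasurePreserving (fun z : Ξ => g • z) ν ν)
    (hντ : ∀ j, MeasurePreserving (S.τ j) ν ν) {u : Ξ → ℂ}
    (hinv : ∀ j, (fun z => u (S.τ j z)) =ᵐ[ν] u) (j : J) (h : G) {c : ℂ}
    (hc : (fun z => u ((S.α j h * h⁻¹) • z)) =ᵐ[ν] fun z => c * u z) :
    Dh u h =ᵐ[ν] fun z => c * Dh u h (S.τ j z) := by
  have e1 := (hinv j)
  have e2 := (hνG h).quasiMeasurePreserving.ae_eq (hinv j)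
  have e3 := (hντ j).quasiMeasurePreserving.ae_eq ((hνG h).quasiMeasurePreserving.ae_eq hc)
  filter_upwards [e1, e2, e3] with z h1 h2 h3
  simp only [Function.comp_apply] at h2 h3
  unfold Dh
  have h4 : S.τ j (h • z) = (S.α j h * h⁻¹) • h • S.τ j z := by
    rw [S.τ_smul, smul_smul]; group
  rw [← h2, h4, h3, h1]
  ring

/-- the heart of the argument: everything is an eigen-element -/
lemma all_eig (hνG : ∀ g : G, MeasurePreserving (fun z : Ξ => g • z) ν ν)
    (hντ : ∀ j, MeasurePreserving (S.τ j) ν ν) {k : ℕ} (hk : k < S.D)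
    (hUE : UE S ν (k + 1)) (n : ℤ) {u : Ξ → ℂ} (hu : MemLp u 2 ν)
    (h1 : ∀ᵐ z ∂ν, ‖u z‖ = 1) (hn : Near ν (IsW S k n) u)
    (hinv : ∀ j, (fun z => u (S.τ j z)) =ᵐ[ν] u) :
    ∀ i, k + 1 ≤ i → i ≤ S.D → ∀ h ∈ S.H i, Eig ν u h := by
  intro i hi
  induction i, hi using Nat.le_induction with
  | base =>
    intro _ h hh
    obtain ⟨c, hc1, hcF⟩ := W_char hk n hh
    exact ⟨c, near_transfer hu.1 hn (hνG h) (MeasurePreserving.id ν) c hcF⟩
  | succ i hi ih =>
    intro hiD
    have ih' := ih (by omega)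
    -- criterion
    have crit : ∀ h ∈ S.H (i + 1), corr ν u h ≠ 0 → Eig ν u h := by
      intro h hh hne
      have hD2 := D_memLp hνG hu h1 h
      have hDinv : ∀ j, (fun z => Dh u h (S.τ j z)) =ᵐ[ν] Dh u h := by
        intro j
        obtain ⟨c, hc⟩ := ih' _ (S.α_mem j i (by omega) h hh)
        have e := Dh_τ hνG hντ hinv j h hc
        have hc1 : c = 1 := by
          have i1 : corr ν u h = c * corr ν u h := by
            calc corr ν u h = ∫ z, c * Dh u h (S.τ j z) ∂ν := integral_congr_ae e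
              _ = c * ∫ z, Dh u h (S.τ j z) ∂ν := integral_const_mul _ _
              _ = c * corr ν u h := by
                congr 1
                have hm : Measurable (S.τ j) := (S.τ_cont j).measurable
                have := integral_map (μ := ν) (f := Dh u h) hm.aemeasurable
                  (by rw [(hντ j).map_eq]; exact hD2.1)
                rw [(hντ j).map_eq] at this
                exact this.symm
          have := mul_right_cancel₀ hne ((one_mul (corr ν u h)).trans i1)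
          exact this.symm
        filter_upwards [e] with z hz
        rw [hz, hc1, one_mul]
      obtain ⟨c, hc⟩ := lemmaA hντ hUE hD2 hDinv (D_near hνG hk n hu h1 hn h)
      refine ⟨c, ?_⟩
      filter_upwards [hc, h1] with z e1 e2
      have e3 : conj (u z) * u z = 1 := by
        rw [mul_comm, Complex.mul_conj, Complex.normSq_eq_norm_sq, e2]; norm_num
      rw [← e1]
      unfold Dh
      rw [mul_assoc, e3, mul_one]
    -- small elements of the one-parameter group
    have hcont : Continuous fun t => corr ν u (S.w i t) :=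
      (corr_cont hνG hu h1 hn).comp (S.w_cont i (by omega))
    have h00 : corr ν u (S.w i 0) = 1 := by
      rw [w_zero (by omega)]
      exact corr_of_eig h1 (Eventually.of_forall fun z => by simp)
    have hnb : ∀ᶠ t in 𝓝 (0 : ℝ), corr ν u (S.w i t) ≠ 0 :=
      hcont.continuousAt.eventually_ne (by rw [h00]; exact one_ne_zero)
    obtain ⟨δ, hδ, hδ'⟩ := Metric.eventually_nhds_iff.1 hnb
    have hw : ∀ t, Eig ν u (S.w i t) := by
      intro t
      obtain ⟨N, hN⟩ := exists_nat_gt (|t| / δ)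
      have hN0 : (0 : ℝ) < N + 1 := by positivity
      have hs : Eig ν u (S.w i (t / (N + 1))) := by
        refine crit _ (S.w_mem i (by omega) _) (hδ' ?_)
        rw [dist_zero_right, norm_div, Real.norm_eq_abs, Real.norm_eq_abs, abs_of_pos hN0,
          div_lt_iff₀ hN0]
        rw [div_lt_iff₀ hδ] at hN
        nlinarith
      have hp : ∀ M : ℕ, ∀ s, S.w i (M * s) = S.w i s ^ M := by
        intro M s
        induction M with
        | zero => simp [w_zero (S := S) (show i < S.D by omega)]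
        | succ M ihM => rw [pow_succ, ← ihM, ← S.w_add i (by omega)]; push_cast; ring_nf
      have := hs.pow hνG (N + 1)
      rw [← hp] at this
      have e : ((N + 1 : ℕ) : ℝ) * (t / (N + 1)) = t := by push_cast; field_simp
      rwa [e] at this
    intro h hh
    obtain ⟨t, h', hh', e⟩ := S.H_succ i (by omega) h hh
    rw [e]
    exact (hw t).mul hνG (ih' h' hh')

/-- the unimodular case leads to a contradiction -/
lemma unimod_false (hνG : ∀ g : G, MeasurePreserving (fun z : Ξ => g • z) ν ν)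
    (hντ : ∀ j, MeasurePreserving (S.τ j) ν ν) {k : ℕ} (hk : k < S.D)
    (hUE : UE S ν (k + 1)) (n : ℤ) (hn0 : n ≠ 0) {u : Ξ → ℂ} (hu : MemLp u 2 ν)
    (h1 : ∀ᵐ z ∂ν, ‖u z‖ = 1) (hn : Near ν (IsW S k n) u)
    (hinv : ∀ j, (fun z => u (S.τ j z)) =ᵐ[ν] u) : False := by
  have hall : ∀ h : G, Eig ν u h := fun h =>
    all_eig hνG hντ hk hUE n hu h1 hn hinv S.D (by omega) le_rfl h (by rw [S.H_top]; trivial)
  have hcorr : ∀ h : G, (fun z => u (h • z)) =ᵐ[ν] fun z => corr ν u h * u z := by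
    intro h
    obtain ⟨c, hc⟩ := hall h
    rw [corr_of_eig h1 hc]; exact hc
  have hnorm : ∀ h : G, ‖corr ν u h‖ = 1 := fun h => norm_of_eig hνG h1 (hcorr h)
  have hmul : ∀ g h : G, corr ν u (g * h) = corr ν u g * corr ν u h := by
    intro g h
    refine corr_of_eig h1 ?_
    have e := (hνG h).quasiMeasurePreserving.ae_eq (hcorr g)
    filter_upwards [e, hcorr h] with z e1 e2
    simp only [Function.comp_apply] at e1
    rw [mul_smul, e1, e2, mul_assoc]
  let c : G →* Circle :=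
    { toFun := fun h => ⟨corr ν u h, mem_sphere_zero_iff_norm.2 (hnorm h)⟩
      map_one' := Circle.ext (corr_of_eig h1 (Eventually.of_forall fun z => by simp))
      map_mul' := fun g h => Circle.ext (hmul g h) }
  have hcc : ∀ h, (c h : ℂ) = corr ν u h := fun h => rfl
  have hcont : Continuous c := (corr_cont hνG hu h1 hn).subtype_mk _
  have hw : ∀ t, (c (S.w k t) : ℂ) = Complex.exp (2 * Real.pi * n * t * Complex.I) := by
    intro t
    rw [hcc]
    refine corr_of_eig h1 ?_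
    exact near_transfer hu.1 hn (hνG _) (MeasurePreserving.id ν) _ (fun F hF z => hF.2 t z)
  have hwne : c (S.w k (1 / (2 * n))) ≠ 1 := by
    intro h
    have h2 : (c (S.w k (1 / (2 * n))) : ℂ) = 1 := by rw [h]; rfl
    rw [hw] at h2
    have hnC : (n : ℂ) ≠ 0 := by exact_mod_cast hn0
    have h3 : (2 * Real.pi * n * ((1 / (2 * n) : ℝ) : ℂ) * Complex.I : ℂ) =
        Real.pi * Complex.I := by
      push_cast; field_simp
    rw [h3, Complex.exp_pi_mul_I] at h2
    norm_num at h2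
  have hα : ∀ j g, c (S.α j g) = c g := by
    intro j g
    refine Circle.ext ?_
    rw [hcc, hcc]
    have e := Dh_τ hνG hντ hinv j g (hcorr (S.α j g * g⁻¹))
    -- both correlations are constants
    have hDc : ∀ᵐ z ∂ν, Dh u g z = corr ν u g := by
      filter_upwards [hcorr g, h1] with z e1 e2
      unfold Dh
      have : u z * conj (u z) = 1 := by
        rw [Complex.mul_conj, Complex.normSq_eq_norm_sq, e2]; norm_num
      rw [e1, mul_assoc, this, mul_one]
    have hDc' : ∀ᵐ z ∂ν, Dh u g (S.τ j z) = corr ν u g := (hντ j).quasiMeasurePreserving.ae hDc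
    obtain ⟨z, e1, e2, e3⟩ := (hDc.and (hDc'.and e)).exists
    beta_reduce at e3
    rw [e1, e2] at e3
    have h5 : corr ν u (S.α j g) = corr ν u (S.α j g * g⁻¹) * corr ν u g := by
      rw [← hmul]; congr 1; group
    rw [h5, ← e3]
  have h6 := S.char6 c hcont hα
  rcases lt_or_ge k S.d with hkd | hkd
  · exact hwne (h6 _ (H_mono S (by omega) S.hd (S.w_mem k hk _)))
  · have hF : ∀ F, IsW S k n F → ∀ h ∈ S.H S.d, ∀ z, F (h • z) = F z := fun F hF h hh z =>
      hF.1.2 h (H_mono S hkd hk.le hh) z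
    refine hwne (S.char7 c hcont h6 (fun l hl hlD => ?_) (fun j => ?_) _)
    · refine Circle.ext ?_
      rw [hcc]
      refine corr_of_eig h1 ?_
      refine near_transfer hu.1 hn (hνG _) (MeasurePreserving.id ν) _ (fun F hF' z => ?_)
      obtain ⟨h, hh, e⟩ := S.per' l hl hlD z
      rw [e, hF F hF' h hh]; simp
    · refine Circle.ext ?_
      rw [hcc]
      refine corr_of_eig h1 ?_
      have e1 : (fun z => u (S.τ j z)) =ᵐ[ν] fun z => 1 * u (S.b j • z) := by
        refine near_transfer hu.1 hn (hντ j) (hνG _) _ (fun F hF' z => ?_)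
        obtain ⟨h, hh, e⟩ := S.τ_b j z
        rw [e, hF F hF' h hh, one_mul]
      filter_upwards [e1, hinv j] with z e2 e3
      rw [one_mul] at e2
      rw [← e2, e3]; simp

/-- Lemma B -/
lemma lemmaB (hνG : ∀ g : G, MeasurePreserving (fun z : Ξ => g • z) ν ν)
    (hντ : ∀ j, MeasurePreserving (S.τ j) ν ν) {k : ℕ} (hk : k < S.D)
    (hUE : UE S ν (k + 1)) (n : ℤ) (hn0 : n ≠ 0) {u : Ξ → ℂ} (hu : MemLp u 2 ν)
    (hn : Near ν (IsW S k n) u)
    (hinv : ∀ j, (fun z => u (S.τ j z)) =ᵐ[ν] u) : u =ᵐ[ν] 0 := by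
  obtain ⟨g, hg⟩ : ∃ g : ℂ → ℂ, ∀ z, g z = ((‖z‖ : ℝ) : ℂ) := ⟨_, fun _ => rfl⟩
  have hlip : LipschitzWith 1 g := by
    refine LipschitzWith.of_dist_le_mul fun z w => ?_
    rw [dist_eq_norm, dist_eq_norm, hg, hg, ← Complex.ofReal_sub, Complex.norm_real,
      NNReal.coe_one, one_mul]
    exact abs_norm_sub_norm_le z w
  have hcls : ∀ F, IsW S k n F → IsC S (k + 1) (fun z => g (F z)) := by
    intro F hF
    refine ⟨hlip.continuous.comp hF.1.1, fun h hh z => ?_⟩
    obtain ⟨c, hc1, hcF⟩ := W_char hk n hh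
    beta_reduce
    rw [hcF F hF, hg, hg, norm_mul, hc1, one_mul]
  have hnear : Near ν (IsC S (k + 1)) (fun z => g (u z)) := hn.lip hlip hcls
  have hmem : MemLp (fun z => g (u z)) 2 ν := by
    refine hu.mono (hlip.continuous.comp_aestronglyMeasurable hu.1)
      (Eventually.of_forall fun z => ?_)
    rw [hg, Complex.norm_real, norm_norm]
  obtain ⟨c, hc⟩ := lemmaA hντ hUE hmem (fun j => by
    filter_upwards [hinv j] with z hz
    rw [hz]) hnear
  have hc : ∀ᵐ z ∂ν, ((‖u z‖ : ℝ) : ℂ) = c := by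
    filter_upwards [hc] with z hz
    rw [← hg]; exact hz
  by_cases hc0 : c = 0
  · filter_upwards [hc] with z hz
    rw [hc0] at hz
    have : ‖u z‖ = 0 := by exact_mod_cast hz
    exact norm_eq_zero.1 this
  · exfalso
    have hcn : ∀ᵐ z ∂ν, ‖u z‖ = ‖c‖ := by
      filter_upwards [hc] with z hz
      rw [← hz, Complex.norm_real, norm_norm]
    have hcpos : ‖c‖ ≠ 0 := norm_ne_zero_iff.2 hc0
    set a : ℂ := ((‖c‖ : ℝ) : ℂ)⁻¹ with ha
    have hcpos' : ((‖c‖ : ℝ) : ℂ) ≠ 0 := by exact_mod_cast hcpos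
    have ha0 : a ≠ 0 := inv_ne_zero hcpos'
    have hna : ‖a‖ = ‖c‖⁻¹ := by rw [ha, norm_inv, Complex.norm_real, norm_norm]
    refine unimod_false hνG hντ hk hUE n hn0 (u := fun z => a * u z) (hu.const_mul a) ?_ ?_ ?_
    · filter_upwards [hcn] with z hz
      rw [norm_mul, hz, hna, inv_mul_cancel₀ hcpos]
    · obtain ⟨g', hg'⟩ : ∃ g' : ℂ → ℂ, ∀ z, g' z = a * z := ⟨_, fun _ => rfl⟩
      have hl : LipschitzWith ‖a‖₊ g' := by
        refine LipschitzWith.of_dist_le_mul fun z w => ?_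
        rw [dist_eq_norm, dist_eq_norm, hg', hg', ← mul_sub, norm_mul, coe_nnnorm]
      have h9 : Near ν (IsW S k n) (fun z => g' (u z)) := hn.lip hl (fun F hF =>
        ⟨hF.1.comp hl.continuous, fun s z => by beta_reduce; rw [hF.2, hg', hg']; ring⟩)
      have h10 : (fun z => g' (u z)) = fun z => a * u z := funext fun z => hg' _
      rwa [h10] at h9
    · intro j
      filter_upwards [hinv j] with z hz
      rw [hz]

end MPd26.Nil.PM
end

section
/-!
# MP_d26cd8_an, module P: abstract unique ergodicity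
-/
set_option autoImplicit false
set_option linter.unusedSectionVars false

open MeasureTheory Filter Topology
open scoped ComplexConjugate ENNReal NNReal InnerProductSpace

namespace MPd26.Nil.PM

variable {Ξ G J : Type} [TopologicalSpace Ξ] [CompactSpace Ξ] [T2Space Ξ]
  [SecondCountableTopology Ξ] [MeasurableSpace Ξ] [BorelSpace Ξ] [Group G] [TopologicalSpace G]
  [IsTopologicalGroup G] [MulAction G Ξ] [ContinuousSMul G Ξ] {S : PSetup Ξ G J}
  {ν : Measure Ξ} [IsProbabilityMeasure ν]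

/-- the submodule of weight functions -/
noncomputable def NW (S : PSetup Ξ G J) (k : ℕ) (n : ℤ) : Submodule ℂ C(Ξ, ℂ) where
  carrier := {v | IsW S k n v}
  add_mem' {v w} hv hw := ⟨⟨(v + w).continuous, fun h hh z => by
    rw [ContinuousMap.add_apply, ContinuousMap.add_apply, hv.1.2 h hh, hw.1.2 h hh]⟩,
    fun s z => by
      rw [ContinuousMap.add_apply, ContinuousMap.add_apply, hv.2, hw.2, mul_add]⟩
  zero_mem' := ⟨⟨continuous_const, fun _ _ _ => rfl⟩, fun _ _ => by simp⟩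
  smul_mem' c v hv := ⟨⟨(c • v).continuous, fun h hh z => by
    rw [ContinuousMap.smul_apply, ContinuousMap.smul_apply, hv.1.2 h hh]⟩,
    fun s z => by
      rw [ContinuousMap.smul_apply, ContinuousMap.smul_apply, hv.2, smul_eq_mul, smul_eq_mul]
      ring⟩

/-- composition with `τ j` -/
noncomputable def cτ (S : PSetup Ξ G J) (j : J) (v : C(Ξ, ℂ)) : C(Ξ, ℂ) := v.comp ⟨S.τ j, S.τ_cont j⟩

lemma cτ_mem {k : ℕ} (hk : k < S.D) (n : ℤ) (j : J) {v : C(Ξ, ℂ)} (hv : v ∈ NW S k n) :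
    cτ S j v ∈ NW S k n := by
  refine ⟨hv.1.comp_τ hk.le j, fun s z => ?_⟩
  show v (S.τ j (S.w k s • z)) = _ * v (S.τ j z)
  rw [hv.1.τw hk j (S.w_mem k hk s), hv.2]

/-- the coboundaries -/
noncomputable def N0 (S : PSetup Ξ G J) (k : ℕ) (n : ℤ) : Submodule ℂ C(Ξ, ℂ) :=
  Submodule.span ℂ {b | ∃ v ∈ NW S k n, ∃ j, b = v - cτ S j v}

lemma N0_le {k : ℕ} (hk : k < S.D) (n : ℤ) : N0 S k n ≤ NW S k n := by
  refine Submodule.span_le.2 ?_
  rintro b ⟨v, hv, j, rfl⟩
  exact (NW S k n).sub_mem hv (cτ_mem hk n j hv)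

lemma integral_N0 {k : ℕ} {n : ℤ} {θ : Measure Ξ} [IsProbabilityMeasure θ]
    (hθ : ∀ j, θ.map (S.τ j) = θ) {b : C(Ξ, ℂ)} (hb : b ∈ N0 S k n) : ∫ z, b z ∂θ = 0 := by
  unfold N0 at hb
  induction hb using Submodule.span_induction with
  | mem b hb =>
    obtain ⟨v, -, j, rfl⟩ := hb
    have h1 : ∫ z, v (S.τ j z) ∂θ = ∫ z, v z ∂θ := by
      have := integral_map (μ := θ) (φ := S.τ j) (f := v) (S.τ_cont j).aemeasurable
        (v.continuous.aestronglyMeasurable)
      rw [hθ j] at this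
      exact this.symm
    have h2 : ∫ z, (v - cτ S j v) z ∂θ = ∫ z, v z ∂θ - ∫ z, v (S.τ j z) ∂θ :=
      integral_sub (cont_int v.continuous θ) (cont_int (v.continuous.comp (S.τ_cont j)) θ)
    rw [h2, h1, sub_self]
  | zero => simp
  | add x y _ _ hx hy =>
    have : ∫ z, (x + y) z ∂θ = ∫ z, x z ∂θ + ∫ z, y z ∂θ :=
      integral_add (cont_int x.continuous θ) (cont_int y.continuous θ)
    rw [this, hx, hy, add_zero]
  | smul c x _ hx =>
    have : ∫ z, (c • x) z ∂θ = c • ∫ z, x z ∂θ := integral_smul c x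
    rw [this, hx, smul_zero]

lemma sq_integral_le {θ : Measure Ξ} [IsProbabilityMeasure θ] {f : Ξ → ℂ} (hf : Continuous f) :
    ‖∫ z, f z ∂θ‖ ^ 2 ≤ ∫ z, ‖f z‖ ^ 2 ∂θ := by
  have hi : Integrable (fun z => ‖f z‖) θ := (cont_int hf θ).norm
  have hi2 : Integrable (fun z => ‖f z‖ ^ 2) θ := by
    obtain ⟨C, hC⟩ := cont_bdd hf
    refine Integrable.of_bound (by fun_prop : Continuous fun z => ‖f z‖ ^ 2).aestronglyMeasurable
      (C ^ 2) (Eventually.of_forall fun z => ?_)
    rw [norm_pow, norm_norm]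
    exact pow_le_pow_left₀ (norm_nonneg _) (hC z) 2
  set a : ℝ := ∫ z, ‖f z‖ ∂θ with ha
  have h1 : ‖∫ z, f z ∂θ‖ ≤ a := norm_integral_le_integral_norm _
  have h2 : 0 ≤ ∫ z, (‖f z‖ - a) ^ 2 ∂θ := integral_nonneg fun z => sq_nonneg _
  have h3 : ∫ z, (‖f z‖ - a) ^ 2 ∂θ = ∫ z, ‖f z‖ ^ 2 ∂θ - a ^ 2 := by
    have e : ∀ z, (‖f z‖ - a) ^ 2 = ‖f z‖ ^ 2 - 2 * a * ‖f z‖ + a ^ 2 := fun z => by ring
    simp_rw [e]
    have i1 : ∫ z, (‖f z‖ ^ 2 - 2 * a * ‖f z‖ + a ^ 2) ∂θ =
        ∫ z, (‖f z‖ ^ 2 - 2 * a * ‖f z‖) ∂θ + ∫ _ : Ξ, a ^ 2 ∂θ :=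
      integral_add (hi2.sub (hi.const_mul (2 * a))) (integrable_const _)
    have i2 : ∫ z, (‖f z‖ ^ 2 - 2 * a * ‖f z‖) ∂θ =
        ∫ z, ‖f z‖ ^ 2 ∂θ - ∫ z, 2 * a * ‖f z‖ ∂θ := integral_sub hi2 (hi.const_mul (2 * a))
    rw [i1, i2, integral_const_mul, ← ha]
    simp
    ring
  have h4 : ‖∫ z, f z ∂θ‖ ^ 2 ≤ a ^ 2 := pow_le_pow_left₀ (norm_nonneg _) h1 2
  linarith

lemma weight_zero (hνG : ∀ g : G, MeasurePreserving (fun z : Ξ => g • z) ν ν)
    (hντ : ∀ j, MeasurePreserving (S.τ j) ν ν) {k : ℕ} (hk : k < S.D)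
    (hUE : UE S ν (k + 1)) (n : ℤ) (hn0 : n ≠ 0) (W : C(Ξ, ℂ)) (hW : W ∈ NW S k n)
    {θ : Measure Ξ} [IsProbabilityMeasure θ] (hθ : ∀ j, θ.map (S.τ j) = θ) :
    ∫ z, W z ∂θ = 0 := by
  set L : C(Ξ, ℂ) →L[ℂ] Lp ℂ 2 ν := ContinuousMap.toLp 2 ν ℂ with hL
  have hLae : ∀ v : C(Ξ, ℂ), (L v : Ξ → ℂ) =ᵐ[ν] v := fun v =>
    ContinuousMap.coeFn_toLp (p := 2) (𝕜 := ℂ) ν v
  set U : J → Lp ℂ 2 ν →ₗᵢ[ℂ] Lp ℂ 2 ν := fun j =>
    Lp.compMeasurePreservingₗᵢ ℂ (S.τ j) (hντ j) with hU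
  have hUae : ∀ j (x : Lp ℂ 2 ν), (U j x : Ξ → ℂ) =ᵐ[ν] fun z => x (S.τ j z) := fun j x =>
    Lp.coeFn_compMeasurePreserving x (hντ j)
  have hUL : ∀ j v, U j (L v) = L (cτ S j v) := by
    intro j v
    refine Lp.ext ?_
    have h1 := (hντ j).quasiMeasurePreserving.ae_eq (hLae v)
    filter_upwards [hUae j (L v), hLae (cτ S j v), h1] with z e1 e2 e3
    rw [e1, e2]
    exact e3
  set M : Submodule ℂ (Lp ℂ 2 ν) := ((NW S k n).map L.toLinearMap).topologicalClosure with hM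
  set K : Submodule ℂ (Lp ℂ 2 ν) := ((N0 S k n).map L.toLinearMap).topologicalClosure with hK
  have hKM : K ≤ M := Submodule.topologicalClosure_mono (Submodule.map_mono (N0_le hk n))
  set p : Lp ℂ 2 ν := K.starProjection (L W) with hp
  have hpK : p ∈ K := K.starProjection_apply_mem (L W)
  set x : Lp ℂ 2 ν := L W - p with hx
  have hxo : ∀ w ∈ K, (inner ℂ w x : ℂ) = 0 := by
    intro w hw
    have := K.starProjection_inner_eq_zero (L W) w hw
    rw [← hp, ← hx] at this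
    rw [← inner_conj_symm, this, map_zero]
  have hxM : x ∈ M := by
    refine M.sub_mem ?_ (hKM hpK)
    exact Submodule.le_topologicalClosure _ (Submodule.mem_map_of_mem hW)
  -- invariance
  have hcl : ∀ j, ∀ y ∈ M, (inner ℂ (y - U j y) x : ℂ) = 0 := by
    intro j
    have hclosed : IsClosed {y : Lp ℂ 2 ν | (inner ℂ (y - U j y) x : ℂ) = 0} := by
      refine isClosed_eq ?_ continuous_const
      exact Continuous.inner (continuous_id.sub (U j).continuous) continuous_const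
    have hsub : ((NW S k n).map L.toLinearMap : Set (Lp ℂ 2 ν)) ⊆
        {y : Lp ℂ 2 ν | (inner ℂ (y - U j y) x : ℂ) = 0} := by
      rintro _ ⟨v, hv, rfl⟩
      show (inner ℂ (L v - U j (L v)) x : ℂ) = 0
      rw [hUL, ← map_sub]
      refine hxo _ (Submodule.le_topologicalClosure _ (Submodule.mem_map_of_mem ?_))
      exact Submodule.subset_span ⟨v, hv, j, rfl⟩
    intro y hy
    exact closure_minimal hsub hclosed hy
  have hUx : ∀ j, U j x = x := by
    intro j
    have h1 := hcl j x hxM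
    rw [inner_sub_left, sub_eq_zero] at h1
    have h2 : (inner ℂ x (U j x) : ℂ) = inner ℂ x x := by
      rw [← inner_conj_symm, ← h1, inner_conj_symm]
    have gen : ∀ y z : Lp ℂ 2 ν, (inner ℂ y y : ℂ) = inner ℂ z y →
        (inner ℂ y z : ℂ) = inner ℂ y y → (inner ℂ z z : ℂ) = inner ℂ y y →
        (inner ℂ (y - z) (y - z) : ℂ) = 0 := by
      intro y z a1 a2 a3
      rw [inner_sub_left, inner_sub_right, inner_sub_right, a2, a3, ← a1]
      ring
    have h3 : (inner ℂ (x - U j x) (x - U j x) : ℂ) = 0 :=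
      gen _ _ h1 h2 ((U j).inner_map_map x x)
    exact (sub_eq_zero.1 (inner_self_eq_zero.1 h3)).symm
  have hx0 : x = 0 := by
    have hB := lemmaB hνG hντ hk hUE n hn0 (u := (x : Ξ → ℂ)) (Lp.memLp x) ?_ (fun j => ?_)
    · exact (Lp.eq_zero_iff_ae_eq_zero).2 hB
    · intro ε hε
      by_cases htop : ε = ∞
      · exact ⟨W, hW, W.continuous, by rw [htop]; exact le_top⟩
      have hεr : 0 < ε.toReal := ENNReal.toReal_pos hε htop
      have hpc : p ∈ closure ((N0 S k n).map L.toLinearMap : Set (Lp ℂ 2 ν)) := hpK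
      obtain ⟨_, ⟨b, hb, rfl⟩, hb2⟩ := Metric.mem_closure_iff.1 hpc ε.toReal hεr
      refine ⟨(W - b : C(Ξ, ℂ)), (NW S k n).sub_mem hW (N0_le hk n hb), (W - b).continuous, ?_⟩
      have e1 : eLpNorm ((x : Ξ → ℂ) - ((W - b : C(Ξ, ℂ)) : Ξ → ℂ)) 2 ν =
          eLpNorm (L b - p : Lp ℂ 2 ν) 2 ν := by
        refine eLpNorm_congr_ae ?_
        have h1 : x = L W - p := hx
        filter_upwards [hLae W, hLae b, Lp.coeFn_sub (L W) p, Lp.coeFn_sub (L b) p]
          with z e1 e2 e3 e4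
        rw [Pi.sub_apply, h1, e3, e4, Pi.sub_apply, Pi.sub_apply, e1, e2,
          ContinuousMap.sub_apply]
        ring
      rw [e1]
      have e2 : ‖(L b - p : Lp ℂ 2 ν)‖ < ε.toReal := by
        rw [← dist_eq_norm, dist_comm]; exact hb2
      rw [Lp.norm_def] at e2
      exact (ENNReal.toReal_lt_toReal (Lp.memLp _).2.ne htop).1 e2 |>.le
    · have h1 := hUae j x
      rw [hUx j] at h1
      exact h1.symm
  -- conclusion
  have hLW : L W = p := sub_eq_zero.1 hx0
  by_contra hne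
  have hpos : 0 < ‖∫ z, W z ∂θ‖ := norm_pos_iff.2 hne
  have hpc : L W ∈ closure ((N0 S k n).map L.toLinearMap : Set (Lp ℂ 2 ν)) := by
    rw [hLW]; exact hpK
  obtain ⟨_, ⟨b, hb, rfl⟩, hb2⟩ := Metric.mem_closure_iff.1 hpc _ hpos
  have hbW := (NW S k n).sub_mem hW (N0_le hk n hb)
  have e1 : ∫ z, W z ∂θ = ∫ z, (W - b) z ∂θ := by
    have : ∫ z, (W - b) z ∂θ = ∫ z, W z ∂θ - ∫ z, b z ∂θ :=
      integral_sub (cont_int W.continuous θ) (cont_int b.continuous θ)
    rw [this, integral_N0 hθ hb, sub_zero]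
  have e2 := sq_integral_le (θ := θ) (W - b).continuous
  rw [← e1] at e2
  have e3 : ∫ z, ‖(W - b) z‖ ^ 2 ∂θ = ∫ z, ‖(W - b) z‖ ^ 2 ∂ν := by
    have h1 : IsC S (k + 1) (fun z => ((‖(W - b) z‖ ^ 2 : ℝ) : ℂ)) := by
      refine ⟨Complex.continuous_ofReal.comp ((W - b).continuous.norm.pow 2), fun h hh z => ?_⟩
      obtain ⟨c, hc1, hcF⟩ := W_char hk n hh
      beta_reduce
      rw [hcF _ hbW, norm_mul, hc1, one_mul]
    have h2 := hUE θ inferInstance hθ _ h1
    rw [integral_complex_ofReal, integral_complex_ofReal] at h2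
    exact_mod_cast h2
  have e4 : ∫ z, ‖(W - b) z‖ ^ 2 ∂ν = ‖L (W - b)‖ ^ 2 := by
    have h1 := ContinuousMap.inner_toLp (𝕜 := ℂ) ν (W - b) (W - b)
    rw [inner_self_eq_norm_sq_to_K] at h1
    have h2 : ∫ z, (W - b) z * conj ((W - b) z) ∂ν = ((∫ z, ‖(W - b) z‖ ^ 2 ∂ν : ℝ) : ℂ) := by
      rw [← integral_complex_ofReal]
      refine integral_congr_ae (Eventually.of_forall fun z => ?_)
      beta_reduce
      rw [Complex.mul_conj, Complex.normSq_eq_norm_sq]
    rw [h2] at h1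
    have h3 : ((‖L (W - b)‖ ^ 2 : ℝ) : ℂ) = ((∫ z, ‖(W - b) z‖ ^ 2 ∂ν : ℝ) : ℂ) := by
      rw [← h1]; push_cast; rfl
    exact_mod_cast h3.symm
  rw [e3, e4] at e2
  have e5 : ‖L (W - b)‖ < ‖∫ z, W z ∂θ‖ := by
    rw [map_sub, ← dist_eq_norm]; exact hb2
  have e6 : ‖L (W - b)‖ ^ 2 < ‖∫ z, W z ∂θ‖ ^ 2 := pow_lt_pow_left₀ e5 (norm_nonneg _) two_ne_zero
  linarith

lemma UE_step (hνG : ∀ g : G, MeasurePreserving (fun z : Ξ => g • z) ν ν)
    (hντ : ∀ j, MeasurePreserving (S.τ j) ν ν) {k : ℕ} (hk : k < S.D)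
    (hUE : UE S ν (k + 1)) : UE S ν k := by
  have key : ∀ θ : Measure Ξ, IsProbabilityMeasure θ → (∀ j, θ.map (S.τ j) = θ) →
      ∀ F, IsC S k F → ∫ z, F z ∂θ = ∫ z, FC S k 0 F z ∂θ := by
    intro θ hθp hθ F hF
    set φ : ℝ → ℂ := fun t => ∫ z, F (S.w k t • z) ∂θ with hφ
    have hper : Function.Periodic φ 1 := by
      intro t
      simp only [hφ]
      refine integral_congr_ae (Eventually.of_forall fun z => ?_)
      exact hF.periodic hk z t
    have hcont : Continuous φ := by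
      obtain ⟨C, hC⟩ := cont_bdd hF.1
      refine continuous_of_dominated (bound := fun _ => C) (fun t => ?_) (fun t => ?_)
        (integrable_const _) ?_
      · exact (hF.1.comp (continuous_const_smul _)).aestronglyMeasurable
      · exact Eventually.of_forall fun z => hC _
      · refine Eventually.of_forall fun z => ?_
        exact hF.1.comp ((S.w_cont k hk).smul continuous_const)
    have hco : ∀ n : ℤ, n ≠ 0 →
        ∫ t in (0 : ℝ)..1, Complex.exp (-(2 * Real.pi * n * t * Complex.I)) * φ t = 0 := by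
      intro n hn
      rw [← integral_FC hk n hF.1 θ]
      exact weight_zero hνG hντ hk hUE n hn ⟨FC S k n F, FC_continuous hk n hF.1⟩
        (FC_isW hk n hF) hθ
    have h1 := fourier_const hcont hper hco 0
    have h2 : φ 0 = ∫ z, F z ∂θ := by
      simp only [hφ]
      rw [w_zero hk]
      simp
    rw [← h2, h1, integral_FC hk 0 hF.1 θ]
    refine intervalIntegral.integral_congr fun t _ => ?_
    simp [hφ]
  intro θ hθp hθ F hF
  rw [key θ hθp hθ F hF, key ν inferInstance (fun j => (hντ j).map_eq) F hF]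
  exact hUE θ hθp hθ _ (FC_zero_isC hk hF)

end MPd26.Nil.PM

namespace MPd26.Nil

/-- P -/
theorem specP : SpecP := by
  intro Ξ G J _ _ _ _ _ _ _ _ _ _ _ _ S
  obtain ⟨ν, hν, hG, hτ⟩ := PM.exists_nu S
  have hνG : ∀ g : G, MeasurePreserving (fun z : Ξ => g • z) ν ν := fun g =>
    ⟨(continuous_const_smul g).measurable, hG g⟩
  have hντ : ∀ j, MeasurePreserving (S.τ j) ν ν := fun j => ⟨(S.τ_cont j).measurable, hτ j⟩
  have hUE : ∀ i, i ≤ S.D → PM.UE S ν (S.D - i) := by
    intro i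
    induction i with
    | zero =>
      intro _ θ hθp hθ F hF
      obtain ⟨z0⟩ := ‹Nonempty Ξ›
      have hconst : F = fun _ => F z0 := by
        funext z
        obtain ⟨g, hg⟩ := S.trans z0 z
        rw [← hg]
        refine hF.2 g ?_ z0
        rw [Nat.sub_zero, S.H_top]; trivial
      rw [hconst]; simp
    | succ i ih =>
      intro hi
      have h1 := ih (by omega)
      refine PM.UE_step hνG hντ (by omega) ?_
      rwa [show S.D - (i + 1) + 1 = S.D - i by omega]
  refine ⟨ν, hν, hG, hτ, fun θ hθp hθ => ?_⟩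
  have h0 := hUE S.D le_rfl
  rw [Nat.sub_self] at h0
  refine PM.meas_ext fun F hF => h0 θ hθp hθ F ⟨hF, fun h hh z => ?_⟩
  rw [S.H_zero, Subgroup.mem_bot] at hh
  rw [hh, one_smul]

end MPd26.Nil
end

section
/-!
# MP_d26cd8_an, part NIL, module POL: polynomial functions on `(Bool → ℤ) × κ`
-/
set_option autoImplicit false

open Finset Polynomial

namespace MPd26.Nil

namespace PolM

variable {𝕜 : Type} [Field 𝕜] {κ : Type}

/-- difference operator -/
def dl (c : Bool) (f : Ix κ → 𝕜) : Ix κ → 𝕜 := fun x => f (sh c x) - f x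

lemma mem_succ {k : ℕ} {f : Ix κ → 𝕜} : f ∈ Pol 𝕜 κ (k + 1) ↔ ∀ c, dl c f ∈ Pol 𝕜 κ k := Iff.rfl

lemma mem_zero {f : Ix κ → 𝕜} : f ∈ Pol 𝕜 κ 0 ↔ f = 0 := Iff.rfl

lemma zero_mem (k : ℕ) : (0 : Ix κ → 𝕜) ∈ Pol 𝕜 κ k := by
  induction k with
  | zero => rfl
  | succ k ih =>
    rw [mem_succ]
    intro c
    have : dl c (0 : Ix κ → 𝕜) = 0 := by
      funext x; simp [dl]
    rw [this]; exact ih

lemma add_mem : ∀ (k : ℕ) (f g : Ix κ → 𝕜), f ∈ Pol 𝕜 κ k → g ∈ Pol 𝕜 κ k → f + g ∈ Pol 𝕜 κ k := by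
  intro k
  induction k with
  | zero =>
    intro f g hf hg
    rw [mem_zero] at *
    rw [hf, hg, add_zero]
  | succ k ih =>
    intro f g hf hg
    rw [mem_succ] at *
    intro c
    have : dl c (f + g) = dl c f + dl c g := by
      funext x; simp [dl]; ring
    rw [this]
    exact ih _ _ (hf c) (hg c)

lemma smul_mem : ∀ (k : ℕ) (c : 𝕜) (f : Ix κ → 𝕜), f ∈ Pol 𝕜 κ k → c • f ∈ Pol 𝕜 κ k := by
  intro k
  induction k with
  | zero =>
    intro c f hf
    rw [mem_zero] at *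
    rw [hf, smul_zero]
  | succ k ih =>
    intro c f hf
    rw [mem_succ] at *
    intro b
    have : dl b (c • f) = c • dl b f := by
      funext x; simp [dl]; ring
    rw [this]
    exact ih _ _ (hf b)

/-- the submodule of polynomial functions of degree `< k` -/
def PolS (𝕜 : Type) [Field 𝕜] (κ : Type) (k : ℕ) : Submodule 𝕜 (Ix κ → 𝕜) where
  carrier := Pol 𝕜 κ k
  add_mem' := fun {f g} hf hg => add_mem k f g hf hg
  zero_mem' := zero_mem k
  smul_mem' := fun c f hf => smul_mem k c f hf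

lemma mem_PolS {k : ℕ} {f : Ix κ → 𝕜} : f ∈ PolS 𝕜 κ k ↔ f ∈ Pol 𝕜 κ k := Iff.rfl

lemma span_Pol (k : ℕ) : Submodule.span 𝕜 (Pol 𝕜 κ k) = PolS 𝕜 κ k :=
  Submodule.span_eq (PolS 𝕜 κ k)

lemma le_succ (k : ℕ) : Pol 𝕜 κ k ⊆ Pol 𝕜 κ (k + 1) := by
  induction k with
  | zero =>
    intro f hf
    rw [mem_zero] at hf
    rw [hf]
    exact zero_mem _
  | succ k ih =>
    intro f hf
    rw [mem_succ] at *
    intro c
    exact ih (hf c)

lemma mono {k l : ℕ} (h : k ≤ l) : Pol 𝕜 κ k ⊆ Pol 𝕜 κ l := by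
  induction l, h using Nat.le_induction with
  | base => exact subset_rfl
  | succ l _ ih => exact ih.trans (le_succ l)

lemma sh_mem {k : ℕ} {f : Ix κ → 𝕜} (hf : f ∈ Pol 𝕜 κ k) (c : Bool) :
    (fun x => f (sh c x)) ∈ Pol 𝕜 κ k := by
  have e : (fun x => f (sh c x)) = f + dl c f := by
    funext x; simp [dl]
  rw [e]
  apply add_mem k _ _ hf
  cases k with
  | zero =>
    rw [mem_zero] at *
    rw [hf]; funext x; simp [dl]
  | succ k => exact le_succ k (mem_succ.1 hf c)

lemma mul_mem_aux : ∀ (n k l : ℕ), k + l = n → ∀ (f g : Ix κ → 𝕜), f ∈ Pol 𝕜 κ (k + 1) →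
    g ∈ Pol 𝕜 κ (l + 1) → f * g ∈ Pol 𝕜 κ (k + l + 1) := by
  intro n
  induction n with
  | zero =>
    intro k l h f g hf hg
    obtain ⟨rfl, rfl⟩ : k = 0 ∧ l = 0 := by omega
    rw [mem_succ] at *
    intro c
    have hf' := mem_zero.1 (hf c)
    have hg' := mem_zero.1 (hg c)
    rw [mem_zero]
    funext x
    have h1 : f (sh c x) - f x = 0 := congrFun hf' x
    have h2 : g (sh c x) - g x = 0 := congrFun hg' x
    show f (sh c x) * g (sh c x) - f x * g x = 0
    rw [sub_eq_zero] at h1 h2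
    rw [h1, h2, sub_self]
  | succ n ih =>
    intro k l h f g hf hg
    rw [mem_succ]
    intro c
    have e : dl c (f * g) = dl c f * (fun x => g (sh c x)) + f * dl c g := by
      funext x
      simp only [dl, Pi.mul_apply, Pi.add_apply]
      ring
    rw [e]
    apply add_mem
    · have hfc := mem_succ.1 hf c
      cases k with
      | zero =>
        rw [mem_zero.1 hfc, zero_mul]
        exact zero_mem _
      | succ k =>
        have := ih k l (by omega) _ _ hfc (sh_mem hg c)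
        have e2 : k + 1 + l = k + l + 1 := by omega
        rw [e2]; exact this
    · have hgc := mem_succ.1 hg c
      cases l with
      | zero =>
        rw [mem_zero.1 hgc, mul_zero]
        exact zero_mem _
      | succ l =>
        have := ih k l (by omega) _ _ hf hgc
        have e2 : k + (l + 1) = k + l + 1 := by omega
        rw [e2]; exact this

lemma mul_mem {k l : ℕ} {f g : Ix κ → 𝕜} (hf : f ∈ Pol 𝕜 κ (k + 1)) (hg : g ∈ Pol 𝕜 κ (l + 1)) :
    f * g ∈ Pol 𝕜 κ (k + l + 1) := mul_mem_aux (k + l) k l rfl f g hf hg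

lemma const_mem (u : κ → 𝕜) : (fun x : Ix κ => u x.2) ∈ Pol 𝕜 κ 1 := by
  rw [mem_succ]
  intro c
  rw [mem_zero]
  funext x
  simp [dl, sh]

lemma coord_mem (a : κ → Bool) (n : 𝕜) :
    (fun x : Ix κ => ((x.1 (a x.2) : ℤ) : 𝕜) + n) ∈ Pol 𝕜 κ 2 := by
  rw [mem_succ]
  intro c
  have e : dl c (fun x : Ix κ => ((x.1 (a x.2) : ℤ) : 𝕜) + n) =
      fun x : Ix κ => (fun k => if a k = c then (1 : 𝕜) else 0) x.2 := by
    funext x
    simp only [dl, sh, Pi.add_apply]
    by_cases h : a x.2 = c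
    · rw [h, Pi.single_eq_same]
      simp
    · rw [Pi.single_eq_of_ne h]
      simp [h]
  rw [e]
  exact const_mem (𝕜 := 𝕜) (fun k => if a k = c then (1 : 𝕜) else 0)

lemma pow_mem (a : κ → Bool) (n : 𝕜) (d : ℕ) :
    (fun x : Ix κ => (((x.1 (a x.2) : ℤ) : 𝕜) + n) ^ d) ∈ Pol 𝕜 κ (d + 1) := by
  induction d with
  | zero =>
    have := const_mem (𝕜 := 𝕜) (κ := κ) (fun _ => 1)
    simpa using this
  | succ d ih =>
    have := mul_mem ih (coord_mem a n)
    have e : (fun x : Ix κ => (((x.1 (a x.2) : ℤ) : 𝕜) + n) ^ (d + 1)) =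
        (fun x : Ix κ => (((x.1 (a x.2) : ℤ) : 𝕜) + n) ^ d) *
          (fun x : Ix κ => ((x.1 (a x.2) : ℤ) : 𝕜) + n) := by
      funext x; simp [pow_succ]
    rw [e]; exact this

lemma sum_mem {k : ℕ} {ι : Type*} (s : Finset ι) (f : ι → Ix κ → 𝕜)
    (h : ∀ i ∈ s, f i ∈ Pol 𝕜 κ k) : ∑ i ∈ s, f i ∈ Pol 𝕜 κ k :=
  (PolS 𝕜 κ k).sum_mem h

lemma eval_mem (P : κ → 𝕜[X]) (a : κ → Bool) (n : 𝕜) (D : ℕ) (hP : ∀ k, (P k).natDegree ≤ D) :
    (fun x : Ix κ => (P x.2).eval (((x.1 (a x.2) : ℤ) : 𝕜) + n)) ∈ Pol 𝕜 κ (D + 1) := by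
  have e : (fun x : Ix κ => (P x.2).eval (((x.1 (a x.2) : ℤ) : 𝕜) + n)) =
      ∑ d ∈ range (D + 1), (fun x : Ix κ => (fun k => (P k).coeff d) x.2) *
        (fun x : Ix κ => (((x.1 (a x.2) : ℤ) : 𝕜) + n) ^ d) := by
    funext x
    rw [Finset.sum_apply, eval_eq_sum_range' (Nat.lt_succ_of_le (hP x.2))]
    rfl
  rw [e]
  refine sum_mem _ _ fun d hd => ?_
  rw [mem_range] at hd
  have h1 := mul_mem (const_mem fun k => (P k).coeff d) (pow_mem a n d)
  rw [zero_add] at h1
  exact mono (by omega) h1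

/-- functions with vanishing differences are constant in the first variable -/
lemma eq_of_dl_zero {f : Ix κ → 𝕜} (h : ∀ c, dl c f = 0) (i : Bool → ℤ) (k : κ) :
    f (i, k) = f (0, k) := by
  have h1 : ∀ (c : Bool) (i : Bool → ℤ), f (i + Pi.single c 1, k) = f (i, k) := by
    intro c i
    exact sub_eq_zero.1 (congrFun (h c) (i, k))
  have h2 : ∀ (c : Bool) (n : ℤ) (i : Bool → ℤ), f (i + Pi.single c n, k) = f (i, k) := by
    intro c n
    induction n using Int.induction_on with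
    | zero => intro i; rw [Pi.single_zero, add_zero]
    | succ n ih =>
      intro i
      rw [Pi.single_add, ← add_assoc, h1, ih]
    | pred n ih =>
      intro i
      have := h1 c (i + Pi.single c (-(n : ℤ) - 1))
      rw [add_assoc, ← Pi.single_add, sub_add_cancel] at this
      rw [← this, ih]
  have e : i = 0 + Pi.single false (i false) + Pi.single true (i true) := by
    funext b
    cases b <;> simp
  rw [e, h2, h2]

lemma finDim [Finite κ] (k : ℕ) : FiniteDimensional 𝕜 (PolS 𝕜 κ k) := by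
  induction k with
  | zero =>
    have : PolS 𝕜 κ 0 = ⊥ := by
      ext f
      exact mem_zero
    rw [this]
    infer_instance
  | succ k ih =>
    let L : PolS 𝕜 κ (k + 1) →ₗ[𝕜] (Bool → PolS 𝕜 κ k) × (κ → 𝕜) :=
      { toFun := fun f => (fun c => ⟨dl c f.1, mem_succ.1 f.2 c⟩, fun j => f.1 (0, j))
        map_add' := by
          intro f g
          refine Prod.ext ?_ ?_
          · funext c
            apply Subtype.ext
            funext x
            simp only [dl, Submodule.coe_add, Pi.add_apply, Prod.fst_add]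
            ring
          · funext j; rfl
        map_smul' := by
          intro c f
          refine Prod.ext ?_ ?_
          · funext b
            apply Subtype.ext
            funext x
            simp only [dl, Submodule.coe_smul, Pi.smul_apply, smul_eq_mul, RingHom.id_apply,
              Prod.smul_fst]
            ring
          · funext j; rfl }
    have hL : Function.Injective L := by
      rw [injective_iff_map_eq_zero]
      intro f hf
      have h1 : ∀ c, dl c f.1 = 0 := by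
        intro c
        have := congrFun (congrArg Prod.fst hf) c
        exact congrArg Subtype.val this
      have h2 : ∀ j, f.1 (0, j) = 0 := by
        intro j
        exact congrFun (congrArg Prod.snd hf) j
      apply Subtype.ext
      funext x
      obtain ⟨i, j⟩ := x
      rw [eq_of_dl_zero h1, h2]
      rfl
    have : Finite Bool := inferInstance
    exact FiniteDimensional.of_injective L hL

end PolM

theorem specPol : SpecPol := by
  intro 𝕜 _ _ κ
  refine ⟨PolM.add_mem, PolM.smul_mem, fun k l h => PolM.mono h, fun k l f g => PolM.mul_mem,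
    PolM.eval_mem, PolM.const_mem, ?_⟩
  intro hκ k
  rw [PolM.span_Pol]
  exact PolM.finDim k

end MPd26.Nil
end

section
/-!
# MP_d26cd8_an, part NIL, module POLGEN: Lie algebras of polynomial maps
-/
set_option autoImplicit false

open Finset

namespace MPd26.Nil

namespace PolGenM

open PolM CptM

variable {κ : Type} {m : ℕ}

/-- weights -/
def wt (D s : ℕ) (p q : Fin m) : ℕ := if (p : ℕ) < q then D * (q - p) + 1 - s else 0

/-- weighted spaces of polynomial maps -/
def Fw (κ : Type) (m D s : ℕ) : Submodule ℚ (Ix κ → MatQ m) where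
  carrier := {v | ∀ p q : Fin m, (fun x => v x p q) ∈ Pol ℚ κ (wt D s p q)}
  add_mem' := by
    intro v w hv hw p q
    exact add_mem _ _ _ (hv p q) (hw p q)
  zero_mem' := by
    intro p q
    exact zero_mem _
  smul_mem' := by
    intro c v hv p q
    exact smul_mem _ c _ (hv p q)

lemma mem_Fw {D s : ℕ} {v : Ix κ → MatQ m} :
    v ∈ Fw κ m D s ↔ ∀ p q : Fin m, (fun x => v x p q) ∈ Pol ℚ κ (wt D s p q) := Iff.rfl

lemma Fw_zero {D s : ℕ} {v : Ix κ → MatQ m} (hv : v ∈ Fw κ m D s) {p q : Fin m}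
    (h : wt D s p q = 0) (x : Ix κ) : v x p q = 0 := by
  have h1 := hv p q
  rw [h, PolM.mem_zero] at h1
  exact congrFun h1 x

lemma mul_aux {D D' s s' t t' : ℕ}
    (h : ∀ a b : ℕ, 1 ≤ a → 1 ≤ b → s ≤ D * a → t ≤ D' * b →
      D * a - s + (D' * b - t) + 1 ≤ t' * (a + b) + 1 - s')
    {v w : Ix κ → MatQ m} (hv : v ∈ Fw κ m D s) (hw : w ∈ Fw κ m D' t) :
    v * w ∈ Fw κ m t' s' := by
  intro p q
  have e : (fun x => (v * w) x p q) = ∑ r : Fin m, (fun x => v x p r) * (fun x => w x r q) := by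
    funext x
    rw [Finset.sum_apply]
    show (v x * w x) p q = _
    rw [Matrix.mul_apply]
    rfl
  rw [e]
  refine sum_mem _ _ fun r _ => ?_
  have zl : (∀ x, v x p r = 0) → ((fun x => v x p r) * (fun x => w x r q)) ∈ Pol ℚ κ (wt t' s' p q) := by
    intro h0
    have : ((fun x => v x p r) * (fun x => w x r q)) = (0 : Ix κ → ℚ) := by
      funext x
      show v x p r * w x r q = 0
      rw [h0, zero_mul]
    rw [this]; exact zero_mem _
  have zr : (∀ x, w x r q = 0) → ((fun x => v x p r) * (fun x => w x r q)) ∈ Pol ℚ κ (wt t' s' p q) := by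
    intro h0
    have : ((fun x => v x p r) * (fun x => w x r q)) = (0 : Ix κ → ℚ) := by
      funext x
      show v x p r * w x r q = 0
      rw [h0, mul_zero]
    rw [this]; exact zero_mem _
  by_cases hpr : (p : ℕ) < r
  · by_cases hrq : (r : ℕ) < q
    · obtain ⟨a, ha⟩ : ∃ a : ℕ, (r : ℕ) - p = a := ⟨_, rfl⟩
      obtain ⟨b, hb⟩ : ∃ b : ℕ, (q : ℕ) - r = b := ⟨_, rfl⟩
      have ha1 : 1 ≤ a := by omega
      have hb1 : 1 ≤ b := by omega
      have hab : (q : ℕ) - p = a + b := by omega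
      have hpq : (p : ℕ) < q := by omega
      have e1 : wt D s p r = D * a + 1 - s := by rw [wt, if_pos hpr, ha]
      have e2 : wt D' t r q = D' * b + 1 - t := by rw [wt, if_pos hrq, hb]
      have e3 : wt t' s' p q = t' * (a + b) + 1 - s' := by rw [wt, if_pos hpq, hab]
      by_cases c1 : s ≤ D * a
      · by_cases c2 : t ≤ D' * b
        · have h1 := hv p r
          have h2 := hw r q
          rw [e1, show D * a + 1 - s = (D * a - s) + 1 by omega] at h1
          rw [e2, show D' * b + 1 - t = (D' * b - t) + 1 by omega] at h2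
          rw [e3]
          exact mono (h a b ha1 hb1 c1 c2) (mul_mem h1 h2)
        · exact zr fun x => Fw_zero hw (by rw [e2]; omega) x
      · exact zl fun x => Fw_zero hv (by rw [e1]; omega) x
    · exact zr fun x => Fw_zero hw (by rw [wt, if_neg hrq]) x
  · exact zl fun x => Fw_zero hv (by rw [wt, if_neg hpr]) x

lemma mul_mem0 {D : ℕ} {v w : Ix κ → MatQ m} (hv : v ∈ Fw κ m D 0) (hw : w ∈ Fw κ m D 0) :
    v * w ∈ Fw κ m D 0 := by
  refine mul_aux (fun a b _ _ _ _ => ?_) hv hw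
  rw [Nat.mul_add]
  omega

lemma mul_left {D s : ℕ} {v w : Ix κ → MatQ m} (hv : v ∈ Fw κ m D 0)
    (hw : w ∈ Fw κ m (D + 1) s) : v * w ∈ Fw κ m (D + 1) (s + 1) := by
  refine mul_aux (fun a b ha hb _ h2 => ?_) hv hw
  rw [Nat.mul_add, Nat.add_mul D 1 a, one_mul]
  omega

lemma mul_right {D s : ℕ} {v w : Ix κ → MatQ m} (hv : v ∈ Fw κ m D 0)
    (hw : w ∈ Fw κ m (D + 1) s) : w * v ∈ Fw κ m (D + 1) (s + 1) := by
  refine mul_aux (fun a b ha hb h1 _ => ?_) hw hv
  rw [Nat.mul_add, Nat.add_mul D 1 b, one_mul]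
  omega

lemma Fw_mono {D D' s s' : ℕ} (hD : D ≤ D') (hs : s' ≤ s) : Fw κ m D s ≤ Fw κ m D' s' := by
  intro v hv p q
  refine mono ?_ (hv p q)
  unfold wt
  split_ifs with h
  · have : D * (q - p) ≤ D' * (q - p) := Nat.mul_le_mul_right _ hD
    omega
  · exact le_rfl

lemma Fw_su {D s : ℕ} {v : Ix κ → MatQ m} (hv : v ∈ Fw κ m D s) : SU (castM v) := by
  intro x i j h
  show ((v x i j : ℚ) : ℝ) = 0
  rw [Fw_zero hv (by rw [wt, if_neg (by omega)])]
  simp

lemma Fw_bot (D : ℕ) : Fw κ m D (D * m + 1) = ⊥ := by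
  rw [eq_bot_iff]
  intro v hv
  rw [Submodule.mem_bot]
  funext x
  ext p q
  refine Fw_zero hv ?_ x
  unfold wt
  split_ifs with h
  · have : D * (q - p) ≤ D * m := Nat.mul_le_mul_left _ (by omega)
    omega
  · rfl

lemma sh_sub_mem {D s : ℕ} {v : Ix κ → MatQ m} (hv : v ∈ Fw κ m D s) (c : Bool) :
    (fun x => v (sh c x)) - v ∈ Fw κ m D (s + 1) := by
  intro p q
  have h1 := hv p q
  have e : (fun x => ((fun x => v (sh c x)) - v) x p q) = dl c (fun x => v x p q) := rfl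
  rw [e]
  rcases Nat.eq_zero_or_pos (wt D s p q) with h | h
  · have : (fun x => v x p q) = 0 := by
      rw [h, PolM.mem_zero] at h1; exact h1
    rw [this]
    have e0 : dl c (0 : Ix κ → ℚ) = 0 := by funext x; simp [dl]
    rw [e0]
    exact zero_mem _
  · obtain ⟨k, hk⟩ := Nat.exists_eq_succ_of_ne_zero h.ne'
    rw [hk] at h1
    have h2 := mem_succ.1 h1 c
    refine mono ?_ h2
    unfold wt at hk ⊢
    split_ifs at hk ⊢ with hpq
    · omega

/-- constant strictly upper triangular matrices -/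
lemma const_mem_Fw (D : ℕ) (N : MatQ m) (hN : ∀ p q : Fin m, (q : ℕ) ≤ p → N p q = 0) :
    (fun _ : Ix κ => N) ∈ Fw κ m D 0 := by
  intro p q
  unfold wt
  split_ifs with h
  · refine mono (k := 1) (by omega) ?_
    exact const_mem (𝕜 := ℚ) (κ := κ) fun _ => N p q
  · rw [PolM.mem_zero]
    funext x
    exact hN p q (by omega)

/-- bounded denominators -/
lemma bd_pol [Finite κ] : ∀ (k : ℕ) (f : Ix κ → ℚ), f ∈ Pol ℚ κ k →
    ∃ N : ℕ, 0 < N ∧ ∀ x, ∃ z : ℤ, (N : ℚ) * f x = z := by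
  have := Fintype.ofFinite κ
  intro k
  induction k with
  | zero =>
    intro f hf
    rw [PolM.mem_zero] at hf
    exact ⟨1, one_pos, fun x => ⟨0, by rw [hf]; simp⟩⟩
  | succ k ih =>
    intro f hf
    choose N hN0 hN using fun c => ih (dl c f) (mem_succ.1 hf c)
    set M : ℕ := ∏ j : κ, (f (0, j)).den with hM
    have hM0 : 0 < M := Finset.prod_pos fun j _ => (f (0, j)).den_pos
    refine ⟨N false * N true * M, Nat.mul_pos (Nat.mul_pos (hN0 _) (hN0 _)) hM0, ?_⟩
    set L : ℕ := N false * N true * M with hL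
    have hΔ : ∀ c x, ∃ z : ℤ, (L : ℚ) * (f (sh c x) - f x) = z := by
      intro c x
      obtain ⟨z, hz⟩ := hN c x
      have hz' : (N c : ℚ) * (f (sh c x) - f x) = z := hz
      have hd : N c ∣ L := by
        cases c
        · exact ⟨N true * M, by rw [hL]; ring⟩
        · exact ⟨N false * M, by rw [hL]; ring⟩
      obtain ⟨t, ht⟩ := hd
      refine ⟨t * z, ?_⟩
      rw [ht]
      push_cast
      rw [← hz']
      ring
    have h0 : ∀ j, ∃ z : ℤ, (L : ℚ) * f (0, j) = z := by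
      intro j
      have hd : (f (0, j)).den ∣ M := Finset.dvd_prod_of_mem _ (mem_univ j)
      obtain ⟨t, ht⟩ := hd
      refine ⟨N false * N true * t * (f (0, j)).num, ?_⟩
      rw [hL, ht]
      push_cast
      have h3 : ((f (0, j)).den : ℚ) * f (0, j) = (f (0, j)).num := Rat.den_mul_eq_num _
      linear_combination ((N false : ℚ) * N true * t) * h3
    have step : ∀ (c : Bool) (i : Bool → ℤ) (j : κ), (∃ z : ℤ, (L : ℚ) * f (i, j) = z) ↔
        ∃ z : ℤ, (L : ℚ) * f (i + Pi.single c 1, j) = z := by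
      intro c i j
      obtain ⟨y, hy⟩ := hΔ c (i, j)
      have hy' : (L : ℚ) * (f (i + Pi.single c 1, j) - f (i, j)) = y := hy
      constructor
      · rintro ⟨z, hz⟩
        exact ⟨z + y, by push_cast; rw [← hz, ← hy']; ring⟩
      · rintro ⟨z, hz⟩
        exact ⟨z - y, by push_cast; rw [← hz, ← hy']; ring⟩
    have steps : ∀ (c : Bool) (n : ℤ) (i : Bool → ℤ) (j : κ), (∃ z : ℤ, (L : ℚ) * f (i, j) = z) →
        ∃ z : ℤ, (L : ℚ) * f (i + Pi.single c n, j) = z := by
      intro c n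
      induction n using Int.induction_on with
      | zero => intro i j h; rwa [Pi.single_zero, add_zero]
      | succ n ih =>
        intro i j h
        rw [Pi.single_add, ← add_assoc]
        exact (step c _ j).1 (ih i j h)
      | pred n ih =>
        intro i j h
        rw [step c _ j, add_assoc, ← Pi.single_add, sub_add_cancel]
        exact ih i j h
    intro x
    obtain ⟨i, j⟩ := x
    have e : i = 0 + Pi.single false (i false) + Pi.single true (i true) := by
      funext b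
      cases b <;> simp
    rw [e]
    exact steps _ _ _ _ (steps _ _ _ _ (h0 j))

lemma bd_Fw [Finite κ] {D s : ℕ} {v : Ix κ → MatQ m} (hv : v ∈ Fw κ m D s) :
    ∃ N : ℕ, 0 < N ∧ IntV ((N : ℚ) • v) := by
  choose N hN0 hN using fun p q => bd_pol _ _ (hv p q)
  refine ⟨∏ p, ∏ q, N p q, Finset.prod_pos fun p _ => Finset.prod_pos fun q _ => hN0 p q, ?_⟩
  intro x p q
  have hd : N p q ∣ ∏ p, ∏ q, N p q :=
    (Finset.dvd_prod_of_mem (fun q => N p q) (mem_univ q)).trans
      (Finset.dvd_prod_of_mem (fun p => ∏ q, N p q) (mem_univ p))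
  obtain ⟨t, ht⟩ := hd
  obtain ⟨z, hz⟩ := hN p q x
  refine ⟨t * z, ?_⟩
  show ((∏ p, ∏ q, N p q : ℕ) : ℚ) * v x p q = _
  rw [ht]
  push_cast
  rw [← hz]
  ring

lemma finDim_Fw [Finite κ] (D s : ℕ) : FiniteDimensional ℚ (Fw κ m D s) := by
  have hfd : ∀ p q : Fin m, FiniteDimensional ℚ (PolS ℚ κ (wt D s p q)) := fun p q => finDim _
  let L : Fw κ m D s →ₗ[ℚ] (∀ p q : Fin m, PolS ℚ κ (wt D s p q)) :=
    { toFun := fun v p q => ⟨fun x => v.1 x p q, v.2 p q⟩
      map_add' := by intro v w; rfl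
      map_smul' := by intro c v; rfl }
  have hL : Function.Injective L := by
    intro v w h
    apply Subtype.ext
    funext x
    ext p q
    have h1 := congrArg Subtype.val (congrFun (congrFun h p) q)
    exact congrFun h1 x
  exact FiniteDimensional.of_injective L hL

/-- closed under brackets -/
def LieC (W : Submodule ℚ (Ix κ → MatQ m)) : Prop := ∀ q ∈ W, ∀ r ∈ W, q * r - r * q ∈ W

/-- the Lie algebra generated by `S` -/
def gen (S : Set (Ix κ → MatQ m)) : Submodule ℚ (Ix κ → MatQ m) :=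
  sInf {W | S ⊆ W ∧ LieC W}

lemma subset_gen (S : Set (Ix κ → MatQ m)) : S ⊆ gen S := by
  intro q hq
  rw [SetLike.mem_coe, gen, Submodule.mem_sInf]
  exact fun W hW => hW.1 hq

lemma gen_le (S : Set (Ix κ → MatQ m)) (W : Submodule ℚ (Ix κ → MatQ m)) (h1 : S ⊆ W)
    (h2 : LieC W) : gen S ≤ W := sInf_le ⟨h1, h2⟩

lemma gen_lie (S : Set (Ix κ → MatQ m)) : LieC (gen S) := by
  intro q hq r hr
  rw [gen, Submodule.mem_sInf] at *
  exact fun W hW => hW.2 q (hq W hW) r (hr W hW)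

/-- shifts as algebra homomorphisms -/
def shL (c : Bool) : (Ix κ → MatQ m) →ₗ[ℚ] (Ix κ → MatQ m) where
  toFun q := fun x => q (sh c x)
  map_add' _ _ := rfl
  map_smul' _ _ := rfl

/-- conjugation by a rational matrix -/
def adL (G G' : MatQ m) : (Ix κ → MatQ m) →ₗ[ℚ] (Ix κ → MatQ m) where
  toFun q := fun x => G * q x * G'
  map_add' q r := by
    funext x
    show G * (q x + r x) * G' = G * q x * G' + G * r x * G'
    noncomm_ring
  map_smul' c q := by
    funext x
    show G * (c • q x) * G' = c • (G * q x * G')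
    rw [Matrix.mul_smul, Matrix.smul_mul]

/-- integral matrices are rational -/
lemma exists_rat {g : UT m} (hg : g ∈ LT m) : ∃ G : MatQ m,
    G.map (fun x : ℚ => (x : ℝ)) = g.mat := by
  rw [mem_LT] at hg
  choose z hz using hg
  refine ⟨Matrix.of fun i j => (z i j : ℚ), ?_⟩
  ext i j
  rw [Matrix.map_apply, Matrix.of_apply, hz]
  push_cast
  rfl

lemma mapQ_inj {A B : MatQ m} (h : A.map (fun x : ℚ => (x : ℝ)) = B.map (fun x : ℚ => (x : ℝ))) :
    A = B := by
  ext i j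
  have := congrFun (congrFun h i) j
  simp only [Matrix.map_apply] at this
  exact_mod_cast this

lemma map_mul' (A B : MatQ m) : (A * B).map (fun x : ℚ => (x : ℝ)) =
    A.map (fun x : ℚ => (x : ℝ)) * B.map (fun x : ℚ => (x : ℝ)) :=
  Matrix.map_mul (f := algebraMap ℚ ℝ)

lemma map_one' : (1 : MatQ m).map (fun x : ℚ => (x : ℝ)) = 1 := by
  ext i j
  by_cases h : i = j
  · subst h; simp
  · simp [Matrix.one_apply_ne h]

lemma castM_adL {G G' : MatQ m} {γ : UT m} (hG : G.map (fun x : ℚ => (x : ℝ)) = γ.mat)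
    (hG' : G'.map (fun x : ℚ => (x : ℝ)) = (γ⁻¹).mat) (q : Ix κ → MatQ m) :
    castM (adL G G' q) = Ad (fun _ => γ) (castM q) := by
  funext x
  show (G * q x * G').map (fun x : ℚ => (x : ℝ)) = γ.mat * castM q x * (γ⁻¹).mat
  rw [map_mul', map_mul', hG, hG']
  rfl

end PolGenM

open PolGenM PolM CptM

theorem specPolGen : SpecPolGen := by
  intro κ _ m γ hγ S D hSU hPol hSh hAd
  obtain ⟨G, hG⟩ := exists_rat hγ
  obtain ⟨G', hG'⟩ := exists_rat (inv_mem hγ : γ⁻¹ ∈ LT m)
  have hinv : G' * G = 1 := by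
    apply PolGenM.mapQ_inj
    rw [map_mul', hG, hG', map_one', ← UT.mul_mat, inv_mul_cancel]
    rfl
  have hinv' : G * G' = 1 := by
    apply PolGenM.mapQ_inj
    rw [map_mul', hG, hG', map_one', ← UT.mul_mat, mul_inv_cancel]
    rfl
  have hadm : ∀ q r : Ix κ → MatQ m, adL G G' (q * r) = adL G G' q * adL G G' r := by
    intro q r
    funext x
    show G * (q x * r x) * G' = (G * q x * G') * (G * r x * G')
    calc G * (q x * r x) * G' = G * q x * 1 * r x * G' := by noncomm_ring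
      _ = G * q x * (G' * G) * r x * G' := by rw [hinv]
      _ = _ := by noncomm_ring
  -- strictly upper triangular parts
  have hsu : ∀ (g : UT m) (H : MatQ m), H.map (fun x : ℚ => (x : ℝ)) = g.mat →
      ∀ p q : Fin m, (q : ℕ) ≤ p → (H - 1) p q = 0 := by
    intro g H hH p q hpq
    have h1 := g.su p q (by omega)
    rw [← hH, Matrix.sub_apply, Matrix.map_apply] at h1
    rw [Matrix.sub_apply]
    have e : ((1 : Mat m) p q) = (((1 : MatQ m) p q : ℚ) : ℝ) := by
      rw [← map_one', Matrix.map_apply]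
    rw [e] at h1
    exact_mod_cast h1
  set B := gen S with hB
  have hSF : S ⊆ Fw κ m D 0 := by
    intro v hv p q
    have h1 := hPol v hv p q
    unfold wt
    split_ifs with h
    · refine mono ?_ h1
      have : D * 1 ≤ D * ((q : ℕ) - p) := Nat.mul_le_mul_left _ (by omega)
      omega
    · rw [PolM.mem_zero]
      funext x
      have h2 := hSU v hv x p q (by omega)
      have h3 : ((v x p q : ℚ) : ℝ) = 0 := h2
      show v x p q = 0
      exact_mod_cast h3
  have hLF : LieC (Fw κ m D 0) := fun q hq r hr => Submodule.sub_mem _ (mul_mem0 hq hr) (mul_mem0 hr hq)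
  have hBF : B ≤ Fw κ m D 0 := gen_le S _ hSF hLF
  have hBF1 : B ≤ Fw κ m (D + 1) 0 := hBF.trans (Fw_mono (Nat.le_succ D) le_rfl)
  have hBlie : LieC B := gen_lie S
  have hfdF := finDim_Fw (κ := κ) (m := m) D 0
  have hfd : FiniteDimensional ℚ B := Submodule.finiteDimensional_of_le hBF
  -- stability
  have hBsh : ∀ q ∈ B, ∀ c, (fun x => q (sh c x)) ∈ B := by
    intro q hq c
    have h1 : B ≤ B.comap (shL c) := by
      apply gen_le
      · intro r hr
        exact subset_gen S (hSh r hr c)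
      · intro r hr s hs
        exact hBlie _ hr _ hs
    exact h1 hq
  have hBad : ∀ q ∈ B, adL G G' q ∈ B := by
    intro q hq
    have h1 : B ≤ B.comap (adL G G') := by
      apply gen_le
      · intro r hr
        obtain ⟨r', hr', h2⟩ := hAd r hr
        rw [← castM_adL hG hG'] at h2
        have h3 := castM_injective h2
        show adL G G' r ∈ B
        rw [← h3]
        exact subset_gen S hr'
      · intro r hr s hs
        show adL G G' (r * s - s * r) ∈ B
        rw [map_sub, hadm, hadm]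
        exact hBlie _ hr _ hs
    exact h1 hq
  refine ⟨⟨B, hfd, fun q hq => Fw_su (hBF hq), hBlie, fun q hq => bd_Fw (hBF hq)⟩, subset_gen S,
    fun W h1 h2 => gen_le S W h1 h2, hBsh, fun q hq => ⟨adL G G' q, hBad q hq, castM_adL hG hG' q⟩,
    (D + 1) * m + 1, fun r => B ⊓ Fw κ m (D + 1) r, ?_, ?_, ?_⟩
  · exact inf_eq_left.2 hBF1
  · show B ⊓ Fw κ m (D + 1) ((D + 1) * m + 1) = ⊥
    rw [Fw_bot, inf_bot_eq]
  · intro r
    refine ⟨?_, ?_, ?_⟩
    · rw [brQ, Submodule.span_le]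
      rintro _ ⟨q, hq, s, hs, rfl⟩
      refine ⟨hBlie q hq s hs.1, ?_⟩
      exact Submodule.sub_mem _ (mul_left (hBF hq) hs.2) (mul_right (hBF hq) hs.2)
    · intro q hq c
      exact ⟨Submodule.sub_mem _ (hBsh q hq.1 c) hq.1, sh_sub_mem hq.2 c⟩
    · intro q hq
      refine ⟨adL G G' q - q, ⟨Submodule.sub_mem _ (hBad q hq.1) hq.1, ?_⟩, ?_⟩
      · have hN : (fun _ : Ix κ => G - 1) ∈ Fw κ m D 0 := const_mem_Fw D _ (hsu γ G hG)
        have hN' : (fun _ : Ix κ => G' - 1) ∈ Fw κ m D 0 := const_mem_Fw D _ (hsu γ⁻¹ G' hG')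
        set Nf : Ix κ → MatQ m := fun _ => G - 1 with hNf
        set Nf' : Ix κ → MatQ m := fun _ => G' - 1 with hNf'
        have h1 : Nf * q - q * Nf ∈ Fw κ m (D + 1) (r + 1) :=
          Submodule.sub_mem _ (mul_left hN hq.2) (mul_right hN hq.2)
        have h2 : (Nf * q - q * Nf) * Nf' ∈ Fw κ m (D + 1) (r + 1) :=
          Fw_mono le_rfl (Nat.le_succ _) (mul_right hN' h1)
        have e : adL G G' q - q = (Nf * q - q * Nf) + (Nf * q - q * Nf) * Nf' := by
          funext x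
          show G * q x * G' - q x = ((G - 1) * q x - q x * (G - 1)) +
            ((G - 1) * q x - q x * (G - 1)) * (G' - 1)
          calc G * q x * G' - q x = G * q x * G' - q x * 1 := by rw [mul_one]
            _ = G * q x * G' - q x * (G * G') := by rw [hinv']
            _ = _ := by noncomm_ring
        rw [e]
        exact Submodule.add_mem _ h1 h2
      · rw [castM_sub, castM_adL hG hG']

end MPd26.Nil
end
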