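import Pool.Agent.Lib.MP_d26cd8_an.Nil.H18Base
import Pool.Agent.Lib.MP_d26cd8_an.helper43.Irr
import Mathlib.MeasureTheory.Function.ContinuousMapDense
import Pool.Agent.Lib.MP_d26cd8_an.Nil.PolGen
import Pool.Agent.Lib.MP_d26cd8_an.Nil.NTSpec
import Mathlib.Analysis.Distribution.AEEqOfIntegralContDiff

section
/-!
# MP_d26cd8_an, part NIL: lemmas on `NData` (helper18)
-/
set_option autoImplicit false

open MeasureTheory Filter Topology

namespace MPd26.Nil.H18

variable {ι : Type} {m : ℕ}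

/-- `g` normalises `exp V` -/
def Nrm (V : Submodule ℝ (ι → Mat m)) (g : ι → UT m) : Prop :=
  ∀ v ∈ V, Ad g v ∈ V ∧ Ad g⁻¹ v ∈ V

lemma Nrm.mul {V : Submodule ℝ (ι → Mat m)} {g h : ι → UT m} (hg : Nrm V g) (hh : Nrm V h) :
    Nrm V (g * h) := fun v hv => by
  rw [Ad_mul, mul_inv_rev, Ad_mul]
  exact ⟨(hg _ (hh v hv).1).1, (hh _ (hg v hv).2).2⟩

lemma Nrm.inv {V : Submodule ℝ (ι → Mat m)} {g : ι → UT m} (hg : Nrm V g) : Nrm V g⁻¹ :=
  fun v hv => by rw [inv_inv]; exact (hg v hv).symm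

lemma Nrm.one {V : Submodule ℝ (ι → Mat m)} : Nrm V (1 : ι → UT m) := fun v hv => by
  rw [inv_one, Ad_one]; exact ⟨hv, hv⟩

lemma Nrm.zpow {V : Submodule ℝ (ι → Mat m)} {g : ι → UT m} (hg : Nrm V g) (n : ℤ) :
    Nrm V (g ^ n) := by
  induction n using Int.induction_on with
  | zero => rw [zpow_zero]; exact Nrm.one
  | succ n ih => rw [zpow_add_one]; exact ih.mul hg
  | pred n ih => rw [zpow_sub_one]; exact ih.mul hg.inv

lemma Nrm.of_GV (hN : SpecNilExp) {V : Submodule ℝ (ι → Mat m)} (hV : IsNil V) {g : ι → UT m}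
    (hg : g ∈ GV V) : Nrm V g := fun _ hv =>
  ⟨Ad_mem_idl hN hV (idl_self hV) hg hv, Ad_mem_idl hN hV (idl_self hV) (GV_inv hV hg) hv⟩

lemma Nrm.conj_mem {V : Submodule ℝ (ι → Mat m)} {g h : ι → UT m}
    (hg : Nrm V g) (hh : h ∈ GV V) : g * h * g⁻¹ ∈ GV V := by
  have : g * h * g⁻¹ = E (Ad g (Lg h)) := by rw [E_Ad g (SU_Lg h), E_Lg]
  rw [this]
  show Lg (E (Ad g (Lg h))) ∈ V
  rw [Lg_E (SU_Ad g (SU_Lg h))]
  exact (hg _ hh).1

section
variable (X : NData m)

/-- `γ` as a function -/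
noncomputable def gf : Unit → UT m := fun _ => X.γ
/-- `τ` as a function -/
noncomputable def tf : Unit → UT m := fun _ => X.τ

lemma gf_eq : gf X = E (castM X.δ) := funext fun _ => rfl
lemma tf_eq : tf X = E (castM X.δ + X.e) := funext fun _ => rfl

lemma gf_zpow (n : ℤ) : gf X ^ n = fun _ => X.γ ^ n := rfl
lemma tf_zpow (n : ℤ) : tf X ^ n = fun _ => X.τ ^ n := rfl

lemma gamma_mem : X.γ ∈ LT m := X.int

lemma gf_zpow_mem (n : ℤ) (i : Unit) : (gf X ^ n) i ∈ LT m :=
  (LT m).zpow_mem (gamma_mem X) n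

lemma der_V {v : Unit → Mat m} (hv : v ∈ X.A.V) : castM X.δ * v - v * castM X.δ ∈ X.A.V := by
  refine rs_induction (R := X.A.Q) (P := fun v => castM X.δ * v - v * castM X.δ ∈ X.A.V)
    ?_ ?_ ?_ ?_ hv
  · rw [mul_zero, zero_mul, sub_zero]; exact X.A.V.zero_mem
  · intro q hq
    rw [← castM_mul, ← castM_mul, ← castM_sub]
    exact castM_mem_rs (X.der q hq)
  · intro v w h1 h2
    have := X.A.V.add_mem h1 h2
    have e : castM X.δ * (v + w) - (v + w) * castM X.δ =
      (castM X.δ * v - v * castM X.δ) + (castM X.δ * w - w * castM X.δ) := by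
      rw [mul_add, add_mul]; abel
    rw [e]; exact this
  · intro c v h1
    have := X.A.V.smul_mem c h1
    have e : castM X.δ * (c • v) - (c • v) * castM X.δ =
      c • (castM X.δ * v - v * castM X.δ) := by
      rw [mul_smul_comm, smul_mul_assoc, smul_sub]
    rw [e]; exact this

/-- `A.V + ℝ δ` -/
noncomputable def WW : Submodule ℝ (Unit → Mat m) := X.A.V ⊔ Submodule.span ℝ {castM X.δ}

lemma mem_WW {w : Unit → Mat m} : w ∈ WW X ↔ ∃ v ∈ X.A.V, ∃ c : ℝ, w = v + c • castM X.δ := by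
  unfold WW
  rw [Submodule.mem_sup]
  constructor
  · rintro ⟨y, hy, z, hz, rfl⟩
    obtain ⟨c, rfl⟩ := Submodule.mem_span_singleton.1 hz
    exact ⟨y, hy, c, rfl⟩
  · rintro ⟨v, hv, c, rfl⟩
    exact ⟨v, hv, _, Submodule.mem_span_singleton.2 ⟨c, rfl⟩, rfl⟩

lemma V_nil (hR : SpecRatNil) (A : RAlg ι m) : IsNil A.V := (hR ι m A).1

lemma brack_WW (hR : SpecRatNil) {v w : Unit → Mat m} (hv : v ∈ WW X) (hw : w ∈ WW X) :
    v * w - w * v ∈ X.A.V := by
  obtain ⟨v, hv', c, rfl⟩ := (mem_WW X).1 hv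
  obtain ⟨w, hw', d, rfl⟩ := (mem_WW X).1 hw
  clear hv hw
  rename' hv' => hv, hw' => hw
  have h1 := (V_nil hR X.A).lie v hv w hw
  have h2 := X.A.V.smul_mem c (der_V X hw)
  have h3 := X.A.V.smul_mem d (der_V X hv)
  have e : (v + c • castM X.δ) * (w + d • castM X.δ) - (w + d • castM X.δ) * (v + c • castM X.δ)
      = (v * w - w * v) + c • (castM X.δ * w - w * castM X.δ)
        - d • (castM X.δ * v - v * castM X.δ) := by
    simp only [mul_add, add_mul, mul_smul_comm, smul_mul_assoc, smul_sub, smul_add]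
    rw [smul_comm c d]
    abel
  rw [e]
  exact X.A.V.sub_mem (X.A.V.add_mem h1 h2) h3

lemma WW_nil (hR : SpecRatNil) : IsNil (WW X) where
  fin := by
    have := (V_nil hR X.A).fin
    unfold WW
    infer_instance
  su := by
    intro w hw
    obtain ⟨v, hv, c, rfl⟩ := (mem_WW X).1 hw
    exact SU_add ((V_nil hR X.A).su v hv) (SU_smul X.su c)
  lie := fun v hv w hw => (le_sup_left : X.A.V ≤ WW X) (brack_WW X hR hv hw)

lemma WW_idl (hR : SpecRatNil) : IsIdl (WW X) X.A.V where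
  le := le_sup_left
  mem := fun _ hv _ hk => brack_WW X hR hv ((le_sup_left : X.A.V ≤ WW X) hk)

lemma delta_mem : castM X.δ ∈ WW X := (mem_WW X).2 ⟨0, X.A.V.zero_mem, 1, by rw [one_smul, zero_add]⟩

lemma nrm_WW (hN : SpecNilExp) (hR : SpecRatNil) {g : Unit → UT m} (hg : g ∈ GV (WW X)) :
    Nrm X.A.V g := fun _ hv =>
  ⟨Ad_mem_idl hN (WW_nil X hR) (WW_idl X hR) hg hv,
    Ad_mem_idl hN (WW_nil X hR) (WW_idl X hR) (GV_inv (WW_nil X hR) hg) hv⟩

lemma nrm_gf (hN : SpecNilExp) (hR : SpecRatNil) : Nrm X.A.V (gf X) := by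
  rw [gf_eq]
  exact nrm_WW X hN hR (GV_E (WW_nil X hR) (delta_mem X))

lemma nrm_tf (hN : SpecNilExp) (hR : SpecRatNil) : Nrm X.A.V (tf X) := by
  rw [tf_eq]
  refine nrm_WW X hN hR (GV_E (WW_nil X hR) ((WW X).add_mem (delta_mem X) ?_))
  exact (le_sup_left : X.A.V ≤ WW X) X.he

lemma tg_mem (hN : SpecNilExp) (hR : SpecRatNil) : tf X * (gf X)⁻¹ ∈ GV X.A.V := by
  obtain ⟨⟨k, hk, h⟩, -, -⟩ := hN Unit m (WW X) X.A.V X.A.V (WW_nil X hR) (WW_idl X hR)
    (WW_idl X hR) le_rfl (fun v hv w hw => (WW_idl X hR).mem v hv w hw) (castM X.δ) (delta_mem X)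
    X.e X.he
  rw [← tf_eq, ← gf_eq] at h
  have hV := V_nil hR X.A
  have e : tf X * (gf X)⁻¹ = gf X * (E X.e * E k) * (gf X)⁻¹ := by rw [h]; group
  rw [e]
  exact (nrm_gf X hN hR).conj_mem (GV_mul hN hV (GV_E hV X.he) (GV_E hV hk))

/-- `τ^p γ^{-p} ∈ exp A.V` -/
lemma sigma_mem (hN : SpecNilExp) (hR : SpecRatNil) (p : ℤ) :
    tf X ^ p * (gf X ^ p)⁻¹ ∈ GV X.A.V := by
  have hV := V_nil hR X.A
  induction p using Int.induction_on with
  | zero => rw [zpow_zero, zpow_zero, inv_one, mul_one]; exact GV_one hV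
  | succ n ih =>
    have e : tf X ^ ((n : ℤ) + 1) * (gf X ^ ((n : ℤ) + 1))⁻¹ =
        (tf X * (tf X ^ (n : ℤ) * (gf X ^ (n : ℤ))⁻¹) * (tf X)⁻¹) * (tf X * (gf X)⁻¹) := by
      rw [zpow_add, zpow_add, zpow_one, zpow_one]
      rw [(Commute.refl (tf X)).zpow_left (n : ℤ) |>.eq]
      group
    rw [e]
    exact GV_mul hN hV ((nrm_tf X hN hR).conj_mem ih) (tg_mem X hN hR)
  | pred n ih =>
    have e : tf X ^ (-(n : ℤ) - 1) * (gf X ^ (-(n : ℤ) - 1))⁻¹ =
        ((tf X)⁻¹ * (tf X ^ (-(n : ℤ)) * (gf X ^ (-(n : ℤ)))⁻¹) * (tf X)) *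
          ((gf X)⁻¹ * (tf X * (gf X)⁻¹) * gf X)⁻¹ := by
      have e1 : tf X ^ (-(n : ℤ) - 1) = (tf X)⁻¹ * tf X ^ (-(n : ℤ)) := by
        rw [sub_eq_add_neg, add_comm, zpow_add]; simp
      have e2 : gf X ^ (-(n : ℤ) - 1) = (gf X)⁻¹ * gf X ^ (-(n : ℤ)) := by
        rw [sub_eq_add_neg, add_comm, zpow_add]; simp
      rw [e1, e2]
      group
    rw [e]
    have h1 := (nrm_tf X hN hR).inv.conj_mem ih
    have h2 := (nrm_gf X hN hR).inv.conj_mem (tg_mem X hN hR)
    rw [inv_inv] at h1 h2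
    exact GV_mul hN hV h1 (GV_inv hV h2)

/-- powers of `τ` map the orbit to itself -/
lemma tf_orb (hN : SpecNilExp) (hR : SpecRatNil) (p : ℤ) {z : Unit → NM m}
    (hz : z ∈ orb X.A.V 1) : act (tf X ^ p) z ∈ orb X.A.V 1 := by
  obtain ⟨v, hv, rfl⟩ := hz
  have hV := V_nil hR X.A
  have h1 : tf X ^ p * (gf X ^ p)⁻¹ * E (Ad (gf X ^ p) v) ∈ GV X.A.V :=
    GV_mul hN hV (sigma_mem X hN hR p) (GV_E hV (((nrm_gf X hN hR).zpow p) v hv).1)
  refine ⟨_, h1, ?_⟩
  rw [E_Lg, act_mkp, one_mul, one_mul, E_Ad _ (hV.su v hv)]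
  have e : tf X ^ p * E v = tf X ^ p * (gf X ^ p)⁻¹ * (gf X ^ p * E v * (gf X ^ p)⁻¹) * gf X ^ p := by
    group
  rw [e]
  exact mkp_mul_int _ _ (gf_zpow_mem X p)

/-- powers of `τ` preserve Haar measure -/
lemma tf_mp (hN : SpecNilExp) (hR : SpecRatNil) (hH : SpecHaar)
    (hmeas : MeasurableSet (orb X.A.V 1)) {ν : Measure (Unit → NM m)} (hν : IsHaar X.A.V 1 ν)
    (p : ℤ) : MeasurePreserving (act (tf X ^ p)) ν ν := by
  have hV := V_nil hR X.A
  refine haar_map hH X.A 1 hν (measurable_act _) (fun z hz => tf_orb X hN hR p hz) hmeas ?_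
  intro v hv
  have hn := (nrm_tf X hN hR).zpow p
  refine ⟨Ad (tf X ^ p)⁻¹ v, (hn v hv).2, fun z => ?_⟩
  rw [← act_mul, ← act_mul, E_Ad _ (hV.su v hv)]
  congr 1
  group

end

end MPd26.Nil.H18
end

section
/-!
# MP_d26cd8_an, part NIL: module NT0, algebraic part (helper18)

From the rational Lie algebra `H` of POLY to the single coordinates, through `lie_main`.
-/
set_option autoImplicit false

open Filter Topology Polynomial

namespace MPd26.Nil

namespace NT0M

open H18 Pool.Agent.MPd26.H43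

attribute [local instance 100] LieRing.ofAssociativeRing

/-- conjugation by a nilpotent exponential is the exponential of the adjoint map -/
lemma exp_conj {R : Type} [Ring R] [Algebra ℚ R] {x : R} (hx : IsNilpotent x) (w : R) {s : ℕ}
    (h : ((LinearMap.mulLeft ℚ x - LinearMap.mulRight ℚ x) ^ s) w = 0) :
    IsNilpotent.exp x * w * IsNilpotent.exp (-x) =
      ∑ i ∈ Finset.range s, (i.factorial : ℚ)⁻¹ •
        ((LinearMap.mulLeft ℚ x - LinearMap.mulRight ℚ x) ^ i) w := by
  have hl : IsNilpotent (LinearMap.mulLeft ℚ x) := (LinearMap.isNilpotent_mulLeft_iff ℚ x).2 hx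
  have hr : IsNilpotent (-LinearMap.mulRight ℚ x) :=
    ((LinearMap.isNilpotent_mulRight_iff ℚ x).2 hx).neg
  have hc : Commute (LinearMap.mulLeft ℚ x) (-LinearMap.mulRight ℚ x) :=
    (LinearMap.commute_mulLeft_right (R := ℚ) x x).neg_right
  have hn : IsNilpotent (LinearMap.mulLeft ℚ x - LinearMap.mulRight ℚ x) := by
    rw [sub_eq_add_neg]; exact hc.isNilpotent_add hl hr
  have e1 : IsNilpotent.exp (LinearMap.mulLeft ℚ x - LinearMap.mulRight ℚ x) =
      IsNilpotent.exp (LinearMap.mulLeft ℚ x) * IsNilpotent.exp (-LinearMap.mulRight ℚ x) := by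
    rw [sub_eq_add_neg, IsNilpotent.exp_add_of_commute hc hl hr]
  obtain ⟨k, hk⟩ := hx
  have e2 : IsNilpotent.exp (LinearMap.mulLeft ℚ x) = LinearMap.mulLeft ℚ (IsNilpotent.exp x) := by
    have h1 : (LinearMap.mulLeft ℚ x) ^ k = 0 := by
      rw [LinearMap.pow_mulLeft, hk, LinearMap.mulLeft_zero_eq_zero]
    rw [IsNilpotent.exp_eq_sum h1, IsNilpotent.exp_eq_sum hk]
    ext y
    simp only [LinearMap.sum_apply, LinearMap.smul_apply, LinearMap.pow_mulLeft,
      LinearMap.mulLeft_apply, Finset.sum_mul, smul_mul_assoc]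
  have hk' : (-x) ^ k = 0 := by rw [neg_pow, hk, mul_zero]
  have e3 : IsNilpotent.exp (-LinearMap.mulRight ℚ x) =
      LinearMap.mulRight ℚ (IsNilpotent.exp (-x)) := by
    have h0 : -LinearMap.mulRight ℚ x = LinearMap.mulRight ℚ (-x) := by
      ext y; simp
    have h1 : (LinearMap.mulRight ℚ (-x)) ^ k = 0 := by
      rw [LinearMap.pow_mulRight, hk', LinearMap.mulRight_zero_eq_zero]
    rw [h0, IsNilpotent.exp_eq_sum h1, IsNilpotent.exp_eq_sum hk']
    ext y
    simp only [LinearMap.sum_apply, LinearMap.smul_apply, LinearMap.pow_mulRight,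
      LinearMap.mulRight_apply, Finset.mul_sum, mul_smul_comm]
  have e4 := IsNilpotent.exp_smul_eq_sum
    (a := LinearMap.mulLeft ℚ x - LinearMap.mulRight ℚ x) (m := w) (k := s) h hn
  rw [e1, e2, e3] at e4
  have e5 : (LinearMap.mulLeft ℚ (IsNilpotent.exp x) * LinearMap.mulRight ℚ (IsNilpotent.exp (-x)))
      • w = IsNilpotent.exp x * w * IsNilpotent.exp (-x) := by
    show IsNilpotent.exp x * (w * IsNilpotent.exp (-x)) = _
    rw [mul_assoc]
  rw [e5] at e4
  rw [e4]
  rfl

section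
variable {m : ℕ} (X : NData m)

/-- the rational Lie algebra of `A` in the matrices -/
noncomputable def LL : LieSubalgebra ℚ (MatQ m) where
  carrier := {x | (fun _ : Unit => x) ∈ X.A.Q}
  add_mem' ha hb := X.A.Q.add_mem ha hb
  zero_mem' := X.A.Q.zero_mem
  smul_mem' c _ hx := X.A.Q.smul_mem c hx
  lie_mem' ha hb := X.A.lie _ ha _ hb

lemma mem_LL {x : MatQ m} : x ∈ LL X ↔ (fun _ : Unit => x) ∈ X.A.Q := Iff.rfl

/-- the derivation `[δ, ·]` of `LL` -/
noncomputable def DD : LieDerivation ℚ (LL X) (LL X) where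
  toFun x := ⟨X.δ () * (x : MatQ m) - (x : MatQ m) * X.δ (), X.der _ x.2⟩
  map_add' x y := by
    ext1
    show X.δ () * ((x : MatQ m) + y) - ((x : MatQ m) + y) * X.δ () =
      (X.δ () * (x : MatQ m) - (x : MatQ m) * X.δ ()) +
        (X.δ () * (y : MatQ m) - (y : MatQ m) * X.δ ())
    noncomm_ring
  map_smul' c x := by
    ext1
    show X.δ () * (c • (x : MatQ m)) - (c • (x : MatQ m)) * X.δ () =
      c • (X.δ () * (x : MatQ m) - (x : MatQ m) * X.δ ())
    rw [mul_smul_comm, smul_mul_assoc, smul_sub]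
  leibniz' x y := by
    ext1
    show X.δ () * ((x : MatQ m) * y - y * x) - ((x : MatQ m) * y - y * x) * X.δ () =
      ((x : MatQ m) * (X.δ () * (y : MatQ m) - (y : MatQ m) * X.δ ()) -
        (X.δ () * (y : MatQ m) - (y : MatQ m) * X.δ ()) * x) -
      ((y : MatQ m) * (X.δ () * (x : MatQ m) - (x : MatQ m) * X.δ ()) -
        (X.δ () * (x : MatQ m) - (x : MatQ m) * X.δ ()) * y)
    noncomm_ring

lemma DD_apply (x : LL X) : ((DD X x : LL X) : MatQ m) = X.δ () * x - x * X.δ () := rfl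

/-- real matrix of a rational one -/
noncomputable def cR (x : MatQ m) : Mat m := castM (fun _ : Unit => x) ()

lemma cR_add (x y : MatQ m) : cR (x + y) = cR x + cR y :=
  congrFun (castM_add (fun _ : Unit => x) (fun _ => y)) ()

lemma cR_smul (c : ℚ) (x : MatQ m) : cR (c • x) = (c : ℝ) • cR x :=
  congrFun (castM_smul c (fun _ : Unit => x)) ()

lemma cR_zero : cR (0 : MatQ m) = 0 := congrFun castM_zero ()

lemma cR_lev_of_lcs (k : ℕ) : ∀ x : LL X, x ∈ lcsD (DD X) k → Lev (k + 1) (cR (x : MatQ m)) := by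
  induction k with
  | zero => intro x _; exact X.A.su _ x.2 ()
  | succ k ih =>
    intro x hx
    have hδ : Lev 1 (cR (X.δ ())) := X.su ()
    rw [lcsD] at hx
    induction hx using Submodule.span_induction with
    | mem y hy =>
      rcases hy with ⟨u, v, hv, rfl⟩ | ⟨v, hv, rfl⟩
      · have hu : Lev 1 (cR (u : MatQ m)) := X.A.su _ u.2 ()
        have hv' := ih v hv
        have e : cR ((⁅u, v⁆ : LL X) : MatQ m) = cR (u : MatQ m) * cR (v : MatQ m) -
            cR (v : MatQ m) * cR (u : MatQ m) := by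
          have h1 := congrFun (castM_sub (fun _ : Unit => (u : MatQ m) * (v : MatQ m))
            (fun _ => (v : MatQ m) * (u : MatQ m))) ()
          have h2 := congrFun (castM_mul (fun _ : Unit => (u : MatQ m)) (fun _ => (v : MatQ m))) ()
          have h3 := congrFun (castM_mul (fun _ : Unit => (v : MatQ m)) (fun _ => (u : MatQ m))) ()
          exact h1.trans (congrArg₂ (· - ·) h2 h3)
        rw [e]
        exact ((hu.mul hv').mono (by omega)).sub ((hv'.mul hu).mono (by omega))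
      · have hv' := ih v hv
        have e : cR ((DD X v : LL X) : MatQ m) = cR (X.δ ()) * cR (v : MatQ m) -
            cR (v : MatQ m) * cR (X.δ ()) := by
          have h1 := congrFun (castM_sub (fun _ : Unit => X.δ () * (v : MatQ m))
            (fun _ => (v : MatQ m) * X.δ ())) ()
          have h2 := congrFun (castM_mul (fun _ : Unit => X.δ ()) (fun _ => (v : MatQ m))) ()
          have h3 := congrFun (castM_mul (fun _ : Unit => (v : MatQ m)) (fun _ => X.δ ())) ()
          exact h1.trans (congrArg₂ (· - ·) h2 h3)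
        rw [e]
        exact ((hδ.mul hv').mono (by omega)).sub ((hv'.mul hδ).mono (by omega))
    | zero =>
      have : cR ((0 : LL X) : MatQ m) = 0 := congrFun castM_zero ()
      rw [this]; exact Lev.zero _
    | add y z _ _ hy hz =>
      have : cR ((y + z : LL X) : MatQ m) = cR (y : MatQ m) + cR (z : MatQ m) :=
        congrFun (castM_add (fun _ : Unit => (y : MatQ m)) (fun _ => (z : MatQ m))) ()
      rw [this]; exact hy.add hz
    | smul c y _ hy =>
      have : cR ((c • y : LL X) : MatQ m) = (c : ℝ) • cR (y : MatQ m) :=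
        congrFun (castM_smul c (fun _ : Unit => (y : MatQ m))) ()
      rw [this]; exact hy.smul _

lemma cR_injective : Function.Injective (cR : MatQ m → Mat m) := by
  intro x y h
  have := castM_injective (ι := Unit) (m := m) (a₁ := fun _ => x) (a₂ := fun _ => y)
    (funext fun _ => h)
  exact congrFun this ()

lemma lcs_bot : lcsD (DD X) m = ⊥ := by
  rw [eq_bot_iff]
  intro x hx
  have h1 := (cR_lev_of_lcs X m x hx).mono (k := m) (by omega)
  have h2 : cR (x : MatQ m) = cR 0 := by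
    rw [h1.eq_zero]; exact (congrFun castM_zero ()).symm
  have h3 := cR_injective h2
  rw [Submodule.mem_bot]
  exact Subtype.ext h3

lemma dlcs_lcs (k : ℕ) : ∀ w ∈ dlcs X.A.Q X.δ k, ∃ x : LL X, x ∈ lcsD (DD X) k ∧
    (fun _ : Unit => (x : MatQ m)) = w := by
  induction k with
  | zero =>
    intro w hw
    exact ⟨⟨w (), hw⟩, Submodule.mem_top, rfl⟩
  | succ k ih =>
    intro w hw
    rw [dlcs] at hw
    induction hw using Submodule.span_induction with
    | mem y hy =>
      rcases hy with ⟨q, hq, r, hr, rfl⟩ | ⟨r, hr, rfl⟩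
      · obtain ⟨x, hx, rfl⟩ := ih r hr
        exact ⟨⁅(⟨q (), hq⟩ : LL X), x⁆, lcsD_brack _ hx, rfl⟩
      · obtain ⟨x, hx, rfl⟩ := ih r hr
        exact ⟨DD X x, lcsD_der hx, rfl⟩
    | zero => exact ⟨0, Submodule.zero_mem _, rfl⟩
    | add y z _ _ hy hz =>
      obtain ⟨a, ha, rfl⟩ := hy
      obtain ⟨b, hb, rfl⟩ := hz
      exact ⟨a + b, Submodule.add_mem _ ha hb, rfl⟩
    | smul c y _ hy =>
      obtain ⟨a, ha, rfl⟩ := hy
      exact ⟨c • a, Submodule.smul_mem _ c ha, rfl⟩

/-- iterates of the derivation and the adjoint map -/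
lemma cR_iter (w : LL X) (i : ℕ) : cR (((⇑(DD X))^[i] w : LL X) : MatQ m) =
    ((LinearMap.mulLeft ℚ (cR (X.δ ())) - LinearMap.mulRight ℚ (cR (X.δ ()))) ^ i)
      (cR (w : MatQ m)) := by
  induction i with
  | zero => rfl
  | succ i ih =>
    rw [Function.iterate_succ_apply', pow_succ', Module.End.mul_apply, ← ih]
    have h1 := congrFun (castM_sub
      (fun _ : Unit => X.δ () * (((⇑(DD X))^[i] w : LL X) : MatQ m))
      (fun _ => (((⇑(DD X))^[i] w : LL X) : MatQ m) * X.δ ())) ()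
    have h2 := congrFun (castM_mul (fun _ : Unit => X.δ ())
      (fun _ => (((⇑(DD X))^[i] w : LL X) : MatQ m))) ()
    have h3 := congrFun (castM_mul (fun _ : Unit => (((⇑(DD X))^[i] w : LL X) : MatQ m))
      (fun _ => X.δ ())) ()
    exact h1.trans (congrArg₂ (· - ·) h2 h3)

lemma iter_zero (w : LL X) : (⇑(DD X))^[m] w = 0 := by
  have h1 : ∀ b, (⇑(DD X))^[b] w ∈ lcsD (DD X) b := by
    intro b
    induction b with
    | zero => exact Submodule.mem_top
    | succ b ih => rw [Function.iterate_succ_apply']; exact lcsD_der ih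
  have h2 := h1 m
  rw [lcs_bot] at h2
  exact (Submodule.mem_bot ℚ).1 h2

/-- `exp(p δ)` acts on `LL` as conjugation by `γ^p` -/
lemma cR_expD (w : LL X) (p : ℤ) : cR ((expD (DD X) m (p : ℚ) w : LL X) : MatQ m) =
    Ad (gf X ^ p) (fun _ => cR (w : MatQ m)) () := by
  set a : Mat m := cR (X.δ ()) with ha
  have hsu : IsSU a := X.su ()
  have hpa : IsSU (((p : ℤ) : ℝ) • a) := hsu.smul _
  have hg : (gf X ^ p) () = expU (((p : ℤ) : ℝ) • a) := by
    rw [gf_zpow, expU_zsmul hsu p]; rfl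
  have h1 : Ad (gf X ^ p) (fun _ => cR (w : MatQ m)) () =
      IsNilpotent.exp (((p : ℤ) : ℝ) • a) * cR (w : MatQ m) *
        IsNilpotent.exp (-(((p : ℤ) : ℝ) • a)) := by
    show ((gf X ^ p) ()).mat * cR (w : MatQ m) * (((gf X ^ p) ())⁻¹).mat = _
    have hinv : (expU (((p : ℤ) : ℝ) • a))⁻¹ = expU (-(((p : ℤ) : ℝ) • a)) := by
      have := congrFun (E_neg (ι := Unit) (v := fun _ => ((p : ℤ) : ℝ) • a) (fun _ => hpa)) ()
      exact this.symm
    rw [hg, hinv, expU_mat hpa, expU_mat hpa.neg, expM_eq hpa, expM_eq hpa.neg]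
  have hadp : LinearMap.mulLeft ℚ (((p : ℤ) : ℝ) • a) - LinearMap.mulRight ℚ (((p : ℤ) : ℝ) • a) =
      (p : ℚ) • (LinearMap.mulLeft ℚ a - LinearMap.mulRight ℚ a) := by
    apply LinearMap.ext
    intro y
    simp only [LinearMap.sub_apply, LinearMap.mulLeft_apply, LinearMap.mulRight_apply,
      LinearMap.smul_apply, smul_mul_assoc, mul_smul_comm, smul_sub]
    rw [Lev.cast_rat_smul, Lev.cast_rat_smul]
    push_cast
    rfl
  have hpow : ∀ i : ℕ, ((LinearMap.mulLeft ℚ (((p : ℤ) : ℝ) • a) -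
      LinearMap.mulRight ℚ (((p : ℤ) : ℝ) • a)) ^ i) (cR (w : MatQ m)) =
      ((p : ℚ) ^ i) • cR (((⇑(DD X))^[i] w : LL X) : MatQ m) := by
    intro i
    rw [hadp, _root_.smul_pow, LinearMap.smul_apply, cR_iter]
  rw [h1, exp_conj (s := m) hpa.isNilpotent (cR (w : MatQ m)) (by
    rw [hpow, iter_zero]
    have : cR ((0 : LL X) : MatQ m) = 0 := congrFun castM_zero ()
    rw [this, smul_zero])]
  -- the left side
  have h2 : ∀ (s : ℕ), cR ((expD (DD X) s (p : ℚ) w : LL X) : MatQ m) =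
      ∑ i ∈ Finset.range s, (i.factorial : ℚ)⁻¹ • ((p : ℚ) ^ i) •
        cR (((⇑(DD X))^[i] w : LL X) : MatQ m) := by
    intro s
    induction s with
    | zero =>
      unfold expD
      rw [Finset.sum_range_zero, Finset.sum_range_zero]
      exact congrFun castM_zero ()
    | succ s ih =>
      unfold expD at ih ⊢
      rw [Finset.sum_range_succ, Finset.sum_range_succ, ← ih]
      have h3 := cR_add ((∑ i ∈ Finset.range s, ((p : ℚ) ^ i / (i.factorial : ℚ)) •
          (⇑(DD X))^[i] w : LL X) : MatQ m)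
        ((((p : ℚ) ^ s / (s.factorial : ℚ)) • (⇑(DD X))^[s] w : LL X) : MatQ m)
      refine h3.trans ?_
      congr 1
      have h4 := cR_smul ((p : ℚ) ^ s / (s.factorial : ℚ)) (((⇑(DD X))^[s] w : LL X) : MatQ m)
      refine h4.trans ?_
      rw [smul_smul, ← Lev.cast_rat_smul]
      congr 1
      ring
  rw [h2]
  exact Finset.sum_congr rfl fun i _ => by rw [hpow]

/-- the algebraic part: `H` contains `dlcs (l-1)` at the coordinate `(j, false)` -/
theorem single_mem {l : ℕ} (p : Fin l → ℤ[X]) (hp : ∀ i, 0 < (p i).natDegree)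
    (hpp : ∀ i j, i ≠ j → 0 < (p i - p j).natDegree)
    (H : Submodule ℚ (Fin l × Bool → MatQ m))
    (hlie : ∀ q ∈ H, ∀ r ∈ H, q * r - r * q ∈ H)
    (hD : ∀ w ∈ X.A.Q, ∀ n : Bool → ℤ, ∃ q ∈ H,
      castM q = fun k => Ad (fun _ => X.γ ^ ((p k.1).eval (n k.2))) (castM w) ())
    (hVel : ∀ w ∈ X.A.Q, ∀ (n : ℤ) (c : Bool), ∃ q ∈ H,
      castM q = fun k => if k.2 = c then (((derivative (p k.1)).eval n : ℤ) : ℝ) •
        Ad (fun _ => X.γ ^ ((p k.1).eval n)) (castM w) () else 0)
    (j : Fin l) (w : Unit → MatQ m) (hw : w ∈ dlcs X.A.Q X.δ (l - 1)) :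
    (fun k => if k = (j, false) then w () else 0 : Fin l × Bool → MatQ m) ∈ H := by
  classical
  -- the real vector attached to a family
  set vec : (Option (Fin l) → LL X) → (Fin l × Bool → Mat m) := fun f k =>
    if k.2 = false then cR (f (some k.1) : MatQ m) else
      Ad (fun _ : Unit => X.γ ^ ((p k.1).eval 0)) (fun _ => cR (f none : MatQ m)) () with hvec
  have vec_false : ∀ (f : Option (Fin l) → LL X) (k1 : Fin l) (x : LL X) {y : Mat m},
      f (some k1) = x → cR (x : MatQ m) = y → vec f (k1, false) = y := by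
    intro f k1 x y h h'
    rw [← h', ← h]
    exact if_pos rfl
  have vec_true : ∀ (f : Option (Fin l) → LL X) (k1 : Fin l) (x : LL X), f none = x →
      vec f (k1, true) = Ad (fun _ : Unit => X.γ ^ ((p k1).eval 0))
        (fun _ => cR (x : MatQ m)) () := by
    intro f k1 x h
    rw [← h]
    exact if_neg (by simp)
  have vec_add : ∀ f g, vec (f + g) = vec f + vec g := by
    intro f g
    funext k
    simp only [hvec, Pi.add_apply]
    by_cases hk : k.2 = false
    · rw [if_pos hk, if_pos hk, if_pos hk]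
      exact cR_add _ _
    · rw [if_neg hk, if_neg hk, if_neg hk]
      have h1 : (fun _ : Unit => cR (((f none + g none : LL X)) : MatQ m)) =
        (fun _ => cR (f none : MatQ m)) + (fun _ => cR (g none : MatQ m)) :=
        funext fun _ => cR_add _ _
      rw [h1, Ad_add]; rfl
  have vec_smul : ∀ (c : ℚ) f, vec (c • f) = (c : ℝ) • vec f := by
    intro c f
    funext k
    simp only [hvec, Pi.smul_apply]
    by_cases hk : k.2 = false
    · rw [if_pos hk, if_pos hk]
      exact cR_smul _ _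
    · rw [if_neg hk, if_neg hk]
      have h1 : (fun _ : Unit => cR (((c • f none : LL X)) : MatQ m)) =
        (c : ℝ) • (fun _ => cR (f none : MatQ m)) :=
        funext fun _ => cR_smul _ _
      rw [h1, Ad_smul]; rfl
  have vec_zero : vec 0 = 0 := by
    have := vec_smul 0 0
    simpa using this
  have cR_mul : ∀ x y : MatQ m, cR (x * y) = cR x * cR y := fun x y =>
    congrFun (castM_mul (fun _ : Unit => x) (fun _ => y)) ()
  have cR_sub : ∀ x y : MatQ m, cR (x - y) = cR x - cR y := fun x y =>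
    congrFun (castM_sub (fun _ : Unit => x) (fun _ => y)) ()
  let H' : Submodule ℚ (Option (Fin l) → LL X) :=
    { carrier := {f | ∃ q ∈ H, castM q = vec f}
      add_mem' := by
        rintro f g ⟨q, hq, h1⟩ ⟨r, hr, h2⟩
        exact ⟨q + r, H.add_mem hq hr, by rw [castM_add, h1, h2, vec_add]⟩
      zero_mem' := ⟨0, H.zero_mem, by rw [castM_zero, vec_zero]⟩
      smul_mem' := by
        rintro c f ⟨q, hq, h1⟩
        exact ⟨c • q, H.smul_mem c hq, by rw [castM_smul, h1, vec_smul]⟩ }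
  have hH' : ∀ f ∈ H', ∀ g ∈ H', (fun k => ⁅f k, g k⁆) ∈ H' := by
    rintro f ⟨q, hq, h1⟩ g ⟨r, hr, h2⟩
    refine ⟨q * r - r * q, hlie q hq r hr, ?_⟩
    rw [castM_sub, castM_mul, castM_mul, h1, h2]
    funext k
    show vec f k * vec g k - vec g k * vec f k = _
    simp only [hvec]
    by_cases hk : k.2 = false
    · simp only [if_pos hk]
      have : cR ((⁅f (some k.1), g (some k.1)⁆ : LL X) : MatQ m) =
        cR ((f (some k.1) : MatQ m) * (g (some k.1) : MatQ m) -
          (g (some k.1) : MatQ m) * (f (some k.1) : MatQ m)) := rfl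
      rw [this, cR_sub, cR_mul, cR_mul]
    · simp only [if_neg hk]
      have : (fun _ : Unit => cR ((⁅f none, g none⁆ : LL X) : MatQ m)) =
        (fun _ => cR (f none : MatQ m)) * (fun _ => cR (g none : MatQ m)) -
          (fun _ => cR (g none : MatQ m)) * (fun _ => cR (f none : MatQ m)) := by
        funext _
        have : cR ((⁅f none, g none⁆ : LL X) : MatQ m) =
          cR ((f none : MatQ m) * (g none : MatQ m) - (g none : MatQ m) * (f none : MatQ m)) := rfl
        rw [this, cR_sub, cR_mul, cR_mul]; rfl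
      rw [this, Ad_sub, Ad_mulv, Ad_mulv]; rfl
  -- the polynomials
  let P' : Option (Fin l) → ℤ[X] := fun o => o.elim 0 p
  have hP' : ∀ i j, i ≠ j → 0 < (P' i - P' j).natDegree := by
    intro i j hij
    cases i with
    | none =>
      cases j with
      | none => exact absurd rfl hij
      | some j =>
        show 0 < (0 - p j).natDegree
        rw [zero_sub, natDegree_neg]; exact hp j
    | some i =>
      cases j with
      | none =>
        show 0 < (p i - 0).natDegree
        rw [sub_zero]; exact hp i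
      | some j => exact hpp i j (fun h => hij (by rw [h]))
  have hcR : ∀ v : LL X, (fun _ : Unit => cR (v : MatQ m)) = castM (fun _ : Unit => (v : MatQ m)) :=
    fun v => rfl
  obtain ⟨x, hx, rfl⟩ := dlcs_lcs X (l - 1) w hw
  have key := lie_main P' hP' (DD X) m (lcs_bot X) ⊤ (by simp) H' hH' ?_ ?_ (some j) (l - 1) ?_ x hx
  · obtain ⟨q, hq, h⟩ := key
    have : q = (fun k => if k = (j, false) then (x : MatQ m) else 0 : Fin l × Bool → MatQ m) := by
      apply castM_injective
      rw [h]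
      funext k
      have e2 : castM (fun k => if k = (j, false) then (x : MatQ m) else 0 :
          Fin l × Bool → MatQ m) k = if k = (j, false) then cR (x : MatQ m) else 0 := by
        by_cases hk : k = (j, false)
        · rw [if_pos hk]
          show (if k = (j, false) then (x : MatQ m) else 0).map _ = _
          rw [if_pos hk]; rfl
        · rw [if_neg hk]
          show (if k = (j, false) then (x : MatQ m) else 0).map _ = _
          rw [if_neg hk]
          exact cR_zero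
      rw [e2]
      obtain ⟨k1, k2⟩ := k
      cases k2 with
      | false =>
        by_cases hk : k1 = j
        · subst hk
          rw [if_pos rfl]
          exact vec_false _ k1 x (Pi.single_eq_same (M := fun _ => LL X) (some k1) x) rfl
        · rw [if_neg (by simp [hk])]
          exact vec_false _ k1 0 (Pi.single_eq_of_ne (M := fun _ => LL X)
            (i := some j) (i' := some k1) (by simpa using hk) x) cR_zero
      | true =>
        rw [if_neg (by simp)]
        refine (vec_true _ k1 0 (Pi.single_eq_of_ne (M := fun _ => LL X)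
            (i := some j) (i' := none) (by simp) x)).trans ?_
        have h3 : (fun _ : Unit => cR ((0 : LL X) : MatQ m)) = 0 := funext fun _ => cR_zero
        rw [h3, Ad_zero]; rfl
    rw [← this]
    exact hq
  · intro v n
    obtain ⟨q, hq, h⟩ := hD (fun _ => (v : MatQ m)) v.2 (fun c => if c then 0 else (n : ℤ))
    refine ⟨q, hq, ?_⟩
    rw [h]
    generalize hf : (fun k => expD (DD X) m (((P' k).eval (n : ℤ) : ℤ) : ℚ) v) = f
    have hsome : ∀ k1, f (some k1) = expD (DD X) m (((p k1).eval (n : ℤ) : ℤ) : ℚ) v := by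
      intro k1; rw [← hf]; rfl
    have hnone : f none = v := by
      have h3 := cR_expD X v ((0 : ℤ[X]).eval (n : ℤ))
      rw [eval_zero, zpow_zero, Ad_one] at h3
      have h4 : f none = expD (DD X) m ((((0 : ℤ[X])).eval (n : ℤ) : ℤ) : ℚ) v := by rw [← hf]; rfl
      rw [h4, eval_zero]
      exact Subtype.ext (cR_injective h3)
    funext k
    obtain ⟨k1, k2⟩ := k
    cases k2 with
    | false => exact (vec_false f k1 _ (hsome k1) (cR_expD X v ((p k1).eval (n : ℤ)))).symm
    | true => exact (vec_true f k1 v hnone).symm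
  · intro v _ n
    obtain ⟨q, hq, h⟩ := hVel (fun _ => (v : MatQ m)) v.2 (n : ℤ) false
    refine ⟨q, hq, ?_⟩
    rw [h]
    generalize hf : (fun k => (((derivative (P' k)).eval (n : ℤ) : ℤ) : ℚ) •
      expD (DD X) m (((P' k).eval (n : ℤ) : ℤ) : ℚ) v) = f
    have hsome : ∀ k1, f (some k1) = (((derivative (p k1)).eval (n : ℤ) : ℤ) : ℚ) •
      expD (DD X) m (((p k1).eval (n : ℤ) : ℤ) : ℚ) v := by
      intro k1; rw [← hf]; rfl
    have hnone : f none = 0 := by
      have h4 : f none = (((derivative (0 : ℤ[X])).eval (n : ℤ) : ℤ) : ℚ) •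
        expD (DD X) m ((((0 : ℤ[X])).eval (n : ℤ) : ℤ) : ℚ) v := by rw [← hf]; rfl
      rw [h4, derivative_zero, eval_zero, Int.cast_zero, zero_smul]
    funext k
    obtain ⟨k1, k2⟩ := k
    cases k2 with
    | false =>
      have h1 := cR_expD X v ((p k1).eval (n : ℤ))
      have h2 := cR_smul (((derivative (p k1)).eval (n : ℤ) : ℤ) : ℚ)
        ((expD (DD X) m (((p k1).eval (n : ℤ) : ℤ) : ℚ) v : LL X) : MatQ m)
      have h3 : cR (((((derivative (p k1)).eval (n : ℤ) : ℤ) : ℚ) •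
        expD (DD X) m (((p k1).eval (n : ℤ) : ℤ) : ℚ) v : LL X) : MatQ m) =
        (((derivative (p k1)).eval (n : ℤ) : ℤ) : ℝ) • Ad (gf X ^ ((p k1).eval (n : ℤ)))
          (fun _ => cR (v : MatQ m)) () := by
        rw [← h1]
        refine h2.trans ?_
        push_cast
        rfl
      exact (vec_false f k1 _ (hsome k1) h3).symm
    | true =>
      refine Eq.trans (if_neg (by simp)) ((vec_true f k1 0 hnone).trans ?_).symm
      have h3 : (fun _ : Unit => cR ((0 : LL X) : MatQ m)) = 0 := funext fun _ => cR_zero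
      rw [h3, Ad_zero]; rfl
  · have : 0 < l := j.pos
    rw [Fintype.card_option, Fintype.card_fin]
    omega

end

end NT0M

end MPd26.Nil
end

section
/-!
# MP_d26cd8_an, part NIL: module NT0 (helper18)

Polynomial averages on `N₀` tend to `0`.
-/
set_option autoImplicit false

open MeasureTheory Filter Topology Polynomial
open scoped ComplexConjugate ENNReal

namespace MPd26.Nil

namespace NT0M

open H18

/-! ### the chain `dlcs` -/

section
variable {m : ℕ} (X : NData m)

lemma dlcs_le (k : ℕ) : dlcs X.A.Q X.δ k ≤ X.A.Q := by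
  induction k with
  | zero => exact le_rfl
  | succ k ih =>
    rw [dlcs]
    refine Submodule.span_le.2 ?_
    rintro x (⟨q, hq, r, hr, rfl⟩ | ⟨r, hr, rfl⟩)
    · exact X.A.lie q hq r (ih hr)
    · exact X.der r (ih hr)

lemma dlcs_succ_le (k : ℕ) : dlcs X.A.Q X.δ (k + 1) ≤ dlcs X.A.Q X.δ k := by
  induction k with
  | zero => exact dlcs_le X 1
  | succ k ih =>
    rw [dlcs]
    refine Submodule.span_le.2 ?_
    rintro x (⟨q, hq, r, hr, rfl⟩ | ⟨r, hr, rfl⟩)
    · exact Submodule.subset_span (Or.inl ⟨q, hq, r, ih hr, rfl⟩)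
    · exact Submodule.subset_span (Or.inr ⟨r, ih hr, rfl⟩)

lemma br_dlcs (k : ℕ) : brQ X.A.Q (dlcs X.A.Q X.δ k) ≤ dlcs X.A.Q X.δ k := by
  refine le_trans (Submodule.span_le.2 ?_) (dlcs_succ_le X k)
  rintro x ⟨q, hq, r, hr, rfl⟩
  exact Submodule.subset_span (Or.inl ⟨q, hq, r, hr, rfl⟩)

lemma dlcs_idl (hR : SpecRatNil) (k : ℕ) : IsIdl X.A.V (rs (dlcs X.A.Q X.δ k)) :=
  (hR Unit m X.A).2 _ (dlcs_le X k) (br_dlcs X k)

end

/-! ### averages for abstract measure preserving maps -/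

section
variable {Ω : Type} [MeasurableSpace Ω] {ν : Measure Ω} [IsProbabilityMeasure ν] {l : ℕ}

/-- the averages -/
noncomputable def AN (T : Fin l → ℕ → Ω → Ω) (F : Fin l → Ω → ℂ) (N : ℕ) (z : Ω) : ℂ :=
  ((N : ℂ))⁻¹ * ∑ n ∈ Finset.range N, ∏ i : Fin l, F i (T i n z)

omit [MeasurableSpace Ω] in
lemma AN_sub (T : Fin l → ℕ → Ω → Ω) (F : Fin l → Ω → ℂ) (k : Fin l) (g : Ω → ℂ) (N : ℕ) (z : Ω) :
    AN T F N z - AN T (Function.update F k g) N z = ((N : ℂ))⁻¹ * ∑ n ∈ Finset.range N,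
      (∏ i ∈ Finset.univ.erase k, F i (T i n z)) * (F k (T k n z) - g (T k n z)) := by
  unfold AN
  rw [← mul_sub, ← Finset.sum_sub_distrib]
  congr 1
  refine Finset.sum_congr rfl fun n _ => ?_
  rw [← Finset.mul_prod_erase Finset.univ (fun i => F i (T i n z)) (Finset.mem_univ k),
    ← Finset.mul_prod_erase Finset.univ (fun i => Function.update F k g i (T i n z))
      (Finset.mem_univ k)]
  have : ∏ i ∈ Finset.univ.erase k, Function.update F k g i (T i n z) =
      ∏ i ∈ Finset.univ.erase k, F i (T i n z) := by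
    refine Finset.prod_congr rfl fun i hi => ?_
    rw [Function.update_of_ne (Finset.ne_of_mem_erase hi)]
  rw [this, Function.update_self]
  ring

omit [MeasurableSpace Ω] in
lemma norm_AN_sub_sq_le (T : Fin l → ℕ → Ω → Ω) (F : Fin l → Ω → ℂ) (k : Fin l) (g : Ω → ℂ)
    {C : ℝ} (hC : ∀ i z, ‖F i z‖ ≤ C) (N : ℕ) (z : Ω) :
    ‖AN T F N z - AN T (Function.update F k g) N z‖ ^ 2 ≤
      (N : ℝ)⁻¹ * ∑ n ∈ Finset.range N, (C ^ (l - 1)) ^ 2 * ‖F k (T k n z) - g (T k n z)‖ ^ 2 := by
  rw [AN_sub]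
  rcases Nat.eq_zero_or_pos N with hN | hN
  · subst hN; simp
  have hNp : (0 : ℝ) < N := by exact_mod_cast hN
  have h1 : ‖∑ n ∈ Finset.range N, (∏ i ∈ Finset.univ.erase k, F i (T i n z)) *
      (F k (T k n z) - g (T k n z))‖ ≤
      ∑ n ∈ Finset.range N, C ^ (l - 1) * ‖F k (T k n z) - g (T k n z)‖ := by
    refine (norm_sum_le _ _).trans (Finset.sum_le_sum fun n _ => ?_)
    rw [norm_mul, norm_prod]
    refine mul_le_mul_of_nonneg_right ?_ (norm_nonneg _)
    refine (Finset.prod_le_prod (fun _ _ => norm_nonneg _) (fun i _ => hC i _)).trans_eq ?_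
    rw [Finset.prod_const, Finset.card_erase_of_mem (Finset.mem_univ k), Finset.card_univ,
      Fintype.card_fin]
  rw [norm_mul, mul_pow]
  have h2 : (∑ n ∈ Finset.range N, C ^ (l - 1) * ‖F k (T k n z) - g (T k n z)‖) ^ 2 ≤
      N * ∑ n ∈ Finset.range N, (C ^ (l - 1) * ‖F k (T k n z) - g (T k n z)‖) ^ 2 := by
    have := sq_sum_le_card_mul_sum_sq (s := Finset.range N)
      (f := fun n => C ^ (l - 1) * ‖F k (T k n z) - g (T k n z)‖)
    simpa using this
  have h3 : ‖((N : ℂ))⁻¹‖ ^ 2 = (N : ℝ)⁻¹ * (N : ℝ)⁻¹ := by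
    rw [norm_inv, Complex.norm_natCast]; ring
  rw [h3]
  calc (N : ℝ)⁻¹ * (N : ℝ)⁻¹ * ‖∑ n ∈ Finset.range N,
        (∏ i ∈ Finset.univ.erase k, F i (T i n z)) * (F k (T k n z) - g (T k n z))‖ ^ 2
      ≤ (N : ℝ)⁻¹ * (N : ℝ)⁻¹ * (N * ∑ n ∈ Finset.range N,
          (C ^ (l - 1) * ‖F k (T k n z) - g (T k n z)‖) ^ 2) := by
        refine mul_le_mul_of_nonneg_left ?_ (by positivity)
        exact (pow_le_pow_left₀ (norm_nonneg _) h1 2).trans h2
    _ = (N : ℝ)⁻¹ * ∑ n ∈ Finset.range N, (C ^ (l - 1)) ^ 2 *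
          ‖F k (T k n z) - g (T k n z)‖ ^ 2 := by
        have : ∀ S : ℝ, (N : ℝ)⁻¹ * (N : ℝ)⁻¹ * (N * S) = (N : ℝ)⁻¹ * S := by
          intro S; field_simp
        rw [this]
        congr 1
        exact Finset.sum_congr rfl fun n _ => by ring

lemma bdd_AN {T : Fin l → ℕ → Ω → Ω} (hT : ∀ i n, Measurable (T i n)) {F : Fin l → Ω → ℂ}
    (hF : ∀ i, HK.Bdd (F i)) (N : ℕ) : HK.Bdd (AN T F N) := by
  choose C hC using fun i => (hF i).2
  refine ⟨?_, ‖((N : ℂ))⁻¹‖ * ∑ n ∈ Finset.range N, ∏ i : Fin l, |C i|, fun z => ?_⟩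
  · unfold AN
    refine measurable_const.mul (Finset.measurable_sum _ fun n _ =>
      Finset.measurable_prod _ fun i _ => (hF i).1.comp (hT i n))
  · unfold AN
    rw [norm_mul]
    refine mul_le_mul_of_nonneg_left ?_ (norm_nonneg _)
    refine (norm_sum_le _ _).trans (Finset.sum_le_sum fun n _ => ?_)
    rw [norm_prod]
    exact Finset.prod_le_prod (fun _ _ => norm_nonneg _)
      fun i _ => (hC i _).trans (le_abs_self _)

lemma int_sq_of_bdd {f : Ω → ℂ} (hf : HK.Bdd f) : Integrable (fun z => ‖f z‖ ^ 2) ν := by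
  obtain ⟨hm, C, hC⟩ := hf
  refine Integrable.of_bound (hm.norm.pow_const 2).aestronglyMeasurable (C ^ 2)
    (ae_of_all _ fun z => ?_)
  rw [norm_pow, norm_norm]
  exact pow_le_pow_left₀ (norm_nonneg _) (hC z) 2

lemma bdd_sub {f g : Ω → ℂ} (hf : HK.Bdd f) (hg : HK.Bdd g) : HK.Bdd (fun z => f z - g z) := by
  obtain ⟨hm, C, hC⟩ := hf
  obtain ⟨hm', C', hC'⟩ := hg
  exact ⟨hm.sub hm', C + C', fun x => (norm_sub_le _ _).trans (add_le_add (hC x) (hC' x))⟩

/-- changing one function -/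
lemma approx {T : Fin l → ℕ → Ω → Ω} (hT : ∀ i n, MeasurePreserving (T i n) ν ν)
    {F : Fin l → Ω → ℂ} (hF : ∀ i, HK.Bdd (F i)) (k : Fin l) {g : Ω → ℂ} (hg : HK.Bdd g)
    {C : ℝ} (hC0 : 0 ≤ C) (hC : ∀ i z, ‖F i z‖ ≤ C) (N : ℕ) :
    ∫ z, ‖AN T F N z‖ ^ 2 ∂ν ≤ 2 * ∫ z, ‖AN T (Function.update F k g) N z‖ ^ 2 ∂ν +
      2 * ((C ^ (l - 1)) ^ 2 * ∫ z, ‖F k z - g z‖ ^ 2 ∂ν) := by
  have hTm : ∀ i n, Measurable (T i n) := fun i n => (hT i n).measurable
  have hG : ∀ i, HK.Bdd (Function.update F k g i) := by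
    intro i
    by_cases h : i = k
    · subst h; rw [Function.update_self]; exact hg
    · rw [Function.update_of_ne h]; exact hF i
  have hd := bdd_sub (hF k) hg
  have hdc : ∀ n, ∫ z, ‖F k (T k n z) - g (T k n z)‖ ^ 2 ∂ν = ∫ z, ‖F k z - g z‖ ^ 2 ∂ν := by
    intro n
    have h1 : ∫ y, ‖F k y - g y‖ ^ 2 ∂(ν.map (T k n)) =
        ∫ z, ‖F k (T k n z) - g (T k n z)‖ ^ 2 ∂ν :=
      integral_map (hTm k n).aemeasurable (hd.1.norm.pow_const 2).aestronglyMeasurable
    rw [← h1, (hT k n).map_eq]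
  have hcomp : ∀ n, Integrable (fun z => ‖F k (T k n z) - g (T k n z)‖ ^ 2) ν := by
    intro n
    have : HK.Bdd (fun z => F k (T k n z) - g (T k n z)) :=
      ⟨hd.1.comp (hTm k n), hd.2.choose, fun z => hd.2.choose_spec _⟩
    exact int_sq_of_bdd this
  have hi3 : Integrable (fun z => (N : ℝ)⁻¹ * ∑ n ∈ Finset.range N, (C ^ (l - 1)) ^ 2 *
      ‖F k (T k n z) - g (T k n z)‖ ^ 2) ν :=
    (integrable_finsetSum _ fun n _ => (hcomp n).const_mul _).const_mul _
  have h3 : ∫ z, (N : ℝ)⁻¹ * ∑ n ∈ Finset.range N, (C ^ (l - 1)) ^ 2 *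
      ‖F k (T k n z) - g (T k n z)‖ ^ 2 ∂ν ≤ (C ^ (l - 1)) ^ 2 * ∫ z, ‖F k z - g z‖ ^ 2 ∂ν := by
    rw [integral_const_mul, integral_finsetSum _ fun n _ => (hcomp n).const_mul _]
    simp only [integral_const_mul, hdc]
    rw [Finset.sum_const, Finset.card_range, nsmul_eq_mul, ← mul_assoc]
    refine mul_le_of_le_one_left (mul_nonneg (by positivity)
      (integral_nonneg fun _ => by positivity)) ?_
    rcases Nat.eq_zero_or_pos N with hN | hN
    · subst hN; simp
    · rw [inv_mul_cancel₀ (by positivity)]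
  have hpt : ∀ z, ‖AN T F N z‖ ^ 2 ≤ 2 * ‖AN T (Function.update F k g) N z‖ ^ 2 +
      2 * ((N : ℝ)⁻¹ * ∑ n ∈ Finset.range N, (C ^ (l - 1)) ^ 2 *
        ‖F k (T k n z) - g (T k n z)‖ ^ 2) := by
    intro z
    have h1 := norm_AN_sub_sq_le T F k g hC N z
    have h2 : ‖AN T F N z‖ ≤ ‖AN T (Function.update F k g) N z‖ +
        ‖AN T F N z - AN T (Function.update F k g) N z‖ := by
      have := norm_add_le (AN T (Function.update F k g) N z)
        (AN T F N z - AN T (Function.update F k g) N z)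
      rwa [add_sub_cancel] at this
    nlinarith [norm_nonneg (AN T F N z), norm_nonneg (AN T (Function.update F k g) N z),
      norm_nonneg (AN T F N z - AN T (Function.update F k g) N z),
      sq_nonneg (‖AN T (Function.update F k g) N z‖ -
        ‖AN T F N z - AN T (Function.update F k g) N z‖)]
  have hi1 : Integrable (fun z => ‖AN T F N z‖ ^ 2) ν := int_sq_of_bdd (bdd_AN hTm hF N)
  have hi2 : Integrable (fun z => ‖AN T (Function.update F k g) N z‖ ^ 2) ν :=
    int_sq_of_bdd (bdd_AN hTm hG N)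
  calc ∫ z, ‖AN T F N z‖ ^ 2 ∂ν ≤ ∫ z, (2 * ‖AN T (Function.update F k g) N z‖ ^ 2 +
      2 * ((N : ℝ)⁻¹ * ∑ n ∈ Finset.range N, (C ^ (l - 1)) ^ 2 *
        ‖F k (T k n z) - g (T k n z)‖ ^ 2)) ∂ν :=
        integral_mono hi1 ((hi2.const_mul 2).add (hi3.const_mul 2)) hpt
    _ = 2 * ∫ z, ‖AN T (Function.update F k g) N z‖ ^ 2 ∂ν +
        2 * ∫ z, (N : ℝ)⁻¹ * ∑ n ∈ Finset.range N, (C ^ (l - 1)) ^ 2 *
        ‖F k (T k n z) - g (T k n z)‖ ^ 2 ∂ν := by
        rw [integral_add (hi2.const_mul 2) (hi3.const_mul 2), integral_const_mul,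
          integral_const_mul]
    _ ≤ _ := by linarith

/-- if one function can be replaced up to small errors, the averages tend to zero -/
lemma tendsto_of_approx {T : Fin l → ℕ → Ω → Ω} (hT : ∀ i n, MeasurePreserving (T i n) ν ν)
    {F : Fin l → Ω → ℂ} (hF : ∀ i, HK.Bdd (F i)) (k : Fin l)
    (h : ∀ ε : ℝ, 0 < ε → ∃ g : Ω → ℂ, HK.Bdd g ∧ ∫ z, ‖F k z - g z‖ ^ 2 ∂ν ≤ ε ∧
      Tendsto (fun N => ∫ z, ‖AN T (Function.update F k g) N z‖ ^ 2 ∂ν) atTop (𝓝 0)) :
    Tendsto (fun N => ∫ z, ‖AN T F N z‖ ^ 2 ∂ν) atTop (𝓝 0) := by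
  choose C hC using fun i => (hF i).2
  obtain ⟨D, hD0, hD⟩ : ∃ D : ℝ, 0 ≤ D ∧ ∀ i z, ‖F i z‖ ≤ D :=
    ⟨∑ i, |C i|, Finset.sum_nonneg fun _ _ => abs_nonneg _, fun i z =>
      ((hC i z).trans (le_abs_self _)).trans
        (Finset.single_le_sum (fun i _ => abs_nonneg (C i)) (Finset.mem_univ i))⟩
  set K : ℝ := (D ^ (l - 1)) ^ 2 with hK
  have hK0 : 0 ≤ K := by positivity
  rw [tendsto_order]
  refine ⟨fun a ha => Eventually.of_forall fun N =>
    ha.trans_le (integral_nonneg fun _ => by positivity), fun ε hε => ?_⟩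
  obtain ⟨g, hg, hgε, hgt⟩ := h (ε / (8 * (K + 1))) (by positivity)
  filter_upwards [(tendsto_order.1 hgt).2 (ε / 4) (by linarith)] with N hN
  have h1 := approx hT hF k hg hD0 hD N
  have h2 : K * ∫ z, ‖F k z - g z‖ ^ 2 ∂ν ≤ ε / 8 := by
    calc K * ∫ z, ‖F k z - g z‖ ^ 2 ∂ν ≤ (K + 1) * (ε / (8 * (K + 1))) :=
          mul_le_mul (by linarith) hgε (integral_nonneg fun _ => by positivity) (by linarith)
      _ = ε / 8 := by field_simp
  rw [← hK] at h1
  linarith

end

/-! ### the measure of POLY -/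

section
variable {m : ℕ} (X : NData m)

/-- action on the coordinate `(j, false)` -/
noncomputable def upd {l : ℕ} (j : Fin l) (u : Unit → Mat m) : Fin l × Bool → UT m :=
  fun k => if k = (j, false) then expU (u ()) else 1

lemma single_rs {l : ℕ} (j : Fin l) (H : Submodule ℚ (Fin l × Bool → MatQ m))
    (R : Submodule ℚ (Unit → MatQ m))
    (hH : ∀ w ∈ R, (fun k => if k = (j, false) then w () else 0 : Fin l × Bool → MatQ m) ∈ H)
    {h : Unit → Mat m} (hh : h ∈ rs R) :
    (fun k => if k = (j, false) then h () else 0 : Fin l × Bool → Mat m) ∈ rs H := by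
  refine rs_induction (P := fun h : Unit → Mat m =>
    (fun k => if k = (j, false) then h () else 0 : Fin l × Bool → Mat m) ∈ rs H) ?_ ?_ ?_ ?_ hh
  · have : (fun k => if k = (j, false) then (0 : Unit → Mat m) () else 0 :
      Fin l × Bool → Mat m) = 0 := by
      funext k
      simp
    rw [this]; exact (rs H).zero_mem
  · intro q hq
    have := castM_mem_rs (hH q hq)
    have e : castM (fun k => if k = (j, false) then q () else 0 : Fin l × Bool → MatQ m) =
        fun k => if k = (j, false) then castM q () else 0 := by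
      funext k
      by_cases hk : k = (j, false)
      · rw [if_pos hk]
        show (if k = (j, false) then q () else 0).map _ = _
        rw [if_pos hk]; rfl
      · rw [if_neg hk]
        show (if k = (j, false) then q () else 0).map _ = _
        rw [if_neg hk]
        exact cR_zero
    rwa [e] at this
  · intro v w h1 h2
    have := (rs H).add_mem h1 h2
    have e : (fun k => if k = (j, false) then (v + w) () else 0 : Fin l × Bool → Mat m) =
        (fun k => if k = (j, false) then v () else 0) +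
          fun k => if k = (j, false) then w () else 0 := by
      funext k
      by_cases hk : k = (j, false) <;> simp [hk]
    rwa [e]
  · intro c v h1
    have := (rs H).smul_mem c h1
    have e : (fun k => if k = (j, false) then (c • v) () else 0 : Fin l × Bool → Mat m) =
        c • (fun k => if k = (j, false) then v () else 0 : Fin l × Bool → Mat m) := by
      funext k
      by_cases hk : k = (j, false) <;> simp [hk]
    rwa [e]

lemma upd_mp (hN : SpecNilExp) (hR : SpecRatNil) {l : ℕ} (j : Fin l)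
    (H : Submodule ℚ (Fin l × Bool → MatQ m)) (f : Fin l × Bool → UT m)
    (lam : Measure (Fin l × Bool → NM m)) (R : Submodule ℚ (Unit → MatQ m))
    (hRA : IsIdl X.A.V (rs R))
    (hH : ∀ w ∈ R, (fun k => if k = (j, false) then w () else 0 : Fin l × Bool → MatQ m) ∈ H)
    (hf : Lg (fun _ : Unit => f (j, false)) ∈ X.A.V)
    (hinv : ∀ h ∈ rs H, MeasurePreserving (act (f * E h * f⁻¹)) lam lam)
    {u : Unit → Mat m} (hu : u ∈ rs R) : MeasurePreserving (act (upd j u)) lam lam := by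
  have hV := V_nil hR X.A
  set g : Unit → UT m := fun _ => f (j, false) with hg
  have hgG : g ∈ GV X.A.V := hf
  have hh : Ad g⁻¹ u ∈ rs R := Ad_mem_idl hN hV hRA (GV_inv hV hgG) hu
  have h1 := hinv _ (single_rs j H R hH hh)
  have e : f * E (fun k => if k = (j, false) then Ad g⁻¹ u () else 0) * f⁻¹ = upd j u := by
    funext k
    show f k * expU (if k = (j, false) then Ad g⁻¹ u () else 0) * (f k)⁻¹ =
      if k = (j, false) then expU (u ()) else 1
    by_cases hk : k = (j, false)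
    · subst hk
      rw [if_pos rfl, if_pos rfl]
      have hsu : SU (Ad g⁻¹ u) := hV.su _ (hRA.le hh)
      have h2 := congrFun (E_Ad g hsu) ()
      rw [Ad_Ad_inv] at h2
      exact h2.symm
    · rw [if_neg hk, if_neg hk, expU_zero, mul_one, mul_inv_cancel]
  rwa [e] at h1

/-- the continuous case -/
lemma main_cont (hN : SpecNilExp) (hR : SpecRatNil) (hC : SpecCpt)
    (hPoly : SpecPoly) (ν : Measure (Unit → NM m)) (hν : IsHaar X.A.V 1 ν) {l : ℕ}
    (p : Fin l → ℤ[X]) (hp : ∀ i, 0 < (p i).natDegree)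
    (hpp : ∀ i j, i ≠ j → 0 < (p i - p j).natDegree) (F : Fin l → (Unit → NM m) → ℂ)
    (hF : ∀ i, Continuous (F i)) (j : Fin l) {r : ℕ} (fs : Fin r → (Unit → NM m) → ℂ)
    (v : Fin r → Unit → Mat m) (hfs : ∀ s, Continuous (fs s))
    (hv : ∀ s, v s ∈ rs (dlcs X.A.Q X.δ (l - 1)))
    (hFj : ∀ z, F j z = ∑ s, (fs s (act (E (v s)) z) - fs s z)) :
    Tendsto (fun N : ℕ => ∫ z, ‖AN (fun i n => act (tf X ^ ((p i).eval (n : ℤ)))) F N z‖ ^ 2 ∂ν)
      atTop (𝓝 0) := by
  classical
  have := hν.prob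
  have hcm : CompactSpace (NM m) := hC.1 m
  obtain ⟨H, f, lam, hlam, hlie, hD, hVel, hf, hinv, hconv⟩ :=
    hPoly m X ν hν (Fin l × Bool) (fun k => p k.1) (fun k => k.2)
  have hsingle : ∀ w ∈ dlcs X.A.Q X.δ (l - 1),
      (fun k => if k = (j, false) then w () else 0 : Fin l × Bool → MatQ m) ∈ H :=
    fun w hw => single_mem X p hp hpp H hlie hD hVel j w hw
  have hupd : ∀ u ∈ rs (dlcs X.A.Q X.δ (l - 1)), MeasurePreserving (act (upd j u)) lam lam :=
    fun u hu => upd_mp X hN hR j H f lam _ (dlcs_idl X hR _) hsingle (hf (j, false)) hinv hu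
  -- the test function
  set Ψ : (Fin l × Bool → NM m) → ℂ := fun y =>
    (∏ i ∈ Finset.univ.erase j, F i (fun _ => y (i, false))) *
      conj (∏ i, F i (fun _ => y (i, true))) with hΨ
  set Φ : (Fin l × Bool → NM m) → ℂ := fun y =>
    (∏ i, F i (fun _ => y (i, false))) * conj (∏ i, F i (fun _ => y (i, true))) with hΦ
  have hcoord : ∀ k : Fin l × Bool, Continuous
      (fun (y : Fin l × Bool → NM m) (_ : Unit) => y k) :=
    fun k => continuous_pi fun _ => continuous_apply k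
  have hΨc : Continuous Ψ := by
    refine (continuous_finsetProd _ fun i _ => (hF i).comp (hcoord (i, false))).mul ?_
    exact Complex.continuous_conj.comp
      (continuous_finsetProd _ fun i _ => (hF i).comp (hcoord (i, true)))
  have hΦc : Continuous Φ := by
    refine (continuous_finsetProd _ fun i _ => (hF i).comp (hcoord (i, false))).mul ?_
    exact Complex.continuous_conj.comp
      (continuous_finsetProd _ fun i _ => (hF i).comp (hcoord (i, true)))
  have hbd : ∀ (Θ : (Fin l × Bool → NM m) → ℂ), Continuous Θ → Integrable Θ lam := by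
    intro Θ hΘ
    obtain ⟨C, hC⟩ := isCompact_univ.exists_bound_of_continuousOn hΘ.continuousOn
    exact Integrable.of_bound hΘ.measurable.aestronglyMeasurable C
      (ae_of_all _ fun y => hC y (Set.mem_univ y))
  have hΨinv : ∀ u y, Ψ (act (upd j u) y) = Ψ y := by
    intro u y
    have h1 : ∀ k : Fin l × Bool, k ≠ (j, false) → act (upd j u) y k = y k := by
      intro k hk
      show upd j u k • y k = y k
      unfold upd
      rw [if_neg hk, one_smul]
    simp only [hΨ]
    congr 1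
    · refine Finset.prod_congr rfl fun i hi => ?_
      rw [h1 (i, false) (by
        intro h
        exact Finset.ne_of_mem_erase hi (congrArg Prod.fst h))]
    · congr 1
      refine Finset.prod_congr rfl fun i _ => ?_
      rw [h1 (i, true) (by simp)]
  have hΦ0 : ∫ y, Φ y ∂lam = 0 := by
    set Θ : Fin r → (Fin l × Bool → NM m) → ℂ := fun s y =>
      fs s (fun _ => y (j, false)) * Ψ y with hΘ
    have hΘc : ∀ s, Continuous (Θ s) := fun s => ((hfs s).comp (hcoord (j, false))).mul hΨc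
    have e1 : ∀ y, Φ y = ∑ s, (Θ s (act (upd j (v s)) y) - Θ s y) := by
      intro y
      simp only [hΘ, hΨinv]
      have e2 : Φ y = F j (fun _ => y (j, false)) * Ψ y := by
        simp only [hΦ, hΨ]
        rw [← Finset.mul_prod_erase Finset.univ (fun i => F i (fun _ => y (i, false)))
          (Finset.mem_univ j)]
        ring
      rw [e2, hFj, Finset.sum_mul]
      refine Finset.sum_congr rfl fun s _ => ?_
      rw [sub_mul]
      congr 2
      congr 1
      funext i
      show expU (v s ()) • y (j, false) = upd j (v s) (j, false) • y (j, false)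
      unfold upd
      rw [if_pos rfl]
    have hInt : ∀ s, Integrable (fun y => Θ s (act (upd j (v s)) y) - Θ s y) lam := fun s =>
      (hbd _ ((hΘc s).comp (continuous_act _))).sub (hbd _ (hΘc s))
    rw [integral_congr_ae (ae_of_all _ e1)]
    rw [integral_finsetSum _ fun s _ => hInt s]
    refine Finset.sum_eq_zero fun s _ => ?_
    have h2 := hupd (v s) (hv s)
    have h3 : ∫ y, Θ s y ∂(lam.map (act (upd j (v s)))) = ∫ y, Θ s (act (upd j (v s)) y) ∂lam :=
      integral_map h2.measurable.aemeasurable (hΘc s).measurable.aestronglyMeasurable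
    have h5 : ∫ y, (Θ s (act (upd j (v s)) y) - Θ s y) ∂lam =
        ∫ y, (Θ s ∘ act (upd j (v s))) y ∂lam - ∫ y, Θ s y ∂lam :=
      integral_sub (hbd _ ((hΘc s).comp (continuous_act _))) (hbd _ (hΘc s))
    have h4 : ∫ y, (Θ s ∘ act (upd j (v s))) y ∂lam = ∫ y, Θ s y ∂lam := by
      rw [h2.map_eq] at h3
      exact h3.symm
    rw [h5, h4, sub_self]
  have hlim := hconv Φ hΦc
  rw [hΦ0] at hlim
  have hre := (Complex.continuous_re.tendsto 0).comp hlim
  rw [Complex.zero_re] at hre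
  refine hre.congr fun N => ?_
  show (_ : ℂ).re = _
  rw [← Complex.ofReal_re (∫ z, ‖AN _ F N z‖ ^ 2 ∂ν)]
  congr 1
  beta_reduce
  rw [← integral_complex_ofReal]
  -- expand the square
  have hcont : ∀ n1 n2 : ℕ, Continuous (fun z : Unit → NM m =>
      Φ (pt X.τ (fun k : Fin l × Bool => p k.1) (fun k => k.2)
        (fun c => if c then n2 else n1) (z ()))) := by
    intro n1 n2
    refine hΦc.comp (continuous_pi fun k => ?_)
    exact (continuous_const_smul _).comp (continuous_apply ())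
  have hintz : ∀ n1 n2 : ℕ, Integrable (fun z : Unit → NM m =>
      Φ (pt X.τ (fun k : Fin l × Bool => p k.1) (fun k => k.2)
        (fun c => if c then n2 else n1) (z ()))) ν := by
    intro n1 n2
    obtain ⟨C, hC⟩ := isCompact_univ.exists_bound_of_continuousOn (hcont n1 n2).continuousOn
    exact Integrable.of_bound (hcont n1 n2).measurable.aestronglyMeasurable C
      (ae_of_all _ fun y => hC y (Set.mem_univ y))
  have e3 : ∀ z : Unit → NM m,
      ((‖AN (fun i n => act (tf X ^ ((p i).eval (n : ℤ)))) F N z‖ ^ 2 : ℝ) : ℂ) =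
      ((N : ℂ) ^ 2)⁻¹ * ∑ n1 ∈ Finset.range N, ∑ n2 ∈ Finset.range N,
        Φ (pt X.τ (fun k : Fin l × Bool => p k.1) (fun k => k.2)
        (fun c => if c then n2 else n1) (z ())) := by
    intro z
    rw [Complex.ofReal_pow, ← Complex.mul_conj']
    unfold AN
    rw [map_mul, map_sum, map_inv₀, Complex.conj_natCast]
    have e4 : ∀ S T : ℂ, (N : ℂ)⁻¹ * S * ((N : ℂ)⁻¹ * T) = ((N : ℂ) ^ 2)⁻¹ * (S * T) := by
      intro S T
      rw [sq, mul_inv]; ring
    rw [e4, Finset.sum_mul_sum]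
    rfl
  rw [integral_congr_ae (ae_of_all _ e3), integral_const_mul]
  congr 1
  rw [integral_finsetSum _ fun n1 _ => integrable_finsetSum _ fun n2 _ => hintz n1 n2,
    Finset.sum_range]
  refine Finset.sum_congr rfl fun n1 _ => ?_
  rw [integral_finsetSum _ fun n2 _ => hintz n1 n2, Finset.sum_range]

end

end NT0M

open NT0M H18 in
theorem specNT0 (hN : SpecNilExp) (hR : SpecRatNil) (hH : SpecHaar) (hC : SpecCpt)
    (hPoly : SpecPoly) (hAvg : SpecAvg) : SpecNT0 := by
  intro m X ν hν l p hp hpp F hF j horth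
  classical
  have hprob := hν.prob
  have hcm : CompactSpace (NM m) := hC.1 m
  have hmeas1 : MeasurableSet (orb X.A.V 1) := (hC.2 Unit m X.A 1).isClosed.measurableSet
  have hT : ∀ (i : Fin l) (n : ℕ), MeasurePreserving (act (tf X ^ ((p i).eval (n : ℤ)))) ν ν :=
    fun i n => tf_mp X hN hR hH hmeas1 hν _
  have hbc : ∀ (g : (Unit → NM m) → ℂ), Continuous g → HK.Bdd g := by
    intro g hg
    obtain ⟨C, hC⟩ := isCompact_univ.exists_bound_of_continuousOn hg.continuousOn
    exact ⟨hg.measurable, C, fun y => hC y (Set.mem_univ y)⟩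
  -- replace the functions with index in `s`
  have key : ∀ s : Finset (Fin l), j ∉ s → ∀ F : Fin l → (Unit → NM m) → ℂ,
      (∀ i, HK.Bdd (F i)) → (∀ i, i ∉ s → Continuous (F i)) →
      (∃ (r : ℕ) (fs : Fin r → (Unit → NM m) → ℂ) (v : Fin r → Unit → Mat m),
        (∀ t, Continuous (fs t)) ∧ (∀ t, v t ∈ rs (dlcs X.A.Q X.δ (l - 1))) ∧
        ∀ z, F j z = ∑ t, (fs t (act (E (v t)) z) - fs t z)) →
      Tendsto (fun N : ℕ => ∫ z, ‖AN (fun i n => act (tf X ^ ((p i).eval (n : ℤ)))) F N z‖ ^ 2 ∂ν)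
        atTop (𝓝 0) := by
    intro s
    induction s using Finset.induction_on with
    | empty =>
      rintro _ F _ hFc ⟨r, fs, v, hfs, hv, hFj⟩
      exact main_cont X hN hR hC hPoly ν hν p hp hpp F (fun i => hFc i (by simp)) j fs v hfs hv hFj
    | insert k s hk ih =>
      rintro hj F hFb hFc ⟨r, fs, v, hfs, hv, hFj⟩
      have hkj : k ≠ j := fun h => hj (by rw [h]; exact Finset.mem_insert_self j s)
      refine tendsto_of_approx hT hFb k fun ε hε => ?_
      have hmz : TopologicalSpace.MetrizableSpace (Unit → NM m) :=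
        TopologicalSpace.metrizableSpace_of_t3_secondCountable _
      have hL : MemLp (F k) (ENNReal.ofReal 2) ν :=
        MemLp.of_bound (hFb k).1.aestronglyMeasurable (hFb k).2.choose
          (ae_of_all _ (hFb k).2.choose_spec)
      obtain ⟨g, hg, -⟩ := hL.exists_boundedContinuous_integral_rpow_sub_le (by norm_num) hε
      refine ⟨g, hbc g g.continuous, ?_, ?_⟩
      · simpa using hg
      · refine ih (fun h => hj (Finset.mem_insert_of_mem h)) _ ?_ ?_ ⟨r, fs, v, hfs, hv, ?_⟩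
        · intro i
          by_cases h : i = k
          · subst h; rw [Function.update_self]; exact hbc g g.continuous
          · rw [Function.update_of_ne h]; exact hFb i
        · intro i hi
          by_cases h : i = k
          · subst h; rw [Function.update_self]; exact g.continuous
          · rw [Function.update_of_ne h]
            exact hFc i fun h' => (Finset.mem_insert.1 h').elim h hi
        · intro z
          rw [Function.update_of_ne hkj.symm]
          exact hFj z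
  have hfinal : Tendsto (fun N : ℕ => ∫ z,
      ‖AN (fun i n => act (tf X ^ ((p i).eval (n : ℤ)))) F N z‖ ^ 2 ∂ν) atTop (𝓝 0) := by
    refine tendsto_of_approx hT hF j fun ε hε => ?_
    obtain ⟨r, fs, v, hfv, happ⟩ := hAvg Unit m X.A (dlcs X.A.Q X.δ (l - 1)) (dlcs_le X _)
      (br_dlcs X _) ν hν (F j) (hF j) horth ε hε
    have hcg : Continuous (fun z => ∑ t, (fs t (act (E (v t)) z) - fs t z)) :=
      continuous_finsetSum _ fun t _ =>
        ((hfv t).1.comp (continuous_act _)).sub (hfv t).1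
    refine ⟨fun z => ∑ t, (fs t (act (E (v t)) z) - fs t z), hbc _ hcg, happ, ?_⟩
    refine key (Finset.univ.erase j) (by simp) _ ?_ ?_ ⟨r, fs, v, fun t => (hfv t).1,
      fun t => (hfv t).2, fun z => by rw [Function.update_self]⟩
    · intro i
      by_cases h : i = j
      · subst h; rw [Function.update_self]; exact hbc _ hcg
      · rw [Function.update_of_ne h]; exact hF i
    · intro i hi
      have h : i = j := by simpa using hi
      subst h; rw [Function.update_self]; exact hcg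
  exact hfinal

end MPd26.Nil
end

section
/-!
# MP_d26cd8_an, part NIL: module POLY (helper18)

Equidistribution of polynomial orbits with two independent parameters.
-/
set_option autoImplicit false

open MeasureTheory Filter Topology Polynomial
open scoped ComplexConjugate ENNReal

namespace MPd26.Nil

namespace PolyM

open H18

section
variable {κ : Type} {m : ℕ} (X : NData m) (P : κ → ℤ[X]) (a : κ → Bool)

/-- the linear parts as algebra homomorphisms -/
noncomputable def sH : Option Bool → (Ix κ → Mat m) →ₐ[ℝ] (Ix κ → Mat m)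
  | none => AdH (fun _ => X.γ)
  | some c =>
    { toFun := fun v x => v (sh c x)
      map_one' := rfl
      map_mul' := fun _ _ => rfl
      map_zero' := rfl
      map_add' := fun _ _ => rfl
      commutes' := fun _ => rfl }

lemma sH_eq (j : Option Bool) (v : Ix κ → Mat m) : sH X j v = ps X j v := by
  cases j <;> rfl

lemma continuous_pτ (j : Option Bool) : Continuous (pτ X j : (Ix κ → NM m) → (Ix κ → NM m)) := by
  cases j with
  | none => exact continuous_act (fun _ => X.τ)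
  | some c => exact continuous_pi fun x => continuous_apply (sh c x)

lemma pτ_mkp (j : Option Bool) {v : Ix κ → Mat m} (hv : SU v) :
    pτ X j (mkp (pf0 X P a * E v)) = mkp (pf0 X P a * pb X P a j * E (sH X j v)) := by
  cases j with
  | none =>
    have h1 : E (sH X none v) = (fun _ => X.γ) * E v * (fun _ => X.γ)⁻¹ := E_Ad _ hv
    rw [h1]
    have h2 : pτ X none (mkp (pf0 X P a * E v)) =
        mkp ((fun _ => X.τ) * (pf0 X P a * E v)) := rfl
    rw [h2]
    have h3 : (fun _ => X.τ) * (pf0 X P a * E v) = pf0 X P a * pb X P a none *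
        ((fun _ => X.γ) * E v * (fun _ => X.γ)⁻¹) * (fun _ => X.γ) := by
      funext x
      show X.τ * (X.τ ^ ev P a x * (X.γ ^ ev P a x)⁻¹ * E v x) =
        X.τ ^ ev P a x * (X.γ ^ ev P a x)⁻¹ *
          (X.γ ^ ev P a x * (X.τ * X.γ⁻¹) * (X.γ ^ ev P a x)⁻¹) *
          (X.γ * E v x * X.γ⁻¹) * X.γ
      generalize ev P a x = p
      generalize E v x = y
      group
    rw [h3]
    exact mkp_mul_int _ _ fun _ => gamma_mem X
  | some c =>
    funext x
    show ((pf0 X P a (sh c x) * E v (sh c x) : UT m) : NM m) =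
      ((pf0 X P a x * ((pf0 X P a x)⁻¹ * pf0 X P a (sh c x)) * E v (sh c x) : UT m) : NM m)
    rw [mul_inv_cancel_left]

/-- the orbit map -/
noncomputable def om (n : Bool → ℤ) (z : Unit → NM m) : Ix κ → NM m :=
  fun x => (X.τ ^ ((P x.2).eval (x.1 (a x.2) + n (a x.2)))) • z ()

lemma continuous_om (n : Bool → ℤ) : Continuous (om X P a n) :=
  continuous_pi fun x =>
    (continuous_const_smul (X.τ ^ ((P x.2).eval (x.1 (a x.2) + n (a x.2))))).comp
      (continuous_apply ())

lemma pτ_none_om (n : Bool → ℤ) (z : Unit → NM m) :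
    pτ X none (om X P a n z) = om X P a n (act (tf X ^ (1 : ℤ)) z) := by
  funext x
  show X.τ • (X.τ ^ ((P x.2).eval (x.1 (a x.2) + n (a x.2)))) • z () =
    (X.τ ^ ((P x.2).eval (x.1 (a x.2) + n (a x.2)))) • (X.τ ^ (1 : ℤ)) • z ()
  rw [smul_smul, smul_smul, ← zpow_one_add, ← zpow_add, add_comm]

lemma pτ_some_om (c : Bool) (n : Bool → ℤ) (z : Unit → NM m) :
    pτ X (some c) (om X P a n z) = om X P a (n + Pi.single c 1) z := by
  funext x
  show (X.τ ^ ((P x.2).eval ((x.1 + Pi.single c 1 : Bool → ℤ) (a x.2) + n (a x.2)))) • z () =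
    (X.τ ^ ((P x.2).eval (x.1 (a x.2) + (n + Pi.single c 1 : Bool → ℤ) (a x.2)))) • z ()
  have : (x.1 + Pi.single c 1 : Bool → ℤ) (a x.2) + n (a x.2) =
      x.1 (a x.2) + (n + Pi.single c 1 : Bool → ℤ) (a x.2) := by
    simp only [Pi.add_apply]; ring
  rw [this]

/-- `D_{v,n}` -/
noncomputable def Dv (n : Bool → ℤ) (v : Unit → Mat m) : Ix κ → Mat m := fun x =>
  Ad (fun _ : Unit => X.γ ^ ((P x.2).eval (x.1 (a x.2) + n (a x.2)))) v ()

lemma Dv_mem (B : RAlg (Ix κ) m) (n : Bool → ℤ)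
    (hD : ∀ w ∈ X.A.Q, ∃ q ∈ B.Q, castM q = Dv X P a n (castM w)) {v : Unit → Mat m}
    (hv : v ∈ X.A.V) : Dv X P a n v ∈ B.V := by
  refine rs_induction (R := X.A.Q) (P := fun v => Dv X P a n v ∈ B.V) ?_ ?_ ?_ ?_ hv
  · have : Dv X P a n 0 = 0 := funext fun x => congrFun (Ad_zero _) ()
    rw [this]; exact B.V.zero_mem
  · intro q hq
    obtain ⟨q', hq', h⟩ := hD q hq
    rw [← h]
    exact castM_mem_rs hq'
  · intro v w h1 h2
    have : Dv X P a n (v + w) = Dv X P a n v + Dv X P a n w :=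
      funext fun x => congrFun (Ad_add _ v w) ()
    rw [this]; exact B.V.add_mem h1 h2
  · intro c v h1
    have : Dv X P a n (c • v) = c • Dv X P a n v :=
      funext fun x => congrFun (Ad_smul _ c v) ()
    rw [this]; exact B.V.smul_mem c h1

lemma sH_mem (B : RAlg (Ix κ) m) (j : Option Bool)
    (hps : ∀ q ∈ B.Q, ∃ q' ∈ B.Q, ps X j (castM q) = castM q') {v : Ix κ → Mat m}
    (hv : v ∈ B.V) : sH X j v ∈ B.V := by
  refine rs_induction (R := B.Q) (P := fun v => sH X j v ∈ B.V) ?_ ?_ ?_ ?_ hv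
  · rw [map_zero]; exact B.V.zero_mem
  · intro q hq
    obtain ⟨q', hq', h⟩ := hps q hq
    rw [sH_eq, h]
    exact castM_mem_rs hq'
  · intro v w h1 h2
    rw [map_add]; exact B.V.add_mem h1 h2
  · intro c v h1
    rw [map_smul]; exact B.V.smul_mem c h1

lemma pτ_orb (hN : SpecNilExp) (hR : SpecRatNil) (B : RAlg (Ix κ) m) (j : Option Bool)
    (hps : ∀ q ∈ B.Q, ∃ q' ∈ B.Q, ps X j (castM q) = castM q')
    (hpb : Lg (pb X P a j) ∈ B.V) {z : Ix κ → NM m} (hz : z ∈ orb B.V (pf0 X P a)) :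
    pτ X j z ∈ orb B.V (pf0 X P a) := by
  obtain ⟨v, hv, rfl⟩ := hz
  have hV := V_nil hR B
  have h1 : pb X P a j * E (sH X j v) ∈ GV B.V :=
    GV_mul hN hV hpb (GV_E hV (sH_mem X B j hps hv))
  refine ⟨_, h1, ?_⟩
  rw [E_Lg, pτ_mkp X P a j (hV.su v hv), mul_assoc]

lemma om_zero_orb (hR : SpecRatNil) (B : RAlg (Ix κ) m)
    (hD : ∀ w ∈ X.A.Q, ∃ q ∈ B.Q, castM q = Dv X P a 0 (castM w)) {z : Unit → NM m}
    (hz : z ∈ orb X.A.V 1) : om X P a 0 z ∈ orb B.V (pf0 X P a) := by
  obtain ⟨v, hv, rfl⟩ := hz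
  refine ⟨Dv X P a 0 v, Dv_mem X P a B 0 hD hv, ?_⟩
  have hsu := (V_nil hR X.A).su v hv
  have h1 : pf0 X P a * E (Dv X P a 0 v) * (fun x => X.γ ^ ev P a x) =
      fun x => X.τ ^ ev P a x * E v () := by
    funext x
    show X.τ ^ ev P a x * (X.γ ^ ev P a x)⁻¹ * expU (Dv X P a 0 v x) * X.γ ^ ev P a x =
      X.τ ^ ev P a x * E v ()
    have h2 : expU (Dv X P a 0 v x) = X.γ ^ ev P a x * E v () * (X.γ ^ ev P a x)⁻¹ := by
      have h3 := congrFun (E_Ad (fun _ : Unit => X.γ ^ ev P a x) hsu) ()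
      have h4 : Dv X P a 0 v x = Ad (fun _ : Unit => X.γ ^ ev P a x) v () := by
        unfold Dv ev
        simp
      rw [h4]
      exact h3
    rw [h2]
    group
  rw [← mkp_mul_int (pf0 X P a * E (Dv X P a 0 v)) (fun x => X.γ ^ ev P a x)
    (fun x => (LT m).zpow_mem (gamma_mem X) _), h1]
  funext x
  show (X.τ ^ ((P x.2).eval (x.1 (a x.2) + (0 : Bool → ℤ) (a x.2)))) • ((1 * E v () : UT m) : NM m)
    = ((X.τ ^ ev P a x * E v () : UT m) : NM m)
  rw [one_mul]
  simp only [Pi.zero_apply, add_zero]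
  rfl

lemma om_orb (hN : SpecNilExp) (hR : SpecRatNil) (B : RAlg (Ix κ) m)
    (hD : ∀ w ∈ X.A.Q, ∃ q ∈ B.Q, castM q = Dv X P a 0 (castM w))
    (hps : ∀ j, ∀ q ∈ B.Q, ∃ q' ∈ B.Q, ps X j (castM q) = castM q')
    (hpb : ∀ j, Lg (pb X P a j) ∈ B.V) {z : Unit → NM m}
    (hz : z ∈ orb X.A.V 1) (n1 n2 : ℕ) :
    om X P a (fun c => ((if c then n2 else n1 : ℕ) : ℤ)) z ∈ orb B.V (pf0 X P a) := by
  induction n1 with
  | zero =>
    induction n2 with
    | zero =>
      have : (fun c : Bool => ((if c = true then 0 else 0 : ℕ) : ℤ)) = 0 := by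
        funext c; simp
      rw [this]
      exact om_zero_orb X P a hR B hD hz
    | succ n2 ih =>
      have h := pτ_orb X P a hN hR B (some true) (hps _) (hpb _) ih
      rw [pτ_some_om] at h
      have e : (fun c : Bool => ((if c = true then n2 else 0 : ℕ) : ℤ)) + Pi.single true 1 =
          fun c : Bool => ((if c = true then n2 + 1 else 0 : ℕ) : ℤ) := by
        funext c
        cases c <;> simp
      rwa [e] at h
  | succ n1 ih =>
    have h := pτ_orb X P a hN hR B (some false) (hps _) (hpb _) ih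
    rw [pτ_some_om] at h
    have e : (fun c : Bool => ((if c = true then n2 else n1 : ℕ) : ℤ)) + Pi.single false 1 =
        fun c : Bool => ((if c = true then n2 else n1 + 1 : ℕ) : ℤ) := by
      funext c
      cases c <;> simp
    rwa [e] at h

/-- the averages of the laws -/
noncomputable def th (ν : Measure (Unit → NM m)) (N : ℕ) : Measure (Ix κ → NM m) :=
  (((N + 1 : ℕ) : ℝ≥0∞) ^ 2)⁻¹ • ∑ n1 ∈ Finset.range (N + 1), ∑ n2 ∈ Finset.range (N + 1),
    ν.map (om X P a (fun c => ((if c then n2 else n1 : ℕ) : ℤ)))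

lemma integral_th [Countable κ] (ν : Measure (Unit → NM m)) [IsProbabilityMeasure ν] (N : ℕ)
    {F : Type} [NormedAddCommGroup F] [NormedSpace ℝ F] [SecondCountableTopology F]
    [MeasurableSpace F] [BorelSpace F] {Φ : (Ix κ → NM m) → F} (hΦ : Continuous Φ) {C : ℝ}
    (hC : ∀ y, ‖Φ y‖ ≤ C) :
    ∫ y, Φ y ∂(th X P a ν N) = (((N + 1 : ℕ) : ℝ) ^ 2)⁻¹ • ∑ n1 ∈ Finset.range (N + 1),
      ∑ n2 ∈ Finset.range (N + 1),
        ∫ z, Φ (om X P a (fun c => ((if c then n2 else n1 : ℕ) : ℤ)) z) ∂ν := by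
  have hm : ∀ n, Measurable (om X P a n) := fun n => (continuous_om X P a n).measurable
  have hint : ∀ n, Integrable Φ (ν.map (om X P a n)) := by
    intro n
    have : IsProbabilityMeasure (ν.map (om X P a n)) :=
      Measure.isProbabilityMeasure_map (hm n).aemeasurable
    exact Integrable.of_bound hΦ.measurable.aestronglyMeasurable C (ae_of_all _ hC)
  unfold th
  rw [integral_smul_measure, integral_finsetSum_measure]
  · congr 1
    · rw [ENNReal.toReal_inv, ENNReal.toReal_pow, ENNReal.toReal_natCast]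
    · refine Finset.sum_congr rfl fun n1 _ => ?_
      rw [integral_finsetSum_measure]
      · refine Finset.sum_congr rfl fun n2 _ => ?_
        rw [integral_map (hm _).aemeasurable hΦ.measurable.aestronglyMeasurable]
      · intro n2 _
        exact hint _
  · intro n1 _
    exact integrable_finsetSum_measure.2 fun n2 _ => hint _

lemma th_apply_of [Countable κ] (ν : Measure (Unit → NM m)) [IsProbabilityMeasure ν] (N : ℕ)
    {S : Set (Ix κ → NM m)} (hS : MeasurableSet S)
    (h : ∀ n1 n2 : ℕ, ν {z | om X P a (fun c => ((if c then n2 else n1 : ℕ) : ℤ)) z ∈ S} = 1) :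
    th X P a ν N S = 1 := by
  unfold th
  rw [Measure.smul_apply, Measure.finsetSum_apply]
  have e : ∀ n1 ∈ Finset.range (N + 1), (∑ n2 ∈ Finset.range (N + 1),
      ν.map (om X P a (fun c => ((if c then n2 else n1 : ℕ) : ℤ)))) S = ((N + 1 : ℕ) : ℝ≥0∞) := by
    intro n1 _
    rw [Measure.finsetSum_apply]
    rw [Finset.sum_congr rfl (g := fun _ => (1 : ℝ≥0∞))]
    · simp
    · intro n2 _
      rw [Measure.map_apply (continuous_om X P a _).measurable hS]
      exact h n1 n2
  rw [Finset.sum_congr rfl e]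
  simp only [Finset.sum_const, Finset.card_range, nsmul_eq_mul, smul_eq_mul]
  rw [← sq]
  refine ENNReal.inv_mul_cancel ?_ ?_
  · simp
  · exact ENNReal.pow_ne_top (ENNReal.natCast_ne_top _)

end

/-- telescoping -/
lemma tele (g : ℕ → ℕ → ℝ) {C : ℝ} (hg : ∀ i j, |g i j| ≤ C) (N : ℕ) :
    |(((N + 1 : ℕ) : ℝ) ^ 2)⁻¹ • (∑ n1 ∈ Finset.range (N + 1), ∑ n2 ∈ Finset.range (N + 1),
        g (n1 + 1) n2) - (((N + 1 : ℕ) : ℝ) ^ 2)⁻¹ • ∑ n1 ∈ Finset.range (N + 1),
        ∑ n2 ∈ Finset.range (N + 1), g n1 n2| ≤ 2 * C / ((N + 1 : ℕ) : ℝ) := by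
  rw [← smul_sub, ← Finset.sum_sub_distrib]
  have h1 : ∑ n1 ∈ Finset.range (N + 1), ((∑ n2 ∈ Finset.range (N + 1), g (n1 + 1) n2) -
      ∑ n2 ∈ Finset.range (N + 1), g n1 n2) = (∑ n2 ∈ Finset.range (N + 1), g (N + 1) n2) -
      ∑ n2 ∈ Finset.range (N + 1), g 0 n2 :=
    Finset.sum_range_sub (fun n1 => ∑ n2 ∈ Finset.range (N + 1), g n1 n2) (N + 1)
  rw [h1, smul_eq_mul, abs_mul]
  have hb : ∀ n1, |∑ n2 ∈ Finset.range (N + 1), g n1 n2| ≤ ((N + 1 : ℕ) : ℝ) * C := by
    intro n1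
    refine (Finset.abs_sum_le_sum_abs _ _).trans ?_
    refine (Finset.sum_le_sum fun n2 _ => hg n1 n2).trans ?_
    simp
  have hp : (0 : ℝ) < ((N + 1 : ℕ) : ℝ) := by positivity
  have h2 : |(∑ n2 ∈ Finset.range (N + 1), g (N + 1) n2) -
      ∑ n2 ∈ Finset.range (N + 1), g 0 n2| ≤ 2 * (((N + 1 : ℕ) : ℝ) * C) := by
    have := abs_sub (∑ n2 ∈ Finset.range (N + 1), g (N + 1) n2)
      (∑ n2 ∈ Finset.range (N + 1), g 0 n2)
    linarith [hb (N + 1), hb 0]
  rw [abs_of_pos (by positivity : (0 : ℝ) < (((N + 1 : ℕ) : ℝ) ^ 2)⁻¹)]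
  calc (((N + 1 : ℕ) : ℝ) ^ 2)⁻¹ * |(∑ n2 ∈ Finset.range (N + 1), g (N + 1) n2) -
      ∑ n2 ∈ Finset.range (N + 1), g 0 n2| ≤ (((N + 1 : ℕ) : ℝ) ^ 2)⁻¹ *
        (2 * (((N + 1 : ℕ) : ℝ) * C)) := mul_le_mul_of_nonneg_left h2 (by positivity)
    _ = 2 * C / ((N + 1 : ℕ) : ℝ) := by
        field_simp

lemma tele_tendsto (g : ℕ → ℕ → ℝ) {C : ℝ} (hg : ∀ i j, |g i j| ≤ C) :
    Tendsto (fun N : ℕ => (((N + 1 : ℕ) : ℝ) ^ 2)⁻¹ • (∑ n1 ∈ Finset.range (N + 1),
      ∑ n2 ∈ Finset.range (N + 1), g (n1 + 1) n2) - (((N + 1 : ℕ) : ℝ) ^ 2)⁻¹ •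
        ∑ n1 ∈ Finset.range (N + 1), ∑ n2 ∈ Finset.range (N + 1), g n1 n2) atTop (𝓝 0) := by
  refine squeeze_zero_norm (fun N => tele g hg N) ?_
  exact (tendsto_const_div_atTop_nhds_zero_nat (2 * C)).comp (tendsto_add_atTop_nat 1)

lemma tele_tendsto' (g : ℕ → ℕ → ℝ) {C : ℝ} (hg : ∀ i j, |g i j| ≤ C) :
    Tendsto (fun N : ℕ => (((N + 1 : ℕ) : ℝ) ^ 2)⁻¹ • (∑ n1 ∈ Finset.range (N + 1),
      ∑ n2 ∈ Finset.range (N + 1), g n1 (n2 + 1)) - (((N + 1 : ℕ) : ℝ) ^ 2)⁻¹ •
        ∑ n1 ∈ Finset.range (N + 1), ∑ n2 ∈ Finset.range (N + 1), g n1 n2) atTop (𝓝 0) := by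
  have h := tele_tendsto (fun i j => g j i) (C := C) (fun i j => hg j i)
  refine h.congr fun N => ?_
  rw [Finset.sum_comm, Finset.sum_comm (f := fun i j => g j i)]

end PolyM

open PolyM H18 in
theorem specPoly (hN : SpecNilExp) (hR : SpecRatNil) (hH : SpecHaar) (hC : SpecCpt)
    (hU : SpecU) (hE : SpecEqui) (hPV : SpecPolyV) : SpecPoly := by
  intro m X ν hν κ _ P a
  have := hν.prob
  have hcm : CompactSpace (NM m) := hC.1 m
  obtain ⟨B, hD, hVel, hps, hpb, hchain, hirr⟩ := hPV m X κ P a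
  have hD' : ∀ n : Bool → ℤ, ∀ w ∈ X.A.Q, ∃ q ∈ B.Q, castM q = Dv X P a n (castM w) :=
    fun n w hw => hD w hw n
  have hV := V_nil hR B
  have hmeas1 : MeasurableSet (orb X.A.V 1) := (hC.2 Unit m X.A 1).isClosed.measurableSet
  have hcl : IsClosed (orb B.V (pf0 X P a)) := (hC.2 (Ix κ) m B (pf0 X P a)).isClosed
  obtain ⟨νΞ, hνΞ, hinvΞ, huniq⟩ := hU (Ix κ) m B (pf0 X P a) (Option Bool) (pτ X) (sH X)
    (pb X P a) (continuous_pτ X) (fun j q hq => by rw [sH_eq]; exact hps j q hq) hpb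
    (fun j v hv => pτ_mkp X P a j (hV.su v hv)) (by simpa only [sH_eq] using hchain)
    (by simpa only [sH_eq] using hirr)
  have hprobΞ := hνΞ.prob
  -- the averages
  have hthS : ∀ N, th X P a ν N (orb B.V (pf0 X P a)) = 1 := by
    intro N
    refine th_apply_of X P a ν N hcl.measurableSet fun n1 n2 => ?_
    refine le_antisymm prob_le_one ?_
    rw [← hν.orb]
    exact measure_mono fun z hz => om_orb X P a hN hR B (hD' 0) hps hpb hz n1 n2
  have hthp : ∀ N, IsProbabilityMeasure (th X P a ν N) := by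
    intro N
    refine ⟨th_apply_of X P a ν N MeasurableSet.univ fun n1 n2 => ?_⟩
    simp
  have hbd : ∀ {F : Type} [NormedAddCommGroup F] (Φ : (Ix κ → NM m) → F), Continuous Φ →
      ∃ C, ∀ y, ‖Φ y‖ ≤ C := by
    intro F _ Φ hΦ
    obtain ⟨C, hC⟩ := isCompact_univ.exists_bound_of_continuousOn hΦ.continuousOn
    exact ⟨C, fun y => hC y (Set.mem_univ y)⟩
  have hconv := hE (Ix κ → NM m) (Option Bool) (orb B.V (pf0 X P a)) hcl (pτ X)
    (continuous_pτ X) νΞ huniq (th X P a ν) hthp hthS ?_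
  · refine ⟨B.Q.map (LinearMap.funLeft ℚ (MatQ m) (fun k : κ => ((0 : Bool → ℤ), k))),
      fun k => pf0 X P a (0, k), νΞ.map (fun z k => z (0, k)), ?_, ?_, ?_, ?_, ?_, ?_, ?_⟩
    · exact Measure.isProbabilityMeasure_map
        (measurable_pi_lambda _ fun k => measurable_pi_apply _).aemeasurable
    · rintro _ ⟨q, hq, rfl⟩ _ ⟨r, hr, rfl⟩
      exact ⟨_, B.lie q hq r hr, rfl⟩
    · intro w hw n
      obtain ⟨q, hq, h⟩ := hD w hw n
      refine ⟨_, ⟨q, hq, rfl⟩, ?_⟩
      funext k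
      have := congrFun h (0, k)
      simp only [Pi.zero_apply, zero_add] at this
      exact this
    · intro w hw n c
      obtain ⟨q, hq, h⟩ := hVel w hw n c
      refine ⟨_, ⟨q, hq, rfl⟩, ?_⟩
      funext k
      have := congrFun h (0, k)
      simp only [Pi.zero_apply, zero_add] at this
      exact this
    · intro k
      have h := sigma_mem X hN hR (ev P a (0, k))
      have e : (fun _ : Unit => pf0 X P a (0, k)) =
          tf X ^ ev P a (0, k) * (gf X ^ ev P a (0, k))⁻¹ := rfl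
      rw [e]
      exact h
    · intro h hh
      have : ∃ v ∈ B.V, h = fun k => v (0, k) := by
        refine rs_induction (P := fun h => ∃ v ∈ B.V, h = fun k => v (0, k)) ?_ ?_ ?_ ?_ hh
        · exact ⟨0, B.V.zero_mem, rfl⟩
        · rintro _ ⟨q, hq, rfl⟩
          exact ⟨castM q, castM_mem_rs hq, rfl⟩
        · rintro _ _ ⟨v, hv, rfl⟩ ⟨w, hw, rfl⟩
          exact ⟨v + w, B.V.add_mem hv hw, rfl⟩
        · rintro c _ ⟨v, hv, rfl⟩
          exact ⟨c • v, B.V.smul_mem c hv, rfl⟩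
      obtain ⟨v, hv, rfl⟩ := this
      have hres : Measurable (fun (z : Ix κ → NM m) (k : κ) => z (0, k)) :=
        measurable_pi_lambda _ fun k => measurable_pi_apply _
      refine ⟨measurable_act _, ?_⟩
      rw [Measure.map_map (measurable_act _) hres]
      have e : (act ((fun k => pf0 X P a (0, k)) * E (fun k => v (0, k)) *
          (fun k => pf0 X P a (0, k))⁻¹) ∘ fun (z : Ix κ → NM m) (k : κ) => z (0, k)) =
          (fun (z : Ix κ → NM m) (k : κ) => z (0, k)) ∘
            act (pf0 X P a * E v * (pf0 X P a)⁻¹) := rfl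
      rw [e, ← Measure.map_map hres (measurable_act _), (hνΞ.inv v hv).map_eq]
    · intro Φ hΦ
      have hres : Continuous (fun (z : Ix κ → NM m) (k : κ) => z (0, k)) :=
        continuous_pi fun k => continuous_apply _
      have h1 := hconv (fun z => Φ fun k => z (0, k)) (hΦ.comp hres)
      rw [integral_map hres.measurable.aemeasurable hΦ.measurable.aestronglyMeasurable]
      rw [← tendsto_add_atTop_iff_nat 1]
      refine h1.congr fun N => ?_
      obtain ⟨C, hC'⟩ := hbd (fun z => Φ fun k => z (0, k)) (hΦ.comp hres)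
      rw [integral_th X P a ν N (Φ := fun z => Φ fun k => z (0, k)) (hΦ.comp hres) hC',
        Finset.sum_range]
      rw [← Complex.coe_smul]
      push_cast
      rw [smul_eq_mul]
      congr 1
      refine Finset.sum_congr rfl fun n1 _ => ?_
      rw [Finset.sum_range]
      refine Finset.sum_congr rfl fun n2 _ => ?_
      refine integral_congr_ae (ae_of_all _ fun z => ?_)
      show Φ _ = Φ _
      congr 1
      funext k
      unfold om pt
      simp only [Pi.zero_apply, zero_add]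
      by_cases h : a k = true <;> simp [h]
  · intro j Φ hΦ
    obtain ⟨C, hC'⟩ := hbd Φ hΦ
    have hC0 : 0 ≤ C := by
      obtain ⟨z0, -⟩ : (orb B.V (pf0 X P a)).Nonempty := ⟨_, 0, B.V.zero_mem, rfl⟩
      exact (norm_nonneg _).trans (hC' z0)
    set g : ℕ → ℕ → ℝ := fun n1 n2 =>
      ∫ z, Φ (om X P a (fun c => ((if c then n2 else n1 : ℕ) : ℤ)) z) ∂ν with hg
    have hgb : ∀ i j, |g i j| ≤ C := by
      intro i j
      have := norm_integral_le_of_norm_le_const (μ := ν) (C := C)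
        (f := fun z => Φ (om X P a (fun c => ((if c then j else i : ℕ) : ℤ)) z))
        (ae_of_all _ fun z => hC' _)
      rw [hg]
      simpa using this
    have e2 : ∀ N, ∫ y, Φ y ∂(th X P a ν N) = (((N + 1 : ℕ) : ℝ) ^ 2)⁻¹ •
        ∑ n1 ∈ Finset.range (N + 1), ∑ n2 ∈ Finset.range (N + 1), g n1 n2 :=
      fun N => integral_th X P a ν N hΦ hC'
    have e1 : ∀ N, ∫ y, Φ (pτ X j y) ∂(th X P a ν N) = (((N + 1 : ℕ) : ℝ) ^ 2)⁻¹ •
        ∑ n1 ∈ Finset.range (N + 1), ∑ n2 ∈ Finset.range (N + 1),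
          ∫ z, Φ (pτ X j (om X P a (fun c => ((if c then n2 else n1 : ℕ) : ℤ)) z)) ∂ν :=
      fun N => integral_th X P a ν N (hΦ.comp (continuous_pτ X j)) (fun y => hC' _)
    cases j with
    | none =>
      have e3 : ∀ n1 n2 : ℕ, ∫ z, Φ (pτ X none
          (om X P a (fun c => ((if c then n2 else n1 : ℕ) : ℤ)) z)) ∂ν = g n1 n2 := by
        intro n1 n2
        have hT := tf_mp X hN hR hH hmeas1 hν 1
        have e4 : ∫ z, Φ (pτ X none
          (om X P a (fun c => ((if c then n2 else n1 : ℕ) : ℤ)) z)) ∂ν =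
          ∫ z, Φ (om X P a (fun c => ((if c then n2 else n1 : ℕ) : ℤ))
            (act (tf X ^ (1 : ℤ)) z)) ∂ν :=
          integral_congr_ae (ae_of_all _ fun z => by
            show Φ _ = Φ _
            rw [pτ_none_om])
        have e5 : ∫ z, Φ (om X P a (fun c => ((if c then n2 else n1 : ℕ) : ℤ)) z)
            ∂(ν.map (act (tf X ^ (1 : ℤ)))) =
            ∫ z, Φ (om X P a (fun c => ((if c then n2 else n1 : ℕ) : ℤ))
              (act (tf X ^ (1 : ℤ)) z)) ∂ν :=
          integral_map hT.measurable.aemeasurable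
            (hΦ.comp (continuous_om X P a _)).measurable.aestronglyMeasurable
        rw [e4, ← e5, hT.map_eq]
      simp only [e1, e2, e3, sub_self]
      exact tendsto_const_nhds
    | some c =>
      cases c with
      | false =>
        have e3 : ∀ n1 n2 : ℕ, ∫ z, Φ (pτ X (some false)
            (om X P a (fun c => ((if c then n2 else n1 : ℕ) : ℤ)) z)) ∂ν = g (n1 + 1) n2 := by
          intro n1 n2
          refine integral_congr_ae (ae_of_all _ fun z => ?_)
          show Φ _ = Φ _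
          rw [pτ_some_om]
          congr 2
          funext c
          cases c <;> simp
        simp only [e1, e2, e3]
        exact tele_tendsto g hgb
      | true =>
        have e3 : ∀ n1 n2 : ℕ, ∫ z, Φ (pτ X (some true)
            (om X P a (fun c => ((if c then n2 else n1 : ℕ) : ℤ)) z)) ∂ν = g n1 (n2 + 1) := by
          intro n1 n2
          refine integral_congr_ae (ae_of_all _ fun z => ?_)
          show Φ _ = Φ _
          rw [pτ_some_om]
          congr 2
          funext c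
          cases c <;> simp
        simp only [e1, e2, e3]
        exact tele_tendsto' g hgb

end MPd26.Nil
end

section
/-!
# POLYV, part A: the polynomial maps `D_{w,n}` and `Vel_{w,n,c}`
-/
set_option autoImplicit false

open MeasureTheory Filter Topology Polynomial

namespace MPd26.Nil

namespace PolyVM

variable {κ : Type} {m : ℕ}

/-- `w ↦ δ w - w δ` -/
def adQ (δ : Unit → MatQ m) : (Unit → MatQ m) →ₗ[ℚ] (Unit → MatQ m) where
  toFun q := δ * q - q * δ
  map_add' a b := by noncomm_ring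
  map_smul' c a := by
    simp only [RingHom.id_apply, mul_smul_comm, smul_mul_assoc, smul_sub]

lemma castM_adQ (δ q : Unit → MatQ m) :
    castM (adQ δ q) = NilExpM.adF (castM δ) (castM q) := by
  show castM (δ * q - q * δ) = castM δ * castM q - castM q * castM δ
  rw [H18.castM_sub, H18.castM_mul, H18.castM_mul]

lemma castM_adQ_pow (δ q : Unit → MatQ m) (r : ℕ) :
    castM ((adQ δ ^ r) q) = ((NilExpM.adF (castM δ)) ^ r) (castM q) := by
  induction r generalizing q with
  | zero => rfl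
  | succ r ih =>
    rw [pow_succ, pow_succ, Module.End.mul_apply, Module.End.mul_apply, ih, castM_adQ]

lemma adF_smul {ι : Type} (t : ℝ) (x : ι → Mat m) : NilExpM.adF (t • x) = t • NilExpM.adF x := by
  refine LinearMap.ext fun y => ?_
  show (t • x) * y - y * (t • x) = t • (x * y - y * x)
  rw [smul_mul_assoc, mul_smul_comm, smul_sub]

/-- the conjugation by `exp(t x)` is polynomial in `t` -/
lemma Ad_E_smul {ι : Type} {x : ι → Mat m} (hx : SU x) (t : ℝ) (v : ι → Mat m) :
    Ad (E (t • x)) v = ∑ r ∈ Finset.range (2 * m + 1),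
      (t ^ r * ((r.factorial : ℝ)⁻¹)) • ((NilExpM.adF x) ^ r) v := by
  rw [NilExpM.Ad_E (H18.SU_smul hx t)]
  refine Finset.sum_congr rfl fun r _ => ?_
  rw [adF_smul, _root_.smul_pow, LinearMap.smul_apply, smul_smul, mul_comm]

variable (X : NData m) (P : κ → ℤ[X]) (a : κ → Bool)

lemma gamma_zpow (n : ℤ) : (fun _ : Unit => X.γ ^ n) = E ((n : ℝ) • castM X.δ) := by
  rw [H18.E_zsmul X.su n]
  rfl

lemma Ad_gamma (n : ℤ) (v : Unit → Mat m) :
    Ad (fun _ => X.γ ^ n) v = ∑ r ∈ Finset.range (2 * m + 1),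
      ((n : ℝ) ^ r * ((r.factorial : ℝ)⁻¹)) • ((NilExpM.adF (castM X.δ)) ^ r) v := by
  rw [gamma_zpow, Ad_E_smul X.su]

/-- the maps `D_{v,n}` -/
noncomputable def DR (n : Bool → ℤ) : (Unit → Mat m) →ₗ[ℝ] (Ix κ → Mat m) where
  toFun v := fun x => Ad (fun _ => X.γ ^ ((P x.2).eval (x.1 (a x.2) + n (a x.2)))) v ()
  map_add' v w := by
    funext x
    rw [H18.Ad_add]
    rfl
  map_smul' c v := by
    funext x
    rw [H18.Ad_smul]
    rfl

lemma DR_apply (n : Bool → ℤ) (v : Unit → Mat m) (x : Ix κ) : DR X P a n v x =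
    Ad (fun _ => X.γ ^ ((P x.2).eval (x.1 (a x.2) + n (a x.2)))) v () := rfl

/-- the factor of the velocities -/
noncomputable def fac (n : ℤ) (c : Bool) (x : Ix κ) : ℝ :=
  (if a x.2 = c then 1 else 0) * (((derivative (P x.2)).eval (x.1 (a x.2) + n) : ℤ) : ℝ)

/-- the maps `Vel_{v,n,c}` -/
noncomputable def VR (n : ℤ) (c : Bool) : (Unit → Mat m) →ₗ[ℝ] (Ix κ → Mat m) where
  toFun v := fun x => fac P a n c x • DR X P a (fun _ => n) v x
  map_add' v w := by
    funext x
    rw [map_add, Pi.add_apply, smul_add]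
    rfl
  map_smul' r v := by
    funext x
    rw [map_smul, Pi.smul_apply, smul_comm]
    rfl

lemma VR_apply (n : ℤ) (c : Bool) (v : Unit → Mat m) (x : Ix κ) : VR X P a n c v x =
    fac P a n c x • DR X P a (fun _ => n) v x := rfl

lemma VR_eq (n : ℤ) (c : Bool) (v : Unit → Mat m) : VR X P a n c v = fun x =>
    if a x.2 = c then (((derivative (P x.2)).eval (x.1 c + n) : ℤ) : ℝ) •
      Ad (fun _ => X.γ ^ ((P x.2).eval (x.1 c + n))) v () else 0 := by
  funext x
  rw [VR_apply, fac]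
  by_cases h : a x.2 = c
  · rw [if_pos h, if_pos h, one_mul, DR_apply, h]
  · rw [if_neg h, if_neg h, zero_mul, zero_smul]

/-! ### algebraic rules -/

lemma DR_br (n : Bool → ℤ) (v w : Unit → Mat m) : DR X P a n (v * w - w * v) =
    DR X P a n v * DR X P a n w - DR X P a n w * DR X P a n v := by
  funext x
  rw [DR_apply, H18.Ad_sub, H18.Ad_mulv, H18.Ad_mulv]
  rfl

lemma VR_br (n : ℤ) (c : Bool) (v w : Unit → Mat m) : VR X P a n c (v * w - w * v) =
    DR X P a (fun _ => n) v * VR X P a n c w - VR X P a n c w * DR X P a (fun _ => n) v := by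
  funext x
  rw [VR_apply, DR_br]
  show fac P a n c x • (DR X P a (fun _ => n) v x * DR X P a (fun _ => n) w x -
      DR X P a (fun _ => n) w x * DR X P a (fun _ => n) v x) =
    DR X P a (fun _ => n) v x * (fac P a n c x • DR X P a (fun _ => n) w x) -
      (fac P a n c x • DR X P a (fun _ => n) w x) * DR X P a (fun _ => n) v x
  rw [mul_smul_comm, smul_mul_assoc, smul_sub]

lemma DR_Ad (n : Bool → ℤ) (v : Unit → Mat m) : DR X P a n (Ad (fun _ => X.γ) v) =
    Ad (fun _ => X.γ) (DR X P a n v) := by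
  funext x
  have h1 : (fun _ : Unit => X.γ ^ ((P x.2).eval (x.1 (a x.2) + n (a x.2)))) * (fun _ => X.γ) =
      (fun _ => X.γ) * (fun _ : Unit => X.γ ^ ((P x.2).eval (x.1 (a x.2) + n (a x.2)))) := by
    funext _
    exact ((Commute.refl X.γ).zpow_left _).eq
  rw [DR_apply, ← H18.Ad_mul, h1, H18.Ad_mul]
  rfl

lemma VR_Ad (n : ℤ) (c : Bool) (v : Unit → Mat m) : VR X P a n c (Ad (fun _ => X.γ) v) =
    Ad (fun _ => X.γ) (VR X P a n c v) := by
  funext x
  rw [VR_apply, DR_Ad]
  show fac P a n c x • (X.γ.mat * DR X P a (fun _ => n) v x * (X.γ⁻¹).mat) =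
    X.γ.mat * (fac P a n c x • DR X P a (fun _ => n) v x) * (X.γ⁻¹).mat
  rw [mul_smul_comm, smul_mul_assoc]

lemma DR_sh (n : Bool → ℤ) (c : Bool) (v : Unit → Mat m) :
    (fun x => DR X P a n v (sh c x)) = DR X P a (n + Pi.single c 1) v := by
  funext x
  rw [DR_apply, DR_apply]
  have : (sh c x).1 (a (sh c x).2) + n (a (sh c x).2) =
      x.1 (a x.2) + (n + Pi.single c 1 : Bool → ℤ) (a x.2) := by
    show (x.1 + Pi.single c 1 : Bool → ℤ) (a x.2) + n (a x.2) = _
    rw [Pi.add_apply, Pi.add_apply]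
    ring
  rw [this]
  rfl

lemma VR_sh (n : ℤ) (c c' : Bool) (v : Unit → Mat m) :
    (fun x => VR X P a n c v (sh c' x)) = VR X P a (if c' = c then n + 1 else n) c v := by
  rw [VR_eq, VR_eq]
  funext x
  have : (sh c' x).1 c + n = x.1 c + (if c' = c then n + 1 else n) := by
    show (x.1 + Pi.single c' 1 : Bool → ℤ) c + n = _
    rw [Pi.add_apply]
    by_cases h : c' = c
    · subst h
      rw [Pi.single_eq_same, if_pos rfl]
      ring
    · rw [Pi.single_eq_of_ne (fun e => h e.symm), if_neg h, add_zero]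
  simp only [this]
  rfl

lemma SU_DR (n : Bool → ℤ) {v : Unit → Mat m} (hv : SU v) : SU (DR X P a n v) := fun x => by
  rw [DR_apply]
  exact H18.SU_Ad _ hv ()

lemma SU_VR (n : ℤ) (c : Bool) {v : Unit → Mat m} (hv : SU v) : SU (VR X P a n c v) := fun x =>
  (SU_DR X P a (fun _ => n) hv x).smul _

/-! ### rational versions -/

lemma sum_castM {α : Type} (s : Finset α) (c : α → ℚ) (M : α → MatQ m) :
    (∑ r ∈ s, c r • M r).map (fun x : ℚ => (x : ℝ)) =
      ∑ r ∈ s, (c r : ℝ) • (M r).map (fun x : ℚ => (x : ℝ)) := by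
  ext i j
  rw [Matrix.map_apply, Matrix.sum_apply, Matrix.sum_apply, Rat.cast_sum]
  refine Finset.sum_congr rfl fun r _ => ?_
  rw [Matrix.smul_apply, Matrix.smul_apply, Matrix.map_apply, smul_eq_mul, smul_eq_mul,
    Rat.cast_mul]

variable {P a}

/-- the polynomial `P_k(x + n)` is a polynomial map -/
lemma polP {D0 : ℕ} (hP : ∀ k, (P k).natDegree ≤ D0) (n : Bool → ℤ) :
    (fun x : Ix κ => (((P x.2).eval (x.1 (a x.2) + n (a x.2)) : ℤ) : ℚ)) ∈ Pol ℚ κ (D0 + 1) := by
  have h := PolM.eval_mem (𝕜 := ℚ)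
    (fun k => ((P k).comp (X + C (n (a k)))).map (Int.castRingHom ℚ)) a 0 D0 (by
      intro k
      refine (natDegree_map_le).trans ?_
      rw [natDegree_comp, natDegree_X_add_C, mul_one]
      exact hP k)
  convert h using 1
  funext x
  rw [add_zero]
  have h2 := eval_intCast_map (Int.castRingHom ℚ) ((P x.2).comp (X + C (n (a x.2))))
    (x.1 (a x.2))
  have h3 : ((P x.2).comp (X + C (n (a x.2)))).eval (x.1 (a x.2)) =
      (P x.2).eval (x.1 (a x.2) + n (a x.2)) := by
    rw [eval_comp, eval_add, eval_X, eval_C]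
  rw [h2, Int.cast_id, h3]
  rfl

lemma pow_mem' {D0 : ℕ} {f : Ix κ → ℚ} (hf : f ∈ Pol ℚ κ (D0 + 1)) (r : ℕ) :
    (fun x => f x ^ r) ∈ Pol ℚ κ (r * D0 + 1) := by
  induction r with
  | zero =>
    rw [Nat.zero_mul]
    have := PolM.const_mem (𝕜 := ℚ) (κ := κ) (fun _ => 1)
    simpa using this
  | succ r ih =>
    have h := PolM.mul_mem ih hf
    have e : (fun x => f x ^ r) * f = fun x => f x ^ (r + 1) := by
      funext x
      rw [Pi.mul_apply, pow_succ]
    rw [e] at h
    have e2 : (r + 1) * D0 + 1 = r * D0 + D0 + 1 := by ring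
    rw [e2]
    exact h

/-- a bound for the degrees -/
def dg (m D0 : ℕ) : ℕ := (2 * m + 1) * D0 + D0

lemma exists_DQ {D0 : ℕ} (hP : ∀ k, (P k).natDegree ≤ D0) (w : Unit → MatQ m) (n : Bool → ℤ) :
    ∃ q : Ix κ → MatQ m, castM q = DR X P a n (castM w) ∧
      ∀ i j, (fun x => q x i j) ∈ Pol ℚ κ ((2 * m + 1) * D0 + 1) := by
  refine ⟨fun x => ∑ r ∈ Finset.range (2 * m + 1),
    ((((P x.2).eval (x.1 (a x.2) + n (a x.2)) : ℤ) : ℚ) ^ r * ((r.factorial : ℚ)⁻¹)) •
      ((adQ X.δ ^ r) w) (), ?_, ?_⟩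
  · funext x
    rw [DR_apply, Ad_gamma, Finset.sum_apply]
    show (∑ r ∈ Finset.range (2 * m + 1),
      ((((P x.2).eval (x.1 (a x.2) + n (a x.2)) : ℤ) : ℚ) ^ r * ((r.factorial : ℚ)⁻¹)) •
      ((adQ X.δ ^ r) w) () : MatQ m).map (fun x : ℚ => (x : ℝ)) = _
    rw [sum_castM]
    refine Finset.sum_congr rfl fun r _ => ?_
    rw [Pi.smul_apply, ← castM_adQ_pow]
    push_cast
    rfl
  · intro i j
    have e : (fun x : Ix κ => (∑ r ∈ Finset.range (2 * m + 1),
        ((((P x.2).eval (x.1 (a x.2) + n (a x.2)) : ℤ) : ℚ) ^ r * ((r.factorial : ℚ)⁻¹)) •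
          ((adQ X.δ ^ r) w) ()) i j) = ∑ r ∈ Finset.range (2 * m + 1),
        (((r.factorial : ℚ)⁻¹) * ((adQ X.δ ^ r) w) () i j) •
          fun x : Ix κ => (((P x.2).eval (x.1 (a x.2) + n (a x.2)) : ℤ) : ℚ) ^ r := by
      funext x
      rw [Matrix.sum_apply, Finset.sum_apply]
      refine Finset.sum_congr rfl fun r _ => ?_
      rw [Matrix.smul_apply, Pi.smul_apply, smul_eq_mul, smul_eq_mul]
      ring
    rw [e]
    refine PolM.sum_mem _ _ fun r hr => PolM.smul_mem _ _ _ ?_
    refine PolM.mono ?_ (pow_mem' (polP hP n) r)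
    have : r ≤ 2 * m + 1 := (Finset.mem_range.1 hr).le
    have := Nat.mul_le_mul_right D0 this
    omega

lemma exists_VQ {D0 : ℕ} (hP : ∀ k, (P k).natDegree ≤ D0) (w : Unit → MatQ m) (n : ℤ)
    (c : Bool) : ∃ q : Ix κ → MatQ m, castM q = VR X P a n c (castM w) ∧
      ∀ i j, (fun x => q x i j) ∈ Pol ℚ κ ((2 * m + 1) * D0 + D0 + 1) := by
  obtain ⟨q, hq1, hq2⟩ := exists_DQ (a := a) X hP w (fun _ => n)
  refine ⟨fun x => ((if a x.2 = c then (1 : ℚ) else 0) *
    (((derivative (P x.2)).eval (x.1 (a x.2) + n) : ℤ) : ℚ)) • q x, ?_, ?_⟩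
  · funext x
    rw [VR_apply, ← hq1]
    ext i j
    show (((((if a x.2 = c then (1 : ℚ) else 0) *
      (((derivative (P x.2)).eval (x.1 (a x.2) + n) : ℤ) : ℚ)) • q x) i j : ℚ) : ℝ) =
      (fac P a n c x • castM q x) i j
    rw [Matrix.smul_apply, Matrix.smul_apply, fac, smul_eq_mul, smul_eq_mul]
    show _ = _ * ((q x i j : ℚ) : ℝ)
    push_cast
    by_cases h : a x.2 = c
    · simp [h]
    · simp [h]
  · intro i j
    have hD : ∀ k, ((derivative (P k))).natDegree ≤ D0 := fun k =>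
      (natDegree_derivative_le (P k)).trans ((Nat.sub_le _ _).trans (hP k))
    have h1 := polP (P := fun k => derivative (P k)) (a := a) hD (fun _ => n)
    have h2 := PolM.const_mem (𝕜 := ℚ) (κ := κ) (fun k => if a k = c then (1 : ℚ) else 0)
    have h3 := PolM.mul_mem (k := 0) h2 h1
    rw [Nat.zero_add] at h3
    have h4 := PolM.mul_mem h3 (hq2 i j)
    have e : D0 + (2 * m + 1) * D0 + 1 = (2 * m + 1) * D0 + D0 + 1 := by ring
    rw [e] at h4
    exact h4

end PolyVM

end MPd26.Nil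
end

section
/-!
# POLYV, part B: the paths
-/
set_option autoImplicit false

open MeasureTheory Filter Topology Polynomial

namespace MPd26.Nil

namespace PolyVM

variable {κ : Type} {m : ℕ}

/-! ### real polynomial maps -/

lemma smul_single_mem {D0 D : ℕ} (hD : D0 ≤ D) {g : Ix κ → ℚ} (hg : g ∈ Pol ℚ κ (D0 + 1))
    {M : Mat m} (hM : IsSU M) : (fun x : Ix κ => ((g x : ℚ) : ℝ) • M) ∈ rs (PolGenM.Fw κ m D 0) := by
  have e : (fun x : Ix κ => ((g x : ℚ) : ℝ) • M) =
      ∑ p : Fin m, ∑ q : Fin m, M p q • (fun x : Ix κ => ((g x : ℚ) : ℝ) • Matrix.single p q (1 : ℝ)) := by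
    funext x
    rw [Finset.sum_apply]
    simp only [Finset.sum_apply, Pi.smul_apply]
    conv_lhs => rw [Matrix.matrix_eq_sum_single M]
    rw [Finset.smul_sum]
    refine Finset.sum_congr rfl fun p _ => ?_
    rw [Finset.smul_sum]
    refine Finset.sum_congr rfl fun q _ => ?_
    ext i j
    simp only [Matrix.smul_apply, Matrix.single_apply, smul_eq_mul]
    split_ifs <;> ring
  rw [e]
  refine Submodule.sum_mem _ fun p _ => Submodule.sum_mem _ fun q _ => ?_
  by_cases hpq : (q : ℕ) < p + 1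
  · rw [hM p q hpq, zero_smul]
    exact Submodule.zero_mem _
  · refine Submodule.smul_mem _ _ ?_
    have hmem : (fun x : Ix κ => g x • Matrix.single p q (1 : ℚ)) ∈ PolGenM.Fw κ m D 0 := by
      intro i j
      by_cases h : p = i ∧ q = j
      · obtain ⟨rfl, rfl⟩ := h
        have e2 : (fun x : Ix κ => (g x • Matrix.single p q (1 : ℚ)) p q) = g := by
          funext x
          rw [Matrix.smul_apply, Matrix.single_apply_same, smul_eq_mul, mul_one]
        rw [e2]
        refine PolM.mono ?_ hg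
        unfold PolGenM.wt
        rw [if_pos (by omega)]
        have : D * 1 ≤ D * ((q : ℕ) - p) := Nat.mul_le_mul_left _ (by omega)
        omega
      · have e2 : (fun x : Ix κ => (g x • Matrix.single p q (1 : ℚ)) i j) = 0 := by
          funext x
          rw [Matrix.smul_apply, Matrix.single_apply, if_neg h, smul_zero]
          rfl
        rw [e2]
        exact PolM.zero_mem _
    have h2 := H18.castM_mem_rs hmem
    convert h2 using 1
    funext x
    ext i j
    show ((g x : ℚ) : ℝ) * Matrix.single p q (1 : ℝ) i j =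
      (((g x • Matrix.single p q (1 : ℚ)) i j : ℚ) : ℝ)
    rw [Matrix.smul_apply, Matrix.single_apply, Matrix.single_apply, smul_eq_mul]
    split_ifs <;> simp

/-- real polynomials with values in a line -/
lemma poly_mem [Finite κ] {D0 D : ℕ} (hD : D0 ≤ D) (R : κ → ℝ[X])
    (hR : ∀ k, (R k).natDegree ≤ D0) (a : κ → Bool) {M : Mat m} (hM : IsSU M) :
    (fun x : Ix κ => ((R x.2).eval ((x.1 (a x.2) : ℤ) : ℝ)) • M) ∈ rs (PolGenM.Fw κ m D 0) := by
  classical
  have := Fintype.ofFinite κ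
  have e : (fun x : Ix κ => ((R x.2).eval ((x.1 (a x.2) : ℤ) : ℝ)) • M) =
      ∑ k0 : κ, ∑ j ∈ Finset.range (D0 + 1), (R k0).coeff j • (fun x : Ix κ =>
        ((((if x.2 = k0 then (1 : ℚ) else 0) * (((x.1 (a x.2) : ℤ) : ℚ) + 0) ^ j : ℚ)) : ℝ) • M) := by
    funext x
    rw [Finset.sum_apply, Finset.sum_eq_single x.2]
    · rw [Finset.sum_apply, eval_eq_sum_range' (n := D0 + 1) (Nat.lt_succ_of_le (hR x.2)),
        Finset.sum_smul]
      refine Finset.sum_congr rfl fun j _ => ?_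
      rw [Pi.smul_apply, if_pos rfl, smul_smul]
      push_cast
      rw [one_mul, add_zero]
    · intro k0 _ hk0
      rw [Finset.sum_apply]
      refine Finset.sum_eq_zero fun j _ => ?_
      rw [Pi.smul_apply, if_neg (fun h => hk0 h.symm), zero_mul, Rat.cast_zero, zero_smul, smul_zero]
    · intro h
      exact absurd (Finset.mem_univ _) h
  rw [e]
  refine Submodule.sum_mem _ fun k0 _ => Submodule.sum_mem _ fun j hj => Submodule.smul_mem _ _ ?_
  have h1 := PolM.const_mem (𝕜 := ℚ) (κ := κ) (fun k => if k = k0 then (1 : ℚ) else 0)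
  have h2 := PolM.pow_mem (𝕜 := ℚ) a 0 j
  have h3 := PolM.mul_mem (k := 0) h1 h2
  rw [Nat.zero_add] at h3
  have hj' : j ≤ D0 := Nat.lt_succ_iff.1 (Finset.mem_range.1 hj)
  exact smul_single_mem (D0 := D0) hD (PolM.mono (Nat.succ_le_succ hj') h3) hM

/-! ### Lagrange interpolation -/

lemma exists_lagrange (N : ℕ) (s : ℝ) : ∃ l : ℕ → ℝ, ∀ Q : ℝ[X], Q.natDegree ≤ N →
    Q.eval s = ∑ t ∈ Finset.range (N + 1), l t * Q.eval (t : ℝ) := by
  refine ⟨fun t => (Lagrange.basis (Finset.range (N + 1)) (fun i : ℕ => (i : ℝ)) t).eval s,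
    fun Q hQ => ?_⟩
  have hinj : Set.InjOn (fun i : ℕ => (i : ℝ)) (Finset.range (N + 1)) :=
    fun a _ b _ h => Nat.cast_injective (R := ℝ) h
  have hdeg : Q.degree < (Finset.range (N + 1)).card := by
    rw [Finset.card_range]
    refine lt_of_le_of_lt (degree_le_natDegree) ?_
    exact_mod_cast Nat.lt_succ_of_le hQ
  have h := Lagrange.eq_interpolate hinj hdeg
  have h2 := congrArg (eval s) h
  rw [Lagrange.interpolate_apply, eval_finset_sum] at h2
  rw [h2]
  refine Finset.sum_congr rfl fun t _ => ?_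
  rw [eval_mul, eval_C, mul_comm]

/-! ### the paths -/

lemma Dm_expM' {B : ℝ → Mat m} {B' : Mat m} (hB : PathM.Dm B B') (h0 : B 0 = 0)
    (hsu : IsSU B') : PathM.Dm (fun h => expM (B h)) B' := by
  have h := hB.expM h0
  rcases Nat.lt_or_ge m 2 with hm | hm
  · have z : B' = 0 := by
      ext i j
      exact hsu i j (by omega)
    rw [z] at h ⊢
    simpa using h
  · rwa [if_pos hm] at h

variable (X : NData m) (P : κ → ℤ[X]) (a : κ → Bool) (c : Bool)

/-- `P_k(x_c + s)` where `a k = c` -/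
noncomputable def pv (s : ℝ) (x : Ix κ) : ℝ :=
  if a x.2 = c then ((P x.2).map (Int.castRingHom ℝ)).eval (((x.1 (a x.2) : ℤ) : ℝ) + s) else 0

/-- its derivative in `s` -/
noncomputable def dv (s : ℝ) (x : Ix κ) : ℝ :=
  if a x.2 = c then
    (derivative ((P x.2).map (Int.castRingHom ℝ))).eval (((x.1 (a x.2) : ℤ) : ℝ) + s) else 0

lemma hasDerivAt_pv (s : ℝ) (x : Ix κ) :
    HasDerivAt (fun h => pv P a c (s + h) x) (dv P a c s x) 0 := by
  unfold pv dv
  by_cases hc : a x.2 = c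
  · simp only [if_pos hc]
    have h1 := ((P x.2).map (Int.castRingHom ℝ)).hasDerivAt (((x.1 (a x.2) : ℤ) : ℝ) + s)
    have h2 : HasDerivAt (fun h : ℝ => ((x.1 (a x.2) : ℤ) : ℝ) + (s + h)) 1 0 := by
      have := (hasDerivAt_id' (0 : ℝ)).const_add (((x.1 (a x.2) : ℤ) : ℝ) + s)
      simpa [add_assoc] using this
    have h3 : HasDerivAt (fun y => ((P x.2).map (Int.castRingHom ℝ)).eval y)
        ((derivative ((P x.2).map (Int.castRingHom ℝ))).eval (((x.1 (a x.2) : ℤ) : ℝ) + s))
        ((fun h : ℝ => ((x.1 (a x.2) : ℤ) : ℝ) + (s + h)) 0) := by simpa using h1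
    have h4 := HasDerivAt.comp (h := fun h : ℝ => ((x.1 (a x.2) : ℤ) : ℝ) + (s + h)) 0 h3 h2
    rw [mul_one] at h4
    exact h4
  · simp only [if_neg hc]
    exact hasDerivAt_const 0 0

/-- `δ + e` -/
noncomputable def YY : Mat m := castM X.δ () + X.e ()

lemma su_e : IsSU (X.e ()) := by
  have : X.A.V ≤ PathM.LevS Unit m 1 := by
    refine Submodule.span_le.2 ?_
    rintro v ⟨q, hq, rfl⟩
    exact X.A.su q hq
  exact this X.he ()

lemma su_delta : IsSU (castM X.δ ()) := X.su ()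

lemma su_Y : IsSU (YY X) := (su_delta X).add (su_e X)

/-- the path `σ(P_k(x_c + s))` -/
noncomputable def Sg (s : ℝ) : Ix κ → UT m :=
  E (fun x => pv P a c s x • YY X) * (E (fun x => pv P a c s x • castM X.δ ()))⁻¹

/-- the path `β` -/
noncomputable def beta (s : ℝ) : Ix κ → UT m := (Sg X P a c 0)⁻¹ * Sg X P a c s

/-- its velocity -/
noncomputable def vel (s : ℝ) : Ix κ → Mat m := fun x =>
  dv P a c s x • Ad (E ((pv P a c s x) • castM X.δ)) X.e ()

lemma expU_neg {A : Mat m} (hA : IsSU A) : expU (-A) = (expU A)⁻¹ := (NilExpM.inv_expU hA).symm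

lemma expU_sub_smul {A : Mat m} (hA : IsSU A) (s t : ℝ) :
    (expU (s • A))⁻¹ * expU (t • A) = expU ((t - s) • A) := by
  rw [← expU_neg (hA.smul s), ← expU_add (hA.smul s).neg (hA.smul t)]
  · congr 1
    rw [sub_smul]
    abel
  · exact (((Commute.refl A).smul_left s).smul_right t).neg_left

lemma beta_deriv (s : ℝ) (x : Ix κ) (j k : Fin m) :
    HasDerivAt (fun h : ℝ => ((beta X P a c s x)⁻¹ * beta X P a c (s + h) x).mat j k)
      (vel X P a c s x j k) 0 := by
  set p : ℝ := pv P a c s x with hp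
  set u : ℝ → ℝ := fun h => pv P a c (s + h) x - p with hu
  have hu0 : u 0 = 0 := by simp [hu, hp]
  have hud : HasDerivAt u (dv P a c s x) 0 := (hasDerivAt_pv P a c s x).sub_const p
  have hδ := su_delta X
  have hY := su_Y X
  -- the product
  have e1 : ∀ h : ℝ, (beta X P a c s x)⁻¹ * beta X P a c (s + h) x =
      expU (p • castM X.δ ()) * (expU (u h • YY X) * expU (-(u h • castM X.δ ()))) *
        (expU (p • castM X.δ ()))⁻¹ := by
    intro h
    have e2 : (beta X P a c s x)⁻¹ * beta X P a c (s + h) x =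
        (Sg X P a c s x)⁻¹ * Sg X P a c (s + h) x := by
      show ((Sg X P a c 0 x)⁻¹ * Sg X P a c s x)⁻¹ * ((Sg X P a c 0 x)⁻¹ * Sg X P a c (s + h) x) = _
      group
    rw [e2]
    show (expU (p • YY X) * (expU (p • castM X.δ ()))⁻¹)⁻¹ *
      (expU (pv P a c (s + h) x • YY X) * (expU (pv P a c (s + h) x • castM X.δ ()))⁻¹) = _
    have e3 := expU_sub_smul hY p (pv P a c (s + h) x)
    have e4 := expU_sub_smul hδ p (pv P a c (s + h) x)
    have e5 : (expU (pv P a c (s + h) x • castM X.δ ()))⁻¹ =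
        expU (-(u h • castM X.δ ())) * (expU (p • castM X.δ ()))⁻¹ := by
      rw [expU_neg (hδ.smul _), ← mul_inv_rev, hu]
      simp only
      rw [← e4]
      group
    rw [e5, hu]
    simp only
    rw [← e3]
    group
  have e6 : (fun h : ℝ => ((beta X P a c s x)⁻¹ * beta X P a c (s + h) x).mat) = fun h =>
      (expU (p • castM X.δ ())).mat * (expM (u h • YY X) * expM (-(u h • castM X.δ ()))) *
        ((expU (p • castM X.δ ()))⁻¹).mat := by
    funext h
    rw [e1, UT.mul_mat, UT.mul_mat, UT.mul_mat, expU_mat (hY.smul _), expU_mat (hδ.smul _).neg]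
  have d1 : PathM.Dm (fun h => u h • YY X) (dv P a c s x • YY X) := fun i j =>
    hud.mul_const (YY X i j)
  have d2 : PathM.Dm (fun h => -(u h • castM X.δ ())) (-(dv P a c s x • castM X.δ ())) := fun i j =>
    (hud.mul_const (castM X.δ () i j)).neg
  have d3 := Dm_expM' d1 (by rw [hu0, zero_smul]) (hY.smul _)
  have d4 := Dm_expM' d2 (by rw [hu0, zero_smul, neg_zero]) (hδ.smul _).neg
  have d5 := d3.mul d4
  simp only [hu0, zero_smul, neg_zero, expM_zero, mul_one, one_mul] at d5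
  have e7 : dv P a c s x • YY X + -(dv P a c s x • castM X.δ ()) = dv P a c s x • X.e () := by
    rw [YY, smul_add]
    abel
  rw [e7] at d5
  have d6 := ((PathM.Dm.const (expU (p • castM X.δ ())).mat).mul d5).mul
    (PathM.Dm.const ((expU (p • castM X.δ ()))⁻¹).mat)
  simp only [hu0, zero_smul, neg_zero, expM_zero, mul_one, zero_mul, zero_add, mul_zero,
    add_zero] at d6
  have e8 : vel X P a c s x = (expU (p • castM X.δ ())).mat * (dv P a c s x • X.e ()) *
      ((expU (p • castM X.δ ()))⁻¹).mat := by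
    show dv P a c s x • ((expU (p • castM X.δ ())).mat * X.e () *
      ((expU (p • castM X.δ ()))⁻¹).mat) = _
    rw [mul_smul_comm, smul_mul_assoc]
  rw [e8]
  have e9 : (fun h : ℝ => ((beta X P a c s x)⁻¹ * beta X P a c (s + h) x).mat j k) = fun h =>
      ((expU (p • castM X.δ ())).mat * (expM (u h • YY X) * expM (-(u h • castM X.δ ()))) *
        ((expU (p • castM X.δ ()))⁻¹).mat) j k := by
    funext h
    exact congrFun (congrFun (congrFun e6 h) j) k
  rw [e9]
  exact d6 j k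

lemma beta_zero : beta X P a c 0 = 1 := by
  unfold beta
  rw [inv_mul_cancel]

/-- the space `W` -/
lemma beta_mem [Finite κ] (hN : SpecNilExp) {D0 D : ℕ} (hD : D0 ≤ D)
    (hP : ∀ k, (P k).natDegree ≤ D0)
    (hW : IsNil (rs (PolGenM.Fw κ m D 0))) (s : ℝ) :
    Lg (beta X P a c s) ∈ rs (PolGenM.Fw κ m D 0) := by
  have hpoly : ∀ (s : ℝ) (M : Mat m), IsSU M →
      (fun x : Ix κ => pv P a c s x • M) ∈ rs (PolGenM.Fw κ m D 0) := by
    intro s M hM
    have h := poly_mem hD (fun k => if a k = c then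
      ((P k).map (Int.castRingHom ℝ)).comp (Polynomial.X + C s) else 0) (by
        intro k
        by_cases h : a k = c
        · rw [if_pos h, natDegree_comp, natDegree_X_add_C, mul_one]
          exact natDegree_map_le.trans (hP k)
        · rw [if_neg h, natDegree_zero]
          exact Nat.zero_le _) a hM
    convert h using 1
    funext x
    unfold pv
    by_cases h : a x.2 = c
    · rw [if_pos h, if_pos h, eval_comp, eval_add, eval_X, eval_C]
    · rw [if_neg h, if_neg h, eval_zero]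
  have hSg : ∀ s, Lg (Sg X P a c s) ∈ rs (PolGenM.Fw κ m D 0) := by
    intro s
    refine PathM.mul_mem hN hW ?_ (PathM.inv_mem ?_)
    · rw [PathM.Lg_E (fun x => (su_Y X).smul _)]
      exact hpoly s _ (su_Y X)
    · rw [PathM.Lg_E (fun x => (su_delta X).smul _)]
      exact hpoly s _ (su_delta X)
  exact PathM.mul_mem hN hW (PathM.inv_mem (hSg 0)) (hSg s)

/-- integer times: `σ` is `pf0` -/
lemma Sg_nat (n : ℕ) (x : Ix κ) (hc : a x.2 = c) : Sg X P a c n x =
    X.τ ^ ((P x.2).eval (x.1 (a x.2) + n)) * (X.γ ^ ((P x.2).eval (x.1 (a x.2) + n)))⁻¹ := by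
  have hp : pv P a c n x = (((P x.2).eval (x.1 (a x.2) + n) : ℤ) : ℝ) := by
    unfold pv
    rw [if_pos hc]
    have := eval_intCast_map (Int.castRingHom ℝ) (P x.2) (x.1 (a x.2) + n)
    push_cast at this
    rw [this]
    simp
  show expU (pv P a c n x • YY X) * (expU (pv P a c n x • castM X.δ ()))⁻¹ = _
  rw [hp, H18.expU_zsmul (su_Y X), H18.expU_zsmul (su_delta X)]
  rfl

lemma Sg_ne (s : ℝ) (x : Ix κ) (hc : a x.2 ≠ c) : Sg X P a c s x = 1 := by
  have hp : pv P a c s x = 0 := by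
    unfold pv
    rw [if_neg hc]
  show expU (pv P a c s x • YY X) * (expU (pv P a c s x • castM X.δ ()))⁻¹ = _
  rw [hp, zero_smul, zero_smul, expU_zero, inv_one, mul_one]

lemma beta_one : beta X P a c 1 = pb X P a (some c) := by
  funext x
  show (Sg X P a c 0 x)⁻¹ * Sg X P a c 1 x = (pf0 X P a x)⁻¹ * pf0 X P a (sh c x)
  have hev : ev P a (sh c x) = (P x.2).eval ((x.1 + Pi.single c 1 : Bool → ℤ) (a x.2)) := rfl
  have hev0 : ev P a x = (P x.2).eval (x.1 (a x.2)) := rfl
  by_cases hc : a x.2 = c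
  · have h0 := Sg_nat X P a c 0 x hc
    have h1 := Sg_nat X P a c 1 x hc
    rw [Nat.cast_zero] at h0
    rw [Nat.cast_one] at h1
    rw [h0, h1]
    unfold pf0
    rw [hev, hev0, Pi.add_apply, hc, Pi.single_eq_same]
    simp
  · rw [Sg_ne X P a c 0 x hc, Sg_ne X P a c 1 x hc]
    unfold pf0
    rw [hev, hev0, Pi.add_apply, Pi.single_eq_of_ne hc, add_zero, inv_mul_cancel,
      inv_mul_cancel]

/-- integer times: the velocities are the maps `Vel` -/
lemma vel_nat (n : ℕ) : vel X P a c n = VR X P a n c X.e := by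
  funext x
  rw [VR_eq]
  unfold vel dv pv
  by_cases hc : a x.2 = c
  · simp only [if_pos hc]
    have h1 := eval_intCast_map (Int.castRingHom ℝ) (P x.2) (x.1 (a x.2) + n)
    have h2 := eval_intCast_map (Int.castRingHom ℝ) (derivative (P x.2)) (x.1 (a x.2) + n)
    push_cast at h1 h2
    rw [derivative_map, h1, h2, ← hc]
    have h3 := gamma_zpow X ((P x.2).eval (x.1 (a x.2) + n))
    have h4 : (Int.castRingHom ℝ) (eval (x.1 (a x.2) + n) (P x.2)) =
      ((eval (x.1 (a x.2) + n) (P x.2) : ℤ) : ℝ) := rfl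
    rw [h4, ← h3]
    rfl
  · simp only [if_neg hc, zero_smul]

/-- the velocity at a real time is a combination of velocities at integer times -/
lemma vel_interp [Finite κ] (s : ℝ) : ∃ (N : ℕ) (l : ℕ → ℝ),
    (∑ t ∈ Finset.range (N + 1), l t = 1) ∧
    vel X P a c s = ∑ t ∈ Finset.range (N + 1), l t • VR X P a (t : ℕ) c X.e := by
  have := Fintype.ofFinite κ
  obtain ⟨D0, hD0⟩ : ∃ D0 : ℕ, ∀ k, (P k).natDegree ≤ D0 :=
    ⟨Finset.univ.sup fun k => (P k).natDegree, fun k => Finset.le_sup (f := fun k => (P k).natDegree)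
      (Finset.mem_univ k)⟩
  obtain ⟨l, hl⟩ := exists_lagrange (D0 + (2 * m + 1) * D0) s
  refine ⟨D0 + (2 * m + 1) * D0, l, ?_, ?_⟩
  · have := hl 1 (by simp)
    simpa using this.symm
  · have hpol : ∀ (x : Ix κ) (i j : Fin m), ∃ Q : ℝ[X], Q.natDegree ≤ D0 + (2 * m + 1) * D0 ∧
        ∀ s, vel X P a c s x i j = Q.eval s := by
      intro x i j
      by_cases hc : a x.2 = c
      · set P1 : ℝ[X] := ((P x.2).map (Int.castRingHom ℝ)).comp
          (Polynomial.X + C ((x.1 (a x.2) : ℤ) : ℝ)) with hP1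
        set P2 : ℝ[X] := (derivative ((P x.2).map (Int.castRingHom ℝ))).comp
          (Polynomial.X + C ((x.1 (a x.2) : ℤ) : ℝ)) with hP2
        have hd1 : P1.natDegree ≤ D0 := by
          rw [hP1, natDegree_comp, natDegree_X_add_C, mul_one]
          exact natDegree_map_le.trans (hD0 x.2)
        have hd2 : P2.natDegree ≤ D0 := by
          rw [hP2, natDegree_comp, natDegree_X_add_C, mul_one]
          exact (natDegree_derivative_le _).trans
            ((Nat.sub_le _ _).trans (natDegree_map_le.trans (hD0 x.2)))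
        refine ⟨P2 * ∑ r ∈ Finset.range (2 * m + 1),
          C ((r.factorial : ℝ)⁻¹ * ((NilExpM.adF (castM X.δ)) ^ r) X.e () i j) * P1 ^ r, ?_, ?_⟩
        · refine natDegree_mul_le.trans (Nat.add_le_add hd2 ?_)
          refine natDegree_sum_le_of_forall_le _ _ fun r hr => ?_
          refine (natDegree_C_mul_le _ _).trans (natDegree_pow_le.trans ?_)
          exact Nat.mul_le_mul (Finset.mem_range.1 hr).le hd1
        · intro s
          have e1 : eval s P1 = pv P a c s x := by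
            rw [hP1, pv, if_pos hc, eval_comp, eval_add, eval_X, eval_C, add_comm]
          have e2 : eval s P2 = dv P a c s x := by
            rw [hP2, dv, if_pos hc, eval_comp, eval_add, eval_X, eval_C, add_comm]
          rw [eval_mul, e2, eval_finset_sum]
          unfold vel
          rw [Ad_E_smul X.su, Finset.sum_apply, Matrix.smul_apply, Matrix.sum_apply, smul_eq_mul]
          congr 1
          refine Finset.sum_congr rfl fun r _ => ?_
          rw [eval_mul, eval_C, eval_pow, e1, Pi.smul_apply, Matrix.smul_apply, smul_eq_mul]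
          ring
      · refine ⟨0, by simp, fun s => ?_⟩
        unfold vel dv
        rw [if_neg hc, zero_smul, eval_zero]
        rfl
    funext x
    ext i j
    obtain ⟨Q, hQ1, hQ2⟩ := hpol x i j
    rw [hQ2, hl Q hQ1, Finset.sum_apply, Matrix.sum_apply]
    refine Finset.sum_congr rfl fun t _ => ?_
    rw [← hQ2, vel_nat]
    rfl

end PolyVM

end MPd26.Nil
end

section
/-!
# MP_d26cd8_an, Nil, module NT: NT2 (helper96)
-/
set_option autoImplicit false

open MeasureTheory Filter Topology Polynomial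

namespace MPd26.Nil

namespace NT2M

open H18

variable {m : ℕ}

lemma lcs_idl (hR : SpecRatNil) (A : RAlg Unit m) (k : ℕ) : IsIdl A.V (rs (lcs A.Q k)) :=
  (hR Unit m A).2 _ (OrbM.lcs_le A k) (CptM.lcs_anti A k)

/-- the exponentials of elements of `V` preserve Haar measure -/
lemma mp_of_haar {V : Submodule ℝ (Unit → Mat m)} {ν : Measure (Unit → NM m)}
    (hν : IsHaar V 1 ν) {w : Unit → Mat m} (hw : w ∈ V) : MeasurePreserving (act (E w)) ν ν := by
  have := hν.inv w hw
  rwa [one_mul, inv_one, mul_one] at this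

lemma orb_iff (hN : SpecNilExp) {V : Submodule ℝ (Unit → Mat m)} (hV : IsNil V)
    {w : Unit → Mat m} (hw : w ∈ V) (z : Unit → NM m) : act (E w) z ∈ orb V 1 ↔ z ∈ orb V 1 := by
  constructor
  · intro h
    have h1 := AvgM.orb_act hN hV (V.neg_mem hw) h
    rwa [E_neg (hV.su w hw), act_inv_act] at h1
  · exact fun h => AvgM.orb_act hN hV hw h

/-- translation of orthogonality -/
lemma orth_comp (hN : SpecNilExp) (hR : SpecRatNil) (A : RAlg Unit m) (k : ℕ)
    {ν : Measure (Unit → NM m)} (hν : IsHaar A.V 1 ν) {F : (Unit → NM m) → ℂ}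
    (hF : Orth A.V (lcs A.Q k) ν F) {w : Unit → Mat m} (hw : w ∈ A.V) :
    Orth A.V (lcs A.Q k) ν (fun z => F (act (E w) z)) := by
  intro G hG hGi
  have hV : IsNil A.V := (hR Unit m A).1
  have hnw : -w ∈ A.V := A.V.neg_mem hw
  have h1 := hF (fun z => G (act (E (-w)) z)) ?_ ?_
  · have hmp := mp_of_haar hν hw
    have hemb : MeasurableEmbedding (act (E w) : (Unit → NM m) → Unit → NM m) :=
      (actE (E w)).measurableEmbedding
    have h2 := hmp.setIntegral_preimage_emb hemb (fun z => F z * G (act (E (-w)) z)) (orb A.V 1)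
    have h3 : act (E w) ⁻¹' (orb A.V 1) = orb A.V 1 := by
      ext z; exact orb_iff hN hV hw z
    rw [h3, h1] at h2
    rw [← h2]
    refine integral_congr_ae (ae_of_all _ fun z => ?_)
    show F (act (E w) z) * G z = F (act (E w) z) * G (act (E (-w)) (act (E w) z))
    rw [E_neg (hV.su w hw), act_inv_act]
  · refine hG.comp (OrbM.continuous_act _).continuousOn fun z hz => ?_
    exact (orb_iff hN hV hnw z).2 hz
  · intro v hv z hz
    show G (act (E (-w)) (act (E v) z)) = G (act (E (-w)) z)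
    obtain ⟨v', hv', e⟩ := AvgM.conj_mem hN hV (lcs_idl hR A k) hnw hv
    rw [← act_mul, e, act_mul]
    exact hGi v' hv' _ ((orb_iff hN hV hnw z).2 hz)

end NT2M

open H18 NT2M

theorem specNT2 (hN : SpecNilExp) (hRN : SpecRatNil) (hHaar : SpecHaar) (hH : SpecHaarS)
    (hO : SpecOrthS) (hRes : SpecRes) (hQ : SpecPolQ) (h0 : SpecNT0) : SpecNT2 := by
  intro m S ν hν l hl p hp hpp F hF j horth
  obtain ⟨ν0, hν0, -⟩ := hHaar Unit m S.X.A 1
  have hprob := hν.prob
  have hprob0 := hν0.prob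
  have hV : IsNil S.A.V := (hRN Unit m S.A).1
  have hηsu : SU S.η := hV.su _ S.hη
  have hη0 : IsSU (S.η ()) := hηsu ()
  set g : UT m := expU (S.η ()) with hg
  -- a common bound
  choose Cf hCf using fun i => (hF i).2
  obtain ⟨C, hC0, hC⟩ : ∃ C : ℝ, 0 ≤ C ∧ ∀ i z, ‖F i z‖ ≤ C :=
    ⟨∑ i, |Cf i|, Finset.sum_nonneg fun _ _ => abs_nonneg _, fun i z =>
      ((hCf i z).trans (le_abs_self _)).trans
        (Finset.single_le_sum (fun i _ => abs_nonneg (Cf i)) (Finset.mem_univ i))⟩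
  have hCp : ∀ (w : Fin l → (Unit → NM m)), ‖∏ i, F i (w i)‖ ≤ C ^ l := by
    intro w
    rw [norm_prod]
    refine (Finset.prod_le_prod (fun _ _ => norm_nonneg _) (fun i _ => hC i _)).trans_eq ?_
    rw [Finset.prod_const, Finset.card_univ, Fintype.card_fin]
  have hmact : ∀ h : UT m, Measurable fun z : Unit → NM m => (fun _ : Unit => h • z ()) :=
    fun h => measurable_act (fun _ : Unit => h)
  refine hRes (Unit → NM m) ν hprob
    (fun n z => ∏ i : Fin l, F i (fun _ => (g ^ ((p i).eval (n : ℤ))) • z ())) (C ^ l)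
    (fun n => Finset.measurable_prod _ fun i _ => (hF i).1.comp (hmact _))
    (fun n z => hCp _) S.q S.hq ?_
  intro ρ hρ
  obtain ⟨Q, hQ1, hQ2, hQ3⟩ := hQ l p hp hpp S.q ρ S.hq
  -- the averages
  set Φ : ℕ → (Unit → NM m) → ℝ := fun M z => ‖((M : ℂ))⁻¹ * ∑ n ∈ Finset.range M,
    ∏ i : Fin l, F i (fun _ => (g ^ ((p i).eval ((S.q * n + ρ : ℕ) : ℤ))) • z ())‖ ^ 2 with hΦ
  have hΦm : ∀ M, Measurable (Φ M) := by
    intro M
    refine (Measurable.norm ?_).pow_const 2
    exact measurable_const.mul (Finset.measurable_sum _ fun n _ =>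
      Finset.measurable_prod _ fun i _ => (hF i).1.comp (hmact _))
  have hΦb : ∀ M z, ‖Φ M z‖ ≤ (C ^ l) ^ 2 := by
    intro M z
    rw [hΦ, norm_pow, norm_norm]
    refine pow_le_pow_left₀ (norm_nonneg _) ?_ 2
    rw [norm_mul, norm_inv, Complex.norm_natCast]
    rcases Nat.eq_zero_or_pos M with hM | hM
    · subst hM; simp; positivity
    · have h1 : ‖∑ n ∈ Finset.range M, ∏ i : Fin l,
          F i (fun _ => (g ^ ((p i).eval ((S.q * n + ρ : ℕ) : ℤ))) • z ())‖ ≤ M * C ^ l := by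
        refine (norm_sum_le_of_le _ (fun n _ => hCp _)).trans_eq ?_
        rw [Finset.sum_const, Finset.card_range, nsmul_eq_mul]
      have hMp : (0 : ℝ) < M := by exact_mod_cast hM
      calc (M : ℝ)⁻¹ * _ ≤ (M : ℝ)⁻¹ * (M * C ^ l) :=
            mul_le_mul_of_nonneg_left h1 (by positivity)
        _ = C ^ l := by field_simp
  -- the slices
  set c : ENNReal := ENNReal.ofReal ((S.r : ℝ) / S.q) with hc
  set lam : Measure ℝ := c • (volume.restrict (Set.Ico (0 : ℝ) ((S.q : ℝ) / S.r))) with hlam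
  have hlamfin : IsFiniteMeasure lam := by
    rw [hlam]
    have : IsFiniteMeasure (volume.restrict (Set.Ico (0 : ℝ) ((S.q : ℝ) / S.r))) :=
      ⟨by rw [Measure.restrict_apply_univ, Real.volume_Ico]; exact ENNReal.ofReal_lt_top⟩
    exact MeasureTheory.Measure.smul_finite _ ENNReal.ofReal_ne_top
  have hflow : Measurable fun x : ℝ × (Unit → NM m) => act (E (x.1 • S.η)) x.2 :=
    (AvgM.continuous_flow hηsu).measurable
  have hint : ∀ M, ∫ z, Φ M z ∂ν = ∫ t, ∫ z, Φ M (act (E (t • S.η)) z) ∂ν0 ∂lam := by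
    intro M
    conv_lhs => rw [hH m S ν ν0 hν hν0]
    rw [integral_map hflow.aemeasurable (hΦm M).aestronglyMeasurable]
    rw [integral_prod]
    refine Integrable.of_bound ((hΦm M).comp hflow).aestronglyMeasurable ((C ^ l) ^ 2)
      (ae_of_all _ fun x => hΦb M _)
  -- pointwise convergence
  have hτ : S.X.τ = g ^ (S.q : ℤ) := by
    have h1 := congrFun S.qη ()
    show expU (castM S.X.δ () + S.X.e ()) = _
    have h2 : castM S.X.δ () + S.X.e () = (((S.q : ℤ) : ℝ)) • S.η () := by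
      rw [Int.cast_natCast]; exact h1
    rw [h2, expU_zsmul hη0]
  have hcomm : ∀ (a : ℤ) (t : ℝ), g ^ a * expU (t • S.η ()) = expU (t • S.η ()) * g ^ a := by
    intro a t
    rw [hg, ← expU_zsmul hη0, ← expU_add (hη0.smul _) (hη0.smul _), add_comm, expU_add (hη0.smul _) (hη0.smul _)]
    · exact ((Commute.refl (S.η ())).smul_left _).smul_right _
    · exact ((Commute.refl (S.η ())).smul_left _).smul_right _
  have hslice : ∀ (M : ℕ) (t : ℝ) (z : Unit → NM m), Φ M (act (E (t • S.η)) z) =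
      ‖((M : ℂ))⁻¹ * ∑ n ∈ Finset.range M, ∏ i : Fin l,
        F i (act (E ((((p i).eval (ρ : ℤ) : ℤ) : ℝ) • S.η)) (act (E (t • S.η))
          (fun _ => (S.X.τ ^ ((Q i).eval (n : ℤ))) • z ())))‖ ^ 2 := by
    intro M t z
    rw [hΦ]
    refine congrArg (fun x : ℂ => ‖((M : ℂ))⁻¹ * x‖ ^ 2) ?_
    refine Finset.sum_congr rfl fun n _ => Finset.prod_congr rfl fun i _ => ?_
    congr 1
    funext u
    show (g ^ ((p i).eval ((S.q * n + ρ : ℕ) : ℤ))) • (expU (t • S.η ()) • z ()) =
      expU ((((p i).eval (ρ : ℤ) : ℤ) : ℝ) • S.η ()) • (expU (t • S.η ()) •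
        ((S.X.τ ^ ((Q i).eval (n : ℤ))) • z ()))
    rw [← mul_smul, ← mul_smul, ← mul_smul]
    congr 1
    have h1 : (p i).eval ((S.q * n + ρ : ℕ) : ℤ) = (p i).eval (ρ : ℤ) + S.q * (Q i).eval (n : ℤ) := by
      rw [← hQ3 i n]; push_cast; rfl
    rw [h1, zpow_add, zpow_mul, ← hτ, expU_zsmul hη0, ← hg]
    rw [mul_assoc, mul_assoc]
    congr 1
    have h2 : S.X.τ ^ ((Q i).eval (n : ℤ)) = g ^ ((S.q : ℤ) * (Q i).eval (n : ℤ)) := by
      rw [hτ, zpow_mul]
    rw [h2, hcomm]
  have hηm : ∀ a : ℝ, a • S.η ∈ S.A.V := fun a => S.A.V.smul_mem _ S.hη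
  have horth' := orth_comp hN hRN S.A (l - 1) hν horth (hηm (((p j).eval (ρ : ℤ) : ℤ) : ℝ))
  have hFj' : HK.Bdd (fun z => F j (act (E ((((p j).eval (ρ : ℤ) : ℤ) : ℝ) • S.η)) z)) :=
    ⟨(hF j).1.comp (measurable_act _), C, fun z => hC j _⟩
  have hae := hO m S ν ν0 hν hν0 (l - 1) (by omega) _ hFj' horth'
  have hae' : ∀ᵐ t ∂lam, Tendsto (fun M : ℕ => ∫ z, Φ M (act (E (t • S.η)) z) ∂ν0) atTop (𝓝 0) := by
    rw [hlam]
    refine Measure.ae_smul_measure ?_ _
    filter_upwards [hae] with t ht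
    have h1 := h0 m S.X ν0 hν0 l Q hQ1 hQ2
      (fun i z => F i (act (E ((((p i).eval (ρ : ℤ) : ℤ) : ℝ) • S.η)) (act (E (t • S.η)) z)))
      (fun i => ⟨(hF i).1.comp ((measurable_act _).comp (measurable_act _)), C, fun z => hC i _⟩)
      j ht
    simp only [hslice]
    exact h1
  have hlim : Tendsto (fun M : ℕ => ∫ t, ∫ z, Φ M (act (E (t • S.η)) z) ∂ν0 ∂lam) atTop
      (𝓝 (∫ _t, (0 : ℝ) ∂lam)) := by
    refine tendsto_integral_of_dominated_convergence (fun _ => (C ^ l) ^ 2) ?_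
      (integrable_const _) ?_ hae'
    · intro M
      have : StronglyMeasurable fun x : ℝ × (Unit → NM m) => Φ M (act (E (x.1 • S.η)) x.2) :=
        ((hΦm M).comp hflow).stronglyMeasurable
      exact this.integral_prod_right.aestronglyMeasurable
    · intro M
      refine ae_of_all _ fun t => ?_
      refine (norm_integral_le_of_norm_le_const (ae_of_all _ fun z => hΦb M _)).trans_eq ?_
      simp
  rw [integral_zero] at hlim
  refine hlim.congr fun M => ?_
  rw [← hint M]

end MPd26.Nil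
end

section
/-!
# MP_d26cd8_an, Nil, module NT: ORTHS (helper96)
-/
set_option autoImplicit false

open MeasureTheory Filter Topology

namespace MPd26.Nil

namespace OrthSM

open H18

variable {m : ℕ}

lemma meas_ind {K : Set (Unit → NM m)} (hK : MeasurableSet K) {G : (Unit → NM m) → ℂ}
    (hG : ContinuousOn G K) : Measurable (K.indicator G) := by
  classical
  rw [← Set.piecewise_eq_indicator]
  exact hG.measurable_piecewise continuousOn_const hK

lemma ind_bound {K : Set (Unit → NM m)} (hK : IsCompact K) {G : (Unit → NM m) → ℂ}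
    (hG : ContinuousOn G K) : ∃ B : ℝ, 0 ≤ B ∧ ∀ z, ‖K.indicator G z‖ ≤ B := by
  obtain ⟨B, hB⟩ := hK.exists_bound_of_continuousOn hG
  refine ⟨|B|, abs_nonneg _, fun z => ?_⟩
  by_cases hz : z ∈ K
  · rw [Set.indicator_of_mem hz]; exact (hB z hz).trans (le_abs_self _)
  · rw [Set.indicator_of_notMem hz, norm_zero]; exact abs_nonneg _

lemma int_ind {K : Set (Unit → NM m)} (hK : MeasurableSet K) (μ : Measure (Unit → NM m))
    (F G : (Unit → NM m) → ℂ) :
    ∫ z in K, F z * G z ∂μ = ∫ z, F z * K.indicator G z ∂μ := by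
  rw [← integral_indicator hK]
  refine integral_congr_ae (ae_of_all _ fun z => ?_)
  by_cases hz : z ∈ K
  · simp only [Set.indicator_of_mem hz]
  · simp only [Set.indicator_of_notMem hz, mul_zero]

/-- the slices for one function -/
lemma slice_zero (hN : SpecNilExp) (hR : SpecRatNil) (hC : SpecCpt) (hG : SpecOrthG)
    (hH : SpecHaarS) (S : Split m) {ν ν0 : Measure (Unit → NM m)} (hν : IsHaar S.A.V 1 ν)
    (hν0 : IsHaar S.X.A.V 1 ν0) {k : ℕ} (hk : 1 ≤ k) {F : (Unit → NM m) → ℂ} (hF : HK.Bdd F)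
    (horth : Orth S.A.V (lcs S.A.Q k) ν F) {G0 : (Unit → NM m) → ℂ}
    (hG0 : ContinuousOn G0 (orb S.X.A.V 1))
    (hinv : ∀ v ∈ rs (dlcs S.X.A.Q S.X.δ k), ∀ z ∈ orb S.X.A.V 1, G0 (act (E v) z) = G0 z) :
    ∀ᵐ t ∂(volume.restrict (Set.Ico (0 : ℝ) ((S.q : ℝ) / S.r))),
      ∫ z in orb S.X.A.V 1, F (act (E (t • S.η)) z) * G0 z ∂ν0 = 0 := by
  have hprob := hν.prob
  have hprob0 := hν0.prob
  have hV : IsNil S.A.V := (hR Unit m S.A).1
  have hηsu : SU S.η := hV.su _ S.hη
  obtain ⟨hFm, C, hCF⟩ := hF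
  have hC0 : 0 ≤ C := (norm_nonneg _).trans (hCF (mkp 1))
  set K : Set (Unit → NM m) := orb S.X.A.V 1 with hKdef
  set N : Set (Unit → NM m) := orb S.A.V 1 with hNdef
  have hKc : IsCompact K := hC.2 Unit m S.X.A 1
  have hNc : IsCompact N := hC.2 Unit m S.A 1
  have hKm : MeasurableSet K := hKc.isClosed.measurableSet
  have hNm : MeasurableSet N := hNc.isClosed.measurableSet
  set T : ℝ := (S.q : ℝ) / S.r with hT
  have hTpos : 0 < T := div_pos (Nat.cast_pos.2 S.hq) (Nat.cast_pos.2 S.hr)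
  obtain ⟨B, hB0, hB⟩ := ind_bound hKc hG0
  have hI0m := meas_ind hKm hG0
  have hflow : Measurable fun x : ℝ × (Unit → NM m) => act (E (x.1 • S.η)) x.2 :=
    (AvgM.continuous_flow hηsu).measurable
  -- the slice integrals
  set φ : ℝ → ℂ := fun t => ∫ z in K, F (act (E (t • S.η)) z) * G0 z ∂ν0 with hφ
  have hφ' : ∀ t, φ t = ∫ z, F (act (E (t • S.η)) z) * K.indicator G0 z ∂ν0 := fun t =>
    int_ind hKm ν0 (fun z => F (act (E (t • S.η)) z)) G0
  have hφm : StronglyMeasurable φ := by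
    have h1 : StronglyMeasurable fun x : ℝ × (Unit → NM m) =>
        F (act (E (x.1 • S.η)) x.2) * K.indicator G0 x.2 :=
      ((hFm.comp hflow).mul (hI0m.comp measurable_snd)).stronglyMeasurable
    have h2 := h1.integral_prod_right' (ν := ν0)
    have e : φ = fun t => ∫ z, F (act (E (t • S.η)) z) * K.indicator G0 z ∂ν0 := funext hφ'
    rw [e]; exact h2
  have hφb : ∀ t, ‖φ t‖ ≤ C * B := by
    intro t
    rw [hφ']
    refine (norm_integral_le_of_norm_le_const (C := C * B) (ae_of_all _ fun z => ?_)).trans_eq ?_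
    · rw [norm_mul]
      exact mul_le_mul (hCF _) (hB _) (norm_nonneg _) hC0
    · simp
  have hloc : LocallyIntegrableOn φ (Set.Ioo 0 T) volume := by
    have : IsFiniteMeasure (volume.restrict (Set.Ioo (0 : ℝ) T)) :=
      ⟨by rw [Measure.restrict_apply_univ, Real.volume_Ioo]; exact ENNReal.ofReal_lt_top⟩
    refine IntegrableOn.locallyIntegrableOn ?_
    exact Integrable.of_bound hφm.aestronglyMeasurable (C * B) (ae_of_all _ hφb)
  have hmain := isOpen_Ioo.ae_eq_zero_of_integral_contDiff_smul_eq_zero (μ := volume) hloc ?_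
  · rw [ae_restrict_iff' measurableSet_Ico]
    have h0 : ∀ᵐ t : ℝ ∂volume, t ≠ 0 := by
      rw [ae_iff]
      simp
    filter_upwards [hmain, h0] with t ht ht0 htI
    exact ht ⟨lt_of_le_of_ne htI.1 (Ne.symm ht0), htI.2⟩
  intro χ hχ hχc hχs
  -- the support
  obtain ⟨a, b, ha, hb, hab⟩ : ∃ a b : ℝ, 0 < a ∧ b < T ∧ ∀ t, t ∉ Set.Icc a b → χ t = 0 := by
    rcases (tsupport χ).eq_empty_or_nonempty with he | hne
    · refine ⟨T / 2, T / 2, by linarith, by linarith, fun t _ => ?_⟩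
      have : t ∉ tsupport χ := by rw [he]; exact Set.notMem_empty t
      exact image_eq_zero_of_notMem_tsupport this
    · have hcs : IsCompact (tsupport χ) := hχc
      refine ⟨sInf (tsupport χ), sSup (tsupport χ), (hχs (hcs.sInf_mem hne)).1,
        (hχs (hcs.sSup_mem hne)).2, fun t ht => ?_⟩
      by_contra h
      have h1 : t ∈ tsupport χ := by
        by_contra h2
        exact h (image_eq_zero_of_notMem_tsupport h2)
      exact ht ⟨csInf_le hcs.bddBelow h1, le_csSup hcs.bddAbove h1⟩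
  obtain ⟨G, hGc, hGi, hGe⟩ := hG m S k hk (fun t => (χ t : ℂ))
    (Complex.continuous_ofReal.comp hχ.continuous) ⟨a, b, ha, hb, fun t ht => by
      show ((χ t : ℝ) : ℂ) = 0
      rw [hab t ht, Complex.ofReal_zero]⟩ G0 hG0 hinv
  have h3 := horth G hGc hGi
  rw [← hNdef, int_ind hNm] at h3
  obtain ⟨B', hB0', hB'⟩ := ind_bound hNc hGc
  have hI1m := meas_ind hNm hGc
  set c : ENNReal := ENNReal.ofReal ((S.r : ℝ) / S.q) with hc
  have hcpos : 0 < (S.r : ℝ) / S.q := div_pos (Nat.cast_pos.2 S.hr) (Nat.cast_pos.2 S.hq)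
  set lam : Measure ℝ := c • (volume.restrict (Set.Ico (0 : ℝ) T)) with hlam
  have hfin0 : IsFiniteMeasure (volume.restrict (Set.Ico (0 : ℝ) T)) :=
    ⟨by rw [Measure.restrict_apply_univ, Real.volume_Ico]; exact ENNReal.ofReal_lt_top⟩
  have hlamfin : IsFiniteMeasure lam := by
    rw [hlam]
    exact MeasureTheory.Measure.smul_finite _ ENNReal.ofReal_ne_top
  have h4 : ∫ z, F z * N.indicator G z ∂ν =
      ∫ t, ∫ z, F (act (E (t • S.η)) z) * N.indicator G (act (E (t • S.η)) z) ∂ν0 ∂lam := by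
    conv_lhs => rw [hH m S ν ν0 hν hν0]
    have hm : Measurable fun z => F z * N.indicator G z := hFm.mul hI1m
    rw [integral_map hflow.aemeasurable hm.aestronglyMeasurable]
    rw [integral_prod]
    refine Integrable.of_bound (hm.comp hflow).aestronglyMeasurable (C * B')
      (ae_of_all _ fun x => ?_)
    rw [norm_mul]
    exact mul_le_mul (hCF _) (hB' _) (norm_nonneg _) hC0
  rw [h4] at h3
  have h5 : ∫ t, ∫ z, F (act (E (t • S.η)) z) * N.indicator G (act (E (t • S.η)) z) ∂ν0 ∂lam =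
      ∫ t, (χ t : ℂ) * φ t ∂lam := by
    refine integral_congr_ae ?_
    rw [hlam]
    refine Measure.ae_smul_measure ?_ _
    refine (ae_restrict_iff' measurableSet_Ico).2 (ae_of_all _ fun t ht => ?_)
    show ∫ z, F (act (E (t • S.η)) z) * N.indicator G (act (E (t • S.η)) z) ∂ν0 =
      (χ t : ℂ) * φ t
    rw [hφ', ← integral_const_mul]
    refine integral_congr_ae ?_
    filter_upwards [haar_ae_orb hν0 hKm] with z hz
    have hzN : act (E (t • S.η)) z ∈ N := by
      refine AvgM.orb_act hN hV (S.A.V.smul_mem _ S.hη) ?_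
      obtain ⟨v, hv, rfl⟩ := hz
      exact ⟨v, ((S.ker v).1 hv).1, rfl⟩
    rw [Set.indicator_of_mem hzN, Set.indicator_of_mem hz, hGe t ht z hz]
    ring
  rw [h5, hlam, integral_smul_measure, smul_eq_zero] at h3
  have h6 : ∫ t in Set.Ico (0 : ℝ) T, (χ t : ℂ) * φ t = 0 := by
    rcases h3 with h | h
    · exfalso
      rw [hc, ENNReal.toReal_ofReal hcpos.le] at h
      exact hcpos.ne' h
    · exact h
  rw [← h6]
  rw [setIntegral_eq_integral_of_forall_compl_eq_zero]
  · rfl
  · intro t ht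
    have : χ t = 0 := by
      apply hab
      intro h
      exact ht ⟨by linarith [h.1], by linarith [h.2]⟩
    show (χ t : ℂ) * φ t = 0
    rw [this, Complex.ofReal_zero, zero_mul]

end OrthSM

open H18 OrthSM

theorem specOrthS (hN : SpecNilExp) (hR : SpecRatNil) (hC : SpecCpt) (hG : SpecOrthG)
    (hH : SpecHaarS) : SpecOrthS := by
  classical
  intro m S ν ν0 hν hν0 k hk F hF horth
  have hprob := hν.prob
  have hprob0 := hν0.prob
  obtain ⟨hFm, C, hCF⟩ := hF
  have hC0 : 0 ≤ C := (norm_nonneg _).trans (hCF (mkp 1))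
  have hKc : IsCompact (orb S.X.A.V (1 : Unit → UT m)) := hC.2 Unit m S.X.A 1
  have hKm : MeasurableSet (orb S.X.A.V (1 : Unit → UT m)) := hKc.isClosed.measurableSet
  have hcs : CompactSpace (orb S.X.A.V (1 : Unit → UT m)) := isCompact_iff_compactSpace.1 hKc
  -- invariant continuous functions
  let D : Set C((orb S.X.A.V (1 : Unit → UT m)), ℂ) := {g | ∀ v ∈ rs (dlcs S.X.A.Q S.X.δ k),
    ∀ z z' : orb S.X.A.V (1 : Unit → UT m), z'.1 = act (E v) z.1 → g z' = g z}
  obtain ⟨u, hu, hud⟩ := TopologicalSpace.exists_countable_dense D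
  let ext : C((orb S.X.A.V (1 : Unit → UT m)), ℂ) → (Unit → NM m) → ℂ := fun g z =>
    if h : z ∈ orb S.X.A.V (1 : Unit → UT m) then g ⟨z, h⟩ else 0
  have hext : ∀ g z (hz : z ∈ orb S.X.A.V (1 : Unit → UT m)), ext g z = g ⟨z, hz⟩ := by
    intro g z hz
    exact dif_pos hz
  have hextc : ∀ g, ContinuousOn (ext g) (orb S.X.A.V (1 : Unit → UT m)) := by
    intro g
    rw [continuousOn_iff_continuous_domRestrict]
    have e : (orb S.X.A.V (1 : Unit → UT m)).domRestrict (ext g) = g := by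
      funext z
      exact hext g z.1 z.2
    rw [e]
    exact g.continuous
  have hVX : IsNil S.X.A.V := (hR Unit m S.X.A).1
  have hmemK : ∀ v ∈ rs (dlcs S.X.A.Q S.X.δ k), ∀ z ∈ orb S.X.A.V (1 : Unit → UT m),
      act (E v) z ∈ orb S.X.A.V (1 : Unit → UT m) := by
    intro v hv z hz
    refine AvgM.orb_act hN hVX ?_ hz
    have hle : dlcs S.X.A.Q S.X.δ k ≤ S.X.A.Q := by
      clear hv hk horth D u hu hud
      induction k with
      | zero => exact le_rfl
      | succ k ih =>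
        rw [dlcs]
        refine Submodule.span_le.2 ?_
        rintro x (⟨q, hq, r, hr, rfl⟩ | ⟨r, hr, rfl⟩)
        · exact S.X.A.lie q hq r (ih hr)
        · exact S.X.der r (ih hr)
    exact Submodule.span_mono (Set.image_mono hle) hv
  have hae : ∀ᵐ t ∂(volume.restrict (Set.Ico (0 : ℝ) ((S.q : ℝ) / S.r))), ∀ g ∈ u,
      ∫ z in orb S.X.A.V 1, F (act (E (t • S.η)) z) * ext g.1 z ∂ν0 = 0 := by
    rw [ae_ball_iff hu]
    intro g _
    refine slice_zero hN hR hC hG hH S hν hν0 hk ⟨hFm, C, hCF⟩ horth (hextc g.1) ?_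
    intro v hv z hz
    have hz' := hmemK v hv z hz
    rw [hext _ _ hz, hext _ _ hz']
    exact g.2 v hv ⟨z, hz⟩ ⟨_, hz'⟩ rfl
  filter_upwards [hae] with t ht
  intro G1 hG1 hG1i
  show ∫ z in orb S.X.A.V 1, F (act (E (t • S.η)) z) * G1 z ∂ν0 = 0
  let g1 : C((orb S.X.A.V (1 : Unit → UT m)), ℂ) :=
    ⟨(orb S.X.A.V (1 : Unit → UT m)).domRestrict G1, continuousOn_iff_continuous_domRestrict.1 hG1⟩
  have hg1 : g1 ∈ D := by
    intro v hv z z' e
    show G1 z'.1 = G1 z.1
    rw [e]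
    exact hG1i v hv z.1 z.2
  have hintg : ∀ G : (Unit → NM m) → ℂ, ContinuousOn G (orb S.X.A.V (1 : Unit → UT m)) →
      IntegrableOn (fun z => F (act (E (t • S.η)) z) * G z) (orb S.X.A.V 1) ν0 := by
    intro G hGc
    obtain ⟨B, hB⟩ := hKc.exists_bound_of_continuousOn hGc
    refine Integrable.of_bound ?_ (C * |B|) ?_
    · exact ((hFm.comp (measurable_act _)).aestronglyMeasurable).mul
        (hGc.aestronglyMeasurable hKm)
    · rw [ae_restrict_iff' hKm]
      refine ae_of_all _ fun z hz => ?_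
      rw [norm_mul]
      exact mul_le_mul (hCF _) ((hB z hz).trans (le_abs_self _)) (norm_nonneg _) hC0
  refine norm_le_zero_iff.1 (le_of_forall_pos_le_add fun ε hε => ?_)
  obtain ⟨g, hgu, hgd⟩ := hud.exists_dist_lt ⟨g1, hg1⟩ (ε := ε / (C + 1)) (by positivity)
  have h1 := ht g hgu
  have h2 : ∫ z in orb S.X.A.V 1, F (act (E (t • S.η)) z) * G1 z ∂ν0 =
      ∫ z in orb S.X.A.V 1, F (act (E (t • S.η)) z) * (G1 z - ext g.1 z) ∂ν0 := by
    have h3 : ∫ z in orb S.X.A.V 1, F (act (E (t • S.η)) z) * (G1 z - ext g.1 z) ∂ν0 =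
        ∫ z in orb S.X.A.V 1, F (act (E (t • S.η)) z) * G1 z ∂ν0 -
        ∫ z in orb S.X.A.V 1, F (act (E (t • S.η)) z) * ext g.1 z ∂ν0 := by
      rw [← integral_sub (hintg G1 hG1) (hintg _ (hextc g.1))]
      refine integral_congr_ae (ae_of_all _ fun z => ?_)
      show _ * (_ - _) = _ * _ - _ * _
      ring
    rw [h3, h1, sub_zero]
  rw [h2, zero_add]
  have h4 : ‖∫ z in orb S.X.A.V 1, F (act (E (t • S.η)) z) * (G1 z - ext g.1 z) ∂ν0‖ ≤
      (C * (ε / (C + 1))) * ν0.real (orb S.X.A.V 1) := by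
    refine norm_setIntegral_le_of_norm_le_const (measure_lt_top _ _) fun z hz => ?_
    rw [norm_mul]
    refine mul_le_mul (hCF _) ?_ (norm_nonneg _) hC0
    rw [hext _ _ hz]
    have h5 : dist (g1 ⟨z, hz⟩) (g.1 ⟨z, hz⟩) ≤ dist g1 g.1 := ContinuousMap.dist_apply_le_dist _
    have h6 : dist g1 g.1 < ε / (C + 1) := hgd
    rw [dist_eq_norm] at h5
    exact h5.trans h6.le
  refine h4.trans ?_
  have h7 : ν0.real (orb S.X.A.V 1) ≤ 1 := measureReal_le_one
  have h8 : C * (ε / (C + 1)) ≤ ε := by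
    rw [mul_div_assoc', div_le_iff₀ (by positivity)]
    nlinarith
  calc C * (ε / (C + 1)) * ν0.real (orb S.X.A.V 1) ≤ C * (ε / (C + 1)) * 1 :=
        mul_le_mul_of_nonneg_left h7 (by positivity)
    _ ≤ ε := by rw [mul_one]; exact h8

end MPd26.Nil
end
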