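import Pool.Agent.Lib.MP_d26cd8_an.Nil.H18Base
import Pool.Agent.Lib.MP_d26cd8_an.Nil.NT_OrthS

section
/-!
# Cube groups of a filtration of a rational nilpotent Lie algebra (for module E)
-/
set_option autoImplicit false

open MeasureTheory Filter Topology

namespace MPd26.Nil

namespace ECube

open PathM

variable {m : ℕ}

/-! ### rational spans -/

lemma castM_mul {ι : Type} (q r : ι → MatQ m) : castM (q * r) = castM q * castM r := by
  funext i
  ext a b
  simp [castM, Matrix.mul_apply]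

lemma castM_sub {ι : Type} (q r : ι → MatQ m) : castM (q - r) = castM q - castM r := by
  funext i
  ext a b
  simp [castM]

lemma castM_add {ι : Type} (q r : ι → MatQ m) : castM (q + r) = castM q + castM r := by
  funext i
  ext a b
  simp [castM]

lemma castM_zero {ι : Type} : castM (0 : ι → MatQ m) = 0 := by
  funext i
  ext a b
  simp [castM]

lemma castM_smul {ι : Type} (c : ℚ) (q : ι → MatQ m) : castM (c • q) = (c : ℝ) • castM q := by
  funext i
  ext a b
  simp [castM]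

lemma mem_rs {ι : Type} {S : Submodule ℚ (ι → MatQ m)} {q : ι → MatQ m} (hq : q ∈ S) :
    castM q ∈ rs S := Submodule.subset_span ⟨q, hq, rfl⟩

lemma rs_map {ι ι' : Type} {S : Submodule ℚ (ι → MatQ m)} {S' : Submodule ℚ (ι' → MatQ m)}
    (T : (ι → Mat m) →ₗ[ℝ] (ι' → Mat m)) (h : ∀ q ∈ S, ∃ q' ∈ S', T (castM q) = castM q') :
    ∀ v ∈ rs S, T v ∈ rs S' := by
  intro v hv
  have : rs S ≤ (rs S').comap T := by
    refine Submodule.span_le.2 ?_
    rintro x ⟨q, hq, rfl⟩
    obtain ⟨q', hq', e⟩ := h q hq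
    show T (castM q) ∈ rs S'
    rw [e]
    exact mem_rs hq'
  exact this hv

lemma rs_mono {ι : Type} {S S' : Submodule ℚ (ι → MatQ m)} (h : S ≤ S') : rs S ≤ rs S' :=
  Submodule.span_mono (Set.image_mono h)

/-- common denominators -/
lemma exists_denom {ι : Type} [Finite ι] (q : ι → MatQ m) : ∃ N : ℕ, 0 < N ∧ IntV ((N : ℚ) • q) := by
  classical
  have := Fintype.ofFinite ι
  refine ⟨∏ a : ι × Fin m × Fin m, (q a.1 a.2.1 a.2.2).den,
    Finset.prod_pos fun a _ => (q a.1 a.2.1 a.2.2).den_pos, ?_⟩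
  intro i j k
  obtain ⟨c, hc⟩ : (q i j k).den ∣ ∏ a : ι × Fin m × Fin m, (q a.1 a.2.1 a.2.2).den :=
    Finset.dvd_prod_of_mem (fun a : ι × Fin m × Fin m => (q a.1 a.2.1 a.2.2).den)
      (Finset.mem_univ (i, j, k))
  refine ⟨c * (q i j k).num, ?_⟩
  show ((∏ a : ι × Fin m × Fin m, (q a.1 a.2.1 a.2.2).den : ℕ) : ℚ) * q i j k = _
  rw [hc]
  push_cast
  have h := Rat.den_mul_eq_num (q i j k)
  rw [mul_comm ((q i j k).den : ℚ) (c : ℚ), mul_assoc, h]

/-! ### filtrations -/

/-- filtrations by rational Lie algebras -/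
structure Filt (R : ℕ → Submodule ℚ (Unit → MatQ m)) : Prop where
  su : ∀ q ∈ R 0, SU (castM q)
  anti : ∀ k, R (k + 1) ≤ R k
  lie : ∀ i j, ∀ q ∈ R i, ∀ r ∈ R j, q * r - r * q ∈ R (i + j)

namespace Filt
variable {R : ℕ → Submodule ℚ (Unit → MatQ m)} (hR : Filt R)
include hR

lemma mono {i j : ℕ} (h : i ≤ j) : R j ≤ R i := antitone_nat_of_succ_le hR.anti h

end Filt

/-- the face map -/
def face (𝕜 X : Type) [Semiring 𝕜] [AddCommMonoid X] [Module 𝕜 X] (n : ℕ) (b : Bool) :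
    (HK.Vx (n + 1) → X) →ₗ[𝕜] (HK.Vx n → X) :=
  LinearMap.funLeft 𝕜 X (fun ε : HK.Vx n => (Fin.cons b ε : HK.Vx (n + 1)))

lemma face_apply (𝕜 X : Type) [Semiring 𝕜] [AddCommMonoid X] [Module 𝕜 X] (n : ℕ) (b : Bool)
    (q : HK.Vx (n + 1) → X) (ε : HK.Vx n) : face 𝕜 X n b q ε = q (Fin.cons b ε) := rfl

/-- evaluation at a vertex -/
def evv (𝕜 X : Type) [Semiring 𝕜] [AddCommMonoid X] [Module 𝕜 X] (n : ℕ) (ε : HK.Vx n) :
    (HK.Vx n → X) →ₗ[𝕜] (Unit → X) :=
  LinearMap.funLeft 𝕜 X (fun _ : Unit => ε)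

lemma evv_apply (𝕜 X : Type) [Semiring 𝕜] [AddCommMonoid X] [Module 𝕜 X] (n : ℕ) (ε : HK.Vx n)
    (q : HK.Vx n → X) : evv 𝕜 X n ε q = fun _ => q ε := rfl

/-- the cube Lie algebras of a filtration -/
def Cu (R : ℕ → Submodule ℚ (Unit → MatQ m)) : (n : ℕ) → ℕ → Submodule ℚ (HK.Vx n → MatQ m)
  | 0, i => (R i).comap (evv ℚ (MatQ m) 0 HK.v0)
  | n + 1, i => (Cu R n i).comap (face ℚ (MatQ m) n true) ⊓
      (Cu R n (i + 1)).comap (face ℚ (MatQ m) n false - face ℚ (MatQ m) n true)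

variable {R : ℕ → Submodule ℚ (Unit → MatQ m)}

lemma mem_Cu_zero {i : ℕ} {q : HK.Vx 0 → MatQ m} :
    q ∈ Cu R 0 i ↔ (fun _ => q HK.v0) ∈ R i := Iff.rfl

lemma mem_Cu_succ {n i : ℕ} {q : HK.Vx (n + 1) → MatQ m} :
    q ∈ Cu R (n + 1) i ↔ (fun ε => q (Fin.cons true ε)) ∈ Cu R n i ∧
      (fun ε => q (Fin.cons false ε) - q (Fin.cons true ε)) ∈ Cu R n (i + 1) := Iff.rfl

lemma Cu_anti (hR : Filt R) (n : ℕ) : ∀ i, Cu R n (i + 1) ≤ Cu R n i := by
  induction n with
  | zero => exact fun i q hq => hR.anti i hq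
  | succ n ih => exact fun i q hq => ⟨ih i hq.1, ih (i + 1) hq.2⟩

lemma Cu_mono (hR : Filt R) (n : ℕ) {i j : ℕ} (h : i ≤ j) : Cu R n j ≤ Cu R n i :=
  antitone_nat_of_succ_le (Cu_anti hR n) h

lemma Cu_lie (hR : Filt R) (n : ℕ) : ∀ i j, ∀ q ∈ Cu R n i, ∀ r ∈ Cu R n j,
    q * r - r * q ∈ Cu R n (i + j) := by
  induction n with
  | zero => exact fun i j q hq r hr => hR.lie i j _ hq _ hr
  | succ n ih =>
    intro i j q hq r hr
    rw [mem_Cu_succ] at hq hr ⊢
    obtain ⟨ha, hd⟩ := hq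
    obtain ⟨ha', hd'⟩ := hr
    refine ⟨ih i j _ ha _ ha', ?_⟩
    have h1 := ih i (j + 1) _ ha _ hd'
    have h2 := ih (i + 1) j _ hd _ ha'
    have h3 := ih (i + 1) (j + 1) _ hd _ hd'
    have h2' := Cu_mono hR n (show i + j + 1 ≤ i + 1 + j by omega) h2
    have h3' := Cu_mono hR n (show i + j + 1 ≤ i + 1 + (j + 1) by omega) h3
    have h4 := (Cu R n (i + j + 1)).add_mem ((Cu R n (i + j + 1)).add_mem h1 h2') h3'
    convert h4 using 1
    funext ε
    simp only [Pi.sub_apply, Pi.mul_apply, Pi.add_apply]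
    noncomm_ring

lemma val_mem (hR : Filt R) (n : ℕ) : ∀ i, ∀ q ∈ Cu R n i, ∀ ε, (fun _ : Unit => q ε) ∈ R i := by
  induction n with
  | zero =>
    intro i q hq ε
    rw [Subsingleton.elim ε HK.v0]
    exact hq
  | succ n ih =>
    intro i q hq ε
    obtain ⟨h1, h2⟩ := mem_Cu_succ.1 hq
    have e : ε = Fin.cons (ε 0) (fun i => ε i.succ) := (Fin.cons_self_tail ε).symm
    rw [e]
    have h3 := ih i _ h1 (fun i => ε i.succ)
    have h4 := hR.anti i (ih (i + 1) _ h2 (fun i => ε i.succ))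
    cases ε 0 with
    | true => exact h3
    | false =>
      have := (R i).add_mem h4 h3
      convert this using 1
      funext _
      simp

lemma diag_mem (n : ℕ) : ∀ i, ∀ q ∈ R i, (fun _ : HK.Vx n => q ()) ∈ Cu R n i := by
  induction n with
  | zero => exact fun i q hq => hq
  | succ n ih =>
    intro i q hq
    refine mem_Cu_succ.2 ⟨ih i q hq, ?_⟩
    simp only [sub_self]
    exact (Cu R n (i + 1)).zero_mem

lemma ind_mem (hR : Filt R) (n : ℕ) : ∀ i, ∀ q ∈ R (i + 1), ∀ j : Fin n,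
    (fun ε : HK.Vx n => if ε j = true then q () else 0) ∈ Cu R n i := by
  induction n with
  | zero => exact fun i q hq j => j.elim0
  | succ n ih =>
    intro i q hq j
    refine mem_Cu_succ.2 ?_
    refine Fin.cases ?_ ?_ j
    · simp only [Fin.cons_zero]
      refine ⟨?_, ?_⟩
      · simpa using diag_mem n i q (hR.anti i hq)
      · have := (Cu R n (i + 1)).neg_mem (diag_mem n (i + 1) q hq)
        convert this using 1
        funext ε
        simp
    · intro j
      simp only [Fin.cons_succ, sub_self]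
      exact ⟨ih i q hq j, (Cu R n (i + 1)).zero_mem⟩

/-- the cube algebra -/
def cAlg (hR : Filt R) (n i : ℕ) : RAlg (HK.Vx n) m where
  Q := Cu R n i
  fin := inferInstance
  su := fun q hq ε => by
    have := hR.su _ (hR.mono (Nat.zero_le i) (val_mem hR n i q hq ε)) ()
    exact this
  lie := fun q hq r hr => Cu_mono hR n (Nat.le_add_right i i) (Cu_lie hR n i i q hq r hr)
  bd := fun q _ => exists_denom q

/-- the algebra over a point -/
def pAlg (hR : Filt R) (i : ℕ) : RAlg Unit m where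
  Q := R i
  fin := inferInstance
  su := fun q hq => hR.su q (hR.mono (Nat.zero_le i) hq)
  lie := fun q hq r hr => hR.mono (Nat.le_add_right i i) (hR.lie i i q hq r hr)
  bd := fun q _ => exists_denom q

lemma nil_Cu (hRN : SpecRatNil) (hR : Filt R) (n i : ℕ) : IsNil (rs (Cu R n i)) :=
  (hRN _ m (cAlg hR n i)).1

lemma idl_Cu (hRN : SpecRatNil) (hR : Filt R) (n : ℕ) {i j : ℕ} (h : i ≤ j) :
    IsIdl (rs (Cu R n i)) (rs (Cu R n j)) := by
  refine (hRN _ m (cAlg hR n i)).2 (Cu R n j) (Cu_mono hR n h) ?_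
  refine Submodule.span_le.2 ?_
  rintro x ⟨q, hq, r, hr, rfl⟩
  exact Cu_mono hR n (Nat.le_add_left j i) (Cu_lie hR n i j q hq r hr)

lemma nil_R (hRN : SpecRatNil) (hR : Filt R) (i : ℕ) : IsNil (rs (R i)) :=
  (hRN _ m (pAlg hR i)).1

lemma idl_R (hRN : SpecRatNil) (hR : Filt R) {i j : ℕ} (h : i ≤ j) :
    IsIdl (rs (R i)) (rs (R j)) := by
  refine (hRN _ m (pAlg hR i)).2 (R j) (hR.mono h) ?_
  refine Submodule.span_le.2 ?_
  rintro x ⟨q, hq, r, hr, rfl⟩
  exact hR.mono (Nat.le_add_left j i) (hR.lie i j q hq r hr)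

/-! ### faces over the reals -/

lemma face_true_mem {n i : ℕ} {v : HK.Vx (n + 1) → Mat m} (hv : v ∈ rs (Cu R (n + 1) i)) :
    (fun ε => v (Fin.cons true ε)) ∈ rs (Cu R n i) := by
  refine rs_map (face ℝ (Mat m) n true) ?_ v hv
  intro q hq
  exact ⟨_, hq.1, rfl⟩

lemma face_sub_mem {n i : ℕ} {v : HK.Vx (n + 1) → Mat m} (hv : v ∈ rs (Cu R (n + 1) i)) :
    (fun ε => v (Fin.cons false ε) - v (Fin.cons true ε)) ∈ rs (Cu R n (i + 1)) := by
  refine rs_map (face ℝ (Mat m) n false - face ℝ (Mat m) n true) ?_ v hv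
  intro q hq
  refine ⟨_, hq.2, ?_⟩
  rw [LinearMap.sub_apply, LinearMap.sub_apply, castM_sub]
  rfl

lemma eval_mem (hR : Filt R) {n i : ℕ} {v : HK.Vx n → Mat m} (hv : v ∈ rs (Cu R n i))
    (ε : HK.Vx n) : (fun _ : Unit => v ε) ∈ rs (R i) := by
  refine rs_map (evv ℝ (Mat m) n ε) ?_ v hv
  intro q hq
  exact ⟨_, val_mem hR n i q hq ε, rfl⟩

lemma rdiag_mem {n i : ℕ} {v : Unit → Mat m} (hv : v ∈ rs (R i)) :
    (fun _ : HK.Vx n => v ()) ∈ rs (Cu R n i) := by
  refine rs_map (LinearMap.funLeft ℝ (Mat m) (fun _ : HK.Vx n => ())) ?_ v hv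
  intro q hq
  exact ⟨_, diag_mem n i q hq, rfl⟩

lemma rind_mem (hR : Filt R) {n i : ℕ} {v : Unit → Mat m} (hv : v ∈ rs (R (i + 1))) (j : Fin n) :
    (fun ε : HK.Vx n => if ε j = true then v () else 0) ∈ rs (Cu R n i) := by
  let T : (Unit → Mat m) →ₗ[ℝ] (HK.Vx n → Mat m) :=
    { toFun := fun v ε => if ε j = true then v () else 0
      map_add' := fun v w => by
        funext ε
        by_cases h : ε j = true <;> simp [h]
      map_smul' := fun c v => by
        funext ε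
        by_cases h : ε j = true <;> simp [h] }
  refine rs_map T ?_ v hv
  intro q hq
  refine ⟨_, ind_mem hR n i q hq j, ?_⟩
  funext ε
  by_cases h : ε j = true
  · simp only [T, LinearMap.coe_mk, AddHom.coe_mk, castM, if_pos h]
  · simp only [T, LinearMap.coe_mk, AddHom.coe_mk, castM, if_neg h]
    ext a b
    simp

/-! ### determination -/

lemma mk_conj (g : UT m) {v : Mat m} (hv : IsSU v) :
    g * expU v = expU (g.mat * v * (g⁻¹).mat) * g := by
  rw [(expU_conj g hv).2]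
  group

/-- conjugation by elements of `exp (R 0)` preserves `rs (R k)` -/
lemma ad_mem (hN : SpecNilExp) (hRN : SpecRatNil) (hR : Filt R) {k : ℕ} {g : UT m}
    (hg : (fun _ : Unit => logU g) ∈ rs (R 0)) {v : Unit → Mat m} (hv : v ∈ rs (R k)) :
    Ad (fun _ => g) v ∈ rs (R k) := by
  obtain ⟨-, -, ⟨κ, hκ, e⟩⟩ := hN Unit m (rs (R 0)) (rs (R k)) (rs (R k)) (nil_R hRN hR 0)
    (idl_R hRN hR (Nat.zero_le k)) (idl_R hRN hR (Nat.zero_le k)) le_rfl
    (fun v hv x hx => (idl_R hRN hR (Nat.zero_le k)).mem v hv x hx) _ hg v hv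
  have e2 : E (fun _ : Unit => logU g) = fun _ => g := by
    funext i
    exact expU_logU g
  rw [e2] at e
  rw [e]
  exact (rs (R k)).add_mem hv hκ

theorem determination (hN : SpecNilExp) (hRN : SpecRatNil) (hR : Filt R) (n : ℕ) :
    ∀ (i : ℕ) (κ : HK.Vx n → UT m), Lg κ ∈ rs (Cu R n i) →
      (∀ ε : HK.Vx n, ε ≠ HK.v0 → κ ε ∈ LT m) →
      ∃ v ∈ rs (R (n + i)), ∃ γ ∈ LT m, κ HK.v0 = expU (v ()) * γ := by
  induction n with
  | zero =>
    intro i κ hκ _
    refine ⟨fun _ => logU (κ HK.v0), ?_, 1, (LT m).one_mem, ?_⟩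
    · rw [Nat.zero_add]
      exact eval_mem hR hκ HK.v0
    · rw [mul_one, expU_logU]
  | succ n ih =>
    intro i κ hκ hint
    have h1 := face_true_mem hκ
    have h2 := face_sub_mem hκ
    set ca : HK.Vx n → UT m := fun ε => κ (Fin.cons true ε) with hca
    set cb : HK.Vx n → UT m := fun ε => κ (Fin.cons false ε) with hcb
    have h1' : Lg ca ∈ rs (Cu R n i) := h1
    have h2' : Lg cb - Lg ca ∈ rs (Cu R n (i + 1)) := h2
    have hidl := idl_Cu hRN hR n (Nat.le_succ i)
    obtain ⟨⟨k, hk, e⟩, -, -⟩ := hN _ m (rs (Cu R n i)) (rs (Cu R n (i + 1)))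
      (rs (Cu R n (i + 1))) (nil_Cu hRN hR n i) hidl hidl le_rfl
      (fun v hv k hk => hidl.mem v hv k hk) (Lg ca) h1' (Lg cb - Lg ca) h2'
    rw [add_sub_cancel, E_Lg, E_Lg] at e
    have hK := nil_Cu hRN hR n (i + 1)
    have h3 : Lg (ca⁻¹ * cb) ∈ rs (Cu R n (i + 1)) := by
      have e3 : ca⁻¹ * cb = E (Lg cb - Lg ca) * E k := by
        rw [inv_mul_eq_iff_eq_mul, ← mul_assoc]
        exact e
      rw [e3]
      refine mul_mem hN hK ?_ ?_
      · rw [Lg_E (hK.su _ h2')]; exact h2'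
      · rw [Lg_E (hK.su _ hk)]; exact hk
    have hcint : ∀ ε, ca ε ∈ LT m := fun ε => hint _ (fun h => by
      have := congrFun h 0
      simp [HK.v0] at this)
    have h4 : ∀ ε : HK.Vx n, ε ≠ HK.v0 → (ca⁻¹ * cb) ε ∈ LT m := by
      intro ε hε
      refine (LT m).mul_mem ((LT m).inv_mem (hcint ε)) (hint _ fun h => hε ?_)
      funext j
      have := congrFun h j.succ
      simpa [HK.v0] using this
    obtain ⟨v, hv, γ, hγ, e4⟩ := ih (i + 1) (ca⁻¹ * cb) h3 h4
    have hidx : n + (i + 1) = n + 1 + i := by omega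
    rw [hidx] at hv
    have hv0 : (HK.v0 : HK.Vx (n + 1)) = Fin.cons false HK.v0 := by
      funext j
      refine Fin.cases ?_ ?_ j
      · rfl
      · intro j; rfl
    have e5 : κ HK.v0 = ca HK.v0 * (expU (v ()) * γ) := by
      rw [← e4, hv0]
      show cb HK.v0 = ca HK.v0 * ((ca HK.v0)⁻¹ * cb HK.v0)
      group
    have hsu : IsSU (v ()) := (nil_R hRN hR (n + 1 + i)).su v hv ()
    refine ⟨Ad (fun _ => ca HK.v0) v, ?_, ca HK.v0 * γ, (LT m).mul_mem (hcint _) hγ, ?_⟩
    · refine ad_mem hN hRN hR ?_ hv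
      exact rs_mono (hR.mono (Nat.zero_le i)) (eval_mem hR h1' HK.v0)
    · rw [e5, ← mul_assoc, mk_conj _ hsu, mul_assoc]
      rfl

/-! ### the lower central filtration -/

/-- the lower central filtration -/
def lcf (A : Submodule ℚ (Unit → MatQ m)) (k : ℕ) : Submodule ℚ (Unit → MatQ m) := lcs A (k - 1)

lemma brQ_mono {ι : Type} {A S T : Submodule ℚ (ι → MatQ m)} (h : S ≤ T) : brQ A S ≤ brQ A T := by
  refine Submodule.span_mono ?_
  rintro x ⟨q, hq, r, hr, rfl⟩
  exact ⟨q, hq, r, h hr, rfl⟩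

lemma lcs_anti {ι : Type} (A : RAlg ι m) (k : ℕ) : lcs A.Q (k + 1) ≤ lcs A.Q k := by
  induction k with
  | zero =>
    refine Submodule.span_le.2 ?_
    rintro x ⟨q, hq, r, hr, rfl⟩
    exact A.lie q hq r hr
  | succ k ih => exact brQ_mono ih

lemma lcs_mono {ι : Type} (A : RAlg ι m) {i j : ℕ} (h : i ≤ j) : lcs A.Q j ≤ lcs A.Q i :=
  antitone_nat_of_succ_le (lcs_anti A) h

lemma mem_brQ {ι : Type} {A S : Submodule ℚ (ι → MatQ m)} {q r : ι → MatQ m} (hq : q ∈ A)
    (hr : r ∈ S) : q * r - r * q ∈ brQ A S := Submodule.subset_span ⟨q, hq, r, hr, rfl⟩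

lemma lcs_lie {ι : Type} (A : RAlg ι m) (i : ℕ) : ∀ j, ∀ q ∈ lcs A.Q i, ∀ r ∈ lcs A.Q j,
    q * r - r * q ∈ lcs A.Q (i + j + 1) := by
  induction i with
  | zero =>
    intro j q hq r hr
    rw [Nat.zero_add]
    exact mem_brQ hq hr
  | succ i ih =>
    intro j q hq r hr
    have hspan : ∀ x ∈ brQ A.Q (lcs A.Q i), x * r - r * x ∈ lcs A.Q (i + 1 + j + 1) := by
      intro x hx
      induction hx using Submodule.span_induction with
      | mem x hx =>
        obtain ⟨a, ha, y, hy, rfl⟩ := hx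
        have h1 := ih j y hy r hr
        have h2 : a * r - r * a ∈ lcs A.Q (j + 1) := mem_brQ ha hr
        have h3 := ih (j + 1) y hy _ h2
        have h4 : a * (y * r - r * y) - (y * r - r * y) * a ∈ lcs A.Q (i + j + 1 + 1) :=
          mem_brQ ha h1
        have e1 : i + 1 + j + 1 = i + j + 1 + 1 := by omega
        have e2 : i + (j + 1) + 1 = i + j + 1 + 1 := by omega
        rw [e2] at h3
        rw [e1]
        have h5 := (lcs A.Q (i + j + 1 + 1)).sub_mem h4 h3
        convert h5 using 1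
        noncomm_ring
      | zero => simp
      | add x y _ _ hx hy =>
        have := (lcs A.Q (i + 1 + j + 1)).add_mem hx hy
        convert this using 1
        noncomm_ring
      | smul c x _ hx =>
        have := (lcs A.Q (i + 1 + j + 1)).smul_mem c hx
        convert this using 1
        rw [smul_mul_assoc, mul_smul_comm, smul_sub]
    exact hspan q hq

lemma filt_lcf (A : RAlg Unit m) : Filt (lcf A.Q) where
  su := A.su
  anti := fun k => lcs_mono A (by omega)
  lie := by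
    intro i j q hq r hr
    exact lcs_mono A (by omega) (lcs_lie A (i - 1) (j - 1) q hq r hr)

end ECube

end MPd26.Nil
end

section
/-!
# E: functions with vanishing dual box averages are orthogonal to invariant functions
-/
set_option autoImplicit false

open MeasureTheory Filter Topology

namespace MPd26.Nil

namespace EM

open PathM ECube

variable {m : ℕ}

lemma continuous_act {ι : Type} (g : ι → UT m) : Continuous (act g : (ι → NM m) → (ι → NM m)) :=
  continuous_pi fun i => (continuous_const_smul (g i)).comp (continuous_apply i)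

/-- finite sums of products of functions of one coordinate -/
noncomputable def prods (ι : Type) [Fintype ι] (m : ℕ) : Submonoid C(ι → NM m, ℂ) where
  carrier := {Φ | ∃ H : ι → C(NM m, ℂ), ∀ y, Φ y = ∏ ε, H ε (y ε)}
  mul_mem' := by
    rintro a b ⟨H, hH⟩ ⟨H', hH'⟩
    refine ⟨fun ε => H ε * H' ε, fun y => ?_⟩
    rw [ContinuousMap.mul_apply, hH, hH', ← Finset.prod_mul_distrib]
    rfl
  one_mem' := ⟨fun _ => 1, fun y => by simp⟩

lemma star_prods (ι : Type) [Fintype ι] (m : ℕ) :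
    star ((prods ι m : Submonoid _) : Set C(ι → NM m, ℂ)) ⊆ (prods ι m : Set C(ι → NM m, ℂ)) := by
  rintro Φ hΦ
  rw [Set.mem_star] at hΦ
  obtain ⟨H, hH⟩ := hΦ
  refine ⟨fun ε => star (H ε), fun y => ?_⟩
  have := congrArg star (hH y)
  rw [ContinuousMap.star_apply, star_star] at this
  rw [this, star_prod]
  rfl

/-- Stone-Weierstrass: a closed subspace which contains the products is everything -/
lemma stone {ι : Type} [Fintype ι] [CompactSpace (NM m)] (P : Submodule ℂ C(ι → NM m, ℂ))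
    (hP : IsClosed (P : Set C(ι → NM m, ℂ))) (h : ∀ Φ ∈ prods ι m, Φ ∈ P) : P = ⊤ := by
  have hsep : (StarAlgebra.adjoin ℂ (prods ι m : Set C(ι → NM m, ℂ))).SeparatesPoints := by
    intro x y hxy
    obtain ⟨ε, hε⟩ : ∃ ε, x ε ≠ y ε := by
      by_contra hcon
      push Not at hcon
      exact hxy (funext hcon)
    obtain ⟨f, hf0, hf1, -⟩ := exists_continuous_zero_one_of_isClosed
      (isClosed_singleton (x := x ε)) (isClosed_singleton (x := y ε))
      (Set.disjoint_singleton.2 hε)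
    have hx : f (x ε) = 0 := hf0 rfl
    have hy : f (y ε) = 1 := hf1 rfl
    classical
    let g : C(NM m, ℂ) := ⟨fun z => (f z : ℂ), Complex.continuous_ofReal.comp f.continuous⟩
    let Φ : C(ι → NM m, ℂ) := g.comp ⟨fun z => z ε, continuous_apply ε⟩
    have hΦ : Φ ∈ prods ι m := by
      refine ⟨Function.update 1 ε g, fun z => ?_⟩
      rw [Finset.prod_eq_single ε]
      · rw [Function.update_self]; rfl
      · intro b _ hb
        rw [Function.update_of_ne hb]; rfl
      · intro h; exact absurd (Finset.mem_univ ε) h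
    refine ⟨Φ, ⟨Φ, StarAlgebra.subset_adjoin ℂ _ hΦ, rfl⟩, ?_⟩
    show ((f (x ε) : ℝ) : ℂ) ≠ ((f (y ε) : ℝ) : ℂ)
    rw [hx, hy]
    simp
  have htop := ContinuousMap.starSubalgebra_topologicalClosure_eq_top_of_separatesPoints _ hsep
  have hle : ((StarAlgebra.adjoin ℂ (prods ι m : Set C(ι → NM m, ℂ)) :
      StarSubalgebra ℂ C(ι → NM m, ℂ)) : Set C(ι → NM m, ℂ)) ⊆ P := by
    intro Φ hΦ
    have h1 : Φ ∈ Algebra.adjoin ℂ ((prods ι m : Set C(ι → NM m, ℂ)) ∪
        star (prods ι m : Set C(ι → NM m, ℂ))) := hΦ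
    rw [Set.union_eq_left.2 (star_prods ι m)] at h1
    have h2 : Φ ∈ Subalgebra.toSubmodule (Algebra.adjoin ℂ (prods ι m : Set C(ι → NM m, ℂ))) := h1
    rw [Algebra.adjoin_eq_span, Submonoid.closure_eq] at h2
    exact (Submodule.span_le.2 h) h2
  rw [eq_top_iff]
  intro Φ _
  have h3 : Φ ∈ (StarAlgebra.adjoin ℂ (prods ι m : Set C(ι → NM m, ℂ))).topologicalClosure := by
    rw [htop]; trivial
  have h4 : Φ ∈ closure ((StarAlgebra.adjoin ℂ (prods ι m : Set C(ι → NM m, ℂ)) :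
      StarSubalgebra ℂ C(ι → NM m, ℂ)) : Set C(ι → NM m, ℂ)) := h3
  exact closure_minimal hle hP h4

/-! ### averages -/

section av
variable {l : ℕ} (η : Unit → Mat m)

/-- the cube `(exp((ε·h) η) z)_ε` -/
noncomputable def zc (h : Fin l → ℕ) (z : Unit → NM m) : HK.Vx l → NM m := fun ε =>
  act (E (((∑ i ∈ Finset.univ.filter (fun i => ε i = true), h i : ℕ) : ℝ) • η)) z ()

lemma continuous_zc (h : Fin l → ℕ) :
    Continuous (zc η h : (Unit → NM m) → (HK.Vx l → NM m)) :=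
  continuous_pi fun _ => (continuous_apply ()).comp (continuous_act _)

/-- forget the coordinate `v0` -/
noncomputable def prj (l m : ℕ) (z : HK.Vx l → NM m) : HK.Vx l → NM m := by
  classical
  exact fun ε => if ε = HK.v0 then ((1 : UT m) : NM m) else z ε

lemma prj_v0 (z : HK.Vx l → NM m) : prj l m z HK.v0 = ((1 : UT m) : NM m) := by
  unfold prj
  simp

lemma prj_of_ne (z : HK.Vx l → NM m) {ε : HK.Vx l} (h : ε ≠ HK.v0) : prj l m z ε = z ε := by
  unfold prj
  simp [h]

lemma continuous_prj : Continuous (prj l m) := by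
  classical
  refine continuous_pi fun ε => ?_
  by_cases h : ε = HK.v0
  · subst h
    simp only [prj_v0]
    exact continuous_const
  · simp only [prj_of_ne _ h]
    exact continuous_apply ε

variable (ν : Measure (Unit → NM m)) (F : (Unit → NM m) → ℂ)

/-- the averages -/
noncomputable def av (N : ℕ) (Φ : C(HK.Vx l → NM m, ℂ)) : ℂ :=
  ((N : ℂ) ^ l)⁻¹ * ∑ h : Fin l → Fin N, ∫ z, F z * Φ (prj l m (zc η (fun i => (h i : ℕ)) z)) ∂ν

variable {ν F}

lemma meas_comp {Φ : C(HK.Vx l → NM m, ℂ)} (h : Fin l → ℕ) :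
    Measurable fun z => Φ (prj l m (zc η h z)) :=
  (Φ.continuous.comp (continuous_prj.comp (continuous_zc η h))).measurable

lemma integrable_F [IsProbabilityMeasure ν] [CompactSpace (NM m)] (hF : HK.Bdd F)
    (Φ : C(HK.Vx l → NM m, ℂ)) (h : Fin l → ℕ) :
    Integrable (fun z => F z * Φ (prj l m (zc η h z))) ν := by
  obtain ⟨hFm, C, hC⟩ := hF
  refine Integrable.of_bound (C := C * ‖Φ‖) (hFm.mul (meas_comp η h)).aestronglyMeasurable
    (Eventually.of_forall fun z => ?_)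
  rw [norm_mul]
  exact mul_le_mul (hC z) (Φ.norm_coe_le_norm _) (norm_nonneg _) ((norm_nonneg _).trans (hC z))

lemma av_add [IsProbabilityMeasure ν] [CompactSpace (NM m)] (hF : HK.Bdd F) (N : ℕ)
    (Φ Φ' : C(HK.Vx l → NM m, ℂ)) : av η ν F N (Φ + Φ') = av η ν F N Φ + av η ν F N Φ' := by
  unfold av
  rw [← mul_add, ← Finset.sum_add_distrib]
  congr 1
  refine Finset.sum_congr rfl fun h _ => ?_
  rw [← integral_add (integrable_F η hF Φ _) (integrable_F η hF Φ' _)]
  refine integral_congr_ae (Eventually.of_forall fun z => ?_)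
  simp only [ContinuousMap.add_apply, mul_add]

lemma av_smul (N : ℕ) (c : ℂ) (Φ : C(HK.Vx l → NM m, ℂ)) :
    av η ν F N (c • Φ) = c * av η ν F N Φ := by
  unfold av
  rw [mul_left_comm c]
  congr 1
  rw [Finset.mul_sum]
  refine Finset.sum_congr rfl fun h _ => ?_
  rw [← integral_const_mul]
  refine integral_congr_ae (Eventually.of_forall fun z => ?_)
  simp only [ContinuousMap.smul_apply, smul_eq_mul]
  ring

lemma norm_av_le [IsProbabilityMeasure ν] [CompactSpace (NM m)] {C : ℝ}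
    (hC : ∀ z, ‖F z‖ ≤ C) (N : ℕ) (Φ : C(HK.Vx l → NM m, ℂ)) :
    ‖av η ν F N Φ‖ ≤ C * ‖Φ‖ := by
  have hC0 : 0 ≤ C := (norm_nonneg _).trans (hC (fun _ => ((1 : UT m) : NM m)))
  have hb : ∀ h : Fin l → Fin N,
      ‖∫ z, F z * Φ (prj l m (zc η (fun i => (h i : ℕ)) z)) ∂ν‖ ≤ C * ‖Φ‖ := by
    intro h
    have := norm_integral_le_of_norm_le_const (μ := ν) (C := C * ‖Φ‖)
      (f := fun z => F z * Φ (prj l m (zc η (fun i => (h i : ℕ)) z)))
      (Eventually.of_forall fun z => by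
        rw [norm_mul]
        exact mul_le_mul (hC z) (Φ.norm_coe_le_norm _) (norm_nonneg _) hC0)
    simpa using this
  unfold av
  rw [norm_mul]
  have hs : ‖∑ h : Fin l → Fin N, ∫ z, F z * Φ (prj l m (zc η (fun i => (h i : ℕ)) z)) ∂ν‖ ≤
      (N : ℝ) ^ l * (C * ‖Φ‖) := by
    refine (norm_sum_le _ _).trans ((Finset.sum_le_sum fun h _ => hb h).trans ?_)
    have hcard : ((Finset.univ : Finset (Fin l → Fin N)).card : ℝ) = (N : ℝ) ^ l := by simp
    rw [Finset.sum_const, nsmul_eq_mul, hcard]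
  have hn : ‖((N : ℂ) ^ l)⁻¹‖ = ((N : ℝ) ^ l)⁻¹ := by simp
  rw [hn]
  by_cases hz : (N : ℝ) ^ l = 0
  · rw [hz, inv_zero, zero_mul]
    exact mul_nonneg hC0 (norm_nonneg _)
  · refine (mul_le_mul_of_nonneg_left hs (by positivity)).trans (le_of_eq ?_)
    rw [← mul_assoc, inv_mul_cancel₀ hz, one_mul]

/-- the functions whose averages tend to `0` -/
noncomputable def good [IsProbabilityMeasure ν] [CompactSpace (NM m)] (hF : HK.Bdd F) :
    Submodule ℂ C(HK.Vx l → NM m, ℂ) where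
  carrier := {Φ | Tendsto (fun N => av η ν F N Φ) atTop (𝓝 0)}
  add_mem' := by
    intro a b ha hb
    have := Tendsto.add ha hb
    rw [add_zero] at this
    refine this.congr fun N => ?_
    rw [av_add η hF]
  zero_mem' := by
    show Tendsto (fun N => av η ν F N 0) atTop (𝓝 0)
    refine tendsto_const_nhds.congr fun N => ?_
    simp [av]
  smul_mem' := by
    intro c a ha
    have := Tendsto.const_mul c ha
    rw [mul_zero] at this
    refine this.congr fun N => ?_
    rw [av_smul]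

lemma isClosed_good [IsProbabilityMeasure ν] [CompactSpace (NM m)] (hF : HK.Bdd F) :
    IsClosed ((good (l := l) (ν := ν) η hF : Submodule ℂ C(HK.Vx l → NM m, ℂ)) :
      Set C(HK.Vx l → NM m, ℂ)) := by
  rw [← isSeqClosed_iff_isClosed]
  intro Φs Φ hΦs hlim
  obtain ⟨C, hC⟩ := hF.2
  have hC0 : 0 ≤ C := (norm_nonneg _).trans (hC (fun _ => ((1 : UT m) : NM m)))
  show Tendsto (fun N => av η ν F N Φ) atTop (𝓝 0)
  rw [Metric.tendsto_nhds]
  intro ε hε
  have h1 : ∀ᶠ n in atTop, dist (Φs n) Φ < ε / 2 / (C + 1) :=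
    (Metric.tendsto_nhds.1 hlim) _ (by positivity)
  obtain ⟨n, hn⟩ := h1.exists
  have h2 : Tendsto (fun N => av η ν F N (Φs n)) atTop (𝓝 0) := hΦs n
  filter_upwards [(Metric.tendsto_nhds.1 h2) (ε / 2) (by positivity)] with N hN
  have h3 : av η ν F N Φ = av η ν F N (Φs n) + av η ν F N (Φ - Φs n) := by
    rw [← av_add η hF, add_sub_cancel]
  rw [dist_zero_right] at hN ⊢
  rw [h3]
  have h4 := norm_av_le (l := l) (ν := ν) η hC N (Φ - Φs n)
  have h5 : ‖Φ - Φs n‖ < ε / 2 / (C + 1) := by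
    rw [← dist_eq_norm, dist_comm]; exact hn
  have h6 : C * ‖Φ - Φs n‖ ≤ ε / 2 := by
    have : (C + 1) * ‖Φ - Φs n‖ ≤ ε / 2 := by
      have := mul_le_mul_of_nonneg_left h5.le (show 0 ≤ C + 1 by positivity)
      calc (C + 1) * ‖Φ - Φs n‖ ≤ (C + 1) * (ε / 2 / (C + 1)) := this
        _ = ε / 2 := by field_simp
    nlinarith [norm_nonneg (Φ - Φs n)]
  calc ‖av η ν F N (Φs n) + av η ν F N (Φ - Φs n)‖
      ≤ ‖av η ν F N (Φs n)‖ + ‖av η ν F N (Φ - Φs n)‖ := norm_add_le _ _
    _ < ε / 2 + ε / 2 := by linarith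
    _ = ε := by ring

end av

end EM

open PathM ECube EM in
theorem specE (hN : SpecNilExp) (hRN : SpecRatNil) (hCpt : SpecCpt) : SpecE := by
  classical
  intro m A η hη ν hν l hl F hF hH G hG hinv
  have hprob : IsProbabilityMeasure ν := hν.prob
  have hcomp : CompactSpace (NM m) := hCpt.1 m
  have hR : Filt (lcf A.Q) := filt_lcf A
  have hV0 : A.V = rs (lcf A.Q 0) := rfl
  have hV1 : A.V = rs (lcf A.Q 1) := rfl
  have hnil : IsNil (rs (Cu (lcf A.Q) l 0)) := nil_Cu hRN hR l 0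
  set K : Set (HK.Vx l → NM m) := orb (rs (Cu (lcf A.Q) l 0)) 1 with hK
  have hKc : IsCompact K := hCpt.2 _ m (cAlg hR l 0) 1
  -- A: the cubes lie in `K`
  have hmemK : ∀ (h : Fin l → ℕ), ∀ z ∈ orb A.V 1, zc η h z ∈ K := by
    rintro h z ⟨v, hv, rfl⟩
    set x1 : HK.Vx l → Mat m := fun ε =>
      ((∑ i ∈ Finset.univ.filter (fun i => ε i = true), h i : ℕ) : ℝ) • η () with hx1
    have hm1 : x1 ∈ rs (Cu (lcf A.Q) l 0) := by
      have e : x1 = ∑ i : Fin l, (h i : ℝ) • (fun ε : HK.Vx l => if ε i = true then η () else 0) := by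
        funext ε
        rw [Finset.sum_apply, hx1]
        simp only [Pi.smul_apply, smul_ite, smul_zero]
        rw [← Finset.sum_filter, ← Finset.sum_smul]
        push_cast
        rfl
      rw [e]
      refine Submodule.sum_mem _ fun i _ => Submodule.smul_mem _ _ ?_
      exact rind_mem hR (i := 0) (by rw [← hV1]; exact hη) i
    have hm2 : (fun _ : HK.Vx l => v ()) ∈ rs (Cu (lcf A.Q) l 0) := rdiag_mem (by rw [← hV0]; exact hv)
    refine ⟨Lg (E x1 * E (fun _ : HK.Vx l => v ())), ?_, ?_⟩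
    · refine mul_mem hN hnil ?_ ?_
      · rw [Lg_E (hnil.su _ hm1)]; exact hm1
      · rw [Lg_E (hnil.su _ hm2)]; exact hm2
    · rw [one_mul, E_Lg]
      funext ε
      rw [one_mul]
      rfl
  have hv0mem : ∀ z ∈ K, (fun _ : Unit => z HK.v0) ∈ orb A.V 1 := by
    rintro z ⟨v, hv, rfl⟩
    refine ⟨fun _ => v HK.v0, ?_, ?_⟩
    · rw [hV0]; exact eval_mem hR hv HK.v0
    · rfl
  -- B: the value at `v0` is determined by the others
  have hdet : ∀ z ∈ K, ∀ z' ∈ K, (∀ ε, ε ≠ HK.v0 → z ε = z' ε) →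
      G (fun _ => z HK.v0) = G (fun _ => z' HK.v0) := by
    intro z hz z' hz' hzz
    have hz'o := hv0mem z' hz'
    obtain ⟨v, hv, rfl⟩ := hz
    obtain ⟨w, hw, rfl⟩ := hz'
    have hμ : Lg ((E w)⁻¹ * E v) ∈ rs (Cu (lcf A.Q) l 0) := by
      refine mul_mem hN hnil (inv_mem ?_) ?_
      · rw [Lg_E (hnil.su _ hw)]; exact hw
      · rw [Lg_E (hnil.su _ hv)]; exact hv
    obtain ⟨x, hx, γ, hγ, e⟩ := determination hN hRN hR l 0 _ hμ (by
      intro ε hε
      have h1 : (((1 * E v) ε : UT m) : NM m) = (((1 * E w) ε : UT m) : NM m) := hzz ε hε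
      rw [one_mul, one_mul] at h1
      exact QuotientGroup.eq.1 h1.symm)
    rw [add_zero] at hx
    have hxl : x ∈ rs (lcs A.Q (l - 1)) := hx
    have hwv : (fun _ : Unit => logU (E w HK.v0)) ∈ rs (lcf A.Q 0) := by
      have h2 : (fun _ : Unit => w HK.v0) ∈ rs (lcf A.Q 0) := eval_mem hR hw HK.v0
      have h3 : logU (E w HK.v0) = w HK.v0 := logU_expU (hnil.su _ hw HK.v0)
      rw [h3]; exact h2
    have had := ad_mem hN hRN hR hwv hx
    have hsu : IsSU (x ()) := (nil_R hRN hR l).su x hx ()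
    have e2 : E v HK.v0 = expU ((E w HK.v0).mat * x () * ((E w HK.v0)⁻¹).mat) * (E w HK.v0 * γ) := by
      have h4 : E v HK.v0 = E w HK.v0 * (expU (x ()) * γ) := by
        rw [← e]
        show E v HK.v0 = E w HK.v0 * ((E w HK.v0)⁻¹ * E v HK.v0)
        group
      rw [h4, ← mul_assoc, mk_conj _ hsu, mul_assoc]
    have e3 : (fun _ : Unit => mkp (1 * E v) HK.v0) =
        act (E (Ad (fun _ => E w HK.v0) x)) (fun _ : Unit => mkp (1 * E w) HK.v0) := by
      funext u
      show (((1 * E v) HK.v0 : UT m) : NM m) =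
        expU ((E w HK.v0).mat * x u * ((E w HK.v0)⁻¹).mat) • (((1 * E w) HK.v0 : UT m) : NM m)
      rw [one_mul, one_mul, e2]
      show ((expU ((E w HK.v0).mat * x () * ((E w HK.v0)⁻¹).mat) * (E w HK.v0 * γ) : UT m) : NM m) =
        ((expU ((E w HK.v0).mat * x () * ((E w HK.v0)⁻¹).mat) * E w HK.v0 : UT m) : NM m)
      rw [← mul_assoc]
      exact (QuotientGroup.mk_mul_of_mem _ hγ)
    rw [e3]
    exact hinv _ had _ hz'o
  -- C: the continuous function on the whole space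
  have hcont0 : ContinuousOn (fun z : HK.Vx l → NM m => G (fun _ => z HK.v0)) K := by
    refine hG.comp (f := fun z : HK.Vx l → NM m => (fun _ : Unit => z HK.v0)) ?_ ?_
    · exact (continuous_pi fun _ => continuous_apply HK.v0).continuousOn
    · exact fun z hz => hv0mem z hz
  have hKcs : CompactSpace K := isCompact_iff_compactSpace.1 hKc
  have hfact : Continuous (Set.imageFactorization (prj l m) K) :=
    (continuous_prj.comp continuous_subtype_val).subtype_mk _
  have hquot : IsQuotientMap (Set.imageFactorization (prj l m) K) :=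
    hfact.isClosedMap.isQuotientMap hfact Set.imageFactorization_surjective
  let g0 : C(K, ℂ) := ⟨fun z => G (fun _ => z.1 HK.v0), by
    have := continuousOn_iff_continuous_restrict.1 hcont0
    exact this⟩
  let pq : C(K, prj l m '' K) := ⟨Set.imageFactorization (prj l m) K, hfact⟩
  have hquot : IsQuotientMap pq := hquot
  have hft : Function.FactorsThrough g0 pq := by
    intro a b hab
    refine hdet _ a.2 _ b.2 fun ε hε => ?_
    have h1 := congrFun (congrArg Subtype.val hab) ε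
    have h2 : prj l m a.1 ε = prj l m b.1 ε := h1
    rwa [prj_of_ne _ hε, prj_of_ne _ hε] at h2
  obtain ⟨Ψ, hΨ⟩ := ContinuousMap.exists_restrict_eq ((hKc.image continuous_prj).isClosed)
    (hquot.lift g0 hft)
  have hΨ' : ∀ z ∈ K, Ψ (prj l m z) = G (fun _ => z HK.v0) := by
    intro z hz
    have h1 := congrArg (fun f : C(prj l m '' K, ℂ) => f ⟨prj l m z, z, hz, rfl⟩) hΨ
    have h2 := ContinuousMap.congr_fun (hquot.lift_comp g0 hft) ⟨z, hz⟩
    exact h1.trans h2
  -- D: the averages of `Ψ` tend to `0`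
  have hgood : good (l := l) (ν := ν) η hF = ⊤ := by
    refine stone _ (isClosed_good η hF) ?_
    rintro Φ ⟨H, hΦ⟩
    show Tendsto (fun N => av η ν F N Φ) atTop (𝓝 0)
    have h1 := (hH (fun ε z => H ε (z ())) fun ε =>
      (H ε).continuous.comp (continuous_apply ())).const_mul (H HK.v0 ((1 : UT m) : NM m))
    rw [mul_zero] at h1
    refine h1.congr fun N => ?_
    unfold av
    rw [mul_left_comm]
    congr 1
    rw [Finset.mul_sum]
    refine Finset.sum_congr rfl fun h _ => ?_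
    rw [← integral_const_mul]
    refine integral_congr_ae (Eventually.of_forall fun z => ?_)
    simp only
    rw [hΦ, ← Finset.mul_prod_erase Finset.univ _ (Finset.mem_univ (HK.v0 : HK.Vx l)), prj_v0,
      mul_left_comm]
    congr 2
    have hfil : (Finset.univ.filter fun ε : HK.Vx l => ε ≠ HK.v0) =
        Finset.univ.erase HK.v0 := by
      ext ε; simp
    rw [hfil]
    refine Finset.prod_congr rfl fun ε hε => ?_
    rw [prj_of_ne _ (Finset.ne_of_mem_erase hε)]
    rfl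
  have hlim : Tendsto (fun N => av η ν F N Ψ) atTop (𝓝 0) := by
    have : Ψ ∈ good (l := l) (ν := ν) η hF := by rw [hgood]; trivial
    exact this
  -- E: they are constant
  have horbm : MeasurableSet (orb A.V (1 : Unit → UT m)) := (hCpt.2 Unit m A 1).measurableSet
  have hae : ∀ᵐ z ∂ν, z ∈ orb A.V (1 : Unit → UT m) := by
    rw [ae_iff, ← Set.compl_def]
    exact (prob_compl_eq_zero_iff horbm).2 hν.orb
  have hrestr : ν.restrict (orb A.V (1 : Unit → UT m)) = ν := Measure.restrict_eq_self_of_ae_mem hae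
  have hval : ∀ h : Fin l → ℕ, ∫ z, F z * Ψ (prj l m (zc η h z)) ∂ν =
      ∫ z in orb A.V 1, F z * G z ∂ν := by
    intro h
    rw [hrestr]
    refine integral_congr_ae ?_
    filter_upwards [hae] with z hz
    rw [hΨ' _ (hmemK h z hz)]
    congr 2
    funext u
    show E (((∑ i ∈ Finset.univ.filter (fun i => (HK.v0 : HK.Vx l) i = true), h i : ℕ) : ℝ) • η) () •
      z () = z u
    have : (Finset.univ.filter fun i : Fin l => (HK.v0 : HK.Vx l) i = true) = ∅ := by
      ext i; simp [HK.v0]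
    rw [this, Finset.sum_empty, Nat.cast_zero, zero_smul, E_zero, Pi.one_apply, one_smul]
  have hconst : ∀ᶠ N in atTop, ∫ z in orb A.V 1, F z * G z ∂ν = av η ν F N Ψ := by
    filter_upwards [eventually_gt_atTop 0] with N hN'
    unfold av
    rw [Finset.sum_congr rfl fun h _ => hval _, Finset.sum_const, nsmul_eq_mul]
    have hNc : (N : ℂ) ≠ 0 := by exact_mod_cast hN'.ne'
    have hcard : ((Finset.univ : Finset (Fin l → Fin N)).card : ℂ) = (N : ℂ) ^ l := by simp
    rw [hcard, ← mul_assoc, inv_mul_cancel₀ (pow_ne_zero l hNc), one_mul]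
  exact tendsto_nhds_unique (tendsto_const_nhds.congr' hconst) hlim

end MPd26.Nil
end

section
/-!
# POLYV: the rational Lie algebra of polynomial maps attached to the orbit
-/
set_option autoImplicit false

open MeasureTheory Filter Topology Polynomial

namespace MPd26.Nil

namespace PolyVM

variable {κ : Type} {m : ℕ} (X : NData m)

lemma adQ_pow_mem {w : Unit → MatQ m} (hw : w ∈ X.A.Q) (r : ℕ) : (adQ X.δ ^ r) w ∈ X.A.Q := by
  induction r with
  | zero => exact hw
  | succ r ih =>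
    rw [pow_succ', Module.End.mul_apply]
    exact X.der _ ih

/-- conjugation by `γ` preserves the rational algebra -/
lemma exists_Ad {w : Unit → MatQ m} (hw : w ∈ X.A.Q) :
    ∃ w' ∈ X.A.Q, castM w' = Ad (fun _ => X.γ) (castM w) := by
  refine ⟨∑ r ∈ Finset.range (2 * m + 1), ((r.factorial : ℚ)⁻¹) • (adQ X.δ ^ r) w,
    Submodule.sum_mem _ fun r _ => Submodule.smul_mem _ _ (adQ_pow_mem X hw r), ?_⟩
  have h := Ad_gamma X 1 (castM w)
  rw [zpow_one] at h
  rw [h]
  funext i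
  rw [Finset.sum_apply]
  show (((∑ r ∈ Finset.range (2 * m + 1), ((r.factorial : ℚ)⁻¹) • (adQ X.δ ^ r) w) :
    Unit → MatQ m) i).map (fun x : ℚ => (x : ℝ)) = _
  rw [Finset.sum_apply]
  simp only [Pi.smul_apply]
  rw [sum_castM]
  refine Finset.sum_congr rfl fun r _ => ?_
  rw [← castM_adQ_pow]
  push_cast
  rw [one_pow, one_mul]
  rfl

lemma Ad_gamma_mem {v : Unit → Mat m} (hv : v ∈ X.A.V) : Ad (fun _ => X.γ) v ∈ X.A.V := by
  refine ECube.rs_map (H18.AdH (fun _ => X.γ)).toLinearMap ?_ v hv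
  intro q hq
  obtain ⟨w', hw', e⟩ := exists_Ad X hq
  exact ⟨w', hw', e.symm⟩

/-- a functional invariant under `Ad γ` kills `[δ, V]` -/
lemma kill_ad (χ : (Unit → Mat m) →ₗ[ℝ] ℝ)
    (h : ∀ v ∈ X.A.V, χ (Ad (fun _ => X.γ) v) = χ v) {v : Unit → Mat m} (hv : v ∈ X.A.V) :
    χ (castM X.δ * v - v * castM X.δ) = 0 := by
  rcases Nat.eq_zero_or_pos m with hm | hm
  · subst hm
    have : castM X.δ * v - v * castM X.δ = 0 := by
      funext i
      ext a b
      exact a.elim0
    rw [this, map_zero]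
  · have h1 : ∀ n : ℕ, χ (Ad (fun _ => X.γ ^ (n : ℤ)) v) = χ v ∧
        Ad (fun _ => X.γ ^ (n : ℤ)) v ∈ X.A.V := by
      intro n
      induction n with
      | zero =>
        have e : (fun _ : Unit => X.γ ^ ((0 : ℕ) : ℤ)) = 1 := by
          funext _
          simp
        rw [e, H18.Ad_one]
        exact ⟨rfl, hv⟩
      | succ n ih =>
        have e : (fun _ : Unit => X.γ ^ ((n + 1 : ℕ) : ℤ)) =
            (fun _ => X.γ) * (fun _ : Unit => X.γ ^ (n : ℤ)) := by
          funext _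
          show X.γ ^ ((n + 1 : ℕ) : ℤ) = X.γ * X.γ ^ (n : ℤ)
          rw [Nat.cast_succ, zpow_add_one, ((Commute.refl X.γ).zpow_left (n : ℤ)).eq]
        rw [e, H18.Ad_mul]
        exact ⟨(h _ ih.2).trans ih.1, Ad_gamma_mem X ih.2⟩
    set Q : ℝ[X] := (∑ r ∈ Finset.range (2 * m + 1),
      C ((r.factorial : ℝ)⁻¹ * χ (((NilExpM.adF (castM X.δ)) ^ r) v)) * Polynomial.X ^ r) - C (χ v)
      with hQ
    have h2 : ∀ n : ℕ, Q.eval (n : ℝ) = 0 := by
      intro n
      rw [hQ, eval_sub, eval_C, eval_finset_sum, sub_eq_zero, ← (h1 n).1, Ad_gamma, map_sum]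
      refine Finset.sum_congr rfl fun r _ => ?_
      rw [eval_mul, eval_C, eval_pow, eval_X, map_smul, smul_eq_mul]
      push_cast
      ring
    have h3 : Q = 0 := by
      refine Polynomial.eq_zero_of_infinite_isRoot Q ?_
      refine Set.Infinite.mono (s := Set.range fun n : ℕ => (n : ℝ)) ?_
        (Set.infinite_range_of_injective Nat.cast_injective)
      rintro x ⟨n, rfl⟩
      exact h2 n
    have h4 : Q.coeff 1 = χ (NilExpM.adF (castM X.δ) v) := by
      rw [hQ, coeff_sub, finset_sum_coeff, coeff_C, if_neg one_ne_zero, sub_zero,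
        Finset.sum_eq_single 1]
      · rw [coeff_C_mul, coeff_X_pow, if_pos rfl, mul_one, pow_one]
        simp
      · intro b _ hb
        rw [coeff_C_mul, coeff_X_pow, if_neg (fun h => hb h.symm), mul_zero]
      · intro h5
        exact absurd (Finset.mem_range.2 (by omega)) h5
    rw [h3, coeff_zero] at h4
    exact h4.symm

lemma kill_WW (χ : (Unit → Mat m) →ₗ[ℝ] ℝ) (h1 : KillBr X.A.V χ)
    (h2 : ∀ v ∈ X.A.V, χ (castM X.δ * v - v * castM X.δ) = 0) : KillBr (H18.WW X) χ := by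
  intro v hv w hw
  obtain ⟨v, hv', c, rfl⟩ := (H18.mem_WW X).1 hv
  obtain ⟨w, hw', d, rfl⟩ := (H18.mem_WW X).1 hw
  have e : (v + c • castM X.δ) * (w + d • castM X.δ) - (w + d • castM X.δ) * (v + c • castM X.δ)
      = (v * w - w * v) + c • (castM X.δ * w - w * castM X.δ)
        - d • (castM X.δ * v - v * castM X.δ) := by
    simp only [mul_add, add_mul, mul_smul_comm, smul_mul_assoc, smul_sub, smul_add]
    rw [smul_comm c d]
    abel
  rw [e, map_sub, map_add, map_smul, map_smul, h1 v hv' w hw', h2 v hv', h2 w hw']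
  simp

/-- the value of an invariant functional on `Lg (τ γ⁻¹)` -/
lemma chi_tg (hN : SpecNilExp) (hRN : SpecRatNil) (χ : (Unit → Mat m) →ₗ[ℝ] ℝ)
    (h : KillBr (H18.WW X) χ) : χ (Lg (H18.tf X * (H18.gf X)⁻¹)) = χ X.e := by
  have hW := H18.WW_nil X hRN
  have hδ := H18.delta_mem X
  have hY : castM X.δ + X.e ∈ H18.WW X :=
    (H18.WW X).add_mem hδ ((le_sup_left : X.A.V ≤ H18.WW X) X.he)
  have h1 : Lg (H18.tf X) = castM X.δ + X.e := by
    rw [H18.tf_eq, PathM.Lg_E (hW.su _ hY)]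
  have h2 : Lg (H18.gf X) = castM X.δ := by
    rw [H18.gf_eq, PathM.Lg_E (hW.su _ hδ)]
  rw [PathM.phi_mul hN hW h (by rw [h1]; exact hY) (PathM.inv_mem (by rw [h2]; exact hδ)),
    PathM.Lg_inv, h1, h2, map_add, map_neg]
  ring

/-- the use of the irrationality of `e` -/
lemma chi_zero (χ : (Unit → Mat m) →ₗ[ℝ] ℝ) (hrat : RatOn X.A χ) (h1 : KillBr X.A.V χ)
    (h2 : ∀ v ∈ X.A.V, χ (castM X.δ * v - v * castM X.δ) = 0) (h3 : ∃ x : ℚ, χ X.e = x) :
    ∀ q ∈ X.A.Q, χ (castM q) = 0 := by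
  refine X.irr χ hrat ?_ h3
  intro q hq
  have hq' : q ∈ Submodule.span ℚ ({x | ∃ q ∈ X.A.Q, ∃ r ∈ X.A.Q, x = q * r - r * q} ∪
      {x | ∃ r ∈ X.A.Q, x = X.δ * r - r * X.δ}) := hq
  induction hq' using Submodule.span_induction with
  | mem x hx =>
    rcases hx with ⟨q, hqA, r, hr, rfl⟩ | ⟨r, hr, rfl⟩
    · rw [H18.castM_sub, H18.castM_mul, H18.castM_mul]
      exact h1 _ (H18.castM_mem_rs hqA) _ (H18.castM_mem_rs hr)
    · rw [H18.castM_sub, H18.castM_mul, H18.castM_mul]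
      exact h2 _ (H18.castM_mem_rs hr)
  | zero => rw [H18.castM_zero, map_zero]
  | add x y hx' hy' hx hy =>
    rw [H18.castM_add, map_add, hx hx', hy hy', add_zero]
  | smul c x hx' hx => rw [H18.castM_smul, map_smul, hx hx', smul_zero]

end PolyVM

open PolyVM in
theorem specPolyV (hN : SpecNilExp) (hRN : SpecRatNil) : SpecPolyV := by
  classical
  intro m X κ _ P a
  have := Fintype.ofFinite κ
  obtain ⟨D0, hD0⟩ : ∃ D0 : ℕ, ∀ k, (P k).natDegree ≤ D0 :=
    ⟨Finset.univ.sup fun k => (P k).natDegree, fun k => Finset.le_sup (f := fun k => (P k).natDegree)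
      (Finset.mem_univ k)⟩
  set D : ℕ := (2 * m + 1) * D0 + D0 + 1 with hD
  set S : Set (Ix κ → MatQ m) := {q | (∃ w ∈ X.A.Q, ∃ n : Bool → ℤ,
    castM q = DR X P a n (castM w)) ∨ (∃ w ∈ X.A.Q, ∃ (n : ℤ) (c : Bool),
    castM q = VR X P a n c (castM w))} with hS
  have hSU : ∀ q ∈ S, SU (castM q) := by
    rintro q (⟨w, hw, n, e⟩ | ⟨w, hw, n, c, e⟩)
    · rw [e]; exact SU_DR X P a n (X.A.su w hw)
    · rw [e]; exact SU_VR X P a n c (X.A.su w hw)
  have hPol : ∀ q ∈ S, ∀ i j, (fun x => q x i j) ∈ Pol ℚ κ D := by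
    rintro q (⟨w, hw, n, e⟩ | ⟨w, hw, n, c, e⟩) i j
    · obtain ⟨q', h1, h2⟩ := exists_DQ (a := a) X hD0 w n
      rw [← h1] at e
      rw [H18.castM_injective e]
      exact PolM.mono (by omega) (h2 i j)
    · obtain ⟨q', h1, h2⟩ := exists_VQ (a := a) X hD0 w n c
      rw [← h1] at e
      rw [H18.castM_injective e]
      exact h2 i j
  have hSh : ∀ q ∈ S, ∀ c, (fun x => q (sh c x)) ∈ S := by
    rintro q (⟨w, hw, n, e⟩ | ⟨w, hw, n, c, e⟩) c'
    · refine Or.inl ⟨w, hw, n + Pi.single c' 1, ?_⟩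
      rw [← DR_sh, ← e]
      rfl
    · refine Or.inr ⟨w, hw, (if c' = c then n + 1 else n), c, ?_⟩
      rw [← VR_sh, ← e]
      rfl
  have hAd : ∀ q ∈ S, ∃ q' ∈ S, castM q' = Ad (fun _ => X.γ) (castM q) := by
    rintro q (⟨w, hw, n, e⟩ | ⟨w, hw, n, c, e⟩)
    · obtain ⟨w', hw', e'⟩ := exists_Ad X hw
      obtain ⟨q', h1, -⟩ := exists_DQ (a := a) X hD0 w' n
      refine ⟨q', Or.inl ⟨w', hw', n, h1⟩, ?_⟩
      rw [h1, e', DR_Ad, e]
    · obtain ⟨w', hw', e'⟩ := exists_Ad X hw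
      obtain ⟨q', h1, -⟩ := exists_VQ (a := a) X hD0 w' n c
      refine ⟨q', Or.inr ⟨w', hw', n, c, h1⟩, ?_⟩
      rw [h1, e', VR_Ad, e]
  obtain ⟨B, hSB, hmin, hBsh, hBad, R, U, hU0, hUR, hU⟩ :=
    specPolGen κ m X.γ X.int S D hSU hPol hSh hAd
  -- rational elements
  have hDQ : ∀ w ∈ X.A.Q, ∀ n : Bool → ℤ, ∃ q ∈ B.Q, castM q = DR X P a n (castM w) := by
    intro w hw n
    obtain ⟨q, h1, -⟩ := exists_DQ (a := a) X hD0 w n
    exact ⟨q, hSB (Or.inl ⟨w, hw, n, h1⟩), h1⟩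
  have hVQ : ∀ w ∈ X.A.Q, ∀ (n : ℤ) (c : Bool), ∃ q ∈ B.Q, castM q = VR X P a n c (castM w) := by
    intro w hw n c
    obtain ⟨q, h1, -⟩ := exists_VQ (a := a) X hD0 w n c
    exact ⟨q, hSB (Or.inr ⟨w, hw, n, c, h1⟩), h1⟩
  have hDV : ∀ v ∈ X.A.V, ∀ n, DR X P a n v ∈ B.V := by
    intro v hv n
    refine ECube.rs_map (DR X P a n) ?_ v hv
    intro q hq
    obtain ⟨q', h1, h2⟩ := hDQ q hq n
    exact ⟨q', h1, h2.symm⟩
  have hVV : ∀ v ∈ X.A.V, ∀ n c, VR X P a n c v ∈ B.V := by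
    intro v hv n c
    refine ECube.rs_map (VR X P a n c) ?_ v hv
    intro q hq
    obtain ⟨q', h1, h2⟩ := hVQ q hq n c
    exact ⟨q', h1, h2.symm⟩
  -- the big space
  have hFlie : ∀ q ∈ PolGenM.Fw κ m D 0, ∀ r ∈ PolGenM.Fw κ m D 0,
      q * r - r * q ∈ PolGenM.Fw κ m D 0 := fun q hq r hr =>
    Submodule.sub_mem _ (PolGenM.mul_mem0 hq hr) (PolGenM.mul_mem0 hr hq)
  have hWnil : IsNil (rs (PolGenM.Fw κ m D 0)) :=
    (hRN _ m (RAlg.mk (PolGenM.Fw κ m D 0) (PolGenM.finDim_Fw D 0)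
      (fun q hq => PolGenM.Fw_su hq) hFlie (fun q hq => PolGenM.bd_Fw hq))).1
  have hBF : B.Q ≤ PolGenM.Fw κ m D 0 := by
    refine hmin _ ?_ hFlie
    intro v hv p q
    have h1 := hPol v hv p q
    unfold PolGenM.wt
    split_ifs with h
    · refine PolM.mono ?_ h1
      have : D * 1 ≤ D * ((q : ℕ) - p) := Nat.mul_le_mul_left _ (by omega)
      omega
    · rw [PolM.mem_zero]
      funext x
      have h2 := hSU v hv x p q (by omega)
      have h3 : ((v x p q : ℚ) : ℝ) = 0 := h2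
      show v x p q = 0
      exact_mod_cast h3
  have hBV : B.V ≤ rs (PolGenM.Fw κ m D 0) := H18.rs_mono hBF
  have hBnil : IsNil B.V := (hRN _ m B).1
  have hvel : ∀ (c : Bool) (s : ℝ), vel X P a c s ∈ B.V := by
    intro c s
    obtain ⟨N, l, -, e⟩ := vel_interp X P a c s
    rw [e]
    exact Submodule.sum_mem _ fun t _ => Submodule.smul_mem _ _ (hVV _ X.he _ _)
  have hpath := fun c : Bool => specPath hN (Ix κ) m B.V (rs (PolGenM.Fw κ m D 0)) hBnil hWnil hBV
    (beta X P a c) (vel X P a c) (beta_zero X P a c)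
    (beta_mem X P a c hN (by omega) hD0 hWnil) (hvel c) (beta_deriv X P a c)
  -- the translation parts
  have hpbn : Lg (pb X P a none) = DR X P a 0 (Lg (H18.tf X * (H18.gf X)⁻¹)) := by
    have hsu : SU (DR X P a 0 (Lg (H18.tf X * (H18.gf X)⁻¹))) :=
      SU_DR X P a 0 (PathM.SU_Lg _)
    rw [← PathM.Lg_E hsu]
    congr 1
    funext x
    show X.γ ^ ev P a x * (X.τ * X.γ⁻¹) * (X.γ ^ ev P a x)⁻¹ =
      expU (Ad (fun _ => X.γ ^ ((P x.2).eval (x.1 (a x.2) + (0 : Bool → ℤ) (a x.2))))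
        (Lg (H18.tf X * (H18.gf X)⁻¹)) ())
    have h1 := congrFun (H18.E_Ad (fun _ : Unit => X.γ ^ ((P x.2).eval (x.1 (a x.2) +
      (0 : Bool → ℤ) (a x.2)))) (PathM.SU_Lg (H18.tf X * (H18.gf X)⁻¹))) ()
    rw [PathM.E_Lg] at h1
    have h2 : expU (Ad (fun _ => X.γ ^ ((P x.2).eval (x.1 (a x.2) + (0 : Bool → ℤ) (a x.2))))
        (Lg (H18.tf X * (H18.gf X)⁻¹)) ()) = _ := h1
    rw [h2, Pi.zero_apply, add_zero]
    rfl
  refine ⟨B, hDQ, ?_, ?_, ?_, ⟨R, U, hU0, hUR, ?_⟩, ?_⟩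
  · intro w hw n c
    obtain ⟨q, h1, h2⟩ := hVQ w hw n c
    exact ⟨q, h1, h2.trans (VR_eq X P a n c (castM w))⟩
  · rintro (_ | c) q hq
    · obtain ⟨q', h1, h2⟩ := hBad q hq
      exact ⟨q', h1, h2.symm⟩
    · exact ⟨_, hBsh q hq c, rfl⟩
  · rintro (_ | c)
    · rw [hpbn]
      exact hDV _ (H18.tg_mem X hN hRN) 0
    · rw [← beta_one]
      exact (hpath c).1 1
  · intro r
    obtain ⟨h1, h2, h3⟩ := hU r
    refine ⟨h1, ?_⟩
    rintro (_ | c) q hq
    · obtain ⟨q', h4, h5⟩ := h3 q hq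
      exact ⟨q', h4, h5⟩
    · refine ⟨_, h2 q hq c, ?_⟩
      rw [H18.castM_sub]
      rfl
  · intro φ hrat hkill hps hint
    -- invariance
    have hDsh : ∀ v ∈ X.A.V, ∀ n c, φ (DR X P a (n + Pi.single c 1) v) = φ (DR X P a n v) := by
      intro v hv n c
      have := hps (some c) _ (hDV v hv n)
      rw [← this, ← DR_sh]
      rfl
    have hDsh2 : ∀ v ∈ X.A.V, ∀ c (k : ℤ) n,
        φ (DR X P a (n + Pi.single c k) v) = φ (DR X P a n v) := by
      intro v hv c k
      induction k using Int.induction_on with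
      | zero => intro n; rw [Pi.single_zero, add_zero]
      | succ k ih =>
        intro n
        rw [Pi.single_add, ← add_assoc, hDsh v hv, ih]
      | pred k ih =>
        intro n
        rw [← hDsh v hv _ c, add_assoc, ← Pi.single_add, sub_add_cancel, ih]
    have hD0' : ∀ v ∈ X.A.V, ∀ n, φ (DR X P a n v) = φ (DR X P a 0 v) := by
      intro v hv n
      have e : n = 0 + Pi.single false (n false) + Pi.single true (n true) := by
        funext b
        cases b <;> simp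
      rw [e, hDsh2 v hv, hDsh2 v hv]
    have hV0 : ∀ v ∈ X.A.V, ∀ c (n : ℤ), φ (VR X P a n c v) = φ (VR X P a 0 c v) := by
      intro v hv c n
      have step : ∀ n : ℤ, φ (VR X P a (n + 1) c v) = φ (VR X P a n c v) := by
        intro n
        have h1 := hps (some c) _ (hVV v hv n c)
        have h2 := VR_sh X P a n c c v
        rw [if_pos rfl] at h2
        rw [← h1, ← h2]
        rfl
      induction n using Int.induction_on with
      | zero => rfl
      | succ n ih => rw [step, ih]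
      | pred n ih =>
        rw [← step, sub_add_cancel, ih]
    -- first functional
    have hψ : ∀ q ∈ X.A.Q, φ (DR X P a 0 (castM q)) = 0 := by
      set χ : (Unit → Mat m) →ₗ[ℝ] ℝ := φ ∘ₗ DR X P a 0 with hχ
      have k1 : KillBr X.A.V χ := by
        intro v hv w hw
        show φ (DR X P a 0 (v * w - w * v)) = 0
        rw [DR_br]
        exact hkill _ (hDV v hv 0) _ (hDV w hw 0)
      have k2 : ∀ v ∈ X.A.V, χ (castM X.δ * v - v * castM X.δ) = 0 := by
        intro v hv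
        refine kill_ad X χ ?_ hv
        intro v hv
        show φ (DR X P a 0 (Ad (fun _ => X.γ) v)) = φ (DR X P a 0 v)
        rw [DR_Ad]
        exact hps none _ (hDV v hv 0)
      refine chi_zero X χ ?_ k1 k2 ?_
      · intro q hq
        obtain ⟨q', h1, h2⟩ := hDQ q hq 0
        obtain ⟨x, hx⟩ := hrat q' h1
        exact ⟨x, by rw [← hx, h2]; rfl⟩
      · obtain ⟨n, hn⟩ := hint none
        refine ⟨n, ?_⟩
        rw [← chi_tg X hN hRN χ (kill_WW X χ k1 k2)]
        show φ (DR X P a 0 (Lg (H18.tf X * (H18.gf X)⁻¹))) = _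
        rw [← hpbn, hn]
        push_cast
        rfl
    -- second functional
    have hχ : ∀ c, ∀ q ∈ X.A.Q, φ (VR X P a 0 c (castM q)) = 0 := by
      intro c
      set χ : (Unit → Mat m) →ₗ[ℝ] ℝ := φ ∘ₗ VR X P a 0 c with hχ
      have k1 : KillBr X.A.V χ := by
        intro v hv w hw
        show φ (VR X P a 0 c (v * w - w * v)) = 0
        rw [VR_br]
        exact hkill _ (hDV v hv _) _ (hVV w hw 0 c)
      have k2 : ∀ v ∈ X.A.V, χ (castM X.δ * v - v * castM X.δ) = 0 := by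
        intro v hv
        refine kill_ad X χ ?_ hv
        intro v hv
        show φ (VR X P a 0 c (Ad (fun _ => X.γ) v)) = φ (VR X P a 0 c v)
        rw [VR_Ad]
        exact hps none _ (hVV v hv 0 c)
      refine chi_zero X χ ?_ k1 k2 ?_
      · intro q hq
        obtain ⟨q', h1, h2⟩ := hVQ q hq 0 c
        obtain ⟨x, hx⟩ := hrat q' h1
        exact ⟨x, by rw [← hx, h2]; rfl⟩
      · obtain ⟨n, hn⟩ := hint (some c)
        refine ⟨n, ?_⟩
        have hconst : ∀ s, φ (vel X P a c s) = φ (VR X P a 0 c X.e) := by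
          intro s
          obtain ⟨N, l, hl, e⟩ := vel_interp X P a c s
          rw [e, map_sum]
          have : ∀ t ∈ Finset.range (N + 1), φ (l t • VR X P a (t : ℕ) c X.e) =
              l t * φ (VR X P a 0 c X.e) := by
            intro t _
            rw [map_smul, smul_eq_mul, hV0 X.e X.he]
          rw [Finset.sum_congr rfl this, ← Finset.sum_mul, hl, one_mul]
        have h1 := (hpath c).2 φ hkill _ hconst 1
        rw [mul_one, beta_one, hn] at h1
        show φ (VR X P a 0 c X.e) = _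
        rw [← h1]
        push_cast
        rfl
    -- conclusion
    let W' : Submodule ℚ (Ix κ → MatQ m) :=
      { carrier := {q | q ∈ B.Q ∧ φ (castM q) = 0}
        add_mem' := fun {x y} hx hy => ⟨B.Q.add_mem hx.1 hy.1, by
          rw [H18.castM_add, map_add, hx.2, hy.2, add_zero]⟩
        zero_mem' := ⟨B.Q.zero_mem, by rw [H18.castM_zero, map_zero]⟩
        smul_mem' := fun c x hx => ⟨B.Q.smul_mem c hx.1, by
          rw [H18.castM_smul, map_smul, hx.2, smul_zero]⟩ }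
    have hle : B.Q ≤ W' := by
      refine hmin W' ?_ ?_
      · rintro q hq
        refine ⟨hSB hq, ?_⟩
        rcases hq with ⟨w, hw, n, e⟩ | ⟨w, hw, n, c, e⟩
        · rw [e, hD0' _ (H18.castM_mem_rs hw), hψ w hw]
        · rw [e, hV0 _ (H18.castM_mem_rs hw), hχ c w hw]
      · rintro q ⟨hq, -⟩ r ⟨hr, -⟩
        refine ⟨B.lie q hq r hr, ?_⟩
        rw [H18.castM_sub, H18.castM_mul, H18.castM_mul]
        exact hkill _ (H18.castM_mem_rs hq) _ (H18.castM_mem_rs hr)
    intro v hv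
    have hker : B.V ≤ LinearMap.ker φ := by
      refine Submodule.span_le.2 ?_
      rintro x ⟨q, hq, rfl⟩
      exact (hle hq).2
    exact hker hv

end MPd26.Nil
end
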