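import Pool.Agent.Lib.MP_d26cd8_an.Nil.H18Base
import Pool.Agent.Lib.MP_d26cd8_an.Nil.PolGen
import Pool.Agent.Lib.MP_d26cd8_an.Nil.Haar
import Pool.Agent.Lib.MP_d26cd8_an.Nil.Mal
import Pool.Agent.Lib.MP_d26cd8_an.Nil.PolyV
import Pool.Agent.Lib.MP_d26cd8_an.Nil.NT_OrthS
import Pool.Agent.Lib.MP_d26cd8_an.Nil.NTSpec

section
/-!
# MP_d26cd8_an, Nil: SIDE (4.3), invariance of joinings under side groups (helper29)
-/
set_option autoImplicit false

open MeasureTheory Filter Topology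

namespace MPd26.Nil

namespace SideM

open RatM PathM DiscM OrbM

variable {ι : Type} {m : ℕ}

/-- integral points are rational functions -/
lemma exists_castM_int {g : ι → UT m} (hg : IntP g) :
    ∃ G : ι → MatQ m, castM G = fun i => (g i).mat := by
  choose z hz using hg
  refine ⟨fun i => Matrix.of fun j k => (z i j k : ℚ), ?_⟩
  funext i; ext j k
  show (((z i j k : ℤ) : ℚ) : ℝ) = (g i).mat j k
  rw [hz]; push_cast; rfl

/-- conjugation by an integral point preserves rationality -/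
lemma exists_Ad_castM {g : ι → UT m} (hg : IntP g) (b : ι → MatQ m) :
    ∃ q : ι → MatQ m, castM q = Ad g (castM b) := by
  obtain ⟨G, hG⟩ := exists_castM_int hg
  obtain ⟨G', hG'⟩ := exists_castM_int hg.inv
  refine ⟨G * b * G', ?_⟩
  rw [castM_mul, castM_mul, hG, hG']
  rfl

/-- the function `w` on the coordinates in `a`, zero elsewhere -/
noncomputable def ind {R : Type*} [Zero R] (a : Set ι) (v : Unit → R) : ι → R :=
  a.indicator fun _ => v ()

lemma ind_add {R : Type*} [AddMonoid R] (a : Set ι) (v w : Unit → R) :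
    ind a (v + w) = ind a v + ind a w := by
  classical
  funext i
  simp only [ind, Set.indicator, Pi.add_apply]
  split_ifs <;> simp

lemma ind_zero {R : Type*} [Zero R] (a : Set ι) : ind a (0 : Unit → R) = 0 := by
  classical
  funext i
  simp [ind, Set.indicator]

lemma ind_smul {K R : Type*} [Zero R] [SMulZeroClass K R] (a : Set ι) (c : K) (v : Unit → R) :
    ind a (c • v) = c • ind a v := by
  classical
  funext i
  simp only [ind, Set.indicator, Pi.smul_apply]
  split_ifs <;> simp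

lemma ind_mul {R : Type*} [MulZeroClass R] (a : Set ι) (v w : Unit → R) :
    ind a (v * w) = ind a v * ind a w := by
  classical
  funext i
  simp only [ind, Set.indicator, Pi.mul_apply]
  split_ifs <;> simp

lemma ind_sub {R : Type*} [AddGroup R] (a : Set ι) (v w : Unit → R) :
    ind a (v - w) = ind a v - ind a w := by
  classical
  funext i
  simp only [ind, Set.indicator, Pi.sub_apply]
  split_ifs <;> simp

lemma castM_ind (a : Set ι) (q : Unit → MatQ m) : castM (ind a q) = ind a (castM q) := by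
  classical
  funext i; ext j k
  simp only [ind, Set.indicator, castM]
  by_cases h : i ∈ a
  · simp [h]
  · simp [h]

/-- the linear map `ind` -/
noncomputable def indL (K R : Type*) [Semiring K] [AddCommMonoid R] [Module K R] (a : Set ι) :
    (Unit → R) →ₗ[K] (ι → R) where
  toFun := ind a
  map_add' := ind_add a
  map_smul' := ind_smul a

lemma SU_ind (a : Set ι) {v : Unit → Mat m} (hv : SU v) : SU (ind a v) := by
  classical
  intro i
  simp only [ind, Set.indicator]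
  split_ifs
  · exact hv ()
  · exact Lev.zero 1

/-- `Ad` of a constant point and `ind` -/
lemma Ad_ind (a : Set ι) (g : UT m) (v : Unit → Mat m) :
    Ad (fun _ => g) (ind a v) = ind a (Ad (fun _ => g) v) := by
  classical
  funext i
  simp only [ind, Set.indicator, Ad]
  split_ifs
  · rfl
  · simp

/-- conjugates of the rational Lie algebra: rational vectors `q` with `Ad g q ∈ V` -/
noncomputable def conjQ (V : Submodule ℝ (ι → Mat m)) (g : ι → UT m) :
    Submodule ℚ (ι → MatQ m) where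
  carrier := {q | Ad g (castM q) ∈ V}
  add_mem' := fun {a b} ha hb => by
    show Ad g (castM (a + b)) ∈ V
    rw [castM_add, Ad_add]; exact V.add_mem ha hb
  zero_mem' := by
    show Ad g (castM 0) ∈ V
    have : Ad g (0 : ι → Mat m) = 0 := by
      have := Ad_smul g 0 (0 : ι → Mat m)
      simpa using this
    rw [castM_zero, this]; exact V.zero_mem
  smul_mem' := fun c {a} ha => by
    show Ad g (castM (c • a)) ∈ V
    rw [castM_smul, Ad_smul]; exact V.smul_mem _ ha

lemma mem_conjQ {V : Submodule ℝ (ι → Mat m)} {g : ι → UT m} {q : ι → MatQ m} :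
    q ∈ conjQ V g ↔ Ad g (castM q) ∈ V := Iff.rfl

/-- `Ad` as a linear map -/
noncomputable def AdL (g : ι → UT m) : (ι → Mat m) →ₗ[ℝ] (ι → Mat m) where
  toFun := Ad g
  map_add' := Ad_add g
  map_smul' := Ad_smul g

lemma Ad_mem {V : Submodule ℝ (ι → Mat m)} (hN : SpecNilExp) (hV : IsNil V)
    {u y : ι → Mat m} (hu : u ∈ V) (hy : y ∈ V) : Ad (E u) y ∈ V := by
  obtain ⟨-, -, ⟨k, hkb, e⟩⟩ := hN ι m V V (br V) hV (idl_self hV) (idl_br hV) (br_le hV)
      (fun v hv k hk => mem_br hv hk) u hu y hy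
  rw [e]
  exact V.add_mem hy (br_le hV hkb)

lemma Ad_mul_fun (g : ι → UT m) (v w : ι → Mat m) : Ad g (v * w) = Ad g v * Ad g w := by
  funext i
  have hinv : ((g i)⁻¹).mat * (g i).mat = 1 := by
    rw [← UT.mul_mat, inv_mul_cancel]; rfl
  show (g i).mat * (v i * w i) * ((g i)⁻¹).mat =
    ((g i).mat * v i * ((g i)⁻¹).mat) * ((g i).mat * w i * ((g i)⁻¹).mat)
  calc (g i).mat * (v i * w i) * ((g i)⁻¹).mat
      = (g i).mat * v i * 1 * w i * ((g i)⁻¹).mat := by noncomm_ring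
    _ = (g i).mat * v i * (((g i)⁻¹).mat * (g i).mat) * w i * ((g i)⁻¹).mat := by rw [hinv]
    _ = _ := by noncomm_ring

lemma Ad_sub (g : ι → UT m) (v w : ι → Mat m) : Ad g (v - w) = Ad g v - Ad g w :=
  (AdL g).map_sub v w

/-- the key step: `ind v ∈ V'` for all `v ∈ A.V` -/
lemma key (hN : SpecNilExp) (hR : SpecRat) (hRN : SpecRatNil) (A : RAlg Unit m)
    (B : RAlg ι m) {g : ι → UT m} (hg : IntP g) (a : Set ι) {η : Unit → Mat m} (hη : η ∈ A.V)
    (hirr : FlowIrr A (fun _ : Unit => η)) (hB : Ad g (ind a η) ∈ B.V) :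
    ∀ v ∈ A.V, Ad g (ind a v) ∈ B.V := by
  have hVA : IsNil A.V := (hRN Unit m A).1
  have hVB : IsNil B.V := (hRN ι m B).1
  -- the real subalgebra
  let W : Submodule ℝ (Unit → Mat m) :=
    { carrier := {v | v ∈ A.V ∧ Ad g (ind a v) ∈ B.V}
      add_mem' := fun {x y} hx hy => ⟨A.V.add_mem hx.1 hy.1, by
        rw [ind_add, Ad_add]; exact B.V.add_mem hx.2 hy.2⟩
      zero_mem' := ⟨A.V.zero_mem, by
        have := (AdL g).map_zero
        rw [ind_zero]
        change Ad g 0 = 0 at this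
        rw [this]; exact B.V.zero_mem⟩
      smul_mem' := fun c {x} hx => ⟨A.V.smul_mem c hx.1, by
        rw [ind_smul, Ad_smul]; exact B.V.smul_mem c hx.2⟩ }
  have hWA : W ≤ A.V := fun v hv => hv.1
  have hW : IsNil W := by
    refine ⟨?_, fun v hv => hVA.su v hv.1, fun v hv w hw => ⟨hVA.lie v hv.1 w hw.1, ?_⟩⟩
    · have := hVA.fin
      exact Submodule.finiteDimensional_of_le hWA
    · rw [ind_sub, ind_mul, ind_mul, Ad_sub, Ad_mul_fun, Ad_mul_fun]
      exact hVB.lie _ hv.2 _ hw.2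
  suffices h : A.V ≤ W by
    intro v hv; exact (h hv).2
  apply frattini hW hVA hWA
  by_contra hcon
  -- rational version
  let Q' : Submodule ℚ (Unit → MatQ m) :=
    { carrier := {q | q ∈ A.Q ∧ ind a q ∈ conjQ B.V g}
      add_mem' := fun {x y} hx hy => ⟨A.Q.add_mem hx.1 hy.1, by
        rw [ind_add]; exact Submodule.add_mem _ hx.2 hy.2⟩
      zero_mem' := ⟨A.Q.zero_mem, by rw [ind_zero]; exact Submodule.zero_mem _⟩
      smul_mem' := fun c {x} hx => ⟨A.Q.smul_mem c hx.1, by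
        rw [ind_smul]; exact Submodule.smul_mem _ c hx.2⟩ }
  let D : Submodule ℚ A.Q := (Q' ⊔ brQ A.Q A.Q).comap A.Q.subtype
  have hD : D < ⊤ := by
    rw [lt_top_iff_ne_top]
    intro htop
    apply hcon
    unfold RAlg.V
    rw [Submodule.span_le]
    rintro _ ⟨q, hq, rfl⟩
    have h1 : (⟨q, hq⟩ : A.Q) ∈ D := by rw [htop]; trivial
    have h2 : q ∈ Q' ⊔ brQ A.Q A.Q := h1
    obtain ⟨q1, hq1, q2, hq2, rfl⟩ := Submodule.mem_sup.1 h2
    rw [castM_add]
    refine Submodule.add_mem_sup ?_ ?_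
    · refine ⟨Submodule.subset_span ⟨q1, hq1.1, rfl⟩, ?_⟩
      rw [← castM_ind]; exact hq1.2
    · clear h1 h2 hq
      unfold brQ at hq2
      induction hq2 using Submodule.span_induction with
      | mem x hx =>
        obtain ⟨q, hq, r, hr, rfl⟩ := hx
        rw [castM_sub, castM_mul, castM_mul]
        exact mem_br (Submodule.subset_span ⟨q, hq, rfl⟩) (Submodule.subset_span ⟨r, hr, rfl⟩)
      | zero => rw [castM_zero]; exact Submodule.zero_mem _
      | add x y _ _ hx hy => rw [castM_add]; exact Submodule.add_mem _ hx hy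
      | smul c x _ hx => rw [castM_smul]; exact Submodule.smul_mem _ _ hx
  obtain ⟨φ0, hφ0, hker⟩ := Submodule.exists_le_ker_of_lt_top D hD
  -- factor through the quotient
  let L : A.Q →ₗ[ℚ] ((ι → MatQ m) ⧸ conjQ B.V g) :=
    ((conjQ B.V g).mkQ.comp (indL ℚ (MatQ m) a)).comp A.Q.subtype
  have hLker : φ0 ∈ (LinearMap.ker L).dualAnnihilator := by
    rw [Submodule.mem_dualAnnihilator]
    intro q hq
    have h1 : ind a (q : Unit → MatQ m) ∈ conjQ B.V g := by
      rw [LinearMap.mem_ker] at hq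
      exact (Submodule.Quotient.mk_eq_zero _).1 hq
    have h2 : q ∈ D := Submodule.mem_sup_left (⟨q.2, h1⟩ : (q : Unit → MatQ m) ∈ Q')
    exact hker h2
  rw [← LinearMap.range_dualMap_eq_dualAnnihilator_ker] at hLker
  obtain ⟨ψ', hψ'⟩ := hLker
  let ψ : (ι → MatQ m) →ₗ[ℚ] ℚ := ψ'.comp (conjQ B.V g).mkQ
  have hψ1 : ∀ q ∈ conjQ B.V g, ψ q = 0 := by
    intro q hq
    show ψ' ((conjQ B.V g).mkQ q) = 0
    have : (conjQ B.V g).mkQ q = 0 := (Submodule.Quotient.mk_eq_zero _).2 hq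
    rw [this, map_zero]
  have hψ2 : ∀ q : A.Q, ψ (ind a (q : Unit → MatQ m)) = φ0 q := by
    intro q
    rw [← hψ']; rfl
  obtain ⟨Ψ, hΨ⟩ := (hR ι m ⊤).2 ((Algebra.linearMap ℚ ℝ).comp (ψ.comp (Submodule.subtype ⊤)))
  have hΨ' : ∀ q : ι → MatQ m, Ψ (castM q) = (ψ q : ℝ) := fun q => hΨ ⟨q, trivial⟩
  -- `Ψ` kills `V'`
  have hΨ0 : ∀ v : ι → Mat m, Ad g v ∈ B.V → Ψ v = 0 := by
    intro v hv
    have h1 : B.V ≤ LinearMap.ker (Ψ.comp (AdL g⁻¹)) := by
      unfold RAlg.V
      rw [Submodule.span_le]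
      rintro _ ⟨b, hb, rfl⟩
      obtain ⟨q, hq⟩ := exists_Ad_castM hg.inv b
      show Ψ (Ad g⁻¹ (castM b)) = 0
      rw [← hq, hΨ']
      have h2 : q ∈ conjQ B.V g := by
        rw [mem_conjQ, hq, Ad_Ad_inv]
        exact Submodule.subset_span ⟨b, hb, rfl⟩
      rw [hψ1 q h2, Rat.cast_zero]
    have h2 : Ψ (Ad g⁻¹ (Ad g v)) = 0 := h1 hv
    rwa [Ad_inv_Ad] at h2
  let Φ : (Unit → Mat m) →ₗ[ℝ] ℝ := Ψ.comp (indL ℝ (Mat m) a)
  have hΦ : ∀ q : A.Q, Φ (castM (q : Unit → MatQ m)) = (φ0 q : ℝ) := by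
    intro q
    show Ψ (ind a (castM (q : Unit → MatQ m))) = _
    rw [← castM_ind, hΨ', hψ2]
  have hΦrat : RatOn A Φ := fun q hq => ⟨φ0 ⟨q, hq⟩, hΦ ⟨q, hq⟩⟩
  have hΦbr : KillBr A.V Φ := by
    have hb : ∀ q ∈ A.Q, ∀ r ∈ A.Q, Φ (castM q * castM r - castM r * castM q) = 0 := by
      intro q hq r hr
      rw [← castM_mul, ← castM_mul, ← castM_sub]
      have h1 := hΦ ⟨q * r - r * q, A.lie q hq r hr⟩
      have h2 : (⟨q * r - r * q, A.lie q hq r hr⟩ : A.Q) ∈ D :=
        Submodule.mem_sup_right (Submodule.subset_span ⟨q, hq, r, hr, rfl⟩ :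
          q * r - r * q ∈ brQ A.Q A.Q)
      have h3 : φ0 ⟨q * r - r * q, A.lie q hq r hr⟩ = 0 := hker h2
      rw [h3, Rat.cast_zero] at h1
      exact h1
    intro v hv w hw
    unfold RAlg.V at hv hw
    induction hv using Submodule.span_induction with
    | mem v hv =>
      obtain ⟨q, hq, rfl⟩ := hv
      induction hw using Submodule.span_induction with
      | mem w hw =>
        obtain ⟨r, hr, rfl⟩ := hw
        exact hb q hq r hr
      | zero => simp
      | add x y _ _ hx hy =>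
        have e : castM q * (x + y) - (x + y) * castM q
            = (castM q * x - x * castM q) + (castM q * y - y * castM q) := by noncomm_ring
        rw [e, map_add, hx, hy, add_zero]
      | smul c x _ hx =>
        have e : castM q * (c • x) - (c • x) * castM q = c • (castM q * x - x * castM q) := by
          rw [mul_smul_comm, smul_mul_assoc, smul_sub]
        rw [e, map_smul, hx, smul_zero]
    | zero => simp
    | add x y _ _ hx hy =>
      have e : (x + y) * w - w * (x + y) = (x * w - w * x) + (y * w - w * y) := by noncomm_ring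
      rw [e, map_add, hx, hy, add_zero]
    | smul c x _ hx =>
      have e : (c • x) * w - w * (c • x) = c • (x * w - w * x) := by
        rw [mul_smul_comm, smul_mul_assoc, smul_sub]
      rw [e, map_smul, hx, smul_zero]
  have hΦη : Φ η = 0 := hΨ0 _ hB
  have hzero := hirr Φ hΦrat hΦbr (fun _ => hΦη)
  apply hφ0
  ext q
  have h1 := hzero (castM (q : Unit → MatQ m)) (Submodule.subset_span ⟨q, q.2, rfl⟩)
  rw [hΦ q] at h1
  have : φ0 q = 0 := by exact_mod_cast h1
  rw [this]; rfl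

end SideM

open RatM PathM DiscM OrbM SideM

theorem specSide (hN : SpecNilExp) (hR : SpecRat) (hRN : SpecRatNil) (hCpt : SpecCpt)
    (hClass : SpecClass) : SpecSide := by
  classical
  intro ι _ m ξ hξ x0 A hηA hirr J a ρ hρ hinv herg hsupp j v hv g hg
  have hVA : IsNil A.V := (hRN Unit m A).1
  -- the flows
  let ξj : J → ι → Mat m := fun j => ind (a j) (fun _ => ξ)
  have hξj : ∀ j, SU (ξj j) := fun j => SU_ind _ (fun _ => hξ)
  have hfl : ∀ j (t : ℝ), (a j).indicator (fun _ => t • ξ) = t • ξj j := by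
    intro j t
    show (a j).indicator (fun _ => t • ξ) = t • (a j).indicator (fun _ => ξ)
    funext i
    simp only [Set.indicator, Pi.smul_apply]
    split_ifs <;> simp
  obtain ⟨X0, B, hB1, hB2, hB3⟩ := hClass ι m J ξj hξj ρ hρ
    (fun j t => by rw [← hfl]; exact hinv j t)
    (fun S hS hSi => herg S hS (fun j t => by rw [hfl]; exact hSi j t))
  have hVB : IsNil B.V := (hRN ι m B).1
  -- the diagonal point is in the orbit
  let x0c : ι → UT m := fun _ => x0
  have hp : (mkp x0c : ι → NM m) ∈ orb B.V X0 := by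
    by_contra hcon
    have hcl : IsClosed (orb B.V X0) := (hCpt.2 ι m B X0).isClosed
    have hop : IsOpen (orb B.V X0)ᶜ := hcl.isOpen_compl
    obtain ⟨I, O, hO, hsub⟩ := isOpen_pi_iff.1 hop (mkp x0c) hcon
    let O' : Set (NM m) := ⋂ i ∈ I, O i
    have hO' : IsOpen O' := isOpen_biInter_finset fun i hi => (hO i hi).1
    have hmem : ((x0 : UT m) : NM m) ∈ O' := Set.mem_iInter₂.2 fun i hi => (hO i hi).2
    have hpos := hsupp O' hO' hmem
    have hle : {z : ι → NM m | ∀ i, z i ∈ O'} ⊆ (orb B.V X0)ᶜ := by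
      intro z hz
      apply hsub
      intro i hi
      exact Set.mem_iInter₂.1 (hz i) i hi
    have h0 : ρ (orb B.V X0)ᶜ = 0 := by
      rw [prob_compl_eq_zero_iff hcl.measurableSet]
      exact hB3.orb
    have := measure_mono_null hle h0
    rw [this] at hpos
    exact lt_irrefl _ hpos
  obtain ⟨u, hu, hup⟩ := hp
  have hint : IntP ((X0 * E u)⁻¹ * x0c) := mkp_eq.1 hup.symm
  set g' : ι → UT m := (X0 * E u)⁻¹ * x0c with hg'
  have hx0 : x0c = X0 * E u * g' := by rw [hg']; group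
  set η : Unit → Mat m := Ad (fun _ => x0⁻¹) (fun _ => ξ) with hη
  have hBη : Ad g' (ind (a j) η) ∈ B.V := by
    have e1 : ind (a j) η = Ad x0c⁻¹ (ξj j) := by
      rw [hη]
      exact (Ad_ind (a j) x0⁻¹ (fun _ => ξ)).symm
    have e2 : g' * x0c⁻¹ = (E u)⁻¹ * X0⁻¹ := by rw [hg']; group
    rw [e1, ← Ad_mul, e2, Ad_mul, ← E_neg (hVB.su u hu)]
    exact Ad_mem hN hVB (B.V.neg_mem hu) (hB1 j)
  have hk := key hN hR hRN A B hint (a j) hηA hirr hBη v hv
  have hsu : SU (ind (a j) v) := SU_ind _ (hVA.su v hv)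
  have hge : g = X0 * E (Ad (E u) (Ad g' (ind (a j) v))) * X0⁻¹ := by
    rw [E_Ad _ (SU_Ad _ hsu), E_Ad _ hsu]
    have e3 : X0 * (E u * (g' * E (ind (a j) v) * g'⁻¹) * (E u)⁻¹) * X0⁻¹ =
        (X0 * E u * g') * E (ind (a j) v) * (X0 * E u * g')⁻¹ := by group
    rw [e3, ← hx0]
    funext i
    by_cases hi : i ∈ a j
    · rw [(hg i).1 hi]
      show x0 * expU (v ()) * x0⁻¹ = x0 * expU ((a j).indicator (fun _ => v ()) i) * x0⁻¹
      rw [Set.indicator_of_mem hi]
    · rw [(hg i).2 hi]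
      show 1 = x0 * expU ((a j).indicator (fun _ => v ()) i) * x0⁻¹
      rw [Set.indicator_of_notMem hi, expU_zero]
      group
  rw [hge]
  exact hB3.inv _ (Ad_mem hN hVB hu hk)

end MPd26.Nil
end

section
/-!
# MP_d26cd8_an, PART NIL: all modules without hypotheses
-/
set_option autoImplicit false

namespace MPd26.Nil.All

theorem nilExp : SpecNilExp := specNilExp
theorem rat : SpecRat := specRat
theorem ratNil : SpecRatNil := specRatNil
theorem char_ : SpecChar := specChar nilExp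
theorem p : SpecP := specP
theorem equi : SpecEqui := specEqui
theorem flag : SpecFlag := specFlag
theorem cpt : SpecCpt := specCpt nilExp ratNil
theorem u : SpecU := specU nilExp ratNil char_ p cpt
theorem haar : SpecHaar := specHaar ratNil u
theorem class_ : SpecClass := specClass nilExp rat ratNil u
theorem side : SpecSide := specSide nilExp rat ratNil cpt class_
theorem mal : SpecMal := specMal nilExp rat ratNil haar
theorem avg : SpecAvg := specAvg nilExp ratNil
theorem e : SpecE := specE nilExp ratNil cpt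
theorem pol : SpecPol := specPol
theorem polGen : SpecPolGen := specPolGen
theorem path : SpecPath := specPath nilExp
theorem polyV : SpecPolyV := specPolyV nilExp ratNil
theorem poly : SpecPoly := specPoly nilExp ratNil haar cpt u equi polyV
theorem nt0 : SpecNT0 := specNT0 nilExp ratNil haar cpt poly avg

end MPd26.Nil.All
end

section
/-!
# MP_d26cd8_an, module HAARS (helper75): the Haar measure of `N = ⋃ exp(tη) N₀` is the image of
Lebesgue measure on `[0, q/r)` times the Haar measure of `N₀`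
-/
set_option autoImplicit false

open MeasureTheory Filter Topology

namespace MPd26.Nil

namespace HaarSM

open CptM

variable {m : ℕ}

/-- periodic functions: integrals over shifted periods -/
theorem lintegral_shift {G : ℝ → ENNReal} {T : ℝ} (hT : 0 < T) (hG : Function.Periodic G T)
    (s : ℝ) :
    ∫⁻ t in Set.Ico (0 : ℝ) T, G (t + s) = ∫⁻ t in Set.Ico (0 : ℝ) T, G t := by
  have h1 : ∫⁻ t in Set.Ioc (0 : ℝ) (0 + T), G t = ∫⁻ t in Set.Ioc s (s + T), G t :=
    (isAddFundamentalDomain_Ioc hT 0).setLIntegral_eq (isAddFundamentalDomain_Ioc hT s) G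
      (fun g x => hG.map_vadd_zmultiples g x)
  have h2 : ∫⁻ t in Set.Ioc s (s + T), G t = ∫⁻ t in Set.Ioc (0 : ℝ) T, G (t + s) := by
    have hmp := measurePreserving_add_right (volume : Measure ℝ) s
    have hpre : (fun t : ℝ => t + s) ⁻¹' Set.Ioc s (s + T) = Set.Ioc (0 : ℝ) T := by
      ext t
      simp only [Set.mem_preimage, Set.mem_Ioc]
      constructor <;> rintro ⟨h1, h2⟩ <;> constructor <;> linarith
    have h3 := hmp.setLIntegral_comp_preimage_emb (measurableEmbedding_addRight s) G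
      (Set.Ioc s (s + T))
    rw [hpre] at h3
    exact h3.symm
  rw [zero_add] at h1
  rw [restrict_Ico_eq_restrict_Ioc, h1, h2]

theorem act_one_conj (g : Unit → UT m) : (1 : Unit → UT m) * g * (1 : Unit → UT m)⁻¹ = g := by
  group

theorem cont (v : Unit → Mat m) (hv : SU v) :
    Continuous fun x : ℝ × (Unit → NM m) => act (E (x.1 • v)) x.2 := by
  have h := continuous_E_smul hv
  show Continuous fun x : ℝ × (Unit → NM m) => (E (x.1 • v)) • x.2
  exact (h.comp continuous_fst).smul continuous_snd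

theorem cont_act (g : Unit → UT m) : Continuous (act g : (Unit → NM m) → (Unit → NM m)) := by
  show Continuous fun z : Unit → NM m => g • z
  fun_prop

theorem meas_act (g : Unit → UT m) : Measurable (act g : (Unit → NM m) → (Unit → NM m)) :=
  (cont_act g).measurable

theorem meas_orb (A : RAlg Unit m) (f0 : Unit → UT m) : MeasurableSet (orb A.V f0) :=
  (All.cpt.2 Unit m A f0).isClosed.measurableSet

theorem act_comp (g h : Unit → UT m) : (act g : (Unit → NM m) → (Unit → NM m)) ∘ act h =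
    act (g * h) := by
  funext z
  exact UM.act_act g h z

section Gen

variable (S : Split m)

theorem hV : IsNil S.A.V := (All.ratNil Unit m S.A).1
theorem hV0 : IsNil S.X.A.V := (All.ratNil Unit m S.X.A).1

theorem Tpos : (0 : ℝ) < (S.q : ℝ) / S.r :=
  div_pos (Nat.cast_pos.2 S.hq) (Nat.cast_pos.2 S.hr)

theorem phi_pos : (0 : ℝ) < S.φ S.η := by
  rw [S.φη]
  exact div_pos (Nat.cast_pos.2 S.hr) (Nat.cast_pos.2 S.hq)

theorem phi_T : S.φ (((S.q : ℝ) / S.r) • S.η) = 1 := by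
  rw [map_smul, S.φη, smul_eq_mul, div_mul_div_comm, mul_comm, div_self]
  exact (mul_pos (Nat.cast_pos.2 S.hr) (Nat.cast_pos.2 S.hq)).ne'

theorem le_V {v : Unit → Mat m} (hv : v ∈ S.X.A.V) : v ∈ S.A.V := ((S.ker v).1 hv).1

theorem Lg_E_mem {v : Unit → Mat m} (hv : v ∈ S.A.V) : Lg (E v) ∈ S.A.V := by
  rw [NilExpM.Lg_E ((hV S).su v hv)]; exact hv

/-- the normal form of `exp(v) exp(tη)` -/
theorem exists_w {v : Unit → Mat m} (hv : v ∈ S.A.V) (t : ℝ) :
    ∃ w ∈ S.X.A.V, E v * E (t • S.η) = E ((t + S.φ v / S.φ S.η) • S.η) * E w := by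
  set s := S.φ v / S.φ S.η with hs
  have hη := (hV S).su _ S.hη
  have h1 : Lg (E v) ∈ S.A.V := Lg_E_mem S hv
  have h2 : ∀ a : ℝ, Lg (E (a • S.η)) ∈ S.A.V := fun a => Lg_E_mem S (S.A.V.smul_mem _ S.hη)
  have h3 : Lg ((E ((t + s) • S.η))⁻¹) ∈ S.A.V := PathM.inv_mem (h2 _)
  have h4 : Lg (E v * E (t • S.η)) ∈ S.A.V := PathM.mul_mem All.nilExp (hV S) h1 (h2 _)
  refine ⟨Lg ((E ((t + s) • S.η))⁻¹ * (E v * E (t • S.η))), ?_, ?_⟩
  · rw [S.ker]
    refine ⟨PathM.mul_mem All.nilExp (hV S) h3 h4, ?_⟩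
    rw [PathM.phi_mul All.nilExp (hV S) S.kill h3 h4, PathM.phi_mul All.nilExp (hV S) S.kill h1 (h2 _),
      PathM.Lg_inv, NilExpM.Lg_E ((hV S).su v hv), NilExpM.Lg_E (CptM.SU.smul hη _),
      NilExpM.Lg_E (CptM.SU.smul hη _), map_neg, map_smul, map_smul, smul_eq_mul, smul_eq_mul, hs]
    have := (phi_pos S).ne'
    field_simp
    ring
  · rw [NilExpM.E_Lg]
    group

/-- elements of `exp(V₀)` preserve `ν₀` -/
theorem mp_w {ν0 : Measure (Unit → NM m)} (h0 : IsHaar S.X.A.V 1 ν0) {w : Unit → Mat m}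
    (hw : w ∈ S.X.A.V) : MeasurePreserving (act (E w)) ν0 ν0 := by
  have h := h0.inv w hw
  rwa [act_one_conj] at h

/-- conjugation by elements of `exp(V)` preserves `V₀` -/
theorem conj_mem {g h : Unit → UT m} (hg : Lg g ∈ S.A.V) (hh : Lg h ∈ S.X.A.V) :
    Lg (g * h * g⁻¹) ∈ S.X.A.V := by
  have h1 := (S.ker _).1 hh
  have hgi : Lg g⁻¹ ∈ S.A.V := PathM.inv_mem hg
  have hgh : Lg (g * h) ∈ S.A.V := PathM.mul_mem All.nilExp (hV S) hg h1.1
  rw [S.ker]
  refine ⟨PathM.mul_mem All.nilExp (hV S) hgh hgi, ?_⟩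
  rw [PathM.phi_mul All.nilExp (hV S) S.kill hgh hgi,
    PathM.phi_mul All.nilExp (hV S) S.kill hg h1.1, h1.2, PathM.Lg_inv, map_neg]
  ring

/-- integral elements of `exp(V)` preserve `ν₀` -/
theorem mp_int {ν0 : Measure (Unit → NM m)} (h0 : IsHaar S.X.A.V 1 ν0) {g : Unit → UT m}
    (hg : Lg g ∈ S.A.V) (hi : ∀ i, g i ∈ LT m) : MeasurePreserving (act g) ν0 ν0 := by
  have hpr : IsProbabilityMeasure ν0 := h0.prob
  refine ⟨meas_act g, ?_⟩
  obtain ⟨ν', h', huniq⟩ := All.haar Unit m S.X.A 1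
  have hgi : Lg g⁻¹ ∈ S.A.V := PathM.inv_mem hg
  have hH : IsHaar S.X.A.V 1 (ν0.map (act g)) := by
    refine ⟨Measure.isProbabilityMeasure_map (meas_act g).aemeasurable, ?_, ?_⟩
    · rw [Measure.map_apply (meas_act g) (meas_orb S.X.A 1)]
      refine le_antisymm prob_le_one ?_
      rw [← h0.orb]
      refine measure_mono ?_
      intro z hz
      obtain ⟨h, hh, rfl⟩ := (UM.mem_orb (hV0 S)).1 hz
      show act g (mkp (1 * h)) ∈ orb S.X.A.V 1
      refine (UM.mem_orb (hV0 S)).2 ⟨g * h * g⁻¹, conj_mem S hg hh, ?_⟩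
      rw [UM.act_mkp, one_mul, one_mul]
      exact (mkp_mul_of_int (g * h) g⁻¹ fun i => inv_mem (hi i)).symm
    · intro v hv
      rw [act_one_conj]
      refine ⟨meas_act _, ?_⟩
      have hEv : Lg (E v) ∈ S.X.A.V := by
        rw [NilExpM.Lg_E ((hV0 S).su v hv)]; exact hv
      have hw : Lg (g⁻¹ * E v * g) ∈ S.X.A.V := by
        have := conj_mem S hgi hEv
        rwa [inv_inv] at this
      rw [Measure.map_map (meas_act _) (meas_act _), act_comp]
      have e : E v * g = g * E (Lg (g⁻¹ * E v * g)) := by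
        rw [NilExpM.E_Lg]; group
      rw [e, ← act_comp, ← Measure.map_map (meas_act _) (meas_act _), (mp_w S h0 hw).map_eq]
  rw [huniq _ hH, huniq _ h0]

/-- the slice function is periodic -/
theorem periodic {ν0 : Measure (Unit → NM m)} (h0 : IsHaar S.X.A.V 1 ν0) {B : Set (Unit → NM m)}
    (hB : MeasurableSet B) :
    Function.Periodic (fun t : ℝ => ν0 ((act (E (t • S.η))) ⁻¹' B)) ((S.q : ℝ) / S.r) := by
  intro t
  obtain ⟨g, hgi, hgV, hg1⟩ := S.sur
  have hη := (hV S).su _ S.hη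
  set T : ℝ := (S.q : ℝ) / S.r with hT
  have hTV : Lg (E (T • S.η)) ∈ S.A.V := Lg_E_mem S (S.A.V.smul_mem _ S.hη)
  have hgV' : Lg g⁻¹ ∈ S.A.V := PathM.inv_mem hgV
  have hu : Lg (E (T • S.η) * g⁻¹) ∈ S.X.A.V := by
    rw [S.ker]
    refine ⟨PathM.mul_mem All.nilExp (hV S) hTV hgV', ?_⟩
    rw [PathM.phi_mul All.nilExp (hV S) S.kill hTV hgV', PathM.Lg_inv,
      NilExpM.Lg_E (CptM.SU.smul hη _), phi_T, map_neg, hg1]
    ring
  have e : E ((t + T) • S.η) = E (t • S.η) * (E (Lg (E (T • S.η) * g⁻¹)) * g) := by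
    rw [NilExpM.E_Lg, E_add_smul hη]; group
  have hmp : MeasurePreserving (act (E (Lg (E (T • S.η) * g⁻¹)) * g)) ν0 ν0 := by
    rw [← act_comp]
    exact (mp_w S h0 hu).comp (mp_int S h0 hgV hgi)
  show ν0 ((act (E ((t + T) • S.η))) ⁻¹' B) = ν0 ((act (E (t • S.η))) ⁻¹' B)
  rw [e, ← act_comp, Set.preimage_comp]
  exact hmp.measure_preimage (meas_act _ hB).nullMeasurableSet

/-- the measure -/
noncomputable def lam (ν0 : Measure (Unit → NM m)) : Measure (Unit → NM m) :=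
  (((ENNReal.ofReal ((S.r : ℝ) / S.q)) •
      (volume.restrict (Set.Ico (0 : ℝ) ((S.q : ℝ) / S.r)))).prod ν0).map
        (fun x : ℝ × (Unit → NM m) => act (E (x.1 • S.η)) x.2)

theorem lam_apply {ν0 : Measure (Unit → NM m)} (h0 : IsHaar S.X.A.V 1 ν0)
    {B : Set (Unit → NM m)} (hB : MeasurableSet B) :
    lam S ν0 B = ENNReal.ofReal ((S.r : ℝ) / S.q) *
      ∫⁻ t in Set.Ico (0 : ℝ) ((S.q : ℝ) / S.r), ν0 ((act (E (t • S.η))) ⁻¹' B) := by
  have hpr : IsProbabilityMeasure ν0 := h0.prob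
  have hm := (cont S.η ((hV S).su _ S.hη)).measurable
  rw [lam, Measure.map_apply hm hB, Measure.prod_apply (hm hB), lintegral_smul_measure]
  rfl

theorem isHaar_lam {ν0 : Measure (Unit → NM m)} (h0 : IsHaar S.X.A.V 1 ν0) :
    IsHaar S.A.V 1 (lam S ν0) := by
  have hpr : IsProbabilityMeasure ν0 := h0.prob
  have hη := (hV S).su _ S.hη
  have hone : ENNReal.ofReal ((S.r : ℝ) / S.q) * ENNReal.ofReal ((S.q : ℝ) / S.r) = 1 := by
    rw [← ENNReal.ofReal_mul (by positivity), div_mul_div_comm, mul_comm, div_self,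
      ENNReal.ofReal_one]
    exact (mul_pos (Nat.cast_pos.2 S.hq) (Nat.cast_pos.2 S.hr)).ne'
  have huniv : lam S ν0 Set.univ = 1 := by
    rw [lam_apply S h0 MeasurableSet.univ]
    simp only [Set.preimage_univ, measure_univ, lintegral_const, Measure.restrict_apply,
      MeasurableSet.univ, Set.univ_inter, Real.volume_Ico, sub_zero, one_mul]
    exact hone
  refine ⟨⟨huniv⟩, ?_, ?_⟩
  · rw [lam_apply S h0 (meas_orb S.A 1)]
    have h1 : ∀ t : ℝ, ν0 ((act (E (t • S.η))) ⁻¹' (orb S.A.V 1)) = 1 := by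
      intro t
      refine le_antisymm prob_le_one ?_
      rw [← h0.orb]
      refine measure_mono ?_
      intro z hz
      obtain ⟨h, hh, rfl⟩ := (UM.mem_orb (hV0 S)).1 hz
      show act (E (t • S.η)) (mkp (1 * h)) ∈ orb S.A.V 1
      refine (UM.mem_orb (hV S)).2 ⟨E (t • S.η) * h, PathM.mul_mem All.nilExp (hV S)
        (Lg_E_mem S (S.A.V.smul_mem _ S.hη)) (le_V S hh), ?_⟩
      rw [UM.act_mkp, one_mul, one_mul]
    simp only [h1, lintegral_const, Measure.restrict_apply,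
      MeasurableSet.univ, Set.univ_inter, Real.volume_Ico, sub_zero, one_mul]
    exact hone
  · intro v hv
    rw [act_one_conj]
    refine ⟨meas_act _, ?_⟩
    ext B hB
    rw [Measure.map_apply (meas_act _) hB, lam_apply S h0 (meas_act _ hB), lam_apply S h0 hB]
    congr 1
    rw [← lintegral_shift (Tpos S) (periodic S h0 hB) (S.φ v / S.φ S.η)]
    refine lintegral_congr fun t => ?_
    obtain ⟨w, hw, e⟩ := exists_w S hv t
    rw [← Set.preimage_comp, act_comp, e, ← act_comp, Set.preimage_comp]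
    exact (mp_w S h0 hw).measure_preimage (meas_act _ hB).nullMeasurableSet

end Gen

end HaarSM

/-- HAARS -/
theorem specHaarS : SpecHaarS := by
  intro m S ν ν0 h h0
  obtain ⟨ν', _, huniq⟩ := All.haar Unit m S.A 1
  rw [huniq ν h]
  exact (huniq _ (HaarSM.isHaar_lam S h0)).symm

end MPd26.Nil
end

section
/-!
# MP_d26cd8_an, module ORTHG (helper75): the functions `χ(t) G₀(x)` at `exp(tη) x` are continuous
on `N` and invariant
-/
set_option autoImplicit false

open MeasureTheory Filter Topology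

namespace MPd26.Nil

namespace OrthGM

open CptM HaarSM

variable {m : ℕ} (S : Split m)

theorem hη : SU S.η := (hV S).su _ S.hη

theorem hTV (a : ℝ) : Lg (E (a • S.η)) ∈ S.A.V := Lg_E_mem S (S.A.V.smul_mem _ S.hη)

theorem phiT (a : ℝ) : S.φ (Lg (E (a • S.η))) = a * S.φ S.η := by
  rw [NilExpM.Lg_E (CptM.SU.smul (hη S) _), map_smul, smul_eq_mul]

theorem T_mul_phi : ((S.q : ℝ) / S.r) * S.φ S.η = 1 := by
  have := phi_T S
  rwa [map_smul, smul_eq_mul] at this

/-- integral elements with prescribed coordinate -/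
theorem exists_int (n : ℤ) : ∃ g : Unit → UT m, (∀ i, g i ∈ LT m) ∧ Lg g ∈ S.A.V ∧
    S.φ (Lg g) = n := by
  obtain ⟨g, hgi, hgV, hg1⟩ := S.sur
  have hsu : SU (Lg g) := NilExpM.Lg_su g
  refine ⟨E ((n : ℝ) • Lg g), fun i => E_int hsu (fun i => ?_) n i, ?_, ?_⟩
  · have : expU (Lg g i) = g i := congrFun (NilExpM.E_Lg g) i
    rw [this]; exact hgi i
  · rw [NilExpM.Lg_E (CptM.SU.smul hsu _)]
    exact S.A.V.smul_mem _ hgV
  · rw [NilExpM.Lg_E (CptM.SU.smul hsu _), map_smul, hg1, smul_eq_mul, mul_one]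

/-- the splitting is surjective -/
theorem surj {y : Unit → NM m} (hy : y ∈ orb S.A.V 1) :
    ∃ t ∈ Set.Ico (0 : ℝ) ((S.q : ℝ) / S.r), ∃ z ∈ orb S.X.A.V 1, y = act (E (t • S.η)) z := by
  obtain ⟨g, hg, rfl⟩ := (UM.mem_orb (hV S)).1 hy
  set x := S.φ (Lg g) with hx
  obtain ⟨γ, hγi, hγV, hγ⟩ := exists_int S (-⌊x⌋)
  set T : ℝ := (S.q : ℝ) / S.r with hT
  have hT0 : 0 < T := Tpos S
  refine ⟨T * Int.fract x, ⟨mul_nonneg hT0.le (Int.fract_nonneg x), ?_⟩,
    mkp (1 * ((E ((T * Int.fract x) • S.η))⁻¹ * g * γ)), ?_, ?_⟩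
  · calc T * Int.fract x < T * 1 := mul_lt_mul_of_pos_left (Int.fract_lt_one x) hT0
      _ = T := mul_one T
  · refine (UM.mem_orb (hV0 S)).2 ⟨_, ?_, rfl⟩
    have h1 : Lg ((E ((T * Int.fract x) • S.η))⁻¹) ∈ S.A.V := PathM.inv_mem (hTV S _)
    have h2 : Lg ((E ((T * Int.fract x) • S.η))⁻¹ * g) ∈ S.A.V :=
      PathM.mul_mem All.nilExp (hV S) h1 hg
    rw [S.ker]
    refine ⟨PathM.mul_mem All.nilExp (hV S) h2 hγV, ?_⟩
    rw [PathM.phi_mul All.nilExp (hV S) S.kill h2 hγV,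
      PathM.phi_mul All.nilExp (hV S) S.kill h1 hg, PathM.Lg_inv, map_neg, phiT, hγ, ← hx]
    have h3 : T * Int.fract x * S.φ S.η = Int.fract x := by
      rw [mul_right_comm, T_mul_phi, one_mul]
    rw [h3, Int.cast_neg]
    have := Int.fract_add_floor x
    linarith
  · rw [UM.act_mkp]
    have e : E ((T * Int.fract x) • S.η) * (1 * ((E ((T * Int.fract x) • S.η))⁻¹ * g * γ)) =
        g * γ := by group
    rw [e, mkp_mul_of_int _ _ hγi, one_mul]

/-- the coordinate is determined up to integers -/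
theorem coord {t s : ℝ} {z w : Unit → NM m} (hz : z ∈ orb S.X.A.V 1)
    (hw : w ∈ orb S.X.A.V 1) (h : act (E (t • S.η)) z = act (E (s • S.η)) w) :
    ∃ n : ℤ, t * S.φ S.η - s * S.φ S.η = n := by
  obtain ⟨a, ha, rfl⟩ := (UM.mem_orb (hV0 S)).1 hz
  obtain ⟨b, hb, rfl⟩ := (UM.mem_orb (hV0 S)).1 hw
  have ha' := (S.ker _).1 ha
  have hb' := (S.ker _).1 hb
  rw [UM.act_mkp, UM.act_mkp, one_mul, one_mul] at h
  set γ : Unit → UT m := (E (s • S.η) * b)⁻¹ * (E (t • S.η) * a) with hγ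
  have hγi : ∀ i, γ i ∈ LT m := by
    intro i
    have h1 := congrFun h i
    exact QuotientGroup.eq.1 h1.symm
  have h2 : Lg (E (t • S.η) * a) ∈ S.A.V := PathM.mul_mem All.nilExp (hV S) (hTV S _) ha'.1
  have h3 : Lg (E (s • S.η) * b) ∈ S.A.V := PathM.mul_mem All.nilExp (hV S) (hTV S _) hb'.1
  have h4 : Lg ((E (s • S.η) * b)⁻¹) ∈ S.A.V := PathM.inv_mem h3
  obtain ⟨n, hn⟩ := S.int γ hγi (PathM.mul_mem All.nilExp (hV S) h4 h2)
  rw [hγ, PathM.phi_mul All.nilExp (hV S) S.kill h4 h2, PathM.Lg_inv, map_neg,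
    PathM.phi_mul All.nilExp (hV S) S.kill (hTV S _) ha'.1,
    PathM.phi_mul All.nilExp (hV S) S.kill (hTV S _) hb'.1, phiT, phiT, ha'.2, hb'.2] at hn
  exact ⟨n, by linarith⟩

theorem lt_one {t : ℝ} (ht : t ∈ Set.Ico (0 : ℝ) ((S.q : ℝ) / S.r)) : t * S.φ S.η < 1 := by
  rw [← T_mul_phi S]; exact mul_lt_mul_of_pos_right ht.2 (phi_pos S)

theorem act_one (z : Unit → NM m) : act 1 z = z := by
  funext i
  exact one_smul _ _

theorem act_cancel {g : Unit → UT m} {z w : Unit → NM m} (h : act g z = act g w) : z = w := by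
  have h1 := congrArg (act g⁻¹) h
  rwa [UM.act_act, UM.act_act, inv_mul_cancel, act_one, act_one] at h1

/-- uniqueness of the splitting -/
theorem uniq {t s : ℝ} (ht : t ∈ Set.Ico (0 : ℝ) ((S.q : ℝ) / S.r))
    (hs : s ∈ Set.Ico (0 : ℝ) ((S.q : ℝ) / S.r)) {z w : Unit → NM m} (hz : z ∈ orb S.X.A.V 1)
    (hw : w ∈ orb S.X.A.V 1) (h : act (E (t • S.η)) z = act (E (s • S.η)) w) : t = s ∧ z = w := by
  have hts : t = s := by
    obtain ⟨n, hn⟩ := coord S hz hw h
    have hp := phi_pos S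
    have h5 := lt_one S ht
    have h6 := lt_one S hs
    have h7 : 0 ≤ t * S.φ S.η := mul_nonneg ht.1 hp.le
    have h8 : 0 ≤ s * S.φ S.η := mul_nonneg hs.1 hp.le
    have h9 : (n : ℝ) < 1 := by linarith
    have h10 : (-1 : ℝ) < n := by linarith
    have h11 : n < 1 := by exact_mod_cast h9
    have h12 : -1 < n := by exact_mod_cast h10
    have h13 : n = 0 := by omega
    rw [h13, Int.cast_zero] at hn
    have h14 : t * S.φ S.η = s * S.φ S.η := by linarith
    exact mul_right_cancel₀ hp.ne' h14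
  refine ⟨hts, ?_⟩
  subst hts
  exact act_cancel h

/-- end point of the period -/
theorem uniq_end {s : ℝ} (hs : s ∈ Set.Ico (0 : ℝ) ((S.q : ℝ) / S.r)) {z w : Unit → NM m}
    (hz : z ∈ orb S.X.A.V 1) (hw : w ∈ orb S.X.A.V 1)
    (h : act (E (((S.q : ℝ) / S.r) • S.η)) z = act (E (s • S.η)) w) : s = 0 := by
  obtain ⟨n, hn⟩ := coord S hz hw h
  have hp := phi_pos S
  have h6 := lt_one S hs
  have h8 : 0 ≤ s * S.φ S.η := mul_nonneg hs.1 hp.le
  rw [T_mul_phi] at hn
  have h9 : (0 : ℝ) < n := by linarith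
  have h10 : (n : ℝ) ≤ 1 := by linarith
  have h11 : 0 < n := by exact_mod_cast h9
  have h12 : n ≤ 1 := by exact_mod_cast h10
  have h13 : n = 1 := by omega
  rw [h13, Int.cast_one] at hn
  have h14 : s * S.φ S.η = 0 := by linarith
  exact (mul_eq_zero.1 h14).resolve_right hp.ne'

theorem act_mem (t : ℝ) {z : Unit → NM m} (hz : z ∈ orb S.X.A.V 1) :
    act (E (t • S.η)) z ∈ orb S.A.V 1 := by
  obtain ⟨h, hh, rfl⟩ := (UM.mem_orb (hV0 S)).1 hz
  refine (UM.mem_orb (hV S)).2 ⟨E (t • S.η) * h, PathM.mul_mem All.nilExp (hV S)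
    (hTV S t) (le_V S hh), ?_⟩
  rw [UM.act_mkp, one_mul, one_mul]

theorem act_mem0 {w : Unit → Mat m} (hw : w ∈ S.X.A.V) {z : Unit → NM m}
    (hz : z ∈ orb S.X.A.V 1) : act (E w) z ∈ orb S.X.A.V 1 := by
  have hEw : Lg (E w) ∈ S.X.A.V := by
    rw [NilExpM.Lg_E ((hV0 S).su w hw)]; exact hw
  have h := UM.act_mem All.nilExp (hV0 S) (f0 := 1) hEw hz
  rwa [act_one_conj] at h

open Classical in
/-- the function -/
noncomputable def GG (χ : ℝ → ℂ) (G0 : (Unit → NM m) → ℂ) (y : Unit → NM m) : ℂ :=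
  if h : y ∈ orb S.A.V 1 then
    χ (surj S h).choose * G0 (surj S h).choose_spec.2.choose else 0

theorem GG_eq (χ : ℝ → ℂ) (G0 : (Unit → NM m) → ℂ) {t : ℝ}
    (ht : t ∈ Set.Ico (0 : ℝ) ((S.q : ℝ) / S.r)) {z : Unit → NM m} (hz : z ∈ orb S.X.A.V 1) :
    GG S χ G0 (act (E (t • S.η)) z) = χ t * G0 z := by
  have h := act_mem S t hz
  rw [GG, dif_pos h]
  have h1 := (surj S h).choose_spec
  have h2 := h1.2.choose_spec
  obtain ⟨e1, e2⟩ := uniq S ht h1.1 hz h2.1 h2.2
  exact congrArg₂ (fun a b => χ a * G0 b) e1.symm e2.symm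

theorem lcs_le' (k : ℕ) : lcs S.A.Q k ≤ S.A.Q := by
  induction k with
  | zero => exact le_rfl
  | succ k ih => exact (lcs_anti S.A k).trans ih

theorem lcs_idl (k : ℕ) : IsIdl S.A.V (rs (lcs S.A.Q k)) :=
  (All.ratNil Unit m S.A).2 _ (lcs_le' S k) (lcs_anti S.A k)

/-- the conjugates of elements of `lcs` -/
theorem conj_lcs {k : ℕ} (hk : 1 ≤ k) (t : ℝ) {v : Unit → Mat m} (hv : v ∈ rs (lcs S.A.Q k)) :
    ∃ w ∈ rs (dlcs S.X.A.Q S.X.δ k), w ∈ S.X.A.V ∧
      E v * E (t • S.η) = E (t • S.η) * E w := by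
  have hI := lcs_idl S k
  have hη' := hη S
  have e0 : (E (t • S.η))⁻¹ = E ((-t) • S.η) := (E_neg_smul hη' t).symm
  have hvV : v ∈ S.A.V := hI.le hv
  obtain ⟨κ, hκ, e⟩ := NilExpM.Ad_E_mem (hV S) hI (fun v hv k hk => hI.mem v hv k hk)
    (S.A.V.smul_mem (-t) S.hη) hv
  have hw : Ad (E ((-t) • S.η)) v ∈ rs (lcs S.A.Q k) := by
    rw [e]; exact Submodule.add_mem _ hv hκ
  have hle : rs (lcs S.A.Q k) ≤ rs (dlcs S.X.A.Q S.X.δ k) := rs_mono (S.lcs_le k hk)
  have hle2 : rs (dlcs S.X.A.Q S.X.δ k) ≤ S.X.A.V := rs_mono (NT0M.dlcs_le S.X k)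
  refine ⟨_, hle hw, hle2 (hle hw), ?_⟩
  rw [NilExpM.E_Ad _ ((hV S).su v hvV), ← e0]
  group

end OrthGM

open OrthGM HaarSM in
/-- ORTHG -/
theorem specOrthG : SpecOrthG := by
  intro m S k hk χ hχ hsupp G0 hG0 hinv
  obtain ⟨a, b, ha, hb, hχ0⟩ := hsupp
  set T : ℝ := (S.q : ℝ) / S.r with hT
  have hT0 : 0 < T := Tpos S
  refine ⟨GG S χ G0, ?_, ?_, fun t ht z hz => GG_eq S χ G0 ht hz⟩
  · have hc1 : CompactSpace (orb S.X.A.V (1 : Unit → UT m)) :=
      isCompact_iff_compactSpace.1 (All.cpt.2 Unit m S.X.A 1)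
    set Φ : (Set.Icc (0 : ℝ) T) × (orb S.X.A.V (1 : Unit → UT m)) → orb S.A.V (1 : Unit → UT m) :=
      fun p => ⟨act (E (p.1.1 • S.η)) p.2.1, act_mem S _ p.2.2⟩ with hΦ
    have hΦc : Continuous Φ := by
      refine Continuous.subtype_mk ?_ _
      exact (cont S.η (OrthGM.hη S)).comp
        ((continuous_subtype_val.comp continuous_fst).prodMk
          (continuous_subtype_val.comp continuous_snd))
    have hΦs : Function.Surjective Φ := by
      rintro ⟨y, hy⟩
      obtain ⟨t, ht, z, hz, e⟩ := surj S hy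
      exact ⟨⟨⟨t, ht.1, ht.2.le⟩, ⟨z, hz⟩⟩, Subtype.ext e.symm⟩
    have hq : Topology.IsQuotientMap Φ := hΦc.isClosedMap.isQuotientMap hΦc hΦs
    rw [continuousOn_iff_continuous_domRestrict, hq.continuous_iff]
    have e : (Set.domRestrict (orb S.A.V (1 : Unit → UT m)) (GG S χ G0)) ∘ Φ =
        fun p => χ p.1.1 * G0 p.2.1 := by
      funext p
      show GG S χ G0 (act (E (p.1.1 • S.η)) p.2.1) = _
      by_cases hp : p.1.1 < T
      · exact GG_eq S χ G0 ⟨p.1.2.1, hp⟩ p.2.2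
      · have hpT : p.1.1 = T := le_antisymm p.1.2.2 (not_lt.1 hp)
        have hχT : χ T = 0 := hχ0 T fun h => absurd h.2 (not_le.2 hb)
        have hχz : χ 0 = 0 := hχ0 0 fun h => absurd h.1 (not_le.2 ha)
        obtain ⟨s, hs, w, hw, e⟩ := surj S (act_mem S T p.2.2)
        have hs0 := uniq_end S hs p.2.2 hw e
        rw [hpT, e, GG_eq S χ G0 hs hw, hs0, hχT, hχz, zero_mul, zero_mul]
    rw [e]
    exact (hχ.comp (continuous_subtype_val.comp continuous_fst)).mul
      ((continuousOn_iff_continuous_domRestrict.1 hG0).comp continuous_snd)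
  · intro v hv y hy
    obtain ⟨t, ht, z, hz, rfl⟩ := surj S hy
    obtain ⟨w, hw, hwV, e⟩ := conj_lcs S hk t hv
    rw [UM.act_act, e, ← UM.act_act, GG_eq S χ G0 ht (act_mem0 S hwV hz), GG_eq S χ G0 ht hz,
      hinv w hw z hz]

end MPd26.Nil
end
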