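import Pool.Agent.Lib.MP_d26cd8_an.Nil.NTSpec

section
/-!
# MP_d26cd8_an: module POLQ (helper15)

`p(qn + ρ) = p(ρ) + q Q(n)` with `Q` integral, of the same degree.
-/
set_option autoImplicit false

open Polynomial

namespace MPd26.Nil

namespace PolQM

theorem ex (p : ℤ[X]) (q : ℕ) (ρ : ℤ) : ∃ Q : ℤ[X],
    C (q : ℤ) * Q = p.comp (C (q : ℤ) * X + C ρ) - C (p.eval ρ) := by
  have h := Polynomial.sub_dvd_eval_sub (C (q : ℤ) * X + C ρ) (C ρ) (p.map (C : ℤ →+* ℤ[X]))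
  obtain ⟨R, hR⟩ := h
  refine ⟨X * R, ?_⟩
  have e1 : (p.map (C : ℤ →+* ℤ[X])).eval (C (q : ℤ) * X + C ρ) = p.comp (C (q : ℤ) * X + C ρ) := by
    rw [Polynomial.eval_map]; rfl
  have e2 : (p.map (C : ℤ →+* ℤ[X])).eval (C ρ) = C (p.eval ρ) := by
    rw [Polynomial.eval_map, Polynomial.eval₂_at_apply]
  rw [e1, e2] at hR
  rw [hR]
  ring

theorem deg (p Q : ℤ[X]) (q : ℕ) (c ρ : ℤ) (hq : 0 < q)
    (h : C (q : ℤ) * Q = p.comp (C (q : ℤ) * X + C ρ) - C c) : Q.natDegree = p.natDegree := by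
  have hq' : (q : ℤ) ≠ 0 := by exact_mod_cast hq.ne'
  have h1 : (C (q : ℤ) * Q).natDegree = Q.natDegree := Polynomial.natDegree_C_mul hq'
  rw [← h1, h, Polynomial.natDegree_sub_C, Polynomial.natDegree_comp,
    Polynomial.natDegree_linear hq', mul_one]

end PolQM

theorem specPolQ : SpecPolQ := by
  intro l p hp hpp q ρ hq
  choose Q hQ using fun i => PolQM.ex (p i) q ρ
  refine ⟨Q, fun i => ?_, fun i j hij => ?_, fun i n => ?_⟩
  · rw [PolQM.deg (p i) (Q i) q _ ρ hq (hQ i)]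
    exact hp i
  · have h : C (q : ℤ) * (Q i - Q j) = (p i - p j).comp (C (q : ℤ) * X + C ρ) -
        C ((p i).eval ρ - (p j).eval ρ) := by
      rw [mul_sub, hQ i, hQ j, Polynomial.sub_comp, Polynomial.C_sub]
      ring
    rw [PolQM.deg (p i - p j) (Q i - Q j) q _ ρ hq h]
    exact hpp i j hij
  · have h := congrArg (fun P : ℤ[X] => P.eval n) (hQ i)
    simp only [Polynomial.eval_mul, Polynomial.eval_C, Polynomial.eval_sub, Polynomial.eval_comp,
      Polynomial.eval_add, Polynomial.eval_X] at h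
    linarith

end MPd26.Nil
end

section
/-!
# MP_d26cd8_an: module RES (helper15)

Averages along the residue classes modulo `q`.
-/
set_option autoImplicit false

open MeasureTheory Filter Topology

namespace MPd26.Nil

namespace ResM

theorem split (a : ℕ → ℂ) (q M : ℕ) : ∑ n ∈ Finset.range (q * M), a n =
    ∑ ρ ∈ Finset.range q, ∑ n ∈ Finset.range M, a (q * n + ρ) := by
  induction M with
  | zero => simp
  | succ M ih =>
    rw [Nat.mul_succ, Finset.sum_range_add, ih, ← Finset.sum_add_distrib]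
    refine Finset.sum_congr rfl fun ρ _ => ?_
    rw [Finset.sum_range_succ]

theorem bd (a : ℕ → ℂ) (C : ℝ) (ha : ∀ n, ‖a n‖ ≤ C) (q N : ℕ) (hq : 0 < q) (hN : 0 < N) :
    ‖((N : ℂ))⁻¹ * ∑ n ∈ Finset.range N, a n‖ ≤
      ∑ ρ ∈ Finset.range q, ‖(((N / q : ℕ) : ℂ))⁻¹ * ∑ n ∈ Finset.range (N / q), a (q * n + ρ)‖ +
        q * C * ((N : ℝ))⁻¹ := by
  have hC : 0 ≤ C := (norm_nonneg _).trans (ha 0)
  obtain ⟨M, s, hM, hs, hNs⟩ : ∃ M s : ℕ, M = N / q ∧ s < q ∧ N = q * M + s :=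
    ⟨N / q, N % q, rfl, Nat.mod_lt _ hq, (Nat.div_add_mod N q).symm⟩
  rw [← hM]
  have hN0 : (0 : ℝ) < N := by exact_mod_cast hN
  have h1 : ∑ n ∈ Finset.range N, a n =
      ∑ ρ ∈ Finset.range q, ∑ n ∈ Finset.range M, a (q * n + ρ) +
        ∑ n ∈ Finset.range s, a (q * M + n) := by
    conv_lhs => rw [hNs]
    rw [Finset.sum_range_add, split]
  rw [h1, mul_add]
  refine (norm_add_le _ _).trans (add_le_add ?_ ?_)
  · rw [Finset.mul_sum]
    refine (norm_sum_le _ _).trans (Finset.sum_le_sum fun ρ _ => ?_)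
    rw [norm_mul, norm_mul, norm_inv, norm_inv, Complex.norm_natCast, Complex.norm_natCast]
    rcases Nat.eq_zero_or_pos M with h0 | h0
    · simp [h0]
    · have h0' : (0 : ℝ) < M := by exact_mod_cast h0
      have hMN : M ≤ N := by
        rw [hM]; exact Nat.div_le_self _ _
      have hMN' : (M : ℝ) ≤ N := by exact_mod_cast hMN
      exact mul_le_mul_of_nonneg_right (inv_anti₀ h0' hMN') (norm_nonneg _)
  · rw [norm_mul, norm_inv, Complex.norm_natCast, mul_comm]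
    refine mul_le_mul_of_nonneg_right ?_ (inv_nonneg.mpr hN0.le)
    refine (norm_sum_le _ _).trans ((Finset.sum_le_sum fun n _ => ha (q * M + n)).trans ?_)
    rw [Finset.sum_const, Finset.card_range, nsmul_eq_mul]
    have : (s : ℝ) ≤ q := by exact_mod_cast hs.le
    exact mul_le_mul_of_nonneg_right this hC

theorem bd2 (a : ℕ → ℂ) (C : ℝ) (ha : ∀ n, ‖a n‖ ≤ C) (q N : ℕ) (hq : 0 < q) (hN : 0 < N) :
    ‖((N : ℂ))⁻¹ * ∑ n ∈ Finset.range N, a n‖ ^ 2 ≤
      2 * q * ∑ ρ ∈ Finset.range q,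
        ‖(((N / q : ℕ) : ℂ))⁻¹ * ∑ n ∈ Finset.range (N / q), a (q * n + ρ)‖ ^ 2 +
        2 * (q * C * ((N : ℝ))⁻¹) ^ 2 := by
  have h := bd a C ha q N hq hN
  set x := ∑ ρ ∈ Finset.range q,
    ‖(((N / q : ℕ) : ℂ))⁻¹ * ∑ n ∈ Finset.range (N / q), a (q * n + ρ)‖ with hx
  have h2 : x ^ 2 ≤ q * ∑ ρ ∈ Finset.range q,
      ‖(((N / q : ℕ) : ℂ))⁻¹ * ∑ n ∈ Finset.range (N / q), a (q * n + ρ)‖ ^ 2 := by
    have := @sq_sum_le_card_mul_sum_sq ℕ ℝ _ _ _ _ (Finset.range q)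
      (fun ρ => ‖(((N / q : ℕ) : ℂ))⁻¹ * ∑ n ∈ Finset.range (N / q), a (q * n + ρ)‖)
    rwa [Finset.card_range] at this
  have h3 : ‖((N : ℂ))⁻¹ * ∑ n ∈ Finset.range N, a n‖ ^ 2 ≤ (x + q * C * ((N : ℝ))⁻¹) ^ 2 :=
    pow_le_pow_left₀ (norm_nonneg _) h 2
  nlinarith [sq_nonneg (x - q * C * ((N : ℝ))⁻¹)]

end ResM

theorem specRes : SpecRes := by
  intro Ω _ ν hν a C hm hb q hq h
  have hI : ∀ (M : ℕ) (b : ℕ → ℕ), Integrable
      (fun z => ‖((M : ℂ))⁻¹ * ∑ n ∈ Finset.range M, a (b n) z‖ ^ 2) ν := by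
    intro M b
    have hmeas : Measurable (fun z => ‖((M : ℂ))⁻¹ * ∑ n ∈ Finset.range M, a (b n) z‖ ^ 2) :=
      ((Finset.measurable_fun_sum _ fun n _ => hm (b n)).const_mul _).norm.pow_const 2
    refine Integrable.of_bound hmeas.aestronglyMeasurable ((‖((M : ℂ))⁻¹‖ * (M * C)) ^ 2)
      (Filter.Eventually.of_forall fun z => ?_)
    rw [Real.norm_of_nonneg (by positivity)]
    refine pow_le_pow_left₀ (norm_nonneg _) ?_ 2
    rw [norm_mul]
    refine mul_le_mul_of_nonneg_left ?_ (norm_nonneg _)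
    refine (norm_sum_le _ _).trans ((Finset.sum_le_sum fun n _ => hb (b n) z).trans ?_)
    rw [Finset.sum_const, Finset.card_range, nsmul_eq_mul]
  have hup : ∀ N : ℕ, 0 < N → ∫ z, ‖((N : ℂ))⁻¹ * ∑ n ∈ Finset.range N, a n z‖ ^ 2 ∂ν ≤
      2 * q * ∑ ρ ∈ Finset.range q, ∫ z, ‖(((N / q : ℕ) : ℂ))⁻¹ *
        ∑ n ∈ Finset.range (N / q), a (q * n + ρ) z‖ ^ 2 ∂ν +
        2 * (q * C * ((N : ℝ))⁻¹) ^ 2 := by
    intro N hN
    have hi2 : Integrable (fun z => ∑ ρ ∈ Finset.range q, ‖(((N / q : ℕ) : ℂ))⁻¹ *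
        ∑ n ∈ Finset.range (N / q), a (q * n + ρ) z‖ ^ 2) ν :=
      integrable_finsetSum _ fun ρ _ => hI (N / q) (fun n => q * n + ρ)
    have h1 := integral_mono (μ := ν) (hI N id) ((hi2.const_mul (2 * (q : ℝ))).add
      (integrable_const (2 * (q * C * ((N : ℝ))⁻¹) ^ 2)))
      (fun z => ResM.bd2 (fun n => a n z) C (fun n => hb n z) q N hq hN)
    refine h1.trans (le_of_eq ?_)
    simp only [Pi.add_apply]
    rw [integral_add (hi2.const_mul _) (integrable_const _), integral_const_mul,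
      integral_finsetSum _ (fun ρ _ => hI (N / q) (fun n => q * n + ρ))]
    simp
  have hdiv : Tendsto (fun N : ℕ => N / q) atTop atTop := Nat.tendsto_div_const_atTop hq.ne'
  have hlim : Tendsto (fun N : ℕ => 2 * (q : ℝ) * ∑ ρ ∈ Finset.range q,
      ∫ z, ‖(((N / q : ℕ) : ℂ))⁻¹ *
        ∑ n ∈ Finset.range (N / q), a (q * n + ρ) z‖ ^ 2 ∂ν +
        2 * (q * C * ((N : ℝ))⁻¹) ^ 2) atTop (𝓝 0) := by
    have e1 : Tendsto (fun N : ℕ => ∑ ρ ∈ Finset.range q,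
      ∫ z, ‖(((N / q : ℕ) : ℂ))⁻¹ *
        ∑ n ∈ Finset.range (N / q), a (q * n + ρ) z‖ ^ 2 ∂ν) atTop (𝓝 0) := by
      have := tendsto_finsetSum (Finset.range q)
        (fun ρ hρ => (h ρ (Finset.mem_range.mp hρ)).comp hdiv)
      simpa using this
    have e2 : Tendsto (fun N : ℕ => 2 * ((q : ℝ) * C * ((N : ℝ))⁻¹) ^ 2) atTop (𝓝 0) := by
      have h0 : Tendsto (fun N : ℕ => ((N : ℝ))⁻¹) atTop (𝓝 0) := tendsto_inv_atTop_nhds_zero_nat
      have := ((h0.const_mul ((q : ℝ) * C)).pow 2).const_mul 2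
      simpa using this
    have := (e1.const_mul (2 * (q : ℝ))).add e2
    simpa using this
  refine tendsto_of_tendsto_of_tendsto_of_le_of_le' tendsto_const_nhds hlim ?_ ?_
  · exact Filter.Eventually.of_forall fun N => integral_nonneg fun z => by positivity
  · filter_upwards [eventually_gt_atTop 0] with N hN using hup N hN

end MPd26.Nil
end
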