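import Pool.Agent.Lib.MP_d26cd8_an.Nil.UT

/-!
# MP_d26cd8_an: nilmanifolds `f₀ exp(V) Γ / Γ ⊂ (NM m)^ι`, definitions

`ι` is an arbitrary index type: functions `ι → Mat m` form an algebra, `E`, `Lg` are pointwise
exponential and logarithm.  Text: /team-store/MP_d26cd8_an_STAGE1_h56.md
-/

set_option autoImplicit false

open MeasureTheory Filter Topology

namespace MPd26.Nil

section Defs
variable {ι : Type} {m : ℕ}

/-- pointwise exponential -/
noncomputable def E (v : ι → Mat m) : ι → UT m := fun i => expU (v i)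

/-- pointwise logarithm -/
noncomputable def Lg (g : ι → UT m) : ι → Mat m := fun i => logU (g i)

/-- pointwise strictly upper triangular -/
def SU (v : ι → Mat m) : Prop := ∀ i, IsSU (v i)

/-- conjugation of Lie algebra elements by group elements, pointwise -/
noncomputable def Ad (g : ι → UT m) (v : ι → Mat m) : ι → Mat m :=
  fun i => (g i).mat * v i * ((g i)⁻¹).mat

/-- finite dimensional Lie algebras of strictly upper triangular matrix valued functions -/
structure IsNil (V : Submodule ℝ (ι → Mat m)) : Prop where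
  fin : FiniteDimensional ℝ V
  su : ∀ v ∈ V, SU v
  lie : ∀ v ∈ V, ∀ w ∈ V, v * w - w * v ∈ V

/-- ideals -/
structure IsIdl (V K : Submodule ℝ (ι → Mat m)) : Prop where
  le : K ≤ V
  mem : ∀ v ∈ V, ∀ k ∈ K, v * k - k * v ∈ K

/-- the group `exp V` as a set -/
def GV (V : Submodule ℝ (ι → Mat m)) : Set (ι → UT m) := {g | Lg g ∈ V}

/-- rational matrices -/
abbrev MatQ (m : ℕ) := Matrix (Fin m) (Fin m) ℚ

/-- rational functions as real functions -/
def castM (q : ι → MatQ m) : ι → Mat m := fun i => (q i).map (fun x : ℚ => (x : ℝ))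

/-- integer valued -/
def IntV (q : ι → MatQ m) : Prop := ∀ i j k, ∃ z : ℤ, q i j k = z

/-- rational nilpotent Lie algebras of functions with values in strictly upper triangular
matrices -/
structure RAlg (ι : Type) (m : ℕ) where
  /-- the rational points -/
  Q : Submodule ℚ (ι → MatQ m)
  fin : FiniteDimensional ℚ Q
  su : ∀ q ∈ Q, SU (castM q)
  lie : ∀ q ∈ Q, ∀ r ∈ Q, q * r - r * q ∈ Q
  bd : ∀ q ∈ Q, ∃ N : ℕ, 0 < N ∧ IntV ((N : ℚ) • q)

/-- the real points -/
def RAlg.V (A : RAlg ι m) : Submodule ℝ (ι → Mat m) := Submodule.span ℝ (castM '' (A.Q : Set _))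

/-- the span of the brackets `[A, R]` -/
def brQ (A R : Submodule ℚ (ι → MatQ m)) : Submodule ℚ (ι → MatQ m) :=
  Submodule.span ℚ {x | ∃ q ∈ A, ∃ r ∈ R, x = q * r - r * q}

/-- lower central series, `lcs A 0 = A`, `lcs A (k+1) = [A, lcs A k]` -/
def lcs (A : Submodule ℚ (ι → MatQ m)) : ℕ → Submodule ℚ (ι → MatQ m)
  | 0 => A
  | k + 1 => brQ A (lcs A k)

/-- real span of a rational subspace -/
def rs (R : Submodule ℚ (ι → MatQ m)) : Submodule ℝ (ι → Mat m) :=
  Submodule.span ℝ (castM '' (R : Set _))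

/-- cosets of points -/
noncomputable def mkp (g : ι → UT m) : ι → NM m := fun i => (g i : NM m)

/-- pointwise action -/
noncomputable def act (g : ι → UT m) (z : ι → NM m) : ι → NM m := fun i => g i • z i

/-- the orbit `f₀ exp(V) Γ / Γ` -/
noncomputable def orb (V : Submodule ℝ (ι → Mat m)) (f0 : ι → UT m) : Set (ι → NM m) :=
  {z | ∃ v ∈ V, z = mkp (f0 * E v)}

/-- the invariant probability of `f₀ exp(V) Γ / Γ` -/
structure IsHaar (V : Submodule ℝ (ι → Mat m)) (f0 : ι → UT m) (ν : Measure (ι → NM m)) :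
    Prop where
  prob : IsProbabilityMeasure ν
  orb : ν (orb V f0) = 1
  inv : ∀ v ∈ V, MeasurePreserving (act (f0 * E v * f0⁻¹)) ν ν

/-- rational functionals of `A` (functionals on `A.V` are restrictions of functionals on the
whole space) -/
def RatOn (A : RAlg ι m) (φ : (ι → Mat m) →ₗ[ℝ] ℝ) : Prop := ∀ q ∈ A.Q, ∃ x : ℚ, φ (castM q) = x

/-- `φ` vanishes on the brackets of `V` -/
def KillBr (V : Submodule ℝ (ι → Mat m)) (φ : (ι → Mat m) →ₗ[ℝ] ℝ) : Prop :=
  ∀ v ∈ V, ∀ w ∈ V, φ (v * w - w * v) = 0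

/-- horizontal irrationality of a family of vectors: no nonzero rational functional vanishes on
the brackets and on all `η j` -/
def FlowIrr (A : RAlg ι m) {J : Type} (η : J → ι → Mat m) : Prop :=
  ∀ φ : (ι → Mat m) →ₗ[ℝ] ℝ, RatOn A φ → KillBr A.V φ → (∀ j, φ (η j) = 0) → ∀ v ∈ A.V, φ v = 0

end Defs

end MPd26.Nil
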