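import Pool.Agent.Lib.MP_d26cd8_an.Nil.NTSpec
import Pool.Agent.Lib.MP_d26cd8_an.Nil.H18Base

section
/-!
# MP_d26cd8_an, Nil, module NT: NT1 (helper96)
-/
set_option autoImplicit false

open MeasureTheory Filter Topology

namespace MPd26.Nil

namespace NT1M

open RatM PathM DiscM OrbM

variable {m : ℕ}

lemma killBr_of {A : RAlg Unit m} {ψ : (Unit → Mat m) →ₗ[ℝ] ℝ}
    (hbr : ∀ x ∈ A.Q, ∀ z ∈ A.Q, ψ (castM (x * z - z * x)) = 0) : KillBr A.V ψ := by
  intro v hv w hw
  unfold RAlg.V at hv hw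
  induction hv using Submodule.span_induction with
  | mem v hv =>
    obtain ⟨x, hx, rfl⟩ := hv
    induction hw using Submodule.span_induction with
    | mem w hw =>
      obtain ⟨z, hz, rfl⟩ := hw
      rw [← castM_mul, ← castM_mul, ← castM_sub]
      exact hbr x hx z hz
    | zero => rw [mul_zero, zero_mul, sub_zero, map_zero]
    | add y z _ _ hy hz =>
      have e : castM x * (y + z) - (y + z) * castM x =
          (castM x * y - y * castM x) + (castM x * z - z * castM x) := by noncomm_ring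
      rw [e, map_add, hy, hz, add_zero]
    | smul a y _ hy =>
      rw [mul_smul_comm, smul_mul_assoc, ← smul_sub, map_smul, hy, smul_zero]
  | zero => rw [mul_zero, zero_mul, sub_zero, map_zero]
  | add y z _ _ hy hz =>
    have e : (y + z) * w - w * (y + z) = (y * w - w * y) + (z * w - w * z) := by noncomm_ring
    rw [e, map_add, hy, hz, add_zero]
  | smul a y _ hy =>
    rw [mul_smul_comm, smul_mul_assoc, ← smul_sub, map_smul, hy, smul_zero]

lemma lcs_le_dlcs0 (A : Submodule ℚ (Unit → MatQ m)) (δ : Unit → MatQ m) (k : ℕ) :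
    lcs A k ≤ dlcs A δ k := by
  induction k with
  | zero => exact le_rfl
  | succ k ih =>
    change brQ A (lcs A k) ≤ dlcs A δ (k + 1)
    unfold brQ
    rw [Submodule.span_le]
    rintro _ ⟨q, hq, r, hr, rfl⟩
    exact Submodule.subset_span (Or.inl ⟨q, hq, r, ih hr, rfl⟩)

end NT1M

open RatM PathM DiscM OrbM NT1M

theorem specNT1 (hS : SpecSplit) (h2 : SpecNT2) (h0 : SpecNT0) : SpecNT1 := by
  intro m A η hη hirr ν hν l hl p hp hpp F hF j horth
  by_cases h : ∃ φ : (Unit → Mat m) →ₗ[ℝ] ℝ, RatOn A φ ∧ KillBr A.V φ ∧ (∃ x : ℚ, φ η = x) ∧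
      ∃ v ∈ A.V, φ v ≠ 0
  · obtain ⟨S, rfl, rfl⟩ := hS m A η hη hirr h
    exact h2 m S ν hν l hl p hp hpp F hF j horth
  · push Not at h
    let X : NData m :=
      { A := A
        δ := 0
        su := by rw [castM_zero]; exact SU_zero
        int := by
          rw [castM_zero]
          show expU (0 : Mat m) ∈ LT m
          rw [expU_zero]; exact (LT m).one_mem
        der := fun q _ => by rw [zero_mul, mul_zero, sub_zero]; exact A.Q.zero_mem
        e := η
        he := hη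
        irr := by
          intro φ hφ h1 ⟨x, hx⟩ q hq
          have hk : KillBr A.V φ := by
            refine killBr_of fun a ha b hb => h1 _ ?_
            exact Submodule.subset_span (Or.inl ⟨a, ha, b, hb, rfl⟩)
          exact h φ hφ hk ⟨x, hx⟩ _ (Submodule.subset_span ⟨q, hq, rfl⟩) }
    have hτ : X.τ = expU (η ()) := by
      show expU (castM (0 : Unit → MatQ m) () + η ()) = expU (η ())
      rw [castM_zero]
      show expU ((0 : Mat m) + η ()) = expU (η ())
      rw [zero_add]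
    have h3 := h0 m X ν hν l p hp hpp F hF j (fun G hG hGi =>
      horth G hG fun v hv z hz => hGi v
        (Submodule.span_mono (Set.image_mono (lcs_le_dlcs0 A.Q 0 (l - 1))) hv) z hz)
    rw [hτ] at h3
    exact h3

end MPd26.Nil
end

section
/-!
# MP_d26cd8_an: module NTF (NT from NT1, CLASS, E)
-/
set_option autoImplicit false

open MeasureTheory Filter Topology Polynomial

namespace MPd26.Nil

namespace NTFM

variable {m : ℕ}

/-- constant functions on `Unit` -/
def cu (y : NM m) : Unit → NM m := fun _ => y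

lemma continuous_cu : Continuous (cu : NM m → (Unit → NM m)) :=
  continuous_pi fun _ => continuous_id

lemma cu_self (z : Unit → NM m) : cu (z ()) = z := rfl

lemma mp_cu (ν : Measure (NM m)) : MeasurePreserving cu ν (ν.map cu) :=
  ⟨continuous_cu.measurable, rfl⟩

/-- the coordinate change `y ↦ x₀⁻¹ y` -/
noncomputable def cx (x0 : UT m) (y : NM m) : Unit → NM m := fun _ => x0⁻¹ • y

lemma continuous_cx (x0 : UT m) : Continuous (cx x0) :=
  continuous_pi fun _ => continuous_const_smul x0⁻¹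

lemma act_cu (x0 : Unit → UT m) (y : NM m) : act x0⁻¹ (cu y) = cx (x0 ()) y := rfl

lemma expU_eta {x0 : UT m} {ξ : Mat m} (hξ : IsSU ξ) (k : ℤ) :
    expU (Ad (fun _ : Unit => x0)⁻¹ (fun _ => ξ) ()) ^ k = x0⁻¹ * expU ξ ^ k * x0 := by
  have h : expU (Ad (fun _ : Unit => x0)⁻¹ (fun _ => ξ) ()) = x0⁻¹ * expU ξ * x0 := by
    have h1 := OrbM.E_Ad (fun _ : Unit => x0)⁻¹ (v := fun _ : Unit => ξ) (fun _ => hξ)
    have h2 := congrFun h1 ()
    rw [inv_inv] at h2
    exact h2
  rw [h]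
  have h3 : x0⁻¹ * expU ξ ^ k * x0 = x0⁻¹ * expU ξ ^ k * (x0⁻¹)⁻¹ := by rw [inv_inv]
  have h4 : x0⁻¹ * expU ξ * x0 = x0⁻¹ * expU ξ * (x0⁻¹)⁻¹ := by rw [inv_inv]
  rw [h3, h4, conj_zpow]

lemma expU_eta' {x0 : UT m} {ξ : Mat m} (hξ : IsSU ξ) (k : ℕ) :
    expU ((k : ℝ) • Ad (fun _ : Unit => x0)⁻¹ (fun _ => ξ) ()) = x0⁻¹ * expU ξ ^ k * x0 := by
  have h1 : IsSU (Ad (fun _ : Unit => x0)⁻¹ (fun _ => ξ) ()) :=
    OrbM.SU_Ad (fun _ : Unit => x0)⁻¹ (v := fun _ : Unit => ξ) (fun _ => hξ) ()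
  have h2 := H18.expU_zsmul h1 (k : ℤ)
  rw [Int.cast_natCast] at h2
  rw [h2, expU_eta hξ, zpow_natCast]

end NTFM

open NTFM

theorem specNTF (hN1 : SpecNT1) (hClass : SpecClass) (hE : SpecE) : SpecNT := by
  intro m ξ hξ ν hν hinv herg l hl p hp hpp F hF j hH
  set ξ' : Unit → Mat m := fun _ => ξ with hξ'
  have hξSU : SU ξ' := fun _ => hξ
  have hact : ∀ (t : ℝ) (y : NM m), act (E (t • ξ')) (cu y) = cu (expU (t • ξ) • y) :=
    fun t y => rfl
  have hprob : IsProbabilityMeasure (ν.map cu) :=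
    Measure.isProbabilityMeasure_map continuous_cu.measurable.aemeasurable
  obtain ⟨x0', A, hA, hirr, hHaar⟩ := hClass Unit m Unit (fun _ => ξ') (fun _ => hξSU)
    (ν.map cu) hprob (fun _ t => by
      refine ⟨(OrbM.continuous_act _).measurable, ?_⟩
      rw [Measure.map_map (OrbM.continuous_act _).measurable continuous_cu.measurable]
      have e : act (E (t • ξ')) ∘ cu = cu ∘ fun y : NM m => expU (t • ξ) • y := rfl
      rw [e, ← Measure.map_map continuous_cu.measurable (hinv t).measurable, (hinv t).map_eq])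
    (fun B hB hinvB => by
      rw [Measure.map_apply continuous_cu.measurable hB]
      refine herg _ (continuous_cu.measurable hB) fun t => ?_
      ext y
      have h1 := Set.ext_iff.1 (hinvB () t) (cu y)
      exact h1)
  obtain ⟨x0, rfl⟩ : ∃ x0 : UT m, x0' = fun _ => x0 := ⟨x0' (), rfl⟩
  set η : Unit → Mat m := Ad (fun _ : Unit => x0)⁻¹ ξ' with hη
  have hcx : Measurable (cx x0 : NM m → (Unit → NM m)) := (continuous_cx x0).measurable
  set ν1 : Measure (Unit → NM m) := ν.map (cx x0) with hν1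
  have hν1' : ν1 = (ν.map cu).map (act (fun _ : Unit => x0)⁻¹) := by
    rw [Measure.map_map (OrbM.continuous_act _).measurable continuous_cu.measurable]
    rfl
  have hHaar1 : IsHaar A.V 1 ν1 := by
    refine ⟨Measure.isProbabilityMeasure_map hcx.aemeasurable, ?_, ?_⟩
    · have hm : MeasurableSet (orb A.V (1 : Unit → UT m)) :=
        OrbM.measurable_orb (specRatNil Unit m A).1.su 1
      have hp1 : IsProbabilityMeasure ν1 := Measure.isProbabilityMeasure_map hcx.aemeasurable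
      refine le_antisymm prob_le_one ?_
      rw [hν1', Measure.map_apply (OrbM.continuous_act _).measurable hm, ← hHaar.orb]
      refine measure_mono ?_
      rintro z ⟨v, hv, rfl⟩
      refine ⟨v, hv, ?_⟩
      rw [OrbM.act_mkp, inv_mul_cancel_left, one_mul]
    · intro v hv
      refine ⟨(OrbM.continuous_act _).measurable, ?_⟩
      rw [hν1', Measure.map_map (OrbM.continuous_act _).measurable
        (OrbM.continuous_act _).measurable]
      have e : act (1 * E v * (1 : Unit → UT m)⁻¹) ∘ act (fun _ : Unit => x0)⁻¹ =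
          act (fun _ : Unit => x0)⁻¹ ∘
            act ((fun _ : Unit => x0) * E v * (fun _ : Unit => x0)⁻¹) := by
        funext z
        show act _ (act _ z) = act _ (act _ z)
        rw [← OrbM.act_mul, ← OrbM.act_mul]
        congr 1
        group
      rw [e, ← Measure.map_map (OrbM.continuous_act _).measurable
        (OrbM.continuous_act _).measurable, (hHaar.inv v hv).map_eq]
  set F1 : Fin l → (Unit → NM m) → ℂ := fun i z => F i (x0 • z ()) with hF1
  have hF1m : ∀ i, Measurable (F1 i) := fun i =>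
    (hF i).1.comp ((continuous_const_smul x0).measurable.comp (measurable_pi_apply ()))
  have hF1b : ∀ i, HK.Bdd (F1 i) := fun i => ⟨hF1m i, (hF i).2.imp fun C hC z => hC _⟩
  have key : ∀ (i : Fin l) (k : ℤ) (y : NM m),
      F1 i (fun _ => (expU (η ()) ^ k) • cx x0 y ()) = F i ((expU ξ ^ k) • y) := by
    intro i k y
    show F i (x0 • ((expU (η ()) ^ k) • (x0⁻¹ • y))) = _
    rw [hη, expU_eta hξ, smul_smul, smul_smul]
    congr 2
    group
  have hOrth : Orth A.V (lcs A.Q (l - 1)) ν1 (F1 j) := by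
    refine hE m A η (hA ()) ν1 hHaar1 l (by omega) (F1 j) (hF1b j) fun H hHc => ?_
    have h1 := hH (fun ε y => H ε (cx x0 y)) (fun ε => (hHc ε).comp (continuous_cx x0))
    refine h1.congr fun N => ?_
    congr 1
    refine Finset.sum_congr rfl fun h _ => ?_
    rw [hν1, integral_map hcx.aemeasurable]
    · refine integral_congr_ae (Eventually.of_forall fun y => ?_)
      have e1 : F1 j (cx x0 y) = F j y := by
        show F j (x0 • (x0⁻¹ • y)) = F j y
        rw [smul_inv_smul]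
      show F j y * _ = F1 j (cx x0 y) * _
      rw [e1]
      congr 1
      refine Finset.prod_congr rfl fun ε _ => ?_
      congr 1
      funext u
      show x0⁻¹ • (expU ξ ^ _ • y) = expU (((_ : ℕ) : ℝ) • η ()) • (x0⁻¹ • y)
      rw [hη, expU_eta' hξ, smul_smul, smul_smul]
      congr 1
      group
    · refine ((hF1m j).mul (Finset.measurable_prod _ fun ε _ => ?_)).aestronglyMeasurable
      exact (hHc ε).measurable.comp (OrbM.continuous_act _).measurable
  have h2 := hN1 m A η (hA ()) hirr ν1 hHaar1 l hl p hp hpp F1 hF1b j hOrth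
  refine h2.congr fun N => ?_
  rw [hν1, integral_map hcx.aemeasurable]
  · refine integral_congr_ae (Eventually.of_forall fun y => ?_)
    simp only [key]
  · refine Measurable.aestronglyMeasurable ?_
    refine (Measurable.norm ?_).pow_const 2
    refine measurable_const.mul (Finset.measurable_sum _ fun n _ => ?_)
    refine Finset.measurable_prod _ fun i _ => ?_
    refine (hF1m i).comp (g := F1 i) (f := fun (z : Unit → NM m) (_ : Unit) =>
      (expU (η ()) ^ ((p i).eval (n : ℤ))) • z ()) ?_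
    refine measurable_pi_lambda _ fun _ => ?_
    exact (continuous_const_smul _).measurable.comp (measurable_pi_apply ())

end MPd26.Nil
end

section
/-!
# MP_d26cd8_an, Nil, module NT: SPLIT (helper96)
-/
set_option autoImplicit false

open MeasureTheory Filter Topology

namespace MPd26.Nil

namespace SplitM

open RatM PathM DiscM OrbM

variable {m : ℕ}

/-- existence of an integral point with given integral value of the normalised functional -/
lemma exists_int_pt (hN : SpecNilExp) {V : Submodule ℝ (Unit → Mat m)} (hV : IsNil V)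
    {φ : (Unit → Mat m) →ₗ[ℝ] ℝ} (hk : KillBr V φ)
    (sur : ∃ g : Unit → UT m, (∀ i, g i ∈ LT m) ∧ Lg g ∈ V ∧ φ (Lg g) = 1) (n : ℕ) :
    ∃ g : Unit → UT m, (∀ i, g i ∈ LT m) ∧ Lg g ∈ V ∧ φ (Lg g) = n := by
  obtain ⟨g, hg, hgV, h1⟩ := sur
  induction n with
  | zero => exact ⟨1, fun _ => (LT m).one_mem, by rw [Lg_one]; exact V.zero_mem, by
      rw [Lg_one, map_zero]; simp⟩
  | succ n ih =>
    obtain ⟨h, hh, hhV, hn⟩ := ih
    refine ⟨h * g, fun i => (LT m).mul_mem (hh i) (hg i), mul_mem hN hV hhV hgV, ?_⟩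
    rw [phi_mul hN hV hk hhV hgV, hn, h1]; push_cast; rfl

/-- `dlcs` and `lcs` -/
lemma lcs_le_dlcs (A A0 : Submodule ℚ (Unit → MatQ m)) (δ : Unit → MatQ m)
    (hdec : ∀ q ∈ A, ∃ q0 ∈ A0, ∃ c : ℚ, q = q0 + c • δ) (k : ℕ) (hk : 1 ≤ k) :
    lcs A k ≤ dlcs A0 δ k := by
  induction k, hk using Nat.le_induction with
  | base =>
    change brQ A A ≤ dlcs A0 δ 1
    unfold brQ
    rw [Submodule.span_le]
    rintro _ ⟨q, hq, r, hr, rfl⟩
    obtain ⟨q0, hq0, c, rfl⟩ := hdec q hq
    obtain ⟨r0, hr0, d, rfl⟩ := hdec r hr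
    have h1 : q0 * r0 - r0 * q0 ∈ dlcs A0 δ 1 :=
      Submodule.subset_span (Or.inl ⟨q0, hq0, r0, hr0, rfl⟩)
    have h2 : δ * r0 - r0 * δ ∈ dlcs A0 δ 1 :=
      Submodule.subset_span (Or.inr ⟨r0, hr0, rfl⟩)
    have h3 : δ * q0 - q0 * δ ∈ dlcs A0 δ 1 :=
      Submodule.subset_span (Or.inr ⟨q0, hq0, rfl⟩)
    have e : (q0 + c • δ) * (r0 + d • δ) - (r0 + d • δ) * (q0 + c • δ) =
        (q0 * r0 - r0 * q0) + c • (δ * r0 - r0 * δ) - d • (δ * q0 - q0 * δ) := by
      simp only [mul_add, add_mul, mul_smul_comm, smul_mul_assoc, smul_sub, smul_add]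
      rw [smul_comm c d]
      abel
    rw [SetLike.mem_coe, e]
    exact Submodule.sub_mem _ (Submodule.add_mem _ h1 (Submodule.smul_mem _ _ h2))
      (Submodule.smul_mem _ _ h3)
  | succ k hk ih =>
    change brQ A (lcs A k) ≤ dlcs A0 δ (k + 1)
    unfold brQ
    rw [Submodule.span_le]
    rintro _ ⟨q, hq, r, hr, rfl⟩
    obtain ⟨q0, hq0, c, rfl⟩ := hdec q hq
    have hr' := ih hr
    have h1 : q0 * r - r * q0 ∈ dlcs A0 δ (k + 1) :=
      Submodule.subset_span (Or.inl ⟨q0, hq0, r, hr', rfl⟩)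
    have h2 : δ * r - r * δ ∈ dlcs A0 δ (k + 1) :=
      Submodule.subset_span (Or.inr ⟨r, hr', rfl⟩)
    have e : (q0 + c • δ) * r - r * (q0 + c • δ) =
        (q0 * r - r * q0) + c • (δ * r - r * δ) := by
      simp only [mul_add, add_mul, mul_smul_comm, smul_mul_assoc, smul_sub]
      abel
    rw [SetLike.mem_coe, e]
    exact Submodule.add_mem _ h1 (Submodule.smul_mem _ _ h2)

lemma dlcs_le' {A0 : Submodule ℚ (Unit → MatQ m)} {δ : Unit → MatQ m}
    (hlie : ∀ q ∈ A0, ∀ r ∈ A0, q * r - r * q ∈ A0) (hder : ∀ q ∈ A0, δ * q - q * δ ∈ A0)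
    (k : ℕ) : dlcs A0 δ k ≤ A0 := by
  induction k with
  | zero => exact le_rfl
  | succ k ih =>
    change Submodule.span ℚ _ ≤ A0
    rw [Submodule.span_le]
    rintro _ (⟨q, hq, r, hr, rfl⟩ | ⟨r, hr, rfl⟩)
    · exact hlie q hq r (ih hr)
    · exact hder r (ih hr)

end SplitM

open RatM PathM DiscM OrbM SplitM

theorem specSplit (hN : SpecNilExp) (hR : SpecRat) (hRN : SpecRatNil) : SpecSplit := by
  intro m A η hη hirr ⟨φ0, hφ0, hk0, ⟨x0, hx0⟩, h0⟩
  have hV : IsNil A.V := (hRN _ m A).1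
  obtain ⟨c, hc, hcZ⟩ := norm_phi hN hR hRN A hφ0 hk0 h0
  have hcr : (0 : ℝ) < c := by exact_mod_cast hc
  have hne : φ0 η ≠ 0 := by
    intro h
    obtain ⟨v, hv, hv0⟩ := h0
    exact hv0 (hirr φ0 hφ0 hk0 (fun _ => h) v hv)
  have hx0ne : x0 ≠ 0 := by
    rintro rfl
    exact hne (by rw [hx0]; simp)
  -- the sign
  obtain ⟨s, hs, hsx⟩ : ∃ s : ℚ, (s = 1 ∨ s = -1) ∧ 0 < s * x0 := by
    rcases lt_or_gt_of_ne hx0ne with h | h
    · exact ⟨-1, Or.inr rfl, by linarith⟩
    · exact ⟨1, Or.inl rfl, by linarith⟩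
  have hss : s * s = 1 := by rcases hs with rfl | rfl <;> norm_num
  have hssr : (s : ℝ) * s = 1 := by exact_mod_cast hss
  let φ : (Unit → Mat m) →ₗ[ℝ] ℝ := ((s : ℝ) * (c : ℝ)⁻¹) • φ0
  have hφ : ∀ v, φ v = (s : ℝ) * (c : ℝ)⁻¹ * φ0 v := fun v => rfl
  have hk : KillBr A.V φ := fun v hv w hw => by rw [hφ, hk0 v hv w hw, mul_zero]
  have hrat : RatOn A φ := by
    intro q hq
    obtain ⟨x, hx⟩ := hφ0 q hq
    exact ⟨s * c⁻¹ * x, by rw [hφ, hx]; push_cast; rfl⟩
  -- `s * n` integral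
  have hsn : ∀ n : ℤ, ∃ n' : ℤ, (s : ℝ) * n = n' := by
    intro n
    rcases hs with rfl | rfl
    · exact ⟨n, by simp⟩
    · exact ⟨-n, by push_cast; ring⟩
  have hint : ∀ g : Unit → UT m, (∀ i, g i ∈ LT m) → Lg g ∈ A.V → ∃ n : ℤ, φ (Lg g) = n := by
    intro g hg hgV
    obtain ⟨n, hn⟩ := (hcZ (φ0 (Lg g))).1 ⟨g, hg, hgV, rfl⟩
    obtain ⟨n', hn'⟩ := hsn n
    exact ⟨n', by rw [hφ, hn, ← hn']; field_simp⟩
  have hsur : ∃ g : Unit → UT m, (∀ i, g i ∈ LT m) ∧ Lg g ∈ A.V ∧ φ (Lg g) = 1 := by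
    obtain ⟨n', hn'⟩ := hsn 1
    obtain ⟨g, hg, hgV, hgn⟩ := (hcZ (c * n')).2 ⟨n', rfl⟩
    refine ⟨g, hg, hgV, ?_⟩
    rw [hφ, hgn, ← hn']
    push_cast
    have : (s : ℝ) * (c : ℝ)⁻¹ * (c * (s * 1)) = (s * s) * ((c : ℝ)⁻¹ * c) := by ring
    rw [this, hssr, inv_mul_cancel₀ hcr.ne', one_mul]
  -- the value at `η`
  obtain ⟨y, hy, hyφ⟩ : ∃ y : ℚ, 0 < y ∧ φ η = y := by
    refine ⟨s * x0 * c⁻¹, mul_pos hsx (inv_pos.2 hc), ?_⟩
    rw [hφ, hx0]; push_cast; ring
  set q : ℕ := y.den with hqdef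
  set r : ℕ := y.num.toNat with hrdef
  have hq : 0 < q := y.den_pos
  have hynum : 0 < y.num := Rat.num_pos.2 hy
  have hr : 0 < r := by omega
  have hrn : ((r : ℕ) : ℤ) = y.num := Int.toNat_of_nonneg hynum.le
  have hφη : φ η = (r : ℝ) / q := by
    rw [hyφ]
    have h1 : y = (r : ℚ) / q := by
      conv_lhs => rw [← Rat.num_div_den y]
      rw [← hrn]; push_cast; rfl
    rw [h1]; push_cast; rfl
  have hqr : (q : ℝ) ≠ 0 := by exact_mod_cast hq.ne'
  have hrr : (r : ℝ) ≠ 0 := by exact_mod_cast hr.ne'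
  -- the integral point
  obtain ⟨g, hg, hgV, hgn⟩ := exists_int_pt hN hV hk hsur r
  obtain ⟨N, hN0, hlog⟩ := log_int m
  obtain ⟨δ, hδ, -⟩ := exists_rat (v := Lg g) hN0 (fun i => hlog _ (hg i))
  have hδQ : δ ∈ A.Q := (hR _ m A.Q).1 δ (by rw [hδ]; exact hgV)
  have hδφ : φ (castM δ) = r := by rw [hδ, hgn]
  let A0 : RAlg Unit m := kerA A φ hk
  have hA0V : ∀ v, v ∈ A0.V ↔ v ∈ A.V ∧ φ v = 0 := fun v => mem_kerA_V hrat v
  have hsuδ : SU (castM δ) := by rw [hδ]; exact SU_Lg g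
  have hder : ∀ x ∈ A0.Q, δ * x - x * δ ∈ A0.Q := by
    intro x hx
    refine ⟨A.lie δ hδQ x hx.1, ?_⟩
    rw [castM_sub, castM_mul, castM_mul]
    exact hk _ (Submodule.subset_span ⟨δ, hδQ, rfl⟩) _ (Submodule.subset_span ⟨x, hx.1, rfl⟩)
  have hdec : ∀ x ∈ A.Q, ∃ x0 ∈ A0.Q, ∃ c : ℚ, x = x0 + c • δ := by
    intro x hx
    obtain ⟨y, hy⟩ := hrat x hx
    refine ⟨x - (y / r) • δ, ⟨A.Q.sub_mem hx (A.Q.smul_mem _ hδQ), ?_⟩, y / r, by abel⟩
    rw [castM_sub, castM_smul, map_sub, map_smul, hy, hδφ]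
    push_cast
    rw [smul_eq_mul]; field_simp; ring
  have hdl : ∀ k, dlcs A0.Q δ k ≤ A0.Q := dlcs_le' A0.lie hder
  have hδV : castM δ ∈ A.V := Submodule.subset_span ⟨δ, hδQ, rfl⟩
  have he : (q : ℝ) • η - castM δ ∈ A0.V := by
    rw [hA0V]
    refine ⟨A.V.sub_mem (A.V.smul_mem _ hη) hδV, ?_⟩
    rw [map_sub, map_smul, hφη, hδφ, smul_eq_mul]; field_simp; ring
  -- irrationality
  have hirr0 : ∀ ψ : (Unit → Mat m) →ₗ[ℝ] ℝ, RatOn A0 ψ →
      (∀ x ∈ dlcs A0.Q δ 1, ψ (castM x) = 0) →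
      (∃ x : ℚ, ψ ((q : ℝ) • η - castM δ) = x) → ∀ x ∈ A0.Q, ψ (castM x) = 0 := by
    intro ψ hψ hψ1 ⟨x1, hx1⟩ x hx
    -- the extended functional
    let b : ℝ := (-x1 - ψ (castM δ)) / r
    let ψ' : (Unit → Mat m) →ₗ[ℝ] ℝ := ψ + b • φ
    have hψ' : ∀ v, ψ' v = ψ v + b * φ v := fun v => rfl
    have h1 : ψ' (castM δ) = -x1 := by
      rw [hψ', hδφ]
      show ψ (castM δ) + (-x1 - ψ (castM δ)) / r * r = -x1
      field_simp; ring
    have h2 : ∀ v ∈ A0.V, ψ' v = ψ v := by
      intro v hv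
      rw [hψ', ((hA0V v).1 hv).2, mul_zero, add_zero]
    have hcast : ∀ x ∈ A0.Q, castM x ∈ A0.V := fun x hx => Submodule.subset_span ⟨x, hx, rfl⟩
    have h3 : RatOn A ψ' := by
      intro x hx
      obtain ⟨y0, hy0, c', rfl⟩ := hdec x hx
      obtain ⟨z, hz⟩ := hψ y0 hy0
      refine ⟨z - c' * x1, ?_⟩
      rw [castM_add, castM_smul, map_add, map_smul, h2 _ (hcast _ hy0), hz, h1]
      push_cast
      rw [smul_eq_mul]; ring
    -- brackets
    have hbr : ∀ x ∈ A.Q, ∀ z ∈ A.Q, ψ' (castM (x * z - z * x)) = 0 := by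
      intro x hx z hz
      have hmem : x * z - z * x ∈ lcs A.Q 1 := Submodule.subset_span ⟨x, hx, z, hz, rfl⟩
      have hmem' := lcs_le_dlcs A.Q A0.Q δ hdec 1 le_rfl hmem
      rw [h2 _ (hcast _ (hdl 1 hmem'))]
      exact hψ1 _ hmem'
    have h4 : KillBr A.V ψ' := by
      intro v hv w hw
      unfold RAlg.V at hv hw
      induction hv using Submodule.span_induction with
      | mem v hv =>
        obtain ⟨x, hx, rfl⟩ := hv
        induction hw using Submodule.span_induction with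
        | mem w hw =>
          obtain ⟨z, hz, rfl⟩ := hw
          rw [← castM_mul, ← castM_mul, ← castM_sub]
          exact hbr x hx z hz
        | zero => rw [mul_zero, zero_mul, sub_zero, map_zero]
        | add y z _ _ hy hz =>
          have e : castM x * (y + z) - (y + z) * castM x =
              (castM x * y - y * castM x) + (castM x * z - z * castM x) := by noncomm_ring
          rw [e, map_add, hy, hz, add_zero]
        | smul a y _ hy =>
          rw [mul_smul_comm, smul_mul_assoc, ← smul_sub, map_smul, hy, smul_zero]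
      | zero => rw [mul_zero, zero_mul, sub_zero, map_zero]
      | add y z _ _ hy hz =>
        have e : (y + z) * w - w * (y + z) = (y * w - w * y) + (z * w - w * z) := by noncomm_ring
        rw [e, map_add, hy, hz, add_zero]
      | smul a y _ hy =>
        rw [mul_smul_comm, smul_mul_assoc, ← smul_sub, map_smul, hy, smul_zero]
    have h5 : ψ' η = 0 := by
      have e : (q : ℝ) • η = castM δ + ((q : ℝ) • η - castM δ) := by abel
      have h6 : ψ' ((q : ℝ) • η) = 0 := by
        rw [e, map_add, h1, h2 _ he, hx1]; ring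
      rw [map_smul, smul_eq_mul] at h6
      rcases mul_eq_zero.1 h6 with h | h
      · exact absurd h hqr
      · exact h
    have h7 := hirr ψ' h3 h4 (fun _ => h5)
    rw [← h2 _ (hcast x hx)]
    exact h7 _ ((hA0V _).1 (hcast x hx)).1
  refine ⟨{ A := A, η := η, hη := hη,
            X := { A := A0, δ := δ, su := hsuδ, int := ?_, der := hder,
                   e := (q : ℝ) • η - castM δ, he := he, irr := hirr0 },
            φ := φ, kill := hk, int := hint, sur := hsur, ker := hA0V, q := q, r := r,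
            hq := hq, hr := hr, φη := hφη, qη := ?_,
            lcs_le := fun k hk => lcs_le_dlcs A.Q A0.Q δ hdec k hk }, rfl, rfl⟩
  · have : expU (castM δ ()) = g () := by
      rw [hδ]
      exact congrFun (E_Lg g) ()
    rw [this]
    exact hg ()
  · show castM δ + ((q : ℝ) • η - castM δ) = (q : ℝ) • η
    abel

end MPd26.Nil
end
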